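import Mathlib

/-!
Analytic definitions for the planted clique peeling project.
-/

namespace Pool.Agent.H40.Peel

open MeasureTheory Set

/-- Standard normal density. -/
noncomputable def ph (x : ℝ) : ℝ := Real.exp (-x ^ 2 / 2) / √(2 * Real.pi)

/-- Standard normal distribution function. -/
noncomputable def Ph (x : ℝ) : ℝ := ∫ y in Iic x, ph y

/-- Standard normal tail. -/
noncomputable def Qh (x : ℝ) : ℝ := ∫ y in Ioi x, ph y

/-- Hermite polynomials (probabilists'). -/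
noncomputable def He : ℕ → ℝ → ℝ
  | 0, _ => 1
  | 1, x => x
  | k + 2, x => x * He (k + 1) x - (k + 1) * He k x

/-- `(-∂_x)^k` of the heat kernel at time `s`. -/
noncomputable def Gk (k : ℕ) (s x : ℝ) : ℝ :=
  He k (x / √s) * ph (x / √s) / √s ^ (k + 1)

/-- Survival function used for the planted vertices. -/
noncomputable def S2 (α β s : ℝ) : ℝ := 1 - Qh (β * √s + α / √s) / Qh (β * √s)

/-- Test functions: bounded, with a first order expansion in time and second order expansion in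
space, uniformly on `[0, Θ]`, and subcaloric. -/
def Nice (H : ℝ → ℝ → ℝ) (Θ C : ℝ) : Prop :=
  ∃ H1 H2 Ht : ℝ → ℝ → ℝ,
    (∀ s y, 0 ≤ s → s ≤ Θ → |H s y| ≤ C ∧ |H1 s y| ≤ C ∧ |H2 s y| ≤ C ∧ |Ht s y| ≤ C ∧
      0 ≤ Ht s y + H2 s y / 2) ∧
    ∀ s s' y δ, 0 ≤ s → s ≤ Θ → 0 ≤ s' → s' ≤ Θ → |s' - s| ≤ 1 → |δ| ≤ 1 →
      |H s' (y + δ) - H s y - Ht s y * (s' - s) - H1 s y * δ - H2 s y / 2 * δ ^ 2| ≤
        C * (|δ| ^ 3 + |s' - s| * |δ| + (s' - s) ^ 2)

end Pool.Agent.H40.Peel
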