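import Pool.Agent.H40.Peel.Defs

/-!
Expectations on the finite sample space, bit flips, and elementary facts on the process.
-/

namespace Pool.Agent.H40.Peel

open Finset

variable {n : ℕ}

/-! ### Expectation -/

lemma card_Om_pos : (0 : ℝ) < Fintype.card (Om n) := by
  exact_mod_cast Fintype.card_pos

lemma E_add (f g : Om n → ℝ) : E (fun ω => f ω + g ω) = E f + E g := by
  simp [E, Finset.sum_add_distrib, add_div]

lemma E_sub (f g : Om n → ℝ) : E (fun ω => f ω - g ω) = E f - E g := by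
  simp [E, Finset.sum_sub_distrib, sub_div]

lemma E_neg (f : Om n → ℝ) : E (fun ω => - f ω) = - E f := by
  simp [E, Finset.sum_neg_distrib, neg_div]

lemma E_mul_left (c : ℝ) (f : Om n → ℝ) : E (fun ω => c * f ω) = c * E f := by
  simp [E, ← Finset.mul_sum, mul_div_assoc]

lemma E_mul_right (c : ℝ) (f : Om n → ℝ) : E (fun ω => f ω * c) = E f * c := by
  simp only [mul_comm _ c]
  exact E_mul_left c f

lemma E_const (c : ℝ) : E (fun _ : Om n => c) = c := by
  have := (card_Om_pos (n := n)).ne'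
  simp only [E, Finset.sum_const, Finset.card_univ, nsmul_eq_mul]
  field_simp

lemma E_sum {ι : Type*} (s : Finset ι) (f : ι → Om n → ℝ) :
    E (fun ω => ∑ i ∈ s, f i ω) = ∑ i ∈ s, E (f i) := by
  simp only [E]
  rw [Finset.sum_comm, Finset.sum_div]

lemma E_mono {f g : Om n → ℝ} (h : ∀ ω, f ω ≤ g ω) : E f ≤ E g :=
  div_le_div_of_nonneg_right (Finset.sum_le_sum fun ω _ => h ω) card_Om_pos.le

lemma E_nonneg {f : Om n → ℝ} (h : ∀ ω, 0 ≤ f ω) : 0 ≤ E f :=
  div_nonneg (Finset.sum_nonneg fun ω _ => h ω) card_Om_pos.le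

lemma E_congr {f g : Om n → ℝ} (h : ∀ ω, f ω = g ω) : E f = E g := by
  congr 1
  exact funext h

lemma abs_E_le (f : Om n → ℝ) : |E f| ≤ E fun ω => |f ω| := by
  rw [abs_le]
  constructor
  · rw [← E_neg]
    exact E_mono fun ω => neg_abs_le _
  · exact E_mono fun ω => le_abs_self _

lemma E_le_of_bdd {f : Om n → ℝ} {c : ℝ} (h : ∀ ω, f ω ≤ c) : E f ≤ c := by
  rw [← E_const (n := n) c]
  exact E_mono h

/-- Cauchy-Schwarz. -/
lemma E_mul_sq_le (f g : Om n → ℝ) :
    (E fun ω => f ω * g ω) ^ 2 ≤ (E fun ω => f ω ^ 2) * E fun ω => g ω ^ 2 := by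
  have h := Finset.sum_mul_sq_le_sq_mul_sq (univ : Finset (Om n)) f g
  have hc := card_Om_pos (n := n)
  simp only [E]
  rw [div_pow, div_mul_div_comm, ← pow_two]
  exact div_le_div_of_nonneg_right h (by positivity)

lemma E_abs_mul_le (f g : Om n → ℝ) :
    (E fun ω => |f ω * g ω|) ≤ √(E fun ω => f ω ^ 2) * √(E fun ω => g ω ^ 2) := by
  rw [← Real.sqrt_mul (E_nonneg fun ω => sq_nonneg _)]
  apply Real.le_sqrt_of_sq_le
  have := E_mul_sq_le (fun ω : Om n => |f ω|) (fun ω => |g ω|)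
  simpa [abs_mul, sq_abs] using this

lemma E_abs_le_sqrt (f : Om n → ℝ) : (E fun ω => |f ω|) ≤ √(E fun ω => f ω ^ 2) := by
  have := E_abs_mul_le f (fun _ => 1)
  simpa [E_const] using this

/-! ### Probability -/

lemma Pr_nonneg (s : Om n → Prop) : 0 ≤ Pr s := by
  unfold Pr
  exact E_nonneg fun ω => by split_ifs <;> norm_num

lemma Pr_le_one (s : Om n → Prop) : Pr s ≤ 1 := by
  unfold Pr
  exact E_le_of_bdd fun ω => by split_ifs <;> norm_num

lemma Pr_mono {s t : Om n → Prop} (h : ∀ ω, s ω → t ω) : Pr s ≤ Pr t := by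
  classical
  unfold Pr
  apply E_mono
  intro ω
  by_cases h1 : s ω
  · simp [h1, h ω h1]
  · simp only [h1, if_false]
    split_ifs <;> norm_num

lemma Pr_or_le (s t : Om n → Prop) : Pr (fun ω => s ω ∨ t ω) ≤ Pr s + Pr t := by
  classical
  unfold Pr
  rw [← E_add]
  apply E_mono
  intro ω
  by_cases h1 : s ω <;> by_cases h2 : t ω <;> simp [h1, h2]

lemma Pr_not (s : Om n → Prop) : Pr (fun ω => ¬ s ω) = 1 - Pr s := by
  classical
  have h1 : Pr (fun ω => ¬ s ω) + Pr s = 1 := by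
    unfold Pr
    rw [← E_add]
    refine (E_congr fun ω => ?_).trans (E_const (n := n) 1)
    by_cases h : s ω <;> simp [h]
  linarith

lemma Pr_exists_le {ι : Type*} (s : Finset ι) (P : ι → Om n → Prop) :
    Pr (fun ω => ∃ i ∈ s, P i ω) ≤ ∑ i ∈ s, Pr (P i) := by
  classical
  induction s using Finset.induction_on with
  | empty =>
    simp only [Finset.notMem_empty, false_and, exists_false, Finset.sum_empty]
    unfold Pr
    simp [E_const]
  | insert a s ha ih =>
    rw [Finset.sum_insert ha]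
    have h1 : Pr (fun ω => ∃ i ∈ insert a s, P i ω) ≤ Pr (fun ω => P a ω ∨ ∃ i ∈ s, P i ω) := by
      apply Pr_mono
      rintro ω ⟨i, hi, h⟩
      rcases Finset.mem_insert.1 hi with rfl | hi
      · exact Or.inl h
      · exact Or.inr ⟨i, hi, h⟩
    exact h1.trans ((Pr_or_le _ _).trans (by linarith))

/-- Markov. -/
lemma Pr_le_div {f : Om n → ℝ} {s : Om n → Prop} {c : ℝ} (hc : 0 < c) (hf : ∀ ω, 0 ≤ f ω)
    (h : ∀ ω, s ω → c ≤ f ω) : Pr s ≤ E f / c := by
  classical
  rw [le_div_iff₀ hc]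
  unfold Pr
  rw [← E_mul_right]
  apply E_mono
  intro ω
  by_cases h1 : s ω
  · simpa [h1] using h ω h1
  · simpa [h1] using hf ω

/-- Splitting an expectation along a rare event. -/
lemma E_le_good {f : Om n → ℝ} {g : Om n → ℝ} {s : Om n → Prop} {B : ℝ}
    (h1 : ∀ ω, s ω → f ω ≤ g ω) (hg : ∀ ω, 0 ≤ g ω) (h2 : ∀ ω, f ω ≤ B) :
    E f ≤ E g + B * Pr (fun ω => ¬ s ω) := by
  classical
  unfold Pr
  rw [← E_mul_left, ← E_add]
  apply E_mono
  intro ω
  by_cases h : s ω
  · simpa [h] using h1 ω h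
  · have := h2 ω
    have := hg ω
    simp only [h, not_false_eq_true, if_true]
    linarith

/-! ### Flips -/

/-- Flip the bit of one pair. -/
def flp (e : Sym2 (Fin n)) (ω : Om n) : Om n := Function.update ω e (!ω e)

lemma flp_flp (e : Sym2 (Fin n)) (ω : Om n) : flp e (flp e ω) = ω := by
  funext x
  by_cases h : x = e
  · subst h; simp [flp]
  · simp [flp, h]

lemma E_flp (e : Sym2 (Fin n)) (f : Om n → ℝ) : E (fun ω => f (flp e ω)) = E f := by
  unfold E
  congr 1
  exact Equiv.sum_comp (⟨flp e, flp e, flp_flp e, flp_flp e⟩ : Om n ≃ Om n) f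

lemma flp_same (e : Sym2 (Fin n)) (ω : Om n) : flp e ω e = !ω e := by simp [flp]

lemma flp_ne {e e' : Sym2 (Fin n)} (h : e' ≠ e) (ω : Om n) : flp e ω e' = ω e' := by
  simp [flp, h]

lemma flp_comm (e e' : Sym2 (Fin n)) (ω : Om n) : flp e (flp e' ω) = flp e' (flp e ω) := by
  by_cases h : e = e'
  · rw [h]
  · funext x
    by_cases h1 : x = e
    · subst h1
      rw [flp_same, flp_ne h, flp_ne h, flp_same]
    · by_cases h2 : x = e'
      · subst h2
        rw [flp_ne h1, flp_same, flp_same, flp_ne h1]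
      · rw [flp_ne h1, flp_ne h2, flp_ne h2, flp_ne h1]

lemma sg_not (b : Bool) : sg (!b) = - sg b := by cases b <;> simp [sg]

lemma sg_sq (b : Bool) : sg b ^ 2 = 1 := by cases b <;> simp [sg]

lemma sg_cases (b : Bool) : sg b = 1 ∨ sg b = -1 := by cases b <;> simp [sg]

lemma abs_sg (b : Bool) : |sg b| = 1 := by cases b <;> simp [sg]

lemma e0_symm (ω : Om n) (v z : Fin n) : e0 ω v z = e0 ω z v := by
  unfold e0
  by_cases h : v = z
  · simp [h]
  · rw [if_neg h, if_neg (Ne.symm h), Sym2.eq_swap]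

lemma e0_self (ω : Om n) (v : Fin n) : e0 ω v v = 0 := by simp [e0]

lemma e0_of_ne (ω : Om n) {v z : Fin n} (h : v ≠ z) : e0 ω v z = sg (ω s(v, z)) := by
  simp [e0, h]

lemma abs_e0_le (ω : Om n) (v z : Fin n) : |e0 ω v z| ≤ 1 := by
  unfold e0
  split_ifs
  · simp
  · rw [abs_sg]

lemma e0_sq (ω : Om n) {v z : Fin n} (h : v ≠ z) : e0 ω v z ^ 2 = 1 := by
  rw [e0_of_ne ω h, sg_sq]

lemma ep_symm (S : Finset (Fin n)) (ω : Om n) (v z : Fin n) : ep S ω v z = ep S ω z v := by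
  unfold ep
  by_cases h : v = z
  · simp [h]
  · rw [if_neg h, if_neg (Ne.symm h), Sym2.eq_swap]
    by_cases h1 : v ∈ S <;> by_cases h2 : z ∈ S <;> simp [h1, h2]

lemma ep_self (S : Finset (Fin n)) (ω : Om n) (v : Fin n) : ep S ω v v = 0 := by simp [ep]

lemma ep_eq_e0 (S : Finset (Fin n)) (ω : Om n) {v z : Fin n} (h : v ∉ S ∨ z ∉ S) :
    ep S ω v z = e0 ω v z := by
  unfold ep e0
  have : ¬ (v ∈ S ∧ z ∈ S) := by tauto
  simp [this]

lemma ep_planted (S : Finset (Fin n)) (ω : Om n) {v z : Fin n} (hv : v ∈ S) (hz : z ∈ S)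
    (h : v ≠ z) : ep S ω v z = 1 := by
  simp [ep, h, hv, hz]

lemma e0_flp_same (ω : Om n) {v z : Fin n} (h : v ≠ z) :
    e0 (flp s(v, z) ω) v z = - e0 ω v z := by
  rw [e0_of_ne _ h, e0_of_ne _ h, flp_same, sg_not]

lemma e0_flp_ne (ω : Om n) {v z : Fin n} {e : Sym2 (Fin n)} (h : s(v, z) ≠ e) :
    e0 (flp e ω) v z = e0 ω v z := by
  unfold e0
  split_ifs
  · rfl
  · rw [flp_ne h]

lemma ep_flp_ne (S : Finset (Fin n)) (ω : Om n) {v z : Fin n} {e : Sym2 (Fin n)}
    (h : s(v, z) ≠ e) : ep S (flp e ω) v z = ep S ω v z := by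
  unfold ep
  split_ifs
  · rfl
  · rfl
  · rw [flp_ne h]

/-! ### Degrees and signs -/

lemma Hg_adj (S : Finset (Fin n)) (ω : Om n) (v z : Fin n) :
    (Hg S ω).Adj v z ↔ ep S ω v z = 1 := by
  unfold Hg plant ep
  simp only [gr]
  by_cases h : v = z
  · simp [h]
  · by_cases h2 : v ∈ S ∧ z ∈ S
    · simp [h, h2]
    · simp only [h, ne_eq, not_false_eq_true, true_and, h2, or_false, if_false]
      cases ω s(v, z) <;> simp [sg]; norm_num

lemma ep_cases (S : Finset (Fin n)) (ω : Om n) {v z : Fin n} (h : v ≠ z) :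
    ep S ω v z = 1 ∨ ep S ω v z = -1 := by
  unfold ep
  rw [if_neg h]
  split_ifs
  · exact Or.inl rfl
  · exact sg_cases _

lemma abs_ep_le (S : Finset (Fin n)) (ω : Om n) (v z : Fin n) : |ep S ω v z| ≤ 1 := by
  by_cases h : v = z
  · simp [h, ep_self]
  · rcases ep_cases S ω h with h | h <;> simp [h]

/-- `2 deg = |A| - 1 + sum of signs`. -/
lemma two_degIn (S : Finset (Fin n)) (ω : Om n) {A : Finset (Fin n)} {v : Fin n} (hv : v ∈ A) :
    2 * (degIn (Hg S ω) A v : ℝ) = A.card - 1 + ∑ z ∈ A, ep S ω v z := by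
  classical
  have h1 : (degIn (Hg S ω) A v : ℝ) = ∑ z ∈ A, if ep S ω v z = 1 then (1:ℝ) else 0 := by
    unfold degIn
    rw [Finset.card_filter]
    push_cast
    apply Finset.sum_congr rfl
    intro z _
    by_cases h : ep S ω v z = 1
    · simp [h, (Hg_adj S ω v z).2 h]
    · have : ¬ (Hg S ω).Adj v z := fun h' => h ((Hg_adj S ω v z).1 h')
      simp [h, this]
  rw [h1, ← Finset.add_sum_erase _ _ hv, ← Finset.add_sum_erase (a := v) _ (fun z => ep S ω v z) hv]
  have h2 : (A.card : ℝ) - 1 = ∑ z ∈ A.erase v, (1:ℝ) := by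
    rw [Finset.sum_const, nsmul_eq_mul, mul_one, Finset.card_erase_of_mem hv]
    have : 1 ≤ A.card := Finset.card_pos.2 ⟨v, hv⟩
    push_cast [Nat.cast_sub this]
    ring
  rw [h2, ep_self]
  simp only [zero_ne_one, if_false, zero_add]
  rw [← Finset.sum_add_distrib, Finset.mul_sum]
  apply Finset.sum_congr rfl
  intro z hz
  rcases ep_cases S ω (Finset.ne_of_mem_erase hz).symm with h | h
  · simp [h]; norm_num
  · simp [h]; norm_num

end Pool.Agent.H40.Peel
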