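import Pool.Agent.H40.Peel.DetN

/-!
Conditional expectation estimates for the signs of the pairs `{v, u}`, `u` the removed vertex.
-/

namespace Pool.Agent.H40.Peel

open Finset

variable {n : ℕ} {S : Finset (Fin n)} {R : TieRule n}

lemma gsw_same (ω : Om n) (v u z : Fin n) : gsw ω v v u z = 0 := by
  unfold gsw; ring

lemma gsw_uu (ω : Om n) (v v' u : Fin n) : gsw ω v v' u u = 0 := by
  unfold gsw; ring

/-- Number of nonplanted vertices other than `u`. -/
noncomputable def nn (S : Finset (Fin n)) (R : TieRule n) (t : ℕ) (ω : Om n) : ℝ :=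
  (((Ns S R t ω).erase (uu S R t ω)).card : ℝ)

lemma Lc_eq (t : ℕ) (ω : Om n) (w : Fin n → ℝ) :
    Lc S R t ω w = ∑ v ∈ As S R t ω, ∑ v' ∈ (Ns S R t ω).erase (uu S R t ω),
      ∑ z ∈ Ns S R t ω, if v ≠ v' ∧ z ≠ v ∧ z ≠ v' ∧ z ≠ uu S R t ω then
        w v * gsw ω v v' (uu S R t ω) z else 0 := by
  classical
  unfold Lc cof
  rw [← Finset.sum_subset (Finset.subset_univ (As S R t ω))]
  swap
  · intro v _ hv
    refine Finset.sum_eq_zero fun v' _ => Finset.sum_eq_zero fun z _ => ?_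
    simp [hv]
  refine Finset.sum_congr rfl fun v hv => ?_
  rw [← Finset.sum_subset (Finset.subset_univ ((Ns S R t ω).erase (uu S R t ω)))]
  swap
  · intro v' _ hv'
    refine Finset.sum_eq_zero fun z _ => ?_
    rw [if_neg (fun h => hv' h.2.1), zero_mul]
  refine Finset.sum_congr rfl fun v' hv' => ?_
  rw [← Finset.sum_subset (Finset.subset_univ (Ns S R t ω))]
  swap
  · intro z _ hz
    rw [if_neg (fun h => hz h.2.2.1), zero_mul]
  refine Finset.sum_congr rfl fun z hz => ?_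
  by_cases hc : v ≠ v' ∧ z ≠ v ∧ z ≠ v' ∧ z ≠ uu S R t ω
  · rw [if_pos ⟨hv, hv', hz, hc⟩, if_pos hc]
  · rw [if_neg hc, if_neg (fun h => hc h.2.2.2), zero_mul]

lemma Lf_sub_Lc (t : ℕ) (ω : Om n) (w : Fin n → ℝ) :
    |Lf S R t ω w - Lc S R t ω w| ≤ 16 * nn S R t ω * ∑ v ∈ As S R t ω, |w v| := by
  classical
  rw [Lc_eq]
  unfold Lf nn
  set A := As S R t ω
  set N := Ns S R t ω
  set u := uu S R t ω
  have h1 : ∑ v ∈ A, w v * ∑ v' ∈ N.erase u, ∑ z ∈ N, gsw ω v v' u z -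
      ∑ v ∈ A, ∑ v' ∈ N.erase u, ∑ z ∈ N,
        (if v ≠ v' ∧ z ≠ v ∧ z ≠ v' ∧ z ≠ u then w v * gsw ω v v' u z else 0) =
      ∑ v ∈ A, w v * ∑ v' ∈ N.erase u, ∑ z ∈ N,
        (if z = v ∨ z = v' then gsw ω v v' u z else 0) := by
    rw [← Finset.sum_sub_distrib]
    refine Finset.sum_congr rfl fun v _ => ?_
    rw [Finset.mul_sum, ← Finset.sum_sub_distrib, Finset.mul_sum]
    refine Finset.sum_congr rfl fun v' _ => ?_
    rw [Finset.mul_sum, ← Finset.sum_sub_distrib, Finset.mul_sum]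
    refine Finset.sum_congr rfl fun z _ => ?_
    by_cases h1 : v = v'
    · subst h1; simp [gsw_same]
    by_cases h2 : z = u
    · subst h2; simp [gsw_uu]
    by_cases h3 : z = v
    · simp [h3]
    by_cases h4 : z = v'
    · simp [h4]
    simp [h1, h2, h3, h4]
  rw [h1]
  refine (Finset.abs_sum_le_sum_abs _ _).trans ?_
  rw [Finset.mul_sum]
  refine Finset.sum_le_sum fun v _ => ?_
  rw [abs_mul]
  have h2 : |∑ v' ∈ N.erase u, ∑ z ∈ N, (if z = v ∨ z = v' then gsw ω v v' u z else 0)| ≤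
      16 * ((N.erase u).card : ℝ) := by
    refine (Finset.abs_sum_le_sum_abs _ _).trans ?_
    have : ∀ v' ∈ N.erase u, |∑ z ∈ N, (if z = v ∨ z = v' then gsw ω v v' u z else 0)| ≤ 16 := by
      intro v' _
      refine (Finset.abs_sum_le_sum_abs _ _).trans ?_
      have h3 : ∀ z ∈ N, |if z = v ∨ z = v' then gsw ω v v' u z else 0| ≤
          (if z = v then 8 else 0) + if z = v' then 8 else 0 := by
        intro z _
        have := abs_gsw_le ω v v' u z
        by_cases a : z = v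
        · by_cases b : z = v'
          · rw [if_pos (Or.inl a), if_pos a, if_pos b]; linarith
          · rw [if_pos (Or.inl a), if_pos a, if_neg b]; linarith
        · by_cases b : z = v'
          · rw [if_pos (Or.inr b), if_neg a, if_pos b]; linarith
          · simp [a, b]
      refine (Finset.sum_le_sum h3).trans ?_
      rw [Finset.sum_add_distrib, Finset.sum_ite_eq', Finset.sum_ite_eq']
      split_ifs <;> norm_num
    refine (Finset.sum_le_sum this).trans ?_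
    rw [Finset.sum_const, nsmul_eq_mul]
    linarith
  calc |w v| * |∑ v' ∈ N.erase u, ∑ z ∈ N, (if z = v ∨ z = v' then gsw ω v v' u z else 0)|
      ≤ |w v| * (16 * ((N.erase u).card : ℝ)) := mul_le_mul_of_nonneg_left h2 (abs_nonneg _)
    _ = _ := by ring

lemma abs_Lc_le (t : ℕ) (ω : Om n) (w : Fin n → ℝ) :
    |Lc S R t ω w| ≤ 8 * nn S R t ω * rr S R t ω * ∑ v ∈ As S R t ω, |w v| := by
  classical
  rw [Lc_eq]
  refine (Finset.abs_sum_le_sum_abs _ _).trans ?_
  rw [Finset.mul_sum]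
  refine Finset.sum_le_sum fun v _ => ?_
  refine (Finset.abs_sum_le_sum_abs _ _).trans ?_
  have h1 : ∀ v' ∈ (Ns S R t ω).erase (uu S R t ω), |∑ z ∈ Ns S R t ω,
      (if v ≠ v' ∧ z ≠ v ∧ z ≠ v' ∧ z ≠ uu S R t ω then
        w v * gsw ω v v' (uu S R t ω) z else 0)| ≤ 8 * rr S R t ω * |w v| := by
    intro v' _
    refine (Finset.abs_sum_le_sum_abs _ _).trans ?_
    have h2 : ∀ z ∈ Ns S R t ω, |if v ≠ v' ∧ z ≠ v ∧ z ≠ v' ∧ z ≠ uu S R t ω then
        w v * gsw ω v v' (uu S R t ω) z else 0| ≤ 8 * |w v| := by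
      intro z _
      split_ifs
      · rw [abs_mul]
        have := abs_gsw_le ω v v' (uu S R t ω) z
        nlinarith [abs_nonneg (w v)]
      · rw [abs_zero]; positivity
    refine (Finset.sum_le_sum h2).trans ?_
    rw [Finset.sum_const, nsmul_eq_mul]
    unfold rr
    linarith
  refine (Finset.sum_le_sum h1).trans ?_
  rw [Finset.sum_const, nsmul_eq_mul]
  unfold nn
  linarith

/-! ### Crude bounds -/

lemma abs_yv_le {t : ℕ} {ω : Om n} {v : Fin n} (hv : v ∈ As S R t ω) :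
    |yv S R t ω v| ≤ (As S R t ω).card := by
  rw [yv_eq hv]
  refine (Finset.abs_sum_le_sum_abs _ _).trans ?_
  refine (Finset.sum_le_sum fun z _ => abs_ep_le S ω v z).trans ?_
  simp

lemma abs_xv_le {t : ℕ} {ω : Om n} {v : Fin n} (hv : v ∈ As S R t ω) :
    |xv S R t ω v| ≤ (As S R t ω).card := by
  by_cases h : v ∈ S
  · rw [xv_eq_of_mem ((mem_Ss S R).2 ⟨hv, h⟩)]
    refine (Finset.abs_sum_le_sum_abs _ _).trans ?_
    refine (Finset.sum_le_sum fun z _ => abs_e0_le ω v z).trans ?_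
    simp only [Finset.sum_const, nsmul_eq_mul, mul_one]
    exact_mod_cast Finset.card_le_card (Ns_sub_As t ω)
  · rw [xv_eq_of_notMem ((mem_Ns S R).2 ⟨hv, h⟩)]
    refine (Finset.abs_sum_le_sum_abs _ _).trans ?_
    refine (Finset.sum_le_sum fun z _ => abs_e0_le ω v z).trans ?_
    simp

lemma abs_xbar_le (t : ℕ) (ω : Om n) : |xbar S R t ω| ≤ (As S R t ω).card := by
  unfold xbar rr
  by_cases h : (Ns S R t ω).card = 0
  · rw [h]; simp
  have hpos : (0:ℝ) < (Ns S R t ω).card := by exact_mod_cast Nat.pos_of_ne_zero h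
  rw [abs_div, abs_of_pos hpos, div_le_iff₀ hpos]
  refine (Finset.abs_sum_le_sum_abs _ _).trans ?_
  refine (Finset.sum_le_sum fun v hv => abs_xv_le (Ns_sub_As t ω hv)).trans ?_
  rw [Finset.sum_const, nsmul_eq_mul]
  linarith

lemma abs_cc_le {t : ℕ} (ht : t < n) {ω : Om n} (hm : (2:ℝ) ≤ (As S R t ω).card) :
    |cc S R t ω| ≤ 4 := by
  unfold cc
  have h1 := abs_yv_le (uu_mem' S R ht ω)
  have h2 := abs_xbar_le (S := S) (R := R) t ω
  have hpos : (0:ℝ) < (As S R t ω).card - 1 := by linarith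
  rw [abs_div, abs_of_pos hpos, div_le_iff₀ hpos]
  have := abs_sub (yv S R t ω (uu S R t ω)) (xbar S R t ω)
  linarith

lemma abs_pv_le {t : ℕ} (ht : t < n) {ω : Om n} (hm : (2:ℝ) ≤ (As S R t ω).card)
    (hr : ((As S R t ω).card : ℝ) / 2 ≤ rr S R t ω) {v : Fin n} (hv : v ∈ As S R t ω) :
    |pv S R t ω v| ≤ 6 := by
  unfold pv
  have h1 := abs_cc_le (S := S) (R := R) ht hm
  have h2 := abs_xv_le hv
  have hr0 : 0 < rr S R t ω := by linarith
  have h3 : |xv S R t ω v / rr S R t ω| ≤ 2 := by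
    rw [abs_div, abs_of_pos hr0, div_le_iff₀ hr0]
    linarith
  refine (abs_add_le _ _).trans (by linarith)

lemma sum_wc_le {t : ℕ} {ω : Om n} (w : Fin n → ℝ)
    (hk : 2 * ((S.card : ℝ) + 1) ≤ (As S R t ω).card) :
    ∑ v ∈ As S R t ω, |wc S R t ω w v| ≤ 2 * ∑ v ∈ As S R t ω, |w v| := by
  set A := As S R t ω with hA
  have hk0 : (0:ℝ) ≤ S.card := Nat.cast_nonneg _
  have hm2 : (2:ℝ) ≤ A.card := by linarith
  have hSk : ((Ss S R t ω).card : ℝ) ≤ S.card := by exact_mod_cast card_Ss_le S R t ω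
  have h0 : |∑ x ∈ A, w x| ≤ ∑ x ∈ A, |w x| := Finset.abs_sum_le_sum_abs _ _
  have h1 : ∀ v ∈ A, |wc S R t ω w v| ≤ |w v| +
      (if v ∈ Ss S R t ω then (∑ x ∈ A, |w x|) / (A.card - 1) else 0) := by
    intro v _
    unfold wc
    refine (abs_sub _ _).trans ?_
    split_ifs
    · rw [abs_div, abs_of_pos (show (0:ℝ) < A.card - 1 by linarith)]
      have : |∑ x ∈ A, w x| / ((A.card : ℝ) - 1) ≤ (∑ x ∈ A, |w x|) / (A.card - 1) :=
        div_le_div_of_nonneg_right h0 (by linarith)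
      linarith
    · simp
  refine (Finset.sum_le_sum h1).trans ?_
  rw [Finset.sum_add_distrib, ← Finset.sum_filter, Finset.filter_mem_eq_inter,
      Finset.inter_eq_right.2 (Ss_sub_As t ω), Finset.sum_const, nsmul_eq_mul]
  have h2 : (0:ℝ) ≤ ∑ x ∈ A, |w x| := Finset.sum_nonneg fun _ _ => abs_nonneg _
  have h3 : ((Ss S R t ω).card : ℝ) * ((∑ x ∈ A, |w x|) / (A.card - 1)) ≤ ∑ x ∈ A, |w x| := by
    rw [← mul_div_assoc, div_le_iff₀ (by linarith)]
    nlinarith
  linarith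

/-! ### The centred sum minus the switching term -/

/-- Centred sum. -/
noncomputable def Xw (S : Finset (Fin n)) (R : TieRule n) (t : ℕ) (ω : Om n) (w : Fin n → ℝ) :
    ℝ := ∑ v ∈ As S R t ω, w v * (e0 ω v (uu S R t ω) - pv S R t ω v)

/-- Centred sum minus switching term. -/
noncomputable def Dw (S : Finset (Fin n)) (R : TieRule n) (t : ℕ) (ω : Om n) (w : Fin n → ℝ) :
    ℝ := Xw S R t ω w - Lc S R t ω (wc S R t ω w) / ((rr S R t ω - 1) * rr S R t ω)

section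

variable {t : ℕ} {ω : Om n} {β : ℝ} {w : Fin n → ℝ}

lemma nn_eq (ht : t < n) (hk : 2 * ((S.card : ℝ) + 1) ≤ (As S R t ω).card)
    (hu : uu S R t ω ∉ S) : nn S R t ω = rr S R t ω - 1 := (sizes ht hk hu).2.1

lemma abs_Dw_le (ht : t < n) (hk : 2 * ((S.card : ℝ) + 1) ≤ (As S R t ω).card)
    (hu : uu S R t ω ∉ S) (hβ : 0 ≤ β) (hop : OpB ω (As S R t ω) β) :
    |Dw S R t ω w| ≤ errN S R β t ω w +
      64 * (∑ v ∈ As S R t ω, |w v|) / (As S R t ω).card := by
  obtain ⟨hm1, hn1, hkS, hhalf, hm2⟩ := sizes ht hk hu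
  have h1 := detN (w := w) ht hk hu hβ hop
  have h2 := Lf_sub_Lc (S := S) (R := R) t ω (wc S R t ω w)
  have h3 := sum_wc_le w hk
  rw [nn_eq ht hk hu] at h2
  set r := rr S R t ω with hr
  have hr1 : 0 < r - 1 := by linarith
  have hr0 : 0 < r := by linarith
  have hm0 : (0:ℝ) < (As S R t ω).card := by linarith
  have hpos : 0 < (r - 1) * r := mul_pos hr1 hr0
  have h4 : Dw S R t ω w = (Xw S R t ω w - Lf S R t ω (wc S R t ω w) / ((r - 1) * r)) +
      (Lf S R t ω (wc S R t ω w) - Lc S R t ω (wc S R t ω w)) / ((r - 1) * r) := by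
    unfold Dw
    rw [← hr]
    ring
  rw [h4]
  refine (abs_add_le _ _).trans (add_le_add h1 ?_)
  rw [abs_div, abs_of_pos hpos, div_le_div_iff₀ hpos hm0]
  have h5 : 0 ≤ ∑ v ∈ As S R t ω, |w v| := Finset.sum_nonneg fun _ _ => abs_nonneg _
  calc |Lf S R t ω (wc S R t ω w) - Lc S R t ω (wc S R t ω w)| * (As S R t ω).card
      ≤ (16 * (r - 1) * (2 * ∑ v ∈ As S R t ω, |w v|)) * (2 * r) := by
        apply mul_le_mul _ (by linarith) hm0.le (by positivity)
        exact h2.trans (mul_le_mul_of_nonneg_left h3 (by positivity))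
    _ = _ := by ring

lemma abs_Xw_le (ht : t < n) (hk : 2 * ((S.card : ℝ) + 1) ≤ (As S R t ω).card) 
    (hr : ((As S R t ω).card : ℝ) / 2 ≤ rr S R t ω) :
    |Xw S R t ω w| ≤ 7 * ∑ v ∈ As S R t ω, |w v| := by
  have hk0 : (0:ℝ) ≤ S.card := Nat.cast_nonneg _
  unfold Xw
  refine (Finset.abs_sum_le_sum_abs _ _).trans ?_
  rw [Finset.mul_sum]
  refine Finset.sum_le_sum fun v hv => ?_
  rw [abs_mul]
  have h1 := abs_e0_le ω v (uu S R t ω)
  have h2 := abs_pv_le ht (by linarith) hr hv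
  have h3 := abs_sub (e0 ω v (uu S R t ω)) (pv S R t ω v)
  nlinarith [abs_nonneg (w v)]

lemma abs_Dw_le' (ht : t < n) (hk : 2 * ((S.card : ℝ) + 1) ≤ (As S R t ω).card)
    (hu : uu S R t ω ∉ S) :
    |Dw S R t ω w| ≤ 23 * ∑ v ∈ As S R t ω, |w v| := by
  obtain ⟨hm1, hn1, hkS, hhalf, hm2⟩ := sizes ht hk hu
  have h1 := abs_Xw_le (w := w) ht hk (by linarith)
  have h2 := abs_Lc_le (S := S) (R := R) t ω (wc S R t ω w)
  have h3 := sum_wc_le w hk
  rw [nn_eq ht hk hu] at h2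
  set r := rr S R t ω with hr
  have hr1 : 0 < r - 1 := by linarith
  have hr0 : 0 < r := by linarith
  have hpos : 0 < (r - 1) * r := mul_pos hr1 hr0
  unfold Dw
  rw [← hr]
  refine (abs_sub _ _).trans ?_
  rw [abs_div, abs_of_pos hpos]
  have h5 : |Lc S R t ω (wc S R t ω w)| / ((r - 1) * r) ≤ 16 * ∑ v ∈ As S R t ω, |w v| := by
    rw [div_le_iff₀ hpos]
    refine h2.trans ?_
    have : 8 * (r - 1) * r * ∑ v ∈ As S R t ω, |wc S R t ω w v| ≤
        8 * (r - 1) * r * (2 * ∑ v ∈ As S R t ω, |w v|) :=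
      mul_le_mul_of_nonneg_left h3 (by positivity)
    linarith
  linarith

end

lemma HM_rr (t : ℕ) : HM S R t (rr S R t) := (HM_Ns t).comp fun A => (A.card : ℝ)

lemma HM_xbar (t : ℕ) : HM S R t (xbar S R t) := by
  intro ω ω' h
  unfold xbar
  rw [HM_Ns t ω ω' h, HM_xv t ω ω' h, HM_rr t ω ω' h]

lemma HM_cc (t : ℕ) : HM S R t (cc S R t) := by
  intro ω ω' h
  unfold cc
  rw [HM_yv t ω ω' h, HM_uu t ω ω' h, HM_xbar t ω ω' h, HM_As t ω ω' h]

lemma HM_pv (t : ℕ) : HM S R t (pv S R t) := by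
  intro ω ω' h
  funext v
  unfold pv
  rw [HM_xv t ω ω' h, HM_rr t ω ω' h, HM_cc t ω ω' h]

lemma HM_wc {t : ℕ} {w : Om n → Fin n → ℝ} (hw : HM S R t w) :
    HM S R t fun ω => wc S R t ω (w ω) := by
  intro ω ω' h
  funext v
  unfold wc
  beta_reduce
  rw [hw ω ω' h, HM_Ss t ω ω' h, HM_As t ω ω' h]

/-- Support condition on weights (no restriction on planted vertices). -/
def SupA (S : Finset (Fin n)) (R : TieRule n) (t : ℕ) (w : Om n → Fin n → ℝ) : Prop :=
  ∀ ω v, w ω v ≠ 0 → v ∈ As S R t ω ∧ v ≠ uu S R t ω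

lemma Sup_wc {t : ℕ} {w : Om n → Fin n → ℝ} (hs : SupA S R t w) :
    Sup S R t fun ω v => if uu S R t ω ∈ S then 0 else wc S R t ω (w ω) v := by
  intro ω v h
  beta_reduce at h
  split_ifs at h with hu
  · exact absurd rfl h
  · by_cases hv : v ∈ Ss S R t ω
    · exact ⟨Ss_sub_As t ω hv, fun h' => hu (h' ▸ ((mem_Ss S R).1 hv).2), fun h' => absurd h' hu⟩
    · unfold wc at h
      rw [if_neg hv, sub_zero] at h
      exact ⟨(hs ω v h).1, (hs ω v h).2, fun h' => absurd h' hu⟩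

lemma HM_wc' {t : ℕ} {w : Om n → Fin n → ℝ} (hw : HM S R t w) :
    HM S R t fun ω v => if uu S R t ω ∈ S then 0 else wc S R t ω (w ω) v := by
  intro ω ω' h
  funext v
  have a1 : wc S R t ω (w ω) = wc S R t ω' (w ω') := HM_wc hw ω ω' h
  have a2 : uu S R t ω = uu S R t ω' := HM_uu t ω ω' h
  beta_reduce
  rw [a1, a2]

lemma E_Lc_wc {t : ℕ} (ht : t < n) {F : Om n → ℝ} {w : Om n → Fin n → ℝ} (hF : HM S R t F)
    (hw : HM S R t w) (hs : SupA S R t w) :
    E (fun ω => if uu S R t ω ∈ S then 0 else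
      F ω * (Lc S R t ω (wc S R t ω (w ω)) / ((rr S R t ω - 1) * rr S R t ω))) = 0 := by
  have h1 := E_Lc ht (F := fun ω => F ω / ((rr S R t ω - 1) * rr S R t ω))
    (hF.comp₂ (fun a b => a / ((b - 1) * b)) (HM_rr t)) (HM_wc' hw) (Sup_wc hs)
  refine (E_congr fun ω => ?_).trans h1
  by_cases hu : uu S R t ω ∈ S
  · simp only [hu, if_true]
    have : Lc S R t ω (fun _ => (0:ℝ)) = 0 := by
      rw [Lc_eq]; simp
    rw [this, mul_zero]
  · simp only [hu, if_false]
    ring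

/-- First order estimate. -/
theorem ce1 {t : ℕ} (ht : t < n) (hk : 2 * ((S.card : ℝ) + 1) ≤ ((n - t : ℕ) : ℝ))
    {F : Om n → ℝ} {w : Om n → Fin n → ℝ} (hF : HM S R t F) (hw : HM S R t w)
    (hs : SupA S R t w) {β : ℝ} (hβ : 0 ≤ β) {B : ℝ}
    (hB : ∀ ω, |F ω| * (23 * ∑ v ∈ As S R t ω, |w ω v|) ≤ B) :
    |E (fun ω => if uu S R t ω ∈ S then 0 else F ω * Xw S R t ω (w ω))| ≤
      E (fun ω => if uu S R t ω ∈ S then 0 else |F ω| * (errN S R β t ω (w ω) +
        64 * (∑ v ∈ As S R t ω, |w ω v|) / ((n - t : ℕ) : ℝ))) +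
      B * Pr (fun ω => ¬ OpB ω (As S R t ω) β) := by
  have hcard : ∀ ω, (((As S R t ω).card : ℕ) : ℝ) = ((n - t : ℕ) : ℝ) := fun ω => by
    rw [card_As S R ht.le ω]
  have h0 : E (fun ω => if uu S R t ω ∈ S then 0 else F ω * Xw S R t ω (w ω)) =
      E (fun ω => if uu S R t ω ∈ S then 0 else F ω * Dw S R t ω (w ω)) := by
    have h1 := E_Lc_wc ht hF hw hs
    have h2 := E_sub (fun ω => if uu S R t ω ∈ S then 0 else F ω * Xw S R t ω (w ω))
      (fun ω => if uu S R t ω ∈ S then 0 else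
        F ω * (Lc S R t ω (wc S R t ω (w ω)) / ((rr S R t ω - 1) * rr S R t ω)))
    rw [h1, sub_zero] at h2
    rw [← h2]
    apply E_congr
    intro ω
    by_cases hu : uu S R t ω ∈ S
    · simp [hu]
    · simp only [hu, if_false, Dw]
      ring
  rw [h0]
  refine (abs_E_le _).trans ?_
  apply E_le_good
  · intro ω hω
    by_cases hu : uu S R t ω ∈ S
    · simp [hu]
    · simp only [hu, if_false]
      rw [abs_mul, ← hcard ω]
      exact mul_le_mul_of_nonneg_left (abs_Dw_le ht (by rw [hcard]; exact hk) hu hβ hω)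
        (abs_nonneg _)
  · intro ω
    by_cases hu : uu S R t ω ∈ S
    · simp [hu]
    · simp only [hu, if_false]
      unfold errN
      have := nrm_nonneg (Ns S R t ω) (w ω)
      have := nrm_nonneg (As S R t ω) (w ω)
      have : 0 ≤ ∑ v ∈ As S R t ω, |w ω v| := Finset.sum_nonneg fun _ _ => abs_nonneg _
      positivity
  · intro ω
    by_cases hu : uu S R t ω ∈ S
    · simp only [hu, if_true, abs_zero]
      exact le_trans (mul_nonneg (abs_nonneg _) (mul_nonneg (by norm_num)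
        (Finset.sum_nonneg fun _ _ => abs_nonneg _))) (hB ω)
    · simp only [hu, if_false]
      rw [abs_mul]
      exact (mul_le_mul_of_nonneg_left (abs_Dw_le' ht (by rw [hcard]; exact hk) hu)
        (abs_nonneg _)).trans (hB ω)

end Pool.Agent.H40.Peel
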