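import Pool.Agent.H40.Peel.CE

/-!
Second order conditional expectation estimates.
-/

namespace Pool.Agent.H40.Peel

open Finset

variable {n : ℕ} {S : Finset (Fin n)} {R : TieRule n}

lemma cof_sum_le (t : ℕ) (ω : Om n) (w d : Fin n → ℝ) :
    ∑ v, ∑ v', ∑ z, |cof S R t ω w v v' z| * (8 * (|d v| + |d v'|)) ≤
      8 * rr S R t ω * (nn S R t ω * ∑ v ∈ As S R t ω, |w v| * |d v| +
        (∑ v ∈ As S R t ω, |w v|) * ∑ v ∈ Ns S R t ω, |d v|) := by
  classical
  set A := As S R t ω with hA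
  set N := Ns S R t ω with hN
  set u := uu S R t ω with hu
  have h1 : ∑ v, ∑ v', ∑ z, |cof S R t ω w v v' z| * (8 * (|d v| + |d v'|)) ≤
      ∑ v ∈ A, ∑ v' ∈ N.erase u, ∑ z ∈ N, |w v| * (8 * (|d v| + |d v'|)) := by
    rw [← Finset.sum_subset (Finset.subset_univ A)]
    swap
    · intro v _ hv
      refine Finset.sum_eq_zero fun v' _ => Finset.sum_eq_zero fun z _ => ?_
      have : cof S R t ω w v v' z = 0 := by
        unfold cof; rw [if_neg (fun h => hv h.1)]
      rw [this]; simp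
    refine Finset.sum_le_sum fun v hv => ?_
    rw [← Finset.sum_subset (Finset.subset_univ (N.erase u))]
    swap
    · intro v' _ hv'
      refine Finset.sum_eq_zero fun z _ => ?_
      have : cof S R t ω w v v' z = 0 := by
        unfold cof; rw [if_neg (fun h => hv' h.2.1)]
      rw [this]; simp
    refine Finset.sum_le_sum fun v' hv' => ?_
    rw [← Finset.sum_subset (Finset.subset_univ N)]
    swap
    · intro z _ hz
      have : cof S R t ω w v v' z = 0 := by
        unfold cof; rw [if_neg (fun h => hz h.2.2.1)]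
      rw [this]; simp
    refine Finset.sum_le_sum fun z hz => ?_
    apply mul_le_mul_of_nonneg_right _ (by positivity)
    unfold cof
    split_ifs
    · exact le_rfl
    · rw [abs_zero]; exact abs_nonneg _
  refine h1.trans ?_
  have h2 : ∀ v ∈ A, ∑ v' ∈ N.erase u, ∑ z ∈ N, |w v| * (8 * (|d v| + |d v'|)) ≤
      8 * rr S R t ω * (nn S R t ω * (|w v| * |d v|) + |w v| * ∑ v ∈ N, |d v|) := by
    intro v _
    simp only [Finset.sum_const, nsmul_eq_mul]
    have h3 : ∑ v' ∈ N.erase u, |d v'| ≤ ∑ v' ∈ N, |d v'| :=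
      Finset.sum_le_sum_of_subset_of_nonneg (Finset.erase_subset _ _) fun _ _ _ => abs_nonneg _
    have h4 : ∑ v' ∈ N.erase u, (N.card : ℝ) * (|w v| * (8 * (|d v| + |d v'|))) =
        8 * N.card * ((N.erase u).card * (|w v| * |d v|) + |w v| * ∑ v' ∈ N.erase u, |d v'|) := by
      rw [← Finset.mul_sum, ← Finset.mul_sum, ← Finset.mul_sum, Finset.sum_add_distrib,
        Finset.sum_const, nsmul_eq_mul]
      ring
    rw [h4]
    unfold rr nn
    apply mul_le_mul_of_nonneg_left _ (by positivity)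
    apply add_le_add le_rfl
    exact mul_le_mul_of_nonneg_left h3 (abs_nonneg _)
  refine (Finset.sum_le_sum h2).trans (le_of_eq ?_)
  rw [← Finset.mul_sum, Finset.sum_add_distrib, ← Finset.mul_sum, ← Finset.sum_mul]

lemma sum_abs_sq_le (A : Finset (Fin n)) (w : Fin n → ℝ) :
    (∑ v ∈ A, |w v|) ^ 2 ≤ A.card * nrm A w ^ 2 := by
  have := sum_abs_le A w
  have h := pow_le_pow_left₀ (Finset.sum_nonneg fun _ _ => abs_nonneg _) this 2
  rwa [mul_pow, Real.sq_sqrt (Nat.cast_nonneg _)] at h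

lemma abs_Yw_le (t : ℕ) (ω : Om n) (d : Fin n → ℝ) :
    |Yw S R t ω d| ≤ ∑ v ∈ As S R t ω, |d v| := by
  unfold Yw
  refine (Finset.abs_sum_le_sum_abs _ _).trans (Finset.sum_le_sum fun v _ => ?_)
  rw [abs_mul]
  have := abs_e0_le ω v (uu S R t ω)
  nlinarith [abs_nonneg (d v)]

lemma Yw_eq_univ {t : ℕ} {w : Om n → Fin n → ℝ} (hs : SupA S R t w) (ω : Om n) :
    Yw S R t ω (w ω) = ∑ x, w ω x * e0 ω x (uu S R t ω) := by
  unfold Yw
  rw [← Finset.sum_subset (Finset.subset_univ (As S R t ω))]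
  intro x _ hx
  have : w ω x = 0 := by
    by_contra h
    exact hx (hs ω x h).1
  rw [this, zero_mul]

/-- Second order estimate with the same weights. -/
theorem ce2 {t : ℕ} (ht : t < n) (hk : 2 * ((S.card : ℝ) + 1) ≤ ((n - t : ℕ) : ℝ))
    {F : Om n → ℝ} {w : Om n → Fin n → ℝ} (hF : HM S R t F) (hw : HM S R t w)
    (hs : SupA S R t w) {β : ℝ} (hβ : 0 ≤ β) {B : ℝ}
    (hB : ∀ ω, |F ω| * (23 * (∑ v ∈ As S R t ω, |w ω v|) ^ 2) ≤ B) :
    |E (fun ω => if uu S R t ω ∈ S then 0 else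
        F ω * Xw S R t ω (w ω) * Yw S R t ω (w ω))| ≤
      E (fun ω => if uu S R t ω ∈ S then 0 else |F ω| * (|Yw S R t ω (w ω)| *
        (errN S R β t ω (w ω) + 64 * (∑ v ∈ As S R t ω, |w ω v|) / ((n - t : ℕ) : ℝ)) +
        56 * nrm (As S R t ω) (w ω) ^ 2)) +
      B * Pr (fun ω => ¬ OpB ω (As S R t ω) β) := by
  have hcard : ∀ ω, (((As S R t ω).card : ℕ) : ℝ) = ((n - t : ℕ) : ℝ) := fun ω => by
    rw [card_As S R ht.le ω]
  set G : Om n → ℝ := fun ω => F ω / ((rr S R t ω - 1) * rr S R t ω) with hG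
  have hGm : HM S R t G := hF.comp₂ (fun a b => a / ((b - 1) * b)) (HM_rr t)
  have hsec := E_Lc_mul ht hGm (HM_wc' hw) (Sup_wc hs) hw
  -- rewrite both sides
  have hL : E (fun ω => G ω * Lc S R t ω (fun v => if uu S R t ω ∈ S then 0 else
      wc S R t ω (w ω) v) * ∑ x, w ω x * e0 ω x (uu S R t ω)) =
      E (fun ω => if uu S R t ω ∈ S then 0 else F ω * (Lc S R t ω (wc S R t ω (w ω)) /
        ((rr S R t ω - 1) * rr S R t ω)) * Yw S R t ω (w ω)) := by
    apply E_congr
    intro ω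
    rw [← Yw_eq_univ hs]
    by_cases hu : uu S R t ω ∈ S
    · simp only [hu, if_true]
      have : Lc S R t ω (fun _ => (0:ℝ)) = 0 := by
        rw [Lc_eq]; simp
      rw [this]; ring
    · simp only [hu, if_false, hG]
      ring
  rw [hL] at hsec
  have hR : E (fun ω => |G ω| * ∑ v, ∑ v', ∑ z,
        |cof S R t ω (fun v => if uu S R t ω ∈ S then 0 else wc S R t ω (w ω) v) v v' z| *
          (8 * (|w ω v| + |w ω v'|))) ≤
      E (fun ω => if uu S R t ω ∈ S then 0 else |F ω| * (56 * nrm (As S R t ω) (w ω) ^ 2)) := by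
    apply E_mono
    intro ω
    have hc := cof_sum_le (S := S) (R := R) t ω
      (fun v => if uu S R t ω ∈ S then 0 else wc S R t ω (w ω) v) (w ω)
    by_cases hu : uu S R t ω ∈ S
    · simp only [hu, if_true, abs_zero, zero_mul, Finset.sum_const_zero, mul_zero,
        add_zero] at hc ⊢
      have := mul_le_mul_of_nonneg_left hc (abs_nonneg (G ω))
      simpa using this
    · simp only [hu, if_false] at hc ⊢
      have hk' : 2 * ((S.card : ℝ) + 1) ≤ (As S R t ω).card := by rw [hcard]; exact hk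
      obtain ⟨hm1, hn1, hkS, hhalf, hm2⟩ := sizes ht hk' hu
      have hnn := nn_eq ht hk' hu
      set m : ℝ := ((As S R t ω).card : ℝ) with hm
      set r := rr S R t ω with hr
      have hr1 : 0 < r - 1 := by linarith
      have hr0 : 0 < r := by linarith
      have hpos : 0 < (r - 1) * r := mul_pos hr1 hr0
      have hnA := nrm_nonneg (As S R t ω) (w ω)
      have e1 : ∑ v ∈ As S R t ω, |wc S R t ω (w ω) v| * |w ω v| ≤
          3 * nrm (As S R t ω) (w ω) ^ 2 := by
        have h := cs (As S R t ω) (fun v => |wc S R t ω (w ω) v|) (fun v => |w ω v|)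
        have h1 : nrm (As S R t ω) (fun v => |wc S R t ω (w ω) v|) =
            nrm (As S R t ω) (wc S R t ω (w ω)) := by unfold nrm; simp [sq_abs]
        have h2 : nrm (As S R t ω) (fun v => |w ω v|) = nrm (As S R t ω) (w ω) := by
          unfold nrm; simp [sq_abs]
        rw [h1, h2] at h
        have h3 := nrm_wc_le (w := w ω) hk'
        calc _ ≤ _ := le_abs_self _
          _ ≤ _ := h
          _ ≤ (3 * nrm (As S R t ω) (w ω)) * nrm (As S R t ω) (w ω) :=
              mul_le_mul_of_nonneg_right h3 hnA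
          _ = _ := by ring
      have e2 : (∑ v ∈ As S R t ω, |wc S R t ω (w ω) v|) * ∑ v ∈ Ns S R t ω, |w ω v| ≤
          2 * (m * nrm (As S R t ω) (w ω) ^ 2) := by
        have h1 := sum_wc_le (w ω) hk'
        have h2 : ∑ v ∈ Ns S R t ω, |w ω v| ≤ ∑ v ∈ As S R t ω, |w ω v| :=
          Finset.sum_le_sum_of_subset_of_nonneg (Ns_sub_As t ω) fun _ _ _ => abs_nonneg _
        have h3 := sum_abs_sq_le (As S R t ω) (w ω)
        have h4 : 0 ≤ ∑ v ∈ Ns S R t ω, |w ω v| := Finset.sum_nonneg fun _ _ => abs_nonneg _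
        calc _ ≤ (2 * ∑ v ∈ As S R t ω, |w ω v|) * ∑ v ∈ As S R t ω, |w ω v| :=
              mul_le_mul h1 h2 h4 (by linarith)
          _ = 2 * (∑ v ∈ As S R t ω, |w ω v|) ^ 2 := by ring
          _ ≤ _ := by linarith
      rw [hnn] at hc
      have hGabs : |G ω| = |F ω| / ((r - 1) * r) := by
        rw [hG]; simp only; rw [abs_div, abs_of_pos hpos]
      rw [hGabs]
      have hfin : 8 * r * ((r - 1) * ∑ v ∈ As S R t ω, |wc S R t ω (w ω) v| * |w ω v| +
          (∑ v ∈ As S R t ω, |wc S R t ω (w ω) v|) * ∑ v ∈ Ns S R t ω, |w ω v|) ≤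
          56 * nrm (As S R t ω) (w ω) ^ 2 * ((r - 1) * r) := by
        have e3 : (r - 1) * ∑ v ∈ As S R t ω, |wc S R t ω (w ω) v| * |w ω v| ≤
            (r - 1) * (3 * nrm (As S R t ω) (w ω) ^ 2) := mul_le_mul_of_nonneg_left e1 hr1.le
        have e4 : 2 * (m * nrm (As S R t ω) (w ω) ^ 2) ≤
            4 * (r - 1) * nrm (As S R t ω) (w ω) ^ 2 := by
          nlinarith [sq_nonneg (nrm (As S R t ω) (w ω))]
        have e5 : (r - 1) * ∑ v ∈ As S R t ω, |wc S R t ω (w ω) v| * |w ω v| +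
          (∑ v ∈ As S R t ω, |wc S R t ω (w ω) v|) * ∑ v ∈ Ns S R t ω, |w ω v| ≤
            7 * (r - 1) * nrm (As S R t ω) (w ω) ^ 2 := by linarith
        calc _ ≤ 8 * r * (7 * (r - 1) * nrm (As S R t ω) (w ω) ^ 2) :=
              mul_le_mul_of_nonneg_left e5 (by positivity)
          _ = _ := by ring
      calc |F ω| / ((r - 1) * r) * _ ≤ |F ω| / ((r - 1) * r) *
            (56 * nrm (As S R t ω) (w ω) ^ 2 * ((r - 1) * r)) :=
            mul_le_mul_of_nonneg_left (hc.trans hfin) (by positivity)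
        _ = _ := by field_simp
  have hsec2 := hsec.trans hR
  -- the remaining part
  have hsplit : E (fun ω => if uu S R t ω ∈ S then 0 else
        F ω * Xw S R t ω (w ω) * Yw S R t ω (w ω)) =
      E (fun ω => if uu S R t ω ∈ S then 0 else F ω * Dw S R t ω (w ω) * Yw S R t ω (w ω)) +
      E (fun ω => if uu S R t ω ∈ S then 0 else F ω * (Lc S R t ω (wc S R t ω (w ω)) /
        ((rr S R t ω - 1) * rr S R t ω)) * Yw S R t ω (w ω)) := by
    rw [← E_add]
    apply E_congr
    intro ω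
    by_cases hu : uu S R t ω ∈ S
    · simp [hu]
    · simp only [hu, if_false, Dw]
      ring
  rw [hsplit]
  refine (abs_add_le _ _).trans ?_
  have hD : |E (fun ω => if uu S R t ω ∈ S then 0 else
      F ω * Dw S R t ω (w ω) * Yw S R t ω (w ω))| ≤
      E (fun ω => if uu S R t ω ∈ S then 0 else |F ω| * (|Yw S R t ω (w ω)| *
        (errN S R β t ω (w ω) + 64 * (∑ v ∈ As S R t ω, |w ω v|) / ((n - t : ℕ) : ℝ)))) +
      B * Pr (fun ω => ¬ OpB ω (As S R t ω) β) := by
    refine (abs_E_le _).trans ?_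
    apply E_le_good
    · intro ω hω
      by_cases hu : uu S R t ω ∈ S
      · simp [hu]
      · simp only [hu, if_false]
        rw [abs_mul, abs_mul, ← hcard ω, mul_assoc, mul_comm |Dw S R t ω (w ω)|]
        apply mul_le_mul_of_nonneg_left _ (abs_nonneg _)
        exact mul_le_mul_of_nonneg_left (abs_Dw_le ht (by rw [hcard]; exact hk) hu hβ hω)
          (abs_nonneg _)
    · intro ω
      by_cases hu : uu S R t ω ∈ S
      · simp [hu]
      · simp only [hu, if_false]
        unfold errN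
        have := nrm_nonneg (Ns S R t ω) (w ω)
        have := nrm_nonneg (As S R t ω) (w ω)
        have : 0 ≤ ∑ v ∈ As S R t ω, |w ω v| := Finset.sum_nonneg fun _ _ => abs_nonneg _
        positivity
    · intro ω
      have hsum : 0 ≤ ∑ v ∈ As S R t ω, |w ω v| := Finset.sum_nonneg fun _ _ => abs_nonneg _
      by_cases hu : uu S R t ω ∈ S
      · simp only [hu, if_true, abs_zero]
        exact le_trans (by positivity) (hB ω)
      · simp only [hu, if_false]
        rw [abs_mul, abs_mul, mul_assoc]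
        refine le_trans ?_ (hB ω)
        apply mul_le_mul_of_nonneg_left _ (abs_nonneg _)
        calc |Dw S R t ω (w ω)| * |Yw S R t ω (w ω)| ≤
            (23 * ∑ v ∈ As S R t ω, |w ω v|) * ∑ v ∈ As S R t ω, |w ω v| :=
              mul_le_mul (abs_Dw_le' ht (by rw [hcard]; exact hk) hu) (abs_Yw_le t ω _)
                (abs_nonneg _) (by positivity)
          _ = _ := by ring
  have hcomb : E (fun ω => if uu S R t ω ∈ S then 0 else |F ω| * (|Yw S R t ω (w ω)| *
        (errN S R β t ω (w ω) + 64 * (∑ v ∈ As S R t ω, |w ω v|) / ((n - t : ℕ) : ℝ)) +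
        56 * nrm (As S R t ω) (w ω) ^ 2)) =
      E (fun ω => if uu S R t ω ∈ S then 0 else |F ω| * (|Yw S R t ω (w ω)| *
        (errN S R β t ω (w ω) + 64 * (∑ v ∈ As S R t ω, |w ω v|) / ((n - t : ℕ) : ℝ)))) +
      E (fun ω => if uu S R t ω ∈ S then 0 else |F ω| * (56 * nrm (As S R t ω) (w ω) ^ 2)) := by
    rw [← E_add]
    apply E_congr
    intro ω
    by_cases hu : uu S R t ω ∈ S
    · simp [hu]
    · simp only [hu, if_false]
      ring
  rw [hcomb]
  linarith

/-- The part of the error that does not involve `Yw`. -/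
noncomputable def errP (S : Finset (Fin n)) (R : TieRule n) (β : ℝ) (t : ℕ) (ω : Om n)
    (w : Fin n → ℝ) : ℝ :=
  2 * β * √(S.card : ℝ) * nrm (Ns S R t ω) w / (As S R t ω).card +
    (3 * |∑ v ∈ As S R t ω, w v| * β + 18 * β ^ 2 * nrm (As S R t ω) w +
      9 * |rho S R t ω| * β * nrm (As S R t ω) w) /
      ((As S R t ω).card * √((As S R t ω).card : ℝ)) +
    4 * β * |∑ v ∈ As S R t ω, w v| * S.card / (As S R t ω).card ^ 2

lemma errN_eq (β : ℝ) (t : ℕ) (ω : Om n) (w : Fin n → ℝ) :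
    errN S R β t ω w = errP S R β t ω w + 2 * β / (As S R t ω).card * |Yw S R t ω w| := by
  unfold errN errP
  ring

/-- The sum of the conditional means. -/
noncomputable def Pw (S : Finset (Fin n)) (R : TieRule n) (t : ℕ) (ω : Om n) (w : Fin n → ℝ) :
    ℝ := ∑ v ∈ As S R t ω, w v * pv S R t ω v

lemma Yw_eq_Xw (t : ℕ) (ω : Om n) (w : Fin n → ℝ) :
    Yw S R t ω w = Xw S R t ω w + Pw S R t ω w := by
  unfold Yw Xw Pw
  rw [← Finset.sum_add_distrib]
  exact Finset.sum_congr rfl fun v _ => by ring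

/-- Second moment bound, nonplanted removal. -/
theorem ce2sq {t : ℕ} (ht : t < n) (hk : 2 * ((S.card : ℝ) + 1) ≤ ((n - t : ℕ) : ℝ))
    {F : Om n → ℝ} {w : Om n → Fin n → ℝ} (hF : HM S R t F) (hF0 : ∀ ω, 0 ≤ F ω)
    (hw : HM S R t w) (hs : SupA S R t w) {β : ℝ} (hβ : 0 ≤ β)
    (hβm : 4 * β ≤ ((n - t : ℕ) : ℝ)) {B : ℝ}
    (hB : ∀ ω, |F ω| * (23 * (∑ v ∈ As S R t ω, |w ω v|) ^ 2) ≤ B) :
    E (fun ω => if uu S R t ω ∈ S then 0 else F ω * Yw S R t ω (w ω) ^ 2) ≤
      2 * E (fun ω => if uu S R t ω ∈ S then 0 else F ω * (|Yw S R t ω (w ω)| *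
        (errP S R β t ω (w ω) + 64 * (∑ v ∈ As S R t ω, |w ω v|) / ((n - t : ℕ) : ℝ) +
          |Pw S R t ω (w ω)|) + 56 * nrm (As S R t ω) (w ω) ^ 2)) +
      2 * (B * Pr (fun ω => ¬ OpB ω (As S R t ω) β)) := by
  have hcard : ∀ ω, (((As S R t ω).card : ℕ) : ℝ) = ((n - t : ℕ) : ℝ) := fun ω => by
    rw [card_As S R ht.le ω]
  have h1 := ce2 ht hk hF hw hs hβ hB
  have hm0 : (0:ℝ) < ((n - t : ℕ) : ℝ) := by
    have : (0:ℝ) ≤ S.card := Nat.cast_nonneg _
    linarith
  have h2 : E (fun ω => if uu S R t ω ∈ S then 0 else F ω * Yw S R t ω (w ω) ^ 2) =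
      E (fun ω => if uu S R t ω ∈ S then 0 else
        F ω * Xw S R t ω (w ω) * Yw S R t ω (w ω)) +
      E (fun ω => if uu S R t ω ∈ S then 0 else
        F ω * Pw S R t ω (w ω) * Yw S R t ω (w ω)) := by
    rw [← E_add]
    apply E_congr
    intro ω
    by_cases hu : uu S R t ω ∈ S
    · simp [hu]
    · simp only [hu, if_false]
      rw [pow_two]
      nth_rewrite 1 [Yw_eq_Xw]
      ring
  have h3 : E (fun ω => if uu S R t ω ∈ S then 0 else
        F ω * Pw S R t ω (w ω) * Yw S R t ω (w ω)) ≤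
      E (fun ω => if uu S R t ω ∈ S then 0 else
        F ω * (|Yw S R t ω (w ω)| * |Pw S R t ω (w ω)|)) := by
    apply E_mono
    intro ω
    by_cases hu : uu S R t ω ∈ S
    · simp [hu]
    · simp only [hu, if_false]
      rw [mul_assoc]
      apply mul_le_mul_of_nonneg_left _ (hF0 ω)
      rw [← abs_mul, mul_comm (Yw S R t ω (w ω))]
      exact le_abs_self _
  have h4 : E (fun ω => if uu S R t ω ∈ S then 0 else |F ω| * (|Yw S R t ω (w ω)| *
        (errN S R β t ω (w ω) + 64 * (∑ v ∈ As S R t ω, |w ω v|) / ((n - t : ℕ) : ℝ)) +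
        56 * nrm (As S R t ω) (w ω) ^ 2)) +
      E (fun ω => if uu S R t ω ∈ S then 0 else
        F ω * (|Yw S R t ω (w ω)| * |Pw S R t ω (w ω)|)) ≤
      (1 / 2) * E (fun ω => if uu S R t ω ∈ S then 0 else F ω * Yw S R t ω (w ω) ^ 2) +
      E (fun ω => if uu S R t ω ∈ S then 0 else F ω * (|Yw S R t ω (w ω)| *
        (errP S R β t ω (w ω) + 64 * (∑ v ∈ As S R t ω, |w ω v|) / ((n - t : ℕ) : ℝ) +
          |Pw S R t ω (w ω)|) + 56 * nrm (As S R t ω) (w ω) ^ 2)) := by
    rw [← E_mul_left, ← E_add, ← E_add]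
    apply E_mono
    intro ω
    by_cases hu : uu S R t ω ∈ S
    · simp [hu]
    · simp only [hu, if_false]
      rw [abs_of_nonneg (hF0 ω), errN_eq, hcard]
      have h5 : 2 * β / ((n - t : ℕ) : ℝ) ≤ 1 / 2 := by
        rw [div_le_iff₀ hm0]; linarith
      have h6 : 2 * β / ((n - t : ℕ) : ℝ) * |Yw S R t ω (w ω)| * |Yw S R t ω (w ω)| ≤
          1 / 2 * Yw S R t ω (w ω) ^ 2 := by
        rw [mul_assoc, ← pow_two, sq_abs]
        exact mul_le_mul_of_nonneg_right h5 (sq_nonneg _)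
      have h7 := mul_le_mul_of_nonneg_left h6 (hF0 ω)
      nlinarith
  have h8 := (abs_le.1 h1).2
  linarith

/-- The error for planted removal and nonplanted weights. -/
noncomputable def errS (S : Finset (Fin n)) (R : TieRule n) (β : ℝ) (t : ℕ) (ω : Om n)
    (w : Fin n → ℝ) : ℝ :=
  (|rho S R t ω| * |∑ v ∈ As S R t ω, w v| + |∑ v ∈ As S R t ω, w v| * β +
      16 * ∑ v ∈ As S R t ω, |w v|) / rr S R t ω +
    β * nrm (As S R t ω) w / √(rr S R t ω) +
    (2 * β ^ 2 * nrm (As S R t ω) w + |rho S R t ω| * β * nrm (As S R t ω) w) /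
      (rr S R t ω * √(rr S R t ω)) 

lemma detS {t : ℕ} {ω : Om n} {β : ℝ} {w : Fin n → ℝ}
    (hu : uu S R t ω ∈ S) (hr : 0 < rr S R t ω) (hβ : 0 ≤ β) (hop : OpB ω (As S R t ω) β) :
    |Yw S R t ω w - Lc S R t ω w / (rr S R t ω * rr S R t ω)| ≤
      errS S R β t ω w + β / rr S R t ω * |Yw S R t ω w| := by
  have hcore := core (u := uu S R t ω) hβ hop (Ns_sub_As t ω) w
  have hLf : Lf S R t ω w = ∑ v ∈ As S R t ω, w v *
    ∑ v' ∈ (Ns S R t ω).erase (uu S R t ω), ∑ z ∈ Ns S R t ω, gsw ω v v' (uu S R t ω) z := rfl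
  rw [← hLf] at hcore
  have hrhodef : rho S R t ω = ∑ v' ∈ (Ns S R t ω).erase (uu S R t ω), e0 ω v' (uu S R t ω) := rfl
  have hYdef : Yw S R t ω w = ∑ v ∈ As S R t ω, w v * e0 ω v (uu S R t ω) := rfl
  rw [← hrhodef, ← hYdef] at hcore
  have huN : uu S R t ω ∉ Ns S R t ω := fun h => ((mem_Ns S R).1 h).2 hu
  have her : (Ns S R t ω).erase (uu S R t ω) = Ns S R t ω := Finset.erase_eq_of_notMem huN
  rw [her] at hcore
  have h2 := Lf_sub_Lc (S := S) (R := R) t ω w
  have hnn : nn S R t ω = rr S R t ω := by unfold nn rr; rw [her]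
  rw [hnn] at h2
  have hop1 := op_sub hop subset_rfl (Ns_sub_As t ω) w (fun _ => 1)
  have hop2 := op_sub hop (Ns_sub_As t ω) (Ns_sub_As t ω) (fun _ => 1) (fun _ => 1)
  rw [nrm_one] at hop1 hop2
  have e1 : ∑ v ∈ As S R t ω, ∑ z ∈ Ns S R t ω, w v * 1 * e0 ω v z =
      ∑ v ∈ As S R t ω, w v * ∑ z ∈ Ns S R t ω, e0 ω v z :=
    Finset.sum_congr rfl fun v _ => by
      rw [Finset.mul_sum]
      exact Finset.sum_congr rfl fun z _ => by ring
  have e2 : ∑ v ∈ Ns S R t ω, ∑ z ∈ Ns S R t ω, (1:ℝ) * 1 * e0 ω v z =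
      ∑ v ∈ Ns S R t ω, ∑ z ∈ Ns S R t ω, e0 ω v z :=
    Finset.sum_congr rfl fun v _ => Finset.sum_congr rfl fun z _ => by ring
  rw [e1] at hop1
  rw [e2] at hop2
  have hNr : ((Ns S R t ω).card : ℝ) = rr S R t ω := rfl
  rw [hNr] at hcore hop1 hop2
  unfold errS
  generalize hWd : ∑ v ∈ As S R t ω, w v = W at *
  generalize ∑ v ∈ As S R t ω, |w v| = W1 at *
  generalize ∑ v ∈ As S R t ω, w v * ∑ z ∈ Ns S R t ω, e0 ω v z = WZ at *
  generalize ∑ v ∈ Ns S R t ω, ∑ z ∈ Ns S R t ω, e0 ω v z = Zt at *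
  generalize hnA : nrm (As S R t ω) w = nA at *
  have hnA0 : 0 ≤ nA := hnA ▸ nrm_nonneg _ _
  generalize rho S R t ω = ρ at *
  generalize Yw S R t ω w = Y at *
  generalize Lf S R t ω w = L at *
  generalize Lc S R t ω w = L' at *
  generalize rr S R t ω = r at *
  clear hLf hrhodef hYdef
  obtain ⟨a, ha⟩ : ∃ a, a = √r := ⟨_, rfl⟩
  have ha0 : 0 < a := ha ▸ Real.sqrt_pos.2 hr
  have ha2 : a * a = r := by rw [ha]; exact Real.mul_self_sqrt hr.le
  rw [← ha] at hcore hop1 hop2 ⊢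
  have hr2 : 0 < r * r := mul_pos hr hr
  have hgoal : Y - L' / (r * r) = (-(L - (r * r * Y - r * ρ * W - r * WZ + W * Zt)) +
      (L - L') + r * ρ * W + r * WZ - W * Zt) / (r * r) := by
    field_simp
    ring
  rw [hgoal, abs_div, abs_of_pos hr2]
  have hop2' : |Zt| ≤ β * r := by
    rw [mul_assoc, ha2] at hop2
    exact hop2
  have b1 : |-(L - (r * r * Y - r * ρ * W - r * WZ + W * Zt)) +
      (L - L') + r * ρ * W + r * WZ - W * Zt| ≤
      (2 * β ^ 2 * a * nA + |ρ| * (β * a * nA) + |Y| * (β * a * a)) + 16 * r * W1 +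
        r * |ρ| * |W| + r * (β * nA * a) + |W| * (β * r) := by
    have c1 := abs_sub (-(L - (r * r * Y - r * ρ * W - r * WZ + W * Zt)) +
      (L - L') + r * ρ * W + r * WZ) (W * Zt)
    have c2 := abs_add_le (-(L - (r * r * Y - r * ρ * W - r * WZ + W * Zt)) +
      (L - L') + r * ρ * W) (r * WZ)
    have c3 := abs_add_le (-(L - (r * r * Y - r * ρ * W - r * WZ + W * Zt)) +
      (L - L')) (r * ρ * W)
    have c4 := abs_add_le (-(L - (r * r * Y - r * ρ * W - r * WZ + W * Zt))) (L - L')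
    rw [abs_neg] at c4
    rw [abs_mul, abs_mul, abs_of_pos hr] at c3
    rw [abs_mul r, abs_of_pos hr] at c2
    rw [abs_mul W] at c1
    have c5 : r * |WZ| ≤ r * (β * nA * a) := mul_le_mul_of_nonneg_left hop1 hr.le
    have c6 : |W| * |Zt| ≤ |W| * (β * r) := mul_le_mul_of_nonneg_left hop2' (abs_nonneg _)
    linarith
  rw [div_le_iff₀ hr2]
  refine b1.trans (le_of_eq ?_)
  rw [← ha2]
  field_simp
  ring

end Pool.Agent.H40.Peel

namespace Pool.Agent.H40.Peel

open Finset

variable {n : ℕ} {S : Finset (Fin n)} {R : TieRule n}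

lemma errS_nonneg {t : ℕ} {ω : Om n} {β : ℝ} {w : Fin n → ℝ} (hβ : 0 ≤ β) :
    0 ≤ errS S R β t ω w := by
  unfold errS
  have h1 : 0 ≤ rr S R t ω := Nat.cast_nonneg _
  have := nrm_nonneg (As S R t ω) w
  have : 0 ≤ ∑ v ∈ As S R t ω, |w v| := Finset.sum_nonneg fun _ _ => abs_nonneg _
  positivity

/-- Second moment bound, planted removal. -/
theorem ce2S {t : ℕ} (ht : t < n) (hk : 2 * ((S.card : ℝ) + 1) ≤ ((n - t : ℕ) : ℝ))
    {w : Om n → Fin n → ℝ} (hw : HM S R t w) (hs : Sup S R t w) {β : ℝ} (hβ : 0 ≤ β)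
    (hβm : 4 * β ≤ ((n - t : ℕ) : ℝ)) {B : ℝ}
    (hB : ∀ ω, 9 * (∑ v ∈ As S R t ω, |w ω v|) ^ 2 ≤ B) :
    E (fun ω => if uu S R t ω ∈ S then Yw S R t ω (w ω) ^ 2 else 0) ≤
      2 * E (fun ω => if uu S R t ω ∈ S then |Yw S R t ω (w ω)| * errS S R β t ω (w ω) +
        16 * nrm (As S R t ω) (w ω) ^ 2 else 0) +
      2 * (B * Pr (fun ω => ¬ OpB ω (As S R t ω) β)) := by
  have hcard : ∀ ω, (((As S R t ω).card : ℕ) : ℝ) = ((n - t : ℕ) : ℝ) := fun ω => by
    rw [card_As S R ht.le ω]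
  have hk0 : (0:ℝ) ≤ S.card := Nat.cast_nonneg _
  have hm0 : (0:ℝ) < ((n - t : ℕ) : ℝ) := by linarith
  have hrm : ∀ ω, ((n - t : ℕ) : ℝ) / 2 ≤ rr S R t ω := by
    intro ω
    have h1 := card_Ns_add S R t ω
    have h2 := card_Ss_le S R t ω
    have h3 : ((Ns S R t ω).card : ℝ) + (Ss S R t ω).card = ((n - t : ℕ) : ℝ) := by
      rw [← hcard ω]; exact_mod_cast h1
    have h4 : ((Ss S R t ω).card : ℝ) ≤ S.card := by exact_mod_cast h2
    unfold rr
    linarith
  set G : Om n → ℝ := fun ω => (if uu S R t ω ∈ S then (1:ℝ) else 0) /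
    (rr S R t ω * rr S R t ω) with hG
  have hGm : HM S R t G := by
    intro ω ω' h
    simp only [hG]
    rw [HM_uu t ω ω' h, HM_rr t ω ω' h]
  have hsA : SupA S R t w := fun ω v h => ⟨(hs ω v h).1, (hs ω v h).2.1⟩
  have hsec := E_Lc_mul ht hGm hw hs hw
  have hL : E (fun ω => G ω * Lc S R t ω (w ω) * ∑ x, w ω x * e0 ω x (uu S R t ω)) =
      E (fun ω => if uu S R t ω ∈ S then (Lc S R t ω (w ω) /
        (rr S R t ω * rr S R t ω)) * Yw S R t ω (w ω) else 0) := by
    apply E_congr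
    intro ω
    rw [← Yw_eq_univ hsA]
    by_cases hu : uu S R t ω ∈ S
    · simp only [hu, if_true, hG]; ring
    · simp only [hu, if_false, hG]; ring
  rw [hL] at hsec
  have hR : E (fun ω => |G ω| * ∑ v, ∑ v', ∑ z,
        |cof S R t ω (w ω) v v' z| * (8 * (|w ω v| + |w ω v'|))) ≤
      E (fun ω => if uu S R t ω ∈ S then 16 * nrm (As S R t ω) (w ω) ^ 2 else 0) := by
    apply E_mono
    intro ω
    have hc := cof_sum_le (S := S) (R := R) t ω (w ω) (w ω)
    by_cases hu : uu S R t ω ∈ S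
    · simp only [hu, if_true, hG]
      have huN : uu S R t ω ∉ Ns S R t ω := fun h => ((mem_Ns S R).1 h).2 hu
      have hnn : nn S R t ω = rr S R t ω := by
        unfold nn rr; rw [Finset.erase_eq_of_notMem huN]
      rw [hnn] at hc
      have hr0 : 0 < rr S R t ω := by have := hrm ω; linarith
      have e0' : ∀ v ∈ As S R t ω, v ∉ Ns S R t ω → |w ω v| = 0 := by
        intro v hv hv'
        rw [abs_eq_zero]
        by_contra h
        exact hv' ((mem_Ns S R).2 ⟨hv, (hs ω v h).2.2 hu⟩)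
      have e1 : ∑ v ∈ As S R t ω, |w ω v| = ∑ v ∈ Ns S R t ω, |w ω v| :=
        (Finset.sum_subset (Ns_sub_As t ω) e0').symm
      have e2 : ∑ v ∈ As S R t ω, |w ω v| * |w ω v| = nrm (As S R t ω) (w ω) ^ 2 := by
        rw [nrm_sq]
        exact Finset.sum_congr rfl fun v _ => by rw [← pow_two, sq_abs]
      have e3 := sum_abs_sq_le (Ns S R t ω) (w ω)
      have e4 : nrm (Ns S R t ω) (w ω) ^ 2 ≤ nrm (As S R t ω) (w ω) ^ 2 :=
        pow_le_pow_left₀ (nrm_nonneg _ _) (nrm_mono (Ns_sub_As t ω) _) 2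
      rw [e1, e2] at hc
      have hNr : ((Ns S R t ω).card : ℝ) = rr S R t ω := rfl
      rw [hNr] at e3
      set r := rr S R t ω
      set q := nrm (As S R t ω) (w ω) ^ 2
      have hq : 0 ≤ q := sq_nonneg _
      rw [abs_div, abs_one, abs_of_pos (mul_pos hr0 hr0)]
      have e5 : 8 * r * (r * q + (∑ v ∈ Ns S R t ω, |w ω v|) * ∑ v ∈ Ns S R t ω, |w ω v|) ≤
          16 * q * (r * r) := by
        have : (∑ v ∈ Ns S R t ω, |w ω v|) * ∑ v ∈ Ns S R t ω, |w ω v| ≤ r * q := by
          rw [← pow_two]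
          exact e3.trans (mul_le_mul_of_nonneg_left e4 hr0.le)
        calc _ ≤ 8 * r * (r * q + r * q) :=
              mul_le_mul_of_nonneg_left (add_le_add le_rfl this) (by positivity)
          _ = _ := by ring
      calc 1 / (r * r) * _ ≤ 1 / (r * r) * (16 * q * (r * r)) :=
            mul_le_mul_of_nonneg_left (hc.trans e5) (by positivity)
        _ = _ := by field_simp
    · simp only [hu, if_false, hG]
      simp
  have hsec2 := hsec.trans hR
  -- splitting
  have hsplit : E (fun ω => if uu S R t ω ∈ S then Yw S R t ω (w ω) ^ 2 else 0) =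
      E (fun ω => if uu S R t ω ∈ S then (Yw S R t ω (w ω) - Lc S R t ω (w ω) /
        (rr S R t ω * rr S R t ω)) * Yw S R t ω (w ω) else 0) +
      E (fun ω => if uu S R t ω ∈ S then (Lc S R t ω (w ω) /
        (rr S R t ω * rr S R t ω)) * Yw S R t ω (w ω) else 0) := by
    rw [← E_add]
    apply E_congr
    intro ω
    by_cases hu : uu S R t ω ∈ S
    · simp only [hu, if_true]; ring
    · simp [hu]
  have hD : E (fun ω => if uu S R t ω ∈ S then (Yw S R t ω (w ω) - Lc S R t ω (w ω) /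
        (rr S R t ω * rr S R t ω)) * Yw S R t ω (w ω) else 0) ≤
      E (fun ω => if uu S R t ω ∈ S then |Yw S R t ω (w ω)| * errS S R β t ω (w ω) +
        1 / 2 * Yw S R t ω (w ω) ^ 2 else 0) +
      B * Pr (fun ω => ¬ OpB ω (As S R t ω) β) := by
    apply E_le_good
    · intro ω hω
      by_cases hu : uu S R t ω ∈ S
      · simp only [hu, if_true]
        have hr0 : 0 < rr S R t ω := by have := hrm ω; linarith
        have h1 := detS (w := w ω) hu hr0 hβ hω
        have h2 : β / rr S R t ω ≤ 1 / 2 := by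
          rw [div_le_iff₀ hr0]
          have := hrm ω
          linarith
        refine (le_abs_self _).trans ?_
        rw [abs_mul]
        have h3 := abs_nonneg (Yw S R t ω (w ω))
        calc _ ≤ (errS S R β t ω (w ω) + β / rr S R t ω * |Yw S R t ω (w ω)|) *
              |Yw S R t ω (w ω)| := mul_le_mul_of_nonneg_right h1 h3
          _ = |Yw S R t ω (w ω)| * errS S R β t ω (w ω) +
              β / rr S R t ω * |Yw S R t ω (w ω)| ^ 2 := by ring
          _ ≤ _ := by
              rw [sq_abs]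
              exact add_le_add le_rfl (mul_le_mul_of_nonneg_right h2 (sq_nonneg _))
      · simp [hu]
    · intro ω
      by_cases hu : uu S R t ω ∈ S
      · simp only [hu, if_true]
        have := errS_nonneg (S := S) (R := R) (t := t) (ω := ω) (w := w ω) hβ
        positivity
      · simp [hu]
    · intro ω
      by_cases hu : uu S R t ω ∈ S
      · simp only [hu, if_true]
        refine le_trans ?_ (hB ω)
        have hr0 : 0 < rr S R t ω := by have := hrm ω; linarith
        have h1 := abs_Yw_le (S := S) (R := R) t ω (w ω)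
        have h2 := abs_Lc_le (S := S) (R := R) t ω (w ω)
        have huN : uu S R t ω ∉ Ns S R t ω := fun h => ((mem_Ns S R).1 h).2 hu
        have hnn : nn S R t ω = rr S R t ω := by
          unfold nn rr; rw [Finset.erase_eq_of_notMem huN]
        rw [hnn] at h2
        have h3 : |Lc S R t ω (w ω) / (rr S R t ω * rr S R t ω)| ≤
            8 * ∑ v ∈ As S R t ω, |w ω v| := by
          rw [abs_div, abs_of_pos (mul_pos hr0 hr0), div_le_iff₀ (mul_pos hr0 hr0)]
          linarith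
        refine (le_abs_self _).trans ?_
        rw [abs_mul]
        have h4 := abs_sub (Yw S R t ω (w ω)) (Lc S R t ω (w ω) / (rr S R t ω * rr S R t ω))
        calc _ ≤ (9 * ∑ v ∈ As S R t ω, |w ω v|) * ∑ v ∈ As S R t ω, |w ω v| :=
              mul_le_mul (by linarith) h1 (abs_nonneg _) (by
                have : 0 ≤ ∑ v ∈ As S R t ω, |w ω v| :=
                  Finset.sum_nonneg fun _ _ => abs_nonneg _
                linarith)
          _ = _ := by ring
      · simp only [hu, if_false]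
        exact le_trans (by positivity) (hB ω)
  have hcomb : E (fun ω => if uu S R t ω ∈ S then |Yw S R t ω (w ω)| * errS S R β t ω (w ω) +
        1 / 2 * Yw S R t ω (w ω) ^ 2 else 0) +
      E (fun ω => if uu S R t ω ∈ S then 16 * nrm (As S R t ω) (w ω) ^ 2 else 0) =
      E (fun ω => if uu S R t ω ∈ S then |Yw S R t ω (w ω)| * errS S R β t ω (w ω) +
        16 * nrm (As S R t ω) (w ω) ^ 2 else 0) +
      (1 / 2) * E (fun ω => if uu S R t ω ∈ S then Yw S R t ω (w ω) ^ 2 else 0) := by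
    rw [← E_mul_left, ← E_add, ← E_add]
    apply E_congr
    intro ω
    by_cases hu : uu S R t ω ∈ S
    · simp only [hu, if_true]; ring
    · simp [hu]
  have h9 := (abs_le.1 hsec2).2
  linarith

end Pool.Agent.H40.Peel
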