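import Pool.Agent.H40.Peel.Ana

/-!
MODULE HERM: Hermite derivatives of the heat kernel.
-/

namespace Pool.Agent.H40.Peel

namespace Herm

open MeasureTheory Set Filter Topology

lemma continuous_He : ∀ k, Continuous (He k)
  | 0 => by simpa [He, Function.const] using (continuous_const : Continuous fun _ : ℝ => (1 : ℝ))
  | 1 => by
    have : He 1 = id := by ext x; simp [He]
    rw [this]; exact continuous_id
  | k + 2 => by
    have : He (k + 2) = fun x => x * He (k + 1) x - (k + 1) * He k x := by ext x; simp [He]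
    rw [this]
    exact (continuous_id.mul (continuous_He (k + 1))).sub
      (continuous_const.mul (continuous_He k))

lemma hasDerivAt_He : ∀ (k : ℕ) (x : ℝ), HasDerivAt (He (k + 1)) ((k + 1) * He k x) x
  | 0, x => by
    have : He 1 = id := by ext x; simp [He]
    rw [this]
    simpa [He] using hasDerivAt_id x
  | 1, x => by
    have : He 2 = fun x => x * He 1 x - (((0 : ℕ) : ℝ) + 1) * He 0 x := by ext x; simp [He]
    have h1 := hasDerivAt_He 0 x
    have h0 : HasDerivAt (He 0) 0 x := by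
      have : He 0 = fun _ => 1 := by ext x; simp [He]
      rw [this]; exact hasDerivAt_const _ _
    show HasDerivAt (He 2) _ _
    rw [this]
    refine (((hasDerivAt_id x).mul h1).sub (h0.const_mul (((0 : ℕ) : ℝ) + 1))).congr_deriv ?_
    simp [He]
    ring
  | k + 2, x => by
    have : He (k + 3) = fun x => x * He (k + 2) x - (((k + 1 : ℕ) : ℝ) + 1) * He (k + 1) x := by
      ext x; simp [He]
    have h1 := hasDerivAt_He (k + 1) x
    have h0 := hasDerivAt_He k x
    show HasDerivAt (He (k + 3)) _ _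
    rw [this]
    refine (((hasDerivAt_id x).mul h1).sub (h0.const_mul (((k + 1 : ℕ) : ℝ) + 1))).congr_deriv ?_
    have e : He (k + 2) x = x * He (k + 1) x - (k + 1) * He k x := by simp [He]
    rw [e]
    simp only [id, Nat.cast_add, Nat.cast_one]
    push_cast
    ring

lemma He_succ (k : ℕ) (x D : ℝ) (h : HasDerivAt (He k) D x) :
    He (k + 1) x = x * He k x - D := by
  cases k with
  | zero =>
    have h0 : HasDerivAt (He 0) 0 x := by
      have : He 0 = fun _ => 1 := by ext x; simp [He]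
      rw [this]; exact hasDerivAt_const _ _
    rw [h.unique h0]
    simp [He]
  | succ k =>
    rw [h.unique (hasDerivAt_He k x)]
    simp [He]

lemma differentiable_He (k : ℕ) (x : ℝ) : DifferentiableAt ℝ (He k) x := by
  cases k with
  | zero =>
    have : He 0 = fun _ => 1 := by ext x; simp [He]
    rw [this]; exact differentiableAt_const _
  | succ k => exact (hasDerivAt_He k x).differentiableAt

lemma hasDerivAt_ph (x : ℝ) : HasDerivAt ph (-x * ph x) x := by
  unfold ph
  have h1 : HasDerivAt (fun x : ℝ => -x ^ 2 / 2) (-x) x := by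
    refine (((hasDerivAt_pow 2 x).neg).div_const 2).congr_deriv ?_
    simp
    ring
  refine (h1.exp.div_const (√(2 * Real.pi))).congr_deriv ?_
  ring

lemma hasDerivAt_He_ph (k : ℕ) (x : ℝ) :
    HasDerivAt (fun x => He k x * ph x) (-(He (k + 1) x * ph x)) x := by
  have h1 := (differentiable_He k x).hasDerivAt
  refine (h1.mul (hasDerivAt_ph x)).congr_deriv ?_
  rw [He_succ k x _ h1]
  ring

lemma hasDerivAt_Gk (k : ℕ) (s x : ℝ) (hs : 0 < s) :
    HasDerivAt (fun x => Gk k s x) (-Gk (k + 1) s x) x := by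
  have hs' : √s ≠ 0 := (Real.sqrt_pos.2 hs).ne'
  have h1 : HasDerivAt (fun x : ℝ => x / √s) (1 / √s) x := (hasDerivAt_id x).div_const _
  have h2 := ((hasDerivAt_He_ph k (x / √s)).comp x h1).div_const (√s ^ (k + 1))
  unfold Gk
  refine h2.congr_deriv ?_
  field_simp
  ring

lemma ph_pos (x : ℝ) : 0 < ph x := by unfold ph; positivity

lemma ph_le_one (x : ℝ) : ph x ≤ 1 := by
  unfold ph
  rw [div_le_one (by positivity)]
  have h1 : Real.exp (-x ^ 2 / 2) ≤ 1 := by
    rw [Real.exp_le_one_iff]; nlinarith [sq_nonneg x]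
  have h2 : 1 ≤ √(2 * Real.pi) := by
    rw [Real.one_le_sqrt]
    nlinarith [Real.pi_gt_three]
  linarith

lemma mul_exp_bdd (a : ℝ) (ha : 0 < a) : ∃ M, 0 ≤ M ∧ ∀ w : ℝ, |w| * Real.exp (-a * w ^ 2) ≤ M := by
  refine ⟨1 + 1 / a, by positivity, fun w => ?_⟩
  have h1 : a * w ^ 2 + 1 ≤ Real.exp (a * w ^ 2) := Real.add_one_le_exp _
  have h2 : Real.exp (-a * w ^ 2) = (Real.exp (a * w ^ 2))⁻¹ := by
    rw [← Real.exp_neg]; congr 1; ring
  rw [h2, mul_inv_le_iff₀ (Real.exp_pos _)]
  have h3 : |w| ≤ (1 + 1 / a) * (a * w ^ 2 + 1) := by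
    have h4 : (1 + 1 / a) * (a * w ^ 2 + 1) = a * w ^ 2 + 1 + w ^ 2 + 1 / a := by
      field_simp
      ring
    rw [h4]
    have h5 : |w| ^ 2 = w ^ 2 := sq_abs w
    have h6 : 0 < 1 / a := by positivity
    nlinarith [sq_nonneg (|w| - 1), sq_nonneg w, mul_nonneg ha.le (sq_nonneg w)]
  refine h3.trans (mul_le_mul_of_nonneg_left h1 (by positivity))

lemma He_exp_bdd : ∀ (k : ℕ) (a : ℝ), 0 < a →
    ∃ M, 0 ≤ M ∧ ∀ w : ℝ, |He k w| * Real.exp (-a * w ^ 2) ≤ M
  | 0, a, ha => by
    refine ⟨1, zero_le_one, fun w => ?_⟩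
    simp only [He, abs_one, one_mul]
    rw [Real.exp_le_one_iff]
    nlinarith [mul_nonneg ha.le (sq_nonneg w)]
  | 1, a, ha => by
    obtain ⟨M, hM, h⟩ := mul_exp_bdd a ha
    exact ⟨M, hM, fun w => by simpa [He] using h w⟩
  | k + 2, a, ha => by
    obtain ⟨M1, hM1, h1⟩ := mul_exp_bdd (a / 2) (by positivity)
    obtain ⟨M2, hM2, h2⟩ := He_exp_bdd (k + 1) (a / 2) (by positivity)
    obtain ⟨M3, hM3, h3⟩ := He_exp_bdd k a ha
    refine ⟨M1 * M2 + (k + 1) * M3, by positivity, fun w => ?_⟩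
    have e : He (k + 2) w = w * He (k + 1) w - (k + 1) * He k w := by simp [He]
    have e2 : Real.exp (-a * w ^ 2) =
        Real.exp (-(a / 2) * w ^ 2) * Real.exp (-(a / 2) * w ^ 2) := by
      rw [← Real.exp_add]; congr 1; ring
    have h4 : |He (k + 2) w| ≤ |w| * |He (k + 1) w| + (k + 1) * |He k w| := by
      rw [e]
      refine (abs_sub _ _).trans ?_
      rw [abs_mul, abs_mul, abs_of_nonneg (by positivity : (0 : ℝ) ≤ k + 1)]
    calc |He (k + 2) w| * Real.exp (-a * w ^ 2)
        ≤ (|w| * |He (k + 1) w| + (k + 1) * |He k w|) * Real.exp (-a * w ^ 2) :=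
          mul_le_mul_of_nonneg_right h4 (Real.exp_pos _).le
      _ = (|w| * Real.exp (-(a / 2) * w ^ 2)) * (|He (k + 1) w| * Real.exp (-(a / 2) * w ^ 2)) +
          (k + 1) * (|He k w| * Real.exp (-a * w ^ 2)) := by
          rw [e2]; ring
      _ ≤ _ := add_le_add (mul_le_mul (h1 w) (h2 w) (by positivity) hM1)
          (mul_le_mul_of_nonneg_left (h3 w) (by positivity))

lemma He_ph_bdd (k : ℕ) : ∃ M, 0 ≤ M ∧ ∀ w : ℝ, |He k w * ph w| ≤ M := by
  obtain ⟨M, hM, h⟩ := He_exp_bdd k (1 / 2) (by norm_num)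
  refine ⟨M, hM, fun w => ?_⟩
  have h1 := h w
  rw [abs_mul, abs_of_pos (ph_pos w)]
  have h2 : ph w ≤ Real.exp (-(1 / 2) * w ^ 2) := by
    unfold ph
    have h3 : (-w ^ 2 / 2 : ℝ) = -(1 / 2) * w ^ 2 := by ring
    rw [h3]
    apply div_le_self (Real.exp_pos _).le
    rw [Real.one_le_sqrt]
    nlinarith [Real.pi_gt_three]
  exact (mul_le_mul_of_nonneg_left h2 (abs_nonneg _)).trans h1

lemma Gk_bdd_aux (k : ℕ) (s : ℝ) (hs : 0 < s) : ∃ M, ∀ x, |Gk k s x| ≤ M := by
  obtain ⟨M, hM, h⟩ := He_ph_bdd k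
  refine ⟨M / √s ^ (k + 1), fun x => ?_⟩
  unfold Gk
  have : 0 < √s ^ (k + 1) := pow_pos (Real.sqrt_pos.2 hs) _
  rw [abs_div, abs_of_pos this]
  exact div_le_div_of_nonneg_right (h _) this.le

lemma continuous_ph : Continuous ph := by unfold ph; fun_prop

lemma continuous_Gk (k : ℕ) (s : ℝ) : Continuous (fun x => Gk k s x) := by
  unfold Gk
  exact (((continuous_He k).comp (continuous_id.div_const _)).mul
    (continuous_ph.comp (continuous_id.div_const _))).div_const _

lemma ph_eq (x : ℝ) : ph x = (√(2 * Real.pi))⁻¹ * Real.exp (-(1 / 2) * x ^ 2) := by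
  unfold ph
  rw [div_eq_inv_mul]
  congr 2
  ring

lemma integrable_ph : Integrable ph := by
  have : ph = fun x => (√(2 * Real.pi))⁻¹ * Real.exp (-(1 / 2) * x ^ 2) := funext ph_eq
  rw [this]
  exact (integrable_exp_neg_mul_sq (by norm_num)).const_mul _

lemma semigroup_zero (s h x : ℝ) (hs : 0 < s) (hh : 0 < h) :
    ∫ z, Gk 0 s (x + √h * z) * ph z = Gk 0 (s + h) x := by
  have hsh : 0 < s + h := by positivity
  have hsq : √h ^ 2 = h := Real.sq_sqrt hh.le
  have hss : √s ^ 2 = s := Real.sq_sqrt hs.le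
  have hshs : √(s + h) ^ 2 = s + h := Real.sq_sqrt hsh.le
  have h1 : ∀ z, Gk 0 s (x + √h * z) * ph z =
      ((√(2 * Real.pi))⁻¹ ^ 2 / √s * Real.exp (-(x ^ 2 / (2 * (s + h))))) *
        Real.exp (-((s + h) / (2 * s)) * (z + x * √h / (s + h)) ^ 2) := by
    intro z
    unfold Gk
    rw [ph_eq, ph_eq]
    simp only [He, zero_add, pow_one, one_mul]
    have e : Real.exp (-(1 / 2) * ((x + √h * z) / √s) ^ 2) * Real.exp (-(1 / 2) * z ^ 2) =
        Real.exp (-(x ^ 2 / (2 * (s + h)))) *
        Real.exp (-((s + h) / (2 * s)) * (z + x * √h / (s + h)) ^ 2) := by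
      rw [← Real.exp_add, ← Real.exp_add]
      congr 1
      rw [div_pow, hss]
      field_simp
      ring_nf
      rw [hsq]
      ring
    calc (√(2 * Real.pi))⁻¹ * Real.exp (-(1 / 2) * ((x + √h * z) / √s) ^ 2) / √s *
          ((√(2 * Real.pi))⁻¹ * Real.exp (-(1 / 2) * z ^ 2))
        = (√(2 * Real.pi))⁻¹ ^ 2 / √s * (Real.exp (-(1 / 2) * ((x + √h * z) / √s) ^ 2) *
          Real.exp (-(1 / 2) * z ^ 2)) := by ring
      _ = _ := by rw [e]; ring
  rw [integral_congr_ae (Eventually.of_forall h1), integral_const_mul,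
    integral_add_right_eq_self (fun z => Real.exp (-((s + h) / (2 * s)) * z ^ 2)) (x * √h / (s + h)),
    integral_gaussian]
  unfold Gk
  rw [ph_eq]
  simp only [He, zero_add, pow_one, one_mul]
  have h2 : √(Real.pi / ((s + h) / (2 * s))) = √(2 * Real.pi) * √s / √(s + h) := by
    rw [← Real.sqrt_mul (by positivity), ← Real.sqrt_div (by positivity)]
    congr 1
    field_simp
  have h3 : Real.exp (-(1 / 2) * (x / √(s + h)) ^ 2) = Real.exp (-(x ^ 2 / (2 * (s + h)))) := by
    congr 1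
    rw [div_pow, hshs]
    field_simp
  rw [h2, h3]
  have h4 : √(2 * Real.pi) ≠ 0 := (Real.sqrt_pos.2 (by positivity)).ne'
  have h5 : √s ≠ 0 := (Real.sqrt_pos.2 hs).ne'
  field_simp

end Herm

open MeasureTheory Set Filter Topology

theorem Gk_semigroup (k : ℕ) (s h x : ℝ) (hs : 0 < s) (hh : 0 < h) :
    ∫ z, Gk k s (x + √h * z) * ph z = Gk k (s + h) x := by
  induction k generalizing x with
  | zero => exact Herm.semigroup_zero s h x hs hh
  | succ k ih =>
    obtain ⟨M, hM⟩ := Herm.Gk_bdd_aux (k + 1) s hs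
    obtain ⟨M0, hM0⟩ := Herm.Gk_bdd_aux k s hs
    have hcont : ∀ j y, Continuous fun z => Gk j s (y + √h * z) * ph z := fun j y =>
      ((Herm.continuous_Gk j s).comp (by fun_prop)).mul Herm.continuous_ph
    have key := hasDerivAt_integral_of_dominated_loc_of_deriv_le (μ := volume)
      (F := fun y z => Gk k s (y + √h * z) * ph z)
      (F' := fun y z => -Gk (k + 1) s (y + √h * z) * ph z) (x₀ := x)
      (s := Set.univ) (bound := fun z => M * ph z) Filter.univ_mem
      (Eventually.of_forall fun y => (hcont k y).aestronglyMeasurable)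
      ?_ ?_ ?_ ?_ ?_
    · have h1 := key.2
      have h2 : (fun y => ∫ z, Gk k s (y + √h * z) * ph z) = fun y => Gk k (s + h) y :=
        funext fun y => ih y
      rw [h2] at h1
      have h3 := h1.unique (Herm.hasDerivAt_Gk k (s + h) x (by positivity))
      have h4 : ∫ z, -Gk (k + 1) s (x + √h * z) * ph z =
          -∫ z, Gk (k + 1) s (x + √h * z) * ph z := by
        rw [← integral_neg]
        congr 1
        ext z
        ring
      rw [h4] at h3
      linarith
    · refine (Herm.integrable_ph.const_mul M0).mono' (hcont k x).aestronglyMeasurable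
        (Eventually.of_forall fun z => ?_)
      rw [norm_mul, Real.norm_eq_abs, Real.norm_eq_abs, abs_of_pos (Herm.ph_pos z)]
      exact mul_le_mul_of_nonneg_right (hM0 _) (Herm.ph_pos z).le
    · have : (fun z => -Gk (k + 1) s (x + √h * z) * ph z) =
          fun z => -(Gk (k + 1) s (x + √h * z) * ph z) := by ext z; ring
      rw [this]
      exact (hcont (k + 1) x).neg.aestronglyMeasurable
    · refine Eventually.of_forall fun z y _ => ?_
      rw [norm_mul, Real.norm_eq_abs, Real.norm_eq_abs, abs_of_pos (Herm.ph_pos z), abs_neg]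
      exact mul_le_mul_of_nonneg_right (hM _) (Herm.ph_pos z).le
    · exact Herm.integrable_ph.const_mul M
    · refine Eventually.of_forall fun z y _ => ?_
      have h1 : HasDerivAt (fun y : ℝ => y + √h * z) 1 y := (hasDerivAt_id y).add_const _
      have h2 := ((Herm.hasDerivAt_Gk k s (y + √h * z) hs).comp y h1).mul_const (ph z)
      refine h2.congr_deriv ?_
      ring

theorem Gk_bdd (k : ℕ) : ∃ M, ∀ s ≥ 1, ∀ x, |Gk k s x| ≤ M := by
  obtain ⟨M, hM, h⟩ := Herm.He_ph_bdd k
  refine ⟨M, fun s hs x => ?_⟩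
  unfold Gk
  have h1 : 1 ≤ √s ^ (k + 1) := one_le_pow₀ (Real.one_le_sqrt.2 hs)
  rw [abs_div, abs_of_pos (by linarith : 0 < √s ^ (k + 1))]
  exact (div_le_self (abs_nonneg _) h1).trans (h _)

theorem Gk_lip (k : ℕ) : ∃ M, ∀ s ≥ 1, ∀ x y, |Gk k s x - Gk k s y| ≤ M * |x - y| := by
  obtain ⟨M, hM⟩ := Gk_bdd (k + 1)
  refine ⟨M, fun s hs x y => ?_⟩
  have := Convex.norm_image_sub_le_of_norm_hasDerivWithin_le (f := fun x => Gk k s x)
    (f' := fun x => -Gk (k + 1) s x) (C := M) (s := Set.univ) (x := y) (y := x)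
    (fun z _ => (Herm.hasDerivAt_Gk k s z (by linarith)).hasDerivWithinAt)
    (fun z _ => by rw [norm_neg]; exact hM s hs z) convex_univ (mem_univ _) (mem_univ _)
  simpa [Real.norm_eq_abs] using this

end Pool.Agent.H40.Peel
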