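import Pool.Agent.H40.Peel.CertFun
import Pool.Agent.H40.Peel.Herm

/-!
The certificate.
-/

namespace Pool.Agent.H40.Peel

open MeasureTheory Set Filter Topology

/-- MODULE CERT. -/
theorem cert : ∃ (α β κ t0 : ℝ) (F : ℝ → ℝ → ℝ) (b : ℝ → ℝ),
    0 < α ∧ 0 < β ∧ 0 < κ ∧ 1 < t0 ∧
    (∀ s h x, 1 ≤ s → 0 < h → ∫ z, F s (x + √h * z) * ph z = F (s + h) x) ∧
    (∃ M, ∀ s ≥ 1, ∀ x, |F s x| ≤ M) ∧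
    (∃ M, ∀ s ≥ 1, ∀ x y, |F s x - F s y| ≤ M * |x - y|) ∧
    (∀ s t, t0 ≤ s → s ≤ t → b s - (t - s) ≤ b t) ∧
    (∀ x, b t0 ≤ x → min (1 / t0) (Qh (x / √t0)) ≤ F t0 x) ∧
    (∀ s ≥ 1, κ ≤ S2 α β s) ∧
    ∀ Θ ≥ t0, ∃ μ > 0,
      (∀ s ∈ Icc t0 Θ, 1 / s + μ ≤ F s (b s)) ∧
      ∀ s ∈ Icc 1 Θ, ∃ x, x + μ ≤ s * S2 α β s - α - β * s ∧
        ((s ≤ t0 ∧ Qh (x / √s) ≤ 1 / s - μ) ∨ (t0 ≤ s ∧ b s ≤ x ∧ F s x ≤ 1 / s - μ)) :=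
  Cert.cert_of Gk_semigroup Gk_bdd Gk_lip

end Pool.Agent.H40.Peel
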