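import Pool.Agent.H40.Peel.CertMills

/-!
The functions `F` and `b` of the certificate and the proof of the certificate, from the properties
of the heat kernel derivatives `Gk`.
-/

namespace Pool.Agent.H40.Peel.Cert

open MeasureTheory Set Filter Topology

/-- A linear combination of `Gk k, Gk (k+1), …`. -/
noncomputable def FAux : ℕ → List ℚ → ℝ → ℝ → ℝ
  | _, [], _, _ => 0
  | k, a :: l, s, x => a * Gk k s x + FAux (k + 1) l s x

/-- The function `F`. -/
noncomputable def F (s x : ℝ) : ℝ := FAux 1 co s x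

/-- Real version of `Bq`. -/
noncomputable def BR (p : ℝ) : ℝ :=
  if 679/1000 < p then -353/1000 else if 581/1000 < p then -139/1000
  else if 476/1000 < p then 57/1000 else if 348/1000 < p then 273/1000
  else if 191/1000 < p then 527/1000 else if 11/1000 < p then 817/1000 else 1121/1000

/-- The free boundary. -/
noncomputable def bb (s : ℝ) : ℝ := BR (1 / √s) * √s

theorem continuous_He (k : ℕ) : Continuous (He k) := by
  have h : He k = evP (heP k) := funext fun t => (evP_heP k t).symm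
  rw [h]
  exact continuous_iff_continuousAt.2 fun t => (hasDerivAt_evP _ t).continuousAt

theorem continuous_Gk (k : ℕ) (s : ℝ) : Continuous (Gk k s) := by
  unfold Gk
  exact (((continuous_He k).comp (continuous_id.div_const _)).mul
    (continuous_ph.comp (continuous_id.div_const _))).div_const _

theorem continuous_FAux (k : ℕ) (l : List ℚ) (s : ℝ) : Continuous (FAux k l s) := by
  induction l generalizing k with
  | nil => exact continuous_const
  | cons a l ih => exact (continuous_const.mul (continuous_Gk k s)).add (ih (k + 1))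

theorem bdd_FAux (hbd : ∀ k : ℕ, ∃ M, ∀ s ≥ 1, ∀ x, |Gk k s x| ≤ M) (k : ℕ) (l : List ℚ) :
    ∃ M, ∀ s ≥ 1, ∀ x, |FAux k l s x| ≤ M := by
  induction l generalizing k with
  | nil => exact ⟨0, fun s _ x => by simp [FAux]⟩
  | cons a l ih =>
    obtain ⟨M1, h1⟩ := hbd k
    obtain ⟨M2, h2⟩ := ih (k + 1)
    refine ⟨|(a : ℝ)| * M1 + M2, fun s hs x => ?_⟩
    simp only [FAux]
    refine (abs_add_le _ _).trans (add_le_add ?_ (h2 s hs x))
    rw [abs_mul]
    exact mul_le_mul_of_nonneg_left (h1 s hs x) (abs_nonneg _)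

theorem lip_FAux (hlip : ∀ k : ℕ, ∃ M, ∀ s ≥ 1, ∀ x y, |Gk k s x - Gk k s y| ≤ M * |x - y|)
    (k : ℕ) (l : List ℚ) : ∃ M, ∀ s ≥ 1, ∀ x y, |FAux k l s x - FAux k l s y| ≤ M * |x - y| := by
  induction l generalizing k with
  | nil => exact ⟨0, fun s _ x y => by simp [FAux]⟩
  | cons a l ih =>
    obtain ⟨M1, h1⟩ := hlip k
    obtain ⟨M2, h2⟩ := ih (k + 1)
    refine ⟨|(a : ℝ)| * M1 + M2, fun s hs x y => ?_⟩
    simp only [FAux]
    have h3 : (a : ℝ) * Gk k s x + FAux (k + 1) l s x - (a * Gk k s y + FAux (k + 1) l s y) =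
        a * (Gk k s x - Gk k s y) + (FAux (k + 1) l s x - FAux (k + 1) l s y) := by ring
    rw [h3, add_mul]
    refine (abs_add_le _ _).trans (add_le_add ?_ (h2 s hs x y))
    rw [abs_mul, mul_assoc]
    exact mul_le_mul_of_nonneg_left (h1 s hs x y) (abs_nonneg _)

theorem integrable_mul_of_bdd {f : ℝ → ℝ} (hf : Continuous f) {M : ℝ} (hM : ∀ x, |f x| ≤ M)
    (x r : ℝ) : Integrable (fun z => f (x + r * z) * ph z) := by
  refine integrable_ph.bdd_mul (c := M) ?_ ?_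
  · exact (hf.comp (continuous_const.add (continuous_const.mul continuous_id))).aestronglyMeasurable
  · exact Eventually.of_forall fun z => hM _

theorem semigroup_FAux (hbd : ∀ k : ℕ, ∃ M, ∀ s ≥ 1, ∀ x, |Gk k s x| ≤ M)
    (hsg : ∀ (k : ℕ) (s h x : ℝ), 0 < s → 0 < h →
      ∫ z, Gk k s (x + √h * z) * ph z = Gk k (s + h) x)
    (k : ℕ) (l : List ℚ) (s h x : ℝ) (hs : 1 ≤ s) (hh : 0 < h) :
    ∫ z, FAux k l s (x + √h * z) * ph z = FAux k l (s + h) x := by
  induction l generalizing k with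
  | nil => simp [FAux]
  | cons a l ih =>
    obtain ⟨M1, h1⟩ := hbd k
    obtain ⟨M2, h2⟩ := bdd_FAux hbd (k + 1) l
    have i1 : Integrable (fun z => (a : ℝ) * (Gk k s (x + √h * z) * ph z)) :=
      (integrable_mul_of_bdd (continuous_Gk k s) (h1 s hs) x √h).const_mul _
    have i2 := integrable_mul_of_bdd (continuous_FAux (k + 1) l s) (h2 s hs) x √h
    have h3 : ∀ z, FAux k (a :: l) s (x + √h * z) * ph z =
        (a : ℝ) * (Gk k s (x + √h * z) * ph z) + FAux (k + 1) l s (x + √h * z) * ph z := by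
      intro z
      simp only [FAux]
      ring
    simp only [h3]
    rw [integral_add i1 i2, integral_const_mul, hsg k s h x (by linarith) hh, ih]
    simp only [FAux]

/-! ### Values of `F` -/

theorem FAux_scaled (z : ℚ) (k : ℕ) (l : List ℚ) {s : ℝ} (hs : 0 < s) :
    FAux k l s (z * √s) = ph z * (1 / √s) ^ (k + 1) * evP (psiAux z k l) (1 / √s) := by
  have hy : 0 < √s := Real.sqrt_pos.2 hs
  induction l generalizing k with
  | nil => simp [FAux, psiAux, evP]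
  | cons a l ih =>
    simp only [FAux, psiAux, evP, ih]
    have h1 : Gk k s (z * √s) = He k z * ph z * (1 / √s) ^ (k + 1) := by
      unfold Gk
      rw [mul_div_cancel_right₀ _ hy.ne', div_pow, one_pow]
      ring
    rw [h1]
    push_cast
    rw [HeQ_cast]
    ring

theorem F_scaled (z : ℚ) {s : ℝ} (hs : 0 < s) :
    F s (z * √s) = ph z * evP (psiP z) (1 / √s) / s := by
  have h1 := FAux_scaled z 1 co hs
  have h2 : (1 / √s) ^ (1 + 1) = 1 / s := by
    rw [div_pow, one_pow, one_add_one_eq_two, Real.sq_sqrt hs.le]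
  rw [h2] at h1
  change FAux 1 co s (z * √s) = _
  rw [h1]
  change ph z * (1 / s) * evP (psiP z) (1 / √s) = _
  ring

theorem sqrt_t0 : √(25 / 16 : ℝ) = 5 / 4 := by
  rw [show (25 / 16 : ℝ) = (5 / 4) ^ 2 by norm_num]
  exact Real.sqrt_sq (by norm_num)

theorem FAux_t0 (k : ℕ) (l : List ℚ) (x : ℝ) :
    FAux k l (25 / 16) x = ph (x / √(25 / 16 : ℝ)) * evP (pwAux k l) (x / √(25 / 16 : ℝ)) := by
  induction l generalizing k with
  | nil => simp [FAux, pwAux, evP]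
  | cons a l ih =>
    simp only [FAux, pwAux, evP_addP, evP_smulP, evP_heP, ih]
    unfold Gk
    rw [sqrt_t0]
    push_cast
    have h1 : (4 / 5 : ℝ) ^ (k + 1) = 1 / (5 / 4) ^ (k + 1) := by
      rw [← one_div_pow]
      norm_num
    rw [h1]
    ring

theorem F_t0 (x : ℝ) (hx : -(353 / 1000 : ℝ) ≤ x / √(25 / 16 : ℝ)) :
    Qh (x / √(25 / 16 : ℝ)) ≤ F (25 / 16) x := by
  unfold F
  rw [FAux_t0]
  exact initial hx

/-! ### Exponential bounds -/

theorem exp_le_hi {v : ℚ} (h0 : 0 ≤ v) (h1 : v ≤ 1) : Real.exp v ≤ (expHi v : ℚ) := by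
  have h0' : (0 : ℝ) ≤ v := by exact_mod_cast h0
  have h1' : (v : ℝ) ≤ 1 := by exact_mod_cast h1
  have h := Real.exp_bound' h0' h1' (n := 9) (by norm_num)
  simp only [Finset.sum_range_succ, Finset.sum_range_zero, Nat.factorial] at h
  simp only [expHi, expLo]
  push_cast at h ⊢
  norm_num at h ⊢
  linarith

theorem lo_le_exp {v : ℚ} (h0 : 0 ≤ v) : ((expLo v : ℚ) : ℝ) ≤ Real.exp v := by
  have h0' : (0 : ℝ) ≤ v := by exact_mod_cast h0
  have h := Real.sum_le_exp_of_nonneg h0' 9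
  simp only [Finset.sum_range_succ, Finset.sum_range_zero, Nat.factorial] at h
  simp only [expLo]
  push_cast at h ⊢
  norm_num at h ⊢
  linarith

theorem ph_eq_inv (z : ℚ) : ph z = 1 / (√(2 * Real.pi) * Real.exp ((z ^ 2 / 2 : ℚ) : ℝ)) := by
  unfold ph
  rw [show -(z : ℝ) ^ 2 / 2 = -((z ^ 2 / 2 : ℚ) : ℝ) by push_cast; ring, Real.exp_neg]
  have := s2pi_pos
  have := Real.exp_pos ((z ^ 2 / 2 : ℚ) : ℝ)
  field_simp

theorem F_lower {z : ℚ} (hz : z ^ 2 / 2 ≤ 1) {s : ℝ} (hs : 0 < s)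
    (h : 0 < evP (polB z) (1 / √s)) : (1 + 1 / 500) / s ≤ F s (z * √s) := by
  rw [F_scaled z hs]
  refine div_le_div_of_nonneg_right ?_ hs.le
  simp only [polB, evP_addP, evP] at h
  push_cast at h
  have h1 := exp_le_hi (v := z ^ 2 / 2) (by positivity) hz
  have h2 := s2pi_hi
  have h3 := s2pi_pos
  have h4 := Real.exp_pos ((z ^ 2 / 2 : ℚ) : ℝ)
  rw [ph_eq_inv, one_div_mul_eq_div, le_div_iff₀ (by positivity)]
  have h5 : √(2 * Real.pi) * Real.exp ((z ^ 2 / 2 : ℚ) : ℝ) ≤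
      2506629 / 1000000 * (expHi (z ^ 2 / 2) : ℚ) :=
    mul_le_mul h2.le h1 h4.le (by norm_num)
  norm_num at h h5 ⊢
  linarith

theorem F_upper {z : ℚ} {s : ℝ} (hs : 0 < s)
    (h : 0 < evP (polT z) (1 / √s)) : F s (z * √s) ≤ (1 - 1 / 500) / s := by
  rw [F_scaled z hs]
  refine div_le_div_of_nonneg_right ?_ hs.le
  simp only [polT, evP_addP, evP_smulP, evP] at h
  push_cast at h
  have h1 := lo_le_exp (v := z ^ 2 / 2) (by positivity)
  have h2 := s2pi_lo
  have h3 := s2pi_pos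
  have h4 := Real.exp_pos ((z ^ 2 / 2 : ℚ) : ℝ)
  rw [ph_eq_inv, one_div_mul_eq_div, div_le_iff₀ (by positivity)]
  have h5 : 2506628 / 1000000 * ((expLo (z ^ 2 / 2) : ℚ) : ℝ) ≤
      √(2 * Real.pi) * Real.exp ((z ^ 2 / 2 : ℚ) : ℝ) := by
    have h6 : (0 : ℝ) ≤ (expLo (z ^ 2 / 2) : ℚ) := by
      have : (0 : ℚ) ≤ expLo (z ^ 2 / 2) := by
        unfold expLo
        positivity
      exact_mod_cast this
    exact mul_le_mul h2.le h1 h6 h3.le
  norm_num at h h5 ⊢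
  linarith

/-! ### The hazard function -/

theorem evP_Tp (p : ℝ) : p * evP Tp p = gg (8 / 5 * p) := by
  simp only [Tp, evP, gg]
  push_cast
  ring

theorem chk_Tp : posN Tp (1/4) 4 0 = true := by decide +kernel

theorem S2_lower {s : ℝ} (hs : 1 ≤ s) :
    79788 / 100000 * evP Tp (1 / √s) ≤ √s * S2 (8 / 5) (1 / 2000) s := by
  have hy : 0 < √s := Real.sqrt_pos.2 (by linarith)
  have hy1 : 1 ≤ √s := Real.one_le_sqrt.2 hs
  have hp : (1 / √s) ≤ 1 := by
    rw [div_le_one hy]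
    exact hy1
  have hp0 : 0 < 1 / √s := by positivity
  have h1 := ratio_le_two (x := 1 / 2000 * √s) (d := 8 / 5 / √s) (by positivity) (by positivity)
  have h2 := gg_le (d := 8 / 5 / √s) (by positivity)
  have h3 := evP_Tp (1 / √s)
  rw [show 8 / 5 * (1 / √s) = 8 / 5 / √s by ring] at h3
  rw [← h3] at h2
  have h4 : 0 < evP Tp (1 / √s) :=
    posN_sound chk_Tp (by push_cast; exact hp0.le) (by push_cast; linarith) (by norm_num)
  have h5 : √s * (1 / √s) = 1 := by field_simp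
  have h6 : cc * evP Tp (1 / √s) ≤ √s * S2 (8 / 5) (1 / 2000) s := by
    have h7 : cc * (1 / √s * evP Tp (1 / √s)) ≤ S2 (8 / 5) (1 / 2000) s := by
      unfold S2
      linarith
    have h8 := mul_le_mul_of_nonneg_left h7 hy.le
    have h9 : √s * (cc * (1 / √s * evP Tp (1 / √s))) = cc * evP Tp (1 / √s) := by
      calc _ = cc * evP Tp (1 / √s) * (√s * (1 / √s)) := by ring
        _ = _ := by rw [h5, mul_one]
    linarith
  refine le_trans ?_ h6
  exact mul_le_mul_of_nonneg_right cc_lo h4.le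

theorem S2_lower_far {s : ℝ} (hs : 1 ≤ s) (hp : 1 / √s ≤ 251 / 10000) :
    6 / 5 + 1 / 500 + 8 / 5 * (1 / √s) + 1 / 2000 * √s ≤ √s * S2 (8 / 5) (1 / 2000) s := by
  have hy : 0 < √s := Real.sqrt_pos.2 (by linarith)
  have hp0 : 0 < 1 / √s := by positivity
  set y := √s with hydef
  set p := 1 / y with hpdef
  have hyp : y * p = 1 := by rw [hpdef]; field_simp
  have hx0 : 0 ≤ 1 / 2000 * y := by positivity
  have hd0 : 0 ≤ 8 / 5 * p := by positivity
  have hxd : 1 / 2000 * y * (8 / 5 * p) = 1 / 1250 := by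
    calc _ = (y * p) * (1 / 1250) := by ring
      _ = _ := by rw [hyp, one_mul]
  have h1 := Qh_sub_ge hx0 hd0
  have h2 := hazard_tangent hx0
  have h3 := Qh_pos (1 / 2000 * y)
  have hS : S2 (8 / 5) (1 / 2000) s = (Qh (1 / 2000 * y) - Qh (1 / 2000 * y + 8 / 5 * p)) /
      Qh (1 / 2000 * y) := by
    unfold S2
    rw [← hydef, show 8 / 5 / y = 8 / 5 * p by rw [hpdef]; ring, sub_div, div_self h3.ne']
  rw [ph_add, hxd] at h1
  -- lower bound for the exponential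
  have he : 1 - 1 / 1250 - (8 / 5 * p) ^ 2 / 2 ≤ Real.exp (-(1 / 1250) - (8 / 5 * p) ^ 2 / 2) := by
    have := Real.add_one_le_exp (-(1 / 1250) - (8 / 5 * p) ^ 2 / 2)
    linarith
  have hpp : (8 / 5 * p) ^ 2 ≤ 17 / 10000 := by
    have : p * p ≤ (251 / 10000) * (251 / 10000) := mul_le_mul hp hp hp0.le (by norm_num)
    nlinarith
  have he2 : (0 : ℝ) < 1 - 1 / 1250 - (8 / 5 * p) ^ 2 / 2 := by linarith
  have hcc := cc_pos
  have hclo := cc_lo
  -- `S2 ≥ d (c + c² x) e`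
  have hS2 : 8 / 5 * p * ((cc + cc ^ 2 * (1 / 2000 * y)) * (1 - 1 / 1250 - (8 / 5 * p) ^ 2 / 2)) ≤
      S2 (8 / 5) (1 / 2000) s := by
    rw [hS, le_div_iff₀ h3]
    have h4 : (cc + cc ^ 2 * (1 / 2000 * y)) * Qh (1 / 2000 * y) *
        (1 - 1 / 1250 - (8 / 5 * p) ^ 2 / 2) ≤
        ph (1 / 2000 * y) * Real.exp (-(1 / 1250) - (8 / 5 * p) ^ 2 / 2) :=
      mul_le_mul h2 he he2.le (ph_pos _).le
    have h5 := mul_le_mul_of_nonneg_left h4 hd0
    linarith
  have h6 := mul_le_mul_of_nonneg_left hS2 hy.le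
  have h7 : y * (8 / 5 * p * ((cc + cc ^ 2 * (1 / 2000 * y)) *
      (1 - 1 / 1250 - (8 / 5 * p) ^ 2 / 2))) =
      8 / 5 * ((cc + cc ^ 2 * (1 / 2000 * y)) * (1 - 1 / 1250 - (8 / 5 * p) ^ 2 / 2)) := by
    calc _ = (y * p) * (8 / 5 * ((cc + cc ^ 2 * (1 / 2000 * y)) *
      (1 - 1 / 1250 - (8 / 5 * p) ^ 2 / 2))) := by ring
      _ = _ := by rw [hyp, one_mul]
  rw [h7] at h6
  refine le_trans ?_ h6
  have h8 : (997 / 1000 : ℝ) ≤ 1 - 1 / 1250 - (8 / 5 * p) ^ 2 / 2 := by linarith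
  have h9 : (79788 / 100000 : ℝ) ^ 2 ≤ cc ^ 2 := by gcongr
  have h10 : 79788 / 100000 + 6366 / 10000 * (1 / 2000 * y) ≤ cc + cc ^ 2 * (1 / 2000 * y) := by
    have : (6366 / 10000 : ℝ) ≤ cc ^ 2 := by
      refine le_trans ?_ h9
      norm_num
    nlinarith
  have h11 : (79788 / 100000 + 6366 / 10000 * (1 / 2000 * y)) * (997 / 1000) ≤
      (cc + cc ^ 2 * (1 / 2000 * y)) * (1 - 1 / 1250 - (8 / 5 * p) ^ 2 / 2) :=
    mul_le_mul h10 h8 (by norm_num) (by positivity)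
  nlinarith

/-! ### The step function -/

theorem BR_antitone {p q : ℝ} (h : p ≤ q) : BR q ≤ BR p := by
  unfold BR
  split_ifs <;> linarith

theorem BR_cast (p : ℚ) : BR (p : ℝ) = ((Bq p : ℚ) : ℝ) := by
  unfold BR Bq
  have h1 : ∀ c : ℚ, ((c : ℝ) < p ↔ c < p) := fun c => by exact_mod_cast Iff.rfl
  have e1 : ((679 / 1000 : ℝ) < p ↔ (679 / 1000 : ℚ) < p) := by
    have := h1 (679 / 1000); push_cast at this; exact this
  have e2 : ((581 / 1000 : ℝ) < p ↔ (581 / 1000 : ℚ) < p) := by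
    have := h1 (581 / 1000); push_cast at this; exact this
  have e3 : ((476 / 1000 : ℝ) < p ↔ (476 / 1000 : ℚ) < p) := by
    have := h1 (476 / 1000); push_cast at this; exact this
  have e4 : ((348 / 1000 : ℝ) < p ↔ (348 / 1000 : ℚ) < p) := by
    have := h1 (348 / 1000); push_cast at this; exact this
  have e5 : ((191 / 1000 : ℝ) < p ↔ (191 / 1000 : ℚ) < p) := by
    have := h1 (191 / 1000); push_cast at this; exact this
  have e6 : ((11 / 1000 : ℝ) < p ↔ (11 / 1000 : ℚ) < p) := by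
    have := h1 (11 / 1000); push_cast at this; exact this
  simp only [e1, e2, e3, e4, e5, e6]
  split_ifs <;> push_cast <;> rfl

theorem BR_le (p : ℝ) : BR p ≤ 1121 / 1000 := by
  unfold BR
  split_ifs <;> norm_num

theorem BR_ge (p : ℝ) : -(353 / 1000) ≤ BR p := by
  unfold BR
  split_ifs <;> norm_num

theorem chkB_sound : ∀ (l : List (ℚ × ℚ)) (hi : ℚ), chkB hi l = true → ∀ p : ℝ, 0 < p → p ≤ hi →
    ∃ r ∈ l, ∃ hi' : ℚ, (r.1 : ℝ) < p ∧ p ≤ hi' ∧ Bq hi' = r.2 ∧ r.2 ^ 2 / 2 ≤ 1 ∧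
      0 < evP (polB r.2) p := by
  intro l
  induction l with
  | nil =>
    intro hi h p h1 h2
    simp only [chkB, decide_eq_true_eq] at h
    rw [h] at h2
    push_cast at h2
    linarith
  | cons a l ih =>
    intro hi h p h1 h2
    obtain ⟨lo, b⟩ := a
    simp only [chkB, Bool.and_eq_true, decide_eq_true_eq] at h
    obtain ⟨⟨⟨⟨ha, hb⟩, hc⟩, hd⟩, he⟩ := h
    rcases lt_or_ge (lo : ℝ) p with h3 | h3
    · refine ⟨(lo, b), by simp, hi, h3, h2, hc, ha, ?_⟩
      refine posN_sound hd h3.le ?_ (by norm_num)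
      push_cast
      linarith
    · obtain ⟨r, hr, h4⟩ := ih lo he p h1 h3
      exact ⟨r, List.mem_cons_of_mem _ hr, h4⟩

theorem BR_le_of_tab {p : ℝ} {r : ℚ × ℚ} (hr : r ∈ tabB) (h : (r.1 : ℝ) < p) : BR p ≤ r.2 := by
  simp only [tabB, List.mem_cons, List.not_mem_nil, or_false] at hr
  unfold BR
  rcases hr with rfl | rfl | rfl | rfl | rfl | rfl | rfl <;> push_cast at h ⊢ <;>
    split_ifs <;> linarith

theorem F_bb_ge {s : ℝ} (hs : 25 / 16 ≤ s) : (1 + 1 / 500) / s ≤ F s (bb s) := by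
  have hs0 : 0 < s := by linarith
  have hy : 5 / 4 ≤ √s := by
    rw [← sqrt_t0]
    exact Real.sqrt_le_sqrt hs
  have hp0 : 0 < 1 / √s := by positivity
  have hp : 1 / √s ≤ 4 / 5 := by
    rw [div_le_iff₀ (by linarith)]
    linarith
  obtain ⟨r, hr, hi, h1, h2, h3, h4, h5⟩ := chkB_sound tabB (4/5) chkB_tab (1 / √s) hp0
    (by push_cast; exact hp)
  have h6 : BR (1 / √s) = r.2 := by
    refine le_antisymm (BR_le_of_tab hr h1) ?_
    rw [← h3, ← BR_cast]
    exact BR_antitone h2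
  unfold bb
  rw [h6]
  exact F_lower h4 hs0 h5

theorem chkT_sound : ∀ (l : List (ℚ × ℚ)) (hi : ℚ), chkT hi l = true → ∀ p : ℝ,
    251 / 10000 < p → p ≤ hi →
    ∃ z lo : ℚ, BR p ≤ z ∧ 0 < evP (polT z) p ∧ 0 < lo ∧ (lo : ℝ) ≤ p ∧ 0 < evP (polR z lo) p := by
  intro l
  induction l with
  | nil =>
    intro hi h p h1 h2
    simp only [chkT, decide_eq_true_eq] at h
    rw [h] at h2
    push_cast at h2
    linarith
  | cons a l ih =>
    intro hi h p h1 h2
    obtain ⟨lo, z⟩ := a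
    simp only [chkT, Bool.and_eq_true, decide_eq_true_eq] at h
    obtain ⟨⟨⟨⟨⟨ha, hb⟩, hc⟩, hd⟩, he⟩, hf⟩ := h
    rcases le_total (lo : ℝ) p with h3 | h3
    · refine ⟨z, lo, ?_, posB_sound hd h3 h2, ha, h3, posB_sound he h3 h2⟩
      refine (BR_antitone h3).trans ?_
      rw [BR_cast]
      exact_mod_cast hc
    · exact ih lo hf p h1 h3

/-- The closing condition for `s ≥ t₀`. -/
theorem closing {s : ℝ} (hs : 25 / 16 ≤ s) : ∃ z : ℝ, BR (1 / √s) ≤ z ∧
    F s (z * √s) ≤ (1 - 1 / 500) / s ∧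
    z + 1 / 500 + 8 / 5 * (1 / √s) + 1 / 2000 * √s ≤ √s * S2 (8 / 5) (1 / 2000) s := by
  have hs0 : 0 < s := by linarith
  have hy : 5 / 4 ≤ √s := by
    rw [← sqrt_t0]
    exact Real.sqrt_le_sqrt hs
  have hp0 : 0 < 1 / √s := by positivity
  have hp : 1 / √s ≤ 4 / 5 := by
    rw [div_le_iff₀ (by linarith)]
    linarith
  rcases lt_or_ge (251 / 10000 : ℝ) (1 / √s) with h | h
  · obtain ⟨z, lo, h1, h2, h3, h4, h5⟩ := chkT_sound tabT (4/5) chkT_tab (1 / √s) h
      (by push_cast; exact hp)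
    refine ⟨z, h1, F_upper hs0 h2, ?_⟩
    refine le_trans ?_ (S2_lower (by linarith))
    simp only [polR, evP_addP, evP_smulP, evP] at h5
    push_cast at h5
    have h6 : 1 / 2000 * √s ≤ 1 / 2000 / (lo : ℝ) := by
      have h7 : (0 : ℝ) < lo := by exact_mod_cast h3
      rw [le_div_iff₀ h7]
      have h8 : √s * (1 / √s) = 1 := by field_simp
      have h9 : √s * lo ≤ √s * (1 / √s) := mul_le_mul_of_nonneg_left h4 (by linarith)
      linarith
    norm_num at h5 h6 ⊢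
    linarith
  · refine ⟨(6 / 5 : ℝ), (BR_le _).trans (by norm_num), ?_, ?_⟩
    · have h1 : 0 < evP (polT (12/10)) (1 / √s) :=
        posB_sound chk_last (by push_cast; exact hp0.le) (by push_cast; exact h)
      have h2 := F_upper hs0 h1
      have h3 : (((12/10 : ℚ)) : ℝ) = 6 / 5 := by push_cast; norm_num
      rw [h3] at h2
      exact h2
    · exact S2_lower_far (by linarith) h

/-- The closing condition for `1 ≤ s ≤ t₀`. -/
theorem closing_first {s : ℝ} (hs : 1 ≤ s) (hs2 : s ≤ 25 / 16) : ∃ z : ℝ,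
    Qh z ≤ 1 / s - 1 / 125 ∧
    z + 1 / 500 + 8 / 5 * (1 / √s) + 1 / 2000 * √s ≤ √s * S2 (8 / 5) (1 / 2000) s := by
  have hs0 : 0 < s := by linarith
  have hy1 : 1 ≤ √s := Real.one_le_sqrt.2 hs
  have hy2 : √s ≤ 5 / 4 := by
    rw [← sqrt_t0]
    exact Real.sqrt_le_sqrt hs2
  have hy0 : 0 < √s := by linarith
  have hp1 : 1 / √s ≤ 1 := by
    rw [div_le_one hy0]
    exact hy1
  have hp2 : 4 / 5 ≤ 1 / √s := by
    rw [le_div_iff₀ hy0]
    linarith
  have hps : (1 / √s) ^ 2 = 1 / s := by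
    rw [div_pow, one_pow, Real.sq_sqrt hs0.le]
  have h1 : 0 < evP (addP (smulP (79788/100000) Tp)
    [-(1/500 + 1/2000/(4/5) + 5/4 + 1/50), -(8/5), 5/2]) (1 / √s) :=
    posN_sound chk_first (by push_cast; exact hp2) (by push_cast; linarith) (by norm_num)
  simp only [evP_addP, evP_smulP, evP] at h1
  push_cast at h1
  refine ⟨5 / 4 - 5 / 2 * (1 / √s) ^ 2 + 1 / 50, ?_, ?_⟩
  · refine (Qh_neg_le ?_).trans ?_
    · nlinarith
    · rw [hps]
      linarith
  · refine le_trans ?_ (S2_lower hs)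
    have h2 : 1 / 2000 * √s ≤ 1 / 2000 / (4 / 5) := by linarith
    generalize 1 / √s = p at *
    nlinarith

theorem bb_mono {s t : ℝ} (hs : 25 / 16 ≤ s) (hst : s ≤ t) : bb s - (t - s) ≤ bb t := by
  unfold bb
  have hy1 : 1 ≤ √s := Real.one_le_sqrt.2 (by linarith)
  have hy2 : √s ≤ √t := Real.sqrt_le_sqrt hst
  have hs2 : √s * √s = s := Real.mul_self_sqrt (by linarith)
  have ht2 : √t * √t = t := Real.mul_self_sqrt (by linarith)
  have h1 : BR (1 / √s) ≤ BR (1 / √t) :=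
    BR_antitone (div_le_div_of_nonneg_left (by norm_num) (by linarith) hy2)
  have h2 := BR_ge (1 / √s)
  have h3 : BR (1 / √s) * √t ≤ BR (1 / √t) * √t := mul_le_mul_of_nonneg_right h1 (by linarith)
  have h4 : -(353 / 1000) * (√t - √s) ≤ BR (1 / √s) * (√t - √s) :=
    mul_le_mul_of_nonneg_right h2 (by linarith)
  nlinarith

theorem kappa_le {s : ℝ} (hs : 1 ≤ s) :
    1 - Real.exp (-(1 / 1250)) ≤ S2 (8 / 5) (1 / 2000) s := by
  have hy : 0 < √s := Real.sqrt_pos.2 (by linarith)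
  have h1 := ratio_le_exp (x := 1 / 2000 * √s) (d := 8 / 5 / √s) (by positivity)
  have h2 : 1 / 2000 * √s * (8 / 5 / √s) = 1 / 1250 := by
    field_simp
    norm_num
  rw [h2] at h1
  unfold S2
  linarith

/-- The certificate, from the properties of the functions `Gk`. -/
theorem cert_of (hsg : ∀ (k : ℕ) (s h x : ℝ), 0 < s → 0 < h →
      ∫ z, Gk k s (x + √h * z) * ph z = Gk k (s + h) x)
    (hbd : ∀ k : ℕ, ∃ M, ∀ s ≥ 1, ∀ x, |Gk k s x| ≤ M)
    (hlip : ∀ k : ℕ, ∃ M, ∀ s ≥ 1, ∀ x y, |Gk k s x - Gk k s y| ≤ M * |x - y|) :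
    ∃ (α β κ t0 : ℝ) (F : ℝ → ℝ → ℝ) (b : ℝ → ℝ),
    0 < α ∧ 0 < β ∧ 0 < κ ∧ 1 < t0 ∧
    (∀ s h x, 1 ≤ s → 0 < h → ∫ z, F s (x + √h * z) * ph z = F (s + h) x) ∧
    (∃ M, ∀ s ≥ 1, ∀ x, |F s x| ≤ M) ∧
    (∃ M, ∀ s ≥ 1, ∀ x y, |F s x - F s y| ≤ M * |x - y|) ∧
    (∀ s t, t0 ≤ s → s ≤ t → b s - (t - s) ≤ b t) ∧
    (∀ x, b t0 ≤ x → min (1 / t0) (Qh (x / √t0)) ≤ F t0 x) ∧
    (∀ s ≥ 1, κ ≤ S2 α β s) ∧
    ∀ Θ ≥ t0, ∃ μ > 0,
      (∀ s ∈ Icc t0 Θ, 1 / s + μ ≤ F s (b s)) ∧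
      ∀ s ∈ Icc 1 Θ, ∃ x, x + μ ≤ s * S2 α β s - α - β * s ∧
        ((s ≤ t0 ∧ Qh (x / √s) ≤ 1 / s - μ) ∨ (t0 ≤ s ∧ b s ≤ x ∧ F s x ≤ 1 / s - μ)) := by
  refine ⟨8 / 5, 1 / 2000, 1 - Real.exp (-(1 / 1250)), 25 / 16, F, bb, by norm_num, by norm_num,
    ?_, by norm_num, fun s h x hs hh => semigroup_FAux hbd hsg 1 co s h x hs hh,
    bdd_FAux hbd 1 co, lip_FAux hlip 1 co, fun s t hs hst => bb_mono hs hst, ?_,
    fun s hs => kappa_le hs, ?_⟩
  · have : Real.exp (-(1 / 1250)) < 1 := Real.exp_lt_one_iff.2 (by norm_num)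
    linarith
  · intro x hx
    refine (min_le_right _ _).trans (F_t0 x ?_)
    rw [sqrt_t0, le_div_iff₀ (by norm_num)]
    unfold bb at hx
    rw [sqrt_t0] at hx
    have h1 := BR_ge (1 / (5 / 4))
    linarith
  · intro Θ hΘ
    have hΘ0 : 0 < Θ := by linarith
    have hμ : 1 / 500 / Θ ≤ 1 / 500 := by
      rw [div_le_iff₀ hΘ0]
      linarith
    refine ⟨1 / 500 / Θ, by positivity, ?_, ?_⟩
    · intro s hs
      have hs0 : 0 < s := by linarith [hs.1]
      have h1 := F_bb_ge hs.1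
      rw [add_div] at h1
      have h2 : 1 / 500 / Θ ≤ 1 / 500 / s := div_le_div_of_nonneg_left (by norm_num) hs0 hs.2
      linarith
    · intro s hs
      have hs0 : 0 < s := by linarith [hs.1]
      have hy1 : 1 ≤ √s := Real.one_le_sqrt.2 hs.1
      have hy0 : 0 < √s := by linarith
      have hyy : √s * √s = s := Real.mul_self_sqrt hs0.le
      have key : ∀ z : ℝ, z + 1 / 500 + 8 / 5 * (1 / √s) + 1 / 2000 * √s ≤
          √s * S2 (8 / 5) (1 / 2000) s →
          z * √s + 1 / 500 / Θ ≤ s * S2 (8 / 5) (1 / 2000) s - 8 / 5 - 1 / 2000 * s := by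
        intro z hz
        have h1 := mul_le_mul_of_nonneg_right hz hy0.le
        have h2 : (z + 1 / 500 + 8 / 5 * (1 / √s) + 1 / 2000 * √s) * √s =
            z * √s + 1 / 500 * √s + 8 / 5 + 1 / 2000 * (√s * √s) := by
          field_simp
        have h3 : √s * S2 (8 / 5) (1 / 2000) s * √s =
            (√s * √s) * S2 (8 / 5) (1 / 2000) s := by ring
        rw [h2, h3, hyy] at h1
        linarith
      rcases le_total s (25 / 16) with h | h
      · obtain ⟨z, h1, h2⟩ := closing_first hs.1 h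
        refine ⟨z * √s, key z h2, Or.inl ⟨h, ?_⟩⟩
        rw [mul_div_cancel_right₀ _ hy0.ne']
        linarith
      · obtain ⟨z, h1, h2, h3⟩ := closing h
        refine ⟨z * √s, key z h3, Or.inr ⟨h, ?_, ?_⟩⟩
        · exact mul_le_mul_of_nonneg_right h1 hy0.le
        · rw [sub_div] at h2
          have h4 : 1 / 500 / Θ ≤ 1 / 500 / s := div_le_div_of_nonneg_left (by norm_num) hs0 hs.2
          linarith

end Pool.Agent.H40.Peel.Cert
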