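import Pool.Agent.H40.Peel.Ana

/-!
Facts about the Gaussian density, its tail and the hazard function.
-/

namespace Pool.Agent.H40.Peel.Cert

open MeasureTheory Set Filter Topology

theorem s2pi_pos : 0 < √(2 * Real.pi) := Real.sqrt_pos.2 (by positivity)

theorem s2pi_lo : (2506628 / 1000000 : ℝ) < √(2 * Real.pi) := by
  apply Real.lt_sqrt_of_sq_lt
  have := Real.pi_gt_d6
  nlinarith

theorem s2pi_hi : √(2 * Real.pi) < 2506629 / 1000000 := by
  rw [Real.sqrt_lt' (by norm_num)]
  have := Real.pi_lt_d6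
  nlinarith

theorem ph_pos (x : ℝ) : 0 < ph x := div_pos (Real.exp_pos _) s2pi_pos

theorem hasDerivAt_ph (x : ℝ) : HasDerivAt ph (-x * ph x) x := by
  have h1 : HasDerivAt (fun x : ℝ => -x ^ 2 / 2) (-x) x := by
    refine (((hasDerivAt_pow 2 x).fun_neg).div_const 2).congr_deriv ?_
    push_cast
    ring
  have h2 := (h1.exp).div_const √(2 * Real.pi)
  have h3 : Real.exp (-x ^ 2 / 2) * -x / √(2 * Real.pi) = -x * ph x := by
    unfold ph
    ring
  rw [h3] at h2
  exact h2

theorem continuous_ph : Continuous ph :=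
  continuous_iff_continuousAt.2 fun x => (hasDerivAt_ph x).continuousAt

theorem integrable_ph : Integrable ph := by
  have h1 := (integrable_exp_neg_mul_sq (b := 1 / 2) (by norm_num)).div_const √(2 * Real.pi)
  refine h1.congr (Eventually.of_forall fun x => ?_)
  simp only [ph]
  congr 2
  ring

theorem integrable_mul_ph : Integrable (fun x => x * ph x) := by
  have h1 := (integrable_mul_exp_neg_mul_sq (b := 1 / 2) (by norm_num)).div_const √(2 * Real.pi)
  refine h1.congr (Eventually.of_forall fun x => ?_)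
  simp only [ph]
  rw [mul_div_assoc]
  congr 3
  ring

theorem tendsto_ph : Tendsto ph atTop (𝓝 0) := by
  have h1 : Tendsto (fun x : ℝ => -x ^ 2 / 2) atTop atBot := by
    have h2 : Tendsto (fun x : ℝ => x ^ 2 / 2) atTop atTop :=
      (tendsto_pow_atTop (two_ne_zero)).atTop_div_const (by norm_num)
    have h3 := tendsto_neg_atTop_atBot.comp h2
    refine h3.congr fun x => ?_
    simp only [Function.comp]
    ring
  have h4 := (Real.tendsto_exp_atBot.comp h1).div_const √(2 * Real.pi)
  rw [zero_div] at h4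
  exact h4

theorem Qh_zero : Qh 0 = 1 / 2 := by
  have h1 := integral_gaussian_Ioi (1 / 2)
  have h2 : Real.pi / (1 / 2) = 2 * Real.pi := by ring
  rw [h2] at h1
  simp only [Qh, ph]
  rw [integral_div]
  have h3 : ∫ y in Ioi (0 : ℝ), Real.exp (-y ^ 2 / 2) =
      ∫ y in Ioi (0 : ℝ), Real.exp (-(1 / 2) * y ^ 2) := by
    congr 1
    funext y
    congr 1
    ring
  rw [h3, h1]
  have := s2pi_pos
  field_simp

theorem Qh_eq (x : ℝ) : Qh x = 1 / 2 - ∫ t in (0 : ℝ)..x, ph t := by
  have h1 := intervalIntegral.integral_interval_add_Ioi (f := ph) (μ := volume) (a := 0) (b := x)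
    integrable_ph.integrableOn integrable_ph.integrableOn
  have h2 : ∫ t in Ioi (0 : ℝ), ph t = 1 / 2 := Qh_zero
  rw [h2] at h1
  simp only [Qh]
  linarith

theorem hasDerivAt_Qh (x : ℝ) : HasDerivAt Qh (-ph x) x := by
  have h1 : HasDerivAt (fun u => ∫ t in (0 : ℝ)..u, ph t) (ph x) x :=
    intervalIntegral.integral_hasDerivAt_right integrable_ph.intervalIntegrable
      (continuous_ph.stronglyMeasurableAtFilter _ _) continuous_ph.continuousAt
  have h2 := h1.const_sub (1 / 2)
  have h3 : Qh = fun x => 1 / 2 - ∫ t in (0 : ℝ)..x, ph t := funext Qh_eq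
  rw [h3]
  exact h2

theorem Qh_nonneg (x : ℝ) : 0 ≤ Qh x :=
  setIntegral_nonneg measurableSet_Ioi fun y _ => (ph_pos y).le

theorem Qh_strictAnti : StrictAnti Qh :=
  strictAnti_of_deriv_neg fun x => by
    rw [(hasDerivAt_Qh x).deriv]
    linarith [ph_pos x]

theorem Qh_pos (x : ℝ) : 0 < Qh x :=
  (Qh_nonneg (x + 1)).trans_lt (Qh_strictAnti (by linarith))

/-- `x Q(x) ≤ φ(x)` -/
theorem mul_Qh_le (x : ℝ) : x * Qh x ≤ ph x := by
  have h1 : ∫ t in Ioi x, t * ph t = ph x := by
    have h2 := integral_Ioi_of_hasDerivAt_of_tendsto' (a := x) (f := fun t => -ph t)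
      (f' := fun t => t * ph t) (m := 0) (fun t _ => by
        have := (hasDerivAt_ph t).fun_neg
        refine this.congr_deriv ?_
        ring) integrable_mul_ph.integrableOn (by simpa using tendsto_ph.neg)
    rw [h2]
    ring
  have h2 : ∫ t in Ioi x, x * ph t ≤ ∫ t in Ioi x, t * ph t := by
    refine setIntegral_mono_on (integrable_ph.const_mul x).integrableOn
      integrable_mul_ph.integrableOn measurableSet_Ioi fun t ht => ?_
    exact mul_le_mul_of_nonneg_right (le_of_lt ht) (ph_pos t).le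
  rw [integral_const_mul, h1] at h2
  exact h2

theorem tendsto_Qh : Tendsto Qh atTop (𝓝 0) := by
  refine tendsto_of_tendsto_of_tendsto_of_le_of_le' tendsto_const_nhds tendsto_ph
    (Eventually.of_forall Qh_nonneg) ?_
  filter_upwards [eventually_ge_atTop 1] with x hx
  have h1 := mul_Qh_le x
  have h2 := Qh_nonneg x
  nlinarith

/-- The Mills ratio is decreasing. -/
theorem mills_antitone : Antitone (fun x => Qh x / ph x) := by
  refine antitone_of_hasDerivAt_nonpos (f' := fun x =>
    (-ph x * ph x - Qh x * (-x * ph x)) / ph x ^ 2) (fun x =>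
    (hasDerivAt_Qh x).div (hasDerivAt_ph x) (ph_pos x).ne') fun x => ?_
  have h1 := mul_Qh_le x
  have h2 := ph_pos x
  refine div_nonpos_of_nonpos_of_nonneg ?_ (by positivity)
  have : -ph x * ph x - Qh x * (-x * ph x) = ph x * (x * Qh x - ph x) := by ring
  rw [this]
  exact mul_nonpos_of_nonneg_of_nonpos h2.le (by linarith)

theorem Qh_shift_le {x d : ℝ} (hd : 0 ≤ d) : Qh (x + d) * ph x ≤ Qh x * ph (x + d) := by
  have h1 := mills_antitone (show x ≤ x + d by linarith)
  simp only at h1
  rwa [div_le_div_iff₀ (ph_pos _) (ph_pos _)] at h1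

theorem ph_add (x d : ℝ) : ph (x + d) = ph x * Real.exp (-(x * d) - d ^ 2 / 2) := by
  simp only [ph]
  rw [div_mul_eq_mul_div, ← Real.exp_add]
  congr 2
  ring

/-- `Q(x+d)/Q(x) ≤ exp (-x d)` -/
theorem ratio_le_exp {x d : ℝ} (hd : 0 ≤ d) : Qh (x + d) / Qh x ≤ Real.exp (-(x * d)) := by
  have h1 := Qh_shift_le (x := x) hd
  rw [ph_add] at h1
  rw [div_le_iff₀ (Qh_pos x)]
  have h2 : Qh (x + d) ≤ Qh x * Real.exp (-(x * d) - d ^ 2 / 2) := by
    have := ph_pos x
    have h3 : Qh (x + d) * ph x ≤ (Qh x * Real.exp (-(x * d) - d ^ 2 / 2)) * ph x := by linarith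
    exact le_of_mul_le_mul_right h3 this
  refine h2.trans ?_
  rw [mul_comm]
  refine mul_le_mul_of_nonneg_right (Real.exp_le_exp.2 ?_) (Qh_nonneg x)
  nlinarith [sq_nonneg d]

/-- `Q(x+d)/Q(x) ≤ 2 Q(d)` for `x ≥ 0`. -/
theorem ratio_le_two {x d : ℝ} (hx : 0 ≤ x) (hd : 0 ≤ d) : Qh (x + d) / Qh x ≤ 2 * Qh d := by
  have hanti : Antitone (fun x => Qh (x + d) / Qh x) := by
    have hder : ∀ x, HasDerivAt (fun x => Qh (x + d)) (-ph (x + d)) x := fun x => by
      have := (hasDerivAt_Qh (x + d)).comp_add_const x d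
      exact this
    refine antitone_of_hasDerivAt_nonpos (f' := fun x =>
      (-ph (x + d) * Qh x - Qh (x + d) * (-ph x)) / Qh x ^ 2) (fun x =>
      (hder x).div (hasDerivAt_Qh x) (Qh_pos x).ne') fun x => ?_
    have h1 := Qh_shift_le (x := x) hd
    have h2 := Qh_pos x
    refine div_nonpos_of_nonpos_of_nonneg ?_ (by positivity)
    linarith
  have h1 := hanti hx
  simp only [zero_add, Qh_zero] at h1
  linarith

/-! ### Comparison for upper bounds of the Mills ratio -/

/-- If `M' - w M + 1 ≤ 0` on `[a, b]` and `M φ ≥ Q` at `b` then `M φ ≥ Q` on `[a, b]`. -/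
theorem mills_compare {M M' : ℝ → ℝ} {a b : ℝ} (hM : ∀ w ∈ Icc a b, HasDerivAt M (M' w) w)
    (hr : ∀ w ∈ Icc a b, M' w - w * M w + 1 ≤ 0) (hb : Qh b ≤ M b * ph b) {w : ℝ}
    (hw : w ∈ Icc a b) : Qh w ≤ M w * ph w := by
  have hder : ∀ w ∈ Icc a b, HasDerivAt (fun w => M w * ph w - Qh w)
      ((M' w - w * M w + 1) * ph w) w := by
    intro w hw
    have := ((hM w hw).fun_mul (hasDerivAt_ph w)).fun_sub (hasDerivAt_Qh w)
    refine this.congr_deriv ?_
    ring
  have hanti : AntitoneOn (fun w => M w * ph w - Qh w) (Icc a b) := by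
    refine antitoneOn_of_hasDerivWithinAt_nonpos (convex_Icc a b)
      (fun w hw => (hder w hw).continuousAt.continuousWithinAt)
      (f' := fun w => (M' w - w * M w + 1) * ph w) ?_ ?_
    · intro w hw
      rw [interior_Icc] at hw ⊢
      exact (hder w (Ioo_subset_Icc_self hw)).hasDerivWithinAt
    · intro w hw
      rw [interior_Icc] at hw
      exact mul_nonpos_of_nonpos_of_nonneg (hr w (Ioo_subset_Icc_self hw)) (ph_pos w).le
  have hab : b ∈ Icc a b := ⟨hw.1.trans hw.2, le_rfl⟩
  have := hanti hw hab hw.2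
  simp only at this
  linarith

/-- If `M' - w M + 1 ≤ 0` on `[a, ∞)` and `M φ → 0` then `M φ ≥ Q` on `[a, ∞)`. -/
theorem mills_compare_top {M M' : ℝ → ℝ} {a : ℝ} (hM : ∀ w ∈ Ici a, HasDerivAt M (M' w) w)
    (hr : ∀ w ∈ Ici a, M' w - w * M w + 1 ≤ 0)
    (hlim : Tendsto (fun w => M w * ph w) atTop (𝓝 0)) {w : ℝ} (hw : a ≤ w) :
    Qh w ≤ M w * ph w := by
  have hder : ∀ w ∈ Ici a, HasDerivAt (fun w => M w * ph w - Qh w)
      ((M' w - w * M w + 1) * ph w) w := by
    intro w hw
    have := ((hM w hw).fun_mul (hasDerivAt_ph w)).fun_sub (hasDerivAt_Qh w)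
    refine this.congr_deriv ?_
    ring
  have hanti : AntitoneOn (fun w => M w * ph w - Qh w) (Ici a) := by
    refine antitoneOn_of_hasDerivWithinAt_nonpos (convex_Ici a)
      (fun w hw => (hder w hw).continuousAt.continuousWithinAt)
      (f' := fun w => (M' w - w * M w + 1) * ph w) ?_ ?_
    · intro w hw
      rw [interior_Ici] at hw ⊢
      exact (hder w (Ioi_subset_Ici_self hw)).hasDerivWithinAt
    · intro w hw
      rw [interior_Ici] at hw
      exact mul_nonpos_of_nonpos_of_nonneg (hr w (Ioi_subset_Ici_self hw)) (ph_pos w).le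
  have hlim2 : Tendsto (fun w => M w * ph w - Qh w) atTop (𝓝 0) := by
    simpa using hlim.sub tendsto_Qh
  have h1 : 0 ≤ M w * ph w - Qh w := by
    refine le_of_tendsto hlim2 ?_
    filter_upwards [eventually_ge_atTop w] with v hv
    exact hanti hw (hw.trans hv) hv
  linarith

/-! ### The tangent bound for the hazard function -/

/-- `√(2/π)` -/
noncomputable def cc : ℝ := 2 / √(2 * Real.pi)

theorem cc_pos : 0 < cc := div_pos two_pos s2pi_pos

theorem cc_lo : (79788 / 100000 : ℝ) ≤ cc := by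
  unfold cc
  rw [le_div_iff₀ s2pi_pos]
  have := s2pi_hi
  linarith

theorem cc_hi : cc ≤ 4 / 5 := by
  unfold cc
  rw [div_le_iff₀ s2pi_pos]
  have := s2pi_lo
  linarith

theorem ph_zero : ph 0 = cc / 2 := by
  simp [ph, cc]
  ring

theorem hazard_tangent {x : ℝ} (hx : 0 ≤ x) : (cc + cc ^ 2 * x) * Qh x ≤ ph x := by
  have hc := cc_pos
  have hclo := cc_lo
  have hchi := cc_hi
  have hpos : ∀ w : ℝ, 0 ≤ w → 0 < cc + cc ^ 2 * w := fun w hw => by positivity
  -- the function `K`
  set K : ℝ → ℝ := fun w => ph w / (cc + cc ^ 2 * w) - Qh w with hK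
  set K' : ℝ → ℝ := fun w => ph w * w * cc * ((2 * cc ^ 2 - 1) - cc * (1 - cc ^ 2) * w) /
    (cc + cc ^ 2 * w) ^ 2 with hK'
  have hder : ∀ w, 0 ≤ w → HasDerivAt K (K' w) w := by
    intro w hw
    have h1 : HasDerivAt (fun w => cc + cc ^ 2 * w) (cc ^ 2) w := by
      have := ((hasDerivAt_id w).const_mul (cc ^ 2)).const_add cc
      simpa using this
    have h2 := ((hasDerivAt_ph w).fun_div h1 (hpos w hw).ne').fun_sub (hasDerivAt_Qh w)
    refine h2.congr_deriv ?_
    have := (hpos w hw).ne'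
    change _ = ph w * w * cc * ((2 * cc ^ 2 - 1) - cc * (1 - cc ^ 2) * w) / (cc + cc ^ 2 * w) ^ 2
    field_simp
    ring
  have hK0 : K 0 = 0 := by
    simp only [hK]
    rw [Qh_zero, ph_zero]
    have := hc.ne'
    field_simp
    ring
  have hlim : Tendsto K atTop (𝓝 0) := by
    have h1 : Tendsto (fun w => ph w / (cc + cc ^ 2 * w)) atTop (𝓝 0) := by
      refine tendsto_of_tendsto_of_tendsto_of_le_of_le' tendsto_const_nhds
        (g := fun _ => (0 : ℝ)) (h := fun w => ph w / cc) ?_ ?_ ?_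
      · simpa using tendsto_ph.div_const cc
      · filter_upwards [eventually_ge_atTop 0] with w hw
        exact (div_pos (ph_pos w) (hpos w hw)).le
      · filter_upwards [eventually_ge_atTop 0] with w hw
        exact div_le_div_of_nonneg_left (ph_pos w).le hc (by nlinarith [sq_nonneg cc])
    simpa [hK] using h1.sub tendsto_Qh
  set x1 : ℝ := (2 * cc ^ 2 - 1) / (cc * (1 - cc ^ 2)) with hx1
  have hd : 0 < cc * (1 - cc ^ 2) := by
    apply mul_pos hc
    nlinarith
  have hn : 0 < 2 * cc ^ 2 - 1 := by nlinarith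
  have hx1pos : 0 < x1 := div_pos hn hd
  have hmono : MonotoneOn K (Icc 0 x1) := by
    refine monotoneOn_of_hasDerivWithinAt_nonneg (convex_Icc 0 x1)
      (fun w hw => (hder w hw.1).continuousAt.continuousWithinAt) (f' := K') ?_ ?_
    · intro w hw
      rw [interior_Icc] at hw ⊢
      exact (hder w hw.1.le).hasDerivWithinAt
    · intro w hw
      rw [interior_Icc] at hw
      have h1 : cc * (1 - cc ^ 2) * w ≤ 2 * cc ^ 2 - 1 := by
        have := hw.2.le
        rw [hx1, le_div_iff₀ hd] at this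
        linarith
      have h2 := ph_pos w
      have h3 := hw.1
      simp only [hK']
      refine div_nonneg ?_ (by positivity)
      refine mul_nonneg (by positivity) (by linarith)
  have hanti : AntitoneOn K (Ici x1) := by
    refine antitoneOn_of_hasDerivWithinAt_nonpos (convex_Ici x1)
      (fun w hw => (hder w (hx1pos.le.trans hw)).continuousAt.continuousWithinAt) (f' := K') ?_ ?_
    · intro w hw
      rw [interior_Ici] at hw ⊢
      exact (hder w (hx1pos.le.trans (le_of_lt hw))).hasDerivWithinAt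
    · intro w hw
      rw [interior_Ici] at hw
      have hw' : x1 < w := hw
      have h1 : 2 * cc ^ 2 - 1 ≤ cc * (1 - cc ^ 2) * w := by
        have := hw'.le
        rw [hx1, div_le_iff₀ hd] at this
        linarith
      have h2 := ph_pos w
      have h3 := hx1pos.trans hw'
      simp only [hK']
      refine div_nonpos_of_nonpos_of_nonneg ?_ (by positivity)
      refine mul_nonpos_of_nonneg_of_nonpos (by positivity) (by linarith)
  have hKnn : 0 ≤ K x := by
    rcases le_total x x1 with h | h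
    · rw [← hK0]
      exact hmono ⟨le_rfl, hx1pos.le⟩ ⟨hx, h⟩ hx
    · refine le_of_tendsto hlim ?_
      filter_upwards [eventually_ge_atTop x] with v hv
      exact hanti h (le_trans h hv) hv
  simp only [hK] at hKnn
  have h1 : Qh x ≤ ph x / (cc + cc ^ 2 * x) := by linarith
  rw [le_div_iff₀ (hpos x hx)] at h1
  linarith

/-! ### Lower bound for the integral of the density -/

theorem exp_alt (N : ℕ) : ∀ v : ℝ, 0 ≤ v →
    0 ≤ (-1 : ℝ) ^ N * (Real.exp (-v) - ∑ n ∈ Finset.range N, (-v) ^ n / n.factorial) := by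
  induction N with
  | zero =>
    intro v _
    simp [Real.exp_pos _ |>.le]
  | succ N ih =>
    intro v hv
    set f : ℝ → ℝ := fun v => (-1 : ℝ) ^ (N + 1) *
      (Real.exp (-v) - ∑ n ∈ Finset.range (N + 1), (-v) ^ n / n.factorial) with hf
    have hder : ∀ v : ℝ, HasDerivAt f ((-1 : ℝ) ^ N *
        (Real.exp (-v) - ∑ n ∈ Finset.range N, (-v) ^ n / n.factorial)) v := by
      intro v
      have h1 : HasDerivAt (fun v : ℝ => Real.exp (-v)) (-Real.exp (-v)) v := by
        refine (hasDerivAt_neg v).exp.congr_deriv ?_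
        ring
      have h2 : HasDerivAt (fun v : ℝ => ∑ n ∈ Finset.range (N + 1), (-v) ^ n / (n.factorial : ℝ))
          (∑ n ∈ Finset.range (N + 1), (-((n : ℝ) * (-v) ^ (n - 1)) / (n.factorial : ℝ))) v := by
        refine HasDerivAt.fun_sum fun n _ => ?_
        refine (((hasDerivAt_neg v).fun_pow n).div_const (n.factorial : ℝ)).congr_deriv ?_
        ring
      have h3 : ∑ n ∈ Finset.range (N + 1), (-((n : ℝ) * (-v) ^ (n - 1)) / (n.factorial : ℝ)) =
          - ∑ n ∈ Finset.range N, (-v) ^ n / (n.factorial : ℝ) := by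
        rw [Finset.sum_range_succ', ← Finset.sum_neg_distrib]
        simp only [Nat.cast_zero, zero_mul, neg_zero, zero_div, add_zero]
        refine Finset.sum_congr rfl fun n _ => ?_
        rw [Nat.factorial_succ]
        have : (n.factorial : ℝ) ≠ 0 := by positivity
        push_cast
        have h4 : (n : ℝ) + 1 ≠ 0 := by positivity
        field_simp
      have h4 := (h1.fun_sub h2).const_mul ((-1 : ℝ) ^ (N + 1))
      rw [h3] at h4
      refine h4.congr_deriv ?_
      rw [pow_succ]
      ring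
    have hmono : MonotoneOn f (Ici 0) := by
      refine monotoneOn_of_hasDerivWithinAt_nonneg (convex_Ici 0)
        (fun w _ => (hder w).continuousAt.continuousWithinAt) (f' := fun v => (-1 : ℝ) ^ N *
        (Real.exp (-v) - ∑ n ∈ Finset.range N, (-v) ^ n / n.factorial)) ?_ ?_
      · intro w _
        exact (hder w).hasDerivWithinAt
      · intro w hw
        rw [interior_Ici] at hw
        exact ih w (le_of_lt hw)
    have h0 : f 0 = 0 := by
      simp only [hf]
      rw [Finset.sum_range_succ']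
      simp
    have := hmono (Set.mem_Ici.2 le_rfl) hv hv
    rw [h0] at this
    exact this

theorem exp_ge (v : ℝ) (hv : 0 ≤ v) : 1 - v + v ^ 2 / 2 - v ^ 3 / 6 + v ^ 4 / 24 - v ^ 5 / 120 +
    v ^ 6 / 720 - v ^ 7 / 5040 ≤ Real.exp (-v) := by
  have h := exp_alt 8 v hv
  simp only [Finset.sum_range_succ, Finset.sum_range_zero, Nat.factorial] at h
  push_cast at h
  nlinarith [h]

/-- The polynomial lower bound for `∫_0^d exp (-t²/2) dt`. -/
noncomputable def gg (d : ℝ) : ℝ := d - d ^ 3 / 6 + d ^ 5 / 40 - d ^ 7 / 336 + d ^ 9 / 3456 -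
  d ^ 11 / 42240 + d ^ 13 / 599040 - d ^ 15 / 9676800

theorem gg_le {d : ℝ} (hd : 0 ≤ d) : cc * gg d ≤ 1 - 2 * Qh d := by
  set f : ℝ → ℝ := fun d => 1 - 2 * Qh d - cc * gg d with hf
  set g' : ℝ → ℝ := fun d => 1 - d ^ 2 / 2 + d ^ 4 / 8 - d ^ 6 / 48 + d ^ 8 / 384 -
    d ^ 10 / 3840 + d ^ 12 / 46080 - d ^ 14 / 645120 with hg'
  have hgg : ∀ d, HasDerivAt gg (g' d) d := by
    intro d
    have h1 := ((((((((hasDerivAt_id' d).fun_sub ((hasDerivAt_pow 3 d).div_const 6)).fun_add
      ((hasDerivAt_pow 5 d).div_const 40)).fun_sub ((hasDerivAt_pow 7 d).div_const 336)).fun_add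
      ((hasDerivAt_pow 9 d).div_const 3456)).fun_sub ((hasDerivAt_pow 11 d).div_const 42240)).fun_add
      ((hasDerivAt_pow 13 d).div_const 599040)).fun_sub ((hasDerivAt_pow 15 d).div_const 9676800))
    refine h1.congr_deriv ?_
    change _ = 1 - d ^ 2 / 2 + d ^ 4 / 8 - d ^ 6 / 48 + d ^ 8 / 384 -
      d ^ 10 / 3840 + d ^ 12 / 46080 - d ^ 14 / 645120
    push_cast
    ring
  have hder : ∀ d, HasDerivAt f (2 * ph d - cc * g' d) d := by
    intro d
    have h1 := (((hasDerivAt_Qh d).const_mul 2).const_sub 1).fun_sub ((hgg d).const_mul cc)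
    refine h1.congr_deriv ?_
    ring
  have hmono : MonotoneOn f (Ici 0) := by
    refine monotoneOn_of_hasDerivWithinAt_nonneg (convex_Ici 0)
      (fun w _ => (hder w).continuousAt.continuousWithinAt)
      (f' := fun d => 2 * ph d - cc * g' d) (fun w _ => (hder w).hasDerivWithinAt) ?_
    intro w hw
    have h1 := exp_ge (w ^ 2 / 2) (by positivity)
    have h2 : 2 * ph w = cc * Real.exp (-(w ^ 2 / 2)) := by
      simp only [ph, cc]
      rw [show -w ^ 2 / 2 = -(w ^ 2 / 2) by ring]
      ring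
    have h3 : g' w ≤ Real.exp (-(w ^ 2 / 2)) := by
      refine le_trans (le_of_eq ?_) h1
      simp only [hg']
      ring
    rw [h2]
    nlinarith [mul_le_mul_of_nonneg_left h3 cc_pos.le]
  have h0 : f 0 = 0 := by
    simp [hf, gg, Qh_zero]
  have := hmono (Set.mem_Ici.2 le_rfl) hd hd
  rw [h0] at this
  simp only [hf] at this
  linarith

/-- For `z ≤ 0`, `Q(z) ≤ 1/2 - (2/5) z`. -/
theorem Qh_neg_le {z : ℝ} (hz : z ≤ 0) : Qh z ≤ 1 / 2 - 2 / 5 * z := by
  have hph : ∀ x, ph x ≤ 2 / 5 := by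
    intro x
    have h1 : ph x ≤ ph 0 := by
      simp only [ph]
      refine div_le_div_of_nonneg_right (Real.exp_le_exp.2 ?_) s2pi_pos.le
      nlinarith [sq_nonneg x]
    rw [ph_zero] at h1
    have := cc_hi
    linarith
  have hder : ∀ x, HasDerivAt (fun x => Qh x + 2 / 5 * x) (-ph x + 2 / 5) x := by
    intro x
    have := (hasDerivAt_Qh x).fun_add ((hasDerivAt_id' x).const_mul (2 / 5))
    refine this.congr_deriv ?_
    ring
  have hmono : Monotone (fun x => Qh x + 2 / 5 * x) :=
    monotone_of_hasDerivAt_nonneg hder fun x => by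
      have := hph x
      simp only [Pi.zero_apply]
      linarith
  have := hmono hz
  simp only [mul_zero, add_zero, Qh_zero] at this
  linarith

/-- `Q(x) - Q(x+d) ≥ d φ(x+d)` for `x ≥ 0`. -/
theorem Qh_sub_ge {x d : ℝ} (hx : 0 ≤ x) (hd : 0 ≤ d) : d * ph (x + d) ≤ Qh x - Qh (x + d) := by
  have hder : ∀ t, HasDerivAt (fun t => Qh t + ph (x + d) * t) (-ph t + ph (x + d)) t := by
    intro t
    have := (hasDerivAt_Qh t).fun_add ((hasDerivAt_id' t).const_mul (ph (x + d)))
    refine this.congr_deriv ?_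
    ring
  have hanti : AntitoneOn (fun t => Qh t + ph (x + d) * t) (Icc x (x + d)) := by
    refine antitoneOn_of_hasDerivWithinAt_nonpos (convex_Icc _ _)
      (fun w _ => (hder w).continuousAt.continuousWithinAt)
      (f' := fun t => -ph t + ph (x + d)) (fun w _ => (hder w).hasDerivWithinAt) ?_
    intro w hw
    rw [interior_Icc] at hw
    have h1 : ph (x + d) ≤ ph w := by
      simp only [ph]
      refine div_le_div_of_nonneg_right (Real.exp_le_exp.2 ?_) s2pi_pos.le
      nlinarith [hw.1, hw.2]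
    linarith
  have := hanti (left_mem_Icc.2 (by linarith)) (right_mem_Icc.2 (by linarith)) (by linarith)
  simp only at this
  nlinarith [this]

end Pool.Agent.H40.Peel.Cert
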