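import Pool.Agent.H40.Peel.CertPoly
import Pool.Agent.H40.Peel.Ana

/-!
The numerical tables of the certificate and their verification.
-/

namespace Pool.Agent.H40.Peel.Cert

/-- Hermite polynomials at rational points. -/
def HeQ : ℕ → ℚ → ℚ
  | 0, _ => 1
  | 1, x => x
  | k + 2, x => x * HeQ (k + 1) x - (k + 1) * HeQ k x

theorem HeQ_cast (k : ℕ) (z : ℚ) : ((HeQ k z : ℚ) : ℝ) = He k (z : ℝ) := by
  induction k using Nat.strong_induction_on with
  | _ k ih =>
    match k with
    | 0 => simp [HeQ, He]
    | 1 => simp [HeQ, He]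
    | k + 2 =>
      simp only [HeQ, He]
      push_cast
      rw [ih (k + 1) (by omega), ih k (by omega)]

/-- The coefficients of `F`. -/
def co : List ℚ :=
  [42652/10000, -69511/10000, 57252/10000, -27911/10000, 87414/100000, -15584/100000,
    11592/1000000]

/-- `∑ a_k He_k(z) p^(k-1)` as a polynomial in `p`. -/
def psiAux (z : ℚ) : ℕ → List ℚ → List ℚ
  | _, [] => []
  | k, a :: l => (a * HeQ k z) :: psiAux z (k + 1) l

/-- `∑ a_k He_k(z) p^(k-1)` as a polynomial in `p`. -/
def psiP (z : ℚ) : List ℚ := psiAux z 1 co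

/-- Lower bound for the exponential. -/
def expLo (v : ℚ) : ℚ :=
  1 + v + v ^ 2 / 2 + v ^ 3 / 6 + v ^ 4 / 24 + v ^ 5 / 120 + v ^ 6 / 720 + v ^ 7 / 5040 +
    v ^ 8 / 40320

/-- Upper bound for the exponential. -/
def expHi (v : ℚ) : ℚ := expLo v + v ^ 9 * 10 / (362880 * 9)

/-- Polynomial whose positivity gives `F < 1/s` -/
def polT (z : ℚ) : List ℚ :=
  addP [(1 - 1/500) * (2506628/1000000) * expLo (z ^ 2 / 2)] (smulP (-1) (psiP z))

/-- Polynomial whose positivity gives `F > 1/s` -/
def polB (b : ℚ) : List ℚ :=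
  addP (psiP b) [-((1 + 1/500) * (2506629/1000000) * expHi (b ^ 2 / 2))]

/-- `∫_0^(α p) e^(-t²/2) dt / p` truncated, as a polynomial in `p`, `α = 8/5` -/
def Tp : List ℚ :=
  [8/5, 0, -(8/5)^3/6, 0, (8/5)^5/40, 0, -(8/5)^7/336, 0, (8/5)^9/3456, 0, -(8/5)^11/42240, 0,
    (8/5)^13/599040, 0, -(8/5)^15/9676800]

/-- Polynomial whose positivity gives the lower bound for the hazard function. -/
def polR (z lo : ℚ) : List ℚ :=
  addP (smulP (79788/100000) Tp) [-(z + 1/500 + 1/2000/lo), -(8/5)]

/-- The step function `b`. -/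
def Bq (p : ℚ) : ℚ :=
  if 679/1000 < p then -353/1000 else if 581/1000 < p then -139/1000
  else if 476/1000 < p then 57/1000 else if 348/1000 < p then 273/1000
  else if 191/1000 < p then 527/1000 else if 11/1000 < p then 817/1000 else 1121/1000

/-- Check of the table of the values `z`. -/
def chkT : ℚ → List (ℚ × ℚ) → Bool
  | hi, [] => decide (hi = 251/10000)
  | hi, (lo, z) :: l => decide (0 < lo) && decide (z ^ 2 / 2 ≤ 1) && decide (Bq lo ≤ z) &&
      posB (polT z) lo hi && posB (polR z lo) lo hi && chkT lo l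

/-- The table of the values `z`. -/
def tabT : List (ℚ × ℚ) := [
  (7840/10000, -2837/10000), (7640/10000, -2494/10000), (7445/10000, -2065/10000), (7255/10000, -1648/10000),
  (7033/10000, -1242/10000), (6817/10000, -769/10000), (6607/10000, -309/10000), (6403/10000, 137/10000),
  (6172/10000, 568/10000), (5955/10000, 1055/10000), (5745/10000, 1511/10000), (5513/10000, 1950/10000),
  (5289/10000, 2433/10000), (5046/10000, 2897/10000), (4786/10000, 3397/10000), (4522/10000, 3929/10000),
  (4246/10000, 4464/10000), (3960/10000, 5019/10000), (3660/10000, 5588/10000), (3356/10000, 6178/10000),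
  (3033/10000, 6769/10000), (2681/10000, 7387/10000), (2317/10000, 8050/10000), (1933/10000, 8723/10000),
  (1523/10000, 9416/10000), (1099/10000, 10135/10000), (673/10000, 10844/10000), (285/10000, 11466/10000),
  (251/10000, 11997/10000)]

theorem chkT_tab : chkT (4/5) tabT = true := by decide +kernel

/-- Check of the table of the values `b`. -/
def chkB : ℚ → List (ℚ × ℚ) → Bool
  | hi, [] => decide (hi = 0)
  | hi, (lo, b) :: l => decide (b ^ 2 / 2 ≤ 1) && decide (lo < hi) &&
      decide (Bq hi = b) && posN (polB b) ((hi - lo) / 8) 8 lo && chkB lo l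

/-- The table of the values `b`. -/
def tabB : List (ℚ × ℚ) := [(679/1000, -353/1000), (581/1000, -139/1000), (476/1000, 57/1000),
  (348/1000, 273/1000), (191/1000, 527/1000), (11/1000, 817/1000), (0, 1121/1000)]

theorem chkB_tab : chkB (4/5) tabB = true := by decide +kernel

theorem chk_last : posB (polT (12/10)) 0 (251/10000) = true := by decide +kernel

/-- `c T(p) - α p - β/p₀ - z(p)` with `z(p) = 5/4 - (5/2) p² + 1/50`. -/
theorem chk_first : posN (addP (smulP (79788/100000) Tp)
    [-(1/500 + 1/2000/(4/5) + 5/4 + 1/50), -(8/5), 5/2]) (1/40) 8 (4/5) = true := by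
  decide +kernel

end Pool.Agent.H40.Peel.Cert
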