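import Pool.Agent.H40.Peel.CertGauss
import Pool.Agent.H40.Peel.CertTable

/-!
The initial condition of the certificate.
-/

namespace Pool.Agent.H40.Peel.Cert

open MeasureTheory Set Filter Topology

/-- Derivative of a polynomial. -/
def derP : List ℚ → List ℚ
  | [] => []
  | _ :: l => addP l (0 :: derP l)

theorem hasDerivAt_evP (l : List ℚ) (t : ℝ) : HasDerivAt (evP l) (evP (derP l) t) t := by
  induction l with
  | nil => simpa [evP, derP] using hasDerivAt_const t (0 : ℝ)
  | cons a l ih =>
    have h1 := ((hasDerivAt_id' t).fun_mul ih).const_add (a : ℝ)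
    have h2 : (fun t => (a : ℝ) + t * evP l t) = evP (a :: l) := by
      funext t
      simp only [evP]
    rw [h2] at h1
    refine h1.congr_deriv ?_
    simp only [derP, evP_addP, evP]
    push_cast
    ring

/-- Coefficients of Hermite polynomials. -/
def heP : ℕ → List ℚ
  | 0 => [1]
  | 1 => [0, 1]
  | k + 2 => addP (0 :: heP (k + 1)) (smulP (-(k + 1)) (heP k))

theorem evP_heP (k : ℕ) (t : ℝ) : evP (heP k) t = He k t := by
  induction k using Nat.strong_induction_on with
  | _ k ih =>
    match k with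
    | 0 => simp [heP, He, evP]
    | 1 => simp [heP, He, evP]
    | k + 2 =>
      simp only [heP, He, evP_addP, evP_smulP, evP, ih (k + 1) (by omega), ih k (by omega)]
      push_cast
      ring

/-- `∑ a_k p₀^(k+1) He_k(w)` as a polynomial in `w`. -/
def pwAux : ℕ → List ℚ → List ℚ
  | _, [] => []
  | k, a :: l => addP (smulP (a * (4 / 5) ^ (k + 1)) (heP k)) (pwAux (k + 1) l)

/-- `∑ a_k p₀^(k+1) He_k(w)` as a polynomial in `w`. -/
def pw : List ℚ := pwAux 1 co

/-- Coefficients of the Taylor polynomial of a supersolution. -/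
def cTay : ℕ → ℚ
  | 0 => 1255 / 1000
  | 1 => -1
  | k + 2 => cTay k / (k + 2)

/-- A supersolution for the Mills ratio on `[-.36, 2]`. -/
def m1 : List ℚ := addP ((List.range 18).map cTay) [1 / 2000, -1 / 2000]

theorem chk_m1a : posN (smulP (-1) (addP (addP (derP m1) (0 :: smulP (-1) m1)) [1])) (9/100) 4
    (-36/100) = true := by decide +kernel

theorem chk_m1b : posN (smulP (-1) (addP (addP (derP m1) (0 :: smulP (-1) m1)) [1])) (1/4) 4
    0 = true := by decide +kernel

theorem chk_m1c : posN (smulP (-1) (addP (addP (derP m1) (0 :: smulP (-1) m1)) [1])) (1/8) 8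
    1 = true := by decide +kernel

theorem chk_pa : posN (addP pw (smulP (-1) m1)) (9/100) 4 (-36/100) = true := by decide +kernel

theorem chk_pb : posN (addP pw (smulP (-1) m1)) (1/8) 8 0 = true := by decide +kernel

theorem chk_pc : posN (addP pw (smulP (-1) m1)) (1/8) 8 1 = true := by decide +kernel

theorem chk_m2 : posB (addP m1 [-60/142]) 2 2 = true := by decide +kernel

/-- `P D - N` with the continued fraction bound `N / D` of the Mills ratio. -/
def pdn : List ℚ := addP (mulP pw [0, 15, 0, 10, 0, 1]) (smulP (-1) [8, 0, 9, 0, 1])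

theorem chk_pd : posN pdn (1/16) 80 2 = true := by decide +kernel

theorem chk_pe : allNonneg (shiftP 7 pdn) = true := by decide +kernel

theorem m1_residual {w : ℝ} (h1 : -(36 / 100 : ℝ) ≤ w) (h2 : w ≤ 2) :
    evP (derP m1) w - w * evP m1 w + 1 < 0 := by
  have h : 0 < evP (smulP (-1) (addP (addP (derP m1) (0 :: smulP (-1) m1)) [1])) w := by
    rcases le_total w 0 with h3 | h3
    · exact posN_sound chk_m1a (by push_cast; linarith) (by push_cast; linarith) (by norm_num)
    · rcases le_total w 1 with h4 | h4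
      · exact posN_sound chk_m1b (by push_cast; linarith) (by push_cast; linarith) (by norm_num)
      · exact posN_sound chk_m1c (by push_cast; linarith) (by push_cast; linarith) (by norm_num)
  simp only [evP_smulP, evP_addP, evP] at h
  push_cast at h
  linarith

theorem pw_ge_m1 {w : ℝ} (h1 : -(36 / 100 : ℝ) ≤ w) (h2 : w ≤ 2) : evP m1 w ≤ evP pw w := by
  have h : 0 < evP (addP pw (smulP (-1) m1)) w := by
    rcases le_total w 0 with h3 | h3
    · exact posN_sound chk_pa (by push_cast; linarith) (by push_cast; linarith) (by norm_num)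
    · rcases le_total w 1 with h4 | h4
      · exact posN_sound chk_pb (by push_cast; linarith) (by push_cast; linarith) (by norm_num)
      · exact posN_sound chk_pc (by push_cast; linarith) (by push_cast; linarith) (by norm_num)
  simp only [evP_smulP, evP_addP] at h
  push_cast at h
  linarith

/-- Continued fraction bound for the Mills ratio. -/
theorem mills_cf {w : ℝ} (hw : 1 ≤ w) :
    Qh w ≤ (w ^ 4 + 9 * w ^ 2 + 8) / (w ^ 5 + 10 * w ^ 3 + 15 * w) * ph w := by
  have hD : ∀ w ∈ Ici (1 : ℝ), 0 < w ^ 5 + 10 * w ^ 3 + 15 * w := fun w hw => by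
    have : (1 : ℝ) ≤ w := hw
    positivity
  refine mills_compare_top (M := fun w => (w ^ 4 + 9 * w ^ 2 + 8) / (w ^ 5 + 10 * w ^ 3 + 15 * w))
    (M' := fun w => ((4 * w ^ 3 + 18 * w) * (w ^ 5 + 10 * w ^ 3 + 15 * w) -
      (w ^ 4 + 9 * w ^ 2 + 8) * (5 * w ^ 4 + 30 * w ^ 2 + 15)) / (w ^ 5 + 10 * w ^ 3 + 15 * w) ^ 2)
    (a := 1) ?_ ?_ ?_ hw
  · intro w hw
    have h1 : HasDerivAt (fun w : ℝ => w ^ 4 + 9 * w ^ 2 + 8) (4 * w ^ 3 + 18 * w) w := by
      refine (((hasDerivAt_pow 4 w).fun_add ((hasDerivAt_pow 2 w).const_mul 9)).add_const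
        8).congr_deriv ?_
      push_cast
      ring
    have h2 : HasDerivAt (fun w : ℝ => w ^ 5 + 10 * w ^ 3 + 15 * w)
        (5 * w ^ 4 + 30 * w ^ 2 + 15) w := by
      refine (((hasDerivAt_pow 5 w).fun_add ((hasDerivAt_pow 3 w).const_mul 10)).fun_add
        ((hasDerivAt_id' w).const_mul 15)).congr_deriv ?_
      push_cast
      ring
    exact h1.fun_div h2 (hD w hw).ne'
  · intro w hw
    have h1 := hD w hw
    have h2 : ((4 * w ^ 3 + 18 * w) * (w ^ 5 + 10 * w ^ 3 + 15 * w) -
      (w ^ 4 + 9 * w ^ 2 + 8) * (5 * w ^ 4 + 30 * w ^ 2 + 15)) / (w ^ 5 + 10 * w ^ 3 + 15 * w) ^ 2 -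
      w * ((w ^ 4 + 9 * w ^ 2 + 8) / (w ^ 5 + 10 * w ^ 3 + 15 * w)) + 1 =
      -120 / (w ^ 5 + 10 * w ^ 3 + 15 * w) ^ 2 := by
      have key : ∀ A N D : ℝ, D ≠ 0 → A - w * N * D + D ^ 2 = -120 →
          A / D ^ 2 - w * (N / D) + 1 = -120 / D ^ 2 := by
        intro A N D hD0 h
        rw [← h]
        field_simp
      exact key _ _ _ h1.ne' (by ring)
    simp only [h2]
    exact div_nonpos_of_nonpos_of_nonneg (by norm_num) (by positivity)
  · refine tendsto_of_tendsto_of_tendsto_of_le_of_le' tendsto_const_nhds tendsto_ph ?_ ?_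
    · filter_upwards [eventually_ge_atTop 1] with w hw
      have h1 := hD w hw
      have h2 := ph_pos w
      positivity
    · filter_upwards [eventually_ge_atTop 1] with w hw
      have h1 := hD w hw
      have h2 := ph_pos w
      have h3 : (w ^ 4 + 9 * w ^ 2 + 8) / (w ^ 5 + 10 * w ^ 3 + 15 * w) ≤ 1 := by
        rw [div_le_one h1]
        have h4 : 0 ≤ w - 1 := by linarith
        have h5 : w ^ 5 + 10 * w ^ 3 + 15 * w - (w ^ 4 + 9 * w ^ 2 + 8) =
            (w - 1) * w ^ 4 + 10 * w ^ 2 * (w - 1) + w ^ 2 + 15 * (w - 1) + 7 := by ring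
        nlinarith [mul_nonneg h4 (pow_nonneg (show (0:ℝ) ≤ w by linarith) 4),
          mul_nonneg h4 (pow_nonneg (show (0:ℝ) ≤ w by linarith) 2), sq_nonneg w]
      calc _ ≤ 1 * ph w := mul_le_mul_of_nonneg_right h3 h2.le
        _ = ph w := one_mul _

theorem pdn_nonneg {w : ℝ} (h : 2 ≤ w) : 0 ≤ evP pdn w := by
  rcases le_total w 7 with h1 | h1
  · exact (posN_sound chk_pd (by push_cast; linarith) (by push_cast; linarith) (by norm_num)).le
  · exact nonneg_of_shift chk_pe (by push_cast; linarith)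

/-- The initial condition. -/
theorem initial {w : ℝ} (hw : -(353 / 1000 : ℝ) ≤ w) : Qh w ≤ ph w * evP pw w := by
  rcases le_total w 2 with h | h
  · have hb : Qh 2 ≤ evP m1 2 * ph 2 := by
      have h1 := mills_cf (w := 2) (by norm_num)
      have h2 : 0 < evP (addP m1 [-60/142]) 2 :=
        posB_sound chk_m2 (by push_cast; norm_num) (by push_cast; norm_num)
      simp only [evP_addP, evP] at h2
      push_cast at h2
      have h3 := ph_pos 2
      refine h1.trans (mul_le_mul_of_nonneg_right ?_ h3.le)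
      norm_num
      norm_num at h2
      linarith
    have h1 := mills_compare (M := evP m1) (M' := evP (derP m1)) (a := -(36 / 100)) (b := 2)
      (fun w _ => hasDerivAt_evP m1 w) (fun w hw => (m1_residual hw.1 hw.2).le) hb
      (w := w) ⟨by linarith, h⟩
    have h2 := pw_ge_m1 (w := w) (by linarith) h
    have h3 := ph_pos w
    nlinarith [mul_le_mul_of_nonneg_left h2 h3.le]
  · have h1 := mills_cf (w := w) (by linarith)
    have h2 := pdn_nonneg h
    simp only [pdn, evP_smulP, evP_addP, evP_mulP, evP] at h2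
    push_cast at h2
    have h3 := ph_pos w
    refine h1.trans ?_
    rw [mul_comm]
    refine mul_le_mul_of_nonneg_left ?_ h3.le
    rw [div_le_iff₀ (by positivity)]
    nlinarith [h2]

end Pool.Agent.H40.Peel.Cert
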