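import Mathlib

/-!
A verified positivity checker for rational polynomials on intervals.
-/

namespace Pool.Agent.H40.Peel.Cert

/-- Value of the polynomial with coefficient list `l` (lowest degree first). -/
def evP : List ℚ → ℝ → ℝ
  | [], _ => 0
  | a :: l, t => a + t * evP l t

/-- Sum of polynomials. -/
def addP : List ℚ → List ℚ → List ℚ
  | [], m => m
  | a :: l, [] => a :: l
  | a :: l, b :: m => (a + b) :: addP l m

/-- Scalar multiple. -/
def smulP (c : ℚ) : List ℚ → List ℚ
  | [] => []
  | a :: l => (c * a) :: smulP c l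

/-- Product. -/
def mulP : List ℚ → List ℚ → List ℚ
  | [], _ => []
  | a :: l, m => addP (smulP a m) (0 :: mulP l m)

/-- Taylor shift. -/
def shiftP (c : ℚ) : List ℚ → List ℚ
  | [] => []
  | a :: l => addP (a :: shiftP c l) (smulP c (shiftP c l))

/-- Bound for the absolute value for `|t| ≤ h`. -/
def absP (h : ℚ) : List ℚ → ℚ
  | [] => 0
  | a :: l => |a| + h * absP h l

theorem evP_addP (l m : List ℚ) (t : ℝ) : evP (addP l m) t = evP l t + evP m t := by
  induction l generalizing m with
  | nil => simp [addP, evP]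
  | cons a l ih =>
    cases m with
    | nil => simp [addP, evP]
    | cons b m =>
      simp only [addP, evP, ih]
      push_cast
      ring

theorem evP_smulP (c : ℚ) (l : List ℚ) (t : ℝ) : evP (smulP c l) t = c * evP l t := by
  induction l with
  | nil => simp [smulP, evP]
  | cons a l ih =>
    simp only [smulP, evP, ih]
    push_cast
    ring

theorem evP_mulP (l m : List ℚ) (t : ℝ) : evP (mulP l m) t = evP l t * evP m t := by
  induction l with
  | nil => simp [mulP, evP]
  | cons a l ih =>
    simp only [mulP, evP_addP, evP_smulP, evP, ih]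
    push_cast
    ring

theorem evP_shiftP (c : ℚ) (l : List ℚ) (t : ℝ) : evP (shiftP c l) t = evP l (c + t) := by
  induction l with
  | nil => simp [shiftP, evP]
  | cons a l ih =>
    simp only [shiftP, evP_addP, evP_smulP, evP, ih]
    ring

theorem absP_nonneg {h : ℚ} (hh : 0 ≤ h) (l : List ℚ) : 0 ≤ absP h l := by
  induction l with
  | nil => simp [absP]
  | cons a l ih =>
    simp only [absP]
    positivity

theorem abs_evP_le {h : ℚ} (hh : 0 ≤ h) (l : List ℚ) {t : ℝ} (ht : |t| ≤ h) :
    |evP l t| ≤ absP h l := by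
  induction l with
  | nil => simp [evP, absP]
  | cons a l ih =>
    simp only [evP, absP]
    push_cast
    have h1 : |t * evP l t| ≤ h * absP h l := by
      rw [abs_mul]
      exact mul_le_mul ht ih (abs_nonneg _) (by exact_mod_cast hh)
    exact (abs_add_le _ _).trans (by linarith)

/-- Check that the polynomial `l` is positive on `[a, b]`. -/
def posB (l : List ℚ) (a b : ℚ) : Bool :=
  match shiftP ((a + b) / 2) l with
  | [] => false
  | c :: m => decide (a ≤ b) && decide ((b - a) / 2 * absP ((b - a) / 2) m < c)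

theorem posB_sound {l : List ℚ} {a b : ℚ} (h : posB l a b = true) {t : ℝ} (h1 : (a : ℝ) ≤ t)
    (h2 : t ≤ b) : 0 < evP l t := by
  unfold posB at h
  have h3 := evP_shiftP ((a + b) / 2) l (t - ((a + b) / 2 : ℚ))
  rw [show (((a + b) / 2 : ℚ) : ℝ) + (t - ((a + b) / 2 : ℚ)) = t by ring] at h3
  rw [← h3]
  cases hs : shiftP ((a + b) / 2) l with
  | nil => rw [hs] at h; simp at h
  | cons c m =>
    rw [hs] at h
    simp only [Bool.and_eq_true, decide_eq_true_eq] at h
    obtain ⟨hab, h⟩ := h
    have hh : (0 : ℚ) ≤ (b - a) / 2 := by linarith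
    have ht : |t - ((a + b) / 2 : ℚ)| ≤ ((b - a) / 2 : ℚ) := by
      push_cast
      rw [abs_le]
      constructor <;> linarith
    have h4 := abs_evP_le hh m ht
    have h5 : |(t - ((a + b) / 2 : ℚ)) * evP m (t - ((a + b) / 2 : ℚ))| ≤
        ((b - a) / 2 : ℚ) * absP ((b - a) / 2) m := by
      rw [abs_mul]
      exact mul_le_mul ht h4 (abs_nonneg _) (by exact_mod_cast hh)
    have h6 : (((b - a) / 2 : ℚ) : ℝ) * (absP ((b - a) / 2) m : ℝ) < c := by exact_mod_cast h
    simp only [evP]
    have h7 := neg_abs_le ((t - ((a + b) / 2 : ℚ)) * evP m (t - ((a + b) / 2 : ℚ)))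
    linarith

/-- Check positivity on `[a, a + n * w]` by `n` steps of width `w`. -/
def posN (l : List ℚ) (w : ℚ) : ℕ → ℚ → Bool
  | 0, _ => true
  | n + 1, a => posB l a (a + w) && posN l w n (a + w)

theorem posN_sound {l : List ℚ} {w : ℚ} {n : ℕ} {a : ℚ} (h : posN l w n a = true) {t : ℝ}
    (h1 : (a : ℝ) ≤ t) (h2 : t ≤ a + n * w) (hn : n ≠ 0) : 0 < evP l t := by
  induction n generalizing a with
  | zero => exact absurd rfl hn
  | succ n ih =>
    simp only [posN, Bool.and_eq_true] at h
    rcases le_total t ((a + w : ℚ) : ℝ) with h3 | h3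
    · exact posB_sound h.1 h1 h3
    · rcases Nat.eq_zero_or_pos n with rfl | hn'
      · refine posB_sound h.1 h1 ?_
        push_cast at h2 ⊢
        linarith
      · refine ih h.2 h3 ?_ hn'.ne'
        push_cast at h2 ⊢
        linarith

/-- All coefficients are nonnegative. -/
def allNonneg : List ℚ → Bool
  | [] => true
  | a :: l => decide (0 ≤ a) && allNonneg l

theorem allNonneg_sound {l : List ℚ} (h : allNonneg l = true) {t : ℝ} (ht : 0 ≤ t) :
    0 ≤ evP l t := by
  induction l with
  | nil => simp [evP]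
  | cons a l ih =>
    simp only [allNonneg, Bool.and_eq_true, decide_eq_true_eq] at h
    have h1 : (0 : ℝ) ≤ a := by exact_mod_cast h.1
    have h2 := ih h.2
    simp only [evP]
    positivity

theorem nonneg_of_shift {l : List ℚ} {c : ℚ} (h : allNonneg (shiftP c l) = true) {t : ℝ}
    (ht : (c : ℝ) ≤ t) : 0 ≤ evP l t := by
  have h1 := allNonneg_sound h (t := t - c) (by linarith)
  rw [evP_shiftP] at h1
  rwa [show (c : ℝ) + (t - c) = t by ring] at h1

end Pool.Agent.H40.Peel.Cert
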