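import Pool.Agent.H40.Peel.Switch

/-!
The deterministic part of the conditional expectation estimate.
-/

namespace Pool.Agent.H40.Peel

open Finset

variable {n : ℕ}

/-- Euclidean norm of `f` on `A`. -/
noncomputable def nrm (A : Finset (Fin n)) (f : Fin n → ℝ) : ℝ := √(∑ v ∈ A, f v ^ 2)

lemma nrm_nonneg (A : Finset (Fin n)) (f : Fin n → ℝ) : 0 ≤ nrm A f := Real.sqrt_nonneg _

lemma nrm_sq (A : Finset (Fin n)) (f : Fin n → ℝ) : nrm A f ^ 2 = ∑ v ∈ A, f v ^ 2 :=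
  Real.sq_sqrt (Finset.sum_nonneg fun _ _ => sq_nonneg _)

lemma nrm_mono {A B : Finset (Fin n)} (h : B ⊆ A) (f : Fin n → ℝ) : nrm B f ≤ nrm A f :=
  Real.sqrt_le_sqrt (Finset.sum_le_sum_of_subset_of_nonneg h fun _ _ _ => sq_nonneg _)

lemma nrm_one (A : Finset (Fin n)) : nrm A (fun _ => 1) = √(A.card : ℝ) := by
  unfold nrm; simp

lemma nrm_le_nrm {A : Finset (Fin n)} {f g : Fin n → ℝ} (h : ∀ v ∈ A, |f v| ≤ |g v|) :
    nrm A f ≤ nrm A g :=
  Real.sqrt_le_sqrt (Finset.sum_le_sum fun v hv => sq_le_sq.2 (h v hv))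

lemma cs (A : Finset (Fin n)) (f g : Fin n → ℝ) :
    |∑ v ∈ A, f v * g v| ≤ nrm A f * nrm A g := by
  unfold nrm
  rw [← Real.sqrt_mul (Finset.sum_nonneg fun _ _ => sq_nonneg _)]
  apply Real.abs_le_sqrt
  exact Finset.sum_mul_sq_le_sq_mul_sq _ _ _

lemma sum_abs_le (A : Finset (Fin n)) (f : Fin n → ℝ) :
    ∑ v ∈ A, |f v| ≤ √(A.card : ℝ) * nrm A f := by
  have h := cs A (fun _ => 1) (fun v => |f v|)
  rw [nrm_one] at h
  have h2 : nrm A (fun v => |f v|) = nrm A f := by unfold nrm; simp [sq_abs]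
  rw [h2] at h
  refine le_trans ?_ h
  simp only [one_mul]
  exact le_abs_self _

lemma op_sub {ω : Om n} {A : Finset (Fin n)} {β : ℝ} (h : OpB ω A β) {B D : Finset (Fin n)}
    (hB : B ⊆ A) (hD : D ⊆ A) (f g : Fin n → ℝ) :
    |∑ v ∈ B, ∑ z ∈ D, f v * g z * e0 ω v z| ≤ β * nrm B f * nrm D g := by
  classical
  have h1 := h (fun v => if v ∈ B then f v else 0) (fun z => if z ∈ D then g z else 0)
  have e1 : ∀ (X Y : Finset (Fin n)) (q : Fin n → ℝ), X ⊆ Y →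
      ∑ v ∈ Y, (if v ∈ X then q v else 0) = ∑ v ∈ X, q v := by
    intro X Y q hXY
    rw [← Finset.sum_filter, Finset.filter_mem_eq_inter, Finset.inter_eq_right.2 hXY]
  have e2 : ∀ (X Y : Finset (Fin n)) (q : Fin n → ℝ), X ⊆ Y →
      √(∑ v ∈ Y, (if v ∈ X then q v else 0) ^ 2) = nrm X q := by
    intro X Y q hXY
    unfold nrm
    congr 1
    rw [← e1 X Y (fun v => q v ^ 2) hXY]
    apply Finset.sum_congr rfl
    intro v _
    split_ifs <;> simp
  rw [e2 B A f hB, e2 D A g hD] at h1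
  refine le_of_eq_of_le ?_ h1
  congr 1
  rw [← e1 B A _ hB]
  apply Finset.sum_congr rfl
  intro v _
  split_ifs with hv
  · rw [← e1 D A _ hD]
    apply Finset.sum_congr rfl
    intro z _
    split_ifs <;> simp
  · symm
    apply Finset.sum_eq_zero
    intro z _
    simp

lemma op_vec {ω : Om n} {A : Finset (Fin n)} {β : ℝ} (hβ : 0 ≤ β) (h : OpB ω A β)
    {B D : Finset (Fin n)} (hB : B ⊆ A) (hD : D ⊆ A) (g : Fin n → ℝ) :
    nrm B (fun v => ∑ z ∈ D, g z * e0 ω v z) ≤ β * nrm D g := by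
  set f : Fin n → ℝ := fun v => ∑ z ∈ D, g z * e0 ω v z with hf
  have h1 := op_sub h hB hD f g
  have h2 : ∑ v ∈ B, ∑ z ∈ D, f v * g z * e0 ω v z = nrm B f ^ 2 := by
    rw [nrm_sq]
    apply Finset.sum_congr rfl
    intro v _
    rw [pow_two, hf]
    simp only [Finset.mul_sum]
    exact Finset.sum_congr rfl fun z _ => by ring
  rw [h2, abs_of_nonneg (sq_nonneg _)] at h1
  by_cases h0 : nrm B f = 0
  · rw [h0]; exact mul_nonneg hβ (nrm_nonneg _ _)
  · have hpos : 0 < nrm B f := lt_of_le_of_ne (nrm_nonneg _ _) (Ne.symm h0)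
    nlinarith

/-- The algebraic expansion of the switching function, with error bounds. -/
lemma core {ω : Om n} {A N : Finset (Fin n)} {β : ℝ} (hβ : 0 ≤ β) (h : OpB ω A β)
    (hN : N ⊆ A) {u : Fin n} (w : Fin n → ℝ) :
    |∑ v ∈ A, w v * ∑ v' ∈ N.erase u, ∑ z ∈ N, gsw ω v v' u z -
      ((N.erase u).card * N.card * ∑ v ∈ A, w v * e0 ω v u
        - N.card * (∑ v' ∈ N.erase u, e0 ω v' u) * ∑ v ∈ A, w v
        - (N.erase u).card * ∑ v ∈ A, w v * ∑ z ∈ N, e0 ω v z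
        + (∑ v ∈ A, w v) * ∑ v' ∈ N.erase u, ∑ z ∈ N, e0 ω v' z)| ≤
      2 * β ^ 2 * √((N.erase u).card : ℝ) * nrm A w +
      |∑ v' ∈ N.erase u, e0 ω v' u| * (β * √(N.card : ℝ) * nrm A w) +
      |∑ v ∈ A, w v * e0 ω v u| * (β * √(N.card : ℝ) * √((N.erase u).card : ℝ)) := by
  set N' := N.erase u with hN'
  have hN'A : N' ⊆ A := (Finset.erase_subset _ _).trans hN
  set ρ := ∑ v' ∈ N', e0 ω v' u with hρ
  set Y := ∑ v ∈ A, w v * e0 ω v u with hY
  set W := ∑ v ∈ A, w v with hW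
  -- the individual error terms
  set T1 := ∑ v ∈ A, ∑ z ∈ N, (w v * e0 ω v u) * (∑ v' ∈ N', e0 ω z v') * e0 ω v z with hT1
  set T2 := ∑ z ∈ N, (∑ v ∈ A, w v * e0 ω z v) * (∑ v' ∈ N', e0 ω v' u * e0 ω z v') with hT2
  set T3 := ∑ v ∈ A, ∑ z ∈ N, (w v * e0 ω v u) * 1 * e0 ω v z with hT3
  set T4 := ∑ v' ∈ N', ∑ z ∈ N, e0 ω v' u * 1 * e0 ω v' z with hT4
  have hone : nrm N' (fun _ => 1) = √(N'.card : ℝ) := nrm_one _
  have hone2 : nrm N (fun _ => 1) = √(N.card : ℝ) := nrm_one _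
  have hwe : nrm A (fun v => w v * e0 ω v u) ≤ nrm A w := by
    apply nrm_le_nrm
    intro v _
    rw [abs_mul]
    have := abs_e0_le ω v u
    nlinarith [abs_nonneg (w v)]
  have hee : nrm N' (fun v => e0 ω v u) ≤ √(N'.card : ℝ) := by
    rw [← nrm_one]
    apply nrm_le_nrm
    intro v _
    rw [abs_one]
    exact abs_e0_le ω v u
  have b1 : |T1| ≤ β ^ 2 * √(N'.card : ℝ) * nrm A w := by
    have a1 := op_sub h subset_rfl hN (fun v => w v * e0 ω v u) (fun z => ∑ v' ∈ N', e0 ω z v')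
    have a2 := op_vec hβ h hN hN'A (fun _ => 1)
    rw [hone] at a2
    simp only [one_mul] at a2
    refine a1.trans ?_
    have a3 : β * nrm A (fun v => w v * e0 ω v u) ≤ β * nrm A w :=
      mul_le_mul_of_nonneg_left hwe hβ
    calc β * nrm A (fun v => w v * e0 ω v u) * nrm N (fun z => ∑ v' ∈ N', e0 ω z v')
        ≤ (β * nrm A w) * (β * √(N'.card : ℝ)) :=
          mul_le_mul a3 a2 (nrm_nonneg _ _) (mul_nonneg hβ (nrm_nonneg _ _))
      _ = _ := by ring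
  have b2 : |T2| ≤ β ^ 2 * √(N'.card : ℝ) * nrm A w := by
    have a1 := cs N (fun z => ∑ v ∈ A, w v * e0 ω z v) (fun z => ∑ v' ∈ N', e0 ω v' u * e0 ω z v')
    have a2 := op_vec hβ h hN subset_rfl w
    have a3 := op_vec hβ h hN hN'A (fun v' => e0 ω v' u)
    refine a1.trans ?_
    calc _ ≤ (β * nrm A w) * (β * nrm N' fun v' => e0 ω v' u) :=
          mul_le_mul a2 a3 (nrm_nonneg _ _) (mul_nonneg hβ (nrm_nonneg _ _))
      _ ≤ (β * nrm A w) * (β * √(N'.card : ℝ)) :=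
          mul_le_mul_of_nonneg_left (mul_le_mul_of_nonneg_left hee hβ)
            (mul_nonneg hβ (nrm_nonneg _ _))
      _ = _ := by ring
  have b3 : |T3| ≤ β * √(N.card : ℝ) * nrm A w := by
    have a1 := op_sub h subset_rfl hN (fun v => w v * e0 ω v u) (fun _ => 1)
    rw [hone2] at a1
    refine a1.trans ?_
    have a3 : β * nrm A (fun v => w v * e0 ω v u) ≤ β * nrm A w :=
      mul_le_mul_of_nonneg_left hwe hβ
    nlinarith [Real.sqrt_nonneg (N.card : ℝ)]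
  have b4 : |T4| ≤ β * √(N.card : ℝ) * √(N'.card : ℝ) := by
    have a1 := op_sub h hN'A hN (fun v => e0 ω v u) (fun _ => 1)
    rw [hone2] at a1
    refine a1.trans ?_
    have a3 : β * nrm N' (fun v => e0 ω v u) ≤ β * √(N'.card : ℝ) :=
      mul_le_mul_of_nonneg_left hee hβ
    nlinarith [Real.sqrt_nonneg (N.card : ℝ)]
  -- the expansion
  have hexp : ∀ v, ∑ v' ∈ N', ∑ z ∈ N, gsw ω v v' u z =
      N'.card * N.card * e0 ω v u - N.card * ρ
      - e0 ω v u * ∑ z ∈ N, (∑ v' ∈ N', e0 ω z v') * e0 ω v z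
      + ∑ z ∈ N, e0 ω z v * (∑ v' ∈ N', e0 ω v' u * e0 ω z v')
      - N'.card * ∑ z ∈ N, e0 ω v z + ∑ v' ∈ N', ∑ z ∈ N, e0 ω v' z
      + ρ * (e0 ω v u * ∑ z ∈ N, e0 ω v z)
      - e0 ω v u * T4 := by
    intro v
    have c1 : ∀ v' z, gsw ω v v' u z = e0 ω v u - e0 ω v' u - e0 ω v u * (e0 ω z v' * e0 ω v z)
        + e0 ω z v * (e0 ω v' u * e0 ω z v') - e0 ω v z + e0 ω v' z
        + e0 ω v' u * (e0 ω v u * e0 ω v z) - e0 ω v u * (e0 ω v' u * 1 * e0 ω v' z) := by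
      intro v' z
      unfold gsw
      rw [e0_symm ω z v', e0_symm ω z v]
      ring
    simp only [c1, Finset.sum_add_distrib, Finset.sum_sub_distrib, Finset.sum_const,
      nsmul_eq_mul, ← Finset.mul_sum]
    have d1 : ∑ v' ∈ N', ∑ z ∈ N, e0 ω z v' * e0 ω v z =
        ∑ z ∈ N, (∑ v' ∈ N', e0 ω z v') * e0 ω v z := by
      rw [Finset.sum_comm]
      exact Finset.sum_congr rfl fun z _ => by rw [Finset.sum_mul]
    have d2 : ∑ v' ∈ N', ∑ z ∈ N, e0 ω z v * (e0 ω v' u * e0 ω z v') =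
        ∑ z ∈ N, e0 ω z v * (∑ v' ∈ N', e0 ω v' u * e0 ω z v') := by
      rw [Finset.sum_comm]
      exact Finset.sum_congr rfl fun z _ => by rw [Finset.mul_sum]
    have d3 : ∑ v' ∈ N', e0 ω v' u * (e0 ω v u * ∑ z ∈ N, e0 ω v z) =
        ρ * (e0 ω v u * ∑ z ∈ N, e0 ω v z) := by
      rw [hρ, Finset.sum_mul]
    have d4 : T4 = ∑ v' ∈ N', e0 ω v' u * 1 * ∑ z ∈ N, e0 ω v' z := by
      rw [hT4]
      exact Finset.sum_congr rfl fun v' _ => by rw [Finset.mul_sum]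
    rw [d1, d2, d3, d4, ← hρ]
    ring
  have hmain : ∑ v ∈ A, w v * ∑ v' ∈ N', ∑ z ∈ N, gsw ω v v' u z -
      (N'.card * N.card * Y - N.card * ρ * W - N'.card * ∑ v ∈ A, w v * ∑ z ∈ N, e0 ω v z
        + W * ∑ v' ∈ N', ∑ z ∈ N, e0 ω v' z) = - T1 + T2 + ρ * T3 - Y * T4 := by
    have f1 : T1 = ∑ v ∈ A, w v * (e0 ω v u * ∑ z ∈ N, (∑ v' ∈ N', e0 ω z v') * e0 ω v z) := by
      rw [hT1]
      apply Finset.sum_congr rfl
      intro v _
      rw [Finset.mul_sum, Finset.mul_sum]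
      exact Finset.sum_congr rfl fun z _ => by ring
    have f2 : T2 = ∑ v ∈ A, w v * ∑ z ∈ N, e0 ω z v * (∑ v' ∈ N', e0 ω v' u * e0 ω z v') := by
      rw [hT2]
      simp_rw [Finset.sum_mul]
      rw [Finset.sum_comm]
      apply Finset.sum_congr rfl
      intro v _
      rw [Finset.mul_sum]
      exact Finset.sum_congr rfl fun z _ => by ring
    have f3 : T3 = ∑ v ∈ A, w v * (e0 ω v u * ∑ z ∈ N, e0 ω v z) := by
      rw [hT3]
      apply Finset.sum_congr rfl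
      intro v _
      rw [Finset.mul_sum, Finset.mul_sum]
      exact Finset.sum_congr rfl fun z _ => by ring
    have f4 : ∑ v ∈ A, w v * ∑ v' ∈ N', ∑ z ∈ N, gsw ω v v' u z =
        N'.card * N.card * Y - N.card * ρ * W - T1 + T2
        - N'.card * ∑ v ∈ A, w v * ∑ z ∈ N, e0 ω v z
        + W * ∑ v' ∈ N', ∑ z ∈ N, e0 ω v' z + ρ * T3 - Y * T4 := by
      have hv : ∀ v, w v * ∑ v' ∈ N', ∑ z ∈ N, gsw ω v v' u z =
          N'.card * N.card * (w v * e0 ω v u) - N.card * ρ * w v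
          - w v * (e0 ω v u * ∑ z ∈ N, (∑ v' ∈ N', e0 ω z v') * e0 ω v z)
          + w v * ∑ z ∈ N, e0 ω z v * (∑ v' ∈ N', e0 ω v' u * e0 ω z v')
          - N'.card * (w v * ∑ z ∈ N, e0 ω v z)
          + w v * (∑ v' ∈ N', ∑ z ∈ N, e0 ω v' z)
          + ρ * (w v * (e0 ω v u * ∑ z ∈ N, e0 ω v z))
          - (w v * e0 ω v u) * T4 := by
        intro v
        rw [hexp v]
        ring
      rw [Finset.sum_congr rfl fun v _ => hv v, f1, f2, f3, hY, hW]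
      rw [Finset.sum_sub_distrib, Finset.sum_add_distrib, Finset.sum_add_distrib,
        Finset.sum_sub_distrib, Finset.sum_add_distrib, Finset.sum_sub_distrib,
        Finset.sum_sub_distrib, ← Finset.mul_sum, ← Finset.mul_sum, ← Finset.mul_sum,
        ← Finset.sum_mul, ← Finset.mul_sum, ← Finset.sum_mul]
    rw [f4]
    ring
  rw [hmain]
  have t1 : |-T1 + T2 + ρ * T3 - Y * T4| ≤ |T1| + |T2| + |ρ| * |T3| + |Y| * |T4| := by
    rw [← abs_mul, ← abs_mul]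
    have := abs_sub (-T1 + T2 + ρ * T3) (Y * T4)
    have := abs_add_le (-T1 + T2) (ρ * T3)
    have := abs_add_le (-T1) T2
    rw [abs_neg] at this
    linarith
  have t2 : |ρ| * |T3| ≤ |ρ| * (β * √(N.card : ℝ) * nrm A w) :=
    mul_le_mul_of_nonneg_left b3 (abs_nonneg _)
  have t3 : |Y| * |T4| ≤ |Y| * (β * √(N.card : ℝ) * √(N'.card : ℝ)) :=
    mul_le_mul_of_nonneg_left b4 (abs_nonneg _)
  linarith

end Pool.Agent.H40.Peel
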