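import Mathlib

/-!
Definitions for the minimum-degree peeling process on the planted clique model.
-/

namespace Pool.Agent.H40.Peel

open Finset

/-- The graph obtained from `G` by adding every edge with both endpoints in `S`. -/
def plant {n : ℕ} (G : SimpleGraph (Fin n)) (S : Finset (Fin n)) : SimpleGraph (Fin n) where
  Adj v w := v ≠ w ∧ (G.Adj v w ∨ (v ∈ S ∧ w ∈ S))
  symm := ⟨fun v w h => ⟨h.1.symm, by
    rcases h.2 with h | h
    · exact Or.inl h.symm
    · exact Or.inr ⟨h.2, h.1⟩⟩⟩
  loopless := ⟨fun v h => h.1 rfl⟩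

/-- Number of neighbours in `A` of the vertex `v` of `H`. -/
noncomputable def degIn {n : ℕ} (H : SimpleGraph (Fin n)) (A : Finset (Fin n)) (v : Fin n) : ℕ :=
  open Classical in (A.filter fun w => H.Adj v w).card

/-- The degree sequence of the subgraph of `H` induced on `A` (and `0` outside `A`). -/
noncomputable def degs {n : ℕ} (H : SimpleGraph (Fin n)) (A : Finset (Fin n)) : Fin n → ℕ :=
  fun v => if v ∈ A then degIn H A v else 0

/-- The vertices of minimum degree of the subgraph of `H` induced on `A`. -/
noncomputable def minVerts {n : ℕ} (H : SimpleGraph (Fin n)) (A : Finset (Fin n)) :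
    Finset (Fin n) :=
  A.filter fun v => ∀ w ∈ A, degIn H A v ≤ degIn H A w

/-- A tie-breaking rule: it sees the sequence of the current vertex sets and degree sequences
up to now (most recent first) and the set `C` of candidates, and picks an element of `C`. -/
structure TieRule (n : ℕ) where
  pick : List (Finset (Fin n) × (Fin n → ℕ)) → Finset (Fin n) → Fin n
  pick_mem : ∀ L C, C.Nonempty → pick L C ∈ C

/-- The peeling algorithm run for at most `f` steps from the vertex set `A` with past `L`. -/
noncomputable def peel {n : ℕ} (H : SimpleGraph (Fin n)) (R : TieRule n) :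
    ℕ → List (Finset (Fin n) × (Fin n → ℕ)) → Finset (Fin n) → Finset (Fin n)
  | 0, _, A => A
  | f + 1, L, A => open Classical in
      if H.IsClique (A : Set (Fin n)) then A
      else peel H R f ((A, degs H A) :: L)
        (A.erase (R.pick ((A, degs H A) :: L) (minVerts H A)))

/-- The vertex set of the terminal graph. -/
noncomputable def terminal {n : ℕ} (H : SimpleGraph (Fin n)) (R : TieRule n) :
    Finset (Fin n) :=
  peel H R n [] univ

/-! ### Sample space -/

/-- The sample space: a uniform bit for every unordered pair (the diagonal bits are unused). -/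
abbrev Om (n : ℕ) := Sym2 (Fin n) → Bool

/-- The sign of a bit. -/
def sg (b : Bool) : ℝ := if b then 1 else -1

/-- The graph of a sample. -/
def gr {n : ℕ} (ω : Om n) : SimpleGraph (Fin n) where
  Adj v w := v ≠ w ∧ ω s(v, w) = true
  symm := ⟨fun v w h => ⟨h.1.symm, by rw [Sym2.eq_swap]; exact h.2⟩⟩
  loopless := ⟨fun v h => h.1 rfl⟩

/-- The symmetric sign matrix of the unplanted graph, zero on the diagonal. -/
def e0 {n : ℕ} (ω : Om n) (v z : Fin n) : ℝ := if v = z then 0 else sg (ω s(v, z))

/-- The symmetric sign matrix of the planted graph, zero on the diagonal. -/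
def ep {n : ℕ} (S : Finset (Fin n)) (ω : Om n) (v z : Fin n) : ℝ :=
  if v = z then 0 else if v ∈ S ∧ z ∈ S then 1 else sg (ω s(v, z))

/-- Expectation over the uniform sample. -/
noncomputable def E {n : ℕ} (f : Om n → ℝ) : ℝ := (∑ ω, f ω) / Fintype.card (Om n)

/-- Probability of an event. -/
noncomputable def Pr {n : ℕ} (s : Om n → Prop) : ℝ := open Classical in
  E fun ω => if s ω then 1 else 0

/-- The planted graph of a sample. -/
def Hg {n : ℕ} (S : Finset (Fin n)) (ω : Om n) : SimpleGraph (Fin n) := plant (gr ω) S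

/-- State of the (never stopped) peeling process after `t` removals: past and current set. -/
noncomputable def stt {n : ℕ} (H : SimpleGraph (Fin n)) (R : TieRule n) :
    ℕ → List (Finset (Fin n) × (Fin n → ℕ)) × Finset (Fin n)
  | 0 => ([], univ)
  | t + 1 =>
      (((stt H R t).2, degs H (stt H R t).2) :: (stt H R t).1,
        (stt H R t).2.erase
          (R.pick (((stt H R t).2, degs H (stt H R t).2) :: (stt H R t).1)
            (minVerts H (stt H R t).2)))

/-- The vertex set after `t` removals. -/
noncomputable def As {n : ℕ} (S : Finset (Fin n)) (R : TieRule n) (t : ℕ) (ω : Om n) :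
    Finset (Fin n) := (stt (Hg S ω) R t).2

/-- The history up to and including time `t`. -/
noncomputable def hs {n : ℕ} (S : Finset (Fin n)) (R : TieRule n) (t : ℕ) (ω : Om n) :
    List (Finset (Fin n) × (Fin n → ℕ)) := (stt (Hg S ω) R (t + 1)).1

/-- The vertex removed at time `t`. -/
noncomputable def uu {n : ℕ} (S : Finset (Fin n)) (R : TieRule n) (t : ℕ) (ω : Om n) :
    Fin n := R.pick (hs S R t ω) (minVerts (Hg S ω) (As S R t ω))

/-- The nonplanted vertices alive after `t` removals. -/
noncomputable def Ns {n : ℕ} (S : Finset (Fin n)) (R : TieRule n) (t : ℕ) (ω : Om n) :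
    Finset (Fin n) := As S R t ω \ S

/-- The planted vertices alive after `t` removals. -/
noncomputable def Ss {n : ℕ} (S : Finset (Fin n)) (R : TieRule n) (t : ℕ) (ω : Om n) :
    Finset (Fin n) := As S R t ω ∩ S

/-- `F` depends only on the history up to time `t`. -/
def HM {n : ℕ} {β : Type*} (S : Finset (Fin n)) (R : TieRule n) (t : ℕ) (F : Om n → β) : Prop :=
  ∀ ω ω', hs S R t ω = hs S R t ω' → F ω = F ω'

/-- `β` bounds the bilinear form of the sign matrix on `A`. -/
def OpB {n : ℕ} (ω : Om n) (A : Finset (Fin n)) (β : ℝ) : Prop :=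
  ∀ f g : Fin n → ℝ,
    |∑ v ∈ A, ∑ z ∈ A, f v * g z * e0 ω v z| ≤ β * √(∑ v ∈ A, f v ^ 2) * √(∑ z ∈ A, g z ^ 2)

/-- The good event: uniform operator norm bound, for all sets of size at least `n^{2/5}`. -/
def Good {n : ℕ} (C : ℝ) (ω : Om n) : Prop :=
  ∀ A : Finset (Fin n), (n : ℝ) ^ (2 / 5 : ℝ) ≤ A.card →
    OpB ω A (C * (n : ℝ) ^ (1 / 16 : ℝ) * (A.card : ℝ) ^ (7 / 16 : ℝ))

end Pool.Agent.H40.Peel
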