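import Pool.Agent.H40.Peel.SwSum

/-!
Deterministic comparison of the switching sum with the centred signs.
-/

namespace Pool.Agent.H40.Peel

open Finset

variable {n : ℕ} (S : Finset (Fin n)) (R : TieRule n)

/-- Number of nonplanted vertices alive, as a real. -/
noncomputable def rr (t : ℕ) (ω : Om n) : ℝ := ((Ns S R t ω).card : ℝ)

/-- Average of `xv` over the nonplanted vertices. -/
noncomputable def xbar (t : ℕ) (ω : Om n) : ℝ := (∑ v ∈ Ns S R t ω, xv S R t ω v) / rr S R t ω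

/-- The common part of the conditional mean of the signs. -/
noncomputable def cc (t : ℕ) (ω : Om n) : ℝ :=
  (yv S R t ω (uu S R t ω) - xbar S R t ω) / (((As S R t ω).card : ℝ) - 1)

/-- The approximate conditional mean of the sign of `{v, u}`. -/
noncomputable def pv (t : ℕ) (ω : Om n) (v : Fin n) : ℝ :=
  xv S R t ω v / rr S R t ω + cc S R t ω

/-- Sum of the signs between the removed vertex and the nonplanted vertices. -/
noncomputable def rho (t : ℕ) (ω : Om n) : ℝ :=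
  ∑ v ∈ (Ns S R t ω).erase (uu S R t ω), e0 ω v (uu S R t ω)

/-- The sum of `w v * sign(v, u)`. -/
noncomputable def Yw (t : ℕ) (ω : Om n) (w : Fin n → ℝ) : ℝ :=
  ∑ v ∈ As S R t ω, w v * e0 ω v (uu S R t ω)

/-- The full switching sum. -/
noncomputable def Lf (t : ℕ) (ω : Om n) (w : Fin n → ℝ) : ℝ :=
  ∑ v ∈ As S R t ω, w v * ∑ v' ∈ (Ns S R t ω).erase (uu S R t ω), ∑ z ∈ Ns S R t ω,
    gsw ω v v' (uu S R t ω) z

/-- Corrected weights. -/
noncomputable def wc (t : ℕ) (ω : Om n) (w : Fin n → ℝ) (v : Fin n) : ℝ :=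
  w v - if v ∈ Ss S R t ω then (∑ x ∈ As S R t ω, w x) / (((As S R t ω).card : ℝ) - 1) else 0

/-- The error bound. -/
noncomputable def errN (β : ℝ) (t : ℕ) (ω : Om n) (w : Fin n → ℝ) : ℝ :=
  2 * β * √(S.card : ℝ) * nrm (Ns S R t ω) w / (As S R t ω).card +
    (3 * |∑ v ∈ As S R t ω, w v| * β + 18 * β ^ 2 * nrm (As S R t ω) w +
      9 * |rho S R t ω| * β * nrm (As S R t ω) w) /
      ((As S R t ω).card * √((As S R t ω).card : ℝ)) +
    2 * β * (|Yw S R t ω w| + 2 * |∑ v ∈ As S R t ω, w v| * S.card / (As S R t ω).card) /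
      (As S R t ω).card

variable {S R}

lemma Ns_sub_As (t : ℕ) (ω : Om n) : Ns S R t ω ⊆ As S R t ω := Finset.sdiff_subset

lemma Ss_sub_As (t : ℕ) (ω : Om n) : Ss S R t ω ⊆ As S R t ω := Finset.inter_subset_left

lemma disj_NS (t : ℕ) (ω : Om n) : Disjoint (Ns S R t ω) (Ss S R t ω) :=
  Finset.disjoint_sdiff_inter _ _

lemma wc_of_N {t : ℕ} {ω : Om n} {w : Fin n → ℝ} {v : Fin n} (hv : v ∈ Ns S R t ω) :
    wc S R t ω w v = w v := by
  have : v ∉ Ss S R t ω := Finset.disjoint_left.1 (disj_NS t ω) hv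
  simp [wc, this]

lemma wc_of_S {t : ℕ} {ω : Om n} {w : Fin n → ℝ} {v : Fin n} (hv : v ∈ Ss S R t ω) :
    wc S R t ω w v = w v - (∑ x ∈ As S R t ω, w x) / (((As S R t ω).card : ℝ) - 1) := by
  simp [wc, hv]

lemma rho_eq {t : ℕ} {ω : Om n} : rho S R t ω = ∑ v ∈ Ns S R t ω, e0 ω v (uu S R t ω) := by
  unfold rho
  by_cases h : uu S R t ω ∈ Ns S R t ω
  · rw [← Finset.add_sum_erase _ _ h, e0_self, zero_add]
  · rw [Finset.erase_eq_of_notMem h]

lemma yu_eq {t : ℕ} {ω : Om n} (ht : t < n) (hu : uu S R t ω ∉ S) :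
    yv S R t ω (uu S R t ω) = rho S R t ω + ∑ v ∈ Ss S R t ω, e0 ω v (uu S R t ω) := by
  rw [yv_eq (uu_mem' S R ht ω), rho_eq, ← sum_As]
  refine Finset.sum_congr rfl fun z _ => ?_
  rw [ep_eq_e0 S ω (Or.inl hu), e0_symm]

lemma abs_W_le (t : ℕ) (ω : Om n) (w : Fin n → ℝ) :
    |∑ x ∈ As S R t ω, w x| ≤ √((As S R t ω).card : ℝ) * nrm (As S R t ω) w :=
  (Finset.abs_sum_le_sum_abs _ _).trans (sum_abs_le _ _)

section

variable {t : ℕ} {ω : Om n} {β : ℝ} {w : Fin n → ℝ}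

/-- Elementary sizes when the planted set is small. -/
lemma sizes (ht : t < n) (hk : 2 * ((S.card : ℝ) + 1) ≤ (As S R t ω).card)
    (hu : uu S R t ω ∉ S) :
    ((As S R t ω).card : ℝ) = rr S R t ω + (Ss S R t ω).card ∧
    (((Ns S R t ω).erase (uu S R t ω)).card : ℝ) = rr S R t ω - 1 ∧
    ((Ss S R t ω).card : ℝ) ≤ S.card ∧
    ((As S R t ω).card : ℝ) / 2 ≤ rr S R t ω - 1 ∧ (2:ℝ) ≤ (As S R t ω).card := by
  have h1 : ((As S R t ω).card : ℝ) = rr S R t ω + (Ss S R t ω).card := by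
    unfold rr
    have := card_Ns_add S R t ω
    exact_mod_cast this.symm
  have huN : uu S R t ω ∈ Ns S R t ω := (mem_Ns S R).2 ⟨uu_mem' S R ht ω, hu⟩
  have h2 : (((Ns S R t ω).erase (uu S R t ω)).card : ℝ) = rr S R t ω - 1 := by
    rw [Finset.card_erase_of_mem huN]
    unfold rr
    have : 1 ≤ (Ns S R t ω).card := Finset.card_pos.2 ⟨_, huN⟩
    push_cast [Nat.cast_sub this]
    ring
  have h3 : ((Ss S R t ω).card : ℝ) ≤ S.card := by exact_mod_cast card_Ss_le S R t ω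
  have h4 : (0:ℝ) ≤ S.card := Nat.cast_nonneg _
  refine ⟨h1, h2, h3, by linarith, by linarith⟩

lemma nrm_wc_le (hk : 2 * ((S.card : ℝ) + 1) ≤ (As S R t ω).card) :
    nrm (As S R t ω) (wc S R t ω w) ≤ 3 * nrm (As S R t ω) w := by
  set A := As S R t ω with hA
  set m : ℝ := (A.card : ℝ) with hm
  set W := ∑ x ∈ A, w x with hW
  have hk0 : (0:ℝ) ≤ S.card := Nat.cast_nonneg _
  have hm2 : 2 ≤ m := by linarith
  have hSk : ((Ss S R t ω).card : ℝ) ≤ S.card := by exact_mod_cast card_Ss_le S R t ω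
  have h1 : ∀ v ∈ A, wc S R t ω w v ^ 2 ≤ 2 * w v ^ 2 +
      2 * (if v ∈ Ss S R t ω then (W / (m - 1)) ^ 2 else 0) := by
    intro v _
    unfold wc
    split_ifs
    · nlinarith [sq_nonneg (w v + W / (m - 1))]
    · nlinarith [sq_nonneg (w v)]
  have h2 : ∑ v ∈ A, (if v ∈ Ss S R t ω then (W / (m - 1)) ^ 2 else 0) =
      (Ss S R t ω).card * (W / (m - 1)) ^ 2 := by
    rw [← Finset.sum_filter, Finset.filter_mem_eq_inter,
      Finset.inter_eq_right.2 (Ss_sub_As t ω), Finset.sum_const, nsmul_eq_mul]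
  have h3 : W ^ 2 ≤ m * nrm A w ^ 2 := by
    have := abs_W_le (S := S) (R := R) t ω w
    have h4 : |W| ^ 2 ≤ (√m * nrm A w) ^ 2 := pow_le_pow_left₀ (abs_nonneg _) this 2
    rw [sq_abs, mul_pow, Real.sq_sqrt (by linarith)] at h4
    exact h4
  have h5 : nrm A (wc S R t ω w) ^ 2 ≤ (3 * nrm A w) ^ 2 := by
    rw [nrm_sq]
    refine (Finset.sum_le_sum h1).trans ?_
    rw [Finset.sum_add_distrib, ← Finset.mul_sum, ← Finset.mul_sum, h2, ← nrm_sq]
    have h6 : (W / (m - 1)) ^ 2 ≤ 4 * nrm A w ^ 2 / m := by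
      rw [div_pow, div_le_div_iff₀ (by nlinarith) (by linarith)]
      have : m ^ 2 ≤ 4 * (m - 1) ^ 2 := by nlinarith
      have h7 : 0 ≤ nrm A w ^ 2 := sq_nonneg _
      nlinarith
    have h8 : ((Ss S R t ω).card : ℝ) * (W / (m - 1)) ^ 2 ≤ (m / 2) * (4 * nrm A w ^ 2 / m) :=
      mul_le_mul (by linarith) h6 (sq_nonneg _) (by linarith)
    have h9 : (m / 2) * (4 * nrm A w ^ 2 / m) = 2 * nrm A w ^ 2 := by
      field_simp
      norm_num
    rw [h9] at h8
    nlinarith [sq_nonneg (nrm A w)]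
  exact (pow_le_pow_iff_left₀ (nrm_nonneg _ _)
    (mul_nonneg (by norm_num) (nrm_nonneg _ _)) two_ne_zero).1 h5

/-- The numerical part of `detN`. -/
lemma numN {m r k W ρ Y β X L D nN nA nwc Q : ℝ} (hβ : 0 ≤ β) (hk0 : 0 ≤ k) (hnN : 0 ≤ nN)
    (hnA : 0 ≤ nA) (hm2 : 2 ≤ m) (hhalf : m / 2 ≤ r - 1)
    (hwcn : nwc ≤ 3 * nA) (hQ : |Q| ≤ k) (bD : |D| ≤ β * nN * √k) (bρ : |ρ| ≤ β * √r)
    (hcore : |L - ((r - 1) * r * X + (r - 1) * (D - W / (m - 1) * ρ))| ≤
      2 * β ^ 2 * √(r - 1) * nwc + |ρ| * (β * √r * nwc) +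
        |Y - W / (m - 1) * Q| * (β * √r * √(r - 1))) :
    |X - L / ((r - 1) * r)| ≤ 2 * β * √k * nN / m +
      (3 * |W| * β + 18 * β ^ 2 * nA + 9 * |ρ| * β * nA) / (m * √m) +
      2 * β * (|Y| + 2 * |W| * k / m) / m := by
  have hrpos : 0 < r := by linarith
  have hr1pos : 0 < r - 1 := by linarith
  have hm1pos : 0 < m - 1 := by linarith
  have hmpos : 0 < m := by linarith
  have hpos : 0 < (r - 1) * r := mul_pos hr1pos hrpos
  have hgoal : X - L / ((r - 1) * r) =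
      -(L - ((r - 1) * r * X + (r - 1) * (D - W / (m - 1) * ρ))) / ((r - 1) * r) -
        (D - W / (m - 1) * ρ) / r := by
    field_simp
    ring
  rw [hgoal]
  obtain ⟨s, hs⟩ : ∃ s, s = √m := ⟨_, rfl⟩
  obtain ⟨a, ha⟩ : ∃ a, a = √r := ⟨_, rfl⟩
  obtain ⟨b, hb⟩ : ∃ b, b = √(r - 1) := ⟨_, rfl⟩
  rw [← ha, ← hb] at hcore
  rw [← ha] at bρ
  rw [← hs]
  have hs0 : 0 < s := hs ▸ Real.sqrt_pos.2 hmpos
  have ha0 : 0 < a := ha ▸ Real.sqrt_pos.2 hrpos
  have hb0 : 0 < b := hb ▸ Real.sqrt_pos.2 hr1pos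
  have hs2 : s ^ 2 = m := by rw [hs]; exact Real.sq_sqrt hmpos.le
  have ha2 : a ^ 2 = r := by rw [ha]; exact Real.sq_sqrt hrpos.le
  have hb2 : b ^ 2 = r - 1 := by rw [hb]; exact Real.sq_sqrt hr1pos.le
  clear hs ha hb
  have hsa : s ≤ 3 / 2 * a := by
    apply (abs_le_of_sq_le_sq' _ (by positivity)).2
    nlinarith
  have hsb : s ≤ 3 / 2 * b := by
    apply (abs_le_of_sq_le_sq' _ (by positivity)).2
    nlinarith
  have hab : m / 2 ≤ a * b := by
    apply (abs_le_of_sq_le_sq' _ (by positivity)).2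
    nlinarith
  obtain ⟨aW, haW⟩ : ∃ x, x = |W| := ⟨_, rfl⟩
  obtain ⟨aρ, haρ⟩ : ∃ x, x = |ρ| := ⟨_, rfl⟩
  obtain ⟨aY, haY⟩ : ∃ x, x = |Y| := ⟨_, rfl⟩
  have hW0 : 0 ≤ aW := haW ▸ abs_nonneg _
  have hρ0 : 0 ≤ aρ := haρ ▸ abs_nonneg _
  have hY0 : 0 ≤ aY := haY ▸ abs_nonneg _
  have hk2 := Real.sqrt_nonneg k
  have bY : |Y - W / (m - 1) * Q| ≤ aY + 2 * aW * k / m := by
    refine (abs_sub _ _).trans (add_le_add haY.ge ?_)
    rw [abs_mul, abs_div, abs_of_pos hm1pos, ← haW]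
    calc aW / (m - 1) * |Q| ≤ aW / (m - 1) * k :=
          mul_le_mul_of_nonneg_left hQ (by positivity)
      _ ≤ aW / (m / 2) * k := by
          apply mul_le_mul_of_nonneg_right _ hk0
          exact div_le_div_of_nonneg_left hW0 (by linarith) (by linarith)
      _ = 2 * aW * k / m := by field_simp
  rw [← haW, ← haρ, ← haY]
  rw [← haρ] at bρ hcore
  have t1 : |(D - W / (m - 1) * ρ) / r| ≤ 2 * β * √k * nN / m + 3 * aW * β / (m * s) := by
    rw [abs_div, abs_of_pos hrpos]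
    have h1 : |D - W / (m - 1) * ρ| ≤ β * nN * √k + aW / (m - 1) * (β * a) := by
      refine (abs_sub _ _).trans (add_le_add bD ?_)
      rw [abs_mul, abs_div, abs_of_pos hm1pos, ← haW, ← haρ]
      exact mul_le_mul_of_nonneg_left bρ (by positivity)
    refine (div_le_div_of_nonneg_right h1 hrpos.le).trans ?_
    rw [add_div]
    apply add_le_add
    · rw [div_le_div_iff₀ hrpos hmpos]
      have : 0 ≤ β * nN * √k := by positivity
      nlinarith
    · rw [div_le_div_iff₀ hrpos (by positivity)]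
      have h2 : aW / (m - 1) * (β * a) * (m * s) = (aW * β) * (a * s * (m / (m - 1))) := by
        field_simp
      rw [h2]
      have h3 : m / (m - 1) ≤ 2 := by
        rw [div_le_iff₀ hm1pos]; linarith
      have h4 : a * s * (m / (m - 1)) ≤ 3 * r := by
        calc a * s * (m / (m - 1)) ≤ a * (3 / 2 * a) * 2 := by
              apply mul_le_mul _ h3 (by positivity) (by positivity)
              exact mul_le_mul_of_nonneg_left hsa ha0.le
          _ = 3 * a ^ 2 := by ring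
          _ = 3 * r := by rw [ha2]
      calc (aW * β) * (a * s * (m / (m - 1))) ≤ (aW * β) * (3 * r) :=
            mul_le_mul_of_nonneg_left h4 (by positivity)
        _ = _ := by ring
  have t2 : |-(L - ((r - 1) * r * X + (r - 1) * (D - W / (m - 1) * ρ))) / ((r - 1) * r)| ≤
      (18 * β ^ 2 * nA + 9 * aρ * β * nA) / (m * s) +
        2 * β * (aY + 2 * aW * k / m) / m := by
    rw [abs_div, abs_neg, abs_of_pos hpos]
    refine (div_le_div_of_nonneg_right hcore hpos.le).trans ?_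
    have c1 : 2 * β ^ 2 * b * nwc / ((r - 1) * r) ≤ 18 * β ^ 2 * nA / (m * s) := by
      rw [div_le_div_iff₀ hpos (by positivity)]
      have h1 : 2 * β ^ 2 * b * nwc ≤ 2 * β ^ 2 * b * (3 * nA) :=
        mul_le_mul_of_nonneg_left hwcn (by positivity)
      have h2 : b * (m * s) ≤ 3 * ((r - 1) * r) := by
        have : b * s ≤ 3 / 2 * (r - 1) := by
          calc b * s ≤ b * (3 / 2 * b) := mul_le_mul_of_nonneg_left hsb hb0.le
            _ = 3 / 2 * b ^ 2 := by ring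
            _ = _ := by rw [hb2]
        have h3 : m ≤ 2 * r := by linarith
        calc b * (m * s) = (b * s) * m := by ring
          _ ≤ (3 / 2 * (r - 1)) * (2 * r) := mul_le_mul this h3 hmpos.le (by linarith)
          _ = _ := by ring
      calc 2 * β ^ 2 * b * nwc * (m * s) ≤ 2 * β ^ 2 * b * (3 * nA) * (m * s) :=
            mul_le_mul_of_nonneg_right h1 (by positivity)
        _ = 6 * β ^ 2 * nA * (b * (m * s)) := by ring
        _ ≤ 6 * β ^ 2 * nA * (3 * ((r - 1) * r)) :=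
            mul_le_mul_of_nonneg_left h2 (by positivity)
        _ = _ := by ring
    have c2 : aρ * (β * a * nwc) / ((r - 1) * r) ≤ 9 * aρ * β * nA / (m * s) := by
      rw [div_le_div_iff₀ hpos (by positivity)]
      have h1 : aρ * (β * a * nwc) ≤ aρ * (β * a * (3 * nA)) := by
        apply mul_le_mul_of_nonneg_left _ hρ0
        exact mul_le_mul_of_nonneg_left hwcn (by positivity)
      have h2 : a * (m * s) ≤ 3 * ((r - 1) * r) := by
        have : a * s ≤ 3 / 2 * r := by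
          calc a * s ≤ a * (3 / 2 * a) := mul_le_mul_of_nonneg_left hsa ha0.le
            _ = 3 / 2 * a ^ 2 := by ring
            _ = _ := by rw [ha2]
        have h3 : m ≤ 2 * (r - 1) := by linarith
        calc a * (m * s) = (a * s) * m := by ring
          _ ≤ (3 / 2 * r) * (2 * (r - 1)) := mul_le_mul this h3 hmpos.le (by linarith)
          _ = _ := by ring
      calc aρ * (β * a * nwc) * (m * s) ≤ aρ * (β * a * (3 * nA)) * (m * s) :=
            mul_le_mul_of_nonneg_right h1 (by positivity)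
        _ = 3 * aρ * β * nA * (a * (m * s)) := by ring
        _ ≤ 3 * aρ * β * nA * (3 * ((r - 1) * r)) :=
            mul_le_mul_of_nonneg_left h2 (by positivity)
        _ = _ := by ring
    have c3 : |Y - W / (m - 1) * Q| * (β * a * b) / ((r - 1) * r) ≤
        2 * β * (aY + 2 * aW * k / m) / m := by
      have h0 : (r - 1) * r = (a * b) * (a * b) := by
        rw [← hb2, ← ha2]
        ring
      have hYpos : 0 ≤ aY + 2 * aW * k / m := by positivity
      rw [h0]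
      have h1 : |Y - W / (m - 1) * Q| * (β * a * b) / ((a * b) * (a * b)) =
          |Y - W / (m - 1) * Q| * β / (a * b) := by
        field_simp
      rw [h1, div_le_div_iff₀ (by positivity) hmpos]
      calc |Y - W / (m - 1) * Q| * β * m
          ≤ (aY + 2 * aW * k / m) * β * (2 * (a * b)) := by
            apply mul_le_mul (mul_le_mul_of_nonneg_right bY hβ) (by linarith) hmpos.le
              (by positivity)
        _ = _ := by ring
    rw [add_div, add_div, add_div]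
    linarith
  have t3 := abs_sub (-(L - ((r - 1) * r * X + (r - 1) * (D - W / (m - 1) * ρ))) / ((r - 1) * r))
    ((D - W / (m - 1) * ρ) / r)
  refine t3.trans ?_
  have t4 : (3 * aW * β + 18 * β ^ 2 * nA + 9 * aρ * β * nA) / (m * s) =
      3 * aW * β / (m * s) + (18 * β ^ 2 * nA + 9 * aρ * β * nA) / (m * s) := by
    rw [← add_div]; ring
  rw [t4]
  linarith

set_option maxHeartbeats 2000000 in
/-- The comparison of the switching sum with the centred signs, nonplanted removal. -/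
theorem detN (ht : t < n) (hk : 2 * ((S.card : ℝ) + 1) ≤ (As S R t ω).card)
    (hu : uu S R t ω ∉ S) (hβ : 0 ≤ β) (hop : OpB ω (As S R t ω) β) :
    |∑ v ∈ As S R t ω, w v * (e0 ω v (uu S R t ω) - pv S R t ω v) -
      Lf S R t ω (wc S R t ω w) / ((rr S R t ω - 1) * rr S R t ω)| ≤ errN S R β t ω w := by
  obtain ⟨hm1, hn1, hkS, hhalf, hm2⟩ := sizes ht hk hu
  have hcore := core (u := uu S R t ω) hβ hop (Ns_sub_As t ω) (wc S R t ω w)
  have hwcn := nrm_wc_le (w := w) hk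
  have hyu := yu_eq ht hu
  have hrho := rho_eq (S := S) (R := R) (t := t) (ω := ω)
  have hop1 := op_sub hop (Ns_sub_As t ω) (Ss_sub_As t ω) w (fun _ => 1)
  have huA := uu_mem' S R ht ω
  have hop2 := op_sub hop (Finset.singleton_subset_iff.2 huA) (Ns_sub_As t ω) (fun _ => 1)
    (fun _ => 1)
  have hLf : Lf S R t ω (wc S R t ω w) = ∑ v ∈ As S R t ω, wc S R t ω w v *
    ∑ v' ∈ (Ns S R t ω).erase (uu S R t ω), ∑ z ∈ Ns S R t ω, gsw ω v v' (uu S R t ω) z := rfl
  rw [← hLf] at hcore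
  have hrhodef : rho S R t ω = ∑ v' ∈ (Ns S R t ω).erase (uu S R t ω), e0 ω v' (uu S R t ω) := rfl
  rw [← hrhodef, hn1] at hcore
  -- abbreviations
  set A := As S R t ω with hA
  set N := Ns S R t ω with hN
  set P := Ss S R t ω with hP
  set u := uu S R t ω with hudef
  set m : ℝ := (A.card : ℝ) with hm
  set r := rr S R t ω with hr
  set k : ℝ := (S.card : ℝ) with hkdef
  set kS : ℝ := (P.card : ℝ) with hkSdef
  set W := ∑ x ∈ A, w x with hW
  set ρ := rho S R t ω with hρ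
  set Y := Yw S R t ω w with hY
  have hk0 : 0 ≤ k := Nat.cast_nonneg _
  have hkS0 : 0 ≤ kS := Nat.cast_nonneg _
  have hr1 : m / 2 ≤ r := by linarith
  have hrpos : 0 < r := by linarith
  have hr1pos : 0 < r - 1 := by linarith
  have hm1pos : 0 < m - 1 := by linarith
  have hNr : (N.card : ℝ) = r := rfl
  -- sums of corrected weights
  have splitA : ∀ q : Fin n → ℝ, ∑ v ∈ A, q v = ∑ v ∈ N, q v + ∑ v ∈ P, q v :=
    fun q => sum_As q
  have wsum : ∀ q : Fin n → ℝ, ∑ v ∈ A, wc S R t ω w v * q v =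
      ∑ v ∈ A, w v * q v - W / (m - 1) * ∑ v ∈ P, q v := by
    intro q
    rw [splitA, splitA (fun v => w v * q v)]
    rw [Finset.sum_congr rfl fun v hv => by rw [wc_of_N hv],
      Finset.sum_congr (s₁ := P) rfl fun v hv => by rw [wc_of_S hv]]
    simp only [sub_mul, Finset.sum_sub_distrib, ← Finset.mul_sum]
    ring
  have wsum1 : ∑ v ∈ A, wc S R t ω w v = W * (r - 1) / (m - 1) := by
    have := wsum (fun _ => 1)
    simp only [mul_one, Finset.sum_const, nsmul_eq_mul] at this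
    rw [this, ← hW, ← hkSdef, show kS = m - r by linarith]
    have := hm1pos.ne'
    field_simp
    ring
  have ysum : ∑ v ∈ A, wc S R t ω w v * e0 ω v u = Y - W / (m - 1) * ∑ v ∈ P, e0 ω v u :=
    wsum _
  have zsum : ∑ v ∈ A, wc S R t ω w v * ∑ z ∈ N, e0 ω v z =
      ∑ v ∈ A, w v * (∑ z ∈ N, e0 ω v z) - W / (m - 1) * ∑ v ∈ P, ∑ z ∈ N, e0 ω v z := wsum _
  -- the sum with the conditional means
  have xN : ∀ v ∈ N, xv S R t ω v = ∑ z ∈ N, e0 ω v z + ∑ z ∈ P, e0 ω v z := by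
    intro v hv
    rw [xv_eq_of_notMem hv, ← hA, splitA]
  have xP : ∀ v ∈ P, xv S R t ω v = ∑ z ∈ N, e0 ω v z := fun v hv => xv_eq_of_mem hv
  have wx : ∑ v ∈ A, w v * xv S R t ω v =
      ∑ v ∈ A, w v * (∑ z ∈ N, e0 ω v z) + ∑ v ∈ N, w v * ∑ z ∈ P, e0 ω v z := by
    rw [splitA, splitA (fun v => w v * ∑ z ∈ N, e0 ω v z)]
    rw [Finset.sum_congr rfl fun v hv => by rw [xN v hv],
      Finset.sum_congr (s₁ := P) rfl fun v hv => by rw [xP v hv]]
    simp only [mul_add, Finset.sum_add_distrib]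
    ring
  have hxb : r * xbar S R t ω = ∑ v ∈ N, ∑ z ∈ N, e0 ω v z + ∑ v ∈ N, ∑ z ∈ P, e0 ω v z := by
    unfold xbar
    rw [mul_div_cancel₀ _ hrpos.ne', Finset.sum_congr rfl xN, Finset.sum_add_distrib]
  have hsw : ∑ v ∈ P, ∑ z ∈ N, e0 ω v z = ∑ v ∈ N, ∑ z ∈ P, e0 ω v z := by
    rw [Finset.sum_comm]
    exact Finset.sum_congr rfl fun v _ => Finset.sum_congr rfl fun z _ => e0_symm ω z v
  have huN : u ∈ N := (mem_Ns S R).2 ⟨huA, hu⟩
  have hZt : ∑ v ∈ N, ∑ z ∈ N, e0 ω v z = ρ + ∑ v ∈ N.erase u, ∑ z ∈ N, e0 ω v z := by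
    rw [← Finset.add_sum_erase _ _ huN, hrho]
    congr 1
    exact Finset.sum_congr rfl fun z _ => e0_symm ω u z
  -- main identity
  set D := ∑ v ∈ N, w v * ∑ z ∈ P, e0 ω v z with hD
  have hid : ((r - 1) * r * ∑ v ∈ A, wc S R t ω w v * e0 ω v u
        - r * ρ * ∑ v ∈ A, wc S R t ω w v
        - (r - 1) * ∑ v ∈ A, wc S R t ω w v * ∑ z ∈ N, e0 ω v z
        + (∑ v ∈ A, wc S R t ω w v) * ∑ v' ∈ N.erase u, ∑ z ∈ N, e0 ω v' z) =
      (r - 1) * r * (∑ v ∈ A, w v * (e0 ω v u - pv S R t ω v)) +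
        (r - 1) * (D - W / (m - 1) * ρ) := by
    have e1 : ∑ v ∈ A, w v * (e0 ω v u - pv S R t ω v) =
        Y - (∑ v ∈ A, w v * xv S R t ω v) / r - W * cc S R t ω := by
      simp only [pv, mul_sub, mul_add, Finset.sum_sub_distrib, Finset.sum_add_distrib,
        ← Finset.sum_mul]
      rw [Finset.sum_div, sub_sub]
      congr 2
      exact Finset.sum_congr rfl fun v _ => by rw [mul_div_assoc]
    rw [e1, ysum, zsum, wsum1, wx]
    have e2 : cc S R t ω = (ρ + ∑ v ∈ P, e0 ω v u - xbar S R t ω) / (m - 1) := by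
      unfold cc
      rw [← hyu]
    have e3 : ∑ v' ∈ N.erase u, ∑ z ∈ N, e0 ω v' z =
        r * xbar S R t ω - ∑ v ∈ N, ∑ z ∈ P, e0 ω v z - ρ := by
      rw [hxb, hZt]; ring
    rw [e2, e3, hsw]
    field_simp
    ring
  rw [hNr, hid] at hcore
  -- bounds
  have bD : |D| ≤ β * nrm N w * √k := by
    have e : ∑ v ∈ N, ∑ z ∈ P, w v * 1 * e0 ω v z = D := by
      rw [hD]
      refine Finset.sum_congr rfl fun v _ => ?_
      rw [Finset.mul_sum]
      exact Finset.sum_congr rfl fun z _ => by ring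
    rw [e, nrm_one] at hop1
    exact hop1.trans (mul_le_mul_of_nonneg_left (Real.sqrt_le_sqrt hkS)
      (mul_nonneg hβ (nrm_nonneg _ _)))
  have bρ : |ρ| ≤ β * √r := by
    have e : ∑ v ∈ ({u} : Finset (Fin n)), ∑ z ∈ N, (1:ℝ) * 1 * e0 ω v z = ρ := by
      rw [Finset.sum_singleton, hrho]
      exact Finset.sum_congr rfl fun z _ => by rw [e0_symm]; ring
    rw [e, nrm_one, nrm_one, Finset.card_singleton] at hop2
    rw [Nat.cast_one, Real.sqrt_one, mul_one] at hop2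
    exact hop2
  have bP : |∑ v ∈ P, e0 ω v u| ≤ k := by
    refine (Finset.abs_sum_le_sum_abs _ _).trans ?_
    refine (Finset.sum_le_sum fun v _ => abs_e0_le ω v u).trans ?_
    rw [Finset.sum_const, nsmul_eq_mul, mul_one]
    exact hkS
  rw [ysum] at hcore
  have hfin := numN (nN := nrm N w) (nA := nrm A w) hβ hk0 (nrm_nonneg N w) (nrm_nonneg A w)
    hm2 hhalf hwcn bP bD bρ hcore
  refine hfin.trans (le_of_eq ?_)
  unfold errN
  rw [← hA, ← hN, ← hW, ← hm, ← hρ, ← hY, ← hkdef]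

end

end Pool.Agent.H40.Peel
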