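import Pool.Agent.H40.Peel.CE2

/-!
The rescaled degrees and their dynamics.
-/

namespace Pool.Agent.H40.Peel

open Finset

variable {n : ℕ} (S : Finset (Fin n)) (R : TieRule n)

/-- The common shift. -/
noncomputable def bb : ℕ → Om n → ℝ
  | 0, _ => 0
  | t + 1, ω => bb t ω - if uu S R t ω ∈ S then 0 else √(n : ℝ) / (rr S R t ω - 1) * cc S R t ω

/-- Rescaled shifted degree deviation. -/
noncomputable def Mv (t : ℕ) (ω : Om n) (v : Fin n) : ℝ :=
  √(n : ℝ) * xv S R t ω v / rr S R t ω - bb S R t ω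

/-- Rescaled shifted minimum degree. -/
noncomputable def Bt (t : ℕ) (ω : Om n) : ℝ :=
  √(n : ℝ) * yv S R t ω (uu S R t ω) / rr S R t ω - bb S R t ω

variable {S R}

lemma HM_bb_succ (t : ℕ) : HM S R t (bb S R (t + 1)) := by
  induction t with
  | zero =>
    intro ω ω' h
    have a1 := HM_uu 0 ω ω' h
    have a2 := HM_rr 0 ω ω' h
    have a3 := HM_cc 0 ω ω' h
    simp only [bb]
    rw [a1, a2, a3]
  | succ t ih =>
    intro ω ω' h
    have a0 : bb S R (t + 1) ω = bb S R (t + 1) ω' := ih.succ ω ω' h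
    have a1 := HM_uu (t + 1) ω ω' h
    have a2 := HM_rr (t + 1) ω ω' h
    have a3 := HM_cc (t + 1) ω ω' h
    have e1 : ∀ ω'' : Om n, bb S R (t + 1 + 1) ω'' = bb S R (t + 1) ω'' -
      if uu S R (t + 1) ω'' ∈ S then 0 else
        √(n : ℝ) / (rr S R (t + 1) ω'' - 1) * cc S R (t + 1) ω'' := fun _ => rfl
    rw [e1, e1, a0, a1, a2, a3]

lemma HM_bb (t : ℕ) : HM S R t (bb S R t) := by
  cases t with
  | zero => exact fun _ _ _ => rfl
  | succ t => exact (HM_bb_succ t).succ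

lemma HM_Mv (t : ℕ) : HM S R t (Mv S R t) := by
  intro ω ω' h
  funext v
  unfold Mv
  rw [HM_xv t ω ω' h, HM_rr t ω ω' h, HM_bb t ω ω' h]

lemma HM_Bt (t : ℕ) : HM S R t (Bt S R t) := by
  intro ω ω' h
  unfold Bt
  rw [HM_yv t ω ω' h, HM_rr t ω ω' h, HM_bb t ω ω' h, HM_uu t ω ω' h]

lemma rr_succ_of_notMem {t : ℕ} (ht : t < n) {ω : Om n} (hu : uu S R t ω ∉ S) :
    rr S R (t + 1) ω = rr S R t ω - 1 := by
  unfold rr
  rw [Ns_succ_of_notMem S R hu]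
  have huN : uu S R t ω ∈ Ns S R t ω := (mem_Ns S R).2 ⟨uu_mem' S R ht ω, hu⟩
  rw [Finset.card_erase_of_mem huN]
  have : 1 ≤ (Ns S R t ω).card := Finset.card_pos.2 ⟨_, huN⟩
  push_cast [Nat.cast_sub this]
  ring

lemma rr_succ_of_mem {t : ℕ} {ω : Om n} (hu : uu S R t ω ∈ S) :
    rr S R (t + 1) ω = rr S R t ω := by
  unfold rr
  rw [Ns_succ_of_mem S R hu]

lemma mem_As_succ {t : ℕ} {ω : Om n} {v : Fin n} :
    v ∈ As S R (t + 1) ω ↔ v ∈ As S R t ω ∧ v ≠ uu S R t ω := by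
  rw [As_succ, Finset.mem_erase]
  tauto

/-- Removing a nonplanted vertex. -/
lemma xv_succ_N {t : ℕ} (ht : t < n) {ω : Om n} {v : Fin n} (hv : v ∈ As S R (t + 1) ω)
    (hu : uu S R t ω ∉ S) :
    xv S R (t + 1) ω v = xv S R t ω v - e0 ω v (uu S R t ω) := by
  obtain ⟨hv1, hv2⟩ := mem_As_succ.1 hv
  have huA := uu_mem' S R ht ω
  by_cases h : v ∈ S
  · rw [xv_eq_of_mem ((mem_Ss S R).2 ⟨hv, h⟩), xv_eq_of_mem ((mem_Ss S R).2 ⟨hv1, h⟩),
      Ns_succ_of_notMem S R hu, ← Finset.add_sum_erase _ _ ((mem_Ns S R).2 ⟨huA, hu⟩)]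
    ring
  · rw [xv_eq_of_notMem ((mem_Ns S R).2 ⟨hv, h⟩), xv_eq_of_notMem ((mem_Ns S R).2 ⟨hv1, h⟩),
      As_succ, ← Finset.add_sum_erase _ _ huA]
    ring

/-- Removing a planted vertex: effect on the nonplanted. -/
lemma xv_succ_S {t : ℕ} (ht : t < n) {ω : Om n} {v : Fin n} (hv : v ∈ Ns S R (t + 1) ω) :
    xv S R (t + 1) ω v = xv S R t ω v - e0 ω v (uu S R t ω) := by
  obtain ⟨hv1, hv2⟩ := (mem_Ns S R).1 hv
  obtain ⟨hv3, hv4⟩ := mem_As_succ.1 hv1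
  have huA := uu_mem' S R ht ω
  rw [xv_eq_of_notMem hv, xv_eq_of_notMem ((mem_Ns S R).2 ⟨hv3, hv2⟩),
      As_succ, ← Finset.add_sum_erase _ _ huA]
  ring

/-- Removing a planted vertex: no effect on the planted. -/
lemma xv_succ_S' {t : ℕ} {ω : Om n} {v : Fin n} (hv : v ∈ Ss S R (t + 1) ω)
    (hu : uu S R t ω ∈ S) : xv S R (t + 1) ω v = xv S R t ω v := by
  obtain ⟨hv1, hv2⟩ := (mem_Ss S R).1 hv
  obtain ⟨hv3, hv4⟩ := mem_As_succ.1 hv1
  rw [xv_eq_of_mem hv, xv_eq_of_mem ((mem_Ss S R).2 ⟨hv3, hv2⟩), Ns_succ_of_mem S R hu]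

lemma bb_succ_N {t : ℕ} {ω : Om n} (hu : uu S R t ω ∉ S) :
    bb S R (t + 1) ω = bb S R t ω - √(n : ℝ) / (rr S R t ω - 1) * cc S R t ω := by
  simp [bb, hu]

lemma bb_succ_S {t : ℕ} {ω : Om n} (hu : uu S R t ω ∈ S) :
    bb S R (t + 1) ω = bb S R t ω := by
  simp [bb, hu]

lemma Mv_succ_N {t : ℕ} (ht : t < n) {ω : Om n} {v : Fin n} (hv : v ∈ As S R (t + 1) ω)
    (hu : uu S R t ω ∉ S) (hr : 1 < rr S R t ω) :
    Mv S R (t + 1) ω v = Mv S R t ω v -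
      √(n : ℝ) / (rr S R t ω - 1) * (e0 ω v (uu S R t ω) - pv S R t ω v) := by
  unfold Mv pv
  rw [xv_succ_N ht hv hu, rr_succ_of_notMem ht hu, bb_succ_N hu]
  have h1 : rr S R t ω - 1 ≠ 0 := by linarith
  have h2 : rr S R t ω ≠ 0 := by linarith
  field_simp
  ring

lemma Mv_succ_SN {t : ℕ} (ht : t < n) {ω : Om n} {v : Fin n} (hv : v ∈ Ns S R (t + 1) ω)
    (hu : uu S R t ω ∈ S) :
    Mv S R (t + 1) ω v = Mv S R t ω v - √(n : ℝ) / rr S R t ω * e0 ω v (uu S R t ω) := by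
  unfold Mv
  rw [xv_succ_S ht hv, rr_succ_of_mem hu, bb_succ_S hu]
  ring

lemma Mv_succ_SS {t : ℕ} {ω : Om n} {v : Fin n} (hv : v ∈ Ss S R (t + 1) ω)
    (hu : uu S R t ω ∈ S) : Mv S R (t + 1) ω v = Mv S R t ω v := by
  unfold Mv
  rw [xv_succ_S' hv hu, rr_succ_of_mem hu, bb_succ_S hu]

/-! ### Order relations -/

lemma Bt_le_Mv {t : ℕ} {ω : Om n} {v : Fin n} (hv : v ∈ Ns S R t ω) :
    Bt S R t ω ≤ Mv S R t ω v := by
  obtain ⟨hv1, hv2⟩ := (mem_Ns S R).1 hv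
  unfold Bt Mv
  have h1 := yu_le hv1
  have h2 : xv S R t ω v = yv S R t ω v := by unfold xv; rw [if_neg hv2, sub_zero]
  rw [h2]
  have h3 : 0 ≤ rr S R t ω := Nat.cast_nonneg _
  apply sub_le_sub_right
  apply div_le_div_of_nonneg_right _ h3
  exact mul_le_mul_of_nonneg_left h1 (Real.sqrt_nonneg _)

lemma Mv_uu_S {t : ℕ} {ω : Om n} (hu : uu S R t ω ∈ S) :
    Mv S R t ω (uu S R t ω) =
      Bt S R t ω - √(n : ℝ) * ((Ss S R t ω).card - 1) / rr S R t ω := by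
  unfold Bt Mv xv
  rw [if_pos hu]
  ring

lemma yu_le_xbar {t : ℕ} {ω : Om n} (h : 0 < rr S R t ω) :
    yv S R t ω (uu S R t ω) ≤ xbar S R t ω := by
  unfold xbar
  rw [le_div_iff₀ h]
  unfold rr
  rw [mul_comm, ← nsmul_eq_mul, ← Finset.sum_const]
  apply Finset.sum_le_sum
  intro v hv
  obtain ⟨hv1, hv2⟩ := (mem_Ns S R).1 hv
  have h2 : xv S R t ω v = yv S R t ω v := by unfold xv; rw [if_neg hv2, sub_zero]
  rw [h2]
  exact yu_le hv1

lemma cc_nonpos {t : ℕ} {ω : Om n} (h : 0 < rr S R t ω) (hm : (1:ℝ) ≤ (As S R t ω).card) :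
    cc S R t ω ≤ 0 := by
  unfold cc
  apply div_nonpos_of_nonpos_of_nonneg
  · linarith [yu_le_xbar h]
  · linarith

lemma bb_nonneg {t : ℕ} (ht : t ≤ n) (ω : Om n) (hr : 1 < rr S R t ω) : 0 ≤ bb S R t ω := by
  induction t with
  | zero => exact le_rfl
  | succ t ih =>
    have ht' : t < n := by omega
    have hanti : rr S R (t + 1) ω ≤ rr S R t ω := by
      unfold rr; exact_mod_cast Finset.card_le_card (Ns_anti S R (Nat.le_succ t) ω)
    have hr' : 1 < rr S R t ω := by linarith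
    have ih' := ih (by omega) hr'
    by_cases hu : uu S R t ω ∈ S
    · rw [bb_succ_S hu]; exact ih'
    · rw [bb_succ_N hu]
      have h1 : cc S R t ω ≤ 0 := by
        apply cc_nonpos (by linarith)
        have : (Ns S R t ω).card ≤ (As S R t ω).card := Finset.card_le_card (Ns_sub_As t ω)
        have h2 : rr S R t ω ≤ ((As S R t ω).card : ℝ) := by unfold rr; exact_mod_cast this
        linarith
      have h2 : 0 ≤ √(n : ℝ) / (rr S R t ω - 1) := div_nonneg (Real.sqrt_nonneg _) (by linarith)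
      nlinarith

/-! ### Operator norm on subsets, and the sum of the `rho` -/

lemma OpB.mono {ω : Om n} {A B : Finset (Fin n)} {β : ℝ} (h : OpB ω A β) (hB : B ⊆ A) :
    OpB ω B β := fun f g => op_sub h hB hB f g

lemma quad_le {ω : Om n} {A B : Finset (Fin n)} {β : ℝ} (h : OpB ω A β) (hB : B ⊆ A) :
    |∑ v ∈ B, ∑ z ∈ B, e0 ω v z| ≤ β * B.card := by
  have h1 := op_sub h hB hB (fun _ => 1) (fun _ => 1)
  rw [nrm_one, mul_assoc, Real.mul_self_sqrt (Nat.cast_nonneg _)] at h1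
  simpa using h1

/-- The average of the degrees deviations. -/
lemma xbar_le {t : ℕ} {ω : Om n} {β : ℝ} (hβ : 0 ≤ β) (h : OpB ω (As S R t ω) β)
    (hr : 0 < rr S R t ω) (hm : ((As S R t ω).card : ℝ) ≤ 2 * rr S R t ω) :
    |xbar S R t ω| ≤ 2 * β := by
  unfold xbar
  rw [abs_div, abs_of_pos hr, div_le_iff₀ hr]
  rw [Finset.sum_congr rfl fun v hv => xv_eq_of_notMem hv]
  have h1 := op_sub h (Ns_sub_As t ω) subset_rfl (fun _ => 1) (fun _ => 1)
  rw [nrm_one, nrm_one] at h1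
  simp only [mul_one, one_mul] at h1
  refine h1.trans ?_
  have h2 : √((As S R t ω).card : ℝ) ≤ 2 * √(rr S R t ω) := by
    rw [show (2:ℝ) * √(rr S R t ω) = √(4 * rr S R t ω) by
      rw [Real.sqrt_mul (by norm_num), show (4:ℝ) = 2 ^ 2 by norm_num,
        Real.sqrt_sq (by norm_num)]]
    exact Real.sqrt_le_sqrt (by linarith)
  have h3 : √((Ns S R t ω).card : ℝ) = √(rr S R t ω) := rfl
  rw [h3]
  have h4 := Real.sqrt_nonneg (rr S R t ω)
  calc β * √(rr S R t ω) * √((As S R t ω).card : ℝ) ≤ β * √(rr S R t ω) * (2 * √(rr S R t ω)) :=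
        mul_le_mul_of_nonneg_left h2 (by positivity)
    _ = 2 * β * (√(rr S R t ω) * √(rr S R t ω)) := by ring
    _ = 2 * β * rr S R t ω := by rw [Real.mul_self_sqrt hr.le]

lemma quad_succ {t : ℕ} (ht : t < n) {ω : Om n} (hu : uu S R t ω ∉ S) :
    ∑ v ∈ Ns S R t ω, ∑ z ∈ Ns S R t ω, e0 ω v z =
      ∑ v ∈ Ns S R (t + 1) ω, ∑ z ∈ Ns S R (t + 1) ω, e0 ω v z + 2 * rho S R t ω := by
  have huN : uu S R t ω ∈ Ns S R t ω := (mem_Ns S R).2 ⟨uu_mem' S R ht ω, hu⟩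
  rw [Ns_succ_of_notMem S R hu]
  set N := Ns S R t ω
  set u := uu S R t ω
  rw [← Finset.add_sum_erase _ _ huN]
  have h1 : ∑ z ∈ N, e0 ω u z = rho S R t ω := by
    rw [rho_eq]
    exact Finset.sum_congr rfl fun z _ => e0_symm ω u z
  have h2 : ∑ v ∈ N.erase u, ∑ z ∈ N, e0 ω v z =
      ∑ v ∈ N.erase u, e0 ω v u + ∑ v ∈ N.erase u, ∑ z ∈ N.erase u, e0 ω v z := by
    rw [← Finset.sum_add_distrib]
    refine Finset.sum_congr rfl fun v _ => ?_
    rw [← Finset.add_sum_erase _ _ huN]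
  have h3 : ∑ v ∈ N.erase u, e0 ω v u = rho S R t ω := rfl
  rw [h1, h2, h3]
  ring

lemma quad_succ_S {t : ℕ} {ω : Om n} (hu : uu S R t ω ∈ S) :
    ∑ v ∈ Ns S R t ω, ∑ z ∈ Ns S R t ω, e0 ω v z =
      ∑ v ∈ Ns S R (t + 1) ω, ∑ z ∈ Ns S R (t + 1) ω, e0 ω v z := by
  rw [Ns_succ_of_mem S R hu]

lemma rho_le {t : ℕ} (ht : t < n) {ω : Om n} {β : ℝ} (hβ : 0 ≤ β) (h : OpB ω (As S R t ω) β)
    (hu : uu S R t ω ∉ S) (hr : 0 < rr S R t ω)
    (hm : ((As S R t ω).card : ℝ) ≤ 2 * rr S R t ω) :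
    rho S R t ω ≤ 2 * β + S.card := by
  have h1 := yu_eq ht hu
  have h2 := yu_le_xbar hr
  have h3 := (abs_le.1 (xbar_le hβ h hr hm)).2
  have h4 : |∑ v ∈ Ss S R t ω, e0 ω v (uu S R t ω)| ≤ S.card := by
    refine (Finset.abs_sum_le_sum_abs _ _).trans ?_
    refine (Finset.sum_le_sum fun v _ => abs_e0_le ω v _).trans ?_
    rw [Finset.sum_const, nsmul_eq_mul, mul_one]
    exact_mod_cast card_Ss_le S R t ω
  have h5 := (abs_le.1 h4).1
  linarith

/-- `|rho|` when a nonplanted vertex is removed, else `0`. -/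
noncomputable def arho (S : Finset (Fin n)) (R : TieRule n) (t : ℕ) (ω : Om n) : ℝ :=
  if uu S R t ω ∈ S then 0 else |rho S R t ω|

lemma arho_nonneg (t : ℕ) (ω : Om n) : 0 ≤ arho S R t ω := by
  unfold arho; split_ifs
  · exact le_rfl
  · exact abs_nonneg _

lemma rho_sum {t0 T : ℕ} (h0 : t0 ≤ T) (hT : T ≤ n) {ω : Om n} {β : ℝ} (hβ : 0 ≤ β)
    (h : OpB ω (As S R t0 ω) β) (hk : 2 * ((S.card : ℝ) + 1) ≤ ((n - T : ℕ) : ℝ) + 1) :
    ∑ t ∈ Finset.Ico t0 T, arho S R t ω ≤ ((n - t0 : ℕ) : ℝ) * (5 * β + 2 * S.card) := by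
  have hk0 : (0:ℝ) ≤ S.card := Nat.cast_nonneg _
  have key : ∀ s, t0 ≤ s → s ≤ T → ∑ t ∈ Finset.Ico t0 s, arho S R t ω ≤
      ((s - t0 : ℕ) : ℝ) * (2 * (2 * β + S.card)) -
        (∑ v ∈ Ns S R t0 ω, ∑ z ∈ Ns S R t0 ω, e0 ω v z -
          ∑ v ∈ Ns S R s ω, ∑ z ∈ Ns S R s ω, e0 ω v z) / 2 := by
    intro s hs
    induction s, hs using Nat.le_induction with
    | base => intro _; simp
    | succ s hs ih =>
      intro hsT
      have ih := ih (by omega)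
      rw [Finset.sum_Ico_succ_top hs]
      have hsn : s < n := by omega
      have e1 : ((s + 1 - t0 : ℕ) : ℝ) = ((s - t0 : ℕ) : ℝ) + 1 := by
        rw [Nat.succ_sub hs]; push_cast; ring
      rw [e1]
      by_cases hu : uu S R s ω ∈ S
      · have hval : arho S R s ω = 0 := by unfold arho; rw [if_pos hu]
        rw [hval, ← quad_succ_S hu]
        linarith
      · have hval : arho S R s ω = |rho S R s ω| := by unfold arho; rw [if_neg hu]
        rw [hval]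
        have hq := quad_succ hsn hu
        have hcs : ((As S R s ω).card : ℝ) = ((n - s : ℕ) : ℝ) := by rw [card_As S R hsn.le ω]
        have hge : ((n - T : ℕ) : ℝ) + 1 ≤ ((n - s : ℕ) : ℝ) := by
          have : n - T + 1 ≤ n - s := by omega
          exact_mod_cast this
        have hk' : 2 * ((S.card : ℝ) + 1) ≤ (As S R s ω).card := by rw [hcs]; linarith
        obtain ⟨hm1, hn1, hkS, hhalf, hm2⟩ := sizes hsn hk' hu
        have hrho := rho_le hsn hβ (h.mono (As_anti S R hs ω)) hu (by linarith) (by linarith)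
        have habs : |rho S R s ω| ≤ 2 * (2 * β + S.card) - rho S R s ω := by
          rw [abs_le]
          constructor <;> linarith
        linarith
  have h1 := key T h0 le_rfl
  have q1 := (abs_le.1 (quad_le h (Ns_sub_As t0 ω))).1
  have q2 := (abs_le.1 (quad_le h ((Ns_anti S R h0 ω).trans (Ns_sub_As t0 ω)))).2
  have c1 : ((Ns S R t0 ω).card : ℝ) ≤ ((n - t0 : ℕ) : ℝ) := by
    rw [← card_As S R (h0.trans hT) ω]
    exact_mod_cast Finset.card_le_card (Ns_sub_As t0 ω)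
  have c2 : ((Ns S R T ω).card : ℝ) ≤ ((n - t0 : ℕ) : ℝ) := by
    have : ((Ns S R T ω).card : ℝ) ≤ (Ns S R t0 ω).card := by
      exact_mod_cast Finset.card_le_card (Ns_anti S R h0 ω)
    linarith
  have c3 : ((T - t0 : ℕ) : ℝ) ≤ ((n - t0 : ℕ) : ℝ) := by
    exact_mod_cast Nat.sub_le_sub_right hT t0
  have d1 : β * (Ns S R t0 ω).card ≤ β * ((n - t0 : ℕ) : ℝ) := mul_le_mul_of_nonneg_left c1 hβ
  have d2 : β * (Ns S R T ω).card ≤ β * ((n - t0 : ℕ) : ℝ) := mul_le_mul_of_nonneg_left c2 hβ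
  have d3 : ((T - t0 : ℕ) : ℝ) * (2 * (2 * β + S.card)) ≤
      ((n - t0 : ℕ) : ℝ) * (2 * (2 * β + S.card)) :=
    mul_le_mul_of_nonneg_right c3 (by positivity)
  nlinarith

end Pool.Agent.H40.Peel
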