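import Pool.Agent.H40.Peel.Defs

/-!
MODULE END: deterministic combinatorics of the peeling process on the good event.
-/

namespace Pool.Agent.H40.Peel
namespace Endg

open Finset Filter Topology

variable {n : ℕ}

section process
variable (H : SimpleGraph (Fin n)) (R : TieRule n)

/-- The vertex removed at time `t`. -/
noncomputable def rem (t : ℕ) : Fin n :=
  R.pick (((stt H R t).2, degs H (stt H R t).2) :: (stt H R t).1) (minVerts H (stt H R t).2)

lemma stt_succ_snd (t : ℕ) : (stt H R (t + 1)).2 = (stt H R t).2.erase (rem H R t) := rfl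

lemma minVerts_nonempty {A : Finset (Fin n)} (hA : A.Nonempty) : (minVerts H A).Nonempty := by
  obtain ⟨v, hv, hmin⟩ := exists_min_image A (degIn H A) hA
  exact ⟨v, mem_filter.2 ⟨hv, hmin⟩⟩

lemma rem_mem {t : ℕ} (h : (stt H R t).2.Nonempty) :
    rem H R t ∈ minVerts H (stt H R t).2 := R.pick_mem _ _ (minVerts_nonempty H h)

lemma rem_mem_set {t : ℕ} (h : (stt H R t).2.Nonempty) :
    rem H R t ∈ (stt H R t).2 := (mem_filter.1 (rem_mem H R h)).1

lemma card_stt {t : ℕ} (ht : t ≤ n) : (stt H R t).2.card = n - t := by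
  induction t with
  | zero => simp [stt]
  | succ t ih =>
    have h1 := ih (by omega)
    have hne : (stt H R t).2.Nonempty := by
      rw [← card_pos, h1]; omega
    rw [stt_succ_snd, card_erase_of_mem (rem_mem_set H R hne), h1]
    omega

lemma stt_anti : Antitone (fun t => (stt H R t).2) :=
  antitone_nat_of_succ_le (fun _ => erase_subset _ _)

lemma peel_spec (f t : ℕ) : ∃ τ, t ≤ τ ∧ τ ≤ t + f ∧
    peel H R f (stt H R t).1 (stt H R t).2 = (stt H R τ).2 ∧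
    (∀ i, t ≤ i → i < τ → ¬ H.IsClique ((stt H R i).2 : Set (Fin n))) := by
  induction f generalizing t with
  | zero => exact ⟨t, le_rfl, le_rfl, rfl, fun i h1 h2 => absurd h2 (not_lt.2 h1)⟩
  | succ f ih =>
    by_cases hc : H.IsClique ((stt H R t).2 : Set (Fin n))
    · refine ⟨t, le_rfl, by omega, ?_, fun i h1 h2 => absurd h2 (not_lt.2 h1)⟩
      rw [peel, if_pos hc]
    · obtain ⟨τ, h1, h2, h3, h4⟩ := ih (t + 1)
      refine ⟨τ, by omega, by omega, ?_, ?_⟩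
      · rw [peel, if_neg hc]; exact h3
      · intro i hi1 hi2
        rcases eq_or_lt_of_le hi1 with rfl | h
        · exact hc
        · exact h4 i h hi2

lemma terminal_spec : ∃ τ, τ ≤ n ∧ terminal H R = (stt H R τ).2 ∧
    (∀ i, i < τ → ¬ H.IsClique ((stt H R i).2 : Set (Fin n))) := by
  obtain ⟨τ, _, h2, h3, h4⟩ := peel_spec H R n 0
  exact ⟨τ, by omega, h3, fun i hi => h4 i (Nat.zero_le _) hi⟩

end process

/-- Some planted vertex is adjacent to everything. -/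
lemma exists_dominating {H : SimpleGraph (Fin n)} {A S : Finset (Fin n)}
    (hS : ∀ v ∈ S, ∀ w ∈ S, v ≠ w → H.Adj v w) {u : Fin n} (hu : u ∈ minVerts H A) (huS : u ∈ S)
    (hbig : (A \ S).card ^ 2 < (A ∩ S).card) :
    ∃ v ∈ A ∩ S, ∀ w ∈ A, w ≠ v → H.Adj v w := by
  classical
  by_contra hcon
  push Not at hcon
  obtain ⟨huA, humin⟩ := mem_filter.1 hu
  -- degree of u
  have hdegu : (A ∩ S).card - 1 ≤ degIn H A u := by
    rw [degIn, ← card_erase_of_mem (mem_inter.2 ⟨huA, huS⟩)]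
    apply card_le_card
    intro z hz
    rw [mem_erase, mem_inter] at hz
    rw [mem_filter]
    exact ⟨hz.2.1, hS u huS z hz.2.2 (Ne.symm hz.1)⟩
  -- each w misses few planted vertices
  have hmiss : ∀ w ∈ A \ S, ((A ∩ S).filter fun v => ¬ H.Adj w v).card ≤ (A \ S).card := by
    intro w hw
    have hwA := (Finset.mem_sdiff.1 hw).1
    have h1 := humin w hwA
    have h2 : degIn H A w ≤ ((A ∩ S).filter fun v => H.Adj w v).card + ((A \ S).card - 1) := by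
      rw [degIn, ← card_erase_of_mem hw]
      refine le_trans (card_le_card ?_) (card_union_le _ _)
      intro z hz
      rw [mem_filter] at hz
      rw [mem_union, mem_filter, mem_erase, mem_inter, Finset.mem_sdiff]
      by_cases hzS : z ∈ S
      · exact Or.inl ⟨⟨hz.1, hzS⟩, hz.2⟩
      · exact Or.inr ⟨fun h => (H.ne_of_adj hz.2) h.symm, hz.1, hzS⟩
    have h3 := card_filter_add_card_filter_not (s := A ∩ S) (fun v => H.Adj w v)
    have h4 : 0 < (A \ S).card := card_pos.2 ⟨w, hw⟩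
    omega
  have hsub : A ∩ S ⊆ (A \ S).biUnion fun w => (A ∩ S).filter fun v => ¬ H.Adj w v := by
    intro v hv
    obtain ⟨w, hwA, hwv, hadj⟩ := hcon v hv
    have hwS : w ∉ S := fun hwS => hadj (hS v (mem_inter.1 hv).2 w hwS (Ne.symm hwv))
    rw [mem_biUnion]
    exact ⟨w, Finset.mem_sdiff.2 ⟨hwA, hwS⟩, mem_filter.2 ⟨hv, fun h => hadj h.symm⟩⟩
  have h5 := (card_le_card hsub).trans (card_biUnion_le_card_mul _ _ _ hmiss)
  nlinarith

/-- A dominating vertex is never removed before the first clique. -/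
lemma dominating_persist {H : SimpleGraph (Fin n)} {R : TieRule n} {v : Fin n} {i τ : ℕ}
    (hiτ : i ≤ τ) (hv : v ∈ (stt H R i).2) (hdom : ∀ w ∈ (stt H R i).2, w ≠ v → H.Adj v w)
    (hcl : ∀ j, i ≤ j → j < τ → ¬ H.IsClique ((stt H R j).2 : Set (Fin n))) :
    v ∈ (stt H R τ).2 := by
  classical
  induction τ, hiτ using Nat.le_induction with
  | base => exact hv
  | succ m hm ih =>
    have hvm := ih (fun j h1 h2 => hcl j h1 (by omega))
    rw [stt_succ_snd, mem_erase]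
    refine ⟨?_, hvm⟩
    intro heq
    apply hcl m hm (by omega)
    have hmem := rem_mem H R ⟨v, hvm⟩
    rw [← heq] at hmem
    obtain ⟨_, hmin⟩ := mem_filter.1 hmem
    have hdv : degIn H (stt H R m).2 v = (stt H R m).2.card - 1 := by
      rw [degIn, ← card_erase_of_mem hvm]
      congr 1
      ext z
      rw [mem_filter, mem_erase]
      constructor
      · rintro ⟨h1, h2⟩
        exact ⟨(H.ne_of_adj h2).symm, h1⟩
      · rintro ⟨h1, h2⟩
        exact ⟨h2, hdom z (stt_anti H R hm h2) h1⟩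
    intro x hx y hy hxy
    have hx' : x ∈ (stt H R m).2 := hx
    have hy' : y ∈ (stt H R m).2 := hy
    by_contra hadj
    have h1 := hmin x hx'
    rw [hdv] at h1
    have h2 : degIn H (stt H R m).2 x ≤ (((stt H R m).2.erase x).erase y).card := by
      rw [degIn]
      apply card_le_card
      intro z hz
      rw [mem_filter] at hz
      rw [mem_erase, mem_erase]
      exact ⟨fun h => hadj (h ▸ hz.2), (H.ne_of_adj hz.2).symm, hz.1⟩
    rw [card_erase_of_mem (mem_erase.2 ⟨hxy.symm, hy'⟩), card_erase_of_mem hx'] at h2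
    have h3 : 2 ≤ (stt H R m).2.card := by
      have : ({x, y} : Finset (Fin n)) ⊆ (stt H R m).2 := by
        intro z hz
        rw [mem_insert, mem_singleton] at hz
        rcases hz with rfl | rfl
        · exact hx'
        · exact hy'
      have h4 := card_le_card this
      rwa [card_pair hxy] at h4
    omega

/-- If the planted part is larger than the square of the nonplanted part, success. -/
lemma success_of_big {H : SimpleGraph (Fin n)} {R : TieRule n} {S : Finset (Fin n)}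
    (hS : ∀ v ∈ S, ∀ w ∈ S, v ≠ w → H.Adj v w) {t : ℕ}
    (hbig : ((stt H R t).2 \ S).card ^ 2 < ((stt H R t).2 ∩ S).card) :
    ∃ v ∈ S, v ∈ terminal H R := by
  classical
  obtain ⟨τ, hτn, hτ, hcl⟩ := terminal_spec H R
  rw [hτ]
  have hne : ((stt H R t).2 ∩ S).Nonempty := by
    rw [← card_pos]; exact lt_of_le_of_lt (Nat.zero_le _) hbig
  rcases le_total τ t with h | h
  · obtain ⟨v, hv⟩ := hne
    exact ⟨v, (mem_inter.1 hv).2, stt_anti H R h (mem_inter.1 hv).1⟩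
  · -- τ ≥ t
    by_cases hrem : ∃ i, t ≤ i ∧ i < τ ∧ rem H R i ∈ S
    · -- take the first
      let p : ℕ → Prop := fun i => t ≤ i ∧ i < τ ∧ rem H R i ∈ S
      have hp : ∃ i, p i := hrem
      obtain ⟨h1, h2, h3⟩ := Nat.find_spec hp
      set i := Nat.find hp with hi
      have hmin : ∀ j, t ≤ j → j < i → rem H R j ∉ S := fun j hj1 hj2 hj3 =>
        Nat.find_min hp hj2 ⟨hj1, by omega, hj3⟩
      -- S part unchanged
      have hSi : ∀ j, t ≤ j → j ≤ i → (stt H R j).2 ∩ S = (stt H R t).2 ∩ S := by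
        intro j hj
        induction j, hj using Nat.le_induction with
        | base => intro _; rfl
        | succ m hm ih =>
          intro hmi
          rw [← ih (by omega), stt_succ_snd]
          ext z
          rw [mem_inter, mem_inter, mem_erase]
          constructor
          · rintro ⟨⟨_, a⟩, b⟩; exact ⟨a, b⟩
          · rintro ⟨a, b⟩
            exact ⟨⟨fun hz => hmin m hm (by omega) (hz ▸ b), a⟩, b⟩
      have hSi' := hSi i h1 le_rfl
      have hne' : (stt H R i).2.Nonempty := by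
        obtain ⟨v, hv⟩ := hne
        rw [← hSi'] at hv
        exact ⟨v, (mem_inter.1 hv).1⟩
      obtain ⟨v, hv, hdom⟩ := exists_dominating hS (rem_mem H R hne') h3 (by
        rw [hSi']
        refine lt_of_le_of_lt ?_ hbig
        exact Nat.pow_le_pow_left (card_le_card
          (sdiff_subset_sdiff (stt_anti H R h1) (subset_refl _))) 2)
      exact ⟨v, (mem_inter.1 hv).2, dominating_persist h2.le (mem_inter.1 hv).1 hdom
        (fun j _ hj => hcl j hj)⟩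
    · push Not at hrem
      obtain ⟨v, hv⟩ := hne
      refine ⟨v, (mem_inter.1 hv).2, ?_⟩
      have : ∀ j, t ≤ j → j ≤ τ → v ∈ (stt H R j).2 := by
        intro j hj
        induction j, hj using Nat.le_induction with
        | base => intro _; exact (mem_inter.1 hv).1
        | succ m hm ih =>
          intro hmt
          rw [stt_succ_snd, mem_erase]
          exact ⟨fun hz => hrem m hm (by omega) (hz ▸ (mem_inter.1 hv).2), ih (by omega)⟩
      exact this τ h le_rfl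

/-! ### The planted degrees -/

section planted

lemma hg_adj {S : Finset (Fin n)} {ω : Om n} {v w : Fin n} :
    (Hg S ω).Adj v w ↔ v ≠ w ∧ ((v ≠ w ∧ ω s(v, w) = true) ∨ (v ∈ S ∧ w ∈ S)) := Iff.rfl

lemma two_deg_nonplanted {S A : Finset (Fin n)} {ω : Om n} {w : Fin n} (hw : w ∈ A \ S) :
    2 * (degIn (Hg S ω) A w : ℝ) = (A.card : ℝ) - 1 + ∑ z ∈ A, e0 ω w z := by
  classical
  obtain ⟨hwA, hwS⟩ := Finset.mem_sdiff.1 hw
  have h1 : ((A.card : ℝ) - 1) = ∑ z ∈ A, if w = z then (0 : ℝ) else 1 := by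
    rw [← Finset.add_sum_erase A _ hwA, if_pos rfl, zero_add,
      Finset.sum_congr rfl (g := fun _ => (1 : ℝ)), sum_const, card_erase_of_mem hwA, nsmul_eq_mul,
      mul_one, Nat.cast_sub (card_pos.2 ⟨w, hwA⟩)]
    · simp
    · intro z hz
      rw [if_neg (fun h => (mem_erase.1 hz).1 h.symm)]
  have h2 : (degIn (Hg S ω) A w : ℝ) = ∑ z ∈ A, if (Hg S ω).Adj w z then (1 : ℝ) else 0 := by
    rw [degIn, Finset.sum_boole]
  rw [h1, h2, ← Finset.sum_add_distrib, Finset.mul_sum]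
  apply Finset.sum_congr rfl
  intro z hz
  by_cases hwz : w = z
  · subst hwz
    simp [e0]
  · cases hb : ω s(w, z)
    · have : ¬ (Hg S ω).Adj w z := by
        rw [hg_adj]; rintro ⟨_, ⟨_, h⟩ | ⟨h, _⟩⟩
        · rw [hb] at h; exact Bool.noConfusion h
        · exact hwS h
      simp [e0, hwz, sg, hb, this]
    · have : (Hg S ω).Adj w z := by
        rw [hg_adj]; exact ⟨hwz, Or.inl ⟨hwz, hb⟩⟩
      simp [e0, hwz, sg, hb, this]
      norm_num

lemma two_deg_planted {S A : Finset (Fin n)} {ω : Om n} {v : Fin n} (hvA : v ∈ A) (hvS : v ∈ S) :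
    2 * (degIn (Hg S ω) A v : ℝ) = 2 * (((A ∩ S).card : ℝ) - 1) + (A \ S).card
      + ∑ z ∈ A \ S, e0 ω v z := by
  classical
  have h2 : (degIn (Hg S ω) A v : ℝ) = ∑ z ∈ A, if (Hg S ω).Adj v z then (1 : ℝ) else 0 := by
    rw [degIn, Finset.sum_boole]
  have hv : v ∈ A ∩ S := mem_inter.2 ⟨hvA, hvS⟩
  have h3 : ∑ z ∈ A ∩ S, (if (Hg S ω).Adj v z then (1 : ℝ) else 0) = ((A ∩ S).card : ℝ) - 1 := by
    rw [← Finset.add_sum_erase (A ∩ S) _ hv, if_neg (by exact (Hg S ω).irrefl), zero_add,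
      Finset.sum_congr rfl (g := fun _ => (1 : ℝ)), sum_const, card_erase_of_mem hv, nsmul_eq_mul,
      mul_one, Nat.cast_sub (card_pos.2 ⟨v, hv⟩)]
    · simp
    · intro z hz
      rw [mem_erase, mem_inter] at hz
      rw [if_pos]
      rw [hg_adj]
      exact ⟨Ne.symm hz.1, Or.inr ⟨hvS, hz.2.2⟩⟩
  have h4 : 2 * ∑ z ∈ A \ S, (if (Hg S ω).Adj v z then (1 : ℝ) else 0) =
      ((A \ S).card : ℝ) + ∑ z ∈ A \ S, e0 ω v z := by
    have : ((A \ S).card : ℝ) = ∑ z ∈ A \ S, (1 : ℝ) := by simp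
    rw [this, ← Finset.sum_add_distrib, Finset.mul_sum]
    apply Finset.sum_congr rfl
    intro z hz
    obtain ⟨hzA, hzS⟩ := Finset.mem_sdiff.1 hz
    have hvz : v ≠ z := fun h => hzS (h ▸ hvS)
    cases hb : ω s(v, z)
    · have : ¬ (Hg S ω).Adj v z := by
        rw [hg_adj]; rintro ⟨_, ⟨_, h⟩ | ⟨_, h⟩⟩
        · rw [hb] at h; exact Bool.noConfusion h
        · exact hzS h
      simp [e0, hvz, sg, hb, this]
    · have : (Hg S ω).Adj v z := by
        rw [hg_adj]; exact ⟨hvz, Or.inl ⟨hvz, hb⟩⟩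
      simp [e0, hvz, sg, hb, this]
      norm_num
  have h5 : ∑ z ∈ A, (if (Hg S ω).Adj v z then (1 : ℝ) else 0) =
      ∑ z ∈ A ∩ S, (if (Hg S ω).Adj v z then (1 : ℝ) else 0) +
      ∑ z ∈ A \ S, (if (Hg S ω).Adj v z then (1 : ℝ) else 0) :=
    (Finset.sum_inter_add_sum_sdiff A S _).symm
  rw [h2, h5, mul_add, h3, h4]
  ring

/-- Operator bound for rectangles. -/
lemma opB_rect {ω : Om n} {A : Finset (Fin n)} {β : ℝ} (h : OpB ω A β) {X Y : Finset (Fin n)}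
    (hX : X ⊆ A) (hY : Y ⊆ A) :
    |∑ v ∈ X, ∑ z ∈ Y, e0 ω v z| ≤ β * √(X.card) * √(Y.card) := by
  classical
  have h1 := h (fun v => if v ∈ X then 1 else 0) (fun v => if v ∈ Y then 1 else 0)
  have e1 : ∀ Z : Finset (Fin n), Z ⊆ A → ∑ v ∈ A, (if v ∈ Z then (1 : ℝ) else 0) ^ 2 = Z.card := by
    intro Z hZ
    rw [← Finset.sum_subset hZ]
    · rw [Finset.sum_congr rfl (g := fun _ => (1 : ℝ))]
      · simp
      · intro z hz; simp [hz]
    · intro x _ hx; simp [hx]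
  have e2 : ∑ v ∈ A, ∑ z ∈ A, (if v ∈ X then (1 : ℝ) else 0) * (if z ∈ Y then (1 : ℝ) else 0) *
      e0 ω v z = ∑ v ∈ X, ∑ z ∈ Y, e0 ω v z := by
    rw [← Finset.sum_subset hX]
    · apply Finset.sum_congr rfl
      intro v hv
      rw [← Finset.sum_subset hY]
      · apply Finset.sum_congr rfl
        intro z hz
        simp [hv, hz]
      · intro z _ hz; simp [hz]
    · intro v _ hv
      apply Finset.sum_eq_zero
      intro z _
      simp [hv]
  rw [e1 X hX, e1 Y hY, e2] at h1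
  exact h1

/-- If the vertex removed at a stage is planted, it has few neighbours in the nonplanted part. -/
lemma removed_planted {S A : Finset (Fin n)} {ω : Om n} {v : Fin n} {β : ℝ}
    (hv : v ∈ minVerts (Hg S ω) A) (hvS : v ∈ S) (hN : (A \ S).Nonempty) (hop : OpB ω A β) :
    ∑ z ∈ A \ S, e0 ω v z ≤
      -(((A ∩ S).card : ℝ) - 1) + β * √((A.card : ℝ) / (A \ S).card) := by
  classical
  obtain ⟨hvA, hmin⟩ := mem_filter.1 hv
  have hNpos : (0 : ℝ) < (A \ S).card := by exact_mod_cast card_pos.2 hN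
  have h1 : ∀ w ∈ A \ S, ((A ∩ S).card : ℝ) - 1 + ∑ z ∈ A \ S, e0 ω v z ≤ ∑ z ∈ A, e0 ω w z := by
    intro w hw
    have h2 := two_deg_nonplanted (ω := ω) hw
    have h3 := two_deg_planted (ω := ω) hvA hvS
    have h4 : (degIn (Hg S ω) A v : ℝ) ≤ degIn (Hg S ω) A w := by
      exact_mod_cast hmin w (Finset.mem_sdiff.1 hw).1
    have h5 : (A.card : ℝ) = (A ∩ S).card + (A \ S).card := by
      exact_mod_cast (card_inter_add_card_sdiff A S).symm
    linarith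
  have h2 : ((A \ S).card : ℝ) * (((A ∩ S).card : ℝ) - 1 + ∑ z ∈ A \ S, e0 ω v z) ≤
      ∑ w ∈ A \ S, ∑ z ∈ A, e0 ω w z := by
    rw [← nsmul_eq_mul]
    exact Finset.card_nsmul_le_sum _ _ _ h1
  have h3 := (le_abs_self _).trans (opB_rect hop (X := A \ S) (Y := A) sdiff_subset subset_rfl)
  have h4 := h2.trans h3
  have h5 : √((A.card : ℝ) / (A \ S).card) = √(A.card : ℝ) / √((A \ S).card : ℝ) :=
    Real.sqrt_div' _ hNpos.le
  have h6 : √((A \ S).card : ℝ) * √((A \ S).card : ℝ) = (A \ S).card := Real.mul_self_sqrt hNpos.le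
  have h7 : 0 < √((A \ S).card : ℝ) := Real.sqrt_pos.2 hNpos
  rw [h5]
  have h8 : ((A ∩ S).card : ℝ) - 1 + ∑ z ∈ A \ S, e0 ω v z ≤
      β * (√(A.card : ℝ) / √((A \ S).card : ℝ)) := by
    rw [mul_div_assoc', le_div_iff₀ h7]
    have : √((A \ S).card : ℝ) * ((((A ∩ S).card : ℝ) - 1 + ∑ z ∈ A \ S, e0 ω v z) *
        √((A \ S).card : ℝ)) ≤ √((A \ S).card : ℝ) * (β * √(A.card : ℝ)) := by
      calc _ = (√((A \ S).card : ℝ) * √((A \ S).card : ℝ)) *
            (((A ∩ S).card : ℝ) - 1 + ∑ z ∈ A \ S, e0 ω v z) := by ring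
        _ = ((A \ S).card : ℝ) * (((A ∩ S).card : ℝ) - 1 + ∑ z ∈ A \ S, e0 ω v z) := by rw [h6]
        _ ≤ _ := h4
        _ = _ := by ring
    exact le_of_mul_le_mul_left this h7
  linarith

/-- Few vertices can have a very negative row sum over a common set. -/
lemma block_bound {P N0 : Finset (Fin n)} {ω : Om n} {β δ : ℝ} (hδ : 0 < δ)
    (hop : OpB ω (P ∪ N0) β) (h : ∀ v ∈ P, ∑ z ∈ N0, e0 ω v z ≤ -δ) :
    (P.card : ℝ) * δ ^ 2 ≤ β ^ 2 * N0.card := by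
  classical
  have h1 : (P.card : ℝ) * δ ≤ |∑ v ∈ P, ∑ z ∈ N0, e0 ω v z| := by
    have : ∑ v ∈ P, ∑ z ∈ N0, e0 ω v z ≤ P.card • (-δ) := Finset.sum_le_card_nsmul _ _ _ h
    rw [nsmul_eq_mul] at this
    have h2 := neg_abs_le (∑ v ∈ P, ∑ z ∈ N0, e0 ω v z)
    linarith
  have h2 := h1.trans (opB_rect hop subset_union_left subset_union_right)
  have hP : (0 : ℝ) ≤ P.card := Nat.cast_nonneg _
  have hN : (0 : ℝ) ≤ N0.card := Nat.cast_nonneg _
  have h3 : √(P.card : ℝ) ^ 2 = P.card := Real.sq_sqrt hP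
  have h4 : √(N0.card : ℝ) ^ 2 = N0.card := Real.sq_sqrt hN
  rcases eq_or_lt_of_le hP with h0 | h0
  · rw [← h0]; rw [zero_mul]; positivity
  have h5 : 0 < √(P.card : ℝ) := Real.sqrt_pos.2 h0
  have h6 : √(P.card : ℝ) * δ ≤ β * √(N0.card : ℝ) := by
    have : √(P.card : ℝ) * (√(P.card : ℝ) * δ) ≤ √(P.card : ℝ) * (β * √(N0.card : ℝ)) := by
      calc √(P.card : ℝ) * (√(P.card : ℝ) * δ) = √(P.card : ℝ) ^ 2 * δ := by ring
        _ = (P.card : ℝ) * δ := by rw [h3]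
        _ ≤ _ := h2
        _ = _ := by ring
    exact le_of_mul_le_mul_left this h5
  calc (P.card : ℝ) * δ ^ 2 = (√(P.card : ℝ) * δ) ^ 2 := by rw [mul_pow, h3]
    _ ≤ (β * √(N0.card : ℝ)) ^ 2 := by
        apply pow_le_pow_left₀ (by positivity) h6
    _ = β ^ 2 * N0.card := by rw [mul_pow, h4]

lemma abs_e0_le (ω : Om n) (v z : Fin n) : |e0 ω v z| ≤ 1 := by
  unfold e0 sg
  split_ifs <;> simp

lemma abs_sum_e0_le (ω : Om n) (v : Fin n) (N0 : Finset (Fin n)) :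
    |∑ z ∈ N0, e0 ω v z| ≤ N0.card := by
  refine (Finset.abs_sum_le_sum_abs _ _).trans ?_
  refine (Finset.sum_le_card_nsmul _ _ 1 (fun z _ => abs_e0_le ω v z)).trans ?_
  simp

end planted

/-! ### Asymptotic inequalities -/

/-- The list of inequalities used, with `x = n`. -/
structure Big (C κ x : ℝ) : Prop where
  one : 1 ≤ x
  h1 : x ^ (2 / 5 : ℝ) ≤ κ / 4 * x ^ (1 / 2 : ℝ)
  h2 : 16 ≤ κ * x ^ (1 / 2 : ℝ)
  h3 : 4 * C * x ^ (43 / 128 : ℝ) ≤ κ / 8 * x ^ (1 / 2 : ℝ)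
  h4 : 2 * C * √(2 / √(κ / 2)) * x ^ (13 / 32 : ℝ) ≤ κ / 8 * x ^ (1 / 2 : ℝ)
  h5 : (16 / κ + 1) * (256 * C ^ 2 / κ ^ 2) * x ^ (27 / 64 : ℝ) < κ / 2 * x ^ (1 / 2 : ℝ)

lemma eventually_rpow_lt (K L a b : ℝ) (hL : 0 < L) (hab : a < b) :
    ∀ᶠ n : ℕ in atTop, K * (n : ℝ) ^ a < L * (n : ℝ) ^ b := by
  have h1 : Tendsto (fun n : ℕ => (n : ℝ) ^ (b - a)) atTop atTop :=
    (tendsto_rpow_atTop (by linarith)).comp tendsto_natCast_atTop_atTop
  filter_upwards [h1.eventually_gt_atTop (K / L), eventually_gt_atTop 0] with n hn hn0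
  have hn' : (0 : ℝ) < n := by exact_mod_cast hn0
  have h2 : (n : ℝ) ^ b = (n : ℝ) ^ (b - a) * (n : ℝ) ^ a := by
    rw [← Real.rpow_add hn']; congr 1; ring
  rw [h2]
  have h3 : 0 < (n : ℝ) ^ a := Real.rpow_pos_of_pos hn' _
  rw [div_lt_iff₀ hL] at hn
  nlinarith

lemma eventually_big (C κ : ℝ) (hκ : 0 < κ) : ∀ᶠ n : ℕ in atTop, Big C κ (n : ℝ) := by
  have e1 := eventually_rpow_lt 1 (κ / 4) (2 / 5) (1 / 2) (by positivity) (by norm_num)
  have e2 := eventually_rpow_lt 16 κ 0 (1 / 2) hκ (by norm_num)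
  have e3 := eventually_rpow_lt (4 * C) (κ / 8) (43 / 128) (1 / 2) (by positivity) (by norm_num)
  have e4 := eventually_rpow_lt (2 * C * √(2 / √(κ / 2))) (κ / 8) (13 / 32) (1 / 2)
    (by positivity) (by norm_num)
  have e5 := eventually_rpow_lt ((16 / κ + 1) * (256 * C ^ 2 / κ ^ 2)) (κ / 2) (27 / 64) (1 / 2)
    (by positivity) (by norm_num)
  filter_upwards [e1, e2, e3, e4, e5, eventually_ge_atTop 1] with n h1 h2 h3 h4 h5 h6
  refine ⟨by exact_mod_cast h6, ?_, ?_, h3.le, h4.le, h5⟩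
  · linarith
  · rw [Real.rpow_zero] at h2; linarith

/-- bound for `β_A` when `|A| ≤ 2 x^e`. -/
lemma beta_le {C x a e : ℝ} (hC : 0 ≤ C) (hx : 1 ≤ x) (ha0 : 0 ≤ a) (ha : a ≤ 2 * x ^ e) :
    C * x ^ (1 / 16 : ℝ) * a ^ (7 / 16 : ℝ) ≤ 2 * C * x ^ (1 / 16 + e * (7 / 16) : ℝ) := by
  have hx0 : 0 < x := by linarith
  have h1 : a ^ (7 / 16 : ℝ) ≤ 2 * x ^ (e * (7 / 16)) := by
    calc a ^ (7 / 16 : ℝ) ≤ (2 * x ^ e) ^ (7 / 16 : ℝ) :=
          Real.rpow_le_rpow ha0 ha (by norm_num)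
      _ = 2 ^ (7 / 16 : ℝ) * (x ^ e) ^ (7 / 16 : ℝ) :=
          Real.mul_rpow (by norm_num) (Real.rpow_nonneg hx0.le _)
      _ ≤ 2 * x ^ (e * (7 / 16)) := by
          rw [← Real.rpow_mul hx0.le]
          apply mul_le_mul_of_nonneg_right _ (Real.rpow_nonneg hx0.le _)
          calc (2 : ℝ) ^ (7 / 16 : ℝ) ≤ 2 ^ (1 : ℝ) :=
                Real.rpow_le_rpow_of_exponent_le (by norm_num) (by norm_num)
            _ = 2 := Real.rpow_one _
  calc C * x ^ (1 / 16 : ℝ) * a ^ (7 / 16 : ℝ)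
      ≤ C * x ^ (1 / 16 : ℝ) * (2 * x ^ (e * (7 / 16))) :=
        mul_le_mul_of_nonneg_left h1 (mul_nonneg hC (Real.rpow_nonneg hx0.le _))
    _ = 2 * C * (x ^ (1 / 16 : ℝ) * x ^ (e * (7 / 16))) := by ring
    _ = _ := by rw [← Real.rpow_add hx0]

/-- The key inequality of step (b). -/
lemma beta_sqrt_le {C κ x N k : ℝ} (hC : 1 ≤ C) (hκ : 0 < κ) (hb : Big C κ x)
    (hN : √(κ / 2) * x ^ (1 / 4 : ℝ) ≤ N) (hN2 : N ≤ x ^ (5 / 8 : ℝ)) (hk0 : 0 ≤ k)
    (hk : k ≤ x ^ (1 / 2 : ℝ)) :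
    C * x ^ (1 / 16 : ℝ) * (k + N) ^ (7 / 16 : ℝ) * √((k + N) / N) ≤ κ / 8 * x ^ (1 / 2 : ℝ) := by
  have hx0 : 0 < x := by linarith [hb.one]
  have hc : 0 < √(κ / 2) := Real.sqrt_pos.2 (by positivity)
  have hN0 : 0 < N := lt_of_lt_of_le (mul_pos hc (Real.rpow_pos_of_pos hx0 _)) hN
  have hkN : 0 ≤ k + N := by linarith
  rcases le_total (x ^ (1 / 2 : ℝ)) N with h | h
  · have h58 : x ^ (1 / 2 : ℝ) ≤ x ^ (5 / 8 : ℝ) :=
      Real.rpow_le_rpow_of_exponent_le hb.one (by norm_num)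
    have h1 : C * x ^ (1 / 16 : ℝ) * (k + N) ^ (7 / 16 : ℝ) ≤ 2 * C * x ^ (43 / 128 : ℝ) := by
      have := beta_le (C := C) (x := x) (a := k + N) (e := 5 / 8) (by linarith) hb.one hkN
        (by linarith)
      norm_num at this ⊢
      exact this
    have h2 : √((k + N) / N) ≤ 2 := by
      rw [Real.sqrt_le_left (by norm_num), div_le_iff₀ hN0]
      linarith
    calc C * x ^ (1 / 16 : ℝ) * (k + N) ^ (7 / 16 : ℝ) * √((k + N) / N)
        ≤ 2 * C * x ^ (43 / 128 : ℝ) * 2 := by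
          apply mul_le_mul h1 h2 (Real.sqrt_nonneg _)
          have := Real.rpow_nonneg hx0.le (43 / 128 : ℝ)
          nlinarith
      _ = 4 * C * x ^ (43 / 128 : ℝ) := by ring
      _ ≤ _ := hb.h3
  · have h1 : C * x ^ (1 / 16 : ℝ) * (k + N) ^ (7 / 16 : ℝ) ≤ 2 * C * x ^ (9 / 32 : ℝ) := by
      have := beta_le (C := C) (x := x) (a := k + N) (e := 1 / 2) (by linarith) hb.one hkN
        (by linarith)
      norm_num at this ⊢
      exact this
    have h2 : √((k + N) / N) ≤ √(2 / √(κ / 2)) * x ^ (1 / 8 : ℝ) := by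
      have e1 : x ^ (1 / 8 : ℝ) = √(x ^ (1 / 4 : ℝ)) := by
        rw [Real.sqrt_eq_rpow, ← Real.rpow_mul hx0.le]; norm_num
      rw [e1, ← Real.sqrt_mul (by positivity)]
      apply Real.sqrt_le_sqrt
      have e2 : x ^ (1 / 2 : ℝ) = x ^ (1 / 4 : ℝ) * x ^ (1 / 4 : ℝ) := by
        rw [← Real.rpow_add hx0]; norm_num
      rw [div_le_iff₀ hN0]
      calc k + N ≤ 2 * (x ^ (1 / 4 : ℝ) * x ^ (1 / 4 : ℝ)) := by rw [← e2]; linarith
        _ = 2 / √(κ / 2) * x ^ (1 / 4 : ℝ) * (√(κ / 2) * x ^ (1 / 4 : ℝ)) := by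
          field_simp
        _ ≤ _ := mul_le_mul_of_nonneg_left hN (by positivity)
    have e3 : x ^ (13 / 32 : ℝ) = x ^ (9 / 32 : ℝ) * x ^ (1 / 8 : ℝ) := by
      rw [← Real.rpow_add hx0]; norm_num
    calc C * x ^ (1 / 16 : ℝ) * (k + N) ^ (7 / 16 : ℝ) * √((k + N) / N)
        ≤ 2 * C * x ^ (9 / 32 : ℝ) * (√(2 / √(κ / 2)) * x ^ (1 / 8 : ℝ)) := by
          apply mul_le_mul h1 h2 (Real.sqrt_nonneg _)
          have := Real.rpow_nonneg hx0.le (9 / 32 : ℝ)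
          nlinarith
      _ = 2 * C * √(2 / √(κ / 2)) * x ^ (13 / 32 : ℝ) := by rw [e3]; ring
      _ ≤ _ := hb.h4

/-- The inequality of step (c). -/
lemma block_card_le {C κ x P N B : ℝ} (hC : 1 ≤ C) (hκ : 0 < κ) (hx : 1 ≤ x)
    (hN0 : 0 ≤ N) (hN : N ≤ x ^ (5 / 8 : ℝ)) (hB0 : 0 ≤ B) (hB : B ≤ 2 * x ^ (5 / 8 : ℝ))
    (h : P * (κ / 8 * x ^ (1 / 2 : ℝ)) ^ 2 ≤
      (C * x ^ (1 / 16 : ℝ) * B ^ (7 / 16 : ℝ)) ^ 2 * N) :
    P ≤ 256 * C ^ 2 / κ ^ 2 * x ^ (19 / 64 : ℝ) := by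
  have hx0 : 0 < x := by linarith
  have h1 : C * x ^ (1 / 16 : ℝ) * B ^ (7 / 16 : ℝ) ≤ 2 * C * x ^ (43 / 128 : ℝ) := by
    have := beta_le (C := C) (x := x) (a := B) (e := 5 / 8) (by linarith) hx hB0 hB
    norm_num at this ⊢
    exact this
  have h0 : 0 ≤ C * x ^ (1 / 16 : ℝ) * B ^ (7 / 16 : ℝ) := by positivity
  have h2 : (C * x ^ (1 / 16 : ℝ) * B ^ (7 / 16 : ℝ)) ^ 2 * N ≤
      (2 * C * x ^ (43 / 128 : ℝ)) ^ 2 * x ^ (5 / 8 : ℝ) :=
    mul_le_mul (pow_le_pow_left₀ h0 h1 2) hN hN0 (by positivity)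
  have e1 : (x ^ (43 / 128 : ℝ)) ^ 2 * x ^ (5 / 8 : ℝ) = x ^ (19 / 64 : ℝ) * x := by
    rw [← Real.rpow_natCast, ← Real.rpow_mul hx0.le, ← Real.rpow_add hx0]
    nth_rewrite 3 [← Real.rpow_one x]
    rw [← Real.rpow_add hx0]
    norm_num
  have e2 : (x ^ (1 / 2 : ℝ)) ^ 2 = x := by
    rw [← Real.sqrt_eq_rpow, Real.sq_sqrt hx0.le]
  have h3 := h.trans h2
  rw [mul_pow, mul_pow, mul_assoc ((2 * C) ^ 2), e1, e2] at h3
  have h4 : P * κ ^ 2 ≤ 256 * C ^ 2 * x ^ (19 / 64 : ℝ) := by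
    have : x * (P * κ ^ 2) ≤ x * (256 * C ^ 2 * x ^ (19 / 64 : ℝ)) := by nlinarith
    exact le_of_mul_le_mul_left this hx0
  have hκ2 : 0 < κ ^ 2 := by positivity
  calc P ≤ (256 * C ^ 2 * x ^ (19 / 64 : ℝ)) / κ ^ 2 := by rw [le_div_iff₀ hκ2]; exact h4
    _ = _ := by ring

lemma exists_removal {H : SimpleGraph (Fin n)} {R : TieRule n} {v : Fin n} {t0 t1 : ℕ}
    (h01 : t0 ≤ t1) (h0 : v ∈ (stt H R t0).2) (h1 : v ∉ (stt H R t1).2) :
    ∃ t, t0 ≤ t ∧ t < t1 ∧ v ∈ (stt H R t).2 ∧ rem H R t = v := by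
  induction t1, h01 using Nat.le_induction with
  | base => exact absurd h0 h1
  | succ m hm ih =>
    by_cases hv : v ∈ (stt H R m).2
    · refine ⟨m, hm, Nat.lt_succ_self _, hv, ?_⟩
      rw [stt_succ_snd, mem_erase] at h1
      by_contra hne
      exact h1 ⟨fun h => hne h.symm, hv⟩
    · obtain ⟨t, a, b, c, d⟩ := ih hv
      exact ⟨t, a, by omega, c, d⟩

lemma sub_lt_of_div_eq {a b D : ℕ} (hD : 0 < D) (h : a / D = b / D) : a - b < D := by
  have h1 := Nat.div_add_mod a D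
  have h2 := Nat.div_add_mod b D
  have h3 := Nat.mod_lt a hD
  rw [h] at h1
  omega

/-- One step of the window: a planted vertex removed there has very few neighbours. -/
lemma window_removal {C κ : ℝ} (hC : 1 ≤ C) (hκ : 0 < κ) (hb : Big C κ (n : ℝ))
    {S A : Finset (Fin n)} {ω : Om n} (hS : (S.card : ℝ) ≤ (n : ℝ) ^ (1 / 2 : ℝ))
    (hgood : Good C ω) (hN : √(κ / 2) * (n : ℝ) ^ (1 / 4 : ℝ) ≤ (A \ S).card)
    (hN2 : ((A \ S).card : ℝ) ≤ (n : ℝ) ^ (5 / 8 : ℝ))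
    (hk : κ / 2 * (n : ℝ) ^ (1 / 2 : ℝ) ≤ (A ∩ S).card)
    {v : Fin n} (hv : v ∈ minVerts (Hg S ω) A) (hvS : v ∈ S) :
    ∑ z ∈ A \ S, e0 ω v z ≤ -(κ / 4 * (n : ℝ) ^ (1 / 2 : ℝ)) := by
  classical
  have hx0 : (0 : ℝ) < n := by linarith [hb.one]
  have hc : 0 < √(κ / 2) := Real.sqrt_pos.2 (by positivity)
  have hNpos : (0 : ℝ) < (A \ S).card :=
    lt_of_lt_of_le (mul_pos hc (Real.rpow_pos_of_pos hx0 _)) hN
  have hNne : (A \ S).Nonempty := by
    rw [← card_pos]; exact_mod_cast hNpos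
  have hAcard : (A.card : ℝ) = (A ∩ S).card + (A \ S).card := by
    exact_mod_cast (card_inter_add_card_sdiff A S).symm
  have hs0 : 0 < (n : ℝ) ^ (1 / 2 : ℝ) := Real.rpow_pos_of_pos hx0 _
  have hop : OpB ω A (C * (n : ℝ) ^ (1 / 16 : ℝ) * (A.card : ℝ) ^ (7 / 16 : ℝ)) := by
    apply hgood
    have := hb.h1
    nlinarith
  have h1 := removed_planted hv hvS hNne hop
  rw [hAcard] at h1
  have hkS : ((A ∩ S).card : ℝ) ≤ (n : ℝ) ^ (1 / 2 : ℝ) := by
    refine le_trans ?_ hS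
    exact_mod_cast card_le_card inter_subset_right
  have h2 := beta_sqrt_le hC hκ hb hN hN2 (Nat.cast_nonneg (A ∩ S).card) hkS
  have h3 := hb.h2
  nlinarith

end Endg

open Finset Filter Topology in
theorem endgame (C κ : ℝ) (hC : 1 ≤ C) (hκ : 0 < κ) :
    ∀ᶠ n : ℕ in atTop, ∀ (S : Finset (Fin n)) (R : TieRule n) (ω : Om n),
      S.card ≤ Nat.sqrt n → Good C ω →
      (∃ t ≤ n, ((Ns S R t ω).card : ℝ) ≤ (n : ℝ) ^ (5 / 8 : ℝ) ∧
        κ * √n ≤ ((Ss S R t ω).card : ℝ)) →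
      ∃ v ∈ S, v ∈ terminal (Hg S ω) R := by
  filter_upwards [Endg.eventually_big C κ hκ] with n hb S R ω hScard hgood ⟨tC, htC, hNC, hkC⟩
  classical
  have hx1 : (1 : ℝ) ≤ n := hb.one
  have hx0 : (0 : ℝ) < n := by linarith
  have hs0 : 0 < (n : ℝ) ^ (1 / 2 : ℝ) := Real.rpow_pos_of_pos hx0 _
  have hc : 0 < √(κ / 2) := Real.sqrt_pos.2 (by positivity)
  rw [Real.sqrt_eq_rpow] at hkC
  have hS : (S.card : ℝ) ≤ (n : ℝ) ^ (1 / 2 : ℝ) := by
    rw [← Real.sqrt_eq_rpow]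
    refine le_trans (by exact_mod_cast hScard) (Real.nat_sqrt_le_real_sqrt)
  change ((((stt (Hg S ω) R tC).2 \ S).card : ℝ)) ≤ _ at hNC
  change _ ≤ ((((stt (Hg S ω) R tC).2 ∩ S).card : ℝ)) at hkC
  set H := Hg S ω with hH
  have hclS : ∀ v ∈ S, ∀ w ∈ S, v ≠ w → H.Adj v w := fun v hv w hw hvw =>
    ⟨hvw, Or.inr ⟨hv, hw⟩⟩
  let q : ℕ → Prop := fun t => tC ≤ t ∧
    ((((stt H R t).2 \ S).card : ℝ) < √(κ / 2) * (n : ℝ) ^ (1 / 4 : ℝ) ∨
      (((stt H R t).2 ∩ S).card : ℝ) < κ / 2 * (n : ℝ) ^ (1 / 2 : ℝ))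
  have hq : ∃ t, q t := by
    refine ⟨n, htC, Or.inl ?_⟩
    have h1 : (stt H R n).2 = ∅ := by
      rw [← Finset.card_eq_zero, Endg.card_stt H R le_rfl, Nat.sub_self]
    rw [h1]
    simp only [empty_sdiff, card_empty, Nat.cast_zero]
    exact mul_pos hc (Real.rpow_pos_of_pos hx0 _)
  obtain ⟨hT1, hT2⟩ := Nat.find_spec hq
  set T := Nat.find hq with hT
  have hwin : ∀ t, tC ≤ t → t < T →
      √(κ / 2) * (n : ℝ) ^ (1 / 4 : ℝ) ≤ (((stt H R t).2 \ S).card : ℝ) ∧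
      κ / 2 * (n : ℝ) ^ (1 / 2 : ℝ) ≤ (((stt H R t).2 ∩ S).card : ℝ) := by
    intro t ht1 ht2
    have := Nat.find_min hq ht2
    by_contra hcon
    apply this
    refine ⟨ht1, ?_⟩
    by_contra h2
    apply hcon
    push Not at h2
    exact h2
  have hN58 : ∀ t, tC ≤ t → (((stt H R t).2 \ S).card : ℝ) ≤ (n : ℝ) ^ (5 / 8 : ℝ) := by
    intro t ht
    refine le_trans ?_ hNC
    exact_mod_cast card_le_card (sdiff_subset_sdiff (Endg.stt_anti H R ht) (subset_refl _))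
  -- planted vertices removed in the window
  set P := ((stt H R tC).2 ∩ S) \ (stt H R T).2 with hP
  have hPtime : ∀ v ∈ P, ∃ t, tC ≤ t ∧ t < T ∧ v ∈ (stt H R t).2 ∧ Endg.rem H R t = v := by
    intro v hv
    rw [hP, Finset.mem_sdiff, mem_inter] at hv
    exact Endg.exists_removal hT1 hv.1.1 hv.2
  choose! τ hτ1 hτ2 hτ3 hτ4 using hPtime
  have hPS : ∀ v ∈ P, v ∈ S := by
    intro v hv
    rw [hP, Finset.mem_sdiff, mem_inter] at hv
    exact hv.1.2
  have hrow : ∀ v ∈ P, ∑ z ∈ (stt H R (τ v)).2 \ S, e0 ω v z ≤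
      -(κ / 4 * (n : ℝ) ^ (1 / 2 : ℝ)) := by
    intro v hv
    have hw := hwin _ (hτ1 v hv) (hτ2 v hv)
    refine Endg.window_removal hC hκ hb hS hgood hw.1 (hN58 _ (hτ1 v hv)) hw.2 ?_ (hPS v hv)
    have := Endg.rem_mem H R (t := τ v) ⟨v, hτ3 v hv⟩
    rwa [hτ4 v hv] at this
  -- blocks
  set D := ⌊κ / 8 * (n : ℝ) ^ (1 / 2 : ℝ)⌋₊ with hD
  have hD1 : (D : ℝ) ≤ κ / 8 * (n : ℝ) ^ (1 / 2 : ℝ) := Nat.floor_le (by positivity)
  have hD2 : κ / 16 * (n : ℝ) ^ (1 / 2 : ℝ) ≤ D := by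
    have h1 := Nat.lt_floor_add_one (κ / 8 * (n : ℝ) ^ (1 / 2 : ℝ))
    have h2 := hb.h2
    rw [← hD] at h1
    linarith
  have hD0 : 0 < D := by
    have : (0 : ℝ) < D := lt_of_lt_of_le (by positivity) hD2
    exact_mod_cast this
  let jb : Fin n → ℕ := fun v => ((stt H R (τ v)).2 \ S).card / D
  have hblock : ∀ b ∈ P.image jb, ((P.filter fun v => jb v = b).card : ℝ) ≤
      256 * C ^ 2 / κ ^ 2 * (n : ℝ) ^ (19 / 64 : ℝ) := by
    intro b hbim
    obtain ⟨v1, hv1, hv1b⟩ := mem_image.1 hbim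
    obtain ⟨v0, hv0, hv0min⟩ := exists_min_image (P.filter fun v => jb v = b) τ
      ⟨v1, mem_filter.2 ⟨hv1, hv1b⟩⟩
    obtain ⟨hv0P, hv0b⟩ := mem_filter.1 hv0
    set N0 := (stt H R (τ v0)).2 \ S with hN0
    have hrow0 : ∀ v ∈ P.filter (fun v => jb v = b), ∑ z ∈ N0, e0 ω v z ≤
        -(κ / 8 * (n : ℝ) ^ (1 / 2 : ℝ)) := by
      intro v hv
      obtain ⟨hvP, hvb⟩ := mem_filter.1 hv
      have hsub : (stt H R (τ v)).2 \ S ⊆ N0 :=
        sdiff_subset_sdiff (Endg.stt_anti H R (hv0min v hv)) (subset_refl _)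
      rw [← Finset.sum_sdiff hsub]
      have h1 := hrow v hvP
      have h2 : ∑ z ∈ N0 \ ((stt H R (τ v)).2 \ S), e0 ω v z ≤ (D : ℝ) := by
        refine (le_abs_self _).trans ((Endg.abs_sum_e0_le ω v _).trans ?_)
        have h3 : (N0 \ ((stt H R (τ v)).2 \ S)).card < D := by
          rw [card_sdiff_of_subset hsub]
          apply Endg.sub_lt_of_div_eq hD0
          exact hv0b.trans hvb.symm
        exact_mod_cast h3.le
      linarith
    have hPb : ((P.filter fun v => jb v = b).card : ℝ) ≤ (n : ℝ) ^ (5 / 8 : ℝ) := by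
      have h1 : ((P.filter fun v => jb v = b).card : ℝ) ≤ (S.card : ℝ) := by
        exact_mod_cast card_le_card (fun v hv => hPS v (mem_filter.1 hv).1)
      have h2 : (n : ℝ) ^ (1 / 2 : ℝ) ≤ (n : ℝ) ^ (5 / 8 : ℝ) :=
        Real.rpow_le_rpow_of_exponent_le hx1 (by norm_num)
      linarith
    have hN0le : (N0.card : ℝ) ≤ (n : ℝ) ^ (5 / 8 : ℝ) := hN58 _ (hτ1 v0 hv0P)
    have hN0ge : κ / 8 * (n : ℝ) ^ (1 / 2 : ℝ) ≤ N0.card := by
      have h1 := hrow0 v0 hv0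
      have h2 := Endg.abs_sum_e0_le ω v0 N0
      have h3 := neg_abs_le (∑ z ∈ N0, e0 ω v0 z)
      linarith
    have hN0ge' : κ / 4 * (n : ℝ) ^ (1 / 2 : ℝ) ≤ N0.card := by
      have h1 := hrow v0 hv0P
      have h2 := Endg.abs_sum_e0_le ω v0 N0
      have h3 := neg_abs_le (∑ z ∈ N0, e0 ω v0 z)
      linarith
    have hB1 : (((P.filter fun v => jb v = b) ∪ N0).card : ℝ) ≤ 2 * (n : ℝ) ^ (5 / 8 : ℝ) := by
      have : (((P.filter fun v => jb v = b) ∪ N0).card : ℝ) ≤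
          (P.filter fun v => jb v = b).card + N0.card := by
        exact_mod_cast card_union_le _ _
      linarith
    have hB2 : (n : ℝ) ^ (2 / 5 : ℝ) ≤ ((P.filter fun v => jb v = b) ∪ N0).card := by
      have h1 : (N0.card : ℝ) ≤ ((P.filter fun v => jb v = b) ∪ N0).card := by
        exact_mod_cast card_le_card subset_union_right
      have h2 := hb.h1
      linarith
    have hkey := Endg.block_bound (δ := κ / 8 * (n : ℝ) ^ (1 / 2 : ℝ)) (by positivity)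
      (hgood _ hB2) hrow0
    exact Endg.block_card_le hC hκ hx1 (Nat.cast_nonneg _) hN0le (Nat.cast_nonneg _) hB1 hkey
  have hPcard : (P.card : ℝ) < κ / 2 * (n : ℝ) ^ (1 / 2 : ℝ) := by
    have h1 : (P.card : ℝ) = ∑ b ∈ P.image jb, ((P.filter fun v => jb v = b).card : ℝ) := by
      exact_mod_cast Finset.card_eq_sum_card_image jb P
    have h2 : (P.card : ℝ) ≤ (P.image jb).card *
        (256 * C ^ 2 / κ ^ 2 * (n : ℝ) ^ (19 / 64 : ℝ)) := by
      rw [h1, ← nsmul_eq_mul]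
      exact Finset.sum_le_card_nsmul _ _ _ hblock
    have h3 : ((P.image jb).card : ℝ) ≤ (16 / κ + 1) * (n : ℝ) ^ (1 / 8 : ℝ) := by
      have h4 : P.image jb ⊆ range (((stt H R tC).2 \ S).card / D + 1) := by
        intro b hbm
        obtain ⟨v, hv, rfl⟩ := mem_image.1 hbm
        rw [mem_range, Nat.lt_succ_iff]
        apply Nat.div_le_div_right
        exact card_le_card (sdiff_subset_sdiff (Endg.stt_anti H R (hτ1 v hv)) (subset_refl _))
      have h5 : ((P.image jb).card : ℝ) ≤ ((((stt H R tC).2 \ S).card / D : ℕ) : ℝ) + 1 := by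
        have := card_le_card h4
        rw [card_range] at this
        exact_mod_cast this
      have h6 : ((((stt H R tC).2 \ S).card / D : ℕ) : ℝ) ≤ 16 / κ * (n : ℝ) ^ (1 / 8 : ℝ) := by
        refine le_trans Nat.cast_div_le ?_
        rw [div_le_iff₀ (by exact_mod_cast hD0)]
        have e1 : (n : ℝ) ^ (5 / 8 : ℝ) = (n : ℝ) ^ (1 / 8 : ℝ) * (n : ℝ) ^ (1 / 2 : ℝ) := by
          rw [← Real.rpow_add hx0]; norm_num
        calc (((stt H R tC).2 \ S).card : ℝ) ≤ (n : ℝ) ^ (5 / 8 : ℝ) := hNC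
          _ = 16 / κ * (n : ℝ) ^ (1 / 8 : ℝ) * (κ / 16 * (n : ℝ) ^ (1 / 2 : ℝ)) := by
            rw [e1]; field_simp
          _ ≤ _ := mul_le_mul_of_nonneg_left hD2 (by positivity)
      have h7 : 1 ≤ (n : ℝ) ^ (1 / 8 : ℝ) := Real.one_le_rpow hx1 (by norm_num)
      linarith
    have e2 : (n : ℝ) ^ (27 / 64 : ℝ) = (n : ℝ) ^ (1 / 8 : ℝ) * (n : ℝ) ^ (19 / 64 : ℝ) := by
      rw [← Real.rpow_add hx0]; norm_num
    calc (P.card : ℝ) ≤ (P.image jb).card *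
        (256 * C ^ 2 / κ ^ 2 * (n : ℝ) ^ (19 / 64 : ℝ)) := h2
      _ ≤ ((16 / κ + 1) * (n : ℝ) ^ (1 / 8 : ℝ)) *
        (256 * C ^ 2 / κ ^ 2 * (n : ℝ) ^ (19 / 64 : ℝ)) :=
          mul_le_mul_of_nonneg_right h3 (by positivity)
      _ = (16 / κ + 1) * (256 * C ^ 2 / κ ^ 2) * (n : ℝ) ^ (27 / 64 : ℝ) := by rw [e2]; ring
      _ < _ := hb.h5
  have hkT : κ / 2 * (n : ℝ) ^ (1 / 2 : ℝ) < (((stt H R T).2 ∩ S).card : ℝ) := by
    have h1 : (stt H R tC).2 ∩ S ⊆ P ∪ ((stt H R T).2 ∩ S) := by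
      intro v hv
      rw [mem_union]
      by_cases h : v ∈ (stt H R T).2
      · exact Or.inr (mem_inter.2 ⟨h, (mem_inter.1 hv).2⟩)
      · exact Or.inl (Finset.mem_sdiff.2 ⟨hv, h⟩)
    have h2 : (((stt H R tC).2 ∩ S).card : ℝ) ≤ P.card + ((stt H R T).2 ∩ S).card := by
      exact_mod_cast (card_le_card h1).trans (card_union_le _ _)
    linarith
  have hNT : (((stt H R T).2 \ S).card : ℝ) < √(κ / 2) * (n : ℝ) ^ (1 / 4 : ℝ) := by
    rcases hT2 with h | h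
    · exact h
    · exact absurd h (not_lt.2 hkT.le)
  apply Endg.success_of_big hclS (t := T)
  have hfin : (((stt H R T).2 \ S).card : ℝ) ^ 2 < (((stt H R T).2 ∩ S).card : ℝ) := by
    calc (((stt H R T).2 \ S).card : ℝ) ^ 2 < (√(κ / 2) * (n : ℝ) ^ (1 / 4 : ℝ)) ^ 2 :=
          pow_lt_pow_left₀ hNT (Nat.cast_nonneg _) (by norm_num)
      _ = κ / 2 * (n : ℝ) ^ (1 / 2 : ℝ) := by
          rw [mul_pow, Real.sq_sqrt (by positivity), ← Real.rpow_natCast, ← Real.rpow_mul hx0.le]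
          norm_num
      _ < _ := hkT
  exact_mod_cast hfin

end Pool.Agent.H40.Peel
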