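import Pool.Agent.H40.Peel.LDefs

/-!
From the limit theorems to the success probability on the planted clique model.
-/

namespace Pool.Agent.H40.Peel

open Finset Filter

/-- The success probability of the run of the minimum-degree peeling algorithm, with the
tie-breaking rule `R`, on the planted clique model `G(n, 1/2, k)`: `G` is uniform among all the
graphs on `Fin n`, the set `S` is uniform among all the subsets of `Fin n` with `k` elements,
and independent of `G`, and the run on the graph obtained from `G` by adding every edge with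
both endpoints in `S` succeeds if the terminal graph contains at least one vertex of `S`.
The probability is the number of successful pairs `(G, S)` divided by the number of pairs. -/
noncomputable def succProb (n k : ℕ) (R : TieRule n) : ℝ :=
  open Classical in
  (((univ : Finset (SimpleGraph (Fin n) × Finset (Fin n))).filter fun p =>
      p.2.card = k ∧ ∃ v ∈ p.2, v ∈ terminal (plant p.1 p.2) R).card : ℝ) /
    (((univ : Finset (SimpleGraph (Fin n) × Finset (Fin n))).filter fun p =>
      p.2.card = k).card : ℝ)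

namespace Final

variable {n : ℕ}

/-- A sample is a graph and the diagonal bits. -/
noncomputable def eqv : Om n ≃ SimpleGraph (Fin n) × (Fin n → Bool) where
  toFun ω := (gr ω, fun i => ω s(i, i))
  invFun p := Sym2.lift ⟨fun a b => open Classical in
      if a = b then p.2 a else decide (p.1.Adj a b), by
    intro a b
    by_cases h : a = b
    · subst h; rfl
    · have h' : b ≠ a := fun h' => h h'.symm
      dsimp only
      rw [if_neg h, if_neg h', decide_eq_decide]
      exact p.1.adj_comm a b⟩
  left_inv ω := by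
    funext e
    induction e using Sym2.ind with
    | _ a b =>
      simp only [Sym2.lift_mk]
      by_cases h : a = b
      · subst h; simp
      · simp [h, gr]
  right_inv p := by
    obtain ⟨G, d⟩ := p
    refine Prod.ext ?_ ?_
    · ext a b
      simp only [gr, Sym2.lift_mk]
      by_cases h : a = b
      · subst h; simp
      · simp [h]
    · funext i
      simp

open Classical in
lemma Pr_gr (P : SimpleGraph (Fin n) → Prop) :
    Pr (fun ω : Om n => P (gr ω)) =
      (∑ G : SimpleGraph (Fin n), if P G then (1 : ℝ) else 0) /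
        Fintype.card (SimpleGraph (Fin n)) := by
  have h1 : ∑ ω : Om n, (if P (gr ω) then (1 : ℝ) else 0) =
      ∑ p : SimpleGraph (Fin n) × (Fin n → Bool), if P p.1 then (1 : ℝ) else 0 :=
    Equiv.sum_comp eqv (fun p : SimpleGraph (Fin n) × (Fin n → Bool) =>
      if P p.1 then (1 : ℝ) else 0)
  have h2 : (Fintype.card (Om n) : ℝ) =
      Fintype.card (SimpleGraph (Fin n)) * Fintype.card (Fin n → Bool) := by
    rw [Fintype.card_congr (eqv (n := n)), Fintype.card_prod]
    push_cast
    ring
  have h3 : (0 : ℝ) < Fintype.card (Fin n → Bool) := by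
    exact_mod_cast Fintype.card_pos
  have h4 : (0 : ℝ) < Fintype.card (SimpleGraph (Fin n)) := by
    exact_mod_cast Fintype.card_pos
  have h5 : (∑ p : SimpleGraph (Fin n) × (Fin n → Bool), if P p.1 then (1 : ℝ) else 0) =
      (∑ G : SimpleGraph (Fin n), if P G then (1 : ℝ) else 0) * Fintype.card (Fin n → Bool) := by
    rw [Fintype.sum_prod_type, Finset.sum_mul]
    apply Finset.sum_congr rfl
    intro G _
    by_cases hP : P G
    · simp [hP]
    · simp [hP]
  have h6 : Pr (fun ω : Om n => P (gr ω)) =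
      (∑ ω : Om n, (if P (gr ω) then (1 : ℝ) else 0)) / Fintype.card (Om n) := by
    unfold Pr E
    congr 1
  rw [h6, h1, h5, h2]
  field_simp

open Classical in
lemma count_ge {S : Finset (Fin n)} {R : TieRule n} {ε : ℝ}
    (h : Pr (fun ω : Om n => ¬ ∃ v ∈ S, v ∈ terminal (Hg S ω) R) ≤ ε) :
    (1 - ε) * Fintype.card (SimpleGraph (Fin n)) ≤
      ∑ G : SimpleGraph (Fin n), if ∃ v ∈ S, v ∈ terminal (plant G S) R then (1 : ℝ) else 0 := by
  have h1 := Pr_gr (n := n) (fun G => ¬ ∃ v ∈ S, v ∈ terminal (plant G S) R)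
  have h2 : Pr (fun ω : Om n => ¬ ∃ v ∈ S, v ∈ terminal (Hg S ω) R) =
      Pr (fun ω : Om n => ¬ ∃ v ∈ S, v ∈ terminal (plant (gr ω) S) R) := rfl
  have h4 : (0 : ℝ) < Fintype.card (SimpleGraph (Fin n)) := by
    exact_mod_cast Fintype.card_pos
  rw [h2, h1, div_le_iff₀ h4] at h
  have h : (∑ G : SimpleGraph (Fin n),
      if ¬ ∃ v ∈ S, v ∈ terminal (plant G S) R then (1 : ℝ) else 0) ≤
      ε * Fintype.card (SimpleGraph (Fin n)) := by
    refine le_trans (le_of_eq ?_) h
    exact Finset.sum_congr rfl fun G _ => by congr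
  have h5 : (∑ G : SimpleGraph (Fin n),
      if ∃ v ∈ S, v ∈ terminal (plant G S) R then (1 : ℝ) else 0) +
      (∑ G : SimpleGraph (Fin n),
      if ¬ ∃ v ∈ S, v ∈ terminal (plant G S) R then (1 : ℝ) else 0) =
        Fintype.card (SimpleGraph (Fin n)) := by
    rw [← Finset.sum_add_distrib]
    have : ∀ G ∈ (univ : Finset (SimpleGraph (Fin n))),
        ((if ∃ v ∈ S, v ∈ terminal (plant G S) R then (1 : ℝ) else 0) +
          if ¬ ∃ v ∈ S, v ∈ terminal (plant G S) R then (1 : ℝ) else 0) = 1 := by
      intro G _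
      by_cases h : ∃ v ∈ S, v ∈ terminal (plant G S) R
      · rw [if_pos h, if_neg (not_not.2 h)]; norm_num
      · rw [if_neg h, if_pos h]; norm_num
    rw [Finset.sum_congr rfl this, Finset.sum_const, Finset.card_univ, nsmul_eq_mul, mul_one]
  linarith

lemma succProb_ge {k : ℕ} (hk : k ≤ n) {R : TieRule n} {ε : ℝ}
    (h : ∀ S : Finset (Fin n), S.card = k →
      Pr (fun ω : Om n => ¬ ∃ v ∈ S, v ∈ terminal (Hg S ω) R) ≤ ε) :
    1 - ε ≤ succProb n k R := by
  classical
  have h4 : (0 : ℝ) < Fintype.card (SimpleGraph (Fin n)) := by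
    exact_mod_cast Fintype.card_pos
  have hden : (((univ : Finset (SimpleGraph (Fin n) × Finset (Fin n))).filter fun p =>
      p.2.card = k).card : ℝ) =
      ∑ S : Finset (Fin n), if S.card = k then (Fintype.card (SimpleGraph (Fin n)) : ℝ) else 0 := by
    rw [← Finset.sum_boole, Fintype.sum_prod_type_right]
    apply Finset.sum_congr rfl
    intro S _
    by_cases hS : S.card = k
    · simp [hS]
    · simp [hS]
  have hnum : (((univ : Finset (SimpleGraph (Fin n) × Finset (Fin n))).filter fun p =>
      p.2.card = k ∧ ∃ v ∈ p.2, v ∈ terminal (plant p.1 p.2) R).card : ℝ) =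
      ∑ S : Finset (Fin n), if S.card = k then (∑ G : SimpleGraph (Fin n),
        if ∃ v ∈ S, v ∈ terminal (plant G S) R then (1 : ℝ) else 0) else 0 := by
    rw [← Finset.sum_boole, Fintype.sum_prod_type_right]
    apply Finset.sum_congr rfl
    intro S _
    by_cases hS : S.card = k
    · simp only [hS, true_and, if_true]
    · simp only [hS, false_and, if_false, Finset.sum_const_zero]
  have hpos : (0 : ℝ) < (((univ : Finset (SimpleGraph (Fin n) × Finset (Fin n))).filter fun p =>
      p.2.card = k).card : ℝ) := by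
    obtain ⟨S, hS1, hS2⟩ := Finset.exists_subset_card_eq
      (s := (univ : Finset (Fin n))) (n := k) (by simpa using hk)
    have : 0 < ((univ : Finset (SimpleGraph (Fin n) × Finset (Fin n))).filter fun p =>
        p.2.card = k).card :=
      Finset.card_pos.2 ⟨(⊥, S), Finset.mem_filter.2 ⟨Finset.mem_univ _, hS2⟩⟩
    exact_mod_cast this
  have key : 1 - ε ≤ (((univ : Finset (SimpleGraph (Fin n) × Finset (Fin n))).filter fun p =>
      p.2.card = k ∧ ∃ v ∈ p.2, v ∈ terminal (plant p.1 p.2) R).card : ℝ) /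
    (((univ : Finset (SimpleGraph (Fin n) × Finset (Fin n))).filter fun p =>
      p.2.card = k).card : ℝ) := by
    rw [le_div_iff₀ hpos, hden, hnum, Finset.mul_sum]
    apply Finset.sum_le_sum
    intro S _
    by_cases hS : S.card = k
    · rw [if_pos hS, if_pos hS]
      exact count_ge (h S hS)
    · rw [if_neg hS, if_neg hS, mul_zero]
  unfold succProb
  convert key

end Final

/-- Success with high probability, for `k = ⌊√n⌋` and for every tie-breaking rule. -/
theorem final (hA : PAStmt) (hB : PBStmt) :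
    ∀ ε : ℝ, 0 < ε → ∀ᶠ n : ℕ in atTop, ∀ R : TieRule n, 1 - ε ≤ succProb n (Nat.sqrt n) R := by
  intro ε hε
  obtain ⟨κ, hκ, hA⟩ := hA
  obtain ⟨Θ, hΘ, hB⟩ := hB κ hκ (ε / 2) (by positivity)
  filter_upwards [hA Θ hΘ (ε / 2) (by positivity), hB] with n h1 h2 R
  apply Final.succProb_ge (Nat.sqrt_le_self n)
  intro S hS
  have h3 := h1 S R hS
  have h4 := h2 S R hS
  calc Pr (fun ω : Om n => ¬ ∃ v ∈ S, v ∈ terminal (Hg S ω) R)
      ≤ Pr (fun ω => ¬ (κ * √(n : ℝ) ≤ ((Ss S R (n - ⌈(n : ℝ) / Θ⌉₊) ω).card : ℝ)) ∨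
        (κ * √(n : ℝ) ≤ ((Ss S R (n - ⌈(n : ℝ) / Θ⌉₊) ω).card : ℝ) ∧
          ¬ ∃ v ∈ S, v ∈ terminal (Hg S ω) R)) := by
        apply Pr_mono
        intro ω hω
        by_cases h : κ * √(n : ℝ) ≤ ((Ss S R (n - ⌈(n : ℝ) / Θ⌉₊) ω).card : ℝ)
        · exact Or.inr ⟨h, hω⟩
        · exact Or.inl h
    _ ≤ _ := Pr_or_le _ _
    _ ≤ ε := by linarith

end Pool.Agent.H40.Peel
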