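import Pool.Agent.H40.Peel.Dyn

/-!
Second moment of the rescaled degrees of the planted vertices: one step estimate.
-/

namespace Pool.Agent.H40.Peel

open Finset

variable {n : ℕ} (S : Finset (Fin n)) (R : TieRule n)

/-- Second moment functional of the planted vertices. -/
noncomputable def Psi (t : ℕ) (ω : Om n) : ℝ := ∑ v ∈ Ss S R t ω, Mv S R t ω v ^ 2

/-- Contribution of the planted vertex killed at time `t`. -/
noncomputable def Kil (t : ℕ) (ω : Om n) : ℝ :=
  if uu S R t ω ∈ S then Mv S R t ω (uu S R t ω) ^ 2 else 0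

/-- The weights `Mv` on the planted vertices. -/
noncomputable def wS (t : ℕ) (ω : Om n) (v : Fin n) : ℝ :=
  if v ∈ Ss S R t ω ∧ v ≠ uu S R t ω then Mv S R t ω v else 0

variable {S R}

lemma Psi_nonneg (t : ℕ) (ω : Om n) : 0 ≤ Psi S R t ω :=
  Finset.sum_nonneg fun _ _ => sq_nonneg _

lemma Kil_nonneg (t : ℕ) (ω : Om n) : 0 ≤ Kil S R t ω := by
  unfold Kil; split_ifs
  · exact sq_nonneg _
  · exact le_rfl

lemma HM_wS (t : ℕ) : HM S R t (wS S R t) := by
  intro ω ω' h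
  funext v
  unfold wS
  rw [HM_Ss t ω ω' h, HM_uu t ω ω' h, HM_Mv t ω ω' h]

lemma SupA_wS (t : ℕ) : SupA S R t (wS S R t) := by
  intro ω v h
  unfold wS at h
  split_ifs at h with hc
  · exact ⟨Ss_sub_As t ω hc.1, hc.2⟩
  · exact absurd rfl h

section

variable {t : ℕ} {ω : Om n}

lemma rr_ge (ht : t ≤ n) (ω : Om n) : ((n - t : ℕ) : ℝ) - S.card ≤ rr S R t ω := by
  have h1 := card_Ns_add S R t ω
  rw [card_As S R ht ω] at h1
  have h2 := card_Ss_le S R t ω
  have h3 : ((Ns S R t ω).card : ℝ) + (Ss S R t ω).card = ((n - t : ℕ) : ℝ) := by exact_mod_cast h1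
  have h4 : ((Ss S R t ω).card : ℝ) ≤ S.card := by exact_mod_cast h2
  unfold rr
  linarith

lemma rr_le (ht : t ≤ n) (ω : Om n) : rr S R t ω ≤ ((n - t : ℕ) : ℝ) := by
  unfold rr
  rw [← card_As S R ht ω]
  exact_mod_cast Finset.card_le_card (Ns_sub_As t ω)

lemma rr_half (ht : t ≤ n) (hk : 2 * ((S.card : ℝ) + 1) ≤ ((n - t : ℕ) : ℝ)) (ω : Om n) :
    ((n - t : ℕ) : ℝ) / 2 + 1 ≤ rr S R t ω := by
  have := rr_ge (S := S) (R := R) ht ω
  linarith

lemma abs_bb_le (ht : t ≤ n) (hk : 2 * ((S.card : ℝ) + 1) ≤ ((n - t : ℕ) : ℝ)) (ω : Om n) :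
    |bb S R t ω| ≤ t * (4 * √(n : ℝ)) := by
  have hk0 : (0:ℝ) ≤ S.card := Nat.cast_nonneg _
  have key : ∀ s ≤ t, |bb S R s ω| ≤ s * (4 * √(n : ℝ)) := by
    intro s
    induction s with
    | zero => intro _; simp [bb]
    | succ s ih =>
      intro hs
      have ih := ih (by omega)
      have hsn : s < n := by omega
      have hms : ((n - t : ℕ) : ℝ) ≤ ((n - s : ℕ) : ℝ) := by
        have : n - t ≤ n - s := by omega
        exact_mod_cast this
      have hms1 : ((n - t : ℕ) : ℝ) + 1 ≤ ((n - s : ℕ) : ℝ) := by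
        have : n - t + 1 ≤ n - s := by omega
        exact_mod_cast this
      have hr := rr_half (S := S) (R := R) hsn.le (by linarith) ω
      by_cases hu : uu S R s ω ∈ S
      · rw [bb_succ_S hu]
        have : (0:ℝ) ≤ 4 * √(n : ℝ) := by positivity
        push_cast
        linarith
      · rw [bb_succ_N hu]
        have hm2 : (2:ℝ) ≤ (As S R s ω).card := by
          rw [card_As S R hsn.le ω]; linarith
        have h1 := abs_cc_le (S := S) (R := R) hsn hm2
        have hr1 : 1 ≤ rr S R s ω - 1 := by linarith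
        have h2 : |√(n : ℝ) / (rr S R s ω - 1) * cc S R s ω| ≤ 4 * √(n : ℝ) := by
          rw [abs_mul, abs_div, abs_of_nonneg (Real.sqrt_nonneg _),
            abs_of_pos (by linarith : (0:ℝ) < rr S R s ω - 1)]
          have h3 : √(n : ℝ) / (rr S R s ω - 1) ≤ √(n : ℝ) :=
            div_le_self (Real.sqrt_nonneg _) hr1
          calc _ ≤ √(n : ℝ) * 4 := mul_le_mul h3 h1 (abs_nonneg _) (Real.sqrt_nonneg _)
            _ = _ := by ring
        refine (abs_sub _ _).trans ?_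
        push_cast
        linarith
  exact key t le_rfl

lemma abs_Mv_le (ht : t ≤ n) (hk : 2 * ((S.card : ℝ) + 1) ≤ ((n - t : ℕ) : ℝ)) 
    {v : Fin n} (hv : v ∈ As S R t ω) : |Mv S R t ω v| ≤ 6 * (n : ℝ) ^ 2 := by
  have hk0 : (0:ℝ) ≤ S.card := Nat.cast_nonneg _
  have hr := rr_half (S := S) (R := R) ht hk ω
  have hm : (2:ℝ) ≤ ((n - t : ℕ) : ℝ) := by linarith
  have hn1 : (1:ℝ) ≤ n := by
    have : ((n - t : ℕ) : ℝ) ≤ n := by exact_mod_cast Nat.sub_le n t
    linarith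
  have h1 := abs_bb_le (S := S) (R := R) ht hk ω
  have h2 := abs_xv_le hv
  rw [card_As S R ht ω] at h2
  have hsn : √(n : ℝ) ≤ n := by
    rw [Real.sqrt_le_left (by linarith)]; nlinarith
  have htn : (t : ℝ) ≤ n := by exact_mod_cast ht
  unfold Mv
  refine (abs_sub _ _).trans ?_
  have h3 : |√(n : ℝ) * xv S R t ω v / rr S R t ω| ≤ 2 * n := by
    rw [abs_div, abs_mul, abs_of_nonneg (Real.sqrt_nonneg _),
      abs_of_pos (by linarith : 0 < rr S R t ω), div_le_iff₀ (by linarith)]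
    calc √(n : ℝ) * |xv S R t ω v| ≤ n * ((n - t : ℕ) : ℝ) :=
          mul_le_mul hsn h2 (abs_nonneg _) (by linarith)
      _ ≤ 2 * n * rr S R t ω := by nlinarith
  have h4 : (t : ℝ) * (4 * √(n : ℝ)) ≤ 4 * (n : ℝ) ^ 2 := by
    have : (t : ℝ) * √(n : ℝ) ≤ n * n := mul_le_mul htn hsn (Real.sqrt_nonneg _) (by linarith)
    nlinarith
  nlinarith

/-- Exact one step change of the functional, nonplanted removal. -/
lemma Psi_succ_N (ht : t < n) (hr : 1 < rr S R t ω) (hu : uu S R t ω ∉ S) :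
    Psi S R (t + 1) ω = Psi S R t ω -
      2 * (√(n : ℝ) / (rr S R t ω - 1)) * Xw S R t ω (wS S R t ω) +
      (√(n : ℝ) / (rr S R t ω - 1)) ^ 2 *
        ∑ v ∈ Ss S R t ω, (e0 ω v (uu S R t ω) - pv S R t ω v) ^ 2 := by
  have hSs := Ss_succ_of_notMem S R hu
  unfold Psi
  rw [hSs]
  have hXw : Xw S R t ω (wS S R t ω) = ∑ v ∈ Ss S R t ω, Mv S R t ω v *
      (e0 ω v (uu S R t ω) - pv S R t ω v) := by
    unfold Xw
    rw [← Finset.sum_subset (Ss_sub_As t ω)]
    · refine Finset.sum_congr rfl fun v hv => ?_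
      have hvu : v ≠ uu S R t ω := fun h => hu (h ▸ ((mem_Ss S R).1 hv).2)
      unfold wS
      rw [if_pos ⟨hv, hvu⟩]
    · intro v _ hv
      unfold wS
      rw [if_neg (fun h => hv h.1), zero_mul]
  rw [hXw, Finset.mul_sum, Finset.mul_sum, ← Finset.sum_sub_distrib, ← Finset.sum_add_distrib]
  refine Finset.sum_congr rfl fun v hv => ?_
  have hv' : v ∈ As S R (t + 1) ω := by
    rw [← hSs] at hv
    exact Ss_sub_As _ ω hv
  rw [Mv_succ_N ht hv' hu hr]
  ring

lemma Psi_succ_S (ht : t < n) (hu : uu S R t ω ∈ S) :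
    Psi S R (t + 1) ω = Psi S R t ω - Kil S R t ω := by
  have hmem : uu S R t ω ∈ Ss S R t ω := (mem_Ss S R).2 ⟨uu_mem' S R ht ω, hu⟩
  unfold Psi Kil
  rw [if_pos hu, ← Finset.add_sum_erase _ _ hmem, Ss_succ_of_mem S R hu]
  rw [add_sub_cancel_left]
  refine Finset.sum_congr rfl fun v hv => ?_
  rw [← Ss_succ_of_mem S R hu] at hv
  rw [Mv_succ_SS hv hu]

end

end Pool.Agent.H40.Peel

namespace Pool.Agent.H40.Peel

open Finset

lemma sq_sum5 (a b c d e : ℝ) :
    (a + b + c + d + e) ^ 2 ≤ 5 * (a ^ 2 + b ^ 2 + c ^ 2 + d ^ 2 + e ^ 2) := by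
  nlinarith [sq_nonneg (a - b), sq_nonneg (a - c), sq_nonneg (a - d), sq_nonneg (a - e),
    sq_nonneg (b - c), sq_nonneg (b - d), sq_nonneg (b - e), sq_nonneg (c - d),
    sq_nonneg (c - e), sq_nonneg (d - e)]

set_option maxHeartbeats 1000000 in
/-- Numerical part of the one step estimate. -/
lemma numHe {N m k β ψ W Y ρ X C L : ℝ} (hN : 1 ≤ N) (hm : 1 ≤ m) (hmN : m ≤ N)
    (hk0 : 0 ≤ k) (hkm : 2 * k ≤ m) (hkN : k ≤ √N) (hC : 1 ≤ C) (hL : 1 ≤ L) (hLN : L ≤ √N)
    (hβ : 0 ≤ β) (hβ2 : β ^ 2 = C ^ 2 * m * L) (hψ : 0 ≤ ψ) (hρ0 : 0 ≤ ρ) (hρ : ρ ≤ m)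
    (hW0 : 0 ≤ W) (hW : W ≤ √k * ψ) (hY : Y ≤ √k * ψ) (hX : X ≤ √k * ψ) :
    4 * √N / m * ((3 * W * β + 18 * β ^ 2 * ψ + 9 * ρ * β * ψ) / (m * √m) +
      2 * β * (Y + 2 * W * k / m) / m + 64 * X / m) ≤
      1 / (2 * m) * ψ ^ 2 + 1600000 * C ^ 4 * (N * L / m ^ 2 * (√N + ρ)) := by
  have hm0 : 0 < m := by linarith
  obtain ⟨s, hs⟩ : ∃ s, s = √m := ⟨_, rfl⟩
  obtain ⟨g, hg⟩ : ∃ g, g = √k := ⟨_, rfl⟩
  obtain ⟨q, hq⟩ : ∃ q, q = √N := ⟨_, rfl⟩
  have hs0 : 0 < s := hs ▸ Real.sqrt_pos.2 hm0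
  have hs2 : s ^ 2 = m := by rw [hs]; exact Real.sq_sqrt hm0.le
  have hg0 : 0 ≤ g := hg ▸ Real.sqrt_nonneg _
  have hg2 : g ^ 2 = k := by rw [hg]; exact Real.sq_sqrt hk0
  have hq0 : 0 < q := hq ▸ Real.sqrt_pos.2 (by linarith)
  have hq2 : q ^ 2 = N := by rw [hq]; exact Real.sq_sqrt (by linarith)
  rw [← hs, ← hq]
  rw [← hg] at hW hY hX
  rw [← hq] at hkN hLN
  clear hs hg hq
  have hL0 : 0 < L := by linarith
  have hC0 : 0 < C := by linarith
  have hq1 : 1 ≤ q := by nlinarith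
  -- first bound by ψ * Z
  set z1 := 3 * g * β / (m * s) with hz1
  set z2 := 18 * β ^ 2 / (m * s) with hz2
  set z3 := 9 * ρ * β / (m * s) with hz3
  set z4 := 4 * β * g / m with hz4
  set z5 := 64 * g / m with hz5
  have h1 : (3 * W * β + 18 * β ^ 2 * ψ + 9 * ρ * β * ψ) / (m * s) ≤
      ψ * (z1 + z2 + z3) := by
    have : ψ * (z1 + z2 + z3) = (3 * (g * ψ) * β + 18 * β ^ 2 * ψ + 9 * ρ * β * ψ) / (m * s) := by
      rw [hz1, hz2, hz3]; field_simp
    rw [this]
    apply div_le_div_of_nonneg_right _ (by positivity)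
    nlinarith
  have h2 : 2 * β * (Y + 2 * W * k / m) / m ≤ ψ * z4 := by
    have e1 : 2 * W * k / m ≤ g * ψ := by
      rw [div_le_iff₀ hm0]
      calc 2 * W * k = W * (2 * k) := by ring
        _ ≤ (g * ψ) * m := mul_le_mul hW hkm (by linarith) (by positivity)
    have : ψ * z4 = 2 * β * (g * ψ + g * ψ) / m := by rw [hz4]; field_simp; ring
    rw [this]
    apply div_le_div_of_nonneg_right _ hm0.le
    exact mul_le_mul_of_nonneg_left (add_le_add hY e1) (by positivity)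
  have h3 : 64 * X / m ≤ ψ * z5 := by
    have : ψ * z5 = 64 * (g * ψ) / m := by rw [hz5]; field_simp
    rw [this]
    apply div_le_div_of_nonneg_right _ hm0.le
    linarith
  have h4 : (3 * W * β + 18 * β ^ 2 * ψ + 9 * ρ * β * ψ) / (m * s) +
      2 * β * (Y + 2 * W * k / m) / m + 64 * X / m ≤ ψ * (z1 + z2 + z3 + z4 + z5) := by
    have : ψ * (z1 + z2 + z3 + z4 + z5) = ψ * (z1 + z2 + z3) + ψ * z4 + ψ * z5 := by ring
    rw [this]
    linarith
  set Z := z1 + z2 + z3 + z4 + z5 with hZ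
  have h5 : 4 * q / m * (ψ * Z) ≤ 1 / m * (1 / 2 * ψ ^ 2 + 8 * N * Z ^ 2) := by
    have : 4 * q / m * (ψ * Z) = 1 / m * (4 * q * ψ * Z) := by ring
    rw [this]
    apply mul_le_mul_of_nonneg_left _ (by positivity)
    rw [← hq2]
    have hh : 1 / 2 * ψ ^ 2 + 8 * q ^ 2 * Z ^ 2 - 4 * q * ψ * Z =
      1 / 2 * (ψ - 4 * q * Z) ^ 2 := by ring
    have := sq_nonneg (ψ - 4 * q * Z)
    linarith
  -- the squares
  set T := N * L * (q + ρ) / m with hT
  have hT0 : 0 ≤ T := by positivity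
  have hsq3 : (m * s) ^ 2 = m ^ 3 := by rw [mul_pow, hs2]; ring
  have y1 : N * z1 ^ 2 ≤ 9 * C ^ 4 * T := by
    have : z1 ^ 2 = 9 * C ^ 2 * (k * L) / m ^ 2 := by
      rw [hz1, div_pow, hsq3]
      rw [mul_pow, mul_pow, hg2, hβ2]
      field_simp
      ring
    rw [this, hT]
    have hC24 : C ^ 2 ≤ C ^ 4 := pow_le_pow_right₀ hC (by norm_num)
    have e1 : N * (9 * C ^ 2 * (k * L) / m ^ 2) = 9 * C ^ 2 * (N * L * k / m / m) := by
      field_simp
    rw [e1]
    have e2 : N * L * k / m / m ≤ N * L * (q + ρ) / m := by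
      rw [div_le_iff₀ hm0]
      have : N * L * k / m ≤ N * L * (q + ρ) / m := by
        apply div_le_div_of_nonneg_right _ hm0.le
        apply mul_le_mul_of_nonneg_left (by linarith) (by positivity)
      have h0 : 0 ≤ N * L * (q + ρ) / m := by positivity
      exact this.trans (le_mul_of_one_le_right h0 hm)
    calc 9 * C ^ 2 * (N * L * k / m / m) ≤ 9 * C ^ 4 * (N * L * (q + ρ) / m) :=
          mul_le_mul (by linarith) e2 (by positivity) (by positivity)
      _ = _ := by ring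
  have y2 : N * z2 ^ 2 ≤ 324 * C ^ 4 * T := by
    have : z2 ^ 2 = 324 * C ^ 4 * L ^ 2 / m := by
      rw [hz2, div_pow, hsq3, mul_pow, hβ2]
      field_simp
      ring
    rw [this, hT]
    have e1 : N * (324 * C ^ 4 * L ^ 2 / m) = 324 * C ^ 4 * (N * L * L / m) := by field_simp
    rw [e1]
    apply mul_le_mul_of_nonneg_left _ (by positivity)
    apply div_le_div_of_nonneg_right _ hm0.le
    apply mul_le_mul_of_nonneg_left (by linarith) (by positivity)
  have y3 : N * z3 ^ 2 ≤ 81 * C ^ 4 * T := by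
    have : z3 ^ 2 = 81 * C ^ 2 * (ρ ^ 2 * L) / m ^ 2 := by
      rw [hz3, div_pow, hsq3]
      rw [mul_pow, mul_pow, hβ2]
      field_simp
      ring
    rw [this, hT]
    have hC24 : C ^ 2 ≤ C ^ 4 := pow_le_pow_right₀ hC (by norm_num)
    have e1 : N * (81 * C ^ 2 * (ρ ^ 2 * L) / m ^ 2) = 81 * C ^ 2 * (N * L * (ρ ^ 2 / m) / m) := by
      field_simp
    rw [e1]
    have e2 : ρ ^ 2 / m ≤ q + ρ := by
      rw [div_le_iff₀ hm0]
      nlinarith
    have e3 : N * L * (ρ ^ 2 / m) / m ≤ N * L * (q + ρ) / m := by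
      apply div_le_div_of_nonneg_right _ hm0.le
      exact mul_le_mul_of_nonneg_left e2 (by positivity)
    exact mul_le_mul (by linarith) e3 (by positivity) (by positivity)
  have y4 : N * z4 ^ 2 ≤ 16 * C ^ 4 * T := by
    have : z4 ^ 2 = 16 * C ^ 2 * (L * k) / m := by
      rw [hz4, div_pow, mul_pow, mul_pow, hβ2, hg2]
      field_simp
      ring
    rw [this, hT]
    have hC24 : C ^ 2 ≤ C ^ 4 := pow_le_pow_right₀ hC (by norm_num)
    have e1 : N * (16 * C ^ 2 * (L * k) / m) = 16 * C ^ 2 * (N * L * k / m) := by field_simp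
    rw [e1]
    have e3 : N * L * k / m ≤ N * L * (q + ρ) / m := by
      apply div_le_div_of_nonneg_right _ hm0.le
      exact mul_le_mul_of_nonneg_left (by linarith) (by positivity)
    exact mul_le_mul (by linarith) e3 (by positivity) (by positivity)
  have y5 : N * z5 ^ 2 ≤ 4096 * C ^ 4 * T := by
    have : z5 ^ 2 = 4096 * k / m ^ 2 := by
      rw [hz5, div_pow, mul_pow, hg2]
      norm_num
    rw [this, hT]
    have hC4 : 1 ≤ C ^ 4 := one_le_pow₀ hC
    have e1 : N * (4096 * k / m ^ 2) = 4096 * (N * k / m / m) := by field_simp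
    rw [e1]
    have e3 : N * k / m / m ≤ N * L * (q + ρ) / m := by
      apply div_le_div_of_nonneg_right _ hm0.le
      rw [div_le_iff₀ hm0]
      have : N * k ≤ N * L * (q + ρ) := by
        rw [mul_assoc]
        apply mul_le_mul_of_nonneg_left _ (by linarith)
        calc k ≤ q + ρ := by linarith
          _ ≤ L * (q + ρ) := le_mul_of_one_le_left (by linarith) hL
      exact this.trans (le_mul_of_one_le_right (by positivity) hm)
    calc 4096 * (N * k / m / m) ≤ 4096 * (N * L * (q + ρ) / m) := by linarith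
      _ ≤ 4096 * C ^ 4 * (N * L * (q + ρ) / m) := by nlinarith
  have h6 : 8 * N * Z ^ 2 ≤ 1600000 * C ^ 4 * T := by
    have h7 := sq_sum5 z1 z2 z3 z4 z5
    have hN0 : 0 ≤ N := by linarith
    have h8 : N * Z ^ 2 ≤ N * (5 * (z1 ^ 2 + z2 ^ 2 + z3 ^ 2 + z4 ^ 2 + z5 ^ 2)) :=
      mul_le_mul_of_nonneg_left h7 hN0
    have hCT : 0 ≤ C ^ 4 * T := by positivity
    have h9 : N * (5 * (z1 ^ 2 + z2 ^ 2 + z3 ^ 2 + z4 ^ 2 + z5 ^ 2)) =
        5 * (N * z1 ^ 2 + N * z2 ^ 2 + N * z3 ^ 2 + N * z4 ^ 2 + N * z5 ^ 2) := by ring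
    rw [h9] at h8
    linarith
  calc 4 * q / m * ((3 * W * β + 18 * β ^ 2 * ψ + 9 * ρ * β * ψ) / (m * s) +
      2 * β * (Y + 2 * W * k / m) / m + 64 * X / m) ≤ 4 * q / m * (ψ * Z) :=
        mul_le_mul_of_nonneg_left h4 (by positivity)
    _ ≤ 1 / m * (1 / 2 * ψ ^ 2 + 8 * N * Z ^ 2) := h5
    _ ≤ 1 / m * (1 / 2 * ψ ^ 2 + 1600000 * C ^ 4 * T) :=
        mul_le_mul_of_nonneg_left (by linarith) (by positivity)
    _ = _ := by rw [hT]; field_simp

variable {n : ℕ} {S : Finset (Fin n)} {R : TieRule n}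

/-- One step in expectation. -/
theorem psi_step {t : ℕ} (ht : t < n) (hk : 2 * ((S.card : ℝ) + 1) ≤ ((n - t : ℕ) : ℝ))
    (hkn : (S.card : ℝ) ≤ √(n : ℝ)) {β C L : ℝ} (hβ : 0 ≤ β) (hC : 1 ≤ C) (hL : 1 ≤ L)
    (hLn : L ≤ √(n : ℝ)) (hβ2 : β ^ 2 = C ^ 2 * ((n - t : ℕ) : ℝ) * L) :
    E (Psi S R (t + 1)) + E (Kil S R t) ≤ E (Psi S R t) * (1 + 1 / (2 * ((n - t : ℕ) : ℝ))) +
      1600196 * C ^ 4 * ((n : ℝ) * L / ((n - t : ℕ) : ℝ) ^ 2 * (√(n : ℝ) + E (arho S R t))) +
      552 * (n : ℝ) ^ 4 * Pr (fun ω => ¬ OpB ω (As S R t ω) β) := by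
  have hk0 : (0:ℝ) ≤ S.card := Nat.cast_nonneg _
  set m : ℝ := ((n - t : ℕ) : ℝ) with hm
  have hm2 : 2 ≤ m := by linarith
  have hmn : m ≤ n := by rw [hm]; exact_mod_cast Nat.sub_le n t
  have hn1 : (1:ℝ) ≤ n := by linarith
  have hcard : ∀ ω, (((As S R t ω).card : ℕ) : ℝ) = m := fun ω => by
    rw [card_As S R ht.le ω]
  have hrh := fun ω => rr_half (S := S) (R := R) ht.le hk ω
  have hq0 : 0 ≤ √(n : ℝ) := Real.sqrt_nonneg _
  have hqn : √(n : ℝ) ≤ n := by rw [Real.sqrt_le_left (by linarith)]; nlinarith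
  -- weights
  set F : Om n → ℝ := fun ω => - (2 * (√(n : ℝ) / (rr S R t ω - 1))) with hF
  have hFm : HM S R t F := (HM_rr t).comp fun a => - (2 * (√(n : ℝ) / (a - 1)))
  have hFabs : ∀ ω, |F ω| ≤ 4 * √(n : ℝ) / m := by
    intro ω
    simp only [hF]
    rw [abs_neg, abs_of_nonneg (by
      have := hrh ω
      exact mul_nonneg (by norm_num) (div_nonneg hq0 (by linarith))), mul_div_assoc']
    rw [div_le_div_iff₀ (by have := hrh ω; linarith) (by linarith)]
    have := hrh ω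
    nlinarith
  have hsumw : ∀ ω, ∑ v ∈ As S R t ω, |wS S R t ω v| ≤ √(S.card : ℝ) * √(Psi S R t ω) := by
    intro ω
    have h1 : ∑ v ∈ As S R t ω, |wS S R t ω v| ≤ ∑ v ∈ Ss S R t ω, |Mv S R t ω v| := by
      rw [← Finset.sum_subset (Ss_sub_As t ω)]
      · refine Finset.sum_le_sum fun v _ => ?_
        unfold wS
        split_ifs
        · exact le_rfl
        · rw [abs_zero]; exact abs_nonneg _
      · intro v _ hv
        unfold wS
        rw [if_neg (fun h => hv h.1), abs_zero]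
    refine h1.trans ((sum_abs_le _ _).trans ?_)
    apply mul_le_mul _ le_rfl (nrm_nonneg _ _) (Real.sqrt_nonneg _)
    apply Real.sqrt_le_sqrt
    exact_mod_cast card_Ss_le S R t ω
  have hnrmA : ∀ ω, nrm (As S R t ω) (wS S R t ω) ≤ √(Psi S R t ω) := by
    intro ω
    unfold nrm Psi
    apply Real.sqrt_le_sqrt
    rw [← Finset.sum_subset (Ss_sub_As t ω)]
    · refine Finset.sum_le_sum fun v _ => ?_
      unfold wS
      split_ifs
      · exact le_rfl
      · rw [zero_pow two_ne_zero]; exact sq_nonneg _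
    · intro v _ hv
      unfold wS
      rw [if_neg (fun h => hv h.1), zero_pow two_ne_zero]
  have hnrmN : ∀ ω, nrm (Ns S R t ω) (wS S R t ω) = 0 := by
    intro ω
    unfold nrm
    rw [Finset.sum_eq_zero, Real.sqrt_zero]
    intro v hv
    unfold wS
    rw [if_neg (fun h => Finset.disjoint_left.1 (disj_NS t ω) hv h.1), zero_pow two_ne_zero]
  have hB : ∀ ω, |F ω| * (23 * ∑ v ∈ As S R t ω, |wS S R t ω v|) ≤ 552 * (n : ℝ) ^ 4 := by
    intro ω
    have h1 : ∑ v ∈ As S R t ω, |wS S R t ω v| ≤ n * (6 * (n : ℝ) ^ 2) := by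
      have h2 : ∀ v ∈ As S R t ω, |wS S R t ω v| ≤ 6 * (n : ℝ) ^ 2 := by
        intro v hv
        unfold wS
        split_ifs
        · exact abs_Mv_le ht.le hk hv
        · rw [abs_zero]; positivity
      refine (Finset.sum_le_sum h2).trans ?_
      rw [Finset.sum_const, nsmul_eq_mul, hcard]
      exact mul_le_mul_of_nonneg_right hmn (by positivity)
    have h3 : |F ω| ≤ 4 * n := by
      refine (hFabs ω).trans ?_
      rw [div_le_iff₀ (by linarith)]
      nlinarith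
    calc |F ω| * (23 * ∑ v ∈ As S R t ω, |wS S R t ω v|) ≤ (4 * n) * (23 * (n * (6 * (n:ℝ) ^ 2))) :=
          mul_le_mul h3 (mul_le_mul_of_nonneg_left h1 (by norm_num))
            (mul_nonneg (by norm_num) (Finset.sum_nonneg fun _ _ => abs_nonneg _)) (by positivity)
      _ = _ := by ring
  have hce := ce1 ht hk hFm (HM_wS t) (SupA_wS t) hβ hB
  -- pointwise bound of the main error
  have hpt : ∀ ω, (if uu S R t ω ∈ S then 0 else |F ω| * (errN S R β t ω (wS S R t ω) +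
        64 * (∑ v ∈ As S R t ω, |wS S R t ω v|) / m)) ≤
      1 / (2 * m) * Psi S R t ω + 1600000 * C ^ 4 * ((n : ℝ) * L / m ^ 2 *
        (√(n : ℝ) + arho S R t ω)) := by
    intro ω
    have hPsi := Psi_nonneg (S := S) (R := R) t ω
    have har := arho_nonneg (S := S) (R := R) t ω
    by_cases hu : uu S R t ω ∈ S
    · rw [if_pos hu]
      positivity
    · rw [if_neg hu]
      have harho : arho S R t ω = |rho S R t ω| := by unfold arho; rw [if_neg hu]
      have hρm : |rho S R t ω| ≤ m := by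
        rw [rho_eq]
        refine (Finset.abs_sum_le_sum_abs _ _).trans ?_
        refine (Finset.sum_le_sum fun v _ => abs_e0_le ω v _).trans ?_
        rw [Finset.sum_const, nsmul_eq_mul, mul_one]
        exact rr_le ht.le ω
      have hW : |∑ v ∈ As S R t ω, wS S R t ω v| ≤ √(S.card : ℝ) * √(Psi S R t ω) :=
        (Finset.abs_sum_le_sum_abs _ _).trans (hsumw ω)
      have hY : |Yw S R t ω (wS S R t ω)| ≤ √(S.card : ℝ) * √(Psi S R t ω) :=
        (abs_Yw_le t ω _).trans (hsumw ω)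
      have hnum := numHe (N := n) (m := m) (k := S.card) (β := β) (ψ := √(Psi S R t ω))
        (W := |∑ v ∈ As S R t ω, wS S R t ω v|) (Y := |Yw S R t ω (wS S R t ω)|)
        (ρ := |rho S R t ω|) (X := ∑ v ∈ As S R t ω, |wS S R t ω v|) (C := C) (L := L)
        hn1 (by linarith) hmn hk0 (by linarith) hkn hC hL hLn hβ hβ2 (Real.sqrt_nonneg _)
        (abs_nonneg _) hρm (abs_nonneg _) hW hY (hsumw ω)
      rw [Real.sq_sqrt hPsi] at hnum
      rw [harho]
      refine le_trans ?_ hnum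
      have herr : errN S R β t ω (wS S R t ω) +
          64 * (∑ v ∈ As S R t ω, |wS S R t ω v|) / m ≤
          (3 * |∑ v ∈ As S R t ω, wS S R t ω v| * β + 18 * β ^ 2 * √(Psi S R t ω) +
            9 * |rho S R t ω| * β * √(Psi S R t ω)) / (m * √m) +
          2 * β * (|Yw S R t ω (wS S R t ω)| +
            2 * |∑ v ∈ As S R t ω, wS S R t ω v| * S.card / m) / m +
          64 * (∑ v ∈ As S R t ω, |wS S R t ω v|) / m := by
        unfold errN
        rw [hnrmN, hcard, mul_zero, zero_div, zero_add]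
        apply add_le_add _ le_rfl
        apply add_le_add _ le_rfl
        apply div_le_div_of_nonneg_right _ (by positivity)
        have := hnrmA ω
        have h1 : 18 * β ^ 2 * nrm (As S R t ω) (wS S R t ω) ≤ 18 * β ^ 2 * √(Psi S R t ω) :=
          mul_le_mul_of_nonneg_left this (by positivity)
        have h2 : 9 * |rho S R t ω| * β * nrm (As S R t ω) (wS S R t ω) ≤
            9 * |rho S R t ω| * β * √(Psi S R t ω) :=
          mul_le_mul_of_nonneg_left this (by positivity)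
        linarith
      have hpos : 0 ≤ errN S R β t ω (wS S R t ω) +
          64 * (∑ v ∈ As S R t ω, |wS S R t ω v|) / m := by
        unfold errN
        have := nrm_nonneg (Ns S R t ω) (wS S R t ω)
        have := nrm_nonneg (As S R t ω) (wS S R t ω)
        have : 0 ≤ ∑ v ∈ As S R t ω, |wS S R t ω v| := Finset.sum_nonneg fun _ _ => abs_nonneg _
        positivity
      exact mul_le_mul (hFabs ω) herr hpos (by positivity)
  -- assemble
  have hid : ∀ ω, Psi S R (t + 1) ω + Kil S R t ω ≤ Psi S R t ω +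
      (if uu S R t ω ∈ S then 0 else F ω * Xw S R t ω (wS S R t ω)) +
      196 * (√(n : ℝ) * n / m ^ 2) := by
    intro ω
    by_cases hu : uu S R t ω ∈ S
    · rw [Psi_succ_S ht hu, if_pos hu]
      have : 0 ≤ 196 * (√(n : ℝ) * n / m ^ 2) := by positivity
      linarith
    · have hkil : Kil S R t ω = 0 := by unfold Kil; rw [if_neg hu]
      rw [Psi_succ_N ht (by have := hrh ω; linarith) hu, if_neg hu, hkil]
      have h1 : (√(n : ℝ) / (rr S R t ω - 1)) ^ 2 *
        ∑ v ∈ Ss S R t ω, (e0 ω v (uu S R t ω) - pv S R t ω v) ^ 2 ≤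
          196 * (√(n : ℝ) * n / m ^ 2) := by
        have h2 : ∑ v ∈ Ss S R t ω, (e0 ω v (uu S R t ω) - pv S R t ω v) ^ 2 ≤
            √(n : ℝ) * 49 := by
          have h3 : ∀ v ∈ Ss S R t ω, (e0 ω v (uu S R t ω) - pv S R t ω v) ^ 2 ≤ 49 := by
            intro v hv
            have a1 := abs_e0_le ω v (uu S R t ω)
            have a2 := abs_pv_le ht (ω := ω) (by rw [hcard]; exact hm2)
              (by rw [hcard]; have := hrh ω; linarith) (Ss_sub_As t ω hv)
            have a3 := abs_sub (e0 ω v (uu S R t ω)) (pv S R t ω v)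
            have a4 : |e0 ω v (uu S R t ω) - pv S R t ω v| ≤ 7 := by linarith
            have a5 : |e0 ω v (uu S R t ω) - pv S R t ω v| ^ 2 ≤ 7 ^ 2 :=
              pow_le_pow_left₀ (abs_nonneg _) a4 2
            rw [sq_abs] at a5
            linarith
          refine (Finset.sum_le_sum h3).trans ?_
          rw [Finset.sum_const, nsmul_eq_mul]
          have : ((Ss S R t ω).card : ℝ) ≤ S.card := by exact_mod_cast card_Ss_le S R t ω
          nlinarith
        have h4 : (√(n : ℝ) / (rr S R t ω - 1)) ^ 2 ≤ 4 * n / m ^ 2 := by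
          rw [div_pow, Real.sq_sqrt (by linarith), div_le_div_iff₀ (by
            have := hrh ω
            exact pow_pos (by linarith) 2) (by positivity)]
          have := hrh ω
          have h5 : m ^ 2 ≤ 4 * (rr S R t ω - 1) ^ 2 := by nlinarith
          nlinarith
        calc _ ≤ (4 * n / m ^ 2) * (√(n : ℝ) * 49) :=
              mul_le_mul h4 h2 (Finset.sum_nonneg fun _ _ => sq_nonneg _) (by positivity)
          _ = _ := by ring
      simp only [hF]
      linarith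
  have hE1 : E (fun ω => Psi S R (t + 1) ω + Kil S R t ω) ≤
      E (fun ω => Psi S R t ω +
      (if uu S R t ω ∈ S then 0 else F ω * Xw S R t ω (wS S R t ω)) +
      196 * (√(n : ℝ) * n / m ^ 2)) := E_mono hid
  rw [E_add, E_add, E_add, E_const] at hE1
  have hE2 := E_mono hpt
  rw [E_add, E_mul_left, E_mul_left, E_mul_left, E_add, E_const] at hE2
  have hE3 := (abs_le.1 hce).2
  have h196 : 196 * (√(n : ℝ) * n / m ^ 2) ≤ 196 * C ^ 4 *
      ((n : ℝ) * L / m ^ 2 * (√(n : ℝ) + E (arho S R t))) := by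
    have hC4 : 1 ≤ C ^ 4 := one_le_pow₀ hC
    have har : 0 ≤ E (arho S R t) := E_nonneg fun ω => arho_nonneg t ω
    have h1 : √(n : ℝ) * n / m ^ 2 ≤ (n : ℝ) * L / m ^ 2 * (√(n : ℝ) + E (arho S R t)) := by
      have : √(n : ℝ) * n / m ^ 2 = (n : ℝ) * 1 / m ^ 2 * √(n : ℝ) := by ring
      rw [this]
      apply mul_le_mul _ (by linarith) hq0 (by positivity)
      apply div_le_div_of_nonneg_right _ (by positivity)
      nlinarith
    have h2 : 0 ≤ √(n : ℝ) * n / m ^ 2 := by positivity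
    calc 196 * (√(n : ℝ) * n / m ^ 2) ≤ 196 * 1 *
          ((n : ℝ) * L / m ^ 2 * (√(n : ℝ) + E (arho S R t))) := by linarith
      _ ≤ _ := by
          apply mul_le_mul_of_nonneg_right _ (le_trans h2 h1)
          linarith
  have f1 : E (Psi S R t) * (1 + 1 / (2 * m)) = E (Psi S R t) + 1 / (2 * m) * E (Psi S R t) := by
    ring
  have f2 : 1600196 * C ^ 4 * ((n : ℝ) * L / m ^ 2 * (√(n : ℝ) + E (arho S R t))) =
      1600000 * C ^ 4 * ((n : ℝ) * L / m ^ 2 * (√(n : ℝ) + E (arho S R t))) +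
      196 * C ^ 4 * ((n : ℝ) * L / m ^ 2 * (√(n : ℝ) + E (arho S R t))) := by ring
  rw [f1, f2]
  linarith

end Pool.Agent.H40.Peel
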