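import Pool.Agent.H40.Peel.LDefs

/-!
The initial condition: Lindeberg argument and concentration (Efron-Stein).
-/

namespace Pool.Agent.H40.Peel

open Finset Filter

namespace Init

variable {n : ℕ}

/-- Projection on the functions invariant under the flips in `s`. -/
lemma proj (f : Om n → ℝ) (s : Finset (Sym2 (Fin n))) :
    ∃ g : Om n → ℝ, (∀ e ∈ s, ∀ ω, g (flp e ω) = g ω) ∧
      (∀ h : Om n → ℝ, (∀ e ∈ s, ∀ ω, h (flp e ω) = h ω) →
        E (fun ω => (f ω - g ω) * h ω) = 0) ∧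
      (∀ e, E (fun ω => (g ω - g (flp e ω)) ^ 2) ≤ E (fun ω => (f ω - f (flp e ω)) ^ 2)) ∧
      E (fun ω => (f ω - g ω) ^ 2) ≤ ∑ e ∈ s, E (fun ω => (f ω - f (flp e ω)) ^ 2) / 4 := by
  classical
  induction s using Finset.induction_on with
  | empty =>
    refine ⟨f, by simp, fun h _ => by simp [E], fun e => le_rfl, by simp [E]⟩
  | insert e s he ih =>
    obtain ⟨g, h1, h2, h3, h4⟩ := ih
    have key : ∀ h : Om n → ℝ, (∀ e ∈ s, ∀ ω, h (flp e ω) = h ω) →
        E (fun ω => (f ω - g ω) * h ω) = 0 := h2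
    refine ⟨fun ω => (g ω + g (flp e ω)) / 2, ?_, ?_, ?_, ?_⟩
    · intro e' he' ω
      rcases Finset.mem_insert.1 he' with rfl | he'
      · simp only [flp_flp]; ring
      · simp only [flp_comm e e', h1 e' he']
    · intro h hh
      have hs : ∀ e ∈ s, ∀ ω, h (flp e ω) = h ω := fun e' he' => hh e' (Finset.mem_insert_of_mem he')
      have he2 : ∀ ω, h (flp e ω) = h ω := hh e (Finset.mem_insert_self _ _)
      have a1 := h2 h hs
      have a2 : E (fun ω => g (flp e ω) * h ω) = E (fun ω => g ω * h ω) := by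
        rw [← E_flp e (fun ω => g ω * h ω)]
        exact E_congr fun ω => by rw [he2]
      have a3 : E (fun ω => (f ω - (g ω + g (flp e ω)) / 2) * h ω) =
          E (fun ω => (f ω - g ω) * h ω) + (1 / 2) * (E (fun ω => g ω * h ω)
            - E (fun ω => g (flp e ω) * h ω)) := by
        rw [← E_sub, ← E_mul_left, ← E_add]
        exact E_congr fun ω => by ring
      rw [a3, a1, a2]; ring
    · intro e'
      refine le_trans ?_ (h3 e')
      have b1 : E (fun ω => (g (flp e ω) - g (flp e' (flp e ω))) ^ 2) =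
          E (fun ω => (g ω - g (flp e' ω)) ^ 2) := E_flp e (fun ω => (g ω - g (flp e' ω)) ^ 2)
      have b2 : E (fun ω => ((g ω + g (flp e ω)) / 2 - (g (flp e' ω) +
          g (flp e (flp e' ω))) / 2) ^ 2) ≤
          E (fun ω => (1 / 2) * (g ω - g (flp e' ω)) ^ 2 +
            (1 / 2) * (g (flp e ω) - g (flp e' (flp e ω))) ^ 2) := by
        apply E_mono
        intro ω
        rw [flp_comm e e']
        nlinarith [sq_nonneg ((g ω - g (flp e' ω)) - (g (flp e ω) - g (flp e' (flp e ω))))]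
      refine b2.trans (le_of_eq ?_)
      rw [E_add, E_mul_left, E_mul_left, b1]
      ring
    · have c0 : ∀ e' ∈ s, ∀ ω, (g (flp e' ω) - g (flp e (flp e' ω))) = g ω - g (flp e ω) := by
        intro e' he' ω
        rw [flp_comm e e', h1 e' he', h1 e' he']
      have c1 := h2 (fun ω => g ω - g (flp e ω)) c0
      have c2 : E (fun ω => (f ω - (g ω + g (flp e ω)) / 2) ^ 2) =
          E (fun ω => (f ω - g ω) ^ 2) + E (fun ω => (f ω - g ω) * (g ω - g (flp e ω))) +
            (1 / 4) * E (fun ω => (g ω - g (flp e ω)) ^ 2) := by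
        rw [← E_mul_left, ← E_add, ← E_add]
        exact E_congr fun ω => by ring
      rw [c2, c1, Finset.sum_insert he]
      have := h3 e
      linarith

lemma const_of_inv (g : Om n → ℝ) (h : ∀ e, ∀ ω, g (flp e ω) = g ω) (ω ω' : Om n) :
    g ω = g ω' := by
  classical
  have key : ∀ s : Finset (Sym2 (Fin n)), g (fun e => if e ∈ s then ω e else ω' e) = g ω' := by
    intro s
    induction s using Finset.induction_on with
    | empty => simp
    | insert e s he ih =>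
      rw [← ih]
      by_cases h1 : ω e = ω' e
      · congr 1
        funext x
        by_cases hx : x = e
        · subst hx; simp [he, h1]
        · simp [hx]
      · rw [← h e (fun x => if x ∈ s then ω x else ω' x)]
        congr 1
        funext x
        by_cases hx : x = e
        · subst hx
          rw [flp_same]
          simp only [Finset.mem_insert_self, if_true, he, if_false]
          cases hω : ω x <;> cases hω' : ω' x <;> simp_all
        · rw [flp_ne hx]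
          simp [hx]
  have := key univ
  simpa using this

/-- Efron-Stein (Poincaré inequality on the cube). -/
lemma var_le (f : Om n → ℝ) :
    E (fun ω => (f ω - E f) ^ 2) ≤ ∑ e, E (fun ω => (f ω - f (flp e ω)) ^ 2) / 4 := by
  obtain ⟨g, h1, h2, h3, h4⟩ := proj f univ
  have hc := const_of_inv g (fun e => h1 e (Finset.mem_univ _))
  have h5 : ∀ ω, g ω = E f := by
    intro ω
    have a1 := h2 (fun _ => 1) (by simp)
    simp only [mul_one] at a1
    rw [E_sub] at a1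
    have a2 : E g = g ω := by
      rw [← E_const (n := n) (g ω)]
      exact E_congr fun ω' => hc ω' ω
    linarith
  simpa only [h5] using h4

/-! ### Lindeberg -/

lemma lip_of_nice {H H1 H2 Ht : ℝ → ℝ → ℝ} {Θ C : ℝ}
    (hb : ∀ s y, 0 ≤ s → s ≤ Θ → |H s y| ≤ C ∧ |H1 s y| ≤ C ∧ |H2 s y| ≤ C ∧ |Ht s y| ≤ C ∧
      0 ≤ Ht s y + H2 s y / 2)
    (ht : ∀ s s' y δ, 0 ≤ s → s ≤ Θ → 0 ≤ s' → s' ≤ Θ → |s' - s| ≤ 1 → |δ| ≤ 1 →
      |H s' (y + δ) - H s y - Ht s y * (s' - s) - H1 s y * δ - H2 s y / 2 * δ ^ 2| ≤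
        C * (|δ| ^ 3 + |s' - s| * |δ| + (s' - s) ^ 2))
    {s y δ : ℝ} (hs : 0 ≤ s) (hs' : s ≤ Θ) (hδ : |δ| ≤ 1) :
    |H s (y + δ) - H s y| ≤ 3 * C * |δ| := by
  have h1 := ht s s y δ hs hs' hs hs' (by simp) hδ
  obtain ⟨b0, b1, b2, b3, b4⟩ := hb s y hs hs'
  have hC : 0 ≤ C := (abs_nonneg _).trans b0
  simp only [sub_self, mul_zero, sub_zero, abs_zero, zero_mul, add_zero] at h1
  have h0 := abs_nonneg δ
  have e2 : δ ^ 2 = |δ| ^ 2 := (sq_abs δ).symm
  have c1 : |H1 s y * δ| ≤ C * |δ| := by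
    rw [abs_mul]; exact mul_le_mul_of_nonneg_right b1 h0
  have c2 : |H2 s y / 2 * δ ^ 2| ≤ C / 2 * |δ| := by
    rw [abs_mul, abs_div, abs_of_pos (by norm_num : (0:ℝ) < 2), e2, abs_pow, abs_abs]
    have : |δ| ^ 2 ≤ |δ| := by nlinarith
    calc |H2 s y| / 2 * |δ| ^ 2 ≤ C / 2 * |δ| ^ 2 := by
          apply mul_le_mul_of_nonneg_right _ (by positivity); linarith
      _ ≤ C / 2 * |δ| := mul_le_mul_of_nonneg_left this (by linarith)
  have c3 : |δ| ^ 3 + (0:ℝ) ^ 2 ≤ |δ| := by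
    have : |δ| ^ 3 ≤ |δ| := by
      have : |δ| ^ 2 ≤ 1 := by nlinarith
      nlinarith
    linarith
  have c4 : C * (|δ| ^ 3 + (0:ℝ) ^ 2) ≤ C * |δ| := mul_le_mul_of_nonneg_left c3 hC
  have h1' := h1.trans c4
  have e : H s (y + δ) - H s y = (H s (y + δ) - H s y - H1 s y * δ - H2 s y / 2 * δ ^ 2) +
    H1 s y * δ + H2 s y / 2 * δ ^ 2 := by ring
  rw [e]
  refine (abs_add_three _ _ _).trans ?_
  nlinarith

lemma time_of_nice {H H1 H2 Ht : ℝ → ℝ → ℝ} {Θ C : ℝ}
    (hb : ∀ s y, 0 ≤ s → s ≤ Θ → |H s y| ≤ C ∧ |H1 s y| ≤ C ∧ |H2 s y| ≤ C ∧ |Ht s y| ≤ C ∧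
      0 ≤ Ht s y + H2 s y / 2)
    (ht : ∀ s s' y δ, 0 ≤ s → s ≤ Θ → 0 ≤ s' → s' ≤ Θ → |s' - s| ≤ 1 → |δ| ≤ 1 →
      |H s' (y + δ) - H s y - Ht s y * (s' - s) - H1 s y * δ - H2 s y / 2 * δ ^ 2| ≤
        C * (|δ| ^ 3 + |s' - s| * |δ| + (s' - s) ^ 2))
    {s s' y : ℝ} (hs : 0 ≤ s) (hs2 : s ≤ Θ) (hs' : 0 ≤ s') (hs2' : s' ≤ Θ) (hd : |s' - s| ≤ 1) :
    |H s' y - H s y| ≤ 2 * C * |s' - s| := by
  have h1 := ht s s' y 0 hs hs2 hs' hs2' hd (by simp)
  obtain ⟨b0, b1, b2, b3, b4⟩ := hb s y hs hs2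
  have hC : 0 ≤ C := (abs_nonneg _).trans b0
  simp only [add_zero, mul_zero, sub_zero, abs_zero, ne_eq, OfNat.ofNat_ne_zero,
    not_false_eq_true, zero_pow, zero_add] at h1
  have h0 := abs_nonneg (s' - s)
  have e2 : (s' - s) ^ 2 = |s' - s| ^ 2 := (sq_abs _).symm
  have c1 : |Ht s y * (s' - s)| ≤ C * |s' - s| := by
    rw [abs_mul]; exact mul_le_mul_of_nonneg_right b3 h0
  have c3 : (s' - s) ^ 2 ≤ |s' - s| := by
    rw [e2]; nlinarith
  have c4 : C * (s' - s) ^ 2 ≤ C * |s' - s| := mul_le_mul_of_nonneg_left c3 hC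
  have h1' := h1.trans c4
  have e : H s' y - H s y = (H s' y - H s y - Ht s y * (s' - s)) + Ht s y * (s' - s) := by ring
  rw [e]
  refine (abs_add_le _ _).trans ?_
  linarith

lemma step_of_nice {H H1 H2 Ht : ℝ → ℝ → ℝ} {Θ C : ℝ}
    (hb : ∀ s y, 0 ≤ s → s ≤ Θ → |H s y| ≤ C ∧ |H1 s y| ≤ C ∧ |H2 s y| ≤ C ∧ |Ht s y| ≤ C ∧
      0 ≤ Ht s y + H2 s y / 2)
    (ht : ∀ s s' y δ, 0 ≤ s → s ≤ Θ → 0 ≤ s' → s' ≤ Θ → |s' - s| ≤ 1 → |δ| ≤ 1 →
      |H s' (y + δ) - H s y - Ht s y * (s' - s) - H1 s y * δ - H2 s y / 2 * δ ^ 2| ≤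
        C * (|δ| ^ 3 + |s' - s| * |δ| + (s' - s) ^ 2))
    {s y a : ℝ} (hs : 0 ≤ s) (ha : 0 ≤ a) (ha1 : a ≤ 1) (hs2 : s + a ^ 2 ≤ Θ) :
    H s y - 3 * C * a ^ 3 ≤ (H (s + a ^ 2) (y + a) + H (s + a ^ 2) (y - a)) / 2 := by
  have ha2 : 0 ≤ a ^ 2 := sq_nonneg a
  have ha3 : a ^ 2 ≤ 1 := by nlinarith
  have hsΘ : s ≤ Θ := by linarith
  have hd : |s + a ^ 2 - s| ≤ 1 := by rw [add_sub_cancel_left, abs_of_nonneg ha2]; exact ha3
  have h1 := ht s (s + a ^ 2) y a hs hsΘ (by linarith) hs2 hd (by rwa [abs_of_nonneg ha])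
  have h2 := ht s (s + a ^ 2) y (-a) hs hsΘ (by linarith) hs2 hd
    (by rwa [abs_neg, abs_of_nonneg ha])
  obtain ⟨b0, b1, b2, b3, b4⟩ := hb s y hs hsΘ
  have hC : 0 ≤ C := (abs_nonneg _).trans b0
  rw [add_sub_cancel_left, abs_of_nonneg ha2, abs_of_nonneg ha] at h1
  rw [add_sub_cancel_left, abs_of_nonneg ha2, abs_neg, abs_of_nonneg ha, ← sub_eq_add_neg] at h2
  have h1' := (abs_le.1 h1).1
  have h2' := (abs_le.1 h2).1
  have e4 : (a ^ 2) ^ 2 ≤ a ^ 3 := by
    have : a ^ 3 * a ≤ a ^ 3 * 1 := mul_le_mul_of_nonneg_left ha1 (by positivity)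
    nlinarith
  have e5 : C * (a ^ 3 + a ^ 2 * a + (a ^ 2) ^ 2) ≤ C * (3 * a ^ 3) := by
    apply mul_le_mul_of_nonneg_left _ hC
    nlinarith
  have e6 : 0 ≤ (Ht s y + H2 s y / 2) * a ^ 2 := mul_nonneg b4 ha2
  nlinarith

/-- Sum of the signs between `v` and `Z`. -/
noncomputable def X (Z : Finset (Fin n)) (v : Fin n) (ω : Om n) : ℝ := ∑ z ∈ Z, e0 ω v z

lemma X_flp {Z : Finset (Fin n)} {v z : Fin n} (hz : z ∉ Z) (hv : v ∉ Z) (ω : Om n) :
    X Z v (flp s(v, z) ω) = X Z v ω := by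
  unfold X
  apply Finset.sum_congr rfl
  intro z' hz'
  apply e0_flp_ne
  intro h
  rw [Sym2.eq_iff] at h
  rcases h with ⟨_, h⟩ | ⟨_, h⟩
  · exact hz (h ▸ hz')
  · exact hv (h ▸ hz')

lemma lind {H : ℝ → ℝ → ℝ} {Θ C : ℝ} (hN : Nice H Θ C) {a : ℝ} (ha : 0 ≤ a) (ha1 : a ≤ 1)
    (v : Fin n) (Z : Finset (Fin n)) (hv : v ∉ Z) (hΘ : (Z.card : ℝ) * a ^ 2 ≤ Θ) :
    H 0 0 - Z.card * (3 * C * a ^ 3) ≤ E (fun ω => H (Z.card * a ^ 2) (a * X Z v ω)) := by
  classical
  obtain ⟨H1, H2, Ht, hb, ht⟩ := hN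
  induction Z using Finset.induction_on with
  | empty => simp [X, E_const]
  | insert z Z hz ih =>
    have hvZ : v ∉ Z := fun h => hv (Finset.mem_insert_of_mem h)
    have hvz : v ≠ z := fun h => hv (h ▸ Finset.mem_insert_self _ _)
    have ha2 : 0 ≤ a ^ 2 := sq_nonneg a
    rw [Finset.card_insert_of_notMem hz] at hΘ ⊢
    push_cast at hΘ ⊢
    have ih := ih hvZ (by nlinarith)
    have e1 : ∀ ω : Om n, X (insert z Z) v ω = X Z v ω + e0 ω v z := by
      intro ω
      unfold X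
      rw [Finset.sum_insert hz]; ring
    set s : ℝ := (Z.card : ℝ) * a ^ 2 with hs
    have hs0 : 0 ≤ s := by positivity
    have hs1 : ((Z.card : ℝ) + 1) * a ^ 2 = s + a ^ 2 := by rw [hs]; ring
    rw [hs1] at hΘ ⊢
    have e2 : E (fun ω => H (s + a ^ 2) (a * X (insert z Z) v ω)) =
        E (fun ω => (H (s + a ^ 2) (a * X Z v ω + a) + H (s + a ^ 2) (a * X Z v ω - a)) / 2) := by
      have f1 : E (fun ω => H (s + a ^ 2) (a * X (insert z Z) v ω)) =
          E (fun ω => H (s + a ^ 2) (a * (X Z v ω + e0 ω v z))) := E_congr fun ω => by rw [e1]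
      have f2 : E (fun ω => H (s + a ^ 2) (a * (X Z v ω + e0 ω v z))) =
          E (fun ω => H (s + a ^ 2) (a * (X Z v ω - e0 ω v z))) := by
        rw [← E_flp s(v, z)]
        exact E_congr fun ω => by rw [X_flp hz hvZ, e0_flp_same ω hvz, sub_eq_add_neg]
      have f3 : E (fun ω => (H (s + a ^ 2) (a * X Z v ω + a) +
          H (s + a ^ 2) (a * X Z v ω - a)) / 2) =
          (1 / 2) * (E (fun ω => H (s + a ^ 2) (a * (X Z v ω + e0 ω v z))) +
            E (fun ω => H (s + a ^ 2) (a * (X Z v ω - e0 ω v z)))) := by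
        rw [← E_add, ← E_mul_left]
        apply E_congr
        intro ω
        rw [e0_of_ne ω hvz]
        rcases sg_cases (ω s(v, z)) with h | h <;> rw [h]
        · rw [show a * (X Z v ω + 1) = a * X Z v ω + a by ring,
            show a * (X Z v ω - 1) = a * X Z v ω - a by ring]; ring
        · rw [show a * (X Z v ω + -1) = a * X Z v ω - a by ring,
            show a * (X Z v ω - -1) = a * X Z v ω + a by ring]; ring
      rw [f3, f1, ← f2]; ring
    rw [e2]
    have e3 : E (fun ω => H s (a * X Z v ω) - 3 * C * a ^ 3) ≤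
        E (fun ω => (H (s + a ^ 2) (a * X Z v ω + a) + H (s + a ^ 2) (a * X Z v ω - a)) / 2) :=
      E_mono fun ω => step_of_nice hb ht hs0 ha ha1 hΘ
    rw [E_sub, E_const] at e3
    linarith

/-! ### Flips and the sums -/

lemma X_flp_notMem {Z : Finset (Fin n)} {v : Fin n} {e : Sym2 (Fin n)} (h : v ∉ e) (ω : Om n) :
    X Z v (flp e ω) = X Z v ω := by
  unfold X
  apply Finset.sum_congr rfl
  intro z _
  apply e0_flp_ne
  rintro rfl
  exact h (Sym2.mem_mk_left _ _)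

lemma X_flp_abs (Z : Finset (Fin n)) (v : Fin n) (e : Sym2 (Fin n)) (ω : Om n) :
    |X Z v (flp e ω) - X Z v ω| ≤ 2 := by
  classical
  by_cases h : v ∈ e
  · obtain ⟨w, rfl⟩ := h
    unfold X
    rw [← Finset.sum_sub_distrib]
    refine (Finset.abs_sum_le_sum_abs _ _).trans ?_
    have h1 : ∀ z ∈ Z, |e0 (flp s(v, w) ω) v z - e0 ω v z| ≤ if z = w then (2 : ℝ) else 0 := by
      intro z _
      by_cases hz : z = w
      · rw [if_pos hz]
        refine (abs_sub _ _).trans ?_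
        have := abs_e0_le (flp s(v, w) ω) v z
        have := abs_e0_le ω v z
        linarith
      · rw [if_neg hz, e0_flp_ne, sub_self, abs_zero]
        intro h2
        rw [Sym2.eq_iff] at h2
        rcases h2 with ⟨_, h2⟩ | ⟨h2, h3⟩
        · exact hz h2
        · exact hz (h3.trans h2)
    refine (Finset.sum_le_sum h1).trans ?_
    rw [Finset.sum_ite_eq']
    split_ifs <;> norm_num
  · rw [X_flp_notMem h, sub_self, abs_zero]; norm_num

lemma card_mem_le (v : Fin n) [DecidablePred fun e : Sym2 (Fin n) => v ∈ e] :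
    ((univ : Finset (Sym2 (Fin n))).filter fun e => v ∈ e).card ≤ n := by
  classical
  have h : ((univ : Finset (Sym2 (Fin n))).filter fun e => v ∈ e) ⊆
      (univ : Finset (Fin n)).image fun z => s(v, z) := by
    intro e he
    obtain ⟨w, rfl⟩ := (Finset.mem_filter.1 he).2
    exact Finset.mem_image.2 ⟨w, Finset.mem_univ _, rfl⟩
  refine (Finset.card_le_card h).trans (Finset.card_image_le.trans ?_)
  simp

lemma card_in_le (P : Finset (Fin n)) (e : Sym2 (Fin n)) [DecidablePred fun v : Fin n => v ∈ e] :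
    (P.filter fun v => v ∈ e).card ≤ 2 := by
  have he : ∃ x y, e = s(x, y) := by
    induction e using Sym2.ind with
    | _ x y => exact ⟨x, y, rfl⟩
  obtain ⟨x, y, rfl⟩ := he
  have h : (P.filter fun v => v ∈ s(x, y)) ⊆ {x, y} := by
    intro v hv
    have := (Finset.mem_filter.1 hv).2
    rw [Sym2.mem_iff] at this
    simpa using this
  exact (Finset.card_le_card h).trans Finset.card_le_two

/-- The variance bound for sums of Lipschitz functions of the row sums. -/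
lemma var_sum_le (P : Finset (Fin n)) (Z : Fin n → Finset (Fin n)) (F : ℝ → ℝ) {b : ℝ}
    (hF : ∀ x y, |x - y| ≤ 2 → |F x - F y| ≤ b) :
    E (fun ω => ((∑ v ∈ P, F (X (Z v) v ω)) - E fun ω => ∑ v ∈ P, F (X (Z v) v ω)) ^ 2) ≤
      b ^ 2 * P.card * n / 2 := by
  classical
  refine (var_le _).trans ?_
  have h1 : ∀ e : Sym2 (Fin n), E (fun ω => ((∑ v ∈ P, F (X (Z v) v ω)) -
      ∑ v ∈ P, F (X (Z v) v (flp e ω))) ^ 2) / 4 ≤
      b ^ 2 / 2 * ∑ v ∈ P, if v ∈ e then (1 : ℝ) else 0 := by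
    intro e
    have h2 : ∀ ω, ((∑ v ∈ P, F (X (Z v) v ω)) - ∑ v ∈ P, F (X (Z v) v (flp e ω))) ^ 2 ≤
        2 * b ^ 2 * ∑ v ∈ P, if v ∈ e then (1 : ℝ) else 0 := by
      intro ω
      have h3 : |(∑ v ∈ P, F (X (Z v) v ω)) - ∑ v ∈ P, F (X (Z v) v (flp e ω))| ≤
          b * ∑ v ∈ P, if v ∈ e then (1 : ℝ) else 0 := by
        rw [← Finset.sum_sub_distrib, Finset.mul_sum]
        refine (Finset.abs_sum_le_sum_abs _ _).trans (Finset.sum_le_sum fun v _ => ?_)
        by_cases hv : v ∈ e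
        · rw [if_pos hv, mul_one]
          apply hF
          rw [abs_sub_comm]
          exact X_flp_abs _ _ _ _
        · rw [if_neg hv, mul_zero, X_flp_notMem hv, sub_self, abs_zero]
      have h4 : (∑ v ∈ P, if v ∈ e then (1 : ℝ) else 0) = ((P.filter fun v => v ∈ e).card : ℝ) := by
        rw [Finset.sum_boole]
      have h5 : ((P.filter fun v => v ∈ e).card : ℝ) ≤ 2 := by exact_mod_cast card_in_le P e
      rw [h4] at h3 ⊢
      have h6 : (0:ℝ) ≤ ((P.filter fun v => v ∈ e).card : ℝ) := Nat.cast_nonneg _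
      rw [← sq_abs]
      calc |(∑ v ∈ P, F (X (Z v) v ω)) - ∑ v ∈ P, F (X (Z v) v (flp e ω))| ^ 2
          ≤ (b * ((P.filter fun v => v ∈ e).card : ℝ)) ^ 2 :=
            pow_le_pow_left₀ (abs_nonneg _) h3 2
        _ = b ^ 2 * (((P.filter fun v => v ∈ e).card : ℝ) * ((P.filter fun v => v ∈ e).card : ℝ)) := by ring
        _ ≤ b ^ 2 * (2 * ((P.filter fun v => v ∈ e).card : ℝ)) := by
            apply mul_le_mul_of_nonneg_left _ (sq_nonneg b)
            exact mul_le_mul_of_nonneg_right h5 h6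
        _ = 2 * b ^ 2 * ((P.filter fun v => v ∈ e).card : ℝ) := by ring
    have h3 : E (fun ω => ((∑ v ∈ P, F (X (Z v) v ω)) -
      ∑ v ∈ P, F (X (Z v) v (flp e ω))) ^ 2) ≤
        2 * b ^ 2 * ∑ v ∈ P, if v ∈ e then (1 : ℝ) else 0 := E_le_of_bdd h2
    linarith
  refine (Finset.sum_le_sum fun e _ => h1 e).trans ?_
  rw [← Finset.mul_sum, Finset.sum_comm]
  have h2 : ∀ v ∈ P, (∑ e : Sym2 (Fin n), if v ∈ e then (1 : ℝ) else 0) ≤ n := by
    intro v _
    rw [Finset.sum_boole]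
    exact_mod_cast card_mem_le v
  have h3 : (∑ v ∈ P, ∑ e : Sym2 (Fin n), if v ∈ e then (1 : ℝ) else 0) ≤ P.card * n := by
    refine (Finset.sum_le_sum h2).trans ?_
    rw [Finset.sum_const, nsmul_eq_mul]
  have h4 : b ^ 2 / 2 * (∑ v ∈ P, ∑ e : Sym2 (Fin n), if v ∈ e then (1 : ℝ) else 0) ≤
      b ^ 2 / 2 * (P.card * n) := mul_le_mul_of_nonneg_left h3 (by positivity)
  linarith

/-! ### The functional at time zero -/

/-- The planted or nonplanted vertices. -/
def P0 (c : Bool) (S : Finset (Fin n)) : Finset (Fin n) := if c = true then S else univ \ S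

/-- The vertices whose signs enter the row sum of `v`. -/
def Zv (S : Finset (Fin n)) (v : Fin n) : Finset (Fin n) := if v ∈ S then univ \ S else univ.erase v

lemma notMem_Zv (S : Finset (Fin n)) (v : Fin n) : v ∉ Zv S v := by
  unfold Zv
  split_ifs with h
  · simp [h]
  · simp

lemma xv_zero (S : Finset (Fin n)) (R : TieRule n) (ω : Om n) (v : Fin n) :
    xv S R 0 ω v = X (Zv S v) v ω := by
  unfold Zv X
  split_ifs with h
  · rw [xv_eq_of_mem ((mem_Ss S R).2 ⟨by rw [As_zero]; exact Finset.mem_univ _, h⟩)]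
    unfold Ns
    rw [As_zero]
  · rw [xv_eq_of_notMem ((mem_Ns S R).2 ⟨by rw [As_zero]; exact Finset.mem_univ _, h⟩), As_zero,
      ← Finset.add_sum_erase _ _ (Finset.mem_univ v), e0_self, zero_add]

lemma Qf_zero (c : Bool) (S : Finset (Fin n)) (R : TieRule n) (H : ℝ → ℝ → ℝ) (ω : Om n) :
    Qf c S R H 0 ω = (∑ v ∈ P0 c S, H (n / ((univ \ S).card : ℝ))
      (√(n : ℝ) / ((univ \ S).card : ℝ) * X (Zv S v) v ω)) / qc c n := by
  have h1 : rr S R 0 ω = ((univ \ S).card : ℝ) := rfl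
  have h2 : Pc c S R 0 ω = P0 c S := by
    unfold Pc P0 Ss Ns
    rw [As_zero]
    simp
  unfold Qf
  rw [h2]
  congr 1
  apply Finset.sum_congr rfl
  intro v _
  unfold Mv
  rw [h1, xv_zero]
  congr 1
  simp only [bb]
  ring

lemma mean_ge {H : ℝ → ℝ → ℝ} {Θ C : ℝ} (hN : Nice H Θ C) (S : Finset (Fin n))
    (hS : S.card = Nat.sqrt n) (hq : 4 ≤ √(n : ℝ)) (hq2 : 1 + 6 / √(n : ℝ) ≤ Θ) (v : Fin n) :
    H 0 0 - 32 * C / √(n : ℝ) ≤ E (fun ω => H (n / ((univ \ S).card : ℝ))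
      (√(n : ℝ) / ((univ \ S).card : ℝ) * X (Zv S v) v ω)) := by
  obtain ⟨H1, H2, Ht, hb, ht⟩ := id hN
  obtain ⟨q, hq'⟩ : ∃ q : ℝ, q = √(n : ℝ) := ⟨_, rfl⟩
  obtain ⟨r, hr⟩ : ∃ r : ℝ, r = ((univ \ S).card : ℝ) := ⟨_, rfl⟩
  obtain ⟨k, hk⟩ : ∃ k : ℝ, k = (S.card : ℝ) := ⟨_, rfl⟩
  rw [← hr]
  rw [← hq'] at hq hq2 ⊢
  have hn : (n : ℝ) = q ^ 2 := by rw [hq', Real.sq_sqrt (Nat.cast_nonneg n)]
  have hk1 : k ≤ q := by
    rw [hk, hS, hq']; exact Real.nat_sqrt_le_real_sqrt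
  have hk2 : q ≤ k + 1 := by
    rw [hk, hS, hq']; exact Real.real_sqrt_le_nat_sqrt_succ
  have hrk : r = q ^ 2 - k := by
    have := Finset.card_sdiff_add_card_eq_card (Finset.subset_univ S)
    rw [Finset.card_univ, Fintype.card_fin] at this
    have h : r + k = n := by rw [hr, hk]; exact_mod_cast this
    rw [← hn]; linarith
  have hq0 : 0 < q := by linarith
  have hr1 : q ^ 2 / 2 ≤ r := by rw [hrk]; nlinarith
  have hr0 : 0 < r := lt_of_lt_of_le (by positivity) hr1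
  have hΘ0 : 1 ≤ Θ := le_trans (by have : 0 < 6 / q := by positivity
                                   linarith) hq2
  have hC : 0 ≤ C := (abs_nonneg _).trans (hb 0 0 le_rfl (by linarith)).1
  -- the step
  have ha : q / r ≤ 2 / q := by
    rw [div_le_div_iff₀ hr0 hq0]; nlinarith
  have ha0 : 0 ≤ q / r := by positivity
  have ha1 : q / r ≤ 1 := ha.trans (by rw [div_le_one hq0]; linarith)
  -- number of steps
  obtain ⟨m, hm⟩ : ∃ m : ℝ, m = ((Zv S v).card : ℝ) := ⟨_, rfl⟩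
  have hm0 : 0 ≤ m := by rw [hm]; exact Nat.cast_nonneg _
  have hmr : |r - m| ≤ q := by
    by_cases h : v ∈ S
    · have : m = r := by rw [hm, hr]; unfold Zv; rw [if_pos h]
      rw [this, sub_self, abs_zero]; exact hq0.le
    · have : m = q ^ 2 - 1 := by
        rw [hm, ← hn]; unfold Zv
        rw [if_neg h, Finset.card_erase_of_mem (Finset.mem_univ _), Finset.card_univ,
          Fintype.card_fin]
        have : 1 ≤ n := Nat.pos_of_ne_zero (by rintro rfl; exact v.elim0)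
        push_cast [Nat.cast_sub this]
        ring
      rw [this, hrk, abs_le]
      constructor <;> linarith
  have hmn : m ≤ q ^ 2 := by
    rw [← hn, hm]
    exact_mod_cast (Finset.card_le_univ _).trans (by simp)
  obtain ⟨s1, hs1⟩ : ∃ s1 : ℝ, s1 = (n : ℝ) / r := ⟨_, rfl⟩
  rw [← hs1]
  have hs1a : s1 = 1 + k / r := by
    rw [hs1, hn, hrk]
    have : q ^ 2 - k ≠ 0 := by rw [← hrk]; exact hr0.ne'
    field_simp
    ring
  have hkr : k / r ≤ 2 / q := by
    refine le_trans ?_ ha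
    exact div_le_div_of_nonneg_right hk1 hr0.le
  have hk0 : 0 ≤ k := by rw [hk]; exact Nat.cast_nonneg _
  have hs1b : s1 ≤ 1 + 2 / q := by rw [hs1a]; linarith
  have hs1c : 0 ≤ s1 := by rw [hs1a]; positivity
  have hdiff : |s1 - m * (q / r) ^ 2| ≤ 4 / q := by
    have e1 : s1 - m * (q / r) ^ 2 = (q / r) ^ 2 * (r - m) := by
      rw [hs1, hn]
      field_simp
    rw [e1, abs_mul, abs_of_nonneg (sq_nonneg _)]
    calc (q / r) ^ 2 * |r - m| ≤ (2 / q) ^ 2 * q := by
          apply mul_le_mul _ hmr (abs_nonneg _) (sq_nonneg _)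
          exact pow_le_pow_left₀ ha0 ha 2
      _ = 4 / q := by field_simp; norm_num
  have hd1 : |s1 - m * (q / r) ^ 2| ≤ 1 := hdiff.trans (by rw [div_le_one hq0]; exact hq)
  have h6q : 6 / q = 2 / q + 4 / q := by ring
  have ht1 : m * (q / r) ^ 2 ≤ Θ := by
    have := (abs_le.1 hdiff).1
    linarith
  have h1 := lind hN ha0 ha1 v (Zv S v) (notMem_Zv S v) (by rw [← hm]; exact ht1)
  rw [← hm] at h1
  have h2 : ∀ ω : Om n, H (m * (q / r) ^ 2) (q / r * X (Zv S v) v ω) - 8 * C / q ≤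
      H s1 (q / r * X (Zv S v) v ω) := by
    intro ω
    have h3 := time_of_nice hb ht (s := m * (q / r) ^ 2) (s' := s1)
      (y := q / r * X (Zv S v) v ω) (by positivity) ht1 hs1c
      (by have : 0 < 4 / q := by positivity
          linarith) hd1
    have h4 : 2 * C * |s1 - m * (q / r) ^ 2| ≤ 2 * C * (4 / q) :=
      mul_le_mul_of_nonneg_left hdiff (by linarith)
    have h5 := (abs_le.1 (h3.trans h4)).1
    have h6 : 2 * C * (4 / q) = 8 * C / q := by ring
    linarith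
  have h3 := E_mono h2
  rw [E_sub, E_const] at h3
  have h4 : m * (3 * C * (q / r) ^ 3) ≤ 24 * C / q := by
    calc m * (3 * C * (q / r) ^ 3) ≤ q ^ 2 * (3 * C * (2 / q) ^ 3) := by
          apply mul_le_mul hmn _ (by positivity) (by positivity)
          exact mul_le_mul_of_nonneg_left (pow_le_pow_left₀ ha0 ha 3) (by linarith)
      _ = 24 * C / q := by field_simp; ring
  have h5 : 32 * C / q = 24 * C / q + 8 * C / q := by ring
  linarith

lemma card_P0 (c : Bool) (S : Finset (Fin n)) (hS : S.card = Nat.sqrt n) (hq : 4 ≤ √(n : ℝ)) :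
    ((P0 c S).card : ℝ) ≤ qc c n ∧ (1 - 1 / √(n : ℝ)) * qc c n ≤ (P0 c S).card ∧
      √(n : ℝ) ≤ qc c n := by
  set q : ℝ := √(n : ℝ) with hq'
  have hn : (n : ℝ) = q ^ 2 := by rw [hq', Real.sq_sqrt (Nat.cast_nonneg n)]
  have hk1 : (S.card : ℝ) ≤ q := by
    rw [hS, hq']; exact Real.nat_sqrt_le_real_sqrt
  have hk2 : q ≤ S.card + 1 := by
    rw [hS, hq']; exact Real.real_sqrt_le_nat_sqrt_succ
  have hq0 : 0 < q := by linarith
  have hrk : ((univ \ S).card : ℝ) = q ^ 2 - S.card := by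
    have := Finset.card_sdiff_add_card_eq_card (Finset.subset_univ S)
    rw [Finset.card_univ, Fintype.card_fin] at this
    have h : ((univ \ S).card : ℝ) + S.card = n := by exact_mod_cast this
    rw [← hn]; linarith
  cases c with
  | true =>
    have e1 : qc true n = q := by simp [qc, hq']
    have e2 : P0 true S = S := by simp [P0]
    rw [e1, e2]
    refine ⟨hk1, ?_, le_rfl⟩
    have : (1 - 1 / q) * q = q - 1 := by field_simp
    rw [this]; linarith
  | false =>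
    have e1 : qc false n = q ^ 2 := by simp [qc, hn]
    have e2 : P0 false S = univ \ S := by simp [P0]
    rw [e1, e2, hrk]
    refine ⟨by have := Nat.cast_nonneg (α := ℝ) S.card; linarith, ?_, by nlinarith⟩
    have : (1 - 1 / q) * q ^ 2 = q ^ 2 - q := by field_simp
    rw [this]; linarith

end Init

open Init in
/-- The initial condition. -/
theorem init : INITStmt := by
  intro c H Θ C hΘ hN η hη δ hδ
  obtain ⟨H1, H2, Ht, hb, ht⟩ := id hN
  have hC : 0 ≤ C := (abs_nonneg _).trans (hb 0 0 le_rfl (by linarith)).1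
  have htend : Tendsto (fun n : ℕ => √(n : ℝ)) atTop atTop :=
    Real.tendsto_sqrt_atTop.comp tendsto_natCast_atTop_atTop
  filter_upwards [htend.eventually_ge_atTop 4, htend.eventually_ge_atTop (6 / (Θ - 1)),
    htend.eventually_ge_atTop (66 * C / η), htend.eventually_ge_atTop (288 * C ^ 2 / η ^ 2 / δ)]
    with n n1 n2 n3 n4 S R hS
  obtain ⟨p1, p2, p3⟩ := card_P0 c S hS n1
  have m1 := mean_ge hN S hS n1
  obtain ⟨q, hq'⟩ : ∃ q : ℝ, q = √(n : ℝ) := ⟨_, rfl⟩
  obtain ⟨Q, hQc⟩ : ∃ Q : ℝ, Q = qc c n := ⟨_, rfl⟩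
  rw [← hq'] at n1 n2 n3 n4 p2 p3 m1
  rw [← hQc] at p1 p2 p3
  have hn : (n : ℝ) = q ^ 2 := by rw [hq', Real.sq_sqrt (Nat.cast_nonneg n)]
  have hq0 : 0 < q := by linarith
  have hqc0 : 0 < Q := by linarith
  have n2' : 1 + 6 / q ≤ Θ := by
    have hΘ1 : 0 < Θ - 1 := by linarith
    rw [div_le_iff₀ hΘ1] at n2
    have : 6 / q ≤ Θ - 1 := by rw [div_le_iff₀ hq0]; linarith
    linarith
  replace m1 := m1 n2'
  obtain ⟨r, hr⟩ : ∃ r : ℝ, r = ((univ \ S).card : ℝ) := ⟨_, rfl⟩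
  rw [← hr] at m1
  have hk1 : (S.card : ℝ) ≤ q := by
    rw [hS, hq']; exact Real.nat_sqrt_le_real_sqrt
  have hrk : r = q ^ 2 - S.card := by
    have := Finset.card_sdiff_add_card_eq_card (Finset.subset_univ S)
    rw [Finset.card_univ, Fintype.card_fin] at this
    have h : r + S.card = n := by rw [hr]; exact_mod_cast this
    rw [← hn]; linarith
  have hr1 : q ^ 2 / 2 ≤ r := by rw [hrk]; nlinarith
  have hr0 : 0 < r := lt_of_lt_of_le (by positivity) hr1
  have ha : q / r ≤ 2 / q := by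
    rw [div_le_div_iff₀ hr0 hq0]; nlinarith
  have ha0 : 0 ≤ q / r := by positivity
  have hs1 : (n : ℝ) / r ≤ Θ := by
    have : (n : ℝ) / r ≤ 1 + 2 / q := by
      rw [div_le_iff₀ hr0, hn]
      have h2 : S.card ≤ 2 / q * r := by
        have h3 : 2 / q * r = 2 * r / q := by ring
        rw [h3, le_div_iff₀ hq0]
        nlinarith
      have h4 : (1 + 2 / q) * r = r + 2 / q * r := by ring
      rw [h4]
      linarith
    have h6q : 2 / q ≤ 6 / q := div_le_div_of_nonneg_right (by norm_num) hq0.le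
    linarith
  have hs0 : 0 ≤ (n : ℝ) / r := by positivity
  -- the sum
  set F : ℝ → ℝ := fun x => H ((n : ℝ) / r) (q / r * x) with hF
  have hL : ∀ x y, |x - y| ≤ 2 → |F x - F y| ≤ 12 * C / q := by
    intro x y hxy
    have h1 : |q / r * (x - y)| ≤ 4 / q := by
      rw [abs_mul, abs_of_nonneg ha0]
      calc q / r * |x - y| ≤ 2 / q * 2 := mul_le_mul ha hxy (abs_nonneg _) (by positivity)
        _ = 4 / q := by ring
    have h2 : |q / r * (x - y)| ≤ 1 := h1.trans (by rw [div_le_one hq0]; exact n1)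
    have h3 := lip_of_nice hb ht (y := q / r * y) hs0 hs1 h2
    have e1 : q / r * y + q / r * (x - y) = q / r * x := by ring
    rw [e1] at h3
    refine h3.trans ?_
    calc 3 * C * |q / r * (x - y)| ≤ 3 * C * (4 / q) :=
          mul_le_mul_of_nonneg_left h1 (by linarith)
      _ = 12 * C / q := by ring
  have hv := var_sum_le (P0 c S) (Zv S) F (b := 12 * C / q) hL
  set G : Om n → ℝ := fun ω => ∑ v ∈ P0 c S, F (X (Zv S v) v ω) with hG
  have hQ : ∀ ω, Qf c S R H 0 ω = G ω / Q := by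
    intro ω
    rw [Qf_zero c S R H ω, ← hr, ← hq', ← hQc]
  have hEG : (P0 c S).card * (H 0 0 - 32 * C / q) ≤ E G := by
    rw [hG, E_sum, ← nsmul_eq_mul, ← Finset.sum_const]
    exact Finset.sum_le_sum fun v _ => m1 v
  have hEG2 : H 0 0 - η / 2 ≤ E G / Q := by
    rw [le_div_iff₀ hqc0]
    refine le_trans ?_ hEG
    have b0 := (hb 0 0 le_rfl (by linarith)).1
    have b1 := (abs_le.1 b0).2
    have b2 : (Q - (P0 c S).card) ≤ Q / q := by
      have : (1 - 1 / q) * Q = Q - Q / q := by ring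
      linarith
    have b3 : (Q - (P0 c S).card) * H 0 0 ≤ Q / q * C := by
      calc (Q - (P0 c S).card) * H 0 0 ≤ (Q - (P0 c S).card) * C :=
            mul_le_mul_of_nonneg_left b1 (by linarith)
        _ ≤ Q / q * C := mul_le_mul_of_nonneg_right b2 hC
    have b4 : (P0 c S).card * (32 * C / q) ≤ Q * (32 * C / q) :=
      mul_le_mul_of_nonneg_right p1 (by positivity)
    have b5 : 33 * C / q ≤ η / 2 := by
      rw [div_le_iff₀ hq0]
      rw [div_le_iff₀ hη] at n3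
      nlinarith
    have b6 : Q * (33 * C / q) ≤ Q * (η / 2) := mul_le_mul_of_nonneg_left b5 hqc0.le
    have b7 : Q * (33 * C / q) = Q / q * C + Q * (32 * C / q) := by ring
    nlinarith
  -- Chebyshev
  have hpos : 0 < (η / 2 * Q) ^ 2 := by positivity
  have hch : Pr (fun ω => ¬ (H 0 0 - η ≤ Qf c S R H 0 ω)) ≤
      E (fun ω => (G ω - E G) ^ 2) / (η / 2 * Q) ^ 2 := by
    apply Pr_le_div hpos (fun ω => sq_nonneg _)
    intro ω hω
    rw [not_le, hQ, div_lt_iff₀ hqc0] at hω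
    rw [le_div_iff₀ hqc0] at hEG2
    generalize G ω = g at *
    generalize E G = g' at *
    generalize H 0 0 = h0 at *
    have h1 : η / 2 * Q ≤ g' - g := by
      have e1 : (h0 - η / 2) * Q = h0 * Q - η / 2 * Q := by ring
      have e2 : (h0 - η) * Q = h0 * Q - 2 * (η / 2 * Q) := by ring
      rw [e1] at hEG2
      rw [e2] at hω
      linarith
    have h0 : 0 ≤ η / 2 * Q := by positivity
    have h2 : (η / 2 * Q) ^ 2 ≤ (g' - g) ^ 2 := pow_le_pow_left₀ h0 h1 2
    calc (η / 2 * Q) ^ 2 ≤ (g' - g) ^ 2 := h2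
      _ = (g - g') ^ 2 := by ring
  refine hch.trans ?_
  rw [div_le_iff₀ hpos]
  refine hv.trans ?_
  have f1 : (12 * C / q) ^ 2 * (P0 c S).card * n / 2 ≤ 72 * C ^ 2 * Q := by
    have : (12 * C / q) ^ 2 * (P0 c S).card * n / 2 = 72 * C ^ 2 * (P0 c S).card := by
      generalize ((P0 c S).card : ℝ) = z
      rw [hn]; field_simp; ring
    rw [this]
    exact mul_le_mul_of_nonneg_left p1 (by positivity)
  refine f1.trans ?_
  have f2 : 288 * C ^ 2 ≤ q * (η ^ 2 * δ) := by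
    rw [div_div, div_le_iff₀ (by positivity)] at n4
    exact n4
  have f3 : 288 * C ^ 2 ≤ Q * (η ^ 2 * δ) :=
    f2.trans (mul_le_mul_of_nonneg_right p3 (by positivity))
  have f4 := mul_le_mul_of_nonneg_right f3 hqc0.le
  have f5 : δ * (η / 2 * Q) ^ 2 = Q * (η ^ 2 * δ) * Q / 4 := by ring
  rw [f5]
  linarith

end Pool.Agent.H40.Peel
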