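import Pool.Agent.H40.Peel.Dyn
import Pool.Agent.H40.Peel.Ana

/-!
Statements of the limit theorems used in the assembly.
-/

namespace Pool.Agent.H40.Peel

open Finset Filter

/-- With high probability, uniformly in the planted set (of size `⌊√n⌋`) and the rule. -/
def WHP (P : ∀ n : ℕ, Finset (Fin n) → TieRule n → Om n → Prop) : Prop :=
  ∀ η : ℝ, 0 < η → ∀ᶠ n : ℕ in atTop, ∀ (S : Finset (Fin n)) (R : TieRule n),
    S.card = Nat.sqrt n → Pr (fun ω => ¬ P n S R ω) ≤ η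

/-- The planted (`c = true`) or nonplanted (`c = false`) vertices alive. -/
noncomputable def Pc (c : Bool) {n : ℕ} (S : Finset (Fin n)) (R : TieRule n) (t : ℕ) (ω : Om n) :
    Finset (Fin n) := if c = true then Ss S R t ω else Ns S R t ω

/-- The normalisation. -/
noncomputable def qc (c : Bool) (n : ℕ) : ℝ := if c = true then √(n : ℝ) else (n : ℝ)

/-- Empirical functional of the rescaled degrees at time `t`. The time variable of `H` is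
`n / |N_t|`. -/
noncomputable def Qf (c : Bool) {n : ℕ} (S : Finset (Fin n)) (R : TieRule n) (H : ℝ → ℝ → ℝ)
    (t : ℕ) (ω : Om n) : ℝ :=
  (∑ v ∈ Pc c S R t ω, H (n / rr S R t ω) (Mv S R t ω v)) / qc c n

/-- Contribution of the vertices removed in `[s, t)`. -/
noncomputable def Rem (c : Bool) {n : ℕ} (S : Finset (Fin n)) (R : TieRule n) (H : ℝ → ℝ → ℝ)
    (s t : ℕ) (ω : Om n) : ℝ :=
  (∑ j ∈ Finset.Ico s t, if uu S R j ω ∈ Pc c S R j ω then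
    H (n / rr S R j ω) (Mv S R j ω (uu S R j ω)) else 0) / qc c n

/-- Law of large numbers (one sided, for subcaloric test functions). -/
def LLNStmt : Prop :=
  ∀ (c : Bool) (H : ℝ → ℝ → ℝ) (Θ C : ℝ), 1 < Θ → Nice H Θ C → ∀ η : ℝ, 0 < η →
    WHP fun n S R ω => ∀ s t, s ≤ t → t ≤ n → (n : ℝ) ≤ Θ * rr S R t ω →
      Qf c S R H s ω - Rem c S R H s t ω - η ≤ Qf c S R H t ω

/-- Initial condition (one sided, for subcaloric test functions). -/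
def INITStmt : Prop :=
  ∀ (c : Bool) (H : ℝ → ℝ → ℝ) (Θ C : ℝ), 1 < Θ → Nice H Θ C → ∀ η : ℝ, 0 < η →
    WHP fun _ S R ω => H 0 0 - η ≤ Qf c S R H 0 ω

/-- The analytic certificate. -/
structure CertData (α β κ t0 : ℝ) (F : ℝ → ℝ → ℝ) (b : ℝ → ℝ) : Prop where
  α_pos : 0 < α
  β_pos : 0 < β
  κ_pos : 0 < κ
  one_lt : 1 < t0
  semigroup : ∀ s h x, 1 ≤ s → 0 < h → ∫ z, F s (x + √h * z) * ph z = F (s + h) x
  bdd : ∃ M, ∀ s ≥ 1, ∀ x, |F s x| ≤ M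
  lip : ∃ M, ∀ s ≥ 1, ∀ x y, |F s x - F s y| ≤ M * |x - y|
  b_mono : ∀ s t, t0 ≤ s → s ≤ t → b s - (t - s) ≤ b t
  initial : ∀ x, b t0 ≤ x → min (1 / t0) (Qh (x / √t0)) ≤ F t0 x
  surv : ∀ s ≥ 1, κ ≤ S2 α β s
  margins : ∀ Θ ≥ t0, ∃ μ > 0,
      (∀ s ∈ Set.Icc t0 Θ, 1 / s + μ ≤ F s (b s)) ∧
      ∀ s ∈ Set.Icc 1 Θ, ∃ x, x + μ ≤ s * S2 α β s - α - β * s ∧
        ((s ≤ t0 ∧ Qh (x / √s) ≤ 1 / s - μ) ∨ (t0 ≤ s ∧ b s ≤ x ∧ F s x ≤ 1 / s - μ))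

/-- Upper bound for the rescaled minimum degree. -/
def PA1Stmt (t0 : ℝ) (F : ℝ → ℝ → ℝ) (b : ℝ → ℝ) : Prop :=
  ∀ Θ ≥ 1, ∀ μ > 0, ∃ h > 0, ∀ s ∈ Set.Icc 1 Θ, ∀ x,
    ((s ≤ t0 ∧ Qh (x / √s) ≤ 1 / s - μ) ∨ (t0 ≤ s ∧ b s ≤ x ∧ F s x ≤ 1 / s - μ)) →
    WHP fun n S R ω => ∀ t ≤ n, s * rr S R t ω ≤ n → (n : ℝ) ≤ (s + h) * rr S R t ω →
      Bt S R t ω ≤ x

/-- Phase A: a positive fraction of the planted vertices is alive when `n / Θ` vertices are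
left. -/
def PAStmt : Prop :=
  ∃ κ > 0, ∀ Θ : ℝ, 1 ≤ Θ → WHP fun n S R ω =>
    κ * √(n : ℝ) ≤ ((Ss S R (n - ⌈(n : ℝ) / Θ⌉₊) ω).card : ℝ)

/-- Phases B, C, D. -/
def PBStmt : Prop :=
  ∀ κ > 0, ∀ ε > 0, ∃ Θ : ℝ, 1 ≤ Θ ∧ ∀ᶠ n : ℕ in atTop, ∀ (S : Finset (Fin n)) (R : TieRule n),
    S.card = Nat.sqrt n →
    Pr (fun ω => κ * √(n : ℝ) ≤ ((Ss S R (n - ⌈(n : ℝ) / Θ⌉₊) ω).card : ℝ) ∧
      ¬ ∃ v ∈ S, v ∈ terminal (Hg S ω) R) ≤ ε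

end Pool.Agent.H40.Peel
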