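import Pool.Agent.H40.Peel.LLN5

/-!
The law of large numbers.
-/

namespace Pool.Agent.H40.Peel

open Finset Filter

variable {n : ℕ} {S : Finset (Fin n)} {R : TieRule n}

variable {c : Bool} {Θ D : ℝ} {G : ℝ → ℝ → ℝ} {t : ℕ}

/-- The stopped sum process. -/
noncomputable def Zt (η : ℝ) (X : ℕ → Om n → ℝ) : ℕ → Om n → ℝ
  | 0, _ => 0
  | t + 1, ω => Zt η X t ω + if |Zt η X t ω| ≤ η then X t ω else 0

lemma Zt_succ (η : ℝ) (X : ℕ → Om n → ℝ) (t : ℕ) (ω : Om n) :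
    Zt η X (t + 1) ω = Zt η X t ω + if |Zt η X t ω| ≤ η then X t ω else 0 := rfl

lemma HM_Zt {η : ℝ} {X : ℕ → Om n → ℝ} (hX : ∀ t, HM S R (t + 1) (X t)) :
    ∀ t, HM S R t (Zt η X t) := by
  intro t
  induction t with
  | zero => exact fun _ _ _ => rfl
  | succ t ih =>
    intro ω ω' h
    have h1 : Zt η X t ω = Zt η X t ω' := ih.succ ω ω' h
    have h2 : X t ω = X t ω' := hX t ω ω' h
    rw [Zt_succ, Zt_succ, h1, h2]

lemma Zt_frozen {η : ℝ} {X : ℕ → Om n → ℝ} {s T : ℕ} {ω : Om n} (hsT : s ≤ T)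
    (h : η < |Zt η X s ω|) : Zt η X T ω = Zt η X s ω := by
  induction T, hsT using Nat.le_induction with
  | base => rfl
  | succ T _ ih =>
    rw [Zt_succ, ih, if_neg (not_le.2 h), add_zero]

lemma Zt_spec {η : ℝ} {X : ℕ → Om n → ℝ} {T : ℕ} {ω : Om n} (h : |Zt η X T ω| ≤ η) :
    ∀ t ≤ T, |Zt η X t ω| ≤ η ∧ Zt η X t ω = ∑ j ∈ range t, X j ω := by
  have h1 : ∀ t ≤ T, |Zt η X t ω| ≤ η := by
    intro t ht
    by_contra hcon
    push Not at hcon
    rw [Zt_frozen ht hcon] at h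
    linarith
  intro t
  induction t with
  | zero => intro _; exact ⟨h1 0 (Nat.zero_le _), by simp [Zt]⟩
  | succ t ih =>
    intro ht
    refine ⟨h1 _ ht, ?_⟩
    rw [Zt_succ, if_pos (h1 t (by omega)), Finset.sum_range_succ, (ih (by omega)).2]

/-- Second moment of the stopped process: one step. -/
lemma Zt_step (h : Rng D S R t) (hw : WB D Θ G) {η : ℝ} (hη : 0 ≤ η) (hη1 : η ≤ 1)
    (X : ℕ → Om n → ℝ) (hX : ∀ t, X t = XtL c Θ G S R t) :
    E (fun ω => Zt η X (t + 1) ω ^ 2) ≤ E (fun ω => Zt η X t ω ^ 2) +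
      20000 * D ^ 9 / zr n ^ 9 * Rr S R t := by
  have hD := h.hD
  have hD0 : 0 < D := by linarith
  have hn1 := h.n1
  have hn0 : (0:ℝ) < n := by linarith
  have hz1 := h.z1
  have hz0 : 0 < zr n := by linarith
  have hy1 := y1 h c
  have hy0 : 0 < yr c n := by linarith
  have hs0 : 0 < √(n : ℝ) := Real.sqrt_pos.2 hn0
  have hk := h.hk
  have hk0 : (0:ℝ) ≤ S.card := Nat.cast_nonneg _
  have hrh : ∀ ω, ((n - t : ℕ) : ℝ) / 2 + 1 ≤ rr S R t ω := fun ω => rr_half h.ht.le h.hk ω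
  have hR := one_le_Rr (S := S) (R := R) t
  have hq0 : 0 < qc c n := by rw [← yr_sq]; positivity
  -- the coefficient
  set cf : Om n → ℝ := fun ω => -(√(n : ℝ) / (rr S R t ω - 1)) / qc c n with hcf
  have hcfb : ∀ ω, |cf ω| ≤ 2 * D / (zr n ^ 4 * yr c n ^ 2) := by
    intro ω
    have hr := hrh ω
    have hr1 : 0 < rr S R t ω - 1 := by linarith
    simp only [hcf]
    rw [abs_div, abs_neg, abs_div, abs_of_pos hs0, abs_of_pos hr1, abs_of_pos hq0, ← yr_sq,
      zr_pow4]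
    have h1 : √(n : ℝ) / (rr S R t ω - 1) ≤ 2 * D / √(n : ℝ) := by
      rw [div_le_div_iff₀ hr1 hs0, Real.mul_self_sqrt hn0.le]
      calc (n : ℝ) ≤ D * ((n - t : ℕ) : ℝ) := h.hm
        _ ≤ D * (2 * (rr S R t ω - 1)) := mul_le_mul_of_nonneg_left (by linarith) hD0.le
        _ = _ := by ring
    calc √(n : ℝ) / (rr S R t ω - 1) / yr c n ^ 2 ≤ 2 * D / √(n : ℝ) / yr c n ^ 2 :=
          div_le_div_of_nonneg_right h1 (by positivity)
      _ = _ := by rw [div_div]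
  have hXM : ∀ t, HM S R (t + 1) (X t) := fun t => by rw [hX t]; exact HM_XtL t
  set Z := Zt η X t with hZ
  have hZM : HM S R t Z := HM_Zt hXM t
  set F : Om n → ℝ := fun ω => (if |Z ω| ≤ η then Z ω else 0) * cf ω with hF
  have hFM : HM S R t F := by
    intro ω ω' hh
    simp only [hF, hcf]
    rw [hZM ω ω' hh, HM_rr t ω ω' hh]
  have hFb : ∀ ω, |F ω| ≤ η * (2 * D / (zr n ^ 4 * yr c n ^ 2)) := by
    intro ω
    simp only [hF]
    rw [abs_mul]
    apply mul_le_mul _ (hcfb ω) (abs_nonneg _) hη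
    split_ifs with hc
    · exact hc
    · rw [abs_zero]; exact hη
  have hXe : ∀ ω, X t ω = if uu S R t ω ∈ S then 0 else cf ω *
      Xw S R t ω (wL c Θ G S R t ω) := by
    intro ω
    rw [hX t]
    exact XtL_eq h.ht (by have := hrh ω; linarith)
  have hpt : ∀ ω, Zt η X (t + 1) ω ^ 2 ≤ Z ω ^ 2 +
      2 * (if uu S R t ω ∈ S then 0 else F ω * Xw S R t ω (wL c Θ G S R t ω)) +
      (2 * D / (zr n ^ 4 * yr c n ^ 2)) ^ 2 *
        (if uu S R t ω ∈ S then 0 else Xw S R t ω (wL c Θ G S R t ω) ^ 2) := by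
    intro ω
    rw [Zt_succ, ← hZ, hXe ω]
    by_cases hu : uu S R t ω ∈ S
    · simp only [if_pos hu]
      split_ifs <;> simp
    · simp only [if_neg hu]
      have h2 : (cf ω * Xw S R t ω (wL c Θ G S R t ω)) ^ 2 ≤
          (2 * D / (zr n ^ 4 * yr c n ^ 2)) ^ 2 * Xw S R t ω (wL c Θ G S R t ω) ^ 2 := by
        rw [mul_pow, ← sq_abs (cf ω)]
        exact mul_le_mul_of_nonneg_right (pow_le_pow_left₀ (abs_nonneg _) (hcfb ω) 2)
          (sq_nonneg _)
      by_cases hc : |Z ω| ≤ η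
      · simp only [hF, if_pos hc]
        nlinarith
      · simp only [hF, if_neg hc]
        have : 0 ≤ (2 * D / (zr n ^ 4 * yr c n ^ 2)) ^ 2 *
          Xw S R t ω (wL c Θ G S R t ω) ^ 2 := by positivity
        simp only [add_zero, zero_mul, mul_zero]
        linarith
  have h1 := E_mono hpt
  rw [E_add, E_add, E_mul_left, E_mul_left] at h1
  have hcr := eCross (c := c) h hw hFM (φ := η * (2 * D / (zr n ^ 4 * yr c n ^ 2)))
    (by positivity) hFb
  have hX2 := eX2 (c := c) h hw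
  have hcr' := (abs_le.1 hcr).2
  have e1 : 1115 * D ^ 8 * (yr c n ^ 2 / zr n ^ 5) * Rr S R t *
      (η * (2 * D / (zr n ^ 4 * yr c n ^ 2))) = 2230 * D ^ 9 / zr n ^ 9 * Rr S R t * η := by
    field_simp
    ring
  rw [e1] at hcr'
  have a1 : 2230 * D ^ 9 / zr n ^ 9 * Rr S R t * η ≤ 2230 * D ^ 9 / zr n ^ 9 * Rr S R t :=
    mul_le_of_le_one_right (by positivity) hη1
  have a2 : (2 * D / (zr n ^ 4 * yr c n ^ 2)) ^ 2 *
      E (fun ω => if uu S R t ω ∈ S then 0 else Xw S R t ω (wL c Θ G S R t ω) ^ 2) ≤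
      8672 * D ^ 9 / zr n ^ 9 * Rr S R t := by
    have hylo := yr_lo hn1 c
    have hz2 : zr n ≤ zr n ^ 2 := le_self_pow₀ hz1 (by norm_num)
    have hD89 : D ^ 8 ≤ D ^ 9 := pow_le_pow_right₀ hD (by norm_num)
    calc _ ≤ (2 * D / (zr n ^ 4 * yr c n ^ 2)) ^ 2 * (2168 * D ^ 6 * yr c n ^ 3 * Rr S R t) :=
          mul_le_mul_of_nonneg_left hX2 (by positivity)
      _ = 8672 * D ^ 8 / (zr n ^ 8 * yr c n) * Rr S R t := by field_simp; ring
      _ ≤ 8672 * D ^ 9 / zr n ^ 9 * Rr S R t := by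
          apply mul_le_mul_of_nonneg_right _ (by linarith)
          apply div_le_div₀ (by positivity) (by linarith) (by positivity)
          calc zr n ^ 9 = zr n ^ 8 * zr n := by ring
            _ ≤ zr n ^ 8 * yr c n := mul_le_mul_of_nonneg_left (by linarith) (by positivity)
  have e3 : 20000 * D ^ 9 / zr n ^ 9 * Rr S R t =
      2 * (2230 * D ^ 9 / zr n ^ 9 * Rr S R t) + 8672 * D ^ 9 / zr n ^ 9 * Rr S R t +
      6868 * (D ^ 9 / zr n ^ 9 * Rr S R t) := by ring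
  have a4 : 0 ≤ D ^ 9 / zr n ^ 9 * Rr S R t := by positivity
  rw [e3]
  have e4 : E (fun ω => Z ω ^ 2) = E (fun ω => Zt η X t ω ^ 2) := rfl
  rw [e4] at h1
  linarith

lemma Zt_bd {T : ℕ} (h : Ph1 D S R T) (hw : WB D Θ G) {η : ℝ} (hη : 0 ≤ η) (hη1 : η ≤ 1)
    (X : ℕ → Om n → ℝ) (hX : ∀ t, X t = XtL c Θ G S R t) :
    E (fun ω => Zt η X T ω ^ 2) ≤ 180000 * D ^ 10 / zr n := by
  have hD := h.hD
  have hn1 := h.n1
  have hz1 := h.z1
  have hz0 : 0 < zr n := by linarith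
  have key : ∀ t ≤ T, E (fun ω => Zt η X t ω ^ 2) ≤
      20000 * D ^ 9 / zr n ^ 9 * ∑ j ∈ range t, Rr S R j := by
    intro t
    induction t with
    | zero => intro _; simp [Zt, E_const]
    | succ t ih =>
      intro ht
      have ih := ih (by omega)
      have := Zt_step (c := c) (h.rng t (by omega)) hw hη hη1 X hX
      rw [Finset.sum_range_succ, mul_add]
      linarith
  refine (key T le_rfl).trans ?_
  have h1 := h.RrSum
  have hz8 := zr_pow8 n
  calc _ ≤ 20000 * D ^ 9 / zr n ^ 9 * (9 * D * n) := mul_le_mul_of_nonneg_left h1 (by positivity)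
    _ = _ := by rw [← hz8]; field_simp; norm_num

/-- The law of large numbers. -/
theorem lln : LLNStmt := by
  intro c H Θ C₀ hΘ1 hNice η₀ hη₀ ε hε
  obtain ⟨H1, H2, Ht, hb, hexp⟩ := hNice
  obtain ⟨C, hC, hGood⟩ := good_prob
  have hΘ : 0 < Θ := by linarith
  have hC₀ : 0 ≤ C₀ := le_trans (abs_nonneg _) (hb 0 0 le_rfl hΘ.le).1
  obtain ⟨D, hDdef⟩ : ∃ D, D = max C (max C₀ Θ) := ⟨_, rfl⟩
  have hCD : C ≤ D := by rw [hDdef]; exact le_max_left _ _
  have hC₀D : C₀ ≤ D := by rw [hDdef]; exact (le_max_left _ _).trans (le_max_right _ _)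
  have hΘD : Θ ≤ D := by rw [hDdef]; exact (le_max_right _ _).trans (le_max_right _ _)
  have hD : 1 ≤ D := hC.trans hCD
  have hD0 : 0 < D := by linarith
  obtain ⟨η, hηdef⟩ : ∃ η, η = min (η₀ / 4) 1 := ⟨_, rfl⟩
  have hη : 0 < η := by rw [hηdef]; positivity
  have hη1 : η ≤ 1 := by rw [hηdef]; exact min_le_right _ _
  have hηη : η ≤ η₀ / 4 := by rw [hηdef]; exact min_le_left _ _
  have hcast : Tendsto (fun n : ℕ => (n : ℝ)) atTop atTop := tendsto_natCast_atTop_atTop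
  have hzr : Tendsto (fun n : ℕ => zr n) atTop atTop := by
    have h1 : Tendsto (fun x : ℝ => √(√(√x))) atTop atTop :=
      (Real.tendsto_sqrt_atTop.comp Real.tendsto_sqrt_atTop).comp Real.tendsto_sqrt_atTop
    exact h1.comp hcast
  have ev1 : ∀ᶠ n : ℕ in atTop, (n : ℝ) ^ (2 / 5 : ℝ) ≤ n / Θ := by
    have h1 : ∀ᶠ x : ℝ in atTop, x ^ (2 / 5 : ℝ) ≤ x / Θ := by
      have h2 : ∀ᶠ x : ℝ in atTop, Θ ≤ x ^ (3 / 5 : ℝ) :=
        (tendsto_rpow_atTop (by norm_num)).eventually_ge_atTop Θ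
      filter_upwards [h2, eventually_ge_atTop 1] with x hx hx1
      rw [le_div_iff₀ (by linarith)]
      calc x ^ (2 / 5 : ℝ) * Θ ≤ x ^ (2 / 5 : ℝ) * x ^ (3 / 5 : ℝ) :=
            mul_le_mul_of_nonneg_left hx (Real.rpow_nonneg (by linarith) _)
        _ = x := by
            rw [← Real.rpow_add (by linarith)]; norm_num
    exact hcast.eventually h1
  have ev2 : ∀ᶠ n : ℕ in atTop, 4 * (D * √(n : ℝ)) + 2 * (√(n : ℝ) + 1) ≤ n / Θ := by
    have h1 : ∀ᶠ x : ℝ in atTop, 4 * (D * √x) + 2 * (√x + 1) ≤ x / Θ := by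
      have h2 : ∀ᶠ x : ℝ in atTop, Θ * (4 * D + 4) ≤ √x :=
        Real.tendsto_sqrt_atTop.eventually_ge_atTop _
      filter_upwards [h2, eventually_ge_atTop 1] with x hx hx1
      rw [le_div_iff₀ hΘ]
      have h3 : 1 ≤ √x := Real.one_le_sqrt.2 hx1
      have h4 : √x * √x = x := Real.mul_self_sqrt (by linarith)
      have h5 : 4 * (D * √x) + 2 * (√x + 1) ≤ (4 * D + 4) * √x := by linarith
      calc (4 * (D * √x) + 2 * (√x + 1)) * Θ ≤ ((4 * D + 4) * √x) * Θ :=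
            mul_le_mul_of_nonneg_right h5 hΘ.le
        _ = (Θ * (4 * D + 4)) * √x := by ring
        _ ≤ √x * √x := mul_le_mul_of_nonneg_right hx (Real.sqrt_nonneg _)
        _ = x := h4
    exact hcast.eventually h1
  have ev3 : ∀ᶠ n : ℕ in atTop, 7 * D ^ 2 ≤ √(n : ℝ) :=
    hcast.eventually (Real.tendsto_sqrt_atTop.eventually_ge_atTop _)
  have ev4 : ∀ᶠ n : ℕ in atTop, 20000000000 * D ^ 14 * (2 / η₀ + 1) * (4 / ε) ≤ zr n :=
    hzr.eventually_ge_atTop _
  have ev5 : ∀ᶠ n : ℕ in atTop, 180000 * D ^ 10 / η ^ 2 * (4 / ε) ≤ zr n :=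
    hzr.eventually_ge_atTop _
  have ev6 : ∀ᶠ n : ℕ in atTop, Θ / (Θ - 1) ≤ n := hcast.eventually_ge_atTop _
  filter_upwards [hGood, ev1, ev2, ev3, ev4, ev5, ev6, hcast.eventually_ge_atTop 552] with
    n hG h1 h2 h3 h4 h5 h6 h7 S R hS
  have hn1 : (1:ℝ) ≤ n := by linarith
  have hn0 : (0:ℝ) < n := by linarith
  have hkn : (S.card : ℝ) ≤ √(n : ℝ) := by
    rw [hS]; exact Real.nat_sqrt_le_real_sqrt
  have hz1 : 1 ≤ zr n := one_le_zr hn1
  have hz0 : 0 < zr n := by linarith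
  -- enlarge the constant
  have hGD : Pr (fun ω : Om n => ¬ Good D ω) ≤ 1 / (n : ℝ) ^ 20 := by
    refine (Pr_mono fun ω hω hg => hω ?_).trans hG
    intro A hA
    apply (hg A hA).weaken
    have : 0 ≤ (n : ℝ) ^ (1 / 16 : ℝ) := Real.rpow_nonneg hn0.le _
    have : 0 ≤ (A.card : ℝ) ^ (7 / 16 : ℝ) := Real.rpow_nonneg (Nat.cast_nonneg _) _
    apply mul_le_mul_of_nonneg_right _ this
    exact mul_le_mul_of_nonneg_right hCD ‹_›
  set Q := ⌈(n : ℝ) / Θ⌉₊ with hQ
  have hQge : (n : ℝ) / Θ ≤ Q := Nat.le_ceil _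
  have hQ1 : 1 ≤ Q := by
    have : (0:ℝ) < Q := lt_of_lt_of_le (by positivity) hQge
    exact_mod_cast this
  have hQn : Q < n := by
    have a1 : (Q : ℝ) < n / Θ + 1 := Nat.ceil_lt_add_one (by positivity)
    have hh : (n : ℝ) / Θ + 1 ≤ n := by
      have b1 : (n : ℝ) / Θ ≤ n - 1 := by
        rw [div_le_iff₀ hΘ]
        have b2 : 0 < Θ - 1 := by linarith
        rw [div_le_iff₀ b2] at h6
        linarith
      linarith
    have : (Q : ℝ) < n := by linarith
    exact_mod_cast this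
  obtain ⟨T, hTdef⟩ : ∃ T, T = n - Q := ⟨_, rfl⟩
  have eT : n - T = Q := by omega
  have hs0 : 0 ≤ √(n : ℝ) := Real.sqrt_nonneg _
  have hDs0 : 0 ≤ 4 * (D * √(n : ℝ)) := by positivity
  have hPh : Ph1 D S R T := by
    refine ⟨by omega, by omega, ?_, ?_, ?_, hGD, h7⟩
    · intro t ht
      have hmt : ((n - T : ℕ) : ℝ) ≤ ((n - t : ℕ) : ℝ) := m_anti ht.le
      rw [eT] at hmt
      have hm1 : (n : ℝ) / Θ ≤ ((n - t : ℕ) : ℝ) := hQge.trans hmt
      refine ⟨hD, by omega, hkn, by linarith, ?_, by linarith, ?_⟩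
      · rw [div_le_iff₀ hΘ] at hm1
        refine hm1.trans ?_
        rw [mul_comm]
        exact mul_le_mul_of_nonneg_right hΘD (Nat.cast_nonneg _)
      · have hP : Pr (fun ω => ¬ OpB ω (As S R t ω) (D * √(n : ℝ))) ≤ 1 / (n : ℝ) ^ 20 := by
          refine (Pr_mono fun ω hω hg => hω ?_).trans hGD
          exact (hg.op hD (by omega) (h1.trans hm1)).weaken (bet_le hD t)
        calc (n : ℝ) ^ 10 * Pr (fun ω => ¬ OpB ω (As S R t ω) (D * √(n : ℝ))) ≤
              (n : ℝ) ^ 10 * (1 / (n : ℝ) ^ 20) := mul_le_mul_of_nonneg_left hP (by positivity)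
          _ = 1 / (n : ℝ) ^ 10 := by field_simp
          _ ≤ 1 := by
              rw [div_le_one (by positivity)]
              exact one_le_pow₀ hn1
    · rw [eT]; linarith
    · rw [eT]; linarith
  have hWB : WB D Θ H1 := ⟨hΘ, fun s y hs0 hs1 => ((hb s y hs0 hs1).2.1).trans hC₀D⟩
  obtain ⟨X, hX⟩ : ∃ X : ℕ → Om n → ℝ, ∀ t, X t = XtL c Θ H1 S R t :=
    ⟨fun t => XtL c Θ H1 S R t, fun _ => rfl⟩
  have hZb := Zt_bd (c := c) hPh hWB hη.le hη1 X hX
  have hErb := hPh.ErSum hWB c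
  have hEr0 : ∀ t ω, 0 ≤ ErL c Θ D H1 S R t ω := by
    intro t ω
    have := iot_nonneg c
    have := qc_nonneg c n
    have : 0 ≤ ∑ v ∈ Pc c S R (t + 1) ω, |pv S R t ω v| :=
      Finset.sum_nonneg fun _ _ => abs_nonneg _
    unfold ErL
    split_ifs <;> positivity
  have hincl : Pr (fun ω => ¬ ∀ s t, s ≤ t → t ≤ n → (n : ℝ) ≤ Θ * rr S R t ω →
      Qf c S R H s ω - Rem c S R H s t ω - η₀ ≤ Qf c S R H t ω) ≤
      Pr (fun ω => η ^ 2 ≤ Zt η X T ω ^ 2 ∨
        η₀ / 2 ≤ ∑ t ∈ range T, ErL c Θ D H1 S R t ω) := by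
    apply Pr_mono
    intro ω hω
    by_contra hcon
    push Not at hcon
    obtain ⟨c1, c2⟩ := hcon
    apply hω
    have hZT : |Zt η X T ω| ≤ η := by
      rw [← sq_abs] at c1
      by_contra hcc
      push Not at hcc
      have := pow_le_pow_left₀ hη.le hcc.le 2
      linarith
    have hspec := Zt_spec hZT
    intro s t hst htn hact
    have htT : t ≤ T := by
      have a1 := rr_le (S := S) (R := R) htn ω
      have a2 : (n : ℝ) / Θ ≤ ((n - t : ℕ) : ℝ) := by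
        rw [div_le_iff₀ hΘ]
        calc (n : ℝ) ≤ Θ * rr S R t ω := hact
          _ ≤ Θ * ((n - t : ℕ) : ℝ) := mul_le_mul_of_nonneg_left a1 hΘ.le
          _ = _ := by ring
      have a3 : Q ≤ n - t := by rw [hQ, Nat.ceil_le]; exact a2
      omega
    have key : ∀ j, s ≤ j → j ≤ t → Qf c S R H s ω - Rem c S R H s j ω +
        ∑ i ∈ Ico s j, X i ω - ∑ i ∈ Ico s j, ErL c Θ D H1 S R i ω ≤ Qf c S R H j ω := by
      intro j hj
      induction j, hj using Nat.le_induction with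
      | base => intro _; simp [Rem]
      | succ j hj ih =>
        intro hjt
        have ih := ih (by omega)
        have hjT : j < T := by omega
        have hRj := hPh.rng j hjT
        have hactj : (n : ℝ) ≤ Θ * rr S R (j + 1) ω :=
          hact.trans (mul_le_mul_of_nonneg_left (rr_anti hjt ω) hΘ.le)
        have hone := one_step (c := c) hD hΘ hΘD hC₀ hC₀D h3 hb hexp hRj.ht hRj.hk hkn hactj
        rw [← hX j] at hone
        have hRem : Rem c S R H s (j + 1) ω = Rem c S R H s j ω +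
            (if uu S R j ω ∈ Pc c S R j ω then
              H (n / rr S R j ω) (Mv S R j ω (uu S R j ω)) else 0) / qc c n := by
          unfold Rem
          rw [Finset.sum_Ico_succ_top hj, add_div]
        rw [hRem, Finset.sum_Ico_succ_top hj, Finset.sum_Ico_succ_top hj]
        linarith
    have hk := key t hst le_rfl
    have hXs : ∑ i ∈ Ico s t, X i ω = Zt η X t ω - Zt η X s ω := by
      rw [(hspec t htT).2, (hspec s (by omega)).2, Finset.sum_Ico_eq_sub _ hst]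
    have hZt := (abs_le.1 (hspec t htT).1).1
    have hZs := (abs_le.1 (hspec s (by omega)).1).2
    have hErs : ∑ i ∈ Ico s t, ErL c Θ D H1 S R i ω ≤ ∑ t ∈ range T, ErL c Θ D H1 S R t ω := by
      apply Finset.sum_le_sum_of_subset_of_nonneg
      · intro i hi
        rw [Finset.mem_Ico] at hi
        rw [Finset.mem_range]; omega
      · intro i _ _
        exact hEr0 i ω
    rw [hXs] at hk
    linarith
  refine hincl.trans ((Pr_or_le _ _).trans ?_)
  have hp1 : Pr (fun ω => η ^ 2 ≤ Zt η X T ω ^ 2) ≤ ε / 4 := by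
    refine (Pr_le_div (f := fun ω => Zt η X T ω ^ 2) (c := η ^ 2) (by positivity)
      (fun ω => sq_nonneg _) (fun ω h => h)).trans ?_
    rw [div_le_iff₀ (by positivity)]
    refine hZb.trans ?_
    rw [div_le_iff₀ hz0]
    have e : 180000 * D ^ 10 / η ^ 2 * (4 / ε) * (ε / 4 * η ^ 2) = 180000 * D ^ 10 := by
      field_simp
    calc 180000 * D ^ 10 = 180000 * D ^ 10 / η ^ 2 * (4 / ε) * (ε / 4 * η ^ 2) := e.symm
      _ ≤ zr n * (ε / 4 * η ^ 2) := mul_le_mul_of_nonneg_right h5 (by positivity)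
      _ = _ := by ring
  have hp2 : Pr (fun ω => η₀ / 2 ≤ ∑ t ∈ range T, ErL c Θ D H1 S R t ω) ≤ ε / 4 := by
    refine (Pr_le_div (f := fun ω => ∑ t ∈ range T, ErL c Θ D H1 S R t ω) (c := η₀ / 2)
      (by positivity) (fun ω => Finset.sum_nonneg fun t _ => hEr0 t ω) (fun ω h => h)).trans ?_
    rw [div_le_iff₀ (by positivity), E_sum]
    refine hErb.trans ?_
    rw [div_le_iff₀ hz0]
    have e : 20000000000 * D ^ 14 * (2 / η₀) * (4 / ε) * (ε / 4 * (η₀ / 2)) =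
        20000000000 * D ^ 14 := by
      field_simp
    have h4' : 20000000000 * D ^ 14 * (2 / η₀) * (4 / ε) ≤ zr n := by
      refine le_trans ?_ h4
      apply mul_le_mul_of_nonneg_right _ (by positivity)
      exact mul_le_mul_of_nonneg_left (by linarith) (by positivity)
    calc 20000000000 * D ^ 14 = 20000000000 * D ^ 14 * (2 / η₀) * (4 / ε) *
          (ε / 4 * (η₀ / 2)) := e.symm
      _ ≤ zr n * (ε / 4 * (η₀ / 2)) := mul_le_mul_of_nonneg_right h4' (by positivity)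
      _ = _ := by ring
  linarith

end Pool.Agent.H40.Peel
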