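import Pool.Agent.H40.Peel.PhaseB

/-!
Law of large numbers, part 1: weights and pointwise bounds.
-/

namespace Pool.Agent.H40.Peel

open Finset Filter

/-! ### Scales -/

/-- `n^{1/8}`. -/
noncomputable def zr (n : ℕ) : ℝ := √(√(√(n : ℝ)))

lemma zr_nonneg (n : ℕ) : 0 ≤ zr n := Real.sqrt_nonneg _

lemma zr_pow4 (n : ℕ) : zr n ^ 4 = √(n : ℝ) := by
  unfold zr
  have h : √(√(√(n : ℝ))) ^ 4 = ((√(√(√(n : ℝ)))) ^ 2) ^ 2 := by ring
  rw [h, Real.sq_sqrt (Real.sqrt_nonneg _), Real.sq_sqrt (Real.sqrt_nonneg _)]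

lemma zr_pow2 (n : ℕ) : zr n ^ 2 = √(√(n : ℝ)) := by
  unfold zr
  rw [Real.sq_sqrt (Real.sqrt_nonneg _)]

lemma zr_pow8 (n : ℕ) : zr n ^ 8 = n := by
  have h : zr n ^ 8 = (zr n ^ 4) ^ 2 := by ring
  rw [h, zr_pow4, Real.sq_sqrt (Nat.cast_nonneg _)]

lemma one_le_zr {n : ℕ} (h : (1:ℝ) ≤ n) : 1 ≤ zr n := by
  unfold zr
  exact Real.one_le_sqrt.2 (Real.one_le_sqrt.2 (Real.one_le_sqrt.2 h))

/-- Square root of the normalisation. -/
noncomputable def yr (c : Bool) (n : ℕ) : ℝ := √(qc c n)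

lemma qc_nonneg (c : Bool) (n : ℕ) : 0 ≤ qc c n := by
  unfold qc; split_ifs
  · exact Real.sqrt_nonneg _
  · exact Nat.cast_nonneg _

lemma yr_sq (c : Bool) (n : ℕ) : yr c n ^ 2 = qc c n := Real.sq_sqrt (qc_nonneg c n)

lemma yr_true (n : ℕ) : yr true n = zr n ^ 2 := by rw [zr_pow2]; simp [yr, qc]

lemma yr_false (n : ℕ) : yr false n = zr n ^ 4 := by rw [zr_pow4]; simp [yr, qc]

lemma yr_lo {n : ℕ} (h : (1:ℝ) ≤ n) (c : Bool) : zr n ^ 2 ≤ yr c n := by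
  cases c
  · rw [yr_false]; exact pow_le_pow_right₀ (one_le_zr h) (by norm_num)
  · rw [yr_true]

lemma yr_hi {n : ℕ} (h : (1:ℝ) ≤ n) (c : Bool) : yr c n ≤ zr n ^ 4 := by
  cases c
  · rw [yr_false]
  · rw [yr_true]; exact pow_le_pow_right₀ (one_le_zr h) (by norm_num)

/-- Indicator of the nonplanted functional. -/
noncomputable def iot (c : Bool) : ℝ := if c = true then 0 else 1

lemma iot_nonneg (c : Bool) : 0 ≤ iot c := by unfold iot; split_ifs <;> norm_num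

lemma iot_le {n : ℕ} (h : (1:ℝ) ≤ n) (c : Bool) : iot c * zr n ^ 3 ≤ yr c n := by
  cases c
  · rw [yr_false]
    have : iot false = 1 := by simp [iot]
    rw [this, one_mul]
    exact pow_le_pow_right₀ (one_le_zr h) (by norm_num)
  · have : iot true = 0 := by simp [iot]
    rw [this, zero_mul]
    exact Real.sqrt_nonneg _

variable {n : ℕ} {S : Finset (Fin n)} {R : TieRule n}

/-! ### The vertex classes -/

lemma Pc_sub (c : Bool) (t : ℕ) (ω : Om n) : Pc c S R t ω ⊆ As S R t ω := by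
  unfold Pc; split_ifs
  · exact Ss_sub_As t ω
  · exact Ns_sub_As t ω

lemma Pc_succ (c : Bool) (t : ℕ) (ω : Om n) :
    Pc c S R (t + 1) ω = (Pc c S R t ω).erase (uu S R t ω) := by
  unfold Pc Ss Ns
  split_ifs
  · ext v; simp only [As_succ, Finset.mem_inter, Finset.mem_erase]; tauto
  · ext v; simp only [As_succ, Finset.mem_sdiff, Finset.mem_erase]; tauto

lemma card_Pc_le (hkn : (S.card : ℝ) ≤ √(n : ℝ)) (c : Bool) (t : ℕ) (ω : Om n) :
    ((Pc c S R t ω).card : ℝ) ≤ yr c n ^ 2 := by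
  rw [yr_sq]
  unfold Pc qc; split_ifs
  · refine le_trans ?_ hkn
    exact_mod_cast card_Ss_le S R t ω
  · exact_mod_cast (Finset.card_le_univ _).trans_eq (Fintype.card_fin n)

lemma HM_Pc (c : Bool) (t : ℕ) : HM S R t (Pc c S R t) := by
  unfold Pc
  intro ω ω' h
  simp only
  rw [HM_Ss t ω ω' h, HM_Ns t ω ω' h]

lemma HM_As_succ (t : ℕ) : HM S R t (As S R (t + 1)) := by
  intro ω ω' h
  rw [As_succ, As_succ, HM_As t ω ω' h, HM_uu t ω ω' h]

lemma HM_rr_succ (t : ℕ) : HM S R t (rr S R (t + 1)) := by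
  intro ω ω' h
  unfold rr Ns
  rw [HM_As_succ t ω ω' h]

lemma HM_Pc_succ (c : Bool) (t : ℕ) : HM S R t (Pc c S R (t + 1)) := by
  intro ω ω' h
  rw [Pc_succ, Pc_succ, HM_Pc c t ω ω' h, HM_uu t ω ω' h]

/-- Generic weights. -/
noncomputable def wL (c : Bool) (Θ : ℝ) (G : ℝ → ℝ → ℝ) (S : Finset (Fin n)) (R : TieRule n)
    (t : ℕ) (ω : Om n) (v : Fin n) : ℝ :=
  open Classical in
  if (n : ℝ) ≤ Θ * rr S R (t + 1) ω ∧ v ∈ Pc c S R (t + 1) ω then
    G (n / rr S R t ω) (Mv S R t ω v) else 0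

variable {c : Bool} {Θ : ℝ} {G : ℝ → ℝ → ℝ}

lemma HM_wL (t : ℕ) : HM S R t (wL c Θ G S R t) := by
  intro ω ω' h
  funext v
  unfold wL
  rw [HM_rr_succ t ω ω' h, HM_Pc_succ c t ω ω' h, HM_rr t ω ω' h, HM_Mv t ω ω' h]

lemma mem_Pc_succ_As {t : ℕ} {ω : Om n} {v : Fin n} (h : v ∈ Pc c S R (t + 1) ω) :
    v ∈ As S R t ω ∧ v ≠ uu S R t ω := by
  rw [Pc_succ, Finset.mem_erase] at h
  exact ⟨Pc_sub c t ω h.2, h.1⟩

lemma SupA_wL (t : ℕ) : SupA S R t (wL c Θ G S R t) := by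
  intro ω v h
  unfold wL at h
  split_ifs at h with hc
  · exact mem_Pc_succ_As hc.2
  · exact absurd rfl h

lemma Sup_wL (t : ℕ) : Sup S R t (wL false Θ G S R t) := by
  intro ω v h
  unfold wL at h
  split_ifs at h with hc
  · refine ⟨(mem_Pc_succ_As hc.2).1, (mem_Pc_succ_As hc.2).2, fun _ => ?_⟩
    have h1 := hc.2
    simp only [Pc] at h1
    exact ((mem_Ns S R).1 h1).2
  · exact absurd rfl h

lemma rr_anti {s t : ℕ} (h : s ≤ t) (ω : Om n) : rr S R t ω ≤ rr S R s ω := by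
  unfold rr; exact_mod_cast Finset.card_le_card (Ns_anti S R h ω)

/-- The time variable lies in the allowed range. -/
lemma tau_le {t : ℕ} {ω : Om n} (hn : (1:ℝ) ≤ n) (hΘ : 0 < Θ)
    (h : (n : ℝ) ≤ Θ * rr S R (t + 1) ω) :
    0 ≤ n / rr S R t ω ∧ n / rr S R t ω ≤ Θ := by
  have h1 := rr_anti (S := S) (R := R) (Nat.le_succ t) ω
  have h2 : 0 < rr S R (t + 1) ω := by
    by_contra hcon
    push Not at hcon
    nlinarith
  have h3 : 0 < rr S R t ω := by linarith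
  refine ⟨by positivity, ?_⟩
  rw [div_le_iff₀ h3]
  exact h.trans (mul_le_mul_of_nonneg_left h1 hΘ.le)

lemma abs_wL_le {D : ℝ} (hn : (1:ℝ) ≤ n) (hΘ : 0 < Θ) (hD : 0 ≤ D)
    (hG : ∀ s y, 0 ≤ s → s ≤ Θ → |G s y| ≤ D) (t : ℕ) (ω : Om n) (v : Fin n) :
    |wL c Θ G S R t ω v| ≤ if v ∈ Pc c S R (t + 1) ω then D else 0 := by
  unfold wL
  by_cases h : (n : ℝ) ≤ Θ * rr S R (t + 1) ω ∧ v ∈ Pc c S R (t + 1) ω
  · rw [if_pos h, if_pos h.2]
    have := tau_le hn hΘ h.1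
    exact hG _ _ this.1 this.2
  · rw [if_neg h, abs_zero]
    split_ifs <;> linarith

section Wbounds

variable {D : ℝ} (hn : (1:ℝ) ≤ n) (hΘ : 0 < Θ) (hD : 0 ≤ D)
  (hG : ∀ s y, 0 ≤ s → s ≤ Θ → |G s y| ≤ D) (hkn : (S.card : ℝ) ≤ √(n : ℝ))

include hn hΘ hD hG hkn

lemma sum_abs_wL_le (t : ℕ) (ω : Om n) :
    ∑ v ∈ As S R t ω, |wL c Θ G S R t ω v| ≤ D * yr c n ^ 2 := by
  refine (Finset.sum_le_sum fun v _ => abs_wL_le hn hΘ hD hG t ω v).trans ?_
  rw [← Finset.sum_filter, Finset.sum_const, nsmul_eq_mul, mul_comm]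
  apply mul_le_mul_of_nonneg_left _ hD
  refine le_trans ?_ (card_Pc_le (R := R) hkn c (t + 1) ω)
  exact_mod_cast Finset.card_le_card fun v hv => (Finset.mem_filter.1 hv).2

lemma nrm_wL_le (t : ℕ) (ω : Om n) : nrm (As S R t ω) (wL c Θ G S R t ω) ≤ D * yr c n := by
  have hy : 0 ≤ yr c n := Real.sqrt_nonneg _
  unfold nrm
  apply Real.sqrt_le_iff.2
  refine ⟨by positivity, ?_⟩
  have h1 : ∀ v ∈ As S R t ω, wL c Θ G S R t ω v ^ 2 ≤
      if v ∈ Pc c S R (t + 1) ω then D ^ 2 else 0 := by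
    intro v _
    have h := abs_wL_le (c := c) (S := S) (R := R) hn hΘ hD hG t ω v
    rw [← sq_abs]
    split_ifs at h ⊢
    · exact pow_le_pow_left₀ (abs_nonneg _) h 2
    · have : |wL c Θ G S R t ω v| = 0 := le_antisymm h (abs_nonneg _)
      rw [this]; norm_num
  refine (Finset.sum_le_sum h1).trans ?_
  rw [← Finset.sum_filter, Finset.sum_const, nsmul_eq_mul, mul_comm, mul_pow]
  apply mul_le_mul_of_nonneg_left _ (by positivity)
  refine le_trans ?_ (card_Pc_le (R := R) hkn c (t + 1) ω)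
  exact_mod_cast Finset.card_le_card fun v hv => (Finset.mem_filter.1 hv).2

lemma nrm_N_wL_le (t : ℕ) (ω : Om n) :
    nrm (Ns S R t ω) (wL c Θ G S R t ω) ≤ iot c * (D * yr c n) := by
  cases c
  · have : iot false = 1 := by simp [iot]
    rw [this, one_mul]
    exact (nrm_mono (Ns_sub_As t ω) _).trans (nrm_wL_le hn hΘ hD hG hkn t ω)
  · have : iot true = 0 := by simp [iot]
    rw [this, zero_mul]
    unfold nrm
    rw [Finset.sum_eq_zero, Real.sqrt_zero]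
    intro v hv
    have : wL true Θ G S R t ω v = 0 := by
      unfold wL
      rw [if_neg]
      rintro ⟨_, h⟩
      simp only [Pc, if_true] at h
      exact ((mem_Ns S R).1 hv).2 ((mem_Ss S R).1 h).2
    rw [this]; norm_num

end Wbounds

/-! ### Pointwise bounds -/

/-- Pure arithmetic: the error terms of the conditional expectation. -/
lemma numErr {z y m k D W nA nN ρ ι sW : ℝ} (hz : 1 ≤ z) (hy0 : 0 ≤ y) (hy4 : y ≤ z ^ 4) (hD : 1 ≤ D)
    (hm : z ^ 8 ≤ D * m) (hk0 : 0 ≤ k) (hk : k ≤ z ^ 4) (hW : |W| ≤ D * y ^ 2)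
    (hnA0 : 0 ≤ nA) (hnA : nA ≤ D * y) (hnN0 : 0 ≤ nN) (hnN : nN ≤ ι * (D * y)) (hι : 0 ≤ ι)
    (hsW : sW ≤ D * y ^ 2) :
    2 * (D * z ^ 4) * √k * nN / m + (3 * |W| * (D * z ^ 4) + 18 * (D * z ^ 4) ^ 2 * nA +
      9 * |ρ| * (D * z ^ 4) * nA) / (m * √m) + 4 * (D * z ^ 4) * |W| * k / m ^ 2 +
      64 * sW / m ≤
    2 * D ^ 3 * ι * y / z ^ 2 + 89 * D ^ 5 * (y / z ^ 4) * (1 + |ρ| / z ^ 4) := by
  have hz0 : 0 < z := by linarith
  have hD0 : 0 < D := by linarith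
  have hm0 : 0 < m := by
    by_contra hcon
    push Not at hcon
    have : 0 < z ^ 8 := by positivity
    nlinarith
  have him : 1 / m ≤ D / z ^ 8 := by
    rw [div_le_div_iff₀ hm0 (by positivity)]; linarith
  have hsk : √k ≤ z ^ 2 := by
    apply Real.sqrt_le_iff.2
    refine ⟨by positivity, ?_⟩
    calc k ≤ z ^ 4 := hk
      _ = (z ^ 2) ^ 2 := by ring
  have hsm : z ^ 4 / D ≤ √m := by
    apply Real.le_sqrt_of_sq_le
    rw [div_pow, div_le_iff₀ (by positivity)]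
    calc (z ^ 4) ^ 2 = z ^ 8 := by ring
      _ ≤ D * m := hm
      _ = D * m * 1 := by ring
      _ ≤ D * m * D := mul_le_mul_of_nonneg_left hD (by positivity)
      _ = m * D ^ 2 := by ring
  have hism : 1 / √m ≤ D / z ^ 4 := by
    have h1 : 0 < z ^ 4 / D := by positivity
    calc 1 / √m ≤ 1 / (z ^ 4 / D) := one_div_le_one_div_of_le h1 hsm
      _ = D / z ^ 4 := by field_simp
  have him0 : 0 ≤ 1 / m := by positivity
  have hism0 : 0 ≤ 1 / √m := by positivity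
  have hρ := abs_nonneg ρ
  have hW0 := abs_nonneg W
  have hsk0 := Real.sqrt_nonneg k
  -- term 1
  have t1 : 2 * (D * z ^ 4) * √k * nN / m ≤ 2 * D ^ 3 * ι * y / z ^ 2 := by
    calc 2 * (D * z ^ 4) * √k * nN / m = (2 * (D * z ^ 4)) * (√k * nN) * (1 / m) := by ring
      _ ≤ (2 * (D * z ^ 4)) * (z ^ 2 * (ι * (D * y))) * (D / z ^ 8) := by
          apply mul_le_mul _ him him0 (by positivity)
          apply mul_le_mul_of_nonneg_left _ (by positivity)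
          exact mul_le_mul hsk hnN hnN0 (by positivity)
      _ = _ := by field_simp
  have e2 : ∀ x : ℝ, x / (m * √m) = x * ((1 / m) * (1 / √m)) := by intro x; field_simp
  have h2 : (1 / m) * (1 / √m) ≤ (D / z ^ 8) * (D / z ^ 4) :=
    mul_le_mul him hism hism0 (by positivity)
  have t2 : (3 * |W| * (D * z ^ 4) + 18 * (D * z ^ 4) ^ 2 * nA +
      9 * |ρ| * (D * z ^ 4) * nA) / (m * √m) ≤
      (3 * (D * y ^ 2) * (D * z ^ 4) + 18 * (D * z ^ 4) ^ 2 * (D * y) +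
      9 * |ρ| * (D * z ^ 4) * (D * y)) * ((D / z ^ 8) * (D / z ^ 4)) := by
    rw [e2]
    apply mul_le_mul _ h2 (by positivity) (by positivity)
    have a1 : 3 * |W| * (D * z ^ 4) ≤ 3 * (D * y ^ 2) * (D * z ^ 4) :=
      mul_le_mul_of_nonneg_right (by linarith) (by positivity)
    have a2 : 18 * (D * z ^ 4) ^ 2 * nA ≤ 18 * (D * z ^ 4) ^ 2 * (D * y) :=
      mul_le_mul_of_nonneg_left hnA (by positivity)
    have a3 : 9 * |ρ| * (D * z ^ 4) * nA ≤ 9 * |ρ| * (D * z ^ 4) * (D * y) :=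
      mul_le_mul_of_nonneg_left hnA (by positivity)
    linarith
  have t3 : 4 * (D * z ^ 4) * |W| * k / m ^ 2 ≤
      4 * (D * z ^ 4) * (D * y ^ 2) * z ^ 4 * (D / z ^ 8) ^ 2 := by
    have e : 4 * (D * z ^ 4) * |W| * k / m ^ 2 = (4 * (D * z ^ 4)) * (|W| * k) * (1 / m) ^ 2 := by
      field_simp
    rw [e]
    have a1 : (1 / m) ^ 2 ≤ (D / z ^ 8) ^ 2 := pow_le_pow_left₀ him0 him 2
    have a2 : |W| * k ≤ (D * y ^ 2) * z ^ 4 := mul_le_mul hW hk hk0 (by positivity)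
    calc _ ≤ (4 * (D * z ^ 4)) * ((D * y ^ 2) * z ^ 4) * (D / z ^ 8) ^ 2 := by
          apply mul_le_mul _ a1 (by positivity) (by positivity)
          exact mul_le_mul_of_nonneg_left a2 (by positivity)
      _ = _ := by ring
  have t4 : 64 * sW / m ≤ 64 * (D * y ^ 2) * (D / z ^ 8) := by
    by_cases h0 : 0 ≤ sW
    · calc 64 * sW / m = 64 * sW * (1 / m) := by ring
        _ ≤ _ := mul_le_mul (by linarith) him him0 (by positivity)
    · push Not at h0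
      have : 64 * sW / m ≤ 0 := div_nonpos_of_nonpos_of_nonneg (by linarith) hm0.le
      have : 0 ≤ 64 * (D * y ^ 2) * (D / z ^ 8) := by positivity
      linarith
  have hyz : y ^ 2 / z ^ 8 ≤ y / z ^ 4 := by
    rw [div_le_div_iff₀ (by positivity) (by positivity)]
    calc y ^ 2 * z ^ 4 = (y * z ^ 4) * y := by ring
      _ ≤ (y * z ^ 4) * z ^ 4 := mul_le_mul_of_nonneg_left hy4 (by positivity)
      _ = y * z ^ 8 := by ring
  have hDp : ∀ i ≤ 5, D ^ i ≤ D ^ 5 := fun i hi => pow_le_pow_right₀ hD hi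
  have e5 : (3 * (D * y ^ 2) * (D * z ^ 4) + 18 * (D * z ^ 4) ^ 2 * (D * y) +
      9 * |ρ| * (D * z ^ 4) * (D * y)) * ((D / z ^ 8) * (D / z ^ 4)) =
      3 * D ^ 4 * (y ^ 2 / z ^ 8) + 18 * D ^ 5 * (y / z ^ 4) + 9 * D ^ 4 * (y / z ^ 4) *
        (|ρ| / z ^ 4) := by
    field_simp
  have e6 : 4 * (D * z ^ 4) * (D * y ^ 2) * z ^ 4 * (D / z ^ 8) ^ 2 =
      4 * D ^ 4 * (y ^ 2 / z ^ 8) := by
    field_simp
  have e7 : 64 * (D * y ^ 2) * (D / z ^ 8) = 64 * D ^ 2 * (y ^ 2 / z ^ 8) := by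
    field_simp
  have hyz0 : 0 ≤ y / z ^ 4 := by positivity
  have hyz20 : 0 ≤ y ^ 2 / z ^ 8 := by positivity
  have hR0 : 0 ≤ |ρ| / z ^ 4 := by positivity
  have b1 : 3 * D ^ 4 * (y ^ 2 / z ^ 8) ≤ 3 * D ^ 5 * (y / z ^ 4) :=
    mul_le_mul (by linarith [hDp 4 (by norm_num)]) hyz hyz20 (by positivity)
  have b2 : 9 * D ^ 4 * (y / z ^ 4) * (|ρ| / z ^ 4) ≤ 9 * D ^ 5 * (y / z ^ 4) * (|ρ| / z ^ 4) := by
    apply mul_le_mul_of_nonneg_right _ hR0
    apply mul_le_mul_of_nonneg_right _ hyz0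
    linarith [hDp 4 (by norm_num)]
  have b3 : 4 * D ^ 4 * (y ^ 2 / z ^ 8) ≤ 4 * D ^ 5 * (y / z ^ 4) :=
    mul_le_mul (by linarith [hDp 4 (by norm_num)]) hyz hyz20 (by positivity)
  have b4 : 64 * D ^ 2 * (y ^ 2 / z ^ 8) ≤ 64 * D ^ 5 * (y / z ^ 4) :=
    mul_le_mul (by linarith [hDp 2 (by norm_num)]) hyz hyz20 (by positivity)
  have b5 : 0 ≤ D ^ 5 * (y / z ^ 4) * (|ρ| / z ^ 4) := by positivity
  rw [e5] at t2
  rw [e6] at t3
  rw [e7] at t4
  have e8 : 89 * D ^ 5 * (y / z ^ 4) * (1 + |ρ| / z ^ 4) =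
      89 * (D ^ 5 * (y / z ^ 4)) + 89 * (D ^ 5 * (y / z ^ 4) * (|ρ| / z ^ 4)) := by ring
  rw [e8]
  linarith

/-- Size of the common drift. -/
lemma abs_cc_bd {D : ℝ} (hD : 1 ≤ D) {t : ℕ} (ht : t < n) (hkn : (S.card : ℝ) ≤ √(n : ℝ))
    (hk : 2 * ((S.card : ℝ) + 1) ≤ ((n - t : ℕ) : ℝ)) (hm : (n : ℝ) ≤ D * ((n - t : ℕ) : ℝ))
    {ω : Om n} (hop : OpB ω (As S R t ω) (D * √(n : ℝ))) (hu : uu S R t ω ∉ S) :
    |cc S R t ω| ≤ 6 * D ^ 2 * (1 + |rho S R t ω| / √(n : ℝ)) / √(n : ℝ) := by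
  have hk0 : (0:ℝ) ≤ S.card := Nat.cast_nonneg _
  have hn1 : (1:ℝ) ≤ n := by
    have : ((n - t : ℕ) : ℝ) ≤ n := by exact_mod_cast Nat.sub_le n t
    linarith
  have hr := rr_half (S := S) (R := R) ht.le hk ω
  have hcard : ((As S R t ω).card : ℝ) = ((n - t : ℕ) : ℝ) := by rw [card_As S R ht.le ω]
  obtain ⟨s, hs⟩ : ∃ s, s = √(n : ℝ) := ⟨_, rfl⟩
  have hs1 : 1 ≤ s := by rw [hs]; exact Real.one_le_sqrt.2 hn1
  have hssq : s ^ 2 = n := by rw [hs]; exact Real.sq_sqrt (by linarith)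
  have hx := xbar_le (S := S) (R := R) (by positivity) hop (by linarith) (by rw [hcard]; linarith)
  have hy := yu_eq ht hu
  have h4 : |∑ v ∈ Ss S R t ω, e0 ω v (uu S R t ω)| ≤ s := by
    refine (Finset.abs_sum_le_sum_abs _ _).trans ?_
    refine (Finset.sum_le_sum fun v _ => abs_e0_le ω v _).trans ?_
    rw [Finset.sum_const, nsmul_eq_mul, mul_one, hs]
    refine le_trans ?_ hkn
    exact_mod_cast card_Ss_le S R t ω
  rw [← hs] at hx ⊢
  have h5 : |yv S R t ω (uu S R t ω) - xbar S R t ω| ≤ |rho S R t ω| + s + 2 * (D * s) := by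
    rw [hy]
    refine (abs_sub _ _).trans ?_
    have := abs_add_le (rho S R t ω) (∑ v ∈ Ss S R t ω, e0 ω v (uu S R t ω))
    linarith
  unfold cc
  rw [hcard, abs_div]
  obtain ⟨m, hmdef⟩ : ∃ m, m = ((n - t : ℕ) : ℝ) := ⟨_, rfl⟩
  rw [← hmdef] at hm hk hr ⊢
  have hm2 : 2 ≤ m := by linarith
  rw [abs_of_pos (by linarith : 0 < m - 1), div_le_iff₀ (by linarith)]
  refine h5.trans ?_
  have hρ := abs_nonneg (rho S R t ω)
  have h6 : s ^ 2 ≤ 2 * D * (m - 1) := by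
    rw [hssq]
    have : m ≤ 2 * (m - 1) := by linarith
    calc (n : ℝ) ≤ D * m := hm
      _ ≤ D * (2 * (m - 1)) := mul_le_mul_of_nonneg_left this (by linarith)
      _ = _ := by ring
  have h7 : |rho S R t ω| + s + 2 * (D * s) ≤ 3 * D * (s + |rho S R t ω|) := by
    have : s ≤ D * s := le_mul_of_one_le_left (by linarith) hD
    have : |rho S R t ω| ≤ 3 * D * |rho S R t ω| := le_mul_of_one_le_left hρ (by linarith)
    linarith
  have h8 : 3 * D * (s + |rho S R t ω|) = 3 * D * (1 + |rho S R t ω| / s) / s * s ^ 2 := by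
    field_simp
  rw [h8] at h7
  have h9 : 3 * D * (1 + |rho S R t ω| / s) / s * s ^ 2 ≤
      3 * D * (1 + |rho S R t ω| / s) / s * (2 * D * (m - 1)) :=
    mul_le_mul_of_nonneg_left h6 (by positivity)
  calc _ ≤ _ := h7
    _ ≤ _ := h9
    _ = _ := by ring

/-- The vector of degree deviations is small on each class. -/
lemma nrm_xv_le {β : ℝ} (hβ : 0 ≤ β) {t : ℕ} {ω : Om n} (hop : OpB ω (As S R t ω) β) (c : Bool) :
    nrm (Pc c S R t ω) (xv S R t ω) ≤ β * √((As S R t ω).card : ℝ) := by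
  unfold Pc
  split_ifs
  · have h1 : nrm (Ss S R t ω) (xv S R t ω) =
        nrm (Ss S R t ω) (fun v => ∑ z ∈ Ns S R t ω, 1 * e0 ω v z) := by
      unfold nrm
      congr 1
      refine Finset.sum_congr rfl fun v hv => ?_
      rw [xv_eq_of_mem hv]
      simp
    rw [h1]
    refine (op_vec hβ hop (Ss_sub_As t ω) (Ns_sub_As t ω) (fun _ => 1)).trans ?_
    rw [nrm_one]
    apply mul_le_mul_of_nonneg_left _ hβ
    exact Real.sqrt_le_sqrt (by exact_mod_cast Finset.card_le_card (Ns_sub_As t ω))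
  · have h1 : nrm (Ns S R t ω) (xv S R t ω) =
        nrm (Ns S R t ω) (fun v => ∑ z ∈ As S R t ω, 1 * e0 ω v z) := by
      unfold nrm
      congr 1
      refine Finset.sum_congr rfl fun v hv => ?_
      rw [xv_eq_of_notMem hv]
      simp
    rw [h1]
    refine (op_vec hβ hop (Ns_sub_As t ω) subset_rfl (fun _ => 1)).trans ?_
    rw [nrm_one]

/-- Sum of the drifts over a class. -/
lemma sp_le {D : ℝ} (hD : 1 ≤ D) {t : ℕ} (ht : t < n) (hkn : (S.card : ℝ) ≤ √(n : ℝ))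
    (hk : 2 * ((S.card : ℝ) + 1) ≤ ((n - t : ℕ) : ℝ)) (hm : (n : ℝ) ≤ D * ((n - t : ℕ) : ℝ))
    {ω : Om n} (hop : OpB ω (As S R t ω) (D * √(n : ℝ))) (hu : uu S R t ω ∉ S) (c : Bool) :
    ∑ v ∈ Pc c S R (t + 1) ω, |pv S R t ω v| ≤
      8 * D ^ 2 * yr c n * (1 + |rho S R t ω| / √(n : ℝ)) := by
  have hk0 : (0:ℝ) ≤ S.card := Nat.cast_nonneg _
  have hmn : ((n - t : ℕ) : ℝ) ≤ n := by exact_mod_cast Nat.sub_le n t
  have hn1 : (1:ℝ) ≤ n := by linarith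
  have hr := rr_half (S := S) (R := R) ht.le hk ω
  have hcard : ((As S R t ω).card : ℝ) = ((n - t : ℕ) : ℝ) := by rw [card_As S R ht.le ω]
  have hcc := abs_cc_bd hD ht hkn hk hm hop hu
  have hsub : Pc c S R (t + 1) ω ⊆ Pc c S R t ω := by
    rw [Pc_succ]; exact Finset.erase_subset _ _
  have h1 : ∑ v ∈ Pc c S R (t + 1) ω, |pv S R t ω v| ≤
      ∑ v ∈ Pc c S R t ω, (|xv S R t ω v| / rr S R t ω + |cc S R t ω|) := by
    refine le_trans (Finset.sum_le_sum_of_subset_of_nonneg hsub fun v _ _ => abs_nonneg _) ?_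
    refine Finset.sum_le_sum fun v _ => ?_
    unfold pv
    refine (abs_add_le _ _).trans ?_
    rw [abs_div, abs_of_pos (by linarith : 0 < rr S R t ω)]
  refine h1.trans ?_
  rw [Finset.sum_add_distrib, ← Finset.sum_div, Finset.sum_const, nsmul_eq_mul]
  have h2 := sum_abs_le (Pc c S R t ω) (xv S R t ω)
  have h3 := nrm_xv_le (S := S) (R := R) (by positivity) hop c
  have h4 := card_Pc_le (R := R) hkn c t ω
  have hy0 : 0 ≤ yr c n := Real.sqrt_nonneg _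
  have hy4 : yr c n ≤ √(n : ℝ) := by rw [← zr_pow4]; exact yr_hi hn1 c
  have h5 : √((Pc c S R t ω).card : ℝ) ≤ yr c n := by
    apply Real.sqrt_le_iff.2
    exact ⟨hy0, h4⟩
  rw [hcard] at h3
  have h6 : √((n - t : ℕ) : ℝ) ≤ √(n : ℝ) := Real.sqrt_le_sqrt hmn
  obtain ⟨s, hs⟩ : ∃ s, s = √(n : ℝ) := ⟨_, rfl⟩
  have hs1 : 1 ≤ s := by rw [hs]; exact Real.one_le_sqrt.2 hn1
  have hssq : s ^ 2 = n := by rw [hs]; exact Real.sq_sqrt (by linarith)
  rw [← hs] at hcc h3 h6 hy4 ⊢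
  have h7 : ∑ v ∈ Pc c S R t ω, |xv S R t ω v| ≤ yr c n * (D * s * s) := by
    refine h2.trans ?_
    apply mul_le_mul h5 _ (nrm_nonneg _ _) hy0
    refine h3.trans ?_
    exact mul_le_mul_of_nonneg_left h6 (by positivity)
  have h8 : s ^ 2 ≤ 2 * D * rr S R t ω := by
    rw [hssq]
    calc (n : ℝ) ≤ D * ((n - t : ℕ) : ℝ) := hm
      _ ≤ D * (2 * rr S R t ω) := mul_le_mul_of_nonneg_left (by linarith) (by linarith)
      _ = _ := by ring
  have h9 : (∑ v ∈ Pc c S R t ω, |xv S R t ω v|) / rr S R t ω ≤ 2 * D ^ 2 * yr c n := by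
    rw [div_le_iff₀ (by linarith)]
    refine h7.trans ?_
    calc yr c n * (D * s * s) = (yr c n * D) * s ^ 2 := by ring
      _ ≤ (yr c n * D) * (2 * D * rr S R t ω) := mul_le_mul_of_nonneg_left h8 (by positivity)
      _ = _ := by ring
  have hρ : 0 ≤ |rho S R t ω| / s := by positivity
  have h10 : ((Pc c S R t ω).card : ℝ) * |cc S R t ω| ≤
      6 * D ^ 2 * yr c n * (1 + |rho S R t ω| / s) := by
    calc ((Pc c S R t ω).card : ℝ) * |cc S R t ω| ≤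
          (yr c n ^ 2) * (6 * D ^ 2 * (1 + |rho S R t ω| / s) / s) :=
          mul_le_mul h4 hcc (abs_nonneg _) (by positivity)
      _ = (6 * D ^ 2 * yr c n * (1 + |rho S R t ω| / s)) * (yr c n / s) := by ring
      _ ≤ (6 * D ^ 2 * yr c n * (1 + |rho S R t ω| / s)) * 1 := by
          apply mul_le_mul_of_nonneg_left _ (by positivity)
          rw [div_le_one (by linarith)]; exact hy4
      _ = _ := by ring
  have h11 : 2 * D ^ 2 * yr c n ≤ 2 * D ^ 2 * yr c n * (1 + |rho S R t ω| / s) :=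
    le_mul_of_one_le_right (by positivity) (by linarith)
  linarith

end Pool.Agent.H40.Peel
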