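import Pool.Agent.H40.Peel.LLN1

/-!
Law of large numbers, part 2: expectations of the one step quantities.
-/

namespace Pool.Agent.H40.Peel

open Finset Filter

variable {n : ℕ} {S : Finset (Fin n)} {R : TieRule n}

/-- The range of times, and the smallness of the bad event. -/
structure Rng (D : ℝ) (S : Finset (Fin n)) (R : TieRule n) (t : ℕ) : Prop where
  hD : 1 ≤ D
  ht : t < n
  hkn : (S.card : ℝ) ≤ √(n : ℝ)
  hk : 2 * ((S.card : ℝ) + 1) ≤ ((n - t : ℕ) : ℝ)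
  hm : (n : ℝ) ≤ D * ((n - t : ℕ) : ℝ)
  h4 : 4 * (D * √(n : ℝ)) ≤ ((n - t : ℕ) : ℝ)
  hP : (n : ℝ) ^ 10 * Pr (fun ω => ¬ OpB ω (As S R t ω) (D * √(n : ℝ))) ≤ 1

/-- `1 + E|rho| / √n`. -/
noncomputable def Rr (S : Finset (Fin n)) (R : TieRule n) (t : ℕ) : ℝ :=
  1 + E (arho S R t) / √(n : ℝ)

lemma one_le_Rr (t : ℕ) : 1 ≤ Rr S R t := by
  unfold Rr
  have : 0 ≤ E (arho S R t) := E_nonneg fun ω => arho_nonneg t ω
  have : 0 ≤ E (arho S R t) / √(n : ℝ) := by positivity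
  linarith

namespace Rng

variable {D : ℝ} {t : ℕ}

lemma n1 (h : Rng D S R t) : (1:ℝ) ≤ n := by
  have : ((n - t : ℕ) : ℝ) ≤ n := by exact_mod_cast Nat.sub_le n t
  have := h.hk
  have : (0:ℝ) ≤ S.card := Nat.cast_nonneg _
  linarith

lemma z1 (h : Rng D S R t) : 1 ≤ zr n := one_le_zr h.n1

lemma s1 (h : Rng D S R t) : 1 ≤ √(n : ℝ) := Real.one_le_sqrt.2 h.n1

/-- The bad event is negligible at every scale used. -/
lemma tiny (h : Rng D S R t) {x : ℝ} (hx : x ≤ (n : ℝ) ^ 9) :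
    x * Pr (fun ω => ¬ OpB ω (As S R t ω) (D * √(n : ℝ))) ≤ 1 / n := by
  have h0 := Pr_nonneg (fun ω => ¬ OpB ω (As S R t ω) (D * √(n : ℝ)))
  have hn := h.n1
  rw [le_div_iff₀ (by linarith)]
  refine le_trans ?_ h.hP
  calc x * Pr (fun ω => ¬ OpB ω (As S R t ω) (D * √(n : ℝ))) * n =
        (x * n) * Pr (fun ω => ¬ OpB ω (As S R t ω) (D * √(n : ℝ))) := by ring
    _ ≤ ((n : ℝ) ^ 9 * n) * Pr (fun ω => ¬ OpB ω (As S R t ω) (D * √(n : ℝ))) := by
        apply mul_le_mul_of_nonneg_right _ h0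
        exact mul_le_mul_of_nonneg_right hx (by linarith)
    _ = _ := by ring

end Rng

/-- Bounds for the weights. -/
structure WB (D Θ : ℝ) (G : ℝ → ℝ → ℝ) : Prop where
  hΘ : 0 < Θ
  hG : ∀ s y, 0 ≤ s → s ≤ Θ → |G s y| ≤ D

variable {c : Bool} {Θ D : ℝ} {G : ℝ → ℝ → ℝ} {t : ℕ}

/-- The error terms, in the final form (pointwise). -/
lemma err_bd (h : Rng D S R t) (hw : WB D Θ G) (ω : Om n) :
    errP S R (D * √(n : ℝ)) t ω (wL c Θ G S R t ω) +
      64 * (∑ v ∈ As S R t ω, |wL c Θ G S R t ω v|) / ((n - t : ℕ) : ℝ) ≤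
    2 * D ^ 3 * iot c * yr c n / zr n ^ 2 +
      89 * D ^ 5 * (yr c n / √(n : ℝ)) * (1 + |rho S R t ω| / √(n : ℝ)) := by
  have hcard : ((As S R t ω).card : ℝ) = ((n - t : ℕ) : ℝ) := by rw [card_As S R h.ht.le ω]
  have hD0 : 0 ≤ D := by linarith [h.hD]
  have h1 := sum_abs_wL_le (c := c) (S := S) (R := R) h.n1 hw.hΘ hD0 hw.hG h.hkn t ω
  have h2 := nrm_wL_le (c := c) (S := S) (R := R) h.n1 hw.hΘ hD0 hw.hG h.hkn t ω
  have h3 := nrm_N_wL_le (c := c) (S := S) (R := R) h.n1 hw.hΘ hD0 hw.hG h.hkn t ω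
  have h4 : |∑ v ∈ As S R t ω, wL c Θ G S R t ω v| ≤ D * yr c n ^ 2 :=
    (Finset.abs_sum_le_sum_abs _ _).trans h1
  have hy4 := yr_hi h.n1 c
  have key := numErr (z := zr n) (y := yr c n) (m := ((n - t : ℕ) : ℝ)) (k := (S.card : ℝ)) (D := D)
    (W := ∑ v ∈ As S R t ω, wL c Θ G S R t ω v)
    (nA := nrm (As S R t ω) (wL c Θ G S R t ω)) (nN := nrm (Ns S R t ω) (wL c Θ G S R t ω))
    (ρ := rho S R t ω) (ι := iot c) (sW := ∑ v ∈ As S R t ω, |wL c Θ G S R t ω v|)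
    h.z1 (Real.sqrt_nonneg _) hy4 h.hD (by rw [zr_pow8]; exact h.hm) (Nat.cast_nonneg _)
    (by rw [zr_pow4]; exact h.hkn) h4 (nrm_nonneg _ _) h2 (nrm_nonneg _ _) h3 (iot_nonneg c) h1
  unfold errP
  rw [hcard]
  rw [zr_pow4] at key
  exact key

lemma abs_Yw_bd (h : Rng D S R t) (hw : WB D Θ G) (ω : Om n) :
    |Yw S R t ω (wL c Θ G S R t ω)| ≤ D * yr c n ^ 2 :=
  (abs_Yw_le t ω _).trans
    (sum_abs_wL_le (c := c) (S := S) (R := R) h.n1 hw.hΘ (by linarith [h.hD]) hw.hG h.hkn t ω)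

lemma abs_Pw_le_sp (h : Rng D S R t) (hw : WB D Θ G) (ω : Om n) :
    |Pw S R t ω (wL c Θ G S R t ω)| ≤ D * ∑ v ∈ Pc c S R (t + 1) ω, |pv S R t ω v| := by
  have hD0 : 0 ≤ D := by linarith [h.hD]
  unfold Pw
  refine (Finset.abs_sum_le_sum_abs _ _).trans ?_
  have h1 : ∀ v ∈ As S R t ω, |wL c Θ G S R t ω v * pv S R t ω v| ≤
      if v ∈ Pc c S R (t + 1) ω then D * |pv S R t ω v| else 0 := by
    intro v _
    have h2 := abs_wL_le (c := c) (S := S) (R := R) h.n1 hw.hΘ hD0 hw.hG t ω v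
    rw [abs_mul]
    split_ifs at h2 ⊢
    · exact mul_le_mul_of_nonneg_right h2 (abs_nonneg _)
    · have : |wL c Θ G S R t ω v| = 0 := le_antisymm h2 (abs_nonneg _)
      rw [this, zero_mul]
  refine (Finset.sum_le_sum h1).trans ?_
  rw [← Finset.sum_filter, Finset.mul_sum]
  apply Finset.sum_le_sum_of_subset_of_nonneg
  · intro v hv
    exact (Finset.mem_filter.1 hv).2
  · intro v _ _
    positivity

/-- Crude bound. -/
lemma abs_Pw_crude (h : Rng D S R t) (hw : WB D Θ G) (ω : Om n) :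
    |Pw S R t ω (wL c Θ G S R t ω)| ≤ 6 * D * yr c n ^ 2 := by
  have hcard : ((As S R t ω).card : ℝ) = ((n - t : ℕ) : ℝ) := by rw [card_As S R h.ht.le ω]
  have hr := rr_half (S := S) (R := R) h.ht.le h.hk ω
  have hk0 : (0:ℝ) ≤ S.card := Nat.cast_nonneg _
  have hk := h.hk
  unfold Pw
  refine (Finset.abs_sum_le_sum_abs _ _).trans ?_
  have h1 : ∀ v ∈ As S R t ω, |wL c Θ G S R t ω v * pv S R t ω v| ≤
      |wL c Θ G S R t ω v| * 6 := by
    intro v hv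
    rw [abs_mul]
    exact mul_le_mul_of_nonneg_left (abs_pv_le h.ht (by rw [hcard]; linarith)
      (by rw [hcard]; linarith) hv) (abs_nonneg _)
  refine (Finset.sum_le_sum h1).trans ?_
  rw [← Finset.sum_mul]
  have h2 := sum_abs_wL_le (c := c) (S := S) (R := R) h.n1 hw.hΘ (by linarith [h.hD]) hw.hG
    h.hkn t ω
  linarith

lemma abs_Pw_bd (h : Rng D S R t) (hw : WB D Θ G) {ω : Om n}
    (hop : OpB ω (As S R t ω) (D * √(n : ℝ))) (hu : uu S R t ω ∉ S) :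
    |Pw S R t ω (wL c Θ G S R t ω)| ≤
      8 * D ^ 3 * yr c n * (1 + |rho S R t ω| / √(n : ℝ)) := by
  have hD0 : 0 ≤ D := by linarith [h.hD]
  refine (abs_Pw_le_sp h hw ω).trans ?_
  have := sp_le h.hD h.ht h.hkn h.hk h.hm hop hu c
  calc D * ∑ v ∈ Pc c S R (t + 1) ω, |pv S R t ω v| ≤
        D * (8 * D ^ 2 * yr c n * (1 + |rho S R t ω| / √(n : ℝ))) :=
        mul_le_mul_of_nonneg_left this hD0
    _ = _ := by ring

lemma y1 (h : Rng D S R t) (c : Bool) : 1 ≤ yr c n :=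
  (one_le_pow₀ h.z1).trans (yr_lo h.n1 c)

/-- Numerical combination for the second moment of `Yw`. -/
lemma numY {z y D ι Yv E1 P N q : ℝ} (hz : 1 ≤ z) (hy : 1 ≤ y) (hD : 1 ≤ D)
    (hι0 : 0 ≤ ι) (hι : ι ≤ 1) (hY0 : 0 ≤ Yv) (hY : Yv ≤ D * y ^ 2) (hq : 0 ≤ q)
    (hE : E1 ≤ 2 * D ^ 3 * ι * y / z ^ 2 + 89 * D ^ 5 * (y / z ^ 4) * (1 + q))
    (hE0 : 0 ≤ E1) (hP0 : 0 ≤ P)
    (hP : P ≤ 8 * D ^ 3 * y * (1 + q)) (hN0 : 0 ≤ N) (hN : N ≤ D * y) :
    Yv * (E1 + P) + 56 * N ^ 2 ≤ 155 * D ^ 6 * y ^ 3 * (1 + q) := by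
  have hz2 : 1 ≤ z ^ 2 := one_le_pow₀ hz
  have hz4 : 1 ≤ z ^ 4 := one_le_pow₀ hz
  have hy0 : 0 < y := by linarith
  have hD0 : 0 < D := by linarith
  have a1 : 2 * D ^ 3 * ι * y / z ^ 2 ≤ 2 * D ^ 5 * y * (1 + q) := by
    have b1 : 2 * D ^ 3 * ι * y / z ^ 2 ≤ 2 * D ^ 3 * ι * y := div_le_self (by positivity) hz2
    have b2 : 2 * D ^ 3 * ι * y ≤ 2 * D ^ 3 * 1 * y := by
      apply mul_le_mul_of_nonneg_right _ hy0.le
      exact mul_le_mul_of_nonneg_left hι (by positivity)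
    have b3 : D ^ 3 ≤ D ^ 5 := pow_le_pow_right₀ hD (by norm_num)
    have b4 : 2 * D ^ 3 * 1 * y ≤ 2 * D ^ 5 * y := by
      apply mul_le_mul_of_nonneg_right _ hy0.le
      linarith
    have b5 : 2 * D ^ 5 * y ≤ 2 * D ^ 5 * y * (1 + q) :=
      le_mul_of_one_le_right (by positivity) (by linarith)
    linarith
  have a2 : 89 * D ^ 5 * (y / z ^ 4) * (1 + q) ≤ 89 * D ^ 5 * y * (1 + q) := by
    apply mul_le_mul_of_nonneg_right _ (by linarith)
    exact mul_le_mul_of_nonneg_left (div_le_self hy0.le hz4) (by positivity)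
  have a3 : 8 * D ^ 3 * y * (1 + q) ≤ 8 * D ^ 5 * y * (1 + q) := by
    have b3 : D ^ 3 ≤ D ^ 5 := pow_le_pow_right₀ hD (by norm_num)
    apply mul_le_mul_of_nonneg_right _ (by linarith)
    apply mul_le_mul_of_nonneg_right _ hy0.le
    linarith
  have a4 : E1 + P ≤ 99 * D ^ 5 * y * (1 + q) := by linarith
  have a5 : Yv * (E1 + P) ≤ (D * y ^ 2) * (99 * D ^ 5 * y * (1 + q)) :=
    mul_le_mul hY a4 (by linarith) (by positivity)
  have a6 : N ^ 2 ≤ (D * y) ^ 2 := pow_le_pow_left₀ hN0 hN 2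
  have a7 : (D * y) ^ 2 ≤ D ^ 6 * y ^ 3 * (1 + q) := by
    rw [mul_pow]
    have c1 : D ^ 2 ≤ D ^ 6 := pow_le_pow_right₀ hD (by norm_num)
    have c2 : y ^ 2 ≤ y ^ 3 := pow_le_pow_right₀ hy (by norm_num)
    calc D ^ 2 * y ^ 2 ≤ D ^ 6 * y ^ 3 := mul_le_mul c1 c2 (by positivity) (by positivity)
      _ ≤ _ := le_mul_of_one_le_right (by positivity) (by linarith)
  have e : (D * y ^ 2) * (99 * D ^ 5 * y * (1 + q)) = 99 * (D ^ 6 * y ^ 3 * (1 + q)) := by ring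
  have e2 : 155 * D ^ 6 * y ^ 3 * (1 + q) = 155 * (D ^ 6 * y ^ 3 * (1 + q)) := by ring
  rw [e2]
  linarith

/-- Crude numerical bound. -/
lemma numYc {z y D ι Yv E1 P N q : ℝ} (hz : 1 ≤ z) (hy : 1 ≤ y) (hy4 : y ≤ z ^ 4) (hD : 1 ≤ D)
    (hι0 : 0 ≤ ι) (hι : ι ≤ 1) (hY0 : 0 ≤ Yv) (hY : Yv ≤ D * y ^ 2) (hq : 0 ≤ q)
    (hq2 : q ≤ z ^ 4)
    (hE : E1 ≤ 2 * D ^ 3 * ι * y / z ^ 2 + 89 * D ^ 5 * (y / z ^ 4) * (1 + q))
    (hE0 : 0 ≤ E1) (hP0 : 0 ≤ P)
    (hP : P ≤ 6 * D * y ^ 2) (hN0 : 0 ≤ N) (hN : N ≤ D * y) :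
    Yv * (E1 + P) + 56 * N ^ 2 ≤ 316 * D ^ 6 * z ^ 16 := by
  have hz4 : 1 ≤ z ^ 4 := one_le_pow₀ hz
  have hy0 : 0 < y := by linarith
  have hD0 : 0 < D := by linarith
  have hz0 : 0 < z := by linarith
  have h1 := numY (z := z) (y := z ^ 4) (D := D) (ι := ι) (Yv := Yv) (E1 := E1) (P := 0) (N := N)
    (q := q) hz hz4 hD hι0 hι hY0 (hY.trans (by
      apply mul_le_mul_of_nonneg_left _ hD0.le
      exact pow_le_pow_left₀ hy0.le hy4 2)) hq
    (hE.trans (by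
      have a1 : 2 * D ^ 3 * ι * y / z ^ 2 ≤ 2 * D ^ 3 * ι * z ^ 4 / z ^ 2 := by
        apply div_le_div_of_nonneg_right _ (by positivity)
        exact mul_le_mul_of_nonneg_left hy4 (by positivity)
      have a2 : 89 * D ^ 5 * (y / z ^ 4) * (1 + q) ≤ 89 * D ^ 5 * (z ^ 4 / z ^ 4) * (1 + q) := by
        apply mul_le_mul_of_nonneg_right _ (by linarith)
        apply mul_le_mul_of_nonneg_left _ (by positivity)
        exact div_le_div_of_nonneg_right hy4 (by positivity)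
      linarith)) hE0 le_rfl (by positivity) hN0 (hN.trans (by
      exact mul_le_mul_of_nonneg_left hy4 hD0.le))
  have h2 : Yv * P ≤ (D * (z ^ 4) ^ 2) * (6 * D * (z ^ 4) ^ 2) := by
    have hyy : y ^ 2 ≤ (z ^ 4) ^ 2 := pow_le_pow_left₀ hy0.le hy4 2
    apply mul_le_mul (hY.trans _) (hP.trans _) hP0 (by positivity)
    · exact mul_le_mul_of_nonneg_left hyy hD0.le
    · exact mul_le_mul_of_nonneg_left hyy (by positivity)
  have h3 : (D * (z ^ 4) ^ 2) * (6 * D * (z ^ 4) ^ 2) = 6 * D ^ 2 * z ^ 16 := by ring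
  have h4 : 155 * D ^ 6 * (z ^ 4) ^ 3 * (1 + q) ≤ 155 * D ^ 6 * (z ^ 4) ^ 3 * (1 + z ^ 4) :=
    mul_le_mul_of_nonneg_left (by linarith) (by positivity)
  have h5 : D ^ 2 ≤ D ^ 6 := pow_le_pow_right₀ hD (by norm_num)
  have h6 : 6 * D ^ 2 * z ^ 16 ≤ 6 * D ^ 6 * z ^ 16 :=
    mul_le_mul_of_nonneg_right (by linarith) (by positivity)
  have h7 : z ^ 12 ≤ z ^ 16 := pow_le_pow_right₀ hz (by norm_num)
  have h8 : D ^ 6 * z ^ 12 ≤ D ^ 6 * z ^ 16 := mul_le_mul_of_nonneg_left h7 (by positivity)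
  have e1 : 155 * D ^ 6 * (z ^ 4) ^ 3 * (1 + z ^ 4) =
      155 * (D ^ 6 * z ^ 12) + 155 * (D ^ 6 * z ^ 16) := by ring
  have e2 : Yv * (E1 + P) = Yv * (E1 + 0) + Yv * P := by ring
  rw [e1] at h4
  rw [h3] at h2
  rw [e2]
  have e3 : 316 * D ^ 6 * z ^ 16 = 316 * (D ^ 6 * z ^ 16) := by ring
  have e4 : 6 * D ^ 6 * z ^ 16 = 6 * (D ^ 6 * z ^ 16) := by ring
  rw [e3]
  rw [e4] at h6
  linarith

lemma iot_le_one (c : Bool) : iot c ≤ 1 := by unfold iot; split_ifs <;> norm_num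

/-- Second moment of `Yw`, nonplanted removals. -/
lemma eY2 (h : Rng D S R t) (hw : WB D Θ G) :
    E (fun ω => if uu S R t ω ∈ S then 0 else Yw S R t ω (wL c Θ G S R t ω) ^ 2) ≤
      1000 * D ^ 6 * yr c n ^ 3 * Rr S R t := by
  have hD := h.hD
  have hD0 : 0 ≤ D := by linarith
  have hn1 := h.n1
  have hz1 := h.z1
  have hy1 := y1 h c
  have hy4 := yr_hi hn1 c
  have hs1 := h.s1
  have hs0 : 0 < √(n : ℝ) := by linarith
  have hcard : ∀ ω, ((As S R t ω).card : ℝ) = ((n - t : ℕ) : ℝ) := fun ω => by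
    rw [card_As S R h.ht.le ω]
  set w := wL c Θ G S R t with hwdef
  have hq : ∀ ω, 0 ≤ |rho S R t ω| / √(n : ℝ) := fun ω => by positivity
  have hq2 : ∀ ω, |rho S R t ω| / √(n : ℝ) ≤ zr n ^ 4 := by
    intro ω
    rw [zr_pow4, div_le_iff₀ hs0, Real.mul_self_sqrt (Nat.cast_nonneg _)]
    exact abs_rho_le t ω
  have hB : ∀ ω, |(1:ℝ)| * (23 * (∑ v ∈ As S R t ω, |w ω v|) ^ 2) ≤ 23 * D ^ 2 * zr n ^ 16 := by
    intro ω
    have h1 := sum_abs_wL_le (c := c) (S := S) (R := R) h.n1 hw.hΘ hD0 hw.hG h.hkn t ω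
    have h2 : D * yr c n ^ 2 ≤ D * (zr n ^ 4) ^ 2 :=
      mul_le_mul_of_nonneg_left (pow_le_pow_left₀ (by linarith) hy4 2) hD0
    have h3 : (∑ v ∈ As S R t ω, |w ω v|) ^ 2 ≤ (D * (zr n ^ 4) ^ 2) ^ 2 :=
      pow_le_pow_left₀ (Finset.sum_nonneg fun _ _ => abs_nonneg _) (h1.trans h2) 2
    rw [abs_one, one_mul]
    calc 23 * (∑ v ∈ As S R t ω, |w ω v|) ^ 2 ≤ 23 * (D * (zr n ^ 4) ^ 2) ^ 2 := by linarith
      _ = _ := by ring
  have h0 := ce2sq (S := S) (R := R) h.ht h.hk (F := fun _ => 1) (w := w) (HM.const 1)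
    (fun _ => zero_le_one) (HM_wL t) (SupA_wL t) (β := D * √(n : ℝ)) (by positivity) h.h4 hB
  simp only [one_mul] at h0
  refine h0.trans ?_
  -- the good part
  have hgood : E (fun ω => if uu S R t ω ∈ S then 0 else |Yw S R t ω (w ω)| *
        (errP S R (D * √(n : ℝ)) t ω (w ω) +
          64 * (∑ v ∈ As S R t ω, |w ω v|) / ((n - t : ℕ) : ℝ) +
          |Pw S R t ω (w ω)|) + 56 * nrm (As S R t ω) (w ω) ^ 2) ≤
      E (fun ω => 155 * D ^ 6 * yr c n ^ 3 * (1 + arho S R t ω / √(n : ℝ))) +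
      316 * D ^ 6 * zr n ^ 16 * Pr (fun ω => ¬ OpB ω (As S R t ω) (D * √(n : ℝ))) := by
    apply E_le_good
    · intro ω hop
      by_cases hu : uu S R t ω ∈ S
      · rw [if_pos hu]
        have := arho_nonneg (S := S) (R := R) t ω
        positivity
      · rw [if_neg hu]
        have hval : arho S R t ω = |rho S R t ω| := by unfold arho; rw [if_neg hu]
        rw [hval]
        have e0 : 0 ≤ errP S R (D * √(n : ℝ)) t ω (w ω) +
          64 * (∑ v ∈ As S R t ω, |w ω v|) / ((n - t : ℕ) : ℝ) := by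
          unfold errP
          have := nrm_nonneg (Ns S R t ω) (w ω)
          have := nrm_nonneg (As S R t ω) (w ω)
          have : 0 ≤ ∑ v ∈ As S R t ω, |w ω v| := Finset.sum_nonneg fun _ _ => abs_nonneg _
          positivity
        exact numY (z := zr n) (ι := iot c) hz1 hy1 hD (iot_nonneg c) (iot_le_one c)
          (abs_nonneg _) (abs_Yw_bd h hw ω) (hq ω)
          (by rw [zr_pow4]; exact err_bd h hw ω) e0 (abs_nonneg _) (abs_Pw_bd h hw hop hu)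
          (nrm_nonneg _ _)
          (nrm_wL_le (c := c) (S := S) (R := R) h.n1 hw.hΘ hD0 hw.hG h.hkn t ω)
    · intro ω
      have := arho_nonneg (S := S) (R := R) t ω
      positivity
    · intro ω
      by_cases hu : uu S R t ω ∈ S
      · rw [if_pos hu]; positivity
      · rw [if_neg hu]
        have e0 : 0 ≤ errP S R (D * √(n : ℝ)) t ω (w ω) +
          64 * (∑ v ∈ As S R t ω, |w ω v|) / ((n - t : ℕ) : ℝ) := by
          unfold errP
          have := nrm_nonneg (Ns S R t ω) (w ω)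
          have := nrm_nonneg (As S R t ω) (w ω)
          have : 0 ≤ ∑ v ∈ As S R t ω, |w ω v| := Finset.sum_nonneg fun _ _ => abs_nonneg _
          positivity
        exact numYc (z := zr n) (ι := iot c) hz1 hy1 hy4 hD (iot_nonneg c) (iot_le_one c)
          (abs_nonneg _) (abs_Yw_bd h hw ω) (hq ω) (hq2 ω)
          (by rw [zr_pow4]; exact err_bd h hw ω) e0 (abs_nonneg _) (abs_Pw_crude h hw ω)
          (nrm_nonneg _ _)
          (nrm_wL_le (c := c) (S := S) (R := R) h.n1 hw.hΘ hD0 hw.hG h.hkn t ω)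
  have hEg : E (fun ω => 155 * D ^ 6 * yr c n ^ 3 * (1 + arho S R t ω / √(n : ℝ))) =
      155 * D ^ 6 * yr c n ^ 3 * Rr S R t := by
    rw [E_mul_left, E_add, E_const]
    unfold Rr
    congr 2
    simp only [div_eq_mul_inv]
    rw [E_mul_right]
  rw [hEg] at hgood
  have ht1 : zr n ^ 16 * Pr (fun ω => ¬ OpB ω (As S R t ω) (D * √(n : ℝ))) ≤ 1 := by
    have := h.tiny (x := zr n ^ 16) (by
      have e : zr n ^ 16 = (zr n ^ 8) ^ 2 := by ring
      rw [e, zr_pow8]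
      exact pow_le_pow_right₀ hn1 (by norm_num))
    refine this.trans ?_
    rw [div_le_one (by linarith)]; exact hn1
  have hR := one_le_Rr (S := S) (R := R) t
  have hfin : (1:ℝ) ≤ yr c n ^ 3 * Rr S R t :=
    one_le_mul_of_one_le_of_one_le (one_le_pow₀ hy1) hR
  have hD6 : (0:ℝ) ≤ D ^ 6 := by positivity
  have hD26 : D ^ 2 ≤ D ^ 6 := pow_le_pow_right₀ hD (by norm_num)
  set π := Pr (fun ω => ¬ OpB ω (As S R t ω) (D * √(n : ℝ))) with hπ
  have a1 : 316 * D ^ 6 * zr n ^ 16 * π ≤ 316 * D ^ 6 := by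
    calc 316 * D ^ 6 * zr n ^ 16 * π = 316 * D ^ 6 * (zr n ^ 16 * π) := by ring
      _ ≤ 316 * D ^ 6 * 1 := mul_le_mul_of_nonneg_left ht1 (by positivity)
      _ = _ := by ring
  have a2 : 23 * D ^ 2 * zr n ^ 16 * π ≤ 23 * D ^ 6 := by
    calc 23 * D ^ 2 * zr n ^ 16 * π = 23 * D ^ 2 * (zr n ^ 16 * π) := by ring
      _ ≤ 23 * D ^ 2 * 1 := mul_le_mul_of_nonneg_left ht1 (by positivity)
      _ ≤ _ := by linarith
  have a3 : D ^ 6 ≤ D ^ 6 * (yr c n ^ 3 * Rr S R t) := le_mul_of_one_le_right hD6 hfin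
  calc _ ≤ 2 * (155 * D ^ 6 * yr c n ^ 3 * Rr S R t + 316 * D ^ 6) + 2 * (23 * D ^ 6) := by
        linarith
    _ = 310 * (D ^ 6 * (yr c n ^ 3 * Rr S R t)) + 678 * D ^ 6 := by ring
    _ ≤ 310 * (D ^ 6 * (yr c n ^ 3 * Rr S R t)) +
        690 * (D ^ 6 * (yr c n ^ 3 * Rr S R t)) := by linarith
    _ = _ := by ring

/-- First moment of the drift part. -/
lemma ePw (h : Rng D S R t) (hw : WB D Θ G) :
    E (fun ω => if uu S R t ω ∈ S then 0 else |Pw S R t ω (wL c Θ G S R t ω)|) ≤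
      14 * D ^ 3 * yr c n * Rr S R t := by
  have hD := h.hD
  have hD0 : 0 ≤ D := by linarith
  have hn1 := h.n1
  have hy1 := y1 h c
  have hy4 := yr_hi hn1 c
  have hgood : E (fun ω => if uu S R t ω ∈ S then 0 else |Pw S R t ω (wL c Θ G S R t ω)|) ≤
      E (fun ω => 8 * D ^ 3 * yr c n * (1 + arho S R t ω / √(n : ℝ))) +
      6 * D * yr c n ^ 2 * Pr (fun ω => ¬ OpB ω (As S R t ω) (D * √(n : ℝ))) := by
    apply E_le_good
    · intro ω hop
      by_cases hu : uu S R t ω ∈ S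
      · rw [if_pos hu]
        have := arho_nonneg (S := S) (R := R) t ω
        positivity
      · rw [if_neg hu]
        have hval : arho S R t ω = |rho S R t ω| := by unfold arho; rw [if_neg hu]
        rw [hval]
        exact abs_Pw_bd h hw hop hu
    · intro ω
      have := arho_nonneg (S := S) (R := R) t ω
      positivity
    · intro ω
      by_cases hu : uu S R t ω ∈ S
      · rw [if_pos hu]; positivity
      · rw [if_neg hu]
        exact abs_Pw_crude h hw ω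
  have hEg : E (fun ω => 8 * D ^ 3 * yr c n * (1 + arho S R t ω / √(n : ℝ))) =
      8 * D ^ 3 * yr c n * Rr S R t := by
    rw [E_mul_left, E_add, E_const]
    unfold Rr
    congr 2
    simp only [div_eq_mul_inv]
    rw [E_mul_right]
  rw [hEg] at hgood
  refine hgood.trans ?_
  have ht1 : yr c n ^ 2 * Pr (fun ω => ¬ OpB ω (As S R t ω) (D * √(n : ℝ))) ≤ 1 := by
    have := h.tiny (x := yr c n ^ 2) (by
      calc yr c n ^ 2 ≤ (zr n ^ 4) ^ 2 := pow_le_pow_left₀ (by linarith) hy4 2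
        _ = zr n ^ 8 := by ring
        _ = n := zr_pow8 n
        _ ≤ (n : ℝ) ^ 9 := le_self_pow₀ hn1 (by norm_num))
    refine this.trans ?_
    rw [div_le_one (by linarith)]; exact hn1
  have hR := one_le_Rr (S := S) (R := R) t
  have hfin : (1:ℝ) ≤ yr c n * Rr S R t := one_le_mul_of_one_le_of_one_le hy1 hR
  have hD3 : D ≤ D ^ 3 := le_self_pow₀ hD (by norm_num)
  set π := Pr (fun ω => ¬ OpB ω (As S R t ω) (D * √(n : ℝ))) with hπ
  have a2 : 6 * D * yr c n ^ 2 * π ≤ 6 * D ^ 3 := by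
    calc 6 * D * yr c n ^ 2 * π = 6 * D * (yr c n ^ 2 * π) := by ring
      _ ≤ 6 * D * 1 := mul_le_mul_of_nonneg_left ht1 (by positivity)
      _ ≤ _ := by linarith
  have a3 : D ^ 3 ≤ D ^ 3 * (yr c n * Rr S R t) := le_mul_of_one_le_right (by positivity) hfin
  calc 8 * D ^ 3 * yr c n * Rr S R t + 6 * D * yr c n ^ 2 * π ≤
        8 * (D ^ 3 * (yr c n * Rr S R t)) + 6 * D ^ 3 := by linarith
    _ ≤ 8 * (D ^ 3 * (yr c n * Rr S R t)) + 6 * (D ^ 3 * (yr c n * Rr S R t)) := by linarith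
    _ = _ := by ring

/-- Second moment of `Xw`. -/
lemma eX2 (h : Rng D S R t) (hw : WB D Θ G) :
    E (fun ω => if uu S R t ω ∈ S then 0 else Xw S R t ω (wL c Θ G S R t ω) ^ 2) ≤
      2168 * D ^ 6 * yr c n ^ 3 * Rr S R t := by
  have hD := h.hD
  have hD0 : 0 ≤ D := by linarith
  have hy1 := y1 h c
  have h1 : E (fun ω => if uu S R t ω ∈ S then 0 else Xw S R t ω (wL c Θ G S R t ω) ^ 2) ≤
      E (fun ω => 2 * (if uu S R t ω ∈ S then 0 else Yw S R t ω (wL c Θ G S R t ω) ^ 2) +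
        12 * D * yr c n ^ 2 *
          (if uu S R t ω ∈ S then 0 else |Pw S R t ω (wL c Θ G S R t ω)|)) := by
    apply E_mono
    intro ω
    by_cases hu : uu S R t ω ∈ S
    · simp only [if_pos hu]; norm_num
    · simp only [if_neg hu]
      have e := Yw_eq_Xw (S := S) (R := R) t ω (wL c Θ G S R t ω)
      have h2 := abs_Pw_crude (c := c) h hw ω
      set X := Xw S R t ω (wL c Θ G S R t ω)
      set Y := Yw S R t ω (wL c Θ G S R t ω)
      set P := Pw S R t ω (wL c Θ G S R t ω)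
      have e2 : X = Y - P := by linarith
      have h3 : P ^ 2 ≤ 6 * D * yr c n ^ 2 * |P| := by
        rw [← sq_abs, pow_two]
        exact mul_le_mul_of_nonneg_right h2 (abs_nonneg _)
      rw [e2]
      nlinarith [sq_nonneg (Y + P)]
  rw [E_add, E_mul_left, E_mul_left] at h1
  have h2 := eY2 (c := c) h hw
  have h3 := ePw (c := c) h hw
  have h4 : 12 * D * yr c n ^ 2 *
      E (fun ω => if uu S R t ω ∈ S then 0 else |Pw S R t ω (wL c Θ G S R t ω)|) ≤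
      12 * D * yr c n ^ 2 * (14 * D ^ 3 * yr c n * Rr S R t) :=
    mul_le_mul_of_nonneg_left h3 (by positivity)
  have h5 : 12 * D * yr c n ^ 2 * (14 * D ^ 3 * yr c n * Rr S R t) ≤
      168 * D ^ 6 * yr c n ^ 3 * Rr S R t := by
    have hR := one_le_Rr (S := S) (R := R) t
    have hD46 : D ^ 4 ≤ D ^ 6 := pow_le_pow_right₀ hD (by norm_num)
    have : D ^ 4 * (yr c n ^ 3 * Rr S R t) ≤ D ^ 6 * (yr c n ^ 3 * Rr S R t) :=
      mul_le_mul_of_nonneg_right hD46 (by positivity)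
    calc 12 * D * yr c n ^ 2 * (14 * D ^ 3 * yr c n * Rr S R t) =
          168 * (D ^ 4 * (yr c n ^ 3 * Rr S R t)) := by ring
      _ ≤ 168 * (D ^ 6 * (yr c n ^ 3 * Rr S R t)) := by linarith
      _ = _ := by ring
  have e6 : 2168 * D ^ 6 * yr c n ^ 3 * Rr S R t =
      2 * (1000 * D ^ 6 * yr c n ^ 3 * Rr S R t) + 168 * D ^ 6 * yr c n ^ 3 * Rr S R t := by ring
  rw [e6]
  linarith

/-- Arithmetic for the cross term. -/
lemma numC {z y D ι Rq : ℝ} (hz : 1 ≤ z) (hzy : z ^ 2 ≤ y) (hD : 1 ≤ D)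
    (hι : ι * z ^ 3 ≤ y) (hR : 1 ≤ Rq) :
    2 * D ^ 3 * ι * y / z ^ 2 + 89 * D ^ 5 * (y / z ^ 4) * Rq + D ^ 2 * (y ^ 2 / z) / z ^ 4 +
      D ^ 2 * (z / y ^ 2) / z ^ 4 * (1000 * D ^ 6 * y ^ 3 * Rq) ≤
    1092 * D ^ 8 * (y ^ 2 / z ^ 5) * Rq := by
  have hz0 : 0 < z := by linarith
  have hz2 : z ≤ z ^ 2 := le_self_pow₀ hz (by norm_num)
  have hy0 : 0 < y := by linarith
  have hD0 : 0 < D := by linarith
  have hDp : ∀ i ≤ 8, D ^ i ≤ D ^ 8 := fun i hi => pow_le_pow_right₀ hD hi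
  have hR0 : 0 < Rq := by linarith
  set q := y ^ 2 / z ^ 5 with hq
  have hq0 : 0 < q := by positivity
  have t1 : 2 * D ^ 3 * ι * y / z ^ 2 ≤ 2 * D ^ 8 * q * Rq := by
    have e : 2 * D ^ 3 * ι * y / z ^ 2 = 2 * D ^ 3 * ((ι * z ^ 3) * y / z ^ 5) := by
      field_simp
    rw [e]
    have a1 : (ι * z ^ 3) * y / z ^ 5 ≤ q := by
      rw [hq]
      apply div_le_div_of_nonneg_right _ (by positivity)
      calc (ι * z ^ 3) * y ≤ y * y := mul_le_mul_of_nonneg_right hι hy0.le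
        _ = y ^ 2 := by ring
    have a2 : 2 * D ^ 3 * ((ι * z ^ 3) * y / z ^ 5) ≤ 2 * D ^ 3 * q :=
      mul_le_mul_of_nonneg_left a1 (by positivity)
    have a3 : 2 * D ^ 3 * q ≤ 2 * D ^ 8 * q :=
      mul_le_mul_of_nonneg_right (by linarith [hDp 3 (by norm_num)]) hq0.le
    have a4 : 2 * D ^ 8 * q ≤ 2 * D ^ 8 * q * Rq := le_mul_of_one_le_right (by positivity) hR
    linarith
  have t2 : 89 * D ^ 5 * (y / z ^ 4) * Rq ≤ 89 * D ^ 8 * q * Rq := by
    apply mul_le_mul_of_nonneg_right _ hR0.le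
    have a1 : y / z ^ 4 ≤ q := by
      rw [hq, div_le_div_iff₀ (by positivity) (by positivity)]
      calc y * z ^ 5 = (y * z ^ 4) * z := by ring
        _ ≤ (y * z ^ 4) * y := mul_le_mul_of_nonneg_left (hz2.trans hzy) (by positivity)
        _ = y ^ 2 * z ^ 4 := by ring
    exact mul_le_mul (by linarith [hDp 5 (by norm_num)]) a1 (by positivity) (by positivity)
  have t3 : D ^ 2 * (y ^ 2 / z) / z ^ 4 ≤ D ^ 8 * q * Rq := by
    have e : D ^ 2 * (y ^ 2 / z) / z ^ 4 = D ^ 2 * q := by rw [hq]; field_simp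
    rw [e]
    have a3 : D ^ 2 * q ≤ D ^ 8 * q :=
      mul_le_mul_of_nonneg_right (hDp 2 (by norm_num)) hq0.le
    have a4 : D ^ 8 * q ≤ D ^ 8 * q * Rq := le_mul_of_one_le_right (by positivity) hR
    linarith
  have t4 : D ^ 2 * (z / y ^ 2) / z ^ 4 * (1000 * D ^ 6 * y ^ 3 * Rq) ≤ 1000 * D ^ 8 * q * Rq := by
    have e : D ^ 2 * (z / y ^ 2) / z ^ 4 * (1000 * D ^ 6 * y ^ 3 * Rq) =
        1000 * D ^ 8 * (y / z ^ 3) * Rq := by
      field_simp
    rw [e]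
    apply mul_le_mul_of_nonneg_right _ hR0.le
    apply mul_le_mul_of_nonneg_left _ (by positivity)
    rw [hq, div_le_div_iff₀ (by positivity) (by positivity)]
    calc y * z ^ 5 = (y * z ^ 3) * z ^ 2 := by ring
      _ ≤ (y * z ^ 3) * y := mul_le_mul_of_nonneg_left hzy (by positivity)
      _ = y ^ 2 * z ^ 3 := by ring
  have e : 1092 * D ^ 8 * q * Rq = 2 * D ^ 8 * q * Rq + 89 * D ^ 8 * q * Rq + D ^ 8 * q * Rq +
      1000 * D ^ 8 * q * Rq := by ring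
  rw [e]
  linarith

/-- The cross term. -/
lemma eCross (h : Rng D S R t) (hw : WB D Θ G) {F : Om n → ℝ} (hF : HM S R t F) {φ : ℝ}
    (hφ0 : 0 ≤ φ) (hφ : ∀ ω, |F ω| ≤ φ) :
    |E (fun ω => if uu S R t ω ∈ S then 0 else F ω * Xw S R t ω (wL c Θ G S R t ω))| ≤
      1115 * D ^ 8 * (yr c n ^ 2 / zr n ^ 5) * Rr S R t * φ := by
  have hD := h.hD
  have hD0 : 0 ≤ D := by linarith
  have hn1 := h.n1
  have hz1 := h.z1
  have hy1 := y1 h c
  have hy4 := yr_hi hn1 c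
  have hs1 := h.s1
  have hs0 : 0 < √(n : ℝ) := by linarith
  have hz0 : 0 < zr n := by linarith
  have hy0 : 0 < yr c n := by linarith
  set w := wL c Θ G S R t with hwdef
  have hB : ∀ ω, |F ω| * (23 * ∑ v ∈ As S R t ω, |w ω v|) ≤ φ * (23 * (D * yr c n ^ 2)) := by
    intro ω
    have h1 := sum_abs_wL_le (c := c) (S := S) (R := R) h.n1 hw.hΘ hD0 hw.hG h.hkn t ω
    exact mul_le_mul (hφ ω) (by linarith)
      (mul_nonneg (by norm_num) (Finset.sum_nonneg fun _ _ => abs_nonneg _)) hφ0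
  have h0 := ce1 (S := S) (R := R) h.ht h.hk hF (w := w) (HM_wL t) (SupA_wL t)
    (β := D * √(n : ℝ)) (by positivity) hB
  refine h0.trans ?_
  have hcard : ∀ ω, ((As S R t ω).card : ℝ) = ((n - t : ℕ) : ℝ) := fun ω => by
    rw [card_As S R h.ht.le ω]
  have hk := h.hk
  have hk0 : (0:ℝ) ≤ S.card := Nat.cast_nonneg _
  have hm0 : (0:ℝ) < ((n - t : ℕ) : ℝ) := by linarith
  have h2βm : 2 * (D * √(n : ℝ)) / ((n - t : ℕ) : ℝ) ≤ 2 * D ^ 2 / zr n ^ 4 := by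
    rw [zr_pow4, div_le_div_iff₀ hm0 hs0]
    have hsq : √(n : ℝ) * √(n : ℝ) = n := Real.mul_self_sqrt (Nat.cast_nonneg _)
    calc 2 * (D * √(n : ℝ)) * √(n : ℝ) = 2 * D * (√(n : ℝ) * √(n : ℝ)) := by ring
      _ = 2 * D * n := by rw [hsq]
      _ ≤ 2 * D * (D * ((n - t : ℕ) : ℝ)) := mul_le_mul_of_nonneg_left h.hm (by positivity)
      _ = _ := by ring
  -- pointwise
  have hpt : E (fun ω => if uu S R t ω ∈ S then 0 else |F ω| *
      (errN S R (D * √(n : ℝ)) t ω (w ω) +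
        64 * (∑ v ∈ As S R t ω, |w ω v|) / ((n - t : ℕ) : ℝ))) ≤
      E (fun ω => φ * (2 * D ^ 3 * iot c * yr c n / zr n ^ 2 +
        89 * D ^ 5 * (yr c n / zr n ^ 4) * (1 + arho S R t ω / √(n : ℝ)) +
        D ^ 2 * (yr c n ^ 2 / zr n) / zr n ^ 4 +
        D ^ 2 * (zr n / yr c n ^ 2) / zr n ^ 4 *
          (if uu S R t ω ∈ S then 0 else Yw S R t ω (w ω) ^ 2))) := by
    apply E_mono
    intro ω
    have hι := iot_nonneg c
    by_cases hu : uu S R t ω ∈ S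
    · rw [if_pos hu, if_pos hu]
      have := arho_nonneg (S := S) (R := R) t ω
      positivity
    · rw [if_neg hu, if_neg hu]
      have hval : arho S R t ω = |rho S R t ω| := by unfold arho; rw [if_neg hu]
      rw [hval, errN_eq, hcard]
      have e1 := err_bd (c := c) h hw ω
      rw [← zr_pow4] at e1
      have e1' : errP S R (D * √(n : ℝ)) t ω (w ω) +
          64 * (∑ v ∈ As S R t ω, |w ω v|) / ((n - t : ℕ) : ℝ) ≤
          2 * D ^ 3 * iot c * yr c n / zr n ^ 2 +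
          89 * D ^ 5 * (yr c n / zr n ^ 4) * (1 + |rho S R t ω| / √(n : ℝ)) := by
        rw [← zr_pow4]; exact e1
      have hYn := abs_nonneg (Yw S R t ω (w ω))
      have e2 : 2 * (D * √(n : ℝ)) / ((n - t : ℕ) : ℝ) * |Yw S R t ω (w ω)| ≤
          D ^ 2 * (yr c n ^ 2 / zr n) / zr n ^ 4 +
          D ^ 2 * (zr n / yr c n ^ 2) / zr n ^ 4 * Yw S R t ω (w ω) ^ 2 := by
        have a1 : 2 * |Yw S R t ω (w ω)| ≤ yr c n ^ 2 / zr n +
            zr n / yr c n ^ 2 * Yw S R t ω (w ω) ^ 2 := by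
          rw [← sq_abs (Yw S R t ω (w ω))]
          set Y := |Yw S R t ω (w ω)|
          set l := yr c n ^ 2 / zr n with hl
          have hl0 : 0 < l := by positivity
          have e3 : zr n / yr c n ^ 2 = 1 / l := by rw [hl]; field_simp
          rw [e3]
          have : 0 ≤ (Y - l) ^ 2 / l := by positivity
          have e4 : (Y - l) ^ 2 / l = 1 / l * Y ^ 2 + l - 2 * Y := by field_simp; ring
          linarith
        calc 2 * (D * √(n : ℝ)) / ((n - t : ℕ) : ℝ) * |Yw S R t ω (w ω)| ≤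
              2 * D ^ 2 / zr n ^ 4 * |Yw S R t ω (w ω)| := mul_le_mul_of_nonneg_right h2βm hYn
          _ = D ^ 2 / zr n ^ 4 * (2 * |Yw S R t ω (w ω)|) := by ring
          _ ≤ D ^ 2 / zr n ^ 4 * (yr c n ^ 2 / zr n +
            zr n / yr c n ^ 2 * Yw S R t ω (w ω) ^ 2) :=
              mul_le_mul_of_nonneg_left a1 (by positivity)
          _ = _ := by ring
      have e0 : 0 ≤ errP S R (D * √(n : ℝ)) t ω (w ω) +
          2 * (D * √(n : ℝ)) / ((n - t : ℕ) : ℝ) * |Yw S R t ω (w ω)| +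
          64 * (∑ v ∈ As S R t ω, |w ω v|) / ((n - t : ℕ) : ℝ) := by
        unfold errP
        have := nrm_nonneg (Ns S R t ω) (w ω)
        have := nrm_nonneg (As S R t ω) (w ω)
        have : 0 ≤ ∑ v ∈ As S R t ω, |w ω v| := Finset.sum_nonneg fun _ _ => abs_nonneg _
        positivity
      apply mul_le_mul (hφ ω) _ e0 hφ0
      linarith
  have hEq : E (fun ω => φ * (2 * D ^ 3 * iot c * yr c n / zr n ^ 2 +
        89 * D ^ 5 * (yr c n / zr n ^ 4) * (1 + arho S R t ω / √(n : ℝ)) +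
        D ^ 2 * (yr c n ^ 2 / zr n) / zr n ^ 4 +
        D ^ 2 * (zr n / yr c n ^ 2) / zr n ^ 4 *
          (if uu S R t ω ∈ S then 0 else Yw S R t ω (w ω) ^ 2))) =
      φ * (2 * D ^ 3 * iot c * yr c n / zr n ^ 2 +
        89 * D ^ 5 * (yr c n / zr n ^ 4) * Rr S R t +
        D ^ 2 * (yr c n ^ 2 / zr n) / zr n ^ 4 +
        D ^ 2 * (zr n / yr c n ^ 2) / zr n ^ 4 *
          E (fun ω => if uu S R t ω ∈ S then 0 else Yw S R t ω (w ω) ^ 2)) := by
    rw [E_mul_left, E_add, E_add, E_add, E_const, E_const, E_mul_left, E_mul_left, E_add, E_const]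
    have e : E (fun ω => arho S R t ω / √(n : ℝ)) = E (arho S R t) / √(n : ℝ) := by
      simp only [div_eq_mul_inv]
      rw [E_mul_right]
    rw [e]
    rfl
  rw [hEq] at hpt
  have hY2 := eY2 (c := c) h hw
  have hR := one_le_Rr (S := S) (R := R) t
  have hc0 : 0 ≤ D ^ 2 * (zr n / yr c n ^ 2) / zr n ^ 4 := by positivity
  have hnum := numC (z := zr n) (y := yr c n) (D := D) (ι := iot c) (Rq := Rr S R t) hz1
    (yr_lo hn1 c) hD (iot_le hn1 c) hR
  have hmain : φ * (2 * D ^ 3 * iot c * yr c n / zr n ^ 2 +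
        89 * D ^ 5 * (yr c n / zr n ^ 4) * Rr S R t +
        D ^ 2 * (yr c n ^ 2 / zr n) / zr n ^ 4 +
        D ^ 2 * (zr n / yr c n ^ 2) / zr n ^ 4 *
          E (fun ω => if uu S R t ω ∈ S then 0 else Yw S R t ω (w ω) ^ 2)) ≤
      φ * (1092 * D ^ 8 * (yr c n ^ 2 / zr n ^ 5) * Rr S R t) := by
    apply mul_le_mul_of_nonneg_left _ hφ0
    have := mul_le_mul_of_nonneg_left hY2 hc0
    linarith
  have ht1 : Pr (fun ω => ¬ OpB ω (As S R t ω) (D * √(n : ℝ))) ≤ 1 / zr n ^ 5 := by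
    have := h.tiny (x := 1) (one_le_pow₀ hn1)
    rw [one_mul] at this
    refine this.trans ?_
    rw [← zr_pow8 n]
    exact one_div_le_one_div_of_le (by positivity) (pow_le_pow_right₀ hz1 (by norm_num))
  have hlast : φ * (23 * (D * yr c n ^ 2)) *
      Pr (fun ω => ¬ OpB ω (As S R t ω) (D * √(n : ℝ))) ≤
      23 * D ^ 8 * (yr c n ^ 2 / zr n ^ 5) * Rr S R t * φ := by
    have hD8 : D ≤ D ^ 8 := le_self_pow₀ hD (by norm_num)
    calc _ ≤ φ * (23 * (D * yr c n ^ 2)) * (1 / zr n ^ 5) :=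
          mul_le_mul_of_nonneg_left ht1 (by positivity)
      _ = 23 * D * (yr c n ^ 2 / zr n ^ 5) * φ := by ring
      _ ≤ 23 * D ^ 8 * (yr c n ^ 2 / zr n ^ 5) * φ := by
          apply mul_le_mul_of_nonneg_right _ hφ0
          exact mul_le_mul_of_nonneg_right (by linarith) (by positivity)
      _ = 23 * D ^ 8 * (yr c n ^ 2 / zr n ^ 5) * 1 * φ := by ring
      _ ≤ _ := by
          apply mul_le_mul_of_nonneg_right _ hφ0
          exact mul_le_mul_of_nonneg_left hR (by positivity)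
  calc _ ≤ φ * (1092 * D ^ 8 * (yr c n ^ 2 / zr n ^ 5) * Rr S R t) +
        23 * D ^ 8 * (yr c n ^ 2 / zr n ^ 5) * Rr S R t * φ := by linarith
    _ = _ := by ring

end Pool.Agent.H40.Peel
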