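import Pool.Agent.H40.Peel.LLN2

/-!
Law of large numbers, part 3: one step expansion.
-/

namespace Pool.Agent.H40.Peel

open Finset Filter

variable {n : ℕ} {S : Finset (Fin n)} {R : TieRule n}

/-! ### Martingale part -/

/-- The (approximately centred) increment. -/
noncomputable def XtL (c : Bool) (Θ : ℝ) (G : ℝ → ℝ → ℝ) (S : Finset (Fin n)) (R : TieRule n)
    (t : ℕ) (ω : Om n) : ℝ :=
  if uu S R t ω ∈ S then 0 else
    (∑ v ∈ As S R t ω, wL c Θ G S R t ω v * (Mv S R (t + 1) ω v - Mv S R t ω v)) / qc c n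

variable {c : Bool} {Θ D : ℝ} {G : ℝ → ℝ → ℝ} {t : ℕ}

lemma HM_XtL (t : ℕ) : HM S R (t + 1) (XtL c Θ G S R t) := by
  intro ω ω' h
  have h1 := (HM_uu t).succ ω ω' h
  have h2 := (HM_As t).succ ω ω' h
  have h3 := (HM_wL (c := c) (Θ := Θ) (G := G) (S := S) (R := R) t).succ ω ω' h
  have h4 := HM_Mv (S := S) (R := R) (t + 1) ω ω' h
  have h5 := (HM_Mv (S := S) (R := R) t).succ ω ω' h
  unfold XtL
  rw [h1, h2, h3, h4, h5]

lemma XtL_eq (ht : t < n) {ω : Om n} (hr : 1 < rr S R t ω) :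
    XtL c Θ G S R t ω = if uu S R t ω ∈ S then 0 else
      (-(√(n : ℝ) / (rr S R t ω - 1)) / qc c n) * Xw S R t ω (wL c Θ G S R t ω) := by
  unfold XtL
  by_cases hu : uu S R t ω ∈ S
  · rw [if_pos hu, if_pos hu]
  · rw [if_neg hu, if_neg hu]
    unfold Xw
    rw [Finset.mul_sum, Finset.sum_div]
    refine Finset.sum_congr rfl fun v _ => ?_
    by_cases h0 : wL c Θ G S R t ω v = 0
    · rw [h0]; ring
    · obtain ⟨h1, h2⟩ := SupA_wL t ω v h0
      rw [Mv_succ_N ht (mem_As_succ.2 ⟨h1, h2⟩) hu hr]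
      ring

/-! ### Arithmetic of the expansion -/

/-- Nonplanted removal. -/
lemma exp_N {D Θ s r e p : ℝ} {H0 H' h1 h2 ht C0 : ℝ} (hD : 1 ≤ D) (hΘ : 0 < Θ) (hΘD : Θ ≤ D)
    (hC0 : 0 ≤ C0) (hCD : C0 ≤ D) (hs : 7 * D ≤ s) (hr : 1 < r) (hact : s ^ 2 ≤ Θ * (r - 1))
    (he : e ^ 2 = 1) (hp : |p| ≤ 6) (hh2 : |h2| ≤ C0) (hsub : 0 ≤ ht + h2 / 2)
    (hexp : |H' - H0 - ht * (s ^ 2 / (r - 1) - s ^ 2 / r) - h1 * (-(s / (r - 1) * (e - p))) -
      h2 / 2 * (-(s / (r - 1) * (e - p))) ^ 2| ≤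
      C0 * (|-(s / (r - 1) * (e - p))| ^ 3 +
        |s ^ 2 / (r - 1) - s ^ 2 / r| * |-(s / (r - 1) * (e - p))| +
        (s ^ 2 / (r - 1) - s ^ 2 / r) ^ 2)) :
    H0 + h1 * (-(s / (r - 1) * (e - p))) - 4 * D ^ 3 / s ^ 2 * |p| - 352 * D ^ 4 / s ^ 3 ≤ H' := by
  have hD0 : 0 < D := by linarith
  have hs0 : 0 < s := by linarith
  have hr1 : 0 < r - 1 := by linarith
  have hr0 : 0 < r := by linarith
  -- `1/(r-1) ≤ Θ/s²`
  have hinv : 1 / (r - 1) ≤ D / s ^ 2 := by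
    rw [div_le_div_iff₀ hr1 (by positivity)]
    have : Θ * (r - 1) ≤ D * (r - 1) := mul_le_mul_of_nonneg_right hΘD hr1.le
    linarith
  have hinv0 : 0 ≤ 1 / (r - 1) := by positivity
  have hinvr : 1 / r ≤ D / s ^ 2 := by
    have : 1 / r ≤ 1 / (r - 1) := one_div_le_one_div_of_le hr1 (by linarith)
    linarith
  have he1 : |e| = 1 := by
    have : |e| ^ 2 = 1 := by rw [sq_abs, he]
    nlinarith [abs_nonneg e]
  have hep : |e - p| ≤ 7 := by
    have := abs_sub e p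
    linarith
  obtain ⟨Δ, hΔ⟩ : ∃ Δ, Δ = s ^ 2 / (r - 1) - s ^ 2 / r := ⟨_, rfl⟩
  obtain ⟨δ, hδ⟩ : ∃ δ, δ = -(s / (r - 1) * (e - p)) := ⟨_, rfl⟩
  rw [← hΔ, ← hδ] at hexp
  rw [← hδ]
  have hΔeq : Δ = s ^ 2 * ((1 / (r - 1)) * (1 / r)) := by rw [hΔ]; field_simp; ring
  have hΔ0 : 0 ≤ Δ := by rw [hΔeq]; positivity
  have hΔ1 : Δ ≤ D ^ 2 / s ^ 2 := by
    rw [hΔeq]
    calc s ^ 2 * ((1 / (r - 1)) * (1 / r)) ≤ s ^ 2 * ((D / s ^ 2) * (D / s ^ 2)) := by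
          apply mul_le_mul_of_nonneg_left _ (by positivity)
          exact mul_le_mul hinv hinvr (by positivity) (by positivity)
      _ = _ := by field_simp
  have hδ1 : |δ| ≤ 7 * D / s := by
    rw [hδ, abs_neg, abs_mul, abs_div, abs_of_pos hs0, abs_of_pos hr1]
    calc s / (r - 1) * |e - p| = s * (1 / (r - 1)) * |e - p| := by ring
      _ ≤ s * (D / s ^ 2) * 7 := by
          apply mul_le_mul _ hep (abs_nonneg _) (by positivity)
          exact mul_le_mul_of_nonneg_left hinv hs0.le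
      _ = _ := by field_simp
  have hδ0 := abs_nonneg δ
  -- the error term
  have herr : C0 * (|δ| ^ 3 + |Δ| * |δ| + Δ ^ 2) ≤ 351 * D ^ 4 / s ^ 3 := by
    rw [abs_of_nonneg hΔ0]
    have a1 : |δ| ^ 3 ≤ (7 * D / s) ^ 3 := pow_le_pow_left₀ hδ0 hδ1 3
    have a2 : Δ * |δ| ≤ (D ^ 2 / s ^ 2) * (7 * D / s) :=
      mul_le_mul hΔ1 hδ1 hδ0 (by positivity)
    have a3 : Δ ^ 2 ≤ (D ^ 2 / s ^ 2) ^ 2 := pow_le_pow_left₀ hΔ0 hΔ1 2
    have a4 : (D ^ 2 / s ^ 2) ^ 2 ≤ D ^ 3 / s ^ 3 := by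
      have : (D ^ 2 / s ^ 2) ^ 2 = D ^ 3 / s ^ 3 * (D / s) := by field_simp
      rw [this]
      apply mul_le_of_le_one_right (by positivity)
      rw [div_le_one hs0]; linarith
    have a5 : |δ| ^ 3 + Δ * |δ| + Δ ^ 2 ≤ 351 * D ^ 3 / s ^ 3 := by
      have e1 : (7 * D / s) ^ 3 = 343 * D ^ 3 / s ^ 3 := by ring
      have e2 : (D ^ 2 / s ^ 2) * (7 * D / s) = 7 * D ^ 3 / s ^ 3 := by field_simp
      rw [e1] at a1
      rw [e2] at a2
      have e3 : 351 * D ^ 3 / s ^ 3 = 343 * D ^ 3 / s ^ 3 + 7 * D ^ 3 / s ^ 3 + D ^ 3 / s ^ 3 := by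
        ring
      rw [e3]
      linarith
    calc C0 * (|δ| ^ 3 + Δ * |δ| + Δ ^ 2) ≤ D * (351 * D ^ 3 / s ^ 3) :=
          mul_le_mul hCD a5 (by positivity) hD0.le
      _ = _ := by ring
  -- the second order part
  have hsecond : -(D ^ 4 / s ^ 3) - 4 * D ^ 3 / s ^ 2 * |p| ≤ ht * Δ + h2 / 2 * δ ^ 2 := by
    have e1 : δ ^ 2 = s ^ 2 * (1 / (r - 1)) ^ 2 * (1 + (p ^ 2 - 2 * e * p)) := by
      rw [hδ]
      have : (-(s / (r - 1) * (e - p))) ^ 2 =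
          s ^ 2 * (1 / (r - 1)) ^ 2 * (e ^ 2 + (p ^ 2 - 2 * e * p)) := by ring
      rw [this, he]
    have e2 : ht * Δ + h2 / 2 * δ ^ 2 = Δ * (ht + h2 / 2) +
        h2 / 2 * (s ^ 2 * (1 / (r - 1)) ^ 2 - Δ) +
        h2 / 2 * (s ^ 2 * (1 / (r - 1)) ^ 2 * (p ^ 2 - 2 * e * p)) := by
      rw [e1]; ring
    rw [e2]
    have b1 : 0 ≤ Δ * (ht + h2 / 2) := mul_nonneg hΔ0 hsub
    have b2 : s ^ 2 * (1 / (r - 1)) ^ 2 - Δ = s ^ 2 * ((1 / (r - 1)) ^ 2 * (1 / r)) := by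
      rw [hΔeq]; field_simp; ring
    have b3 : s ^ 2 * ((1 / (r - 1)) ^ 2 * (1 / r)) ≤ D ^ 3 / s ^ 4 := by
      calc s ^ 2 * ((1 / (r - 1)) ^ 2 * (1 / r)) ≤ s ^ 2 * ((D / s ^ 2) ^ 2 * (D / s ^ 2)) := by
            apply mul_le_mul_of_nonneg_left _ (by positivity)
            exact mul_le_mul (pow_le_pow_left₀ hinv0 hinv 2) hinvr (by positivity) (by positivity)
        _ = _ := by field_simp
    have b4 : |h2 / 2 * (s ^ 2 * (1 / (r - 1)) ^ 2 - Δ)| ≤ D / 2 * (D ^ 3 / s ^ 4) := by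
      rw [b2, abs_mul, abs_of_nonneg (by positivity : 0 ≤ s ^ 2 * ((1 / (r - 1)) ^ 2 * (1 / r))),
        abs_div, abs_two]
      apply mul_le_mul _ b3 (by positivity) (by positivity)
      linarith
    have b5 : D / 2 * (D ^ 3 / s ^ 4) ≤ D ^ 4 / s ^ 3 := by
      have e3 : D / 2 * (D ^ 3 / s ^ 4) = D ^ 4 / s ^ 3 * (1 / (2 * s)) := by field_simp
      rw [e3]
      apply mul_le_of_le_one_right (by positivity)
      rw [div_le_one (by positivity)]; linarith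
    have b6 : |p ^ 2 - 2 * e * p| ≤ 8 * |p| := by
      have c1 : |p ^ 2 - 2 * e * p| ≤ |p ^ 2| + |2 * e * p| := abs_sub _ _
      have c2 : |p ^ 2| = |p| * |p| := by rw [pow_two, abs_mul]
      have c3 : |2 * e * p| = 2 * |p| := by rw [abs_mul, abs_mul, he1, abs_two]; ring
      rw [c2, c3] at c1
      have : |p| * |p| ≤ 6 * |p| := mul_le_mul_of_nonneg_right hp (abs_nonneg _)
      linarith
    have b7 : s ^ 2 * (1 / (r - 1)) ^ 2 ≤ D ^ 2 / s ^ 2 := by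
      calc s ^ 2 * (1 / (r - 1)) ^ 2 ≤ s ^ 2 * (D / s ^ 2) ^ 2 :=
            mul_le_mul_of_nonneg_left (pow_le_pow_left₀ hinv0 hinv 2) (by positivity)
        _ = _ := by field_simp
    have b8 : |h2 / 2 * (s ^ 2 * (1 / (r - 1)) ^ 2 * (p ^ 2 - 2 * e * p))| ≤
        4 * D ^ 3 / s ^ 2 * |p| := by
      rw [abs_mul, abs_mul, abs_of_nonneg (by positivity : 0 ≤ s ^ 2 * (1 / (r - 1)) ^ 2),
        abs_div, abs_two]
      calc |h2| / 2 * (s ^ 2 * (1 / (r - 1)) ^ 2 * |p ^ 2 - 2 * e * p|) ≤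
            D / 2 * (D ^ 2 / s ^ 2 * (8 * |p|)) := by
            apply mul_le_mul (by linarith) _ (by positivity) (by positivity)
            exact mul_le_mul b7 b6 (abs_nonneg _) (by positivity)
        _ = _ := by ring
    have b9 := (abs_le.1 b4).1
    have b10 := (abs_le.1 b8).1
    linarith
  have hlow := (abs_le.1 hexp).1
  have e9 : 352 * D ^ 4 / s ^ 3 = 351 * D ^ 4 / s ^ 3 + D ^ 4 / s ^ 3 := by ring
  rw [e9]
  linarith

/-- Planted removal, effect on a nonplanted vertex. -/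
lemma exp_S {D Θ s r e : ℝ} {H0 H' h1 h2 C0 : ℝ} (hD : 1 ≤ D) (hΘ : 0 < Θ) (hΘD : Θ ≤ D)
    (hC0 : 0 ≤ C0) (hCD : C0 ≤ D) (hs : 7 * D ≤ s) (hr : 0 < r) (hact : s ^ 2 ≤ Θ * r)
    (he : |e| ≤ 1) (hh2 : |h2| ≤ C0)
    (hexp : |H' - H0 - h1 * (-(s / r * e)) - h2 / 2 * (-(s / r * e)) ^ 2| ≤
      C0 * |-(s / r * e)| ^ 3) :
    H0 + h1 * (-(s / r * e)) - 2 * D ^ 3 / s ^ 2 ≤ H' := by
  have hD0 : 0 < D := by linarith
  have hs0 : 0 < s := by linarith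
  have hinv : s / r ≤ D / s := by
    rw [div_le_div_iff₀ hr hs0]
    have : Θ * r ≤ D * r := mul_le_mul_of_nonneg_right hΘD hr.le
    nlinarith
  obtain ⟨δ, hδ⟩ : ∃ δ, δ = -(s / r * e) := ⟨_, rfl⟩
  rw [← hδ] at hexp ⊢
  have hδ1 : |δ| ≤ D / s := by
    rw [hδ, abs_neg, abs_mul, abs_div, abs_of_pos hs0, abs_of_pos hr]
    calc s / r * |e| ≤ D / s * 1 := mul_le_mul hinv he (abs_nonneg _) (by positivity)
      _ = _ := by ring
  have hδ0 := abs_nonneg δ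
  have hDs : D / s ≤ 1 := by rw [div_le_one hs0]; linarith
  have a1 : C0 * |δ| ^ 3 ≤ D * (D / s) ^ 2 := by
    have : |δ| ^ 3 ≤ (D / s) ^ 2 := by
      calc |δ| ^ 3 ≤ (D / s) ^ 3 := pow_le_pow_left₀ hδ0 hδ1 3
        _ = (D / s) ^ 2 * (D / s) := by ring
        _ ≤ (D / s) ^ 2 * 1 := mul_le_mul_of_nonneg_left hDs (by positivity)
        _ = _ := by ring
    exact mul_le_mul hCD this (by positivity) hD0.le
  have a2 : |h2 / 2 * δ ^ 2| ≤ D * (D / s) ^ 2 := by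
    rw [abs_mul, abs_of_nonneg (sq_nonneg δ), abs_div, abs_two, ← sq_abs δ]
    apply mul_le_mul _ (pow_le_pow_left₀ hδ0 hδ1 2) (by positivity) hD0.le
    linarith
  have e1 : 2 * D ^ 3 / s ^ 2 = D * (D / s) ^ 2 + D * (D / s) ^ 2 := by ring
  rw [e1]
  have b1 := (abs_le.1 hexp).1
  have b2 := (abs_le.1 a2).1
  linarith

lemma div_le_D {D Θ s r : ℝ} (hs : 0 < s) (hr : 0 < r) (hΘD : Θ ≤ D) (h : s ^ 2 ≤ Θ * r) :
    s / r ≤ D / s := by
  rw [div_le_div_iff₀ hr hs]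
  have : Θ * r ≤ D * r := mul_le_mul_of_nonneg_right hΘD hr.le
  linarith [pow_two s]

lemma div_le_one' {D Θ s r : ℝ} (hs : 0 < s) (hDs : D ≤ s) (hr : 0 < r) (hΘD : Θ ≤ D)
    (h : s ^ 2 ≤ Θ * r) : s / r ≤ 1 :=
  (div_le_D hs hr hΘD h).trans (by rw [div_le_one hs]; exact hDs)

/-! ### One step -/

/-- The error of one step. -/
noncomputable def ErL (c : Bool) (Θ D : ℝ) (G : ℝ → ℝ → ℝ) (S : Finset (Fin n)) (R : TieRule n)
    (t : ℕ) (ω : Om n) : ℝ :=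
  if uu S R t ω ∈ S then
    2 * D ^ 3 / n + iot c * (D / √(n : ℝ) ^ 3 * |Yw S R t ω (wL c Θ G S R t ω)|)
  else
    4 * D ^ 3 / (n * qc c n) * ∑ v ∈ Pc c S R (t + 1) ω, |pv S R t ω v| +
      352 * D ^ 4 / √(n : ℝ) ^ 3

lemma Qf_split (H : ℝ → ℝ → ℝ) (ht : t < n) (ω : Om n) :
    Qf c S R H t ω = (∑ v ∈ Pc c S R (t + 1) ω, H (n / rr S R t ω) (Mv S R t ω v)) / qc c n +
      (if uu S R t ω ∈ Pc c S R t ω then
        H (n / rr S R t ω) (Mv S R t ω (uu S R t ω)) else 0) / qc c n := by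
  unfold Qf
  rw [Pc_succ, ← add_div]
  congr 1
  by_cases h : uu S R t ω ∈ Pc c S R t ω
  · rw [if_pos h, Finset.sum_erase_add _ _ h]
  · rw [if_neg h, Finset.erase_eq_of_notMem h, add_zero]

/-- One step inequality, planted removal. -/
lemma one_step_S {H : ℝ → ℝ → ℝ} {C0 : ℝ} {H1 H2 Ht : ℝ → ℝ → ℝ} (hD : 1 ≤ D) (hΘ : 0 < Θ)
    (hΘD : Θ ≤ D) (hC0 : 0 ≤ C0) (hCD : C0 ≤ D) (hs : 7 * D ^ 2 ≤ √(n : ℝ))
    (hb : ∀ s y, 0 ≤ s → s ≤ Θ → |H s y| ≤ C0 ∧ |H1 s y| ≤ C0 ∧ |H2 s y| ≤ C0 ∧ |Ht s y| ≤ C0 ∧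
      0 ≤ Ht s y + H2 s y / 2)
    (hexp : ∀ s s' y δ, 0 ≤ s → s ≤ Θ → 0 ≤ s' → s' ≤ Θ → |s' - s| ≤ 1 → |δ| ≤ 1 →
      |H s' (y + δ) - H s y - Ht s y * (s' - s) - H1 s y * δ - H2 s y / 2 * δ ^ 2| ≤
        C0 * (|δ| ^ 3 + |s' - s| * |δ| + (s' - s) ^ 2))
    (ht : t < n) (hk : 2 * ((S.card : ℝ) + 1) ≤ ((n - t : ℕ) : ℝ))
    (hkn : (S.card : ℝ) ≤ √(n : ℝ)) {ω : Om n}
    (hact : (n : ℝ) ≤ Θ * rr S R (t + 1) ω) (hu : uu S R t ω ∈ S) :
    Qf c S R H t ω - (if uu S R t ω ∈ Pc c S R t ω then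
        H (n / rr S R t ω) (Mv S R t ω (uu S R t ω)) else 0) / qc c n +
      XtL c Θ H1 S R t ω - ErL c Θ D H1 S R t ω ≤ Qf c S R H (t + 1) ω := by
  have hk0 : (0:ℝ) ≤ S.card := Nat.cast_nonneg _
  have hD0 : 0 < D := by linarith
  have hmn : ((n - t : ℕ) : ℝ) ≤ n := by exact_mod_cast Nat.sub_le n t
  have hn1 : (1:ℝ) ≤ n := by linarith
  have hn0 : (0:ℝ) < n := by linarith
  have hr := rr_half (S := S) (R := R) ht.le hk ω
  have hr1 : 1 < rr S R t ω := by linarith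
  obtain ⟨s, hsdef⟩ : ∃ s, s = √(n : ℝ) := ⟨_, rfl⟩
  have hssq : s ^ 2 = n := by rw [hsdef]; exact Real.sq_sqrt (by linarith)
  rw [← hsdef] at hs
  have hD2 : D ≤ D ^ 2 := le_self_pow₀ hD (by norm_num)
  have hs7 : 7 * D ≤ s := by linarith
  have hs0 : 0 < s := by linarith
  have hq0 : 0 < qc c n := by
    unfold qc; split_ifs
    · exact Real.sqrt_pos.2 hn0
    · exact hn0
  have hτ := tau_le (S := S) (R := R) hn1 hΘ hact
  have hcard : ((As S R t ω).card : ℝ) = ((n - t : ℕ) : ℝ) := by rw [card_As S R ht.le ω]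
  rw [Qf_split H ht ω]
  have hrr : rr S R (t + 1) ω = rr S R t ω := rr_succ_of_mem hu
  have hX : XtL c Θ H1 S R t ω = 0 := by unfold XtL; rw [if_pos hu]
  rw [hX]
  have hEr : ErL c Θ D H1 S R t ω =
      2 * D ^ 3 / n + iot c * (D / √(n : ℝ) ^ 3 * |Yw S R t ω (wL c Θ H1 S R t ω)|) := by
    unfold ErL; rw [if_pos hu]
  rw [hEr]
  rw [hrr] at hact
  cases c with
  | true =>
    have hQ : Qf true S R H (t + 1) ω =
        (∑ v ∈ Pc true S R (t + 1) ω, H (n / rr S R t ω) (Mv S R t ω v)) / qc true n := by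
      unfold Qf
      rw [hrr]
      congr 1
      refine Finset.sum_congr rfl fun v hv => ?_
      simp only [Pc, if_true] at hv
      rw [Mv_succ_SS hv hu]
    rw [hQ]
    have : iot true = 0 := by simp [iot]
    rw [this]
    have : 0 ≤ 2 * D ^ 3 / n := by positivity
    linarith
  | false =>
    have hι : iot false = 1 := by simp [iot]
    rw [hι, one_mul]
    have hqc : qc false n = n := by simp [qc]
    rw [hqc]
    have hpt : ∀ v ∈ Pc false S R (t + 1) ω,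
        H (n / rr S R t ω) (Mv S R t ω v) +
          H1 (n / rr S R t ω) (Mv S R t ω v) * (-(s / rr S R t ω * e0 ω v (uu S R t ω))) -
          2 * D ^ 3 / s ^ 2 ≤ H (n / rr S R (t + 1) ω) (Mv S R (t + 1) ω v) := by
      intro v hv
      have hvN : v ∈ Ns S R (t + 1) ω := by simpa [Pc] using hv
      rw [hrr, Mv_succ_SN ht hvN hu, ← hsdef]
      have hb' := hb (n / rr S R t ω) (Mv S R t ω v) hτ.1 hτ.2
      have hδ1 : |-(s / rr S R t ω * e0 ω v (uu S R t ω))| ≤ 1 := by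
        rw [abs_neg, abs_mul, abs_div, abs_of_pos hs0, abs_of_pos (by linarith : 0 < rr S R t ω)]
        have a1 : s / rr S R t ω ≤ 1 :=
          div_le_one' hs0 (by linarith) (by linarith) hΘD (by rw [hssq]; exact hact)
        calc s / rr S R t ω * |e0 ω v (uu S R t ω)| ≤ 1 * 1 :=
              mul_le_mul a1 (abs_e0_le _ _ _) (abs_nonneg _) zero_le_one
          _ = 1 := by norm_num
      have hE := hexp (n / rr S R t ω) (n / rr S R t ω) (Mv S R t ω v)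
        (-(s / rr S R t ω * e0 ω v (uu S R t ω))) hτ.1 hτ.2 hτ.1 hτ.2
        (by rw [sub_self, abs_zero]; norm_num) hδ1
      have hsub : Mv S R t ω v + -(s / rr S R t ω * e0 ω v (uu S R t ω)) =
          Mv S R t ω v - s / rr S R t ω * e0 ω v (uu S R t ω) := by ring
      rw [hsub] at hE
      have hE' : |H (n / rr S R t ω) (Mv S R t ω v - s / rr S R t ω * e0 ω v (uu S R t ω)) -
          H (n / rr S R t ω) (Mv S R t ω v) - H1 (n / rr S R t ω) (Mv S R t ω v) *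
            (-(s / rr S R t ω * e0 ω v (uu S R t ω))) -
          H2 (n / rr S R t ω) (Mv S R t ω v) / 2 *
            (-(s / rr S R t ω * e0 ω v (uu S R t ω))) ^ 2| ≤
          C0 * |-(s / rr S R t ω * e0 ω v (uu S R t ω))| ^ 3 := by
        simpa using hE
      exact exp_S hD hΘ hΘD hC0 hCD hs7 (by linarith) (by rw [hssq]; exact hact)
        (abs_e0_le _ _ _) hb'.2.2.1 hE'
    have hsum := Finset.sum_le_sum hpt
    rw [Finset.sum_sub_distrib, Finset.sum_add_distrib, Finset.sum_const, nsmul_eq_mul] at hsum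
    have hYw : ∑ v ∈ Pc false S R (t + 1) ω, H1 (n / rr S R t ω) (Mv S R t ω v) *
        (-(s / rr S R t ω * e0 ω v (uu S R t ω))) =
        -(s / rr S R t ω) * Yw S R t ω (wL false Θ H1 S R t ω) := by
      unfold Yw
      rw [Finset.mul_sum]
      have hsub : Pc false S R (t + 1) ω ⊆ As S R t ω := fun v hv => (mem_Pc_succ_As hv).1
      rw [← Finset.sum_subset hsub]
      · refine Finset.sum_congr rfl fun v hv => ?_
        have : wL false Θ H1 S R t ω v = H1 (n / rr S R t ω) (Mv S R t ω v) := by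
          unfold wL
          rw [if_pos ⟨by rw [hrr]; exact hact, hv⟩]
        rw [this]; ring
      · intro v _ hv
        have : wL false Θ H1 S R t ω v = 0 := by
          unfold wL
          rw [if_neg fun h => hv h.2]
        rw [this]; ring
    rw [hYw] at hsum
    have hcardP : ((Pc false S R (t + 1) ω).card : ℝ) ≤ n := by
      exact_mod_cast (Finset.card_le_univ _).trans_eq (Fintype.card_fin n)
    have h5 : ((Pc false S R (t + 1) ω).card : ℝ) * (2 * D ^ 3 / s ^ 2) ≤ 2 * D ^ 3 := by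
      calc ((Pc false S R (t + 1) ω).card : ℝ) * (2 * D ^ 3 / s ^ 2) ≤
            n * (2 * D ^ 3 / s ^ 2) := mul_le_mul_of_nonneg_right hcardP (by positivity)
        _ = 2 * D ^ 3 := by rw [hssq]; field_simp
    have h6 : -(D / s * |Yw S R t ω (wL false Θ H1 S R t ω)|) ≤
        -(s / rr S R t ω) * Yw S R t ω (wL false Θ H1 S R t ω) := by
      have a1 : s / rr S R t ω ≤ D / s :=
        div_le_D hs0 (by linarith) hΘD (by rw [hssq]; exact hact)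
      have a2 : 0 ≤ s / rr S R t ω := by
        apply div_nonneg hs0.le; linarith
      have a3 := le_abs_self (Yw S R t ω (wL false Θ H1 S R t ω))
      have a4 := abs_nonneg (Yw S R t ω (wL false Θ H1 S R t ω))
      have a5 : s / rr S R t ω * Yw S R t ω (wL false Θ H1 S R t ω) ≤
          s / rr S R t ω * |Yw S R t ω (wL false Θ H1 S R t ω)| :=
        mul_le_mul_of_nonneg_left a3 a2
      have a6 : s / rr S R t ω * |Yw S R t ω (wL false Θ H1 S R t ω)| ≤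
          D / s * |Yw S R t ω (wL false Θ H1 S R t ω)| :=
        mul_le_mul_of_nonneg_right a1 a4
      linarith
    have hQ : Qf false S R H (t + 1) ω =
        (∑ v ∈ Pc false S R (t + 1) ω,
          H (n / rr S R (t + 1) ω) (Mv S R (t + 1) ω v)) / n := by
      unfold Qf; rw [hqc]
    rw [hQ]
    have h7 : ((∑ v ∈ Pc false S R (t + 1) ω, H (n / rr S R t ω) (Mv S R t ω v)) -
        D / s * |Yw S R t ω (wL false Θ H1 S R t ω)| - 2 * D ^ 3) / n ≤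
        (∑ v ∈ Pc false S R (t + 1) ω,
          H (n / rr S R (t + 1) ω) (Mv S R (t + 1) ω v)) / n := by
      apply div_le_div_of_nonneg_right _ hn0.le
      linarith
    have e8 : ((∑ v ∈ Pc false S R (t + 1) ω, H (n / rr S R t ω) (Mv S R t ω v)) -
        D / s * |Yw S R t ω (wL false Θ H1 S R t ω)| - 2 * D ^ 3) / n =
        (∑ v ∈ Pc false S R (t + 1) ω, H (n / rr S R t ω) (Mv S R t ω v)) / n -
        D / s ^ 3 * |Yw S R t ω (wL false Θ H1 S R t ω)| - 2 * D ^ 3 / n := by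
      rw [← hssq]
      field_simp
    rw [e8] at h7
    rw [← hsdef]
    linarith

/-- One step inequality, nonplanted removal. -/
lemma one_step_N {H : ℝ → ℝ → ℝ} {C0 : ℝ} {H1 H2 Ht : ℝ → ℝ → ℝ} (hD : 1 ≤ D) (hΘ : 0 < Θ)
    (hΘD : Θ ≤ D) (hC0 : 0 ≤ C0) (hCD : C0 ≤ D) (hs : 7 * D ^ 2 ≤ √(n : ℝ))
    (hb : ∀ s y, 0 ≤ s → s ≤ Θ → |H s y| ≤ C0 ∧ |H1 s y| ≤ C0 ∧ |H2 s y| ≤ C0 ∧ |Ht s y| ≤ C0 ∧
      0 ≤ Ht s y + H2 s y / 2)
    (hexp : ∀ s s' y δ, 0 ≤ s → s ≤ Θ → 0 ≤ s' → s' ≤ Θ → |s' - s| ≤ 1 → |δ| ≤ 1 →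
      |H s' (y + δ) - H s y - Ht s y * (s' - s) - H1 s y * δ - H2 s y / 2 * δ ^ 2| ≤
        C0 * (|δ| ^ 3 + |s' - s| * |δ| + (s' - s) ^ 2))
    (ht : t < n) (hk : 2 * ((S.card : ℝ) + 1) ≤ ((n - t : ℕ) : ℝ))
    (hkn : (S.card : ℝ) ≤ √(n : ℝ)) {ω : Om n}
    (hact : (n : ℝ) ≤ Θ * rr S R (t + 1) ω) (hu : uu S R t ω ∉ S) :
    Qf c S R H t ω - (if uu S R t ω ∈ Pc c S R t ω then
        H (n / rr S R t ω) (Mv S R t ω (uu S R t ω)) else 0) / qc c n +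
      XtL c Θ H1 S R t ω - ErL c Θ D H1 S R t ω ≤ Qf c S R H (t + 1) ω := by
  have hk0 : (0:ℝ) ≤ S.card := Nat.cast_nonneg _
  have hD0 : 0 < D := by linarith
  have hmn : ((n - t : ℕ) : ℝ) ≤ n := by exact_mod_cast Nat.sub_le n t
  have hn1 : (1:ℝ) ≤ n := by linarith
  have hn0 : (0:ℝ) < n := by linarith
  have hr := rr_half (S := S) (R := R) ht.le hk ω
  have hr1 : 1 < rr S R t ω := by linarith
  obtain ⟨s, hsdef⟩ : ∃ s, s = √(n : ℝ) := ⟨_, rfl⟩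
  have hssq : s ^ 2 = n := by rw [hsdef]; exact Real.sq_sqrt (by linarith)
  rw [← hsdef] at hs
  have hD2 : D ≤ D ^ 2 := le_self_pow₀ hD (by norm_num)
  have hs7 : 7 * D ≤ s := by linarith
  have hs0 : 0 < s := by linarith
  have hq0 : 0 < qc c n := by
    unfold qc; split_ifs
    · exact Real.sqrt_pos.2 hn0
    · exact hn0
  have hτ := tau_le (S := S) (R := R) hn1 hΘ hact
  have hcard : ((As S R t ω).card : ℝ) = ((n - t : ℕ) : ℝ) := by rw [card_As S R ht.le ω]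
  rw [Qf_split H ht ω]
  have hrr : rr S R (t + 1) ω = rr S R t ω - 1 := rr_succ_of_notMem ht hu
  rw [XtL_eq ht hr1, if_neg hu]
  have hEr : ErL c Θ D H1 S R t ω =
      4 * D ^ 3 / (n * qc c n) * ∑ v ∈ Pc c S R (t + 1) ω, |pv S R t ω v| +
      352 * D ^ 4 / √(n : ℝ) ^ 3 := by
    unfold ErL; rw [if_neg hu]
  rw [hEr]
  have hr2 : 0 < rr S R t ω - 1 := by linarith
  have hτ' : 0 ≤ n / rr S R (t + 1) ω ∧ n / rr S R (t + 1) ω ≤ Θ := by
    rw [hrr] at hact ⊢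
    refine ⟨by positivity, ?_⟩
    rw [div_le_iff₀ hr2]; exact hact
  have hpt : ∀ v ∈ Pc c S R (t + 1) ω,
      H (n / rr S R t ω) (Mv S R t ω v) +
        H1 (n / rr S R t ω) (Mv S R t ω v) *
          (-(s / (rr S R t ω - 1) * (e0 ω v (uu S R t ω) - pv S R t ω v))) -
        4 * D ^ 3 / s ^ 2 * |pv S R t ω v| - 352 * D ^ 4 / s ^ 3 ≤
      H (n / rr S R (t + 1) ω) (Mv S R (t + 1) ω v) := by
    intro v hv
    obtain ⟨hvA, hvu⟩ := mem_Pc_succ_As hv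
    have hvA' : v ∈ As S R (t + 1) ω := mem_As_succ.2 ⟨hvA, hvu⟩
    have hpv := abs_pv_le ht (ω := ω) (by rw [hcard]; linarith) (by rw [hcard]; linarith) hvA
    rw [hrr, Mv_succ_N ht hvA' hu hr1, ← hsdef]
    rw [hrr] at hact hτ'
    have hb' := hb (n / rr S R t ω) (Mv S R t ω v) hτ.1 hτ.2
    have he1 := abs_e0_le ω v (uu S R t ω)
    have hinv : 1 / (rr S R t ω - 1) ≤ D / s ^ 2 := by
      rw [div_le_div_iff₀ hr2 (by positivity), hssq]
      have : Θ * (rr S R t ω - 1) ≤ D * (rr S R t ω - 1) :=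
        mul_le_mul_of_nonneg_right hΘD hr2.le
      linarith
    have hinv0 : 0 ≤ 1 / (rr S R t ω - 1) := by positivity
    have hδ1 : |-(s / (rr S R t ω - 1) * (e0 ω v (uu S R t ω) - pv S R t ω v))| ≤ 1 := by
      rw [abs_neg, abs_mul, abs_div, abs_of_pos hs0, abs_of_pos hr2]
      have a1 : |e0 ω v (uu S R t ω) - pv S R t ω v| ≤ 7 := by
        have := abs_sub (e0 ω v (uu S R t ω)) (pv S R t ω v)
        linarith
      calc s / (rr S R t ω - 1) * |e0 ω v (uu S R t ω) - pv S R t ω v| =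
            s * (1 / (rr S R t ω - 1)) * |e0 ω v (uu S R t ω) - pv S R t ω v| := by ring
        _ ≤ s * (D / s ^ 2) * 7 := by
            apply mul_le_mul _ a1 (abs_nonneg _) (by positivity)
            exact mul_le_mul_of_nonneg_left hinv hs0.le
        _ = 7 * D / s := by field_simp
        _ ≤ 1 := by rw [div_le_one hs0]; exact hs7
    have hΔ1 : |(n : ℝ) / (rr S R t ω - 1) - n / rr S R t ω| ≤ 1 := by
      have e1 : (n : ℝ) / (rr S R t ω - 1) - n / rr S R t ω =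
          n * ((1 / (rr S R t ω - 1)) * (1 / rr S R t ω)) := by
        have : rr S R t ω ≠ 0 := by linarith
        have : rr S R t ω - 1 ≠ 0 := hr2.ne'
        field_simp
        ring
      have hir : 1 / rr S R t ω ≤ 1 / (rr S R t ω - 1) :=
        one_div_le_one_div_of_le hr2 (by linarith)
      have hir0 : 0 ≤ 1 / rr S R t ω := by
        apply div_nonneg zero_le_one; linarith
      rw [e1, abs_of_nonneg (by positivity)]
      calc (n : ℝ) * ((1 / (rr S R t ω - 1)) * (1 / rr S R t ω)) ≤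
            n * ((D / s ^ 2) * (D / s ^ 2)) := by
            apply mul_le_mul_of_nonneg_left _ hn0.le
            exact mul_le_mul hinv (hir.trans hinv) hir0 (by positivity)
        _ = D ^ 2 / s ^ 2 := by rw [← hssq]; field_simp
        _ ≤ 1 := by
            rw [div_le_one (by positivity)]
            exact pow_le_pow_left₀ hD0.le (by linarith) 2
    have hE := hexp (n / rr S R t ω) (n / (rr S R t ω - 1)) (Mv S R t ω v)
      (-(s / (rr S R t ω - 1) * (e0 ω v (uu S R t ω) - pv S R t ω v))) hτ.1 hτ.2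
      hτ'.1 hτ'.2 hΔ1 hδ1
    have hsub : Mv S R t ω v +
        -(s / (rr S R t ω - 1) * (e0 ω v (uu S R t ω) - pv S R t ω v)) =
        Mv S R t ω v - s / (rr S R t ω - 1) * (e0 ω v (uu S R t ω) - pv S R t ω v) := by ring
    rw [hsub] at hE
    refine exp_N hD hΘ hΘD hC0 hCD hs7 hr1 (by rw [hssq]; exact hact)
      (e0_sq ω hvu) hpv hb'.2.2.1 hb'.2.2.2.2 ?_
    rw [hssq]
    exact hE
  have hsum := Finset.sum_le_sum hpt
  rw [Finset.sum_sub_distrib, Finset.sum_sub_distrib, Finset.sum_add_distrib,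
    Finset.sum_const, nsmul_eq_mul, ← Finset.mul_sum] at hsum
  have hXw : ∑ v ∈ Pc c S R (t + 1) ω, H1 (n / rr S R t ω) (Mv S R t ω v) *
      (-(s / (rr S R t ω - 1) * (e0 ω v (uu S R t ω) - pv S R t ω v))) =
      -(s / (rr S R t ω - 1)) * Xw S R t ω (wL c Θ H1 S R t ω) := by
    unfold Xw
    rw [Finset.mul_sum]
    have hsub : Pc c S R (t + 1) ω ⊆ As S R t ω := fun v hv => (mem_Pc_succ_As hv).1
    rw [← Finset.sum_subset hsub]
    · refine Finset.sum_congr rfl fun v hv => ?_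
      have : wL c Θ H1 S R t ω v = H1 (n / rr S R t ω) (Mv S R t ω v) := by
        unfold wL
        rw [if_pos ⟨hact, hv⟩]
      rw [this]; ring
    · intro v _ hv
      have : wL c Θ H1 S R t ω v = 0 := by
        unfold wL
        rw [if_neg fun h => hv h.2]
      rw [this]; ring
  rw [hXw] at hsum
  have hcardP := card_Pc_le (R := R) hkn c (t + 1) ω
  rw [yr_sq] at hcardP
  have h5 : ((Pc c S R (t + 1) ω).card : ℝ) * (352 * D ^ 4 / s ^ 3) ≤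
      qc c n * (352 * D ^ 4 / s ^ 3) := mul_le_mul_of_nonneg_right hcardP (by positivity)
  have hQ : Qf c S R H (t + 1) ω = (∑ v ∈ Pc c S R (t + 1) ω,
      H (n / rr S R (t + 1) ω) (Mv S R (t + 1) ω v)) / qc c n := rfl
  rw [hQ]
  have h7 : ((∑ v ∈ Pc c S R (t + 1) ω, H (n / rr S R t ω) (Mv S R t ω v)) +
      -(s / (rr S R t ω - 1)) * Xw S R t ω (wL c Θ H1 S R t ω) -
      4 * D ^ 3 / s ^ 2 * ∑ v ∈ Pc c S R (t + 1) ω, |pv S R t ω v| -
      qc c n * (352 * D ^ 4 / s ^ 3)) / qc c n ≤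
      (∑ v ∈ Pc c S R (t + 1) ω,
        H (n / rr S R (t + 1) ω) (Mv S R (t + 1) ω v)) / qc c n := by
    apply div_le_div_of_nonneg_right _ hq0.le
    linarith
  have e8 : ((∑ v ∈ Pc c S R (t + 1) ω, H (n / rr S R t ω) (Mv S R t ω v)) +
      -(s / (rr S R t ω - 1)) * Xw S R t ω (wL c Θ H1 S R t ω) -
      4 * D ^ 3 / s ^ 2 * ∑ v ∈ Pc c S R (t + 1) ω, |pv S R t ω v| -
      qc c n * (352 * D ^ 4 / s ^ 3)) / qc c n =
      (∑ v ∈ Pc c S R (t + 1) ω, H (n / rr S R t ω) (Mv S R t ω v)) / qc c n +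
      (-(s / (rr S R t ω - 1)) / qc c n) * Xw S R t ω (wL c Θ H1 S R t ω) -
      4 * D ^ 3 / (n * qc c n) * (∑ v ∈ Pc c S R (t + 1) ω, |pv S R t ω v|) -
      352 * D ^ 4 / s ^ 3 := by
    rw [← hssq]
    have := hq0.ne'
    field_simp
  rw [e8] at h7
  rw [← hsdef]
  linarith

/-- One step inequality. -/
lemma one_step {H : ℝ → ℝ → ℝ} {C0 : ℝ} {H1 H2 Ht : ℝ → ℝ → ℝ} (hD : 1 ≤ D) (hΘ : 0 < Θ)
    (hΘD : Θ ≤ D) (hC0 : 0 ≤ C0) (hCD : C0 ≤ D) (hs : 7 * D ^ 2 ≤ √(n : ℝ))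
    (hb : ∀ s y, 0 ≤ s → s ≤ Θ → |H s y| ≤ C0 ∧ |H1 s y| ≤ C0 ∧ |H2 s y| ≤ C0 ∧ |Ht s y| ≤ C0 ∧
      0 ≤ Ht s y + H2 s y / 2)
    (hexp : ∀ s s' y δ, 0 ≤ s → s ≤ Θ → 0 ≤ s' → s' ≤ Θ → |s' - s| ≤ 1 → |δ| ≤ 1 →
      |H s' (y + δ) - H s y - Ht s y * (s' - s) - H1 s y * δ - H2 s y / 2 * δ ^ 2| ≤
        C0 * (|δ| ^ 3 + |s' - s| * |δ| + (s' - s) ^ 2))
    (ht : t < n) (hk : 2 * ((S.card : ℝ) + 1) ≤ ((n - t : ℕ) : ℝ))
    (hkn : (S.card : ℝ) ≤ √(n : ℝ)) {ω : Om n}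
    (hact : (n : ℝ) ≤ Θ * rr S R (t + 1) ω) :
    Qf c S R H t ω - (if uu S R t ω ∈ Pc c S R t ω then
        H (n / rr S R t ω) (Mv S R t ω (uu S R t ω)) else 0) / qc c n +
      XtL c Θ H1 S R t ω - ErL c Θ D H1 S R t ω ≤ Qf c S R H (t + 1) ω := by
  by_cases hu : uu S R t ω ∈ S
  · exact one_step_S hD hΘ hΘD hC0 hCD hs hb hexp ht hk hkn hact hu
  · exact one_step_N hD hΘ hΘD hC0 hCD hs hb hexp ht hk hkn hact hu

end Pool.Agent.H40.Peel
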