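import Pool.Agent.H40.Peel.LLN3

/-!
Law of large numbers, part 4: removals of planted vertices, and sums of the errors.
-/

namespace Pool.Agent.H40.Peel

open Finset Filter

variable {n : ℕ} {S : Finset (Fin n)} {R : TieRule n}

variable {c : Bool} {Θ D : ℝ} {G : ℝ → ℝ → ℝ} {t : ℕ}

lemma E_arho_div (t : ℕ) : E (fun ω => arho S R t ω / √(n : ℝ)) = E (arho S R t) / √(n : ℝ) := by
  simp only [div_eq_mul_inv]
  rw [E_mul_right]

/-- First moment of the sum of the drifts. -/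
lemma eSp (h : Rng D S R t) (c : Bool) :
    E (fun ω => if uu S R t ω ∈ S then 0 else ∑ v ∈ Pc c S R (t + 1) ω, |pv S R t ω v|) ≤
      14 * D ^ 2 * yr c n * Rr S R t := by
  have hD := h.hD
  have hD0 : 0 ≤ D := by linarith
  have hn1 := h.n1
  have hy1 := y1 h c
  have hy4 := yr_hi hn1 c
  have hk := h.hk
  have hk0 : (0:ℝ) ≤ S.card := Nat.cast_nonneg _
  have hgood : E (fun ω => if uu S R t ω ∈ S then 0 else
      ∑ v ∈ Pc c S R (t + 1) ω, |pv S R t ω v|) ≤
      E (fun ω => 8 * D ^ 2 * yr c n * (1 + arho S R t ω / √(n : ℝ))) +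
      6 * yr c n ^ 2 * Pr (fun ω => ¬ OpB ω (As S R t ω) (D * √(n : ℝ))) := by
    apply E_le_good
    · intro ω hop
      by_cases hu : uu S R t ω ∈ S
      · rw [if_pos hu]
        have := arho_nonneg (S := S) (R := R) t ω
        positivity
      · rw [if_neg hu]
        have hval : arho S R t ω = |rho S R t ω| := by unfold arho; rw [if_neg hu]
        rw [hval]
        exact sp_le h.hD h.ht h.hkn h.hk h.hm hop hu c
    · intro ω
      have := arho_nonneg (S := S) (R := R) t ω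
      positivity
    · intro ω
      by_cases hu : uu S R t ω ∈ S
      · rw [if_pos hu]; positivity
      · rw [if_neg hu]
        have hcard : ((As S R t ω).card : ℝ) = ((n - t : ℕ) : ℝ) := by
          rw [card_As S R h.ht.le ω]
        have hr := rr_half (S := S) (R := R) h.ht.le h.hk ω
        have h1 : ∀ v ∈ Pc c S R (t + 1) ω, |pv S R t ω v| ≤ 6 := by
          intro v hv
          exact abs_pv_le h.ht (by rw [hcard]; linarith) (by rw [hcard]; linarith)
            (mem_Pc_succ_As hv).1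
        refine (Finset.sum_le_sum h1).trans ?_
        rw [Finset.sum_const, nsmul_eq_mul]
        have := card_Pc_le (R := R) h.hkn c (t + 1) ω
        linarith
  have hEg : E (fun ω => 8 * D ^ 2 * yr c n * (1 + arho S R t ω / √(n : ℝ))) =
      8 * D ^ 2 * yr c n * Rr S R t := by
    rw [E_mul_left, E_add, E_const, E_arho_div]
    rfl
  rw [hEg] at hgood
  refine hgood.trans ?_
  have ht1 : yr c n ^ 2 * Pr (fun ω => ¬ OpB ω (As S R t ω) (D * √(n : ℝ))) ≤ 1 := by
    have := h.tiny (x := yr c n ^ 2) (by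
      calc yr c n ^ 2 ≤ (zr n ^ 4) ^ 2 := pow_le_pow_left₀ (by linarith) hy4 2
        _ = zr n ^ 8 := by ring
        _ = n := zr_pow8 n
        _ ≤ (n : ℝ) ^ 9 := le_self_pow₀ hn1 (by norm_num))
    refine this.trans ?_
    rw [div_le_one (by linarith)]; exact hn1
  have hR := one_le_Rr (S := S) (R := R) t
  have hfin : (1:ℝ) ≤ yr c n * Rr S R t := one_le_mul_of_one_le_of_one_le hy1 hR
  have hD2 : 1 ≤ D ^ 2 := one_le_pow₀ hD
  set π := Pr (fun ω => ¬ OpB ω (As S R t ω) (D * √(n : ℝ))) with hπ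
  have a2 : 6 * yr c n ^ 2 * π ≤ 6 * (D ^ 2 * (yr c n * Rr S R t)) := by
    have : 1 ≤ D ^ 2 * (yr c n * Rr S R t) := one_le_mul_of_one_le_of_one_le hD2 hfin
    linarith
  calc 8 * D ^ 2 * yr c n * Rr S R t + 6 * yr c n ^ 2 * π ≤
        8 * (D ^ 2 * (yr c n * Rr S R t)) + 6 * (D ^ 2 * (yr c n * Rr S R t)) := by linarith
    _ = _ := by ring

/-! ### Planted removals -/

/-- Probability that a planted vertex is removed. -/
noncomputable def kap (S : Finset (Fin n)) (R : TieRule n) (t : ℕ) : ℝ :=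
  E fun ω => if uu S R t ω ∈ S then (1:ℝ) else 0

lemma kap_nonneg (t : ℕ) : 0 ≤ kap S R t := E_nonneg fun ω => by split_ifs <;> norm_num

/-- The expected value of `|rho|` on planted removals. -/
noncomputable def xka (S : Finset (Fin n)) (R : TieRule n) (t : ℕ) : ℝ :=
  E fun ω => if uu S R t ω ∈ S then |rho S R t ω| else 0

lemma kap_sum {T : ℕ} (hT : T ≤ n) : ∑ t ∈ range T, kap S R t ≤ S.card := by
  unfold kap
  rw [← E_sum]
  apply E_le_of_bdd
  intro ω
  have h := count_kill (S := S) (R := R) (s := 0) (ω := ω) (b := -1) 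
  have key : ∀ T ≤ n, (∑ t ∈ range T, if uu S R t ω ∈ S then (1:ℝ) else 0) +
      ((Ss S R T ω).card : ℝ) = S.card := by
    intro T
    induction T with
    | zero => intro _; simp [Ss_zero]
    | succ T ih =>
      intro hTn
      have ih := ih (by omega)
      rw [Finset.sum_range_succ]
      by_cases hu : uu S R T ω ∈ S
      · have huA := uu_mem' S R (by omega : T < n) ω
        have huS : uu S R T ω ∈ Ss S R T ω := (mem_Ss S R).2 ⟨huA, hu⟩
        have hc : ((Ss S R (T + 1) ω).card : ℝ) = (Ss S R T ω).card - 1 := by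
          rw [Ss_succ_of_mem S R hu, Finset.card_erase_of_mem huS]
          have : 1 ≤ (Ss S R T ω).card := Finset.card_pos.2 ⟨_, huS⟩
          push_cast [Nat.cast_sub this]
          ring
        rw [hc, if_pos hu]
        linarith
      · rw [Ss_succ_of_notMem S R hu, if_neg hu]
        linarith
  have := key T hT
  have h0 : (0:ℝ) ≤ ((Ss S R T ω).card : ℝ) := Nat.cast_nonneg _
  linarith

/-- Arithmetic for `errS`. -/
lemma numS {z D r ρ W sW nA : ℝ} (hz : 1 ≤ z) (hD : 1 ≤ D) (hr : z ^ 8 ≤ 2 * D * r)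
    (hW : |W| ≤ D * z ^ 8) (hsW0 : 0 ≤ sW) (hsW : sW ≤ D * z ^ 8) (hnA0 : 0 ≤ nA)
    (hnA : nA ≤ D * z ^ 4) :
    (|ρ| * |W| + |W| * (D * z ^ 4) + 16 * sW) / r + (D * z ^ 4) * nA / √r +
      (2 * (D * z ^ 4) ^ 2 * nA + |ρ| * (D * z ^ 4) * nA) / (r * √r) ≤
    44 * D ^ 5 * (|ρ| + z ^ 4) := by
  have hz0 : 0 < z := by linarith
  have hD0 : 0 < D := by linarith
  have hr0 : 0 < r := by
    by_contra hcon
    push Not at hcon
    have : 0 < z ^ 8 := by positivity
    nlinarith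
  have hρ := abs_nonneg ρ
  have hW0 := abs_nonneg W
  have hz4 : 1 ≤ z ^ 4 := one_le_pow₀ hz
  have i1 : 1 / r ≤ 2 * D / z ^ 8 := by
    rw [div_le_div_iff₀ hr0 (by positivity)]; linarith
  have i10 : 0 ≤ 1 / r := by positivity
  have hsr : z ^ 4 / (2 * D) ≤ √r := by
    apply Real.le_sqrt_of_sq_le
    rw [div_pow, div_le_iff₀ (by positivity)]
    calc (z ^ 4) ^ 2 = z ^ 8 := by ring
      _ ≤ 2 * D * r := hr
      _ = 2 * D * r * 1 := by ring
      _ ≤ 2 * D * r * (2 * D) := mul_le_mul_of_nonneg_left (by linarith) (by positivity)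
      _ = r * (2 * D) ^ 2 := by ring
  have i2 : 1 / √r ≤ 2 * D / z ^ 4 := by
    calc 1 / √r ≤ 1 / (z ^ 4 / (2 * D)) := one_div_le_one_div_of_le (by positivity) hsr
      _ = _ := by field_simp
  have i20 : 0 ≤ 1 / √r := by positivity
  have hDp : ∀ i ≤ 5, D ^ i ≤ D ^ 5 := fun i hi => pow_le_pow_right₀ hD hi
  have t1 : (|ρ| * |W| + |W| * (D * z ^ 4) + 16 * sW) / r ≤ 2 * D ^ 5 * |ρ| + 34 * D ^ 5 * z ^ 4 := by
    have a1 : |ρ| * |W| + |W| * (D * z ^ 4) + 16 * sW ≤
        |ρ| * (D * z ^ 8) + (D * z ^ 8) * (D * z ^ 4) + 16 * (D * z ^ 8) := by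
      have b1 : |ρ| * |W| ≤ |ρ| * (D * z ^ 8) := mul_le_mul_of_nonneg_left hW hρ
      have b2 : |W| * (D * z ^ 4) ≤ (D * z ^ 8) * (D * z ^ 4) :=
        mul_le_mul_of_nonneg_right hW (by positivity)
      linarith
    calc (|ρ| * |W| + |W| * (D * z ^ 4) + 16 * sW) / r =
          (|ρ| * |W| + |W| * (D * z ^ 4) + 16 * sW) * (1 / r) := by ring
      _ ≤ (|ρ| * (D * z ^ 8) + (D * z ^ 8) * (D * z ^ 4) + 16 * (D * z ^ 8)) *
          (2 * D / z ^ 8) := mul_le_mul a1 i1 i10 (by positivity)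
      _ = 2 * D ^ 2 * |ρ| + 2 * D ^ 3 * z ^ 4 + 32 * D ^ 2 := by field_simp; ring
      _ ≤ 2 * D ^ 5 * |ρ| + 2 * D ^ 5 * z ^ 4 + 32 * D ^ 5 * z ^ 4 := by
          have c1 : 2 * D ^ 2 * |ρ| ≤ 2 * D ^ 5 * |ρ| :=
            mul_le_mul_of_nonneg_right (by linarith [hDp 2 (by norm_num)]) hρ
          have c2 : 2 * D ^ 3 * z ^ 4 ≤ 2 * D ^ 5 * z ^ 4 :=
            mul_le_mul_of_nonneg_right (by linarith [hDp 3 (by norm_num)]) (by positivity)
          have c3 : 32 * D ^ 2 ≤ 32 * D ^ 5 * z ^ 4 := by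
            calc 32 * D ^ 2 ≤ 32 * D ^ 5 := by linarith [hDp 2 (by norm_num)]
              _ ≤ _ := le_mul_of_one_le_right (by positivity) hz4
          linarith
      _ = _ := by ring
  have t2 : (D * z ^ 4) * nA / √r ≤ 2 * D ^ 5 * z ^ 4 := by
    calc (D * z ^ 4) * nA / √r = (D * z ^ 4) * nA * (1 / √r) := by ring
      _ ≤ (D * z ^ 4) * (D * z ^ 4) * (2 * D / z ^ 4) := by
          apply mul_le_mul _ i2 i20 (by positivity)
          exact mul_le_mul_of_nonneg_left hnA (by positivity)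
      _ = 2 * D ^ 3 * z ^ 4 := by field_simp
      _ ≤ _ := mul_le_mul_of_nonneg_right (by linarith [hDp 3 (by norm_num)]) (by positivity)
  have t3 : (2 * (D * z ^ 4) ^ 2 * nA + |ρ| * (D * z ^ 4) * nA) / (r * √r) ≤
      8 * D ^ 5 * z ^ 4 + 4 * D ^ 5 * |ρ| := by
    have a1 : 2 * (D * z ^ 4) ^ 2 * nA + |ρ| * (D * z ^ 4) * nA ≤
        2 * (D * z ^ 4) ^ 2 * (D * z ^ 4) + |ρ| * (D * z ^ 4) * (D * z ^ 4) := by
      have b1 : 2 * (D * z ^ 4) ^ 2 * nA ≤ 2 * (D * z ^ 4) ^ 2 * (D * z ^ 4) :=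
        mul_le_mul_of_nonneg_left hnA (by positivity)
      have b2 : |ρ| * (D * z ^ 4) * nA ≤ |ρ| * (D * z ^ 4) * (D * z ^ 4) :=
        mul_le_mul_of_nonneg_left hnA (by positivity)
      linarith
    calc (2 * (D * z ^ 4) ^ 2 * nA + |ρ| * (D * z ^ 4) * nA) / (r * √r) =
          (2 * (D * z ^ 4) ^ 2 * nA + |ρ| * (D * z ^ 4) * nA) * ((1 / r) * (1 / √r)) := by
          field_simp
      _ ≤ (2 * (D * z ^ 4) ^ 2 * (D * z ^ 4) + |ρ| * (D * z ^ 4) * (D * z ^ 4)) *
          ((2 * D / z ^ 8) * (2 * D / z ^ 4)) :=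
          mul_le_mul a1 (mul_le_mul i1 i2 i20 (by positivity)) (by positivity) (by positivity)
      _ = 8 * D ^ 5 + 4 * D ^ 4 * |ρ| * (1 / z ^ 4) := by field_simp; ring
      _ ≤ 8 * D ^ 5 * z ^ 4 + 4 * D ^ 5 * |ρ| := by
          have c1 : 8 * D ^ 5 ≤ 8 * D ^ 5 * z ^ 4 := le_mul_of_one_le_right (by positivity) hz4
          have c2 : 4 * D ^ 4 * |ρ| * (1 / z ^ 4) ≤ 4 * D ^ 5 * |ρ| := by
            calc 4 * D ^ 4 * |ρ| * (1 / z ^ 4) ≤ 4 * D ^ 4 * |ρ| * 1 := by
                  apply mul_le_mul_of_nonneg_left _ (by positivity)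
                  rw [div_le_one (by positivity)]; exact hz4
              _ = 4 * D ^ 4 * |ρ| := by ring
              _ ≤ _ := mul_le_mul_of_nonneg_right (by linarith [hDp 4 (by norm_num)]) hρ
          linarith
  have e : 44 * D ^ 5 * (|ρ| + z ^ 4) = 2 * D ^ 5 * |ρ| + 34 * D ^ 5 * z ^ 4 + 2 * D ^ 5 * z ^ 4 +
      (8 * D ^ 5 * z ^ 4 + 4 * D ^ 5 * |ρ|) + 38 * (D ^ 5 * |ρ|) := by ring
  rw [e]
  have : 0 ≤ D ^ 5 * |ρ| := by positivity
  linarith

lemma yr_false' (n : ℕ) : yr false n = √(n : ℝ) := by rw [yr_false, zr_pow4]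

/-- Second moment of `Yw` on planted removals. -/
lemma eY2S (h : Rng D S R t) (hw : WB D Θ G) :
    E (fun ω => if uu S R t ω ∈ S then Yw S R t ω (wL false Θ G S R t ω) ^ 2 else 0) ≤
      120 * D ^ 6 * n * (xka S R t + √(n : ℝ) * kap S R t) + 18 * D ^ 2 / n := by
  have hD := h.hD
  have hD0 : 0 ≤ D := by linarith
  have hn1 := h.n1
  have hz1 := h.z1
  have hs1 := h.s1
  have hs0 : 0 < √(n : ℝ) := by linarith
  have hk := h.hk
  have hk0 : (0:ℝ) ≤ S.card := Nat.cast_nonneg _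
  set w := wL false Θ G S R t with hwdef
  have hysq : yr false n ^ 2 = n := by rw [yr_sq]; simp [qc]
  have hsum : ∀ ω, ∑ v ∈ As S R t ω, |w ω v| ≤ D * n := by
    intro ω
    have h1 := sum_abs_wL_le (c := false) (S := S) (R := R) h.n1 hw.hΘ hD0 hw.hG h.hkn t ω
    rwa [hysq] at h1
  have hnrm : ∀ ω, nrm (As S R t ω) (w ω) ≤ D * √(n : ℝ) := by
    intro ω
    have h1 := nrm_wL_le (c := false) (S := S) (R := R) h.n1 hw.hΘ hD0 hw.hG h.hkn t ω
    rwa [yr_false'] at h1
  have hB : ∀ ω, 9 * (∑ v ∈ As S R t ω, |w ω v|) ^ 2 ≤ 9 * D ^ 2 * (n : ℝ) ^ 2 := by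
    intro ω
    have h3 : (∑ v ∈ As S R t ω, |w ω v|) ^ 2 ≤ (D * n) ^ 2 :=
      pow_le_pow_left₀ (Finset.sum_nonneg fun _ _ => abs_nonneg _) (hsum ω) 2
    calc 9 * (∑ v ∈ As S R t ω, |w ω v|) ^ 2 ≤ 9 * (D * n) ^ 2 := by linarith
      _ = _ := by ring
  have h0 := ce2S (S := S) (R := R) h.ht h.hk (w := w) (HM_wL t) (Sup_wL t)
    (β := D * √(n : ℝ)) (by positivity) h.h4 hB
  refine h0.trans ?_
  have hpt : E (fun ω => if uu S R t ω ∈ S then |Yw S R t ω (w ω)| *
      errS S R (D * √(n : ℝ)) t ω (w ω) + 16 * nrm (As S R t ω) (w ω) ^ 2 else 0) ≤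
      E (fun ω => 60 * D ^ 6 * n * ((if uu S R t ω ∈ S then |rho S R t ω| else 0) +
        √(n : ℝ) * (if uu S R t ω ∈ S then 1 else 0))) := by
    apply E_mono
    intro ω
    by_cases hu : uu S R t ω ∈ S
    · rw [if_pos hu, if_pos hu, if_pos hu, mul_one]
      have hY : |Yw S R t ω (w ω)| ≤ D * n := (abs_Yw_le t ω _).trans (hsum ω)
      have hr := rr_half (S := S) (R := R) h.ht.le h.hk ω
      have hrn : (n : ℝ) ≤ 2 * D * rr S R t ω := by
        calc (n : ℝ) ≤ D * ((n - t : ℕ) : ℝ) := h.hm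
          _ ≤ D * (2 * rr S R t ω) := mul_le_mul_of_nonneg_left (by linarith) hD0
          _ = _ := by ring
      have hW : |∑ v ∈ As S R t ω, w ω v| ≤ D * n :=
        (Finset.abs_sum_le_sum_abs _ _).trans (hsum ω)
      have hE := numS (z := zr n) (D := D) (r := rr S R t ω) (ρ := rho S R t ω)
        (W := ∑ v ∈ As S R t ω, w ω v) (sW := ∑ v ∈ As S R t ω, |w ω v|)
        (nA := nrm (As S R t ω) (w ω)) hz1 hD (by rw [zr_pow8]; exact hrn)
        (by rw [zr_pow8]; exact hW) (Finset.sum_nonneg fun _ _ => abs_nonneg _)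
        (by rw [zr_pow8]; exact hsum ω) (nrm_nonneg _ _) (by rw [zr_pow4]; exact hnrm ω)
      rw [zr_pow4] at hE
      have hE' : errS S R (D * √(n : ℝ)) t ω (w ω) ≤
          44 * D ^ 5 * (|rho S R t ω| + √(n : ℝ)) := by
        unfold errS
        exact hE
      have hE0 : 0 ≤ errS S R (D * √(n : ℝ)) t ω (w ω) := errS_nonneg (by positivity)
      have h1 : |Yw S R t ω (w ω)| * errS S R (D * √(n : ℝ)) t ω (w ω) ≤
          (D * n) * (44 * D ^ 5 * (|rho S R t ω| + √(n : ℝ))) :=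
        mul_le_mul hY hE' hE0 (by positivity)
      have h2 : nrm (As S R t ω) (w ω) ^ 2 ≤ D ^ 2 * n := by
        calc nrm (As S R t ω) (w ω) ^ 2 ≤ (D * √(n : ℝ)) ^ 2 :=
              pow_le_pow_left₀ (nrm_nonneg _ _) (hnrm ω) 2
          _ = _ := by rw [mul_pow, Real.sq_sqrt (Nat.cast_nonneg _)]
      have h3 : D ^ 2 * n ≤ D ^ 6 * n * (|rho S R t ω| + √(n : ℝ)) := by
        have c1 : D ^ 2 ≤ D ^ 6 := pow_le_pow_right₀ hD (by norm_num)
        have c2 : 1 ≤ |rho S R t ω| + √(n : ℝ) := by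
          have := abs_nonneg (rho S R t ω)
          linarith
        calc D ^ 2 * (n : ℝ) ≤ D ^ 6 * n := mul_le_mul_of_nonneg_right c1 (by positivity)
          _ ≤ _ := le_mul_of_one_le_right (by positivity) c2
      have e1 : (D * n) * (44 * D ^ 5 * (|rho S R t ω| + √(n : ℝ))) =
          44 * (D ^ 6 * n * (|rho S R t ω| + √(n : ℝ))) := by ring
      have e2 : 60 * D ^ 6 * n * (|rho S R t ω| + √(n : ℝ)) =
          60 * (D ^ 6 * n * (|rho S R t ω| + √(n : ℝ))) := by ring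
      rw [e2]
      rw [e1] at h1
      linarith
    · rw [if_neg hu, if_neg hu, if_neg hu]
      simp
  have hEq : E (fun ω => 60 * D ^ 6 * n * ((if uu S R t ω ∈ S then |rho S R t ω| else 0) +
        √(n : ℝ) * (if uu S R t ω ∈ S then 1 else 0))) =
      60 * D ^ 6 * n * (xka S R t + √(n : ℝ) * kap S R t) := by
    rw [E_mul_left, E_add, E_mul_left]
    rfl
  rw [hEq] at hpt
  have ht1 : (n : ℝ) ^ 2 * Pr (fun ω => ¬ OpB ω (As S R t ω) (D * √(n : ℝ))) ≤ 1 / n :=
    h.tiny (x := (n : ℝ) ^ 2) (pow_le_pow_right₀ hn1 (by norm_num))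
  have h5 : 9 * D ^ 2 * (n : ℝ) ^ 2 * Pr (fun ω => ¬ OpB ω (As S R t ω) (D * √(n : ℝ))) ≤
      9 * D ^ 2 / n := by
    calc _ = 9 * D ^ 2 * ((n : ℝ) ^ 2 * Pr (fun ω => ¬ OpB ω (As S R t ω) (D * √(n : ℝ)))) := by
          ring
      _ ≤ 9 * D ^ 2 * (1 / n) := mul_le_mul_of_nonneg_left ht1 (by positivity)
      _ = _ := by ring
  calc _ ≤ 2 * (60 * D ^ 6 * n * (xka S R t + √(n : ℝ) * kap S R t)) +
        2 * (9 * D ^ 2 / n) := by linarith
    _ = _ := by ring

/-- The common shift is bounded along the first phase. -/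
lemma abs_bb_bd {T : ℕ} (hT : T ≤ n) (hR : ∀ t < T, Rng D S R t) (hT1 : 2 * ((S.card : ℝ) + 1) ≤
    ((n - T : ℕ) : ℝ) + 1) {ω : Om n}
    (hop : ∀ t < T, OpB ω (As S R t ω) (D * √(n : ℝ))) :
    ∀ t ≤ T, |bb S R t ω| ≤ 96 * D ^ 4 * 1 := by
  rcases Nat.eq_zero_or_pos T with h0 | h0
  · intro t ht
    have : t = 0 := by omega
    subst this
    simp only [bb, abs_zero]
    by_cases hD : 0 ≤ D ^ 4
    · linarith
    · exact absurd (by positivity) hD
  have hR0 := hR 0 h0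
  have hD := hR0.hD
  have hD0 : 0 < D := by linarith
  have hn1 := hR0.n1
  have hn0 : (0:ℝ) < n := by linarith
  have hs1 := hR0.s1
  have hs0 : 0 < √(n : ℝ) := by linarith
  obtain ⟨s, hsdef⟩ : ∃ s, s = √(n : ℝ) := ⟨_, rfl⟩
  have hssq : s ^ 2 = n := by rw [hsdef]; exact Real.sq_sqrt (by linarith)
  rw [← hsdef] at hs0 hs1
  have key : ∀ t ≤ T, |bb S R t ω| ≤
      12 * D ^ 3 / n * ∑ j ∈ range t, (1 + arho S R j ω / s) := by
    intro t
    induction t with
    | zero => intro _; simp [bb]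
    | succ t ih =>
      intro ht
      have ih := ih (by omega)
      have hRt := hR t (by omega)
      rw [Finset.sum_range_succ, mul_add]
      have har := arho_nonneg (S := S) (R := R) t ω
      by_cases hu : uu S R t ω ∈ S
      · rw [bb_succ_S hu]
        have : 0 ≤ 12 * D ^ 3 / n * (1 + arho S R t ω / s) := by positivity
        linarith
      · rw [bb_succ_N hu]
        have hval : arho S R t ω = |rho S R t ω| := by unfold arho; rw [if_neg hu]
        have hcc := abs_cc_bd hD hRt.ht hRt.hkn hRt.hk hRt.hm (hop t (by omega)) hu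
        have hr := rr_half (S := S) (R := R) hRt.ht.le hRt.hk ω
        have hk := hRt.hk
        have hk0 : (0:ℝ) ≤ S.card := Nat.cast_nonneg _
        have hr1 : 0 < rr S R t ω - 1 := by linarith
        have h1 : √(n : ℝ) / (rr S R t ω - 1) ≤ 2 * D / s := by
          rw [← hsdef, div_le_div_iff₀ hr1 hs0]
          have : s * s ≤ 2 * D * (rr S R t ω - 1) := by
            rw [← pow_two, hssq]
            calc (n : ℝ) ≤ D * ((n - t : ℕ) : ℝ) := hRt.hm
              _ ≤ D * (2 * (rr S R t ω - 1)) :=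
                  mul_le_mul_of_nonneg_left (by linarith) hD0.le
              _ = _ := by ring
          linarith
        have h2 : |√(n : ℝ) / (rr S R t ω - 1) * cc S R t ω| ≤
            12 * D ^ 3 / n * (1 + arho S R t ω / s) := by
          rw [abs_mul, abs_of_nonneg (by positivity : 0 ≤ √(n : ℝ) / (rr S R t ω - 1)), hval]
          rw [← hsdef] at hcc h1 ⊢
          calc s / (rr S R t ω - 1) * |cc S R t ω| ≤
                2 * D / s * (6 * D ^ 2 * (1 + |rho S R t ω| / s) / s) :=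
                mul_le_mul h1 hcc (abs_nonneg _) (by positivity)
            _ = _ := by rw [← hssq]; field_simp; norm_num
        refine (abs_sub _ _).trans ?_
        linarith
  intro t ht
  refine (key t ht).trans ?_
  have hsumle : ∑ j ∈ range t, (1 + arho S R j ω / s) ≤ ∑ j ∈ range T, (1 + arho S R j ω / s) := by
    apply Finset.sum_le_sum_of_subset_of_nonneg (Finset.range_subset_range.2 ht)
    intro j _ _
    have := arho_nonneg (S := S) (R := R) j ω
    positivity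
  have hsum2 : ∑ j ∈ range T, (1 + arho S R j ω / s) ≤ 8 * D * n := by
    rw [Finset.sum_add_distrib, ← Finset.sum_div, Finset.sum_const, Finset.card_range,
      nsmul_eq_mul, mul_one]
    have hTn : (T : ℝ) ≤ n := by exact_mod_cast hT
    have h2 := rho_sum (S := S) (R := R) (t0 := 0) (T := T) (Nat.zero_le _) hT
      (β := D * √(n : ℝ)) (by positivity) (hop 0 h0) hT1
    rw [← Finset.range_eq_Ico, Nat.sub_zero] at h2
    have h3 : (∑ j ∈ range T, arho S R j ω) / s ≤ 7 * D * n := by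
      rw [div_le_iff₀ hs0]
      refine h2.trans ?_
      have hkn := hR0.hkn
      rw [← hsdef] at hkn ⊢
      have : s ≤ D * s := le_mul_of_one_le_left hs0.le hD
      calc (n : ℝ) * (5 * (D * s) + 2 * S.card) ≤ n * (7 * (D * s)) :=
            mul_le_mul_of_nonneg_left (by linarith) hn0.le
        _ = _ := by ring
    have h4 : (n : ℝ) ≤ D * n := le_mul_of_one_le_left hn0.le hD
    linarith
  calc 12 * D ^ 3 / n * ∑ j ∈ range t, (1 + arho S R j ω / s) ≤ 12 * D ^ 3 / n * (8 * D * n) :=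
        mul_le_mul_of_nonneg_left (hsumle.trans hsum2) (by positivity)
    _ = _ := by field_simp; norm_num

end Pool.Agent.H40.Peel
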