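import Pool.Agent.H40.Peel.LLN4

/-!
Law of large numbers, part 5: sums over the phase, and the law of large numbers.
-/

namespace Pool.Agent.H40.Peel

open Finset Filter

variable {n : ℕ} {S : Finset (Fin n)} {R : TieRule n}

variable {c : Bool} {Θ D : ℝ} {G : ℝ → ℝ → ℝ} {t : ℕ}

/-- Bound for the sum of the contributions of the killed planted vertices. -/
lemma kil_sum {C : ℝ} (hC : 1 ≤ C) {T : ℕ} (hT : T < n)
    (hk : 2 * ((S.card : ℝ) + 1) ≤ ((n - T : ℕ) : ℝ)) (hkn : (S.card : ℝ) ≤ √(n : ℝ))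
    (hm : (n : ℝ) ^ (2 / 5 : ℝ) ≤ ((n - T : ℕ) : ℝ))
    (hG : Pr (fun ω : Om n => ¬ Good C ω) ≤ 1 / (n : ℝ) ^ 20)
    (hn552 : (552 : ℝ) ≤ n) :
    ∑ t ∈ Ico 0 T, (√((n - t : ℕ) : ℝ) / √(n : ℝ)) ^ 4 * E (Kil S R t) ≤
      85 * C * (1600196 * C ^ 4) * √((n - 0 : ℕ) : ℝ) := by
  have hk0 : (0:ℝ) ≤ S.card := Nat.cast_nonneg _
  have hn1 : (1:ℝ) ≤ n := by linarith
  have hn0 : (0:ℝ) < n := by linarith
  have hsn : 1 ≤ √(n : ℝ) := Real.one_le_sqrt.2 hn1
  have hsn2 : √(n : ℝ) ≤ n := by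
    rw [Real.sqrt_le_left (by linarith)]; nlinarith
  have hC4 : 1 ≤ 1600196 * C ^ 4 := by
    have : 1 ≤ C ^ 4 := one_le_pow₀ hC
    linarith
  have herr : (n : ℝ) * n * (552 * (n : ℝ) ^ 4 * (1 / (n : ℝ) ^ 20)) ≤ 1 := by
    have e : (n : ℝ) * n * (552 * (n : ℝ) ^ 4 * (1 / (n : ℝ) ^ 20)) = 552 / (n : ℝ) ^ 14 := by
      field_simp
    rw [e, div_le_one (by positivity)]
    calc (552:ℝ) ≤ n := hn552
      _ ≤ (n : ℝ) ^ 14 := le_self_pow₀ hn1 (by norm_num)
  have herr0 : 0 ≤ 552 * (n : ℝ) ^ 4 * (1 / (n : ℝ) ^ 20) := by positivity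
  have herr1 : (n : ℝ) * √(n : ℝ) * (552 * (n : ℝ) ^ 4 * (1 / (n : ℝ) ^ 20)) ≤ 1 := by
    refine le_trans ?_ herr
    apply mul_le_mul_of_nonneg_right _ herr0
    exact mul_le_mul_of_nonneg_left hsn2 hn0.le
  have herr2 : (n : ℝ) * (552 * (n : ℝ) ^ 4 * (1 / (n : ℝ) ^ 20)) ≤ 1 := by
    refine le_trans ?_ herr
    apply mul_le_mul_of_nonneg_right _ herr0
    nlinarith
  have hGn : (n : ℝ) ^ 2 * Pr (fun ω : Om n => ¬ Good C ω) ≤ 1 := by
    calc (n : ℝ) ^ 2 * Pr (fun ω : Om n => ¬ Good C ω) ≤ (n : ℝ) ^ 2 * (1 / (n : ℝ) ^ 20) :=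
          mul_le_mul_of_nonneg_left hG (by positivity)
      _ = 1 / (n : ℝ) ^ 18 := by field_simp
      _ ≤ 1 := by
          rw [div_le_one (by positivity)]
          exact one_le_pow₀ hn1
  have ha : ∀ t, 0 ≤ E (Psi S R t) := fun t => E_nonneg fun ω => Psi_nonneg t ω
  have hq : ∀ t, 0 ≤ E (Kil S R t) := fun t => E_nonneg fun ω => Kil_nonneg t ω
  have hr : ∀ t, 0 ≤ E (arho S R t) := fun t => E_nonneg fun ω => arho_nonneg t ω
  have hstep : ∀ t < T, E (Psi S R (t + 1)) + E (Kil S R t) ≤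
      E (Psi S R t) * (1 + 1 / (2 * ((n - t : ℕ) : ℝ))) +
      (1600196 * C ^ 4 * (√(n : ℝ) ^ 3 / √((n - t : ℕ) : ℝ) ^ 5 * (√(n : ℝ) + E (arho S R t))) +
      552 * (n : ℝ) ^ 4 * (1 / (n : ℝ) ^ 20)) := by
    intro t ht
    have hmt : ((n - T : ℕ) : ℝ) ≤ ((n - t : ℕ) : ℝ) := m_anti ht.le
    exact psi_step' hC (by omega) (hk.trans hmt) hkn (hm.trans hmt) hG
  have hR := E_arho_sum (S := S) (R := R) hC hT hk hkn hm hGn
  have hcn : (S.card : ℝ) < n := by
    have : ((n - T : ℕ) : ℝ) ≤ n := by exact_mod_cast Nat.sub_le n T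
    linarith
  have ha0 : E (Psi S R 0) ≤ 2 * √(n : ℝ) := by
    rw [E_Psi_zero hcn, div_le_iff₀ (by linarith)]
    have h2 : 2 * (S.card : ℝ) ≤ n := by
      have : ((n - T : ℕ) : ℝ) ≤ n := by exact_mod_cast Nat.sub_le n T
      linarith
    have h3 : (S.card : ℝ) * n ≤ √(n : ℝ) * n := mul_le_mul_of_nonneg_right hkn hn0.le
    have h4 : √(n : ℝ) * n ≤ √(n : ℝ) * (2 * (n - S.card)) :=
      mul_le_mul_of_nonneg_left (by linarith) (Real.sqrt_nonneg _)
    linarith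
  have hA := absA hT hC4 hC herr0 herr1 ha hq hr hstep hR ha0
  exact absB hT (Nat.zero_le _) hC4 hC herr0 herr2 ha hr hstep hR hA

/-- The standing hypotheses for the first phase `[0, T)`. -/
structure Ph1 (D : ℝ) (S : Finset (Fin n)) (R : TieRule n) (T : ℕ) : Prop where
  hT : T < n
  hT0 : 0 < T
  rng : ∀ t < T, Rng D S R t
  hk : 2 * ((S.card : ℝ) + 1) ≤ ((n - T : ℕ) : ℝ)
  hm : (n : ℝ) ^ (2 / 5 : ℝ) ≤ ((n - T : ℕ) : ℝ)
  hG : Pr (fun ω : Om n => ¬ Good D ω) ≤ 1 / (n : ℝ) ^ 20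
  hn552 : (552 : ℝ) ≤ n

namespace Ph1

variable {T : ℕ}

lemma hD (h : Ph1 D S R T) : 1 ≤ D := (h.rng 0 h.hT0).hD

lemma hkn (h : Ph1 D S R T) : (S.card : ℝ) ≤ √(n : ℝ) := (h.rng 0 h.hT0).hkn

lemma n1 (h : Ph1 D S R T) : (1:ℝ) ≤ n := (h.rng 0 h.hT0).n1

lemma z1 (h : Ph1 D S R T) : 1 ≤ zr n := (h.rng 0 h.hT0).z1

lemma kilSum (h : Ph1 D S R T) :
    ∑ t ∈ range T, E (Kil S R t) ≤ 136016660 * D ^ 7 * √(n : ℝ) := by
  have hD := h.hD
  have hn1 := h.n1
  have hn0 : (0:ℝ) < n := by linarith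
  have h1 := kil_sum (S := S) (R := R) hD h.hT h.hk h.hkn h.hm h.hG h.hn552
  rw [← Finset.range_eq_Ico, Nat.sub_zero] at h1
  have h2 : ∑ t ∈ range T, E (Kil S R t) ≤
      ∑ t ∈ range T, D ^ 2 * ((√((n - t : ℕ) : ℝ) / √(n : ℝ)) ^ 4 * E (Kil S R t)) := by
    apply Finset.sum_le_sum
    intro t ht
    rw [Finset.mem_range] at ht
    have hq : 0 ≤ E (Kil S R t) := E_nonneg fun ω => Kil_nonneg t ω
    have h3 : 1 ≤ D ^ 2 * (√((n - t : ℕ) : ℝ) / √(n : ℝ)) ^ 4 := by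
      have e : (√((n - t : ℕ) : ℝ) / √(n : ℝ)) ^ 4 = (((n - t : ℕ) : ℝ) / n) ^ 2 := by
        have : (√((n - t : ℕ) : ℝ) / √(n : ℝ)) ^ 4 =
            ((√((n - t : ℕ) : ℝ)) ^ 2 / (√(n : ℝ)) ^ 2) ^ 2 := by ring
        rw [this, Real.sq_sqrt (Nat.cast_nonneg _), Real.sq_sqrt (Nat.cast_nonneg _)]
      rw [e, ← mul_pow]
      apply one_le_pow₀
      rw [← mul_div_assoc, le_div_iff₀ hn0, one_mul]
      exact (h.rng t ht).hm
    calc E (Kil S R t) ≤ (D ^ 2 * (√((n - t : ℕ) : ℝ) / √(n : ℝ)) ^ 4) * E (Kil S R t) :=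
          le_mul_of_one_le_left hq h3
      _ = _ := by ring
  rw [← Finset.mul_sum] at h2
  calc ∑ t ∈ range T, E (Kil S R t) ≤ _ := h2
    _ ≤ D ^ 2 * (85 * D * (1600196 * D ^ 4) * √(n : ℝ)) :=
        mul_le_mul_of_nonneg_left h1 (by positivity)
    _ = _ := by ring

lemma op (h : Ph1 D S R T) {ω : Om n} (hg : Good D ω) :
    ∀ t ≤ T, OpB ω (As S R t ω) (D * √(n : ℝ)) := by
  intro t ht
  have hmt : ((n - T : ℕ) : ℝ) ≤ ((n - t : ℕ) : ℝ) := m_anti ht
  exact (hg.op h.hD (ht.trans h.hT.le) (h.hm.trans hmt)).weaken (bet_le h.hD t)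

lemma kapSum (h : Ph1 D S R T) : ∑ t ∈ range T, kap S R t ≤ √(n : ℝ) :=
  (kap_sum h.hT.le).trans h.hkn

lemma RrSum (h : Ph1 D S R T) : ∑ t ∈ range T, Rr S R t ≤ 9 * D * n := by
  have hD := h.hD
  have hn1 := h.n1
  have hn0 : (0:ℝ) < n := by linarith
  have hs0 : 0 < √(n : ℝ) := Real.sqrt_pos.2 hn0
  have hGn : (n : ℝ) ^ 2 * Pr (fun ω : Om n => ¬ Good D ω) ≤ 1 := by
    calc (n : ℝ) ^ 2 * Pr (fun ω : Om n => ¬ Good D ω) ≤ (n : ℝ) ^ 2 * (1 / (n : ℝ) ^ 20) :=
          mul_le_mul_of_nonneg_left h.hG (by positivity)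
      _ = 1 / (n : ℝ) ^ 18 := by field_simp
      _ ≤ 1 := by
          rw [div_le_one (by positivity)]
          exact one_le_pow₀ hn1
  have hR := E_arho_sum (S := S) (R := R) hD h.hT h.hk h.hkn h.hm hGn 0 (Nat.zero_le _)
  rw [← Finset.range_eq_Ico, Nat.sub_zero] at hR
  unfold Rr
  rw [Finset.sum_add_distrib, ← Finset.sum_div, Finset.sum_const, Finset.card_range,
    nsmul_eq_mul, mul_one]
  have h1 : (T : ℝ) ≤ n := by exact_mod_cast h.hT.le
  have h2 : (∑ t ∈ range T, E (arho S R t)) / √(n : ℝ) ≤ 8 * D * n := by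
    rw [div_le_iff₀ hs0]
    calc _ ≤ _ := hR
      _ = _ := by ring
  have h3 : (n : ℝ) ≤ D * n := le_mul_of_one_le_left hn0.le hD
  linarith

lemma xkaSum (h : Ph1 D S R T) :
    ∑ t ∈ range T, xka S R t ≤ 136016758 * D ^ 7 * n := by
  have hD := h.hD
  have hD0 : 0 < D := by linarith
  have hn1 := h.n1
  have hn0 : (0:ℝ) < n := by linarith
  have hs1 : 1 ≤ √(n : ℝ) := Real.one_le_sqrt.2 hn1
  have hs0 : 0 < √(n : ℝ) := by linarith
  have hsq : √(n : ℝ) * √(n : ℝ) = n := Real.mul_self_sqrt hn0.le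
  set g := Pr (fun ω : Om n => ¬ Good D ω) with hg
  have hg0 : 0 ≤ g := Pr_nonneg _
  -- one step
  have hstep : ∀ t ∈ range T, xka S R t ≤
      √(n : ℝ) * (97 * D ^ 4 * kap S R t + E (Kil S R t) + 4 * (n : ℝ) ^ 2 * g) := by
    intro t ht
    rw [Finset.mem_range] at ht
    have hRt := h.rng t ht
    have hk := hRt.hk
    have hk0 : (0:ℝ) ≤ S.card := Nat.cast_nonneg _
    have h1 : xka S R t ≤ E (fun ω => √(n : ℝ) * ((if uu S R t ω ∈ S then (1:ℝ) else 0) +
        Kil S R t ω + (if uu S R t ω ∈ S then |bb S R t ω| else 0))) := by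
      apply E_mono
      intro ω
      by_cases hu : uu S R t ω ∈ S
      · rw [if_pos hu, if_pos hu, if_pos hu]
        have huS : uu S R t ω ∈ Ss S R t ω := (mem_Ss S R).2 ⟨uu_mem' S R hRt.ht ω, hu⟩
        have hKil : Kil S R t ω = Mv S R t ω (uu S R t ω) ^ 2 := by unfold Kil; rw [if_pos hu]
        rw [hKil]
        have hr := rr_half (S := S) (R := R) hRt.ht.le hRt.hk ω
        have hr' := rr_le (S := S) (R := R) hRt.ht.le ω
        have hmn : ((n - t : ℕ) : ℝ) ≤ n := by exact_mod_cast Nat.sub_le n t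
        have hr0 : 0 < rr S R t ω := by linarith
        have hx : rho S R t ω = rr S R t ω / √(n : ℝ) *
            (Mv S R t ω (uu S R t ω) + bb S R t ω) := by
          rw [rho_eq]
          unfold Mv
          rw [xv_eq_of_mem huS]
          have : ∑ v ∈ Ns S R t ω, e0 ω v (uu S R t ω) =
              ∑ z ∈ Ns S R t ω, e0 ω (uu S R t ω) z :=
            Finset.sum_congr rfl fun z _ => e0_symm ω _ _
          rw [this]
          have := hr0.ne'
          field_simp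
          ring
        rw [hx, abs_mul, abs_of_nonneg (by positivity : 0 ≤ rr S R t ω / √(n : ℝ))]
        have h2 : rr S R t ω / √(n : ℝ) ≤ √(n : ℝ) := by
          rw [div_le_iff₀ hs0, hsq]; linarith
        have h3 : |Mv S R t ω (uu S R t ω) + bb S R t ω| ≤
            1 + Mv S R t ω (uu S R t ω) ^ 2 + |bb S R t ω| := by
          refine (abs_add_le _ _).trans ?_
          have : |Mv S R t ω (uu S R t ω)| ≤ 1 + Mv S R t ω (uu S R t ω) ^ 2 := by
            rw [← sq_abs]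
            nlinarith [abs_nonneg (Mv S R t ω (uu S R t ω)),
              sq_nonneg (|Mv S R t ω (uu S R t ω)| - 1)]
          linarith
        exact mul_le_mul h2 h3 (abs_nonneg _) hs0.le
      · rw [if_neg hu, if_neg hu, if_neg hu]
        have := Kil_nonneg (S := S) (R := R) t ω
        positivity
    rw [E_mul_left, E_add, E_add] at h1
    have h2 : E (fun ω => if uu S R t ω ∈ S then |bb S R t ω| else 0) ≤
        E (fun ω => 96 * D ^ 4 * (if uu S R t ω ∈ S then (1:ℝ) else 0)) +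
          4 * (n : ℝ) ^ 2 * g := by
      apply E_le_good
      · intro ω hgood
        by_cases hu : uu S R t ω ∈ S
        · rw [if_pos hu, if_pos hu]
          exact abs_bb_bd h.hT.le h.rng (by linarith [h.hk])
            (fun t ht => h.op hgood t ht.le) t ht.le
        · rw [if_neg hu, if_neg hu]; simp
      · intro ω
        split_ifs <;> positivity
      · intro ω
        by_cases hu : uu S R t ω ∈ S
        · rw [if_pos hu]
          refine (abs_bb_le (S := S) (R := R) hRt.ht.le hRt.hk ω).trans ?_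
          have a1 : (t : ℝ) ≤ n := by exact_mod_cast hRt.ht.le
          have a2 : √(n : ℝ) ≤ n := by
            rw [Real.sqrt_le_left (by linarith)]; nlinarith
          calc (t : ℝ) * (4 * √(n : ℝ)) ≤ n * (4 * n) :=
                mul_le_mul a1 (by linarith) (by positivity) hn0.le
            _ = _ := by ring
        · rw [if_neg hu]; positivity
    rw [E_mul_left] at h2
    have hkap := kap_nonneg (S := S) (R := R) t
    have hD4 : 1 ≤ D ^ 4 := one_le_pow₀ hD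
    refine h1.trans ?_
    apply mul_le_mul_of_nonneg_left _ hs0.le
    have e : kap S R t = E (fun ω => if uu S R t ω ∈ S then (1:ℝ) else 0) := rfl
    rw [← e] at h2 ⊢
    have e2 : E (fun ω => Kil S R t ω) = E (Kil S R t) := rfl
    rw [e2]
    have : kap S R t ≤ D ^ 4 * kap S R t := le_mul_of_one_le_left hkap hD4
    linarith
  have hsum := Finset.sum_le_sum hstep
  rw [← Finset.mul_sum, Finset.sum_add_distrib, Finset.sum_add_distrib, ← Finset.mul_sum,
    Finset.sum_const, Finset.card_range, nsmul_eq_mul] at hsum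
  have hk1 := h.kapSum
  have hk2 := h.kilSum
  have hTn : (T : ℝ) ≤ n := by exact_mod_cast h.hT.le
  have h5 : (T : ℝ) * (4 * (n : ℝ) ^ 2 * g) ≤ 1 := by
    have hgn : g ≤ 1 / (n : ℝ) ^ 20 := h.hG
    calc (T : ℝ) * (4 * (n : ℝ) ^ 2 * g) ≤ n * (4 * (n : ℝ) ^ 2 * (1 / (n : ℝ) ^ 20)) := by
          apply mul_le_mul hTn _ (by positivity) hn0.le
          exact mul_le_mul_of_nonneg_left hgn (by positivity)
      _ = 4 / (n : ℝ) ^ 17 := by field_simp
      _ ≤ 1 := by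
          rw [div_le_one (by positivity)]
          have := h.hn552
          calc (4:ℝ) ≤ n := by linarith
            _ ≤ (n : ℝ) ^ 17 := le_self_pow₀ hn1 (by norm_num)
  have hD7 : D ^ 4 ≤ D ^ 7 := pow_le_pow_right₀ hD (by norm_num)
  have h1D7 : 1 ≤ D ^ 7 := one_le_pow₀ hD
  have h6 : 97 * D ^ 4 * ∑ t ∈ range T, kap S R t ≤ 97 * D ^ 7 * √(n : ℝ) :=
    mul_le_mul (by linarith) hk1 (Finset.sum_nonneg fun t _ => kap_nonneg t) (by positivity)
  have h7 : 1 ≤ D ^ 7 * √(n : ℝ) := one_le_mul_of_one_le_of_one_le h1D7 hs1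
  calc ∑ t ∈ range T, xka S R t ≤ _ := hsum
    _ ≤ √(n : ℝ) * (97 * D ^ 7 * √(n : ℝ) + 136016660 * D ^ 7 * √(n : ℝ) +
        D ^ 7 * √(n : ℝ)) := mul_le_mul_of_nonneg_left (by linarith) hs0.le
    _ = 136016758 * D ^ 7 * (√(n : ℝ) * √(n : ℝ)) := by ring
    _ = _ := by rw [hsq]

/-- Sum of `|Yw|` over the planted removals. -/
lemma YSum (h : Ph1 D S R T) (hw : WB D Θ G) :
    ∑ t ∈ range T, E (fun ω => if uu S R t ω ∈ S then
      |Yw S R t ω (wL false Θ G S R t ω)| else 0) ≤ 17000000000 * D ^ 13 * zr n ^ 10 := by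
  have hD := h.hD
  have hD0 : 0 < D := by linarith
  have hn1 := h.n1
  have hn0 : (0:ℝ) < n := by linarith
  have hz1 := h.z1
  have hz0 : 0 < zr n := by linarith
  have hs1 : 1 ≤ √(n : ℝ) := Real.one_le_sqrt.2 hn1
  have hstep : ∀ t ∈ range T, E (fun ω => if uu S R t ω ∈ S then
      |Yw S R t ω (wL false Θ G S R t ω)| else 0) ≤
      zr n ^ 6 * kap S R t + 1 / zr n ^ 6 *
        (120 * D ^ 6 * n * (xka S R t + √(n : ℝ) * kap S R t) + 18 * D ^ 2 / n) := by
    intro t ht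
    rw [Finset.mem_range] at ht
    have h1 : E (fun ω => if uu S R t ω ∈ S then
      |Yw S R t ω (wL false Θ G S R t ω)| else 0) ≤
      E (fun ω => zr n ^ 6 * (if uu S R t ω ∈ S then (1:ℝ) else 0) + 1 / zr n ^ 6 *
        (if uu S R t ω ∈ S then Yw S R t ω (wL false Θ G S R t ω) ^ 2 else 0)) := by
      apply E_mono
      intro ω
      by_cases hu : uu S R t ω ∈ S
      · rw [if_pos hu, if_pos hu, if_pos hu]
        set Y := Yw S R t ω (wL false Θ G S R t ω)
        set l := zr n ^ 6 with hl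
        have hl0 : 0 < l := by positivity
        rw [← sq_abs Y]
        have h2 : 0 ≤ (|Y| - l) ^ 2 / l := by positivity
        have e4 : (|Y| - l) ^ 2 / l = 1 / l * |Y| ^ 2 + l - 2 * |Y| := by field_simp; ring
        have := abs_nonneg Y
        have h3 : 0 ≤ 1 / l * |Y| ^ 2 + l := by positivity
        linarith
      · rw [if_neg hu, if_neg hu, if_neg hu]
        simp
    rw [E_add, E_mul_left, E_mul_left] at h1
    have h2 := eY2S (h.rng t ht) hw
    have h3 := mul_le_mul_of_nonneg_left h2 (by positivity : 0 ≤ 1 / zr n ^ 6)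
    have e : kap S R t = E (fun ω => if uu S R t ω ∈ S then (1:ℝ) else 0) := rfl
    rw [e]
    rw [e] at h3
    linarith
  have hsum := Finset.sum_le_sum hstep
  rw [Finset.sum_add_distrib, ← Finset.mul_sum, ← Finset.mul_sum, Finset.sum_add_distrib,
    ← Finset.mul_sum, Finset.sum_add_distrib, ← Finset.mul_sum, Finset.sum_const,
    Finset.card_range, nsmul_eq_mul] at hsum
  have hk1 := h.kapSum
  have hx1 := h.xkaSum
  have hTn : (T : ℝ) ≤ n := by exact_mod_cast h.hT.le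
  have h5 : (T : ℝ) * (18 * D ^ 2 / n) ≤ 18 * D ^ 2 := by
    calc (T : ℝ) * (18 * D ^ 2 / n) ≤ n * (18 * D ^ 2 / n) :=
          mul_le_mul_of_nonneg_right hTn (by positivity)
      _ = _ := by field_simp
  have hsq : √(n : ℝ) * √(n : ℝ) = n := Real.mul_self_sqrt hn0.le
  have hD7 : 1 ≤ D ^ 7 := one_le_pow₀ hD
  have h6 : ∑ t ∈ range T, xka S R t + √(n : ℝ) * ∑ t ∈ range T, kap S R t ≤
      136016759 * D ^ 7 * n := by
    have : √(n : ℝ) * ∑ t ∈ range T, kap S R t ≤ √(n : ℝ) * √(n : ℝ) :=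
      mul_le_mul_of_nonneg_left hk1 (Real.sqrt_nonneg _)
    rw [hsq] at this
    have h7 : (n : ℝ) ≤ D ^ 7 * n := le_mul_of_one_le_left hn0.le hD7
    linarith
  have h7 : 120 * D ^ 6 * n * (∑ t ∈ range T, xka S R t + √(n : ℝ) * ∑ t ∈ range T, kap S R t) +
      (T : ℝ) * (18 * D ^ 2 / n) ≤ 16400000000 * D ^ 13 * (n : ℝ) ^ 2 := by
    have a1 : 120 * D ^ 6 * n *
        (∑ t ∈ range T, xka S R t + √(n : ℝ) * ∑ t ∈ range T, kap S R t) ≤
        120 * D ^ 6 * n * (136016759 * D ^ 7 * n) := mul_le_mul_of_nonneg_left h6 (by positivity)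
    have a2 : 120 * D ^ 6 * n * (136016759 * D ^ 7 * n) =
        16322011080 * (D ^ 13 * (n : ℝ) ^ 2) := by ring
    have a3 : D ^ 2 ≤ D ^ 13 * (n : ℝ) ^ 2 := by
      calc D ^ 2 ≤ D ^ 13 := pow_le_pow_right₀ hD (by norm_num)
        _ ≤ _ := le_mul_of_one_le_right (by positivity) (one_le_pow₀ hn1)
    have a4 : 0 ≤ D ^ 13 * (n : ℝ) ^ 2 := by positivity
    rw [a2] at a1
    have e : 16400000000 * D ^ 13 * (n : ℝ) ^ 2 = 16400000000 * (D ^ 13 * (n : ℝ) ^ 2) := by ring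
    rw [e]
    linarith
  have hz8 := zr_pow8 n
  have hz4 := zr_pow4 n
  have h8 : 1 / zr n ^ 6 * (16400000000 * D ^ 13 * (n : ℝ) ^ 2) =
      16400000000 * D ^ 13 * zr n ^ 10 := by
    rw [← hz8]; field_simp
  have h9 : zr n ^ 6 * ∑ t ∈ range T, kap S R t ≤ zr n ^ 10 := by
    calc zr n ^ 6 * ∑ t ∈ range T, kap S R t ≤ zr n ^ 6 * √(n : ℝ) :=
          mul_le_mul_of_nonneg_left hk1 (by positivity)
      _ = zr n ^ 10 := by rw [← hz4]; ring
  have h10 := mul_le_mul_of_nonneg_left h7 (by positivity : 0 ≤ 1 / zr n ^ 6)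
  rw [h8] at h10
  have h11 : zr n ^ 10 ≤ D ^ 13 * zr n ^ 10 :=
    le_mul_of_one_le_left (by positivity) (one_le_pow₀ hD)
  have h12 : 0 ≤ D ^ 13 * zr n ^ 10 := by positivity
  calc _ ≤ _ := hsum
    _ ≤ zr n ^ 10 + 16400000000 * D ^ 13 * zr n ^ 10 := by linarith
    _ ≤ _ := by linarith

/-- Sum of the errors. -/
lemma ErSum (h : Ph1 D S R T) (hw : WB D Θ G) (c : Bool) :
    ∑ t ∈ range T, E (ErL c Θ D G S R t) ≤ 20000000000 * D ^ 14 / zr n := by
  have hD := h.hD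
  have hD0 : 0 < D := by linarith
  have hn1 := h.n1
  have hn0 : (0:ℝ) < n := by linarith
  have hz1 := h.z1
  have hz0 : 0 < zr n := by linarith
  have hz8 := zr_pow8 n
  have hz4 := zr_pow4 n
  have hylo := yr_lo hn1 c
  have hz2 : zr n ≤ zr n ^ 2 := le_self_pow₀ hz1 (by norm_num)
  have hy0 : 0 < yr c n := by linarith
  have hYs : ∀ t, 0 ≤ E (fun ω => if uu S R t ω ∈ S then
      |Yw S R t ω (wL c Θ G S R t ω)| else 0) := fun t => E_nonneg fun ω => by
    split_ifs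
    · exact abs_nonneg _
    · exact le_rfl
  have hstep : ∀ t ∈ range T, E (ErL c Θ D G S R t) ≤
      408 * D ^ 5 / zr n ^ 9 * Rr S R t + 2 * D ^ 3 / zr n ^ 8 * kap S R t +
      iot c * (D / zr n ^ 12 * E (fun ω => if uu S R t ω ∈ S then
      |Yw S R t ω (wL c Θ G S R t ω)| else 0)) := by
    intro t ht
    rw [Finset.mem_range] at ht
    have hE : E (ErL c Θ D G S R t) = 2 * D ^ 3 / n * kap S R t +
        iot c * (D / √(n : ℝ) ^ 3 * E (fun ω => if uu S R t ω ∈ S then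
          |Yw S R t ω (wL c Θ G S R t ω)| else 0)) +
        4 * D ^ 3 / (n * qc c n) * E (fun ω => if uu S R t ω ∈ S then 0 else
          ∑ v ∈ Pc c S R (t + 1) ω, |pv S R t ω v|) +
        352 * D ^ 4 / √(n : ℝ) ^ 3 * E (fun ω => if uu S R t ω ∈ S then (0:ℝ) else 1) := by
      unfold kap
      rw [← E_mul_left, ← E_mul_left, ← E_mul_left, ← E_mul_left, ← E_mul_left, ← E_add, ← E_add,
        ← E_add]
      apply E_congr
      intro ω
      unfold ErL
      by_cases hu : uu S R t ω ∈ S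
      · simp only [if_pos hu]; ring
      · simp only [if_neg hu]; ring
    rw [hE]
    have hSp := eSp (h.rng t ht) c
    have hR := one_le_Rr (S := S) (R := R) t
    have hone : E (fun ω : Om n => if uu S R t ω ∈ S then (0:ℝ) else 1) ≤ 1 :=
      E_le_of_bdd fun ω => by split_ifs <;> norm_num
    have hs3 : √(n : ℝ) ^ 3 = zr n ^ 12 := by rw [← hz4]; ring
    have hnq : (n : ℝ) * qc c n = zr n ^ 8 * yr c n ^ 2 := by rw [hz8, yr_sq]
    rw [hs3, hnq]
    have a1 : 4 * D ^ 3 / (zr n ^ 8 * yr c n ^ 2) *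
        E (fun ω => if uu S R t ω ∈ S then 0 else
          ∑ v ∈ Pc c S R (t + 1) ω, |pv S R t ω v|) ≤ 56 * D ^ 5 / zr n ^ 9 * Rr S R t := by
      calc _ ≤ 4 * D ^ 3 / (zr n ^ 8 * yr c n ^ 2) * (14 * D ^ 2 * yr c n * Rr S R t) :=
            mul_le_mul_of_nonneg_left hSp (by positivity)
        _ = 56 * D ^ 5 / (zr n ^ 8 * yr c n) * Rr S R t := by field_simp; norm_num
        _ ≤ _ := by
            apply mul_le_mul_of_nonneg_right _ (by linarith)
            apply div_le_div_of_nonneg_left (by positivity) (by positivity)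
            calc zr n ^ 9 = zr n ^ 8 * zr n := by ring
              _ ≤ zr n ^ 8 * yr c n := mul_le_mul_of_nonneg_left (by linarith) (by positivity)
    have a2 : 352 * D ^ 4 / zr n ^ 12 *
        E (fun ω : Om n => if uu S R t ω ∈ S then (0:ℝ) else 1) ≤
        352 * D ^ 5 / zr n ^ 9 * Rr S R t := by
      have b1 : D ^ 4 ≤ D ^ 5 := pow_le_pow_right₀ hD (by norm_num)
      calc _ ≤ 352 * D ^ 4 / zr n ^ 12 * 1 := mul_le_mul_of_nonneg_left hone (by positivity)
        _ = 352 * D ^ 4 / zr n ^ 12 := by ring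
        _ ≤ 352 * D ^ 5 / zr n ^ 9 := by
            apply div_le_div₀ (by positivity) (by linarith) (by positivity)
            exact pow_le_pow_right₀ hz1 (by norm_num)
        _ ≤ _ := le_mul_of_one_le_right (by positivity) hR
    rw [← hz8]
    have e : 408 * D ^ 5 / zr n ^ 9 * Rr S R t = 56 * D ^ 5 / zr n ^ 9 * Rr S R t +
        352 * D ^ 5 / zr n ^ 9 * Rr S R t := by ring
    rw [e]
    rw [hz8]
    rw [hz8] at a1
    linarith
  have hsum := Finset.sum_le_sum hstep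
  rw [Finset.sum_add_distrib, Finset.sum_add_distrib, ← Finset.mul_sum, ← Finset.mul_sum,
    ← Finset.mul_sum, ← Finset.mul_sum] at hsum
  have hk1 := h.kapSum
  have hR1 := h.RrSum
  have b1 : 408 * D ^ 5 / zr n ^ 9 * ∑ t ∈ range T, Rr S R t ≤ 3672 * D ^ 14 / zr n := by
    have : D ^ 6 ≤ D ^ 14 := pow_le_pow_right₀ hD (by norm_num)
    calc _ ≤ 408 * D ^ 5 / zr n ^ 9 * (9 * D * n) := mul_le_mul_of_nonneg_left hR1 (by positivity)
      _ = 3672 * D ^ 6 / zr n := by rw [← hz8]; field_simp; norm_num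
      _ ≤ _ := by
          apply div_le_div_of_nonneg_right _ hz0.le
          linarith
  have b2 : 2 * D ^ 3 / zr n ^ 8 * ∑ t ∈ range T, kap S R t ≤ 2 * D ^ 14 / zr n := by
    have : D ^ 3 ≤ D ^ 14 := pow_le_pow_right₀ hD (by norm_num)
    calc _ ≤ 2 * D ^ 3 / zr n ^ 8 * √(n : ℝ) := mul_le_mul_of_nonneg_left hk1 (by positivity)
      _ = 2 * D ^ 3 / zr n ^ 4 := by rw [← hz4]; field_simp
      _ ≤ _ := by
          apply div_le_div₀ (by positivity) (by linarith) hz0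
          exact le_self_pow₀ hz1 (by norm_num)
  have b3 : iot c * (D / zr n ^ 12 * ∑ t ∈ range T, E (fun ω => if uu S R t ω ∈ S then
      |Yw S R t ω (wL c Θ G S R t ω)| else 0)) ≤ 17000000000 * D ^ 14 / zr n := by
    cases c with
    | true =>
      have : iot true = 0 := by simp [iot]
      rw [this, zero_mul]; positivity
    | false =>
      have : iot false = 1 := by simp [iot]
      rw [this, one_mul]
      have hY := h.YSum hw
      calc _ ≤ D / zr n ^ 12 * (17000000000 * D ^ 13 * zr n ^ 10) :=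
            mul_le_mul_of_nonneg_left hY (by positivity)
        _ = 17000000000 * D ^ 14 / zr n ^ 2 := by field_simp
        _ ≤ _ := div_le_div_of_nonneg_left (by positivity) hz0 hz2
  have b4 : 0 ≤ D ^ 14 / zr n := by positivity
  calc _ ≤ _ := hsum
    _ ≤ 3672 * D ^ 14 / zr n + 2 * D ^ 14 / zr n + 17000000000 * D ^ 14 / zr n := by linarith
    _ = 17000003674 * (D ^ 14 / zr n) := by ring
    _ ≤ 20000000000 * (D ^ 14 / zr n) := by linarith
    _ = _ := by ring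

end Ph1

end Pool.Agent.H40.Peel
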