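import Pool.Agent.H40.Peel.PA1D

/-!
Module PA1: comparison with the certificate and the upper bound for the rescaled minimum degree.
-/

namespace Pool.Agent.H40.Peel

namespace PA1M

open Finset Filter MeasureTheory Topology NiceF

/-- Piecewise linear cutoff. -/
noncomputable def chi (p c y : ℝ) : ℝ := min 1 (max 0 ((p - y) / c))

theorem chi_nonneg (p c y : ℝ) : 0 ≤ chi p c y := le_min zero_le_one (le_max_left _ _)

theorem chi_le_one (p c y : ℝ) : chi p c y ≤ 1 := min_le_left _ _

theorem chi_lip (p c : ℝ) (hc : 0 < c) (x y : ℝ) : |chi p c x - chi p c y| ≤ 1 / c * |x - y| := by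
  unfold chi
  refine (abs_min_sub_min_le_max _ _ _ _).trans ?_
  refine max_le (by simp; positivity) ?_
  refine (abs_max_sub_max_le_max _ _ _ _).trans ?_
  refine max_le (by simp; positivity) ?_
  have e : (p - x) / c - (p - y) / c = 1 / c * (y - x) := by field_simp; ring
  rw [e, abs_mul, abs_of_pos (by positivity), abs_sub_comm]

theorem chi_eq_one {p c y : ℝ} (hc : 0 < c) (h : y ≤ p - c) : chi p c y = 1 := by
  unfold chi
  apply min_eq_left
  apply le_max_of_le_right
  rw [le_div_iff₀ hc]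
  linarith

theorem chi_eq_zero {p c y : ℝ} (hc : 0 < c) (h : p ≤ y) : chi p c y = 0 := by
  unfold chi
  have : (p - y) / c ≤ 0 := div_nonpos_of_nonpos_of_nonneg (by linarith) hc.le
  rw [max_eq_left this]
  exact min_eq_right zero_le_one

theorem chi_int {p c x σ w : ℝ} (hc : 0 < c) (hσ : 0 < σ) (h : p - x ≤ - w * σ) :
    ∫ z, chi p c (x + σ * z) * ph z ≤ Qh w := by
  have hcont : Continuous (chi p c) := by unfold chi; fun_prop
  have i1 : Integrable fun z => chi p c (x + σ * z) * ph z :=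
    integrable_bdd_mul_ph (hcont.comp (by fun_prop)) (B := 1) fun y => by
      rw [abs_of_nonneg (chi_nonneg _ _ _)]
      exact chi_le_one _ _ _
  rw [← Ph_neg]
  unfold Ph
  rw [← integral_indicator measurableSet_Iic]
  apply integral_mono i1 (ph_integrable.indicator measurableSet_Iic)
  intro z
  simp only [Set.indicator_apply, Set.mem_Iic]
  split_ifs with hz
  · have := mul_le_mul_of_nonneg_right (chi_le_one p c (x + σ * z)) (ph_pos z).le
    linarith
  · rw [chi_eq_zero hc, zero_mul]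
    nlinarith [not_le.1 hz]

/-- One step of the comparison. -/
theorem UBF_step (hLLN : LLNStmt) {F : ℝ → ℝ → ℝ} {b : ℝ → ℝ} {M0 M s h δ μ c : ℝ}
    (hsg : ∀ s h x, 1 ≤ s → 0 < h → ∫ z, F s (x + √h * z) * ph z = F (s + h) x)
    (hbd : ∀ s ≥ 1, ∀ x, |F s x| ≤ M0)
    (hlip : ∀ s ≥ 1, ∀ x y, |F s x - F s y| ≤ M * |x - y|)
    (hs : 1 ≤ s) (hh : 0 < h) (hδ : 0 ≤ δ) (hμ : 1 / s + μ ≤ F s (b s)) (hc : 0 < c)
    (hcM : 2 * c * M ≤ μ) (hhc : h ≤ c / 2) (hb : b s - h ≤ b (s + h))
    (hU : ∀ y, b s ≤ y → UB s y (F s y + δ)) (x : ℝ) (hx : b (s + h) ≤ x) :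
    UB (s + h) x (F (s + h) x + (δ + (1 + M0) * Qh (c / (2 * √h)))) := by
  have hM0 : 0 ≤ M0 := (abs_nonneg _).trans (hbd 1 le_rfl 0)
  have hM : 0 ≤ M := by
    have := (abs_nonneg _).trans (hlip 1 le_rfl 1 0)
    simpa using this
  set K := 1 + M0 with hK
  have hK0 : 0 < K := by rw [hK]; linarith
  set p := b s - c with hp
  set f : ℝ → ℝ := fun y => F s y + (δ + K * chi p c y) with hf
  have hs0 : 0 < s := by linarith
  have h1s : 1 / s ≤ 1 := by rw [div_le_one hs0]; exact hs
  have hfB : ∀ y, |f y| ≤ M0 + (δ + K) := by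
    intro y
    simp only [hf]
    refine (abs_add_le _ _).trans (add_le_add (hbd s hs y) ?_)
    have h1 := chi_nonneg p c y
    have h2 := chi_le_one p c y
    rw [abs_of_nonneg (by positivity)]
    have := mul_le_mul_of_nonneg_left h2 hK0.le
    linarith
  have hfL : ∀ x y, |f x - f y| ≤ (M + K * (1 / c)) * |x - y| := by
    intro x y
    simp only [hf]
    have e : F s x + (δ + K * chi p c x) - (F s y + (δ + K * chi p c y)) =
        (F s x - F s y) + K * (chi p c x - chi p c y) := by ring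
    rw [e]
    refine (abs_add_le _ _).trans ?_
    have e' : (M + K * (1 / c)) * |x - y| = M * |x - y| + K * (1 / c * |x - y|) := by ring
    rw [e', abs_mul, abs_of_pos hK0]
    exact add_le_add (hlip s hs x y) (mul_le_mul_of_nonneg_left (chi_lip p c hc x y) hK0.le)
  have hfU : ∀ y, UB s y (f y) := by
    intro y
    have h0 := chi_nonneg p c y
    rcases le_total (b s) y with h1 | h1
    · refine (hU y h1).mono le_rfl ?_
      simp only [hf]
      have : 0 ≤ K * chi p c y := by positivity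
      linarith
    · refine (UB_one_div hs y).mono le_rfl ?_
      simp only [hf]
      rcases le_total (p - c) y with h2 | h2
      · have h3 := hlip s hs (b s) y
        rw [abs_of_nonneg (sub_nonneg.2 h1)] at h3
        have h4 := (abs_le.1 h3).2
        have h5 : M * (b s - y) ≤ M * (2 * c) := by
          apply mul_le_mul_of_nonneg_left _ hM
          rw [hp] at h2
          linarith
        have : 0 ≤ K * chi p c y := by positivity
        linarith
      · rw [chi_eq_one hc h2]
        have h3 := (abs_le.1 (hbd s hs y)).1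
        rw [hK]
        linarith
  have hp1 := UB_prop hLLN hs (show s < s + h by linarith) hfB hfL hfU x
  refine hp1.mono le_rfl ?_
  have e1 : s + h - s = h := by ring
  rw [e1]
  have hFc : Continuous (F s) := by
    have : LipschitzWith (Real.toNNReal M) (F s) := by
      apply LipschitzWith.of_dist_le_mul
      intro x y
      rw [Real.dist_eq, Real.dist_eq, Real.coe_toNNReal M hM]
      exact hlip s hs x y
    exact this.continuous
  have hcc : Continuous (chi p c) := by unfold chi; fun_prop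
  have i1 : Integrable fun z => F s (x + √h * z) * ph z :=
    integrable_bdd_mul_ph (hFc.comp (by fun_prop)) fun y => hbd s hs _
  have i2 : Integrable fun z => chi p c (x + √h * z) * ph z :=
    integrable_bdd_mul_ph (hcc.comp (by fun_prop)) (B := 1) fun y => by
      rw [abs_of_nonneg (chi_nonneg _ _ _)]
      exact chi_le_one _ _ _
  have e2 : ∫ z, f (x + √h * z) * ph z = F (s + h) x + (δ + K *
      ∫ z, chi p c (x + √h * z) * ph z) := by
    have e3 : (fun z => f (x + √h * z) * ph z) = fun z => F s (x + √h * z) * ph z +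
        (δ * ph z + K * (chi p c (x + √h * z) * ph z)) := by
      funext z
      simp only [hf]
      ring
    rw [e3]
    have e4 : ∫ z, (F s (x + √h * z) * ph z + (δ * ph z + K * (chi p c (x + √h * z) * ph z))) =
        (∫ z, F s (x + √h * z) * ph z) + ∫ z, (δ * ph z + K * (chi p c (x + √h * z) * ph z)) :=
      integral_add i1 ((ph_integrable.const_mul δ).add (i2.const_mul K))
    have e5 : ∫ z, (δ * ph z + K * (chi p c (x + √h * z) * ph z)) =
        (∫ z, δ * ph z) + ∫ z, K * (chi p c (x + √h * z) * ph z) :=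
      integral_add (ph_integrable.const_mul δ) (i2.const_mul K)
    rw [e4, e5, integral_const_mul, integral_const_mul, ph_total, mul_one, hsg s h x hs hh]
  rw [e2]
  have hsh : 0 < √h := Real.sqrt_pos.2 hh
  have h6 : ∫ z, chi p c (x + √h * z) * ph z ≤ Qh (c / (2 * √h)) := by
    apply chi_int hc hsh
    have e6 : -(c / (2 * √h)) * √h = - (c / 2) := by field_simp
    rw [e6, hp]
    linarith
  have h7 := mul_le_mul_of_nonneg_left h6 hK0.le
  linarith

theorem exists_steps {c D K ε : ℝ} (hc : 0 < c) (hD : 0 < D) (hK : 0 < K) (hε : 0 < ε) :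
    ∃ J : ℕ, 0 < J ∧ D / J ≤ c / 2 ∧ J * (K * Qh (c / (2 * √(D / J)))) ≤ ε := by
  obtain ⟨J, hJ⟩ := exists_nat_gt (max (max 1 (2 * D / c)) (max (4 * D / c ^ 2)
    (128 * K * D ^ 2 / (c ^ 4 * ε))))
  have h1 : (1:ℝ) < J := ((le_max_left _ _).trans (le_max_left _ _)).trans_lt hJ
  have h2 : 2 * D / c < J := ((le_max_right _ _).trans (le_max_left _ _)).trans_lt hJ
  have h3 : 4 * D / c ^ 2 < J := ((le_max_left _ _).trans (le_max_right _ _)).trans_lt hJ
  have h4 : 128 * K * D ^ 2 / (c ^ 4 * ε) < J :=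
    ((le_max_right _ _).trans (le_max_right _ _)).trans_lt hJ
  have hJ0 : (0:ℝ) < J := by linarith
  rw [div_lt_iff₀ (by positivity)] at h2 h3 h4
  refine ⟨J, by exact_mod_cast hJ0, ?_, ?_⟩
  · rw [div_le_div_iff₀ hJ0 two_pos]
    linarith
  · set w := c / (2 * √(D / J)) with hw
    have hDJ : 0 < D / J := by positivity
    have hsq : 0 < √(D / J) := Real.sqrt_pos.2 hDJ
    have hw0 : 0 < w := by positivity
    have hw2 : w ^ 2 = c ^ 2 * J / (4 * D) := by
      rw [hw, div_pow, mul_pow, Real.sq_sqrt hDJ.le]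
      field_simp
      norm_num
    have hw21 : 1 ≤ w ^ 2 := by
      rw [hw2, le_div_iff₀ (by positivity)]
      linarith
    have hw1 : 1 ≤ w := by nlinarith
    have h5 := Qh_le_pow w hw0
    have h6 : Qh w ≤ 8 / w ^ 4 := by
      refine h5.trans ?_
      apply div_le_div_of_nonneg_left (by norm_num) (by positivity)
      calc w ^ 4 = w ^ 4 * 1 := by ring
        _ ≤ w ^ 4 * w := mul_le_mul_of_nonneg_left hw1 (by positivity)
        _ = w ^ 5 := by ring
    have hw4 : w ^ 4 = c ^ 4 * J ^ 2 / (16 * D ^ 2) := by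
      have : w ^ 4 = (w ^ 2) ^ 2 := by ring
      rw [this, hw2]
      field_simp
      norm_num
    have h7 : J * (K * Qh w) ≤ J * (K * (8 / w ^ 4)) := by
      apply mul_le_mul_of_nonneg_left _ hJ0.le
      exact mul_le_mul_of_nonneg_left h6 hK.le
    refine h7.trans ?_
    rw [hw4]
    have e : (J:ℝ) * (K * (8 / (c ^ 4 * J ^ 2 / (16 * D ^ 2)))) =
        128 * K * D ^ 2 / (c ^ 4 * J) := by
      field_simp
      norm_num
    rw [e, div_le_iff₀ (by positivity)]
    nlinarith

variable {α β κ t0 : ℝ} {F : ℝ → ℝ → ℝ} {b : ℝ → ℝ}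

theorem UBF_base (hL : LLNStmt) (hI : INITStmt) (hc : CertData α β κ t0 F b) (y : ℝ)
    (hy : b t0 ≤ y) : UB t0 y (F t0 y) := by
  have h1 := hc.initial y hy
  have h2 := hc.one_lt.le
  rcases le_total (1 / t0) (Qh (y / √t0)) with h | h
  · rw [min_eq_left h] at h1
    exact (UB_one_div h2 y).mono le_rfl h1
  · rw [min_eq_right h] at h1
    exact (UB_Qh hL hI h2 y).mono le_rfl h1

theorem UBF_all (hL : LLNStmt) (hI : INITStmt) (hc : CertData α β κ t0 F b) (t : ℝ)
    (ht : t0 ≤ t) (y : ℝ) (hy : b t ≤ y) : UB t y (F t y) := by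
  rcases ht.eq_or_lt with rfl | ht'
  · exact UBF_base hL hI hc y hy
  obtain ⟨M0, hM0⟩ := hc.bdd
  obtain ⟨M, hM⟩ := hc.lip
  obtain ⟨μ, hμ, hm, _⟩ := hc.margins t ht
  have hM00 : 0 ≤ M0 := (abs_nonneg _).trans (hM0 1 le_rfl 0)
  have hMM : 0 ≤ M := by
    have := (abs_nonneg _).trans (hM 1 le_rfl 1 0)
    simpa using this
  set c := μ / (2 * (M + 1)) with hcd
  have hc0 : 0 < c := by positivity
  have hcM : 2 * c * M ≤ μ := by
    have : 2 * c * (M + 1) = μ := by rw [hcd]; field_simp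
    nlinarith
  have ht1 := hc.one_lt
  apply UB.lim
  intro ε hε
  have hD : 0 < t - t0 := by linarith
  obtain ⟨J, hJ, hJ1, hJ2⟩ := exists_steps hc0 hD (show 0 < 1 + M0 by linarith) hε
  have hJ0 : (0:ℝ) < J := by exact_mod_cast hJ
  set h := (t - t0) / J with hh
  have hh0 : 0 < h := by positivity
  have hJh : J * h = t - t0 := by rw [hh]; field_simp
  set e := (1 + M0) * Qh (c / (2 * √h)) with he
  have he0 : 0 ≤ e := mul_nonneg (by linarith) (Qh_nonneg _)
  have key : ∀ j : ℕ, j ≤ J → ∀ y, b (t0 + j * h) ≤ y →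
      UB (t0 + j * h) y (F (t0 + j * h) y + j * e) := by
    intro j
    induction j with
    | zero =>
      intro _ y hy
      simp only [Nat.cast_zero, zero_mul, add_zero] at hy ⊢
      exact UBF_base hL hI hc y hy
    | succ j ih =>
      intro hj y hy
      have ih := ih (by omega)
      have hj1 : ((j:ℝ) + 1) ≤ J := by exact_mod_cast hj
      have hj2 : (j:ℝ) * h + h ≤ J * h := by nlinarith
      have hj0 : 0 ≤ (j:ℝ) * h := by positivity
      have e1 : t0 + ((j + 1 : ℕ) : ℝ) * h = t0 + j * h + h := by push_cast; ring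
      rw [e1] at hy ⊢
      have e2 : ((j + 1 : ℕ) : ℝ) * e = j * e + e := by push_cast; ring
      rw [e2]
      refine UBF_step hL hc.semigroup hM0 hM (by linarith) hh0 (by positivity)
        (hm (t0 + j * h) ⟨by linarith, by linarith⟩) hc0 hcM hJ1 ?_ ih y hy
      have := hc.b_mono (t0 + j * h) (t0 + j * h + h) (by linarith) (by linarith)
      linarith
  have h1 := key J le_rfl y
  have e3 : t0 + J * h = t := by rw [hJh]; ring
  rw [e3] at h1
  exact (h1 hy).mono le_rfl (by linarith)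

theorem inv_diff {s h : ℝ} (hs : 1 ≤ s) (hh : 0 < h) : 1 / s - 1 / (s + h) ≤ h := by
  have hs0 : 0 < s := by linarith
  have hsh0 : 0 < s + h := by linarith
  rw [div_sub_div _ _ hs0.ne' hsh0.ne', div_le_iff₀ (by positivity)]
  have h1 : 1 ≤ s * (s + h) := by nlinarith
  have h2 := mul_le_mul_of_nonneg_left h1 hh.le
  linarith

/-- Bound for the rescaled minimum degree from an upper bound at a slightly lower level. -/
theorem B_bound (hL : LLNStmt) {s x ζ μ h : ℝ} (hs : 1 ≤ s) (hh : 0 < h) (hζ : 0 < ζ)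
    (hμ : 0 < μ) (hhμ : h < μ / 16) (hQ : Qh (ζ / (4 * √h)) < μ / 16)
    (hU : UB s x (1 / s - μ / 2)) :
    WHP fun n S R ω => ∀ t ≤ n, s * rr S R t ω ≤ n → (n : ℝ) ≤ (s + h) * rr S R t ω →
      Bt S R t ω ≤ x + ζ := by
  obtain ⟨ρ0, hρ0, wU⟩ := hU (μ / 32) (by positivity)
  set ρ := min ρ0 h with hρ
  have hρp : 0 < ρ := by rw [hρ]; positivity
  have hρ1 : ρ ≤ ρ0 := min_le_left _ _
  have hρ2 : ρ ≤ h := min_le_right _ _
  set s2 := max 1 (s - ρ / 2) with hs2
  have hs21 : 1 ≤ s2 := le_max_left _ _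
  have hs22 : s2 ≤ s := max_le hs (by linarith)
  have hs23 : s - ρ / 2 ≤ s2 := le_max_right _ _
  have hs24 : s2 < s ∨ s2 = 1 := by
    rcases le_total (s - ρ / 2) 1 with h1 | h1
    · right; exact max_eq_left h1
    · left
      rw [hs2, max_eq_right h1]
      linarith
  set T := s + 2 * h with hT
  set a := x + ζ / 2 with ha
  set C := ζ / (4 * √h) with hC
  have hsh : 0 < √h := Real.sqrt_pos.2 hh
  have hC0 : 0 < C := by positivity
  have hCs : ∀ d, d ≤ 3 * h → C * √d ≤ ζ / 2 := by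
    intro d hd
    have h1 : √d ≤ 2 * √h := by
      rw [Real.sqrt_le_left (by positivity), mul_pow, Real.sq_sqrt hh.le]
      linarith
    have h2 := mul_le_mul_of_nonneg_left h1 hC0.le
    have h3 : C * (2 * √h) = ζ / 2 := by rw [hC]; field_simp; norm_num
    linarith
  have wL := lln_U hL (a := a) (T := T) (Θ := s + h) (by linarith) (by rw [hT]; linarith)
    (show 0 < μ / 32 by positivity)
  refine whp_mono (whp_and wU wL) ?_
  filter_upwards [theta_tau s2 (ρ / 2) hs21 (by positivity), tau_le_stage s2 s hs21 hs24 hs,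
    eventually_gt_atTop 0] with n hn1 hn2 hn3 S R ω hS hh' t ht h1 h2
  obtain ⟨hhU, hhL⟩ := hh'
  have hn0 : (0:ℝ) < n := by exact_mod_cast hn3
  by_contra hcon
  have hcon := not_le.1 hcon
  -- positivity of `rr`
  have hr : 0 < rr S R t ω := by
    rcases (rr_nonneg t ω : 0 ≤ rr S R t ω).eq_or_lt with h0 | h0
    · rw [← h0, mul_zero] at h2; linarith
    · exact h0
  set θ := (n : ℝ) / rr S R t ω with hθ
  have hθ1 : s ≤ θ := by rw [hθ, le_div_iff₀ hr]; exact h1
  have hθ2 : θ ≤ s + h := by rw [hθ, div_le_iff₀ hr]; exact h2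
  have hτ := hn2 S R ω hS t ht hθ1
  have hLL := hhL (tau n s2) t hτ ht h2
  -- the start
  have h3 := hn1 S R ω hS
  set θ' := (n : ℝ) / rr S R (tau n s2) ω with hθ'
  have h4 := abs_le.1 h3
  have h5 : |θ' - s| ≤ ρ := by rw [abs_le]; constructor <;> linarith [h4.1, h4.2]
  have h6 := hhU (tau n s2) (tau_le_n n s2) (h5.trans hρ1)
  have h7 := abs_le.1 h5
  have h8 : nuU S R a T (tau n s2) ω ≤ cnt S R (tau n s2) ω x + Qh C * n := by
    have h9 : ∀ v ∈ Ns S R (tau n s2) ω, Ph ((Mv S R (tau n s2) ω v - a) / √(T - θ')) ≤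
        (if x ≤ Mv S R (tau n s2) ω v then (1:ℝ) else 0) + Qh C := by
      intro v _
      split_ifs with hv
      · linarith [Ph_le_one ((Mv S R (tau n s2) ω v - a) / √(T - θ')), Qh_nonneg C]
      · rw [zero_add, ← Ph_neg]
        apply Ph_mono
        have hd0 : 0 < T - θ' := by rw [hT]; linarith [h7.2]
        have hd1 : T - θ' ≤ 3 * h := by rw [hT]; linarith [h7.1]
        rw [div_le_iff₀ (Real.sqrt_pos.2 hd0)]
        have := hCs _ hd1
        have := not_le.1 hv
        linarith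
    unfold nuU
    refine (Finset.sum_le_sum h9).trans ?_
    rw [Finset.sum_add_distrib, Finset.sum_const, nsmul_eq_mul, ← cnt_eq_sum]
    have h11 : ((Ns S R (tau n s2) ω).card : ℝ) ≤ n := rr_le_n _ ω
    have h12 := mul_le_mul_of_nonneg_right h11 (Qh_nonneg C)
    linarith
  -- the end
  have h9 : rr S R t ω * Ph C ≤ nuU S R a T t ω := by
    unfold nuU rr
    rw [← nsmul_eq_mul, ← Finset.sum_const]
    apply Finset.sum_le_sum
    intro v hv
    apply Ph_mono
    have hB := Bt_le_Mv hv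
    have hd0 : 0 < T - θ := by rw [hT]; linarith
    have hd1 : T - θ ≤ 3 * h := by rw [hT]; linarith
    change C ≤ (Mv S R t ω v - a) / √(T - θ)
    rw [le_div_iff₀ (Real.sqrt_pos.2 hd0)]
    have := hCs _ hd1
    linarith
  have h10 : (1 / (s + h)) * n ≤ rr S R t ω := by
    rw [div_mul_eq_mul_div, div_le_iff₀ (by linarith)]
    linarith
  have hPQ := Ph_add_Qh C
  have hPn := Ph_nonneg C
  have hQn := Qh_nonneg C
  have h11 : (1 / (s + h)) * n * Ph C ≤ rr S R t ω * Ph C :=
    mul_le_mul_of_nonneg_right h10 hPn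
  have h12 : (1 / (s + h) - Qh C) * n ≤ (1 / (s + h)) * n * Ph C := by
    have e1 : Ph C = 1 - Qh C := by linarith
    rw [e1]
    have h13 : 1 / (s + h) ≤ 1 := by
      rw [div_le_one (by linarith)]; linarith
    have h14 : 0 ≤ Qh C * n := by positivity
    have h15 : 1 / (s + h) * (Qh C * n) ≤ 1 * (Qh C * n) := mul_le_mul_of_nonneg_right h13 h14
    linarith
  have h13 : (1 / (s + h) - Qh C) * n ≤
      (1 / s - μ / 2 + μ / 32 + Qh C + μ / 32) * n := by
    calc (1 / (s + h) - Qh C) * n ≤ nuU S R a T t ω := (h12.trans h11).trans h9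
      _ ≤ nuU S R a T (tau n s2) ω + μ / 32 * n := hLL
      _ ≤ (cnt S R (tau n s2) ω x + Qh C * n) + μ / 32 * n := add_le_add h8 le_rfl
      _ ≤ ((1 / s - μ / 2 + μ / 32) * n + Qh C * n) + μ / 32 * n :=
          add_le_add (add_le_add h6 le_rfl) le_rfl
      _ = _ := by ring
  have h14 : 1 / (s + h) - Qh C ≤ 1 / s - μ / 2 + μ / 32 + Qh C + μ / 32 :=
    le_of_mul_le_mul_right h13 hn0
  have h15 : 1 / s - 1 / (s + h) ≤ h := inv_diff hs hh
  clear h13 h12 h11 h10 h9 h8 h7 h6 h5 h4 h3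
  linarith only [h14, h15, hQ, hhμ, hμ]

end PA1M

open PA1M Filter in
/-- MODULE PA1. -/
theorem pa1 (hL : LLNStmt) (hI : INITStmt) {α β κ t0 : ℝ} {F : ℝ → ℝ → ℝ} {b : ℝ → ℝ}
    (hc : CertData α β κ t0 F b) : PA1Stmt t0 F b := by
  intro Θ hΘ μ hμ
  obtain ⟨M, hM⟩ := hc.lip
  have hMM : 0 ≤ M := by
    have := (abs_nonneg _).trans (hM 1 le_rfl 1 0)
    simpa using this
  set ζ := min (μ / 2) (μ / (2 * (M + 1))) with hζ
  have hζ0 : 0 < ζ := by rw [hζ]; positivity
  have hζ1 : ζ ≤ μ / 2 := min_le_left _ _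
  have hζ2 : M * ζ ≤ μ / 2 := by
    have h1 : ζ ≤ μ / (2 * (M + 1)) := min_le_right _ _
    rw [le_div_iff₀ (by positivity)] at h1
    nlinarith
  obtain ⟨C0, hC00, hC0⟩ := exists_Qh_le (μ / 32) (by positivity)
  set h := min (μ / 32) ((ζ / (4 * C0)) ^ 2) with hh
  have hh0 : 0 < h := by rw [hh]; positivity
  have hh1 : h ≤ μ / 32 := min_le_left _ _
  have hh2 : h ≤ (ζ / (4 * C0)) ^ 2 := min_le_right _ _
  have hh3 : √h ≤ ζ / (4 * C0) := by
    rw [Real.sqrt_le_left (by positivity)]
    exact hh2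
  have hsh : 0 < √h := Real.sqrt_pos.2 hh0
  have hQ : Qh (ζ / (4 * √h)) < μ / 16 := by
    have h1 : C0 ≤ ζ / (4 * √h) := by
      rw [le_div_iff₀ (by positivity)]
      rw [le_div_iff₀ (by positivity)] at hh3
      linarith
    have := Qh_anti h1
    linarith
  refine ⟨h, hh0, fun s hs x hx => ?_⟩
  have hU : UB s (x - ζ) (1 / s - μ / 2) := by
    rcases hx with ⟨h1, h2⟩ | ⟨h1, h2, h3⟩
    · refine (UB_Qh hL hI hs.1 (x - ζ)).mono le_rfl ?_
      have h3 := Qh_lip ((x - ζ) / √s) (x / √s)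
      have hs1 : 1 ≤ √s := by
        rw [Real.one_le_sqrt]; exact hs.1
      have e : (x - ζ) / √s - x / √s = - (ζ / √s) := by ring
      rw [e, abs_neg, abs_of_pos (div_pos hζ0 (by linarith : 0 < √s))] at h3
      have h4 : ζ / √s ≤ ζ := div_le_self hζ0.le hs1
      have h5 := (abs_le.1 h3).2
      linarith
    · obtain ⟨μ1, hμ1, hm, _⟩ := hc.margins (max Θ t0) (le_max_right _ _)
      have h4 := hm s ⟨h1, hs.2.trans (le_max_left _ _)⟩
      have h5 := hM s hs.1 (b s) x
      have h6 : b s ≤ x - ζ := by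
        by_contra hcon
        have hcon := not_le.1 hcon
        have h7 : |b s - x| ≤ ζ := by rw [abs_le]; constructor <;> linarith
        have h8 := mul_le_mul_of_nonneg_left h7 hMM
        have h9 := (abs_le.1 h5).2
        linarith
      refine (UBF_all hL hI hc s h1 (x - ζ) h6).mono le_rfl ?_
      have h7 := hM s hs.1 (x - ζ) x
      have e : x - ζ - x = - ζ := by ring
      rw [e, abs_neg, abs_of_pos hζ0] at h7
      have h8 := (abs_le.1 h7).2
      linarith
  have := B_bound hL (ζ := ζ) hs.1 hh0 hζ0 hμ (by linarith) hQ hU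
  simpa using this

end Pool.Agent.H40.Peel
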