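import Pool.Agent.H40.Peel.Ana

/-!
# Explicit test functions are nice
-/

namespace Pool.Agent.H40.Peel

open MeasureTheory Set

namespace NiceF

/-! ### Mean value and Taylor estimates -/

theorem mv (φ φ' : ℝ → ℝ) (a b K : ℝ) (h : ∀ x ∈ uIcc a b, HasDerivAt φ (φ' x) x)
    (hK : ∀ x ∈ uIcc a b, |φ' x| ≤ K) : |φ b - φ a| ≤ K * |b - a| := by
  have := Convex.norm_image_sub_le_of_norm_hasDerivWithin_le (s := uIcc a b)
    (fun x hx => (h x hx).hasDerivWithinAt) (fun x hx => hK x hx) (convex_uIcc a b)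
    left_mem_uIcc right_mem_uIcc
  simpa only [Real.norm_eq_abs] using this

theorem taylor2 (φ φ1 φ2 : ℝ → ℝ) (a b K : ℝ) (hK0 : 0 ≤ K)
    (h : ∀ x ∈ uIcc a b, HasDerivAt φ (φ1 x) x)
    (h1 : ∀ x ∈ uIcc a b, HasDerivAt φ1 (φ2 x) x)
    (hK : ∀ x ∈ uIcc a b, |φ2 x| ≤ K) : |φ b - φ a - φ1 a * (b - a)| ≤ K * (b - a) ^ 2 := by
  have h2 := mv (fun x => φ x - φ1 a * x) (fun x => φ1 x - φ1 a) a b (K * |b - a|)
    (fun x hx => by
      have := (h x hx).fun_sub ((hasDerivAt_id' x).const_mul (φ1 a))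
      simpa using this)
    (fun x hx => by
      have hsub : uIcc a x ⊆ uIcc a b := uIcc_subset_uIcc_left hx
      refine (mv φ1 φ2 a x K (fun y hy => h1 y (hsub hy)) (fun y hy => hK y (hsub hy))).trans ?_
      have : |x - a| ≤ |b - a| := by
        rw [abs_sub_comm x a, abs_sub_comm b a]
        rw [mem_uIcc] at hx
        rcases hx with ⟨p, q⟩ | ⟨p, q⟩
        · rw [abs_of_nonpos (by linarith), abs_of_nonpos (by linarith)]; linarith
        · rw [abs_of_nonneg (by linarith), abs_of_nonneg (by linarith)]; linarith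
      gcongr)
  have e : φ b - φ a - φ1 a * (b - a) = (φ b - φ1 a * b) - (φ a - φ1 a * a) := by ring
  rw [e]
  refine h2.trans (le_of_eq ?_)
  rw [mul_assoc, ← abs_mul, abs_of_nonneg (mul_self_nonneg _)]; ring

theorem taylor3 (φ φ1 φ2 φ3 : ℝ → ℝ) (a b K : ℝ) (hK0 : 0 ≤ K)
    (h : ∀ x ∈ uIcc a b, HasDerivAt φ (φ1 x) x)
    (h1 : ∀ x ∈ uIcc a b, HasDerivAt φ1 (φ2 x) x)
    (h2 : ∀ x ∈ uIcc a b, HasDerivAt φ2 (φ3 x) x)
    (hK : ∀ x ∈ uIcc a b, |φ3 x| ≤ K) :
    |φ b - φ a - φ1 a * (b - a) - φ2 a / 2 * (b - a) ^ 2| ≤ K * |b - a| ^ 3 := by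
  have h3 := mv (fun x => φ x - φ1 a * x - φ2 a / 2 * (x - a) ^ 2)
    (fun x => φ1 x - φ1 a - φ2 a * (x - a)) a b (K * |b - a| ^ 2)
    (fun x hx => by
      have e1 : HasDerivAt (fun x : ℝ => φ2 a / 2 * (x - a) ^ 2) (φ2 a * (x - a)) x := by
        have := (((hasDerivAt_id x).sub_const a).pow 2).const_mul (φ2 a / 2)
        refine this.congr_deriv ?_
        simp; ring
      have := ((h x hx).fun_sub ((hasDerivAt_id' x).const_mul (φ1 a))).fun_sub e1
      simpa using this)
    (fun x hx => by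
      have hsub : uIcc a x ⊆ uIcc a b := uIcc_subset_uIcc_left hx
      refine (taylor2 φ1 φ2 φ3 a x K hK0 (fun y hy => h1 y (hsub hy))
        (fun y hy => h2 y (hsub hy)) (fun y hy => hK y (hsub hy))).trans ?_
      have : |x - a| ≤ |b - a| := by
        rw [abs_sub_comm x a, abs_sub_comm b a]
        rw [mem_uIcc] at hx
        rcases hx with ⟨p, q⟩ | ⟨p, q⟩
        · rw [abs_of_nonpos (by linarith), abs_of_nonpos (by linarith)]; linarith
        · rw [abs_of_nonneg (by linarith), abs_of_nonneg (by linarith)]; linarith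
      rw [← sq_abs (x - a)]
      gcongr)
  have e : φ b - φ a - φ1 a * (b - a) - φ2 a / 2 * (b - a) ^ 2
      = (φ b - φ1 a * b - φ2 a / 2 * (b - a) ^ 2)
        - (φ a - φ1 a * a - φ2 a / 2 * (a - a) ^ 2) := by ring
  rw [e]
  refine h3.trans (le_of_eq ?_)
  ring

/-! ### The general lemma -/

/-- the self-similar variable -/
noncomputable def ww (a T s y : ℝ) : ℝ := (y - a) / √(T - s)

theorem ww_ds (a T s y : ℝ) (h : s < T) :
    HasDerivAt (fun s => ww a T s y) (ww a T s y / (2 * (T - s))) s := by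
  have h0 : 0 < T - s := by linarith
  have h1 : HasDerivAt (fun s => T - s) (-1) s := by
    simpa using (hasDerivAt_id s).const_sub T
  have h2 := h1.sqrt h0.ne'
  have h3 : √(T - s) ≠ 0 := (Real.sqrt_pos.2 h0).ne'
  have h4 := (h2.inv h3).const_mul (y - a)
  refine h4.congr_deriv ?_
  unfold ww
  rw [Real.sq_sqrt h0.le]
  field_simp

theorem ww_dy (a T s y : ℝ) : HasDerivAt (fun y => ww a T s y) (1 / √(T - s)) y := by
  have := ((hasDerivAt_id y).sub_const a).div_const (√(T - s))
  simpa [ww] using this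

theorem nice_of (g g1 g2 g3 : ℝ → ℝ) (hg : ∀ w, HasDerivAt g (g1 w) w)
    (hg1 : ∀ w, HasDerivAt g1 (g2 w) w) (hg2 : ∀ w, HasDerivAt g2 (g3 w) w) (B : ℝ)
    (b0 : ∀ w, |g w| ≤ B) (b1 : ∀ w, |g1 w| ≤ B) (b2 : ∀ w, |g2 w| ≤ B) (b3 : ∀ w, |g3 w| ≤ B)
    (b4 : ∀ w, |w * g1 w| ≤ B) (b5 : ∀ w, |w * g2 w| ≤ B) (b6 : ∀ w, |w ^ 2 * g2 w| ≤ B)
    (hsub : ∀ w, 0 ≤ w * g1 w + g2 w) (a T Θ : ℝ) (hT : Θ < T) :
    ∃ C, Nice (fun s y => g ((y - a) / √(T - s))) Θ C := by
  have hB : 0 ≤ B := (abs_nonneg _).trans (b0 0)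
  set t0 : ℝ := T - Θ with ht0
  have ht0p : 0 < t0 := by linarith
  set r0 : ℝ := √t0 with hr0
  have hr0p : 0 < r0 := Real.sqrt_pos.2 ht0p
  set C : ℝ := B + B / r0 + B / t0 + B / t0 ^ 2 + B / (t0 * r0) with hC
  have c1 : 0 ≤ B / r0 := by positivity
  have c2 : 0 ≤ B / t0 := by positivity
  have c3 : 0 ≤ B / t0 ^ 2 := by positivity
  have c4 : 0 ≤ B / (t0 * r0) := by positivity
  have hr : ∀ s, s ≤ Θ → r0 ≤ √(T - s) := fun s hs => Real.sqrt_le_sqrt (by linarith)
  have htt : ∀ s, s ≤ Θ → t0 ≤ T - s := fun s hs => by linarith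
  refine ⟨C, fun s y => g1 (ww a T s y) / √(T - s), fun s y => g2 (ww a T s y) / (T - s),
    fun s y => ww a T s y * g1 (ww a T s y) / (2 * (T - s)), ?_, ?_⟩
  · intro s y hs hsΘ
    have hr1 := hr s hsΘ
    have ht1 := htt s hsΘ
    have hp : 0 < T - s := by linarith
    have hrp : 0 < √(T - s) := by linarith
    refine ⟨?_, ?_, ?_, ?_, ?_⟩
    · exact (b0 _).trans (by linarith)
    · simp only
      rw [abs_div, abs_of_pos hrp]
      calc _ ≤ B / r0 := by gcongr; exact b1 _
        _ ≤ C := by linarith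
    · simp only
      rw [abs_div, abs_of_pos hp]
      calc _ ≤ B / t0 := by gcongr; exact b2 _
        _ ≤ C := by linarith
    · simp only
      rw [abs_div, abs_of_pos (by linarith : 0 < 2 * (T - s))]
      calc _ ≤ B / t0 := by
            gcongr
            · exact b4 _
            · linarith
        _ ≤ C := by linarith
    · simp only
      have := hsub (ww a T s y)
      have e : ww a T s y * g1 (ww a T s y) / (2 * (T - s)) + g2 (ww a T s y) / (T - s) / 2
          = (ww a T s y * g1 (ww a T s y) + g2 (ww a T s y)) / (2 * (T - s)) := by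
        field_simp
      rw [e]
      positivity
  · intro s s' y δ hs hsΘ hs' hsΘ' _ _
    have hp : 0 < T - s := by linarith
    -- derivatives in `s`
    have dp : ∀ w, HasDerivAt (fun w => w * g1 w) (g1 w + w * g2 w) w := by
      intro w
      have := (hasDerivAt_id' w).fun_mul (hg1 w)
      simpa using this
    have ds1 : ∀ z x, x < T → HasDerivAt (fun s => g (ww a T s z))
        (ww a T x z * g1 (ww a T x z) / (2 * (T - x))) x := by
      intro z x hx
      have := (hg (ww a T x z)).comp x (ww_ds a T x z hx)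
      refine this.congr_deriv ?_
      ring
    have ds2 : ∀ z x, x < T → HasDerivAt
        (fun s => ww a T s z * g1 (ww a T s z) / (2 * (T - s)))
        ((ww a T x z * g1 (ww a T x z) + ww a T x z ^ 2 * g2 (ww a T x z)) / (4 * (T - x) ^ 2)
          + ww a T x z * g1 (ww a T x z) / (2 * (T - x) ^ 2)) x := by
      intro z x hx
      have hpx : T - x ≠ 0 := (sub_pos.2 hx).ne'
      have h1 := (dp (ww a T x z)).comp x (ww_ds a T x z hx)
      have h2 : HasDerivAt (fun s => 2 * (T - s)) (-2) x := by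
        have := ((hasDerivAt_id x).const_sub T).const_mul 2
        simpa using this
      have h3 := h1.div h2 (mul_ne_zero two_ne_zero hpx)
      refine h3.congr_deriv ?_
      simp only [Function.comp]
      field_simp
      ring
    -- derivatives in `y`
    have hrs : √(T - s) ≠ 0 := (Real.sqrt_pos.2 hp).ne'
    have dy1 : ∀ z, HasDerivAt (fun y => g (ww a T s y)) (g1 (ww a T s z) / √(T - s)) z := by
      intro z
      have := (hg (ww a T s z)).comp z (ww_dy a T s z)
      refine this.congr_deriv ?_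
      ring
    have dy2 : ∀ z, HasDerivAt (fun y => g1 (ww a T s y) / √(T - s))
        (g2 (ww a T s z) / (T - s)) z := by
      intro z
      have := ((hg1 (ww a T s z)).comp z (ww_dy a T s z)).div_const (√(T - s))
      refine this.congr_deriv ?_
      have : √(T - s) * √(T - s) = T - s := Real.mul_self_sqrt hp.le
      rw [mul_one_div, div_div, this]
    have dy3 : ∀ z, HasDerivAt (fun y => g2 (ww a T s y) / (T - s))
        (g3 (ww a T s z) / ((T - s) * √(T - s))) z := by
      intro z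
      have := ((hg2 (ww a T s z)).comp z (ww_dy a T s z)).div_const (T - s)
      refine this.congr_deriv ?_
      rw [mul_one_div, div_div, mul_comm]
    have dty : ∀ z, HasDerivAt (fun y => ww a T s y * g1 (ww a T s y) / (2 * (T - s)))
        ((g1 (ww a T s z) + ww a T s z * g2 (ww a T s z)) / (2 * ((T - s) * √(T - s)))) z := by
      intro z
      have := ((dp (ww a T s z)).comp z (ww_dy a T s z)).div_const (2 * (T - s))
      refine this.congr_deriv ?_
      field_simp
    have hlt : ∀ x ∈ uIcc s s', x ≤ Θ := by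
      intro x hx
      rw [mem_uIcc] at hx
      rcases hx with ⟨_, h⟩ | ⟨_, h⟩ <;> linarith
    -- the time increment
    have T1 := taylor2 (fun s => g (ww a T s (y + δ)))
      (fun s => ww a T s (y + δ) * g1 (ww a T s (y + δ)) / (2 * (T - s)))
      (fun x => (ww a T x (y + δ) * g1 (ww a T x (y + δ))
          + ww a T x (y + δ) ^ 2 * g2 (ww a T x (y + δ))) / (4 * (T - x) ^ 2)
          + ww a T x (y + δ) * g1 (ww a T x (y + δ)) / (2 * (T - x) ^ 2)) s s' (B / t0 ^ 2) c3
      (fun x hx => ds1 _ x (by linarith [hlt x hx]))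
      (fun x hx => ds2 _ x (by linarith [hlt x hx]))
      (fun x hx => by
        have h1 := htt x (hlt x hx)
        have hx0 : 0 < T - x := by linarith
        set w := ww a T x (y + δ)
        have e1 : |(w * g1 w + w ^ 2 * g2 w) / (4 * (T - x) ^ 2)| ≤ (2 * B) / (4 * t0 ^ 2) := by
          rw [abs_div, abs_of_pos (by positivity : 0 < 4 * (T - x) ^ 2)]
          gcongr
          exact (abs_add_le _ _).trans (by linarith [b4 w, b6 w])
        have e2 : |w * g1 w / (2 * (T - x) ^ 2)| ≤ B / (2 * t0 ^ 2) := by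
          rw [abs_div, abs_of_pos (by positivity : 0 < 2 * (T - x) ^ 2)]
          gcongr
          exact b4 w
        calc _ ≤ (2 * B) / (4 * t0 ^ 2) + B / (2 * t0 ^ 2) := (abs_add_le _ _).trans (by linarith)
          _ = B / t0 ^ 2 := by field_simp; ring)
    -- the mixed term
    have T2 := mv (fun y => ww a T s y * g1 (ww a T s y) / (2 * (T - s)))
      (fun z => (g1 (ww a T s z) + ww a T s z * g2 (ww a T s z)) / (2 * ((T - s) * √(T - s))))
      y (y + δ) (B / (t0 * r0)) (fun z _ => dty z)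
      (fun z _ => by
        have h1 := htt s hsΘ
        have h2 := hr s hsΘ
        have h3 : 0 < √(T - s) := Real.sqrt_pos.2 hp
        rw [abs_div, abs_of_pos (by positivity : 0 < 2 * ((T - s) * √(T - s)))]
        calc _ ≤ (2 * B) / (2 * (t0 * r0)) := by
              gcongr
              exact (abs_add_le _ _).trans (by linarith [b1 (ww a T s z), b5 (ww a T s z)])
          _ = _ := by field_simp)
    -- the space increment
    have T3 := taylor3 (fun y => g (ww a T s y)) (fun y => g1 (ww a T s y) / √(T - s))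
      (fun y => g2 (ww a T s y) / (T - s)) (fun z => g3 (ww a T s z) / ((T - s) * √(T - s)))
      y (y + δ) (B / (t0 * r0)) c4 (fun z _ => dy1 z) (fun z _ => dy2 z) (fun z _ => dy3 z)
      (fun z _ => by
        have h1 := htt s hsΘ
        have h2 := hr s hsΘ
        have h3 : 0 < √(T - s) := Real.sqrt_pos.2 hp
        rw [abs_div, abs_of_pos (by positivity : 0 < (T - s) * √(T - s))]
        gcongr
        exact b3 _)
    rw [add_sub_cancel_left] at T2 T3
    simp only at T1 T2 T3 ⊢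
    change |g (ww a T s' (y + δ)) - g (ww a T s y)
      - ww a T s y * g1 (ww a T s y) / (2 * (T - s)) * (s' - s)
      - g1 (ww a T s y) / √(T - s) * δ - g2 (ww a T s y) / (T - s) / 2 * δ ^ 2| ≤ _
    set X1 := g (ww a T s' (y + δ)) - g (ww a T s (y + δ))
      - ww a T s (y + δ) * g1 (ww a T s (y + δ)) / (2 * (T - s)) * (s' - s)
    set X2 := ww a T s (y + δ) * g1 (ww a T s (y + δ)) / (2 * (T - s))
      - ww a T s y * g1 (ww a T s y) / (2 * (T - s))
    set X3 := g (ww a T s (y + δ)) - g (ww a T s y) - g1 (ww a T s y) / √(T - s) * δ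
      - g2 (ww a T s y) / (T - s) / 2 * δ ^ 2
    have e : g (ww a T s' (y + δ)) - g (ww a T s y)
      - ww a T s y * g1 (ww a T s y) / (2 * (T - s)) * (s' - s)
      - g1 (ww a T s y) / √(T - s) * δ - g2 (ww a T s y) / (T - s) / 2 * δ ^ 2
      = X1 + X2 * (s' - s) + X3 := by
      simp only [X1, X2, X3]; ring
    rw [e]
    refine (abs_add_three _ _ _).trans ?_
    rw [abs_mul]
    have hd : 0 ≤ |δ| := abs_nonneg _
    have hh : 0 ≤ |s' - s| := abs_nonneg _
    calc |X1| + |X2| * |s' - s| + |X3|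
        ≤ B / t0 ^ 2 * (s' - s) ^ 2 + (B / (t0 * r0) * |δ|) * |s' - s|
          + B / (t0 * r0) * |δ| ^ 3 := by
          gcongr
      _ ≤ C * (s' - s) ^ 2 + C * (|δ| * |s' - s|) + C * |δ| ^ 3 := by
          have q1 : B / t0 ^ 2 ≤ C := by linarith
          have q2 : B / (t0 * r0) ≤ C := by linarith
          have := sq_nonneg (s' - s)
          have := mul_nonneg hd hh
          have := pow_nonneg hd 3
          nlinarith
      _ = _ := by ring

/-! ### The normal distribution function -/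

theorem ph_eq (x : ℝ) : ph x = Real.exp (-x ^ 2 / 2) / √(2 * Real.pi) := rfl

theorem ph_cont : Continuous ph := by
  unfold ph; fun_prop

theorem ph_pos (x : ℝ) : 0 < ph x := by
  unfold ph; positivity

theorem sqrt_two_pi : 1 ≤ √(2 * Real.pi) := by
  rw [Real.one_le_sqrt]
  linarith [Real.pi_gt_three]

theorem ph_integrable : Integrable ph := by
  have h := integrable_exp_neg_mul_sq (b := 1 / 2) (by norm_num)
  have h2 := h.div_const (√(2 * Real.pi))
  refine h2.congr (Filter.Eventually.of_forall fun x => ?_)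
  simp only [ph]
  congr 2
  ring

theorem ph_total : ∫ x, ph x = 1 := by
  have h := integral_gaussian (1 / 2)
  have e : (fun x => ph x) = fun x => Real.exp (-(1 / 2) * x ^ 2) / √(2 * Real.pi) := by
    ext x
    rw [ph_eq]
    congr 2
    ring
  rw [e, integral_div, h]
  have : Real.pi / (1 / 2) = 2 * Real.pi := by ring
  rw [this, div_self (by positivity)]

theorem Ph_nonneg (x : ℝ) : 0 ≤ Ph x := by
  unfold Ph
  exact integral_nonneg fun y => (ph_pos y).le

theorem Ph_le_one (x : ℝ) : Ph x ≤ 1 := by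
  unfold Ph
  rw [← ph_total]
  exact setIntegral_le_integral ph_integrable (Filter.Eventually.of_forall fun y => (ph_pos y).le)

theorem Ph_deriv (x : ℝ) : HasDerivAt Ph (ph x) x := by
  have h1 : ∀ y, Ph y = Ph 0 + ∫ z in (0 : ℝ)..y, ph z := by
    intro y
    have := intervalIntegral.integral_Iic_sub_Iic (a := 0) (b := y) (f := ph) (μ := volume)
      ph_integrable.integrableOn ph_integrable.integrableOn
    unfold Ph
    linarith
  have h2 : HasDerivAt (fun y => ∫ z in (0 : ℝ)..y, ph z) (ph x) x :=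
    intervalIntegral.integral_hasDerivAt_right (ph_cont.intervalIntegrable _ _)
      (ph_cont.stronglyMeasurableAtFilter _ _) ph_cont.continuousAt
  have h3 := h2.const_add (Ph 0)
  have e : Ph = fun y => Ph 0 + ∫ z in (0 : ℝ)..y, ph z := funext h1
  rw [e]
  exact h3

theorem ph_deriv (x : ℝ) : HasDerivAt ph (-x * ph x) x := by
  have h1 : HasDerivAt (fun x : ℝ => -x ^ 2 / 2) (-x) x := by
    have := (((hasDerivAt_id' x).fun_pow 2).fun_neg).div_const 2
    refine this.congr_deriv ?_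
    simp
    ring
  have h2 := h1.exp.div_const (√(2 * Real.pi))
  have e : ph = fun x => Real.exp (-x ^ 2 / 2) / √(2 * Real.pi) := rfl
  rw [e]
  refine h2.congr_deriv ?_
  ring

theorem ph_le_one (x : ℝ) : ph x ≤ 1 := by
  rw [ph_eq, div_le_one (by positivity)]
  refine le_trans ?_ sqrt_two_pi
  apply Real.exp_le_one_iff.2
  nlinarith [sq_nonneg x]

theorem pow_four_ph (x : ℝ) : x ^ 4 * ph x ≤ 8 := by
  have h1 : 1 + x ^ 2 / 2 + (x ^ 2 / 2) ^ 2 / 2 ≤ Real.exp (x ^ 2 / 2) :=
    Real.quadratic_le_exp_of_nonneg (by positivity)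
  have h2 : x ^ 4 ≤ 8 * Real.exp (x ^ 2 / 2) := by nlinarith [sq_nonneg x]
  have h3 : Real.exp (-x ^ 2 / 2) * Real.exp (x ^ 2 / 2) = 1 := by
    rw [← Real.exp_add]; ring_nf; exact Real.exp_zero
  have h4 : ph x ≤ Real.exp (-x ^ 2 / 2) := by
    rw [ph_eq]
    exact div_le_self (Real.exp_pos _).le sqrt_two_pi
  calc x ^ 4 * ph x ≤ (8 * Real.exp (x ^ 2 / 2)) * Real.exp (-x ^ 2 / 2) :=
        mul_le_mul h2 h4 (ph_pos x).le (by positivity)
    _ = 8 := by rw [mul_assoc, mul_comm (Real.exp (x ^ 2 / 2)), h3]; ring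

/-- `|x|^k ph(x) ≤ 8` for `k ≤ 4`. -/
theorem abs_pow_ph (x : ℝ) (k : ℕ) (hk : k ≤ 4) : |x ^ k * ph x| ≤ 8 := by
  rw [abs_mul, abs_of_pos (ph_pos x), abs_pow]
  rcases le_total |x| 1 with h | h
  · have h1 : |x| ^ k ≤ 1 := pow_le_one₀ (abs_nonneg _) h
    have h2 := ph_le_one x
    have h3 := ph_pos x
    nlinarith
  · have h1 : |x| ^ k ≤ |x| ^ 4 := pow_le_pow_right₀ h hk
    have h2 : |x| ^ 4 = x ^ 4 := by
      rw [← abs_pow]; exact abs_of_nonneg (by positivity)
    rw [h2] at h1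
    have h3 := ph_pos x
    calc |x| ^ k * ph x ≤ x ^ 4 * ph x := by gcongr
      _ ≤ 8 := pow_four_ph x

end NiceF

open NiceF

/-- The negative of the distribution function in the self-similar variable is nice. -/
theorem nice_Ph (a T Θ : ℝ) (hΘ : 0 ≤ Θ) (hT : Θ < T) :
    ∃ C, Nice (fun s y => - Ph ((y - a) / √(T - s))) Θ C := by
  have p0 := fun w => abs_pow_ph w 0 (by norm_num)
  have p1 := fun w => abs_pow_ph w 1 (by norm_num)
  have p2 := fun w => abs_pow_ph w 2 (by norm_num)
  have p3 := fun w => abs_pow_ph w 3 (by norm_num)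
  refine nice_of (fun w => - Ph w) (fun w => - ph w) (fun w => w * ph w)
    (fun w => (1 - w ^ 2) * ph w) (fun w => (Ph_deriv w).neg) ?_ ?_ 16 ?_ ?_ ?_ ?_ ?_ ?_ ?_ ?_
    a T Θ hT
  · intro w
    refine (ph_deriv w).neg.congr_deriv ?_
    ring
  · intro w
    have := (hasDerivAt_id' w).fun_mul (ph_deriv w)
    refine this.congr_deriv ?_
    ring
  · intro w
    rw [abs_neg, abs_of_nonneg (Ph_nonneg w)]
    linarith [Ph_le_one w]
  · intro w
    have := p0 w
    rw [pow_zero, one_mul] at this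
    rw [abs_neg]; linarith
  · intro w
    have := p1 w
    rw [pow_one] at this
    linarith
  · intro w
    have e : (1 - w ^ 2) * ph w = w ^ 0 * ph w - w ^ 2 * ph w := by ring
    simp only [e]
    refine (abs_sub _ _).trans ?_
    linarith [p0 w, p2 w]
  · intro w
    have := p1 w
    rw [pow_one] at this
    rw [mul_neg, abs_neg]; linarith
  · intro w
    have e : w * (w * ph w) = w ^ 2 * ph w := by ring
    simp only [e]
    linarith [p2 w]
  · intro w
    have e : w ^ 2 * (w * ph w) = w ^ 3 * ph w := by ring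
    simp only [e]
    linarith [p3 w]
  · intro w
    have e : w * -ph w + w * ph w = 0 := by ring
    simp only [e]
    exact le_refl 0

namespace NiceF

/-! ### A smooth truncation -/

theorem glue_deriv (f f' : ℝ → ℝ) (hf : ∀ u > 0, HasDerivAt f (f' u) u) (C : ℝ)
    (hC : ∀ u > 0, |f u| ≤ C * u ^ 2) (u : ℝ) :
    HasDerivAt (fun u => if 0 < u then f u else 0) (if 0 < u then f' u else 0) u := by
  rcases lt_trichotomy u 0 with h | rfl | h
  · rw [if_neg (not_lt.2 h.le)]
    refine (hasDerivAt_const u (0 : ℝ)).congr_of_eventuallyEq ?_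
    filter_upwards [gt_mem_nhds h] with v hv
    rw [if_neg (not_lt.2 hv.le)]
  · rw [if_neg (lt_irrefl _)]
    rw [hasDerivAt_iff_isLittleO]
    simp only [lt_irrefl, if_false, sub_zero, smul_zero]
    have hb : (fun u : ℝ => if 0 < u then f u else 0) =O[nhds 0] fun u => u ^ 2 := by
      apply Asymptotics.IsBigO.of_bound C
      refine Filter.Eventually.of_forall fun v => ?_
      have hC0 : 0 ≤ C := by
        have := (abs_nonneg _).trans (hC 1 one_pos)
        linarith
      split_ifs with hv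
      · rw [Real.norm_eq_abs, Real.norm_eq_abs, abs_of_nonneg (sq_nonneg v)]
        exact hC v hv
      · rw [norm_zero]; positivity
    exact hb.trans_isLittleO (Asymptotics.isLittleO_pow_id (by norm_num))
  · rw [if_pos h]
    refine (hf u h).congr_of_eventuallyEq ?_
    filter_upwards [lt_mem_nhds h] with v hv
    rw [if_pos hv]

/-- the truncation and its derivatives -/
noncomputable def ps (e u : ℝ) : ℝ := if 0 < u then u ^ 4 / (u + e) ^ 3 else 0
noncomputable def ps1 (e u : ℝ) : ℝ := if 0 < u then u ^ 3 * (u + 4 * e) / (u + e) ^ 4 else 0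
noncomputable def ps2 (e u : ℝ) : ℝ := if 0 < u then 12 * e ^ 2 * u ^ 2 / (u + e) ^ 5 else 0
noncomputable def ps3 (e u : ℝ) : ℝ :=
  if 0 < u then 12 * e ^ 2 * u * (2 * e - 3 * u) / (u + e) ^ 6 else 0

theorem ps_deriv (e : ℝ) (he : 0 < e) (u : ℝ) : HasDerivAt (ps e) (ps1 e u) u := by
  apply glue_deriv _ _ _ (1 / e)
  · intro u hu
    have h0 : 0 < u + e := by linarith
    rw [abs_of_nonneg (by positivity), div_le_iff₀ (by positivity)]
    have h1 : u ^ 2 * e ≤ (u + e) ^ 3 := by nlinarith [mul_pos hu he, sq_nonneg u, sq_nonneg e]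
    calc u ^ 4 = 1 / e * u ^ 2 * (u ^ 2 * e) := by field_simp
      _ ≤ 1 / e * u ^ 2 * (u + e) ^ 3 := by gcongr
  · intro u hu
    have h0 : u + e ≠ 0 := by linarith
    have h1 := ((hasDerivAt_id' u).fun_pow 4).fun_div
      (((hasDerivAt_id' u).add_const e).fun_pow 3) (pow_ne_zero 3 h0)
    refine h1.congr_deriv ?_
    field_simp
    ring

theorem ps1_deriv (e : ℝ) (he : 0 < e) (u : ℝ) : HasDerivAt (ps1 e) (ps2 e u) u := by
  apply glue_deriv _ _ _ (4 / e ^ 2)
  · intro u hu
    have h0 : 0 < u + e := by linarith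
    rw [abs_of_nonneg (by positivity), div_le_iff₀ (by positivity)]
    have h1 : u * (u + 4 * e) * e ^ 2 ≤ 4 * (u + e) ^ 4 := by
      have a1 : u * (u + 4 * e) ≤ 4 * (u + e) ^ 2 := by nlinarith [mul_pos hu he]
      have a2 : e ^ 2 ≤ (u + e) ^ 2 := by nlinarith [mul_pos hu he]
      calc u * (u + 4 * e) * e ^ 2 ≤ (4 * (u + e) ^ 2) * (u + e) ^ 2 := by gcongr
        _ = _ := by ring
    calc u ^ 3 * (u + 4 * e) = 1 / e ^ 2 * u ^ 2 * (u * (u + 4 * e) * e ^ 2) := by field_simp
      _ ≤ 1 / e ^ 2 * u ^ 2 * (4 * (u + e) ^ 4) := by gcongr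
      _ = _ := by ring
  · intro u hu
    have h0 : u + e ≠ 0 := by linarith
    have h1 := (((hasDerivAt_id' u).fun_pow 3).fun_mul ((hasDerivAt_id' u).add_const (4 * e))).fun_div
      (((hasDerivAt_id' u).add_const e).fun_pow 4) (pow_ne_zero 4 h0)
    refine h1.congr_deriv ?_
    field_simp
    ring

theorem ps2_deriv (e : ℝ) (he : 0 < e) (u : ℝ) : HasDerivAt (ps2 e) (ps3 e u) u := by
  apply glue_deriv _ _ _ (12 / e ^ 3)
  · intro u hu
    have h0 : 0 < u + e := by linarith
    rw [abs_of_nonneg (by positivity), div_le_iff₀ (by positivity)]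
    have h1 : e ^ 5 ≤ (u + e) ^ 5 := by
      gcongr
      linarith
    calc 12 * e ^ 2 * u ^ 2 = 12 / e ^ 3 * u ^ 2 * e ^ 5 := by field_simp
      _ ≤ 12 / e ^ 3 * u ^ 2 * (u + e) ^ 5 := by gcongr
  · intro u hu
    have h0 : u + e ≠ 0 := by linarith
    have h1 := (((hasDerivAt_id' u).fun_pow 2).const_mul (12 * e ^ 2)).fun_div
      (((hasDerivAt_id' u).add_const e).fun_pow 5) (pow_ne_zero 5 h0)
    refine h1.congr_deriv ?_
    field_simp
    ring

theorem ps1_bd (e : ℝ) (he : 0 < e) (u : ℝ) : |ps1 e u| ≤ 4 := by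
  unfold ps1
  split_ifs with hu
  · have h0 : 0 < u + e := by linarith
    rw [abs_of_nonneg (by positivity), div_le_iff₀ (by positivity)]
    have a1 : u ^ 3 ≤ (u + e) ^ 3 := by
      gcongr
      linarith
    have a2 : u + 4 * e ≤ 4 * (u + e) := by linarith
    calc u ^ 3 * (u + 4 * e) ≤ (u + e) ^ 3 * (4 * (u + e)) := by gcongr
      _ = _ := by ring
  · norm_num

theorem ps2_nonneg (e : ℝ) (he : 0 < e) (u : ℝ) : 0 ≤ ps2 e u := by
  unfold ps2
  split_ifs with hu
  · have h0 : 0 < u + e := by linarith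
    positivity
  · exact le_refl 0

theorem ps2_bd (e : ℝ) (he : 0 < e) (u : ℝ) : |ps2 e u| ≤ 12 / e := by
  rw [abs_of_nonneg (ps2_nonneg e he u)]
  unfold ps2
  split_ifs with hu
  · have h0 : 0 < u + e := by linarith
    rw [div_le_div_iff₀ (by positivity) he]
    have a1 : e ^ 3 * u ^ 2 ≤ (u + e) ^ 5 := by
      calc e ^ 3 * u ^ 2 ≤ (u + e) ^ 3 * (u + e) ^ 2 := by
            gcongr
            · linarith
            · linarith
        _ = _ := by ring
    nlinarith
  · positivity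

theorem ps3_bd (e : ℝ) (he : 0 < e) (u : ℝ) : |ps3 e u| ≤ 36 / e ^ 2 := by
  unfold ps3
  split_ifs with hu
  · have h0 : 0 < u + e := by linarith
    rw [abs_div, abs_of_pos (by positivity : 0 < (u + e) ^ 6), div_le_div_iff₀ (by positivity)
      (by positivity), abs_mul, abs_of_pos (by positivity : 0 < 12 * e ^ 2 * u)]
    have a1 : |2 * e - 3 * u| ≤ 3 * (u + e) := by
      rw [abs_le]; constructor <;> linarith
    calc 12 * e ^ 2 * u * |2 * e - 3 * u| * e ^ 2
        ≤ 12 * (u + e) ^ 2 * (u + e) * (3 * (u + e)) * (u + e) ^ 2 := by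
          gcongr
          · linarith
          · linarith
          · linarith
      _ = _ := by ring
  · rw [abs_zero]; positivity

theorem ps_nonneg (e : ℝ) (he : 0 < e) (u : ℝ) : 0 ≤ ps e u := by
  unfold ps
  split_ifs with hu
  · have h0 : 0 < u + e := by linarith
    positivity
  · exact le_refl 0

theorem ps_le (e : ℝ) (he : 0 < e) (u : ℝ) (h1 : u ≤ 1) : ps e u ≤ 1 := by
  unfold ps
  split_ifs with hu
  · have h0 : 0 < u + e := by linarith
    rw [div_le_one (by positivity)]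
    calc u ^ 4 = u ^ 3 * u := by ring
      _ ≤ (u + e) ^ 3 * 1 := by
          gcongr
          linarith
      _ = _ := by ring
  · norm_num

theorem le_ps (e : ℝ) (he : 0 < e) (u : ℝ) : u - 3 * e ≤ ps e u := by
  unfold ps
  split_ifs with hu
  · have h0 : 0 < u + e := by linarith
    rw [le_div_iff₀ (by positivity)]
    have h2 := mul_pos hu he
    have h3 := mul_pos hu (pow_pos he 3)
    nlinarith [sq_nonneg (u * e), pow_pos he 4]
  · linarith

end NiceF

/-- A nice function between `(1+q) Ph - q - ε` and the indicator of `(1+q) Ph > q`. -/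
theorem nice_g (q ε : ℝ) (hq : 0 < q) (hε : 0 < ε) :
    ∃ g : ℝ → ℝ, Continuous g ∧ (∀ w, 0 ≤ g w ∧ g w ≤ 1) ∧
      (∀ w, (1 + q) * Ph w - q ≤ 0 → g w = 0) ∧
      (∀ w, (1 + q) * Ph w - q - ε ≤ g w) ∧
      ∀ a T Θ, 0 ≤ Θ → Θ < T → ∃ C, Nice (fun s y => g ((y - a) / √(T - s))) Θ C := by
  set e : ℝ := ε / 3 with he
  have hep : 0 < e := by positivity
  set G : ℝ → ℝ := fun w => (1 + q) * Ph w - q with hG
  have dG : ∀ w, HasDerivAt G ((1 + q) * ph w) w := fun w =>
    ((Ph_deriv w).const_mul (1 + q)).sub_const q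
  have hG1 : ∀ w, G w ≤ 1 := by
    intro w
    have := Ph_le_one w
    simp only [hG]
    nlinarith
  have d0 : ∀ w, HasDerivAt (fun w => ps e (G w)) (ps1 e (G w) * ((1 + q) * ph w)) w :=
    fun w => (ps_deriv e hep (G w)).comp w (dG w)
  refine ⟨fun w => ps e (G w), ?_, fun w => ⟨ps_nonneg e hep _, ps_le e hep _ (hG1 w)⟩, ?_, ?_,
    ?_⟩
  · exact continuous_iff_continuousAt.2 fun w => (d0 w).continuousAt
  · intro w hw
    simp only [ps]
    rw [if_neg (not_lt.2 hw)]
  · intro w
    have := le_ps e hep (G w)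
    simp only [hG] at this ⊢
    linarith
  · intro a T Θ _ hT
    have p0 := fun w => abs_pow_ph w 0 (by norm_num)
    have p1 := fun w => abs_pow_ph w 1 (by norm_num)
    have p2 := fun w => abs_pow_ph w 2 (by norm_num)
    have p3 := fun w => abs_pow_ph w 3 (by norm_num)
    set c : ℝ := 1 + q with hc
    have hc1 : 1 ≤ c := by linarith
    have d1 : ∀ w, HasDerivAt (fun w => ps1 e (G w) * (c * ph w))
        (ps2 e (G w) * c ^ 2 * ph w ^ 2 - ps1 e (G w) * c * (w * ph w)) w := by
      intro w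
      have h1 : HasDerivAt (fun w => ps1 e (G w)) (ps2 e (G w) * (c * ph w)) w :=
        (ps1_deriv e hep (G w)).comp w (dG w)
      refine (h1.fun_mul ((ph_deriv w).const_mul c)).congr_deriv ?_
      ring
    have d2 : ∀ w, HasDerivAt
        (fun w => ps2 e (G w) * c ^ 2 * ph w ^ 2 - ps1 e (G w) * c * (w * ph w))
        (ps3 e (G w) * c ^ 3 * ph w ^ 3 - 3 * ps2 e (G w) * c ^ 2 * (w * ph w) * ph w
          - ps1 e (G w) * c * (ph w - w ^ 2 * ph w)) w := by
      intro w
      have h1 : HasDerivAt (fun w => ps1 e (G w)) (ps2 e (G w) * (c * ph w)) w :=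
        (ps1_deriv e hep (G w)).comp w (dG w)
      have h2 : HasDerivAt (fun w => ps2 e (G w)) (ps3 e (G w) * (c * ph w)) w :=
        (ps2_deriv e hep (G w)).comp w (dG w)
      have h3 := ((h2.mul_const (c ^ 2)).fun_mul ((ph_deriv w).fun_pow 2)).fun_sub
        ((h1.mul_const c).fun_mul ((hasDerivAt_id' w).fun_mul (ph_deriv w)))
      refine h3.congr_deriv ?_
      push_cast
      ring
    have q0 : ∀ w, 0 ≤ ph w := fun w => (ph_pos w).le
    have q1 : ∀ w, ph w ≤ 1 := ph_le_one
    -- the bounds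
    set K : ℝ := 36 / e ^ 2 + 12 / e + 4 with hK
    have k1 : ∀ w, |ps1 e (G w)| ≤ K := fun w => (ps1_bd e hep _).trans (by
      have : 0 ≤ 36 / e ^ 2 := by positivity
      have : 0 ≤ 12 / e := by positivity
      linarith)
    have k2 : ∀ w, |ps2 e (G w)| ≤ K := fun w => (ps2_bd e hep _).trans (by
      have : 0 ≤ 36 / e ^ 2 := by positivity
      linarith)
    have k3 : ∀ w, |ps3 e (G w)| ≤ K := fun w => (ps3_bd e hep _).trans (by
      have : 0 ≤ 12 / e := by positivity
      linarith)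
    have hK1 : 1 ≤ K := by
      have : 0 ≤ 36 / e ^ 2 := by positivity
      have : 0 ≤ 12 / e := by positivity
      linarith
    have hK0 : 0 ≤ K := by linarith
    have hcc : c ≤ c ^ 3 := le_self_pow₀ hc1 (by norm_num)
    have hcc2 : c ^ 2 ≤ c ^ 3 := pow_le_pow_right₀ hc1 (by norm_num)
    have hc0 : 0 ≤ c := by linarith
    have hc3 : 1 ≤ c ^ 3 := one_le_pow₀ hc1
    -- general product bound
    have pb : ∀ (x y z m : ℝ), |x| ≤ K → 0 ≤ y → y ≤ c ^ 3 → |z| ≤ m → 0 ≤ m →
        |x * y * z| ≤ K * c ^ 3 * m := by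
      intro x y z m hx hy hy' hz hm
      rw [abs_mul, abs_mul, abs_of_nonneg hy]
      gcongr
    have q2 : ∀ w, |ph w| ≤ 1 := fun w => by rw [abs_of_nonneg (q0 w)]; exact q1 w
    have m1 : ∀ x y m : ℝ, |x| ≤ m → |y| ≤ 1 → |x * y| ≤ m := by
      intro x y m hx hy
      rw [abs_mul]
      have := abs_nonneg x
      nlinarith
    refine nice_of _ _ _ _ d0 d1 d2 (64 * (K * c ^ 3)) ?_ ?_ ?_ ?_ ?_ ?_ ?_ ?_ a T Θ hT
    · intro w
      rw [abs_of_nonneg (ps_nonneg e hep _)]
      have := ps_le e hep _ (hG1 w)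
      nlinarith [mul_nonneg hK0 (by linarith : 0 ≤ c ^ 3 - 1)]
    · intro w
      have h := pb (ps1 e (G w)) c (ph w) 1 (k1 w) hc0 hcc (q2 w) zero_le_one
      have e1 : ps1 e (G w) * (c * ph w) = ps1 e (G w) * c * ph w := by ring
      simp only [e1]
      nlinarith [mul_nonneg hK0 (by linarith : 0 ≤ c ^ 3)]
    · intro w
      have h1 := pb (ps2 e (G w)) (c ^ 2) (ph w ^ 2) 1 (k2 w) (by positivity) hcc2
        (by rw [pow_two]; exact m1 _ _ _ (q2 w) (q2 w)) zero_le_one
      have h2 := pb (ps1 e (G w)) c (w * ph w) 8 (k1 w) hc0 hcc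
        (by have := p1 w; rwa [pow_one] at this) (by norm_num)
      refine (abs_sub _ _).trans ?_
      nlinarith [mul_nonneg hK0 (by linarith : 0 ≤ c ^ 3)]
    · intro w
      have h1 := pb (ps3 e (G w)) (c ^ 3) (ph w ^ 3) 1 (k3 w) (by positivity) le_rfl
        (by rw [pow_succ, pow_two]; exact m1 _ _ _ (m1 _ _ _ (q2 w) (q2 w)) (q2 w)) zero_le_one
      have h2 := pb (ps2 e (G w)) (c ^ 2) (w * ph w * ph w) 8 (k2 w) (by positivity) hcc2
        (m1 _ _ _ (by have := p1 w; rwa [pow_one] at this) (q2 w)) (by norm_num)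
      have h3 := pb (ps1 e (G w)) c (ph w - w ^ 2 * ph w) 9 (k1 w) hc0 hcc
        ((abs_sub _ _).trans (by linarith [q2 w, p2 w])) (by norm_num)
      have e1 : ps3 e (G w) * c ^ 3 * ph w ^ 3 - 3 * ps2 e (G w) * c ^ 2 * (w * ph w) * ph w
          - ps1 e (G w) * c * (ph w - w ^ 2 * ph w)
          = ps3 e (G w) * c ^ 3 * ph w ^ 3 - 3 * (ps2 e (G w) * c ^ 2 * (w * ph w * ph w))
          - ps1 e (G w) * c * (ph w - w ^ 2 * ph w) := by ring
      simp only [e1]
      refine (abs_sub _ _).trans ?_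
      refine (add_le_add (abs_sub _ _) le_rfl).trans ?_
      rw [abs_mul 3, abs_of_pos (by norm_num : (0 : ℝ) < 3)]
      nlinarith [mul_nonneg hK0 (by linarith : 0 ≤ c ^ 3)]
    · intro w
      have h := pb (ps1 e (G w)) c (w * ph w) 8 (k1 w) hc0 hcc
        (by have := p1 w; rwa [pow_one] at this) (by norm_num)
      have e1 : w * (ps1 e (G w) * (c * ph w)) = ps1 e (G w) * c * (w * ph w) := by ring
      simp only [e1]
      nlinarith [mul_nonneg hK0 (by linarith : 0 ≤ c ^ 3)]
    · intro w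
      have h1 := pb (ps2 e (G w)) (c ^ 2) (w * ph w * ph w) 8 (k2 w) (by positivity) hcc2
        (m1 _ _ _ (by have := p1 w; rwa [pow_one] at this) (q2 w)) (by norm_num)
      have h2 := pb (ps1 e (G w)) c (w ^ 2 * ph w) 8 (k1 w) hc0 hcc (p2 w) (by norm_num)
      have e1 : w * (ps2 e (G w) * c ^ 2 * ph w ^ 2 - ps1 e (G w) * c * (w * ph w))
          = ps2 e (G w) * c ^ 2 * (w * ph w * ph w) - ps1 e (G w) * c * (w ^ 2 * ph w) := by ring
      simp only [e1]
      refine (abs_sub _ _).trans ?_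
      nlinarith [mul_nonneg hK0 (by linarith : 0 ≤ c ^ 3)]
    · intro w
      have h1 := pb (ps2 e (G w)) (c ^ 2) (w ^ 2 * ph w * ph w) 8 (k2 w) (by positivity) hcc2
        (m1 _ _ _ (p2 w) (q2 w)) (by norm_num)
      have h2 := pb (ps1 e (G w)) c (w ^ 3 * ph w) 8 (k1 w) hc0 hcc (p3 w) (by norm_num)
      have e1 : w ^ 2 * (ps2 e (G w) * c ^ 2 * ph w ^ 2 - ps1 e (G w) * c * (w * ph w))
          = ps2 e (G w) * c ^ 2 * (w ^ 2 * ph w * ph w) - ps1 e (G w) * c * (w ^ 3 * ph w) := by
        ring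
      simp only [e1]
      refine (abs_sub _ _).trans ?_
      nlinarith [mul_nonneg hK0 (by linarith : 0 ≤ c ^ 3)]
    · intro w
      have e1 : w * (ps1 e (G w) * (c * ph w))
          + (ps2 e (G w) * c ^ 2 * ph w ^ 2 - ps1 e (G w) * c * (w * ph w))
          = ps2 e (G w) * (c * ph w) ^ 2 := by ring
      simp only [e1]
      exact mul_nonneg (ps2_nonneg e hep _) (sq_nonneg _)

end Pool.Agent.H40.Peel
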