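import Pool.Agent.H40.Peel.LDefs
import Pool.Agent.H40.Peel.NiceFun
import Pool.Agent.H40.Peel.CertGauss

/-!
# Phase A: the planted vertices survive (module PA2)
-/

namespace Pool.Agent.H40.Peel

open Finset Filter

namespace PA2

/-! ### Events of high probability -/

lemma whp_mono {P Q : ∀ n : ℕ, Finset (Fin n) → TieRule n → Om n → Prop} (h : WHP P)
    (hPQ : ∀ᶠ n : ℕ in atTop, ∀ (S : Finset (Fin n)) (R : TieRule n), S.card = Nat.sqrt n →
      ∀ ω, P n S R ω → Q n S R ω) : WHP Q := by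
  intro η hη
  filter_upwards [h η hη, hPQ] with n h1 h2 S R hS
  refine (Pr_mono fun ω hω hP => hω (h2 S R hS ω hP)).trans (h1 S R hS)

lemma whp_and {P Q : ∀ n : ℕ, Finset (Fin n) → TieRule n → Om n → Prop} (hP : WHP P)
    (hQ : WHP Q) : WHP fun n S R ω => P n S R ω ∧ Q n S R ω := by
  intro η hη
  filter_upwards [hP (η / 2) (by positivity), hQ (η / 2) (by positivity)] with n h1 h2 S R hS
  have h3 := h1 S R hS
  have h4 := h2 S R hS
  refine (Pr_mono (t := fun ω => ¬ P n S R ω ∨ ¬ Q n S R ω) fun ω hω => ?_).trans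
    ((Pr_or_le _ _).trans (by linarith))
  exact not_and_or.1 hω

lemma whp_true : WHP fun _ _ _ _ => True := by
  intro η hη
  refine Eventually.of_forall fun n S R _ => ?_
  have h : Pr (n := n) (fun _ => ¬ True) = 0 := by
    unfold Pr
    simp [E_const]
  rw [h]
  exact hη.le

lemma whp_forall (N : ℕ) (P : ℕ → ∀ n : ℕ, Finset (Fin n) → TieRule n → Om n → Prop)
    (h : ∀ i < N, WHP (P i)) : WHP fun n S R ω => ∀ i < N, P i n S R ω := by
  induction N with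
  | zero => exact whp_mono whp_true (Eventually.of_forall fun n S R _ ω _ i hi => by omega)
  | succ N ih =>
    have h1 := whp_and (ih fun i hi => h i (by omega)) (h N (by omega))
    refine whp_mono h1 (Eventually.of_forall fun n S R _ ω hω i hi => ?_)
    rcases Nat.lt_succ_iff_lt_or_eq.1 hi with h2 | rfl
    · exact hω.1 i h2
    · exact hω.2

/-! ### The Gaussian distribution function -/

lemma Ph_add_Qh (x : ℝ) : Ph x + Qh x = 1 := by
  unfold Ph Qh
  rw [← NiceF.ph_total, ← MeasureTheory.integral_add_compl measurableSet_Iic NiceF.ph_integrable,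
    Set.compl_Iic]

lemma Ph_mono {x y : ℝ} (h : x ≤ y) : Ph x ≤ Ph y := by
  have h1 := Ph_add_Qh x
  have h2 := Ph_add_Qh y
  have h3 := Cert.Qh_strictAnti.antitone h
  linarith

/-- The analytic content: a test function which vanishes below the line `-α - β s`. -/
lemma test (α β T Θ ε : ℝ) (hβ : 0 < β) (hΘ : 0 ≤ Θ) (hT : Θ < T) (hε : 0 < ε) :
    ∃ (H : ℝ → ℝ → ℝ) (C : ℝ), Nice H Θ C ∧ (∀ s y, H s y ≤ 1) ∧
      (∀ s y, 0 ≤ s → s ≤ Θ → y ≤ -α - β * s → H s y = 0) ∧ S2 α β T - ε ≤ H 0 0 := by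
  have hTp : 0 < T := by linarith
  set x0 : ℝ := β * √T with hx0
  have hx0p : 0 ≤ x0 := by positivity
  have hQ0 : 0 < Qh x0 := Cert.Qh_pos x0
  have hQh : Qh x0 ≤ 1 / 2 := by
    rw [← Cert.Qh_zero]
    exact Cert.Qh_strictAnti.antitone hx0p
  have hPQ := Ph_add_Qh x0
  set q : ℝ := Ph x0 / Qh x0 with hq
  have hqp : 0 < q := div_pos (by linarith) hQ0
  have h1q : 1 + q = 1 / Qh x0 := by
    rw [hq]
    field_simp
    linarith
  obtain ⟨g, _, hg1, hg2, hg3, hg4⟩ := nice_g q ε hqp hε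
  obtain ⟨C, hC⟩ := hg4 (-α - β * T) T Θ hΘ hT
  refine ⟨_, C, hC, fun s y => (hg1 _).2, ?_, ?_⟩
  · intro s y hs hsΘ hy
    apply hg2
    have hp : 0 < T - s := by linarith
    have hsq : √(T - s) ≤ √T := Real.sqrt_le_sqrt (by linarith)
    have hsp : 0 < √(T - s) := Real.sqrt_pos.2 hp
    have hw : (y - (-α - β * T)) / √(T - s) ≤ x0 := by
      rw [div_le_iff₀ hsp]
      have h1 : √(T - s) * √(T - s) = T - s := Real.mul_self_sqrt hp.le
      have h2 : β * √(T - s) * √(T - s) ≤ x0 * √(T - s) := by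
        rw [hx0]
        gcongr
      have h3 : β * √(T - s) * √(T - s) = β * (T - s) := by rw [mul_assoc, h1]
      rw [h3] at h2
      linarith
    have h4 := Ph_mono hw
    have h5 : (1 + q) * Ph x0 - q = 0 := by
      rw [h1q, hq]
      ring
    have h6 : (1 + q) * Ph ((y - (-α - β * T)) / √(T - s)) ≤ (1 + q) * Ph x0 :=
      mul_le_mul_of_nonneg_left h4 (by linarith)
    linarith
  · refine le_trans ?_ (hg3 _)
    have hsT : 0 < √T := Real.sqrt_pos.2 hTp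
    have e1 : (0 - (-α - β * T)) / √(T - 0) = β * √T + α / √T := by
      rw [sub_zero]
      have h1 : √T * √T = T := Real.mul_self_sqrt hTp.le
      field_simp
      nlinarith
    rw [e1]
    have h7 := Ph_add_Qh (β * √T + α / √T)
    have h8 : (1 + q) * Ph (β * √T + α / √T) - q = S2 α β T := by
      unfold S2
      have h9 : Ph (β * √T + α / √T) = 1 - Qh (β * √T + α / √T) := by linarith
      have h10 : q = 1 / Qh x0 - 1 := by linarith
      rw [h1q, h10, h9]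
      rw [← hx0]
      ring
    rw [h8]

lemma continuousOn_S2 (α β : ℝ) : ContinuousOn (S2 α β) (Set.Ioi 0) := by
  have hQ : Continuous Qh :=
    continuous_iff_continuousAt.2 fun x => (Cert.hasDerivAt_Qh x).continuousAt
  unfold S2
  refine continuousOn_const.sub (ContinuousOn.div ?_ ?_ ?_)
  · refine hQ.comp_continuousOn (ContinuousOn.add (by fun_prop) (ContinuousOn.div (by fun_prop)
      (by fun_prop) ?_))
    intro s hs
    exact (Real.sqrt_pos.2 hs).ne'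
  · exact hQ.comp_continuousOn (by fun_prop)
  · intro s _
    exact (Cert.Qh_pos _).ne'

/-- Uniform continuity of `S2` on compact intervals. -/
lemma S2_unif (α β Θ ε : ℝ) (hε : 0 < ε) : ∃ δ > 0, ∀ s ∈ Set.Icc 1 Θ, ∀ s' ∈ Set.Icc 1 Θ,
    |s - s'| ≤ δ → |S2 α β s - S2 α β s'| ≤ ε := by
  have h1 : ContinuousOn (S2 α β) (Set.Icc 1 Θ) :=
    (continuousOn_S2 α β).mono fun x hx => lt_of_lt_of_le one_pos hx.1
  have h2 := isCompact_Icc.uniformContinuousOn_of_continuous h1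
  rw [Metric.uniformContinuousOn_iff] at h2
  obtain ⟨δ, hδ, h3⟩ := h2 ε hε
  refine ⟨δ / 2, by positivity, fun s hs s' hs' h => ?_⟩
  have h4 := h3 s hs s' hs' (by rw [Real.dist_eq]; linarith)
  rw [Real.dist_eq] at h4
  exact h4.le

/-! ### Deterministic part -/

variable {n : ℕ} {S : Finset (Fin n)} {R : TieRule n}

lemma rr_anti {s t : ℕ} (h : s ≤ t) (ω : Om n) : rr S R t ω ≤ rr S R s ω := by
  unfold rr
  exact_mod_cast Finset.card_le_card (Ns_anti S R h ω)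

lemma rr_le (t : ℕ) (ω : Om n) : rr S R t ω ≤ n := by
  unfold rr
  have h := Finset.card_le_univ (Ns S R t ω)
  rw [Fintype.card_fin] at h
  exact_mod_cast h

lemma Qf_le {H : ℝ → ℝ → ℝ} (hH : ∀ s y, H s y ≤ 1) (t : ℕ) (ω : Om n) :
    Qf true S R H t ω ≤ ((Ss S R t ω).card : ℝ) / √(n : ℝ) := by
  unfold Qf Pc qc
  rw [if_pos rfl, if_pos rfl]
  apply div_le_div_of_nonneg_right _ (Real.sqrt_nonneg _)
  refine (Finset.sum_le_sum fun v _ => hH _ _).trans ?_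
  rw [Finset.sum_const, nsmul_eq_mul, mul_one]

lemma Rem_eq_zero {H : ℝ → ℝ → ℝ} {t : ℕ} {ω : Om n}
    (h : ∀ j < t, uu S R j ω ∈ S → H (n / rr S R j ω) (Mv S R j ω (uu S R j ω)) = 0) :
    Rem true S R H 0 t ω = 0 := by
  unfold Rem Pc qc
  rw [if_pos rfl]
  rw [Finset.sum_eq_zero, zero_div]
  intro j hj
  rw [if_pos rfl]
  split_ifs with h1
  · exact h j (Finset.mem_Ico.1 hj).2 ((mem_Ss S R).1 h1).2
  · rfl

/-- The deterministic argument. `N` mesh intervals of length `d`. -/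
lemma det {α β κ Θ d h μ ε : ℝ} {N : ℕ} {x : ℕ → ℝ} {H : ℕ → ℝ → ℝ → ℝ}
    (hβ : 0 < β) (hκ : 0 < κ) (hd : 0 < d) (hdh : d ≤ h) (hΘ : 1 ≤ Θ)
    (hN : Θ + 1 < 1 + N * d) (hε : 0 < ε)
    (hS : ∀ s ≥ 1, κ ≤ S2 α β s)
    (hS2 : ∀ i < N, |S2 α β (1 + i * d) - S2 α β (1 + i * d + 2 * d)| ≤ ε)
    (hx : ∀ i < N, x i + μ ≤ (1 + i * d) * S2 α β (1 + i * d) - α - β * (1 + i * d))
    (hH1 : ∀ i < N, ∀ s y, H i s y ≤ 1)
    (hH2 : ∀ i < N, ∀ s y, 0 ≤ s → s ≤ 1 + i * d + d → y ≤ -α - β * s → H i s y = 0)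
    (hH3 : ∀ i < N, S2 α β (1 + i * d + 2 * d) - ε ≤ H i 0 0)
    (hn : 0 < n) (hεn : 1 / √(n : ℝ) ≤ ε) (hεμ : 6 * (Θ + 1) * ε + β * d ≤ μ)
    {ω : Om n}
    (hA : ∀ i < N, ∀ t ≤ n, (1 + i * d) * rr S R t ω ≤ n →
      (n : ℝ) ≤ ((1 + i * d) + h) * rr S R t ω → Bt S R t ω ≤ x i)
    (hB : ∀ i < N, ∀ s t, s ≤ t → t ≤ n → (n : ℝ) ≤ (1 + i * d + d) * rr S R t ω →
      Qf true S R (H i) s ω - Rem true S R (H i) s t ω - ε ≤ Qf true S R (H i) t ω)
    (hC : ∀ i < N, H i 0 0 - ε ≤ Qf true S R (H i) 0 ω) :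
    ∀ t ≤ n, (n : ℝ) ≤ (Θ + 1) * rr S R t ω → κ - 4 * ε ≤ ((Ss S R t ω).card : ℝ) / √(n : ℝ) := by
  have hn' : (0 : ℝ) < n := by exact_mod_cast hn
  -- the first claim
  have claim1 : ∀ t ≤ n, (n : ℝ) ≤ (Θ + 1) * rr S R t ω →
      (∀ j < t, uu S R j ω ∈ S → Mv S R j ω (uu S R j ω) ≤ -α - β * (n / rr S R j ω)) →
      ∃ i < N, 1 + i * d ≤ n / rr S R t ω ∧ n / rr S R t ω ≤ 1 + i * d + d ∧
        S2 α β (1 + i * d + 2 * d) - 3 * ε ≤ ((Ss S R t ω).card : ℝ) / √(n : ℝ) := by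
    intro t ht hr hj
    have hr0 : 0 < rr S R t ω := by
      by_contra hneg
      have h1 : (Θ + 1) * rr S R t ω ≤ 0 :=
        mul_nonpos_of_nonneg_of_nonpos (by linarith) (not_lt.1 hneg)
      linarith
    set θ : ℝ := n / rr S R t ω with hθ
    have hθ1 : 1 ≤ θ := by
      rw [hθ, le_div_iff₀ hr0, one_mul]
      exact rr_le t ω
    have hθ2 : θ ≤ Θ + 1 := by
      rw [hθ, div_le_iff₀ hr0]
      exact hr
    set i : ℕ := ⌊(θ - 1) / d⌋₊ with hi
    have hi0 : 0 ≤ (θ - 1) / d := div_nonneg (by linarith) hd.le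
    have hi1 : (i : ℝ) * d ≤ θ - 1 := by
      rw [← le_div_iff₀ hd]
      exact Nat.floor_le hi0
    have hi2 : θ - 1 < (i + 1) * d := by
      rw [← div_lt_iff₀ hd]
      exact Nat.lt_floor_add_one _
    have hiN : i < N := by
      by_contra hneg
      have h1 : (N : ℝ) ≤ i := by exact_mod_cast not_lt.1 hneg
      have h2 : (N : ℝ) * d ≤ i * d := mul_le_mul_of_nonneg_right h1 hd.le
      linarith
    refine ⟨i, hiN, by linarith, by linarith, ?_⟩
    have hb := hB i hiN 0 t (Nat.zero_le _) ht (by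
      have h1 : θ ≤ 1 + i * d + d := by linarith
      rw [hθ, div_le_iff₀ hr0] at h1
      exact h1)
    have hrem : Rem true S R (H i) 0 t ω = 0 := by
      apply Rem_eq_zero
      intro j hjt hju
      have hrj : rr S R t ω ≤ rr S R j ω := rr_anti hjt.le ω
      have hrj0 : 0 < rr S R j ω := by linarith
      have hθj : n / rr S R j ω ≤ θ := by
        rw [hθ]
        exact div_le_div_of_nonneg_left hn'.le hr0 hrj
      exact hH2 i hiN _ _ (by positivity) (by linarith) (hj j hjt hju)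
    have hc := hC i hiN
    have h3 := hH3 i hiN
    have h4 := Qf_le (S := S) (R := R) (hH1 i hiN) t ω
    rw [hrem] at hb
    linarith
  -- the second claim
  have claim2 : ∀ t, t < n → (n : ℝ) ≤ (Θ + 1) * rr S R t ω → uu S R t ω ∈ S →
      Mv S R t ω (uu S R t ω) ≤ -α - β * (n / rr S R t ω) := by
    intro t
    induction t using Nat.strong_induction_on with
    | _ t ih =>
      intro ht hr hu
      have hprev : ∀ j < t, uu S R j ω ∈ S →
          Mv S R j ω (uu S R j ω) ≤ -α - β * (n / rr S R j ω) := by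
        intro j hj hju
        refine ih j hj (by omega) (hr.trans ?_) hju
        exact mul_le_mul_of_nonneg_left (rr_anti hj.le ω) (by linarith)
      obtain ⟨i, hiN, h1, h2, h3⟩ := claim1 t ht.le hr hprev
      have hr0 : 0 < rr S R t ω := by
        by_contra hneg
        have h1 : (Θ + 1) * rr S R t ω ≤ 0 :=
          mul_nonpos_of_nonneg_of_nonpos (by linarith) (not_lt.1 hneg)
        linarith
      set θ : ℝ := n / rr S R t ω with hθ
      have hθ2 : θ ≤ Θ + 1 := by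
        rw [hθ, div_le_iff₀ hr0]
        exact hr
      have hBt : Bt S R t ω ≤ x i := by
        apply hA i hiN t ht.le
        · rw [hθ, le_div_iff₀ hr0] at h1
          exact h1
        · have h4 : θ ≤ (1 + i * d) + h := by linarith
          rw [hθ, div_le_iff₀ hr0] at h4
          exact h4
      rw [Mv_uu_S hu]
      set k : ℝ := ((Ss S R t ω).card : ℝ) with hk
      have hsn : 0 < √(n : ℝ) := Real.sqrt_pos.2 hn'
      have e1 : √(n : ℝ) * (k - 1) / rr S R t ω = θ * (k / √(n : ℝ) - 1 / √(n : ℝ)) := by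
        rw [hθ]
        have h5 : √(n : ℝ) * √(n : ℝ) = n := Real.mul_self_sqrt hn'.le
        field_simp
        rw [sq, h5]
        ring
      rw [e1]
      have hθ1 : 0 < θ := by
        have : (0 : ℝ) ≤ i * d := by positivity
        linarith
      set s : ℝ := 1 + i * d with hs
      have hs1 : 1 ≤ s := by
        have : (0 : ℝ) ≤ i * d := by positivity
        linarith
      have h6 := hS (s + 2 * d) (by linarith)
      have h7 := (abs_le.1 (hS2 i hiN)).2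
      have h8 := hx i hiN
      -- theta * (k / sqrt n - 1 / sqrt n) >= theta * (S2 T - 4 eps) >= s S2 T - 4 eps theta
      have h9 : θ * (S2 α β (s + 2 * d) - 4 * ε) ≤ θ * (k / √(n : ℝ) - 1 / √(n : ℝ)) :=
        mul_le_mul_of_nonneg_left (by linarith) hθ1.le
      have h10 : s * S2 α β (s + 2 * d) ≤ θ * S2 α β (s + 2 * d) :=
        mul_le_mul_of_nonneg_right h1 (by linarith)
      have h11 : s * (S2 α β s - ε) ≤ s * S2 α β (s + 2 * d) :=
        mul_le_mul_of_nonneg_left (by linarith) (by linarith)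
      have h12 : θ * ε ≤ (Θ + 1) * ε := mul_le_mul_of_nonneg_right hθ2 hε.le
      have h13 : s * ε ≤ (Θ + 1) * ε := mul_le_mul_of_nonneg_right (by linarith) hε.le
      have h14 : β * θ ≤ β * (s + d) := mul_le_mul_of_nonneg_left h2 hβ.le
      have h15 : 0 ≤ (Θ + 1) * ε := by positivity
      linarith
  intro t ht hr
  have hprev : ∀ j < t, uu S R j ω ∈ S →
      Mv S R j ω (uu S R j ω) ≤ -α - β * (n / rr S R j ω) := by
    intro j hj hju
    refine claim2 j (by omega) (hr.trans ?_) hju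
    exact mul_le_mul_of_nonneg_left (rr_anti hj.le ω) (by linarith)
  obtain ⟨i, hiN, h1, h2, h3⟩ := claim1 t ht hr hprev
  have h4 : κ ≤ S2 α β (1 + i * d + 2 * d) := by
    apply hS
    have : (0 : ℝ) ≤ i * d := by positivity
    linarith
  linarith

/-- The stage `n - ⌈n / Θ⌉` has at least `n / (Θ + 1)` nonplanted vertices. -/
lemma stage {Θ : ℝ} (hΘ : 1 ≤ Θ) (hn : 0 < n) (hn2 : Θ * (Θ + 1) ≤ √(n : ℝ))
    (hS : S.card = Nat.sqrt n) (ω : Om n) :
    (n : ℝ) ≤ (Θ + 1) * rr S R (n - ⌈(n : ℝ) / Θ⌉₊) ω := by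
  have hn' : (0 : ℝ) < n := by exact_mod_cast hn
  have hΘ0 : 0 < Θ := by linarith
  have hle : ⌈(n : ℝ) / Θ⌉₊ ≤ n := by
    apply Nat.ceil_le.2
    exact div_le_self hn'.le hΘ
  have h1 := card_As S R (Nat.sub_le n ⌈(n : ℝ) / Θ⌉₊) ω
  have h2 := card_Ns_add S R (n - ⌈(n : ℝ) / Θ⌉₊) ω
  have h3 := card_Ss_le S R (n - ⌈(n : ℝ) / Θ⌉₊) ω
  have h4 : n - (n - ⌈(n : ℝ) / Θ⌉₊) = ⌈(n : ℝ) / Θ⌉₊ := Nat.sub_sub_self hle
  rw [h4] at h1
  have h5 : (n : ℝ) / Θ ≤ ⌈(n : ℝ) / Θ⌉₊ := Nat.le_ceil _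
  have h6 : ((Nat.sqrt n : ℕ) : ℝ) ≤ √(n : ℝ) := Real.nat_sqrt_le_real_sqrt
  have h7 : ((Ns S R (n - ⌈(n : ℝ) / Θ⌉₊) ω).card : ℝ) +
      (Ss S R (n - ⌈(n : ℝ) / Θ⌉₊) ω).card = ⌈(n : ℝ) / Θ⌉₊ := by
    have h2' := congrArg (fun m : ℕ => (m : ℝ)) (h2.trans h1)
    simpa using h2'
  have h8 : ((Ss S R (n - ⌈(n : ℝ) / Θ⌉₊) ω).card : ℝ) ≤ √(n : ℝ) := by
    refine le_trans ?_ h6
    rw [← hS]
    exact_mod_cast h3
  have h9 : (n : ℝ) / Θ - √(n : ℝ) ≤ rr S R (n - ⌈(n : ℝ) / Θ⌉₊) ω := by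
    unfold rr
    linarith
  have h10 : (Θ + 1) * ((n : ℝ) / Θ - √(n : ℝ)) ≤
      (Θ + 1) * rr S R (n - ⌈(n : ℝ) / Θ⌉₊) ω :=
    mul_le_mul_of_nonneg_left h9 (by linarith)
  refine le_trans ?_ h10
  have h11 : √(n : ℝ) * √(n : ℝ) = n := Real.mul_self_sqrt hn'.le
  have h12 : Θ * (Θ + 1) * √(n : ℝ) ≤ n := by
    calc Θ * (Θ + 1) * √(n : ℝ) ≤ √(n : ℝ) * √(n : ℝ) :=
          mul_le_mul_of_nonneg_right hn2 (Real.sqrt_nonneg _)
      _ = n := h11
  have h13 : (Θ + 1) * √(n : ℝ) ≤ n / Θ := by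
    rw [le_div_iff₀ hΘ0]
    linarith
  have h14 : (Θ + 1) * ((n : ℝ) / Θ) = n + n / Θ := by
    field_simp
  rw [mul_sub, h14]
  linarith

end PA2

/-- MODULE PA2. -/
theorem pa2 (hL : LLNStmt) (hI : INITStmt) {α β κ t0 : ℝ} {F : ℝ → ℝ → ℝ} {b : ℝ → ℝ}
    (hc : CertData α β κ t0 F b) (h1 : PA1Stmt t0 F b) : PAStmt := by
  refine ⟨κ / 2, by have := hc.κ_pos; positivity, fun Θ hΘ => ?_⟩
  have hβ := hc.β_pos
  have hκ := hc.κ_pos
  set Θ2 : ℝ := max Θ t0 + 4 with hΘ2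
  have hΘ2t : t0 ≤ Θ2 := by
    have := le_max_right Θ t0
    linarith
  have hΘ2Θ : Θ + 4 ≤ Θ2 := by
    have := le_max_left Θ t0
    linarith
  obtain ⟨μ, hμ, _, hmarg⟩ := hc.margins Θ2 hΘ2t
  obtain ⟨h, hh, hA⟩ := h1 Θ2 (by linarith) μ hμ
  -- the parameters
  set ε : ℝ := min (κ / 8) (μ / (12 * (Θ + 1))) with hε
  have hεp : 0 < ε := by
    rw [hε]
    refine lt_min (by positivity) (div_pos hμ (by linarith))
  have hε1 : ε ≤ κ / 8 := min_le_left _ _
  have hε2 : 6 * (Θ + 1) * ε ≤ μ / 2 := by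
    have h2 : ε ≤ μ / (12 * (Θ + 1)) := min_le_right _ _
    rw [le_div_iff₀ (by linarith)] at h2
    linarith
  obtain ⟨δ, hδ, hS2u⟩ := PA2.S2_unif α β Θ2 ε hεp
  set d : ℝ := min (min h 1) (min (δ / 2) (μ / (2 * β))) with hd
  have hdp : 0 < d := by
    rw [hd]
    exact lt_min (lt_min hh one_pos) (lt_min (by positivity) (by positivity))
  have hdh : d ≤ h := (min_le_left _ _).trans (min_le_left _ _)
  have hd1 : d ≤ 1 := (min_le_left _ _).trans (min_le_right _ _)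
  have hdδ : d ≤ δ / 2 := (min_le_right _ _).trans (min_le_left _ _)
  have hdμ : β * d ≤ μ / 2 := by
    have h2 : d ≤ μ / (2 * β) := (min_le_right _ _).trans (min_le_right _ _)
    rw [le_div_iff₀ (by positivity)] at h2
    linarith
  -- the number of mesh points: Θ + 1 < 1 + N d, and 1 + (N - 1) d <= Θ + 1
  set N : ℕ := ⌊Θ / d⌋₊ + 1 with hN
  have hN1 : Θ + 1 < 1 + N * d := by
    have h2 : Θ / d < N := by
      rw [hN]
      push_cast
      exact Nat.lt_floor_add_one _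
    rw [div_lt_iff₀ hdp] at h2
    linarith
  have hN2 : ∀ i < N, (i : ℝ) * d ≤ Θ := by
    intro i hi
    have h2 : i ≤ ⌊Θ / d⌋₊ := by omega
    have h3 : (i : ℝ) ≤ Θ / d :=
      (Nat.cast_le.2 h2).trans (Nat.floor_le (div_nonneg (by linarith) hdp.le))
    rwa [le_div_iff₀ hdp] at h3
  have hi0 : ∀ i : ℕ, (0 : ℝ) ≤ i * d := fun i => by positivity
  have hmem : ∀ i < N, (1 + i * d : ℝ) ∈ Set.Icc 1 Θ2 := by
    intro i hi
    have h2 := hN2 i hi
    have h3 := hi0 i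
    exact ⟨by linarith, by linarith⟩
  have hmem2 : ∀ i < N, (1 + i * d + 2 * d : ℝ) ∈ Set.Icc 1 Θ2 := by
    intro i hi
    have h2 := hN2 i hi
    have h3 := hi0 i
    exact ⟨by linarith, by linarith⟩
  -- choose the levels
  have hxex : ∀ i : ℕ, ∃ x : ℝ, i < N →
      (x + μ ≤ (1 + i * d) * S2 α β (1 + i * d) - α - β * (1 + i * d) ∧
      (((1 + i * d : ℝ) ≤ t0 ∧ Qh (x / √(1 + i * d)) ≤ 1 / (1 + i * d) - μ) ∨
        (t0 ≤ 1 + i * d ∧ b (1 + i * d) ≤ x ∧ F (1 + i * d) x ≤ 1 / (1 + i * d) - μ))) := by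
    intro i
    by_cases hi : i < N
    · obtain ⟨x, hx⟩ := hmarg (1 + i * d) (hmem i hi)
      exact ⟨x, fun _ => hx⟩
    · exact ⟨0, fun h => absurd h hi⟩
  choose x hx using hxex
  have hHex : ∀ i : ℕ, ∃ (H : ℝ → ℝ → ℝ) (C : ℝ), Nice H (1 + i * d + d) C ∧
      (∀ s y, H s y ≤ 1) ∧
      (∀ s y, 0 ≤ s → s ≤ 1 + i * d + d → y ≤ -α - β * s → H s y = 0) ∧
      S2 α β (1 + i * d + 2 * d) - ε ≤ H 0 0 := by
    intro i
    have h2 := hi0 i
    exact PA2.test α β (1 + i * d + 2 * d) (1 + i * d + d) ε hβ (by linarith) (by linarith) hεp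
  choose H C hH1 hH2 hH3 hH4 using hHex
  -- the events
  have hE1 := PA2.whp_forall N (fun i n S R ω => ∀ t ≤ n, (1 + i * d) * rr S R t ω ≤ n →
      (n : ℝ) ≤ ((1 + i * d) + h) * rr S R t ω → Bt S R t ω ≤ x i)
    (fun i hi => hA (1 + i * d) (hmem i hi) (x i) (hx i hi).2)
  have hE2 := PA2.whp_forall N (fun i n S R ω => ∀ s t, s ≤ t → t ≤ n →
      (n : ℝ) ≤ (1 + i * d + d) * rr S R t ω →
      Qf true S R (H i) s ω - Rem true S R (H i) s t ω - ε ≤ Qf true S R (H i) t ω)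
    (fun i _ => hL true (H i) (1 + i * d + d) (C i) (by have := hi0 i; linarith) (hH1 i) ε hεp)
  have hE3 := PA2.whp_forall N (fun i n S R ω => H i 0 0 - ε ≤ Qf true S R (H i) 0 ω)
    (fun i _ => hI true (H i) (1 + i * d + d) (C i) (by have := hi0 i; linarith) (hH1 i) ε hεp)
  refine PA2.whp_mono (PA2.whp_and hE1 (PA2.whp_and hE2 hE3)) ?_
  have hsq : Tendsto (fun n : ℕ => √(n : ℝ)) atTop atTop :=
    Real.tendsto_sqrt_atTop.comp tendsto_natCast_atTop_atTop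
  filter_upwards [hsq.eventually_ge_atTop (Θ * (Θ + 1)), hsq.eventually_ge_atTop (1 / ε),
    eventually_gt_atTop 0] with n hn1 hn2 hn0 S R hS ω hω
  obtain ⟨ha, hb, hc'⟩ := hω
  have hsn : 0 < √(n : ℝ) := Real.sqrt_pos.2 (by exact_mod_cast hn0)
  have hεn : 1 / √(n : ℝ) ≤ ε := by
    rw [div_le_iff₀ hsn]
    rw [div_le_iff₀ hεp] at hn2
    linarith
  have key := PA2.det (S := S) (R := R) (N := N) (x := x) (H := H) (μ := μ) (κ := κ) (h := h)
    hβ hκ hdp hdh hΘ hN1 hεp hc.surv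
    (fun i hi => hS2u _ (hmem i hi) _ (hmem2 i hi) (by
      rw [show (1 + i * d : ℝ) - (1 + i * d + 2 * d) = -(2 * d) by ring, abs_neg,
        abs_of_pos (by linarith)]
      linarith))
    (fun i hi => (hx i hi).1) (fun i _ => hH2 i) (fun i _ => hH3 i) (fun i _ => hH4 i)
    hn0 hεn (by linarith) ha hb hc' (n - ⌈(n : ℝ) / Θ⌉₊) (Nat.sub_le _ _)
    (PA2.stage hΘ hn0 hn1 hS ω)
  rw [le_div_iff₀ hsn] at key
  refine le_trans ?_ key
  exact mul_le_mul_of_nonneg_right (by linarith) hsn.le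

end Pool.Agent.H40.Peel
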