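import Pool.Agent.H40.Peel.Defs

/-!
# Operator norm of random symmetric sign matrices, uniformly over principal submatrices
-/

namespace Pool.Agent.H40.Peel

open Finset Filter

namespace Op

variable {n : ℕ}

/-! ### Probability on the finite sample space -/

theorem E_mono {f g : Om n → ℝ} (h : ∀ ω, f ω ≤ g ω) : E f ≤ E g := by
  unfold E
  gcongr with ω _
  exact h ω

theorem E_const_mul (c : ℝ) (f : Om n → ℝ) : E (fun ω => c * f ω) = c * E f := by
  unfold E
  rw [← Finset.mul_sum, mul_div_assoc]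

theorem E_sum {ι : Type*} (s : Finset ι) (f : ι → Om n → ℝ) :
    E (fun ω => ∑ i ∈ s, f i ω) = ∑ i ∈ s, E (f i) := by
  unfold E
  rw [Finset.sum_comm, Finset.sum_div]

theorem Pr_mono {s t : Om n → Prop} (h : ∀ ω, s ω → t ω) : Pr s ≤ Pr t := by
  classical
  unfold Pr
  apply E_mono
  intro ω
  by_cases h1 : s ω
  · rw [if_pos h1, if_pos (h ω h1)]
  · rw [if_neg h1]; split_ifs <;> norm_num

theorem Pr_nonneg (s : Om n → Prop) : 0 ≤ Pr s := by
  classical
  unfold Pr E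
  apply div_nonneg _ (Nat.cast_nonneg _)
  apply Finset.sum_nonneg
  intro ω _
  split_ifs <;> norm_num

theorem Pr_or (s t : Om n → Prop) : Pr (fun ω => s ω ∨ t ω) ≤ Pr s + Pr t := by
  classical
  unfold Pr E
  rw [← add_div, ← Finset.sum_add_distrib]
  gcongr with ω _
  by_cases h1 : s ω <;> by_cases h2 : t ω <;> simp [h1, h2]

theorem Pr_exists {ι : Type*} (I : Finset ι) (s : ι → Om n → Prop) :
    Pr (fun ω => ∃ i ∈ I, s i ω) ≤ ∑ i ∈ I, Pr (s i) := by
  classical
  unfold Pr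
  rw [← E_sum]
  apply E_mono
  intro ω
  split_ifs with h
  · obtain ⟨i, hi, hs⟩ := h
    calc (1 : ℝ) = (if s i ω then 1 else 0) := by rw [if_pos hs]
      _ ≤ _ := Finset.single_le_sum (f := fun i => if s i ω then (1 : ℝ) else 0)
        (fun j _ => by split_ifs <;> norm_num) hi
  · apply Finset.sum_nonneg
    intro i _
    split_ifs <;> norm_num

/-! ### Hoeffding -/

theorem E_exp_le (c : Sym2 (Fin n) → ℝ) (l : ℝ) :
    E (fun ω : Om n => Real.exp (l * ∑ e, c e * sg (ω e))) ≤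
      Real.exp (l ^ 2 * (∑ e, c e ^ 2) / 2) := by
  classical
  have h1 : ∀ ω : Om n, Real.exp (l * ∑ e, c e * sg (ω e))
      = ∏ e, Real.exp (l * c e * sg (ω e)) := by
    intro ω
    rw [← Real.exp_sum, Finset.mul_sum]
    congr 1
    refine Finset.sum_congr rfl fun e _ => by ring
  have h2 : ∑ ω : Om n, Real.exp (l * ∑ e, c e * sg (ω e))
      = ∏ e, (2 * Real.cosh (l * c e)) := by
    have h3 : ∀ e, 2 * Real.cosh (l * c e) = ∑ b : Bool, Real.exp (l * c e * sg b) := by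
      intro e
      rw [Fintype.sum_bool, Real.cosh_eq]
      simp only [sg, if_true, Bool.false_eq_true, if_false]
      rw [mul_one, mul_neg, mul_one]; ring
    simp only [h3]
    rw [Finset.prod_univ_sum, Fintype.piFinset_univ]
    exact Finset.sum_congr rfl fun ω _ => h1 ω
  unfold E
  rw [h2, Finset.prod_mul_distrib, Finset.prod_const]
  have h4 : (Fintype.card (Om n) : ℝ) = 2 ^ (Finset.univ : Finset (Sym2 (Fin n))).card := by
    rw [Fintype.card_fun, Fintype.card_bool, Finset.card_univ]; push_cast; ring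
  rw [h4, mul_div_assoc, mul_comm, div_mul_cancel₀ _ (by positivity)]
  calc ∏ e, Real.cosh (l * c e) ≤ ∏ e, Real.exp ((l * c e) ^ 2 / 2) := by
        apply Finset.prod_le_prod
        · intro e _; exact (Real.cosh_pos _).le
        · intro e _; exact Real.cosh_le_exp_half_sq _
    _ = Real.exp (l ^ 2 * (∑ e, c e ^ 2) / 2) := by
        rw [← Real.exp_sum]
        congr 1
        rw [Finset.mul_sum, Finset.sum_div]
        refine Finset.sum_congr rfl fun e _ => by ring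

theorem Pr_le_exp (c : Sym2 (Fin n) → ℝ) (V T : ℝ) (hV : 0 < V) (hc : ∑ e, c e ^ 2 ≤ V)
    (hT : 0 ≤ T) :
    Pr (fun ω : Om n => T ≤ ∑ e, c e * sg (ω e)) ≤ Real.exp (-(T ^ 2 / (2 * V))) := by
  classical
  have h1 : Pr (fun ω : Om n => T ≤ ∑ e, c e * sg (ω e)) ≤
      Real.exp (-(T / V * T)) * E (fun ω : Om n => Real.exp (T / V * ∑ e, c e * sg (ω e))) := by
    rw [← E_const_mul]
    unfold Pr
    apply E_mono
    intro ω
    rw [← Real.exp_add]
    split_ifs with h
    · apply Real.one_le_exp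
      have : T / V * T ≤ T / V * ∑ e, c e * sg (ω e) :=
        mul_le_mul_of_nonneg_left h (by positivity)
      linarith
    · exact (Real.exp_pos _).le
  refine h1.trans ?_
  calc _ ≤ Real.exp (-(T / V * T)) * Real.exp ((T / V) ^ 2 * (∑ e, c e ^ 2) / 2) := by
        gcongr
        exact E_exp_le c _
    _ ≤ Real.exp (-(T / V * T)) * Real.exp ((T / V) ^ 2 * V / 2) := by
        gcongr
    _ = _ := by
        rw [← Real.exp_add]
        congr 1
        field_simp
        ring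

theorem Pr_abs_le (c : Sym2 (Fin n) → ℝ) (V T : ℝ) (hV : 0 < V) (hc : ∑ e, c e ^ 2 ≤ V)
    (hT : 0 ≤ T) :
    Pr (fun ω : Om n => T ≤ |∑ e, c e * sg (ω e)|) ≤ 2 * Real.exp (-(T ^ 2 / (2 * V))) := by
  have h1 := Pr_le_exp c V T hV hc hT
  have h2 := Pr_le_exp (fun e => - c e) V T hV (by simpa using hc) hT
  calc _ ≤ Pr (fun ω : Om n => T ≤ ∑ e, c e * sg (ω e) ∨ T ≤ ∑ e, -c e * sg (ω e)) := by
        apply Pr_mono
        intro ω h
        rcases le_abs.1 h with h | h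
        · exact Or.inl h
        · right
          simpa [Finset.sum_neg_distrib] using h
    _ ≤ _ := (Pr_or _ _).trans (by linarith)

/-! ### The bilinear form -/

/-- the bilinear form of the sign matrix on `A` -/
def bil (ω : Om n) (A : Finset (Fin n)) (f g : Fin n → ℝ) : ℝ :=
  ∑ v ∈ A, ∑ z ∈ A, f v * g z * e0 ω v z

/-- coefficient of a pair -/
noncomputable def cf (A : Finset (Fin n)) (f g : Fin n → ℝ) (e : Sym2 (Fin n)) : ℝ :=
  ∑ p ∈ (A ×ˢ A).filter (fun p => s(p.1, p.2) = e), if p.1 = p.2 then 0 else f p.1 * g p.2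

theorem bil_eq (ω : Om n) (A : Finset (Fin n)) (f g : Fin n → ℝ) :
    bil ω A f g = ∑ e, cf A f g e * sg (ω e) := by
  classical
  unfold bil cf
  rw [← Finset.sum_product (s := A) (t := A) (f := fun p => f p.1 * g p.2 * e0 ω p.1 p.2)]
  rw [← Finset.sum_fiberwise (A ×ˢ A) (fun p => s(p.1, p.2))]
  refine Finset.sum_congr rfl fun e _ => ?_
  rw [Finset.sum_mul]
  refine Finset.sum_congr rfl fun p hp => ?_
  rw [Finset.mem_filter] at hp
  unfold e0
  split_ifs with h
  · ring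
  · rw [hp.2]

theorem card_fiber (A : Finset (Fin n)) (e : Sym2 (Fin n)) :
    ((A ×ˢ A).filter (fun p => s(p.1, p.2) = e)).card ≤ 2 := by
  classical
  induction e using Sym2.ind with
  | _ x y =>
    calc _ ≤ ({(x, y), (y, x)} : Finset (Fin n × Fin n)).card := by
          apply Finset.card_le_card
          intro p hp
          rw [Finset.mem_filter] at hp
          have := hp.2
          rw [Sym2.eq_iff] at this
          rcases this with ⟨h1, h2⟩ | ⟨h1, h2⟩
          · simp [Prod.ext_iff, h1, h2]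
          · simp [Prod.ext_iff, h1, h2]
      _ ≤ 2 := Finset.card_le_two

theorem sum_cf_sq (A : Finset (Fin n)) (f g : Fin n → ℝ) :
    ∑ e, cf A f g e ^ 2 ≤ 2 * ((∑ v ∈ A, f v ^ 2) * ∑ v ∈ A, g v ^ 2) := by
  classical
  calc ∑ e, cf A f g e ^ 2 ≤ ∑ e, 2 * ∑ p ∈ (A ×ˢ A).filter (fun p => s(p.1, p.2) = e),
        f p.1 ^ 2 * g p.2 ^ 2 := by
        apply Finset.sum_le_sum
        intro e _
        calc cf A f g e ^ 2 ≤ ((A ×ˢ A).filter (fun p => s(p.1, p.2) = e)).card *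
              ∑ p ∈ (A ×ˢ A).filter (fun p => s(p.1, p.2) = e),
                (if p.1 = p.2 then 0 else f p.1 * g p.2) ^ 2 := sq_sum_le_card_mul_sum_sq
          _ ≤ 2 * ∑ p ∈ (A ×ˢ A).filter (fun p => s(p.1, p.2) = e), f p.1 ^ 2 * g p.2 ^ 2 := by
              apply mul_le_mul
              · exact_mod_cast card_fiber A e
              · apply Finset.sum_le_sum
                intro p _
                split_ifs
                · rw [zero_pow two_ne_zero]; positivity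
                · rw [mul_pow]
              · exact Finset.sum_nonneg fun _ _ => sq_nonneg _
              · norm_num
    _ = 2 * ∑ p ∈ A ×ˢ A, f p.1 ^ 2 * g p.2 ^ 2 := by
        rw [← Finset.mul_sum, Finset.sum_fiberwise]
    _ = _ := by
        rw [Finset.sum_product, Finset.sum_mul_sum]

theorem Pr_bil (A : Finset (Fin n)) (f g : Fin n → ℝ) (a T : ℝ) (ha : 0 < a)
    (hf : ∑ v ∈ A, f v ^ 2 ≤ 7 * a) (hg : ∑ v ∈ A, g v ^ 2 ≤ 7 * a) (hT : 0 ≤ T) :
    Pr (fun ω : Om n => T ≤ |bil ω A f g|) ≤ 2 * Real.exp (-(T ^ 2 / (196 * a ^ 2))) := by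
  have h1 : ∑ e, cf A f g e ^ 2 ≤ 98 * a ^ 2 := by
    refine (sum_cf_sq A f g).trans ?_
    have h2 : (∑ v ∈ A, f v ^ 2) * ∑ v ∈ A, g v ^ 2 ≤ (7 * a) * (7 * a) :=
      mul_le_mul hf hg (Finset.sum_nonneg fun _ _ => sq_nonneg _) (by positivity)
    nlinarith
  have h3 := Pr_abs_le (cf A f g) (98 * a ^ 2) T (by positivity) h1 hT
  simp only [bil_eq]
  refine h3.trans (le_of_eq ?_)
  congr 4
  ring

/-! ### The integer net -/

/-- integer vectors supported on `A` with squared norm at most `7 |A|` -/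
noncomputable def net (A : Finset (Fin n)) : Finset (Fin n → ℤ) :=
  open Classical in
  (Fintype.piFinset fun v => if v ∈ A then Finset.Icc (-(7 * A.card : ℤ)) (7 * A.card) else {0}).filter
    fun z => ∑ v ∈ A, z v ^ 2 ≤ 7 * A.card

theorem sum_half_pow (K : ℕ) : ∑ j ∈ Finset.Icc (-(K : ℤ)) K, (1 / 2 : ℝ) ^ j.natAbs ≤ 3 := by
  have h : ∀ K : ℕ, ∑ j ∈ Finset.Icc (-(K : ℤ)) K, (1 / 2 : ℝ) ^ j.natAbs
      = 3 - 2 * (1 / 2 : ℝ) ^ K := by
    intro K
    induction K with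
    | zero => simp; norm_num
    | succ K ih =>
      have e1 : Finset.Icc (-((K + 1 : ℕ) : ℤ)) ((K + 1 : ℕ) : ℤ)
          = insert (-((K + 1 : ℕ) : ℤ)) (insert (((K + 1 : ℕ) : ℤ)) (Finset.Icc (-(K : ℤ)) K)) := by
        ext x
        simp only [Finset.mem_Icc, Finset.mem_insert]
        omega
      rw [e1, Finset.sum_insert, Finset.sum_insert, ih]
      · rw [Int.natAbs_neg, Int.natAbs_natCast, pow_succ]
        ring
      · simp only [Finset.mem_Icc]; omega
      · simp only [Finset.mem_Icc, Finset.mem_insert]; omega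
  rw [h]
  have : (0 : ℝ) ≤ (1 / 2 : ℝ) ^ K := by positivity
  linarith

theorem natAbs_le_sq (z : ℤ) : z.natAbs ≤ (z ^ 2).toNat := by
  have h1 : (z ^ 2).toNat = z.natAbs ^ 2 := by
    zify
    rw [Int.toNat_of_nonneg (sq_nonneg z), sq_abs]
  rw [h1]
  exact Nat.le_self_pow two_ne_zero _

theorem card_net (A : Finset (Fin n)) : ((net A).card : ℝ) ≤ 384 ^ A.card := by
  classical
  set a := A.card with ha
  have h0 : ∀ z ∈ net A, (1 : ℝ) ≤ 2 ^ (7 * a) * ∏ v ∈ A, (1 / 2 : ℝ) ^ (z v).natAbs := by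
    intro z hz
    unfold net at hz
    rw [Finset.mem_filter] at hz
    rw [Finset.prod_pow_eq_pow_sum]
    have h1 : ∑ v ∈ A, (z v).natAbs ≤ 7 * a := by
      have h2 : ((∑ v ∈ A, (z v).natAbs : ℕ) : ℤ) ≤ 7 * a := by
        push_cast
        refine le_trans ?_ hz.2
        apply Finset.sum_le_sum
        intro v _
        rw [← sq_abs (z v)]
        rcases (abs_nonneg (z v)).lt_or_eq with h | h
        · nlinarith
        · rw [← h]; norm_num
      exact_mod_cast h2
    calc (1 : ℝ) = 2 ^ (7 * a) * (1 / 2 : ℝ) ^ (7 * a) := by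
          rw [← mul_pow]; norm_num
      _ ≤ _ := by
          exact mul_le_mul_of_nonneg_left
            (pow_le_pow_of_le_one (by norm_num) (by norm_num) h1) (by positivity)
  have h3 : ((net A).card : ℝ) ≤ 2 ^ (7 * a) * ∑ z ∈ net A, ∏ v ∈ A, (1 / 2 : ℝ) ^ (z v).natAbs := by
    rw [Finset.mul_sum, Finset.cast_card]
    exact Finset.sum_le_sum h0
  refine h3.trans ?_
  have h4 : ∑ z ∈ net A, ∏ v ∈ A, (1 / 2 : ℝ) ^ (z v).natAbs ≤ 3 ^ a := by
    set t : Fin n → Finset ℤ := fun v =>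
      if v ∈ A then Finset.Icc (-(7 * a : ℤ)) (7 * a) else {0} with ht
    set w : Fin n → ℤ → ℝ := fun v j => if v ∈ A then (1 / 2 : ℝ) ^ j.natAbs else 1 with hw
    have h5 : ∑ z ∈ net A, ∏ v ∈ A, (1 / 2 : ℝ) ^ (z v).natAbs
        ≤ ∑ z ∈ Fintype.piFinset t, ∏ v, w v (z v) := by
      have h6 : ∀ z : Fin n → ℤ, ∏ v ∈ A, (1 / 2 : ℝ) ^ (z v).natAbs = ∏ v, w v (z v) := by
        intro z
        rw [hw]
        simp only
        rw [Finset.prod_ite, Finset.prod_const_one, mul_one, Finset.filter_mem_eq_inter,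
          Finset.univ_inter]
      simp only [h6]
      apply Finset.sum_le_sum_of_subset_of_nonneg
      · unfold net
        exact Finset.filter_subset _ _
      · intro z _ _
        rw [← h6]
        positivity
    refine h5.trans ?_
    rw [← Finset.prod_univ_sum]
    calc ∏ v, ∑ j ∈ t v, w v j ≤ ∏ v, (if v ∈ A then (3 : ℝ) else 1) := by
          apply Finset.prod_le_prod
          · intro v _
            apply Finset.sum_nonneg
            intro j _
            rw [hw]; simp only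
            split_ifs <;> positivity
          · intro v _
            rw [ht, hw]
            simp only
            split_ifs with h
            · have := sum_half_pow (7 * a)
              push_cast at this
              exact this
            · simp
      _ = 3 ^ a := by
          rw [Finset.prod_ite, Finset.prod_const_one, mul_one, Finset.prod_const,
            Finset.filter_mem_eq_inter, Finset.univ_inter]
  calc (2 : ℝ) ^ (7 * a) * _ ≤ 2 ^ (7 * a) * 3 ^ a := by gcongr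
    _ = 384 ^ a := by
        rw [pow_mul, ← mul_pow]; norm_num

/-! ### Rounding -/

theorem bil_add_left (ω : Om n) (A : Finset (Fin n)) (f f' g : Fin n → ℝ) :
    bil ω A (fun v => f v + f' v) g = bil ω A f g + bil ω A f' g := by
  unfold bil
  rw [← Finset.sum_add_distrib]
  refine Finset.sum_congr rfl fun v _ => ?_
  rw [← Finset.sum_add_distrib]
  refine Finset.sum_congr rfl fun z _ => by ring

theorem bil_add_right (ω : Om n) (A : Finset (Fin n)) (f g g' : Fin n → ℝ) :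
    bil ω A f (fun v => g v + g' v) = bil ω A f g + bil ω A f g' := by
  unfold bil
  rw [← Finset.sum_add_distrib]
  refine Finset.sum_congr rfl fun v _ => ?_
  rw [← Finset.sum_add_distrib]
  refine Finset.sum_congr rfl fun z _ => by ring

theorem bil_smul (ω : Om n) (A : Finset (Fin n)) (f g : Fin n → ℝ) (c d : ℝ) :
    bil ω A (fun v => c * f v) (fun v => d * g v) = c * d * bil ω A f g := by
  unfold bil
  rw [Finset.mul_sum]
  refine Finset.sum_congr rfl fun v _ => ?_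
  rw [Finset.mul_sum]
  refine Finset.sum_congr rfl fun z _ => by ring

theorem bil_congr (ω : Om n) (A : Finset (Fin n)) {f f' g g' : Fin n → ℝ}
    (hf : ∀ v ∈ A, f v = f' v) (hg : ∀ v ∈ A, g v = g' v) :
    bil ω A f g = bil ω A f' g' := by
  unfold bil
  refine Finset.sum_congr rfl fun v hv => Finset.sum_congr rfl fun z hz => ?_
  rw [hf v hv, hg z hz]

theorem OpB_trivial (ω : Om n) (A : Finset (Fin n)) : OpB ω A (A.card : ℝ) := by
  intro f g
  have he : ∀ v z, |e0 ω v z| ≤ 1 := by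
    intro v z
    unfold e0 sg
    split_ifs <;> simp
  have h1 : |∑ v ∈ A, ∑ z ∈ A, f v * g z * e0 ω v z| ≤ (∑ v ∈ A, |f v|) * ∑ z ∈ A, |g z| := by
    calc _ ≤ ∑ v ∈ A, |∑ z ∈ A, f v * g z * e0 ω v z| := Finset.abs_sum_le_sum_abs _ _
      _ ≤ ∑ v ∈ A, ∑ z ∈ A, |f v * g z * e0 ω v z| := by
          apply Finset.sum_le_sum; intro v _; exact Finset.abs_sum_le_sum_abs _ _
      _ ≤ ∑ v ∈ A, ∑ z ∈ A, |f v| * |g z| := by
          apply Finset.sum_le_sum; intro v _
          apply Finset.sum_le_sum; intro z _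
          rw [abs_mul, abs_mul]
          exact mul_le_of_le_one_right (by positivity) (he v z)
      _ = _ := by rw [Finset.sum_mul_sum]
  have h2 : ∀ f : Fin n → ℝ, ∑ v ∈ A, |f v| ≤ √(A.card : ℝ) * √(∑ v ∈ A, f v ^ 2) := by
    intro f
    rw [← Real.sqrt_mul (Nat.cast_nonneg _)]
    apply Real.le_sqrt_of_sq_le
    have := sq_sum_le_card_mul_sum_sq (s := A) (f := fun v => |f v|)
    simpa only [sq_abs] using this
  calc _ ≤ (∑ v ∈ A, |f v|) * ∑ z ∈ A, |g z| := h1
    _ ≤ (√(A.card : ℝ) * √(∑ v ∈ A, f v ^ 2)) * (√(A.card : ℝ) * √(∑ v ∈ A, g v ^ 2)) :=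
        mul_le_mul (h2 f) (h2 g) (Finset.sum_nonneg fun _ _ => abs_nonneg _) (by positivity)
    _ = (√(A.card : ℝ) * √(A.card : ℝ)) * √(∑ v ∈ A, f v ^ 2) * √(∑ v ∈ A, g v ^ 2) := by ring
    _ = _ := by rw [Real.mul_self_sqrt (Nat.cast_nonneg _)]

/-- rounding of twice a vector -/
noncomputable def rd (A : Finset (Fin n)) (f : Fin n → ℝ) (v : Fin n) : ℤ :=
  open Classical in if v ∈ A then round (2 * f v) else 0

theorem rd_err (A : Finset (Fin n)) (f : Fin n → ℝ) (v : Fin n) (hv : v ∈ A) :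
    (f v - (rd A f v : ℝ) / 2) ^ 2 ≤ 1 / 16 := by
  have h := abs_sub_round (2 * f v)
  unfold rd
  rw [if_pos hv]
  have h2 := sq_le_sq' (abs_le.1 h).1 (abs_le.1 h).2
  nlinarith

theorem sum_err (A : Finset (Fin n)) (f : Fin n → ℝ) :
    ∑ v ∈ A, (f v - (rd A f v : ℝ) / 2) ^ 2 ≤ (A.card : ℝ) / 16 := by
  calc _ ≤ ∑ v ∈ A, (1 / 16 : ℝ) := Finset.sum_le_sum fun v hv => rd_err A f v hv
    _ = _ := by rw [Finset.sum_const, nsmul_eq_mul]; ring

theorem sum_rd (A : Finset (Fin n)) (f : Fin n → ℝ) (hf : ∑ v ∈ A, f v ^ 2 ≤ (A.card : ℝ)) :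
    ∑ v ∈ A, ((rd A f v : ℝ) / 2) ^ 2 ≤ 25 / 16 * (A.card : ℝ) := by
  have h1 : ∀ v, ((rd A f v : ℝ) / 2) ^ 2 ≤
      5 / 4 * f v ^ 2 + 5 * (f v - (rd A f v : ℝ) / 2) ^ 2 := by
    intro v
    nlinarith [sq_nonneg (f v / 2 + 2 * (f v - (rd A f v : ℝ) / 2))]
  calc _ ≤ ∑ v ∈ A, (5 / 4 * f v ^ 2 + 5 * (f v - (rd A f v : ℝ) / 2) ^ 2) :=
        Finset.sum_le_sum fun v _ => h1 v
    _ = 5 / 4 * ∑ v ∈ A, f v ^ 2 + 5 * ∑ v ∈ A, (f v - (rd A f v : ℝ) / 2) ^ 2 := by
        rw [Finset.sum_add_distrib, Finset.mul_sum, Finset.mul_sum]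
    _ ≤ 5 / 4 * (A.card : ℝ) + 5 * ((A.card : ℝ) / 16) := by
        have := sum_err A f
        linarith
    _ = _ := by ring

theorem rd_mem_net (A : Finset (Fin n)) (f : Fin n → ℝ)
    (hf : ∑ v ∈ A, f v ^ 2 ≤ (A.card : ℝ)) :
    rd A f ∈ net A := by
  classical
  have h1 : ∑ v ∈ A, (rd A f v : ℝ) ^ 2 ≤ 7 * (A.card : ℝ) := by
    have h2 := sum_rd A f hf
    have h3 : ∑ v ∈ A, ((rd A f v : ℝ) / 2) ^ 2 = (∑ v ∈ A, (rd A f v : ℝ) ^ 2) / 4 := by
      rw [Finset.sum_div]; refine Finset.sum_congr rfl fun v _ => by ring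
    have h4 : (0 : ℝ) ≤ A.card := Nat.cast_nonneg _
    rw [h3] at h2
    linarith
  have h1' : ∑ v ∈ A, (rd A f v) ^ 2 ≤ 7 * A.card := by exact_mod_cast h1
  unfold net
  rw [Finset.mem_filter, Fintype.mem_piFinset]
  refine ⟨fun v => ?_, h1'⟩
  split_ifs with hv
  · have h5 : (rd A f v) ^ 2 ≤ 7 * A.card :=
      (Finset.single_le_sum (f := fun v => (rd A f v) ^ 2) (fun _ _ => sq_nonneg _) hv).trans h1'
    have h6 : |rd A f v| ≤ (rd A f v) ^ 2 := by
      rw [← sq_abs]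
      rcases (abs_nonneg (rd A f v)).lt_or_eq with h | h
      · nlinarith
      · rw [← h]; norm_num
    rw [Finset.mem_Icc, ← abs_le]
    exact h6.trans h5
  · unfold rd
    rw [if_neg hv, Finset.mem_singleton]

theorem cancel_aux {a c : ℝ} (ha : 0 < a) (hc : 0 < c) (x : ℝ) :
    x = a / c * x * (c / a) := by
  field_simp

theorem cancel_aux2 {a : ℝ} (ha : 0 < a) (c T μ : ℝ) :
    (T / 4 + 9 / 16 * μ * a) * (c / a) = (T / (4 * a) + 9 / 16 * μ) * c := by
  field_simp

/-- One step of improvement of the operator norm bound. -/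
theorem improve (ω : Om n) (A : Finset (Fin n)) (hA : 0 < A.card) (T μ : ℝ) (hμ : 0 ≤ μ)
    (hnet : ∀ z ∈ net A, ∀ z' ∈ net A,
      |bil ω A (fun v => (z v : ℝ)) (fun v => (z' v : ℝ))| ≤ T)
    (hop : OpB ω A μ) : OpB ω A (T / (4 * A.card) + 9 / 16 * μ) := by
  have ha : (0 : ℝ) < A.card := by exact_mod_cast hA
  have hT : 0 ≤ T := by
    have h0 : (fun _ => (0 : ℤ)) ∈ net A := by
      have := rd_mem_net A (fun _ => 0) (by simp)
      have e : rd A (fun _ => 0) = fun _ => (0 : ℤ) := by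
        ext v; unfold rd; simp
      rwa [e] at this
    exact (abs_nonneg _).trans (hnet _ h0 _ h0)
  -- the normalized case
  have key : ∀ f g : Fin n → ℝ, ∑ v ∈ A, f v ^ 2 = A.card → ∑ v ∈ A, g v ^ 2 = A.card →
      |bil ω A f g| ≤ T / 4 + 9 / 16 * μ * A.card := by
    intro f g hf hg
    set z := rd A f with hz
    set z' := rd A g with hz'
    have e1 : bil ω A f g = bil ω A (fun v => f v - (z v : ℝ) / 2) g
        + bil ω A (fun v => (z v : ℝ) / 2) (fun v => g v - (z' v : ℝ) / 2)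
        + bil ω A (fun v => (z v : ℝ) / 2) (fun v => (z' v : ℝ) / 2) := by
      have e2 := bil_add_left ω A (fun v => f v - (z v : ℝ) / 2) (fun v => (z v : ℝ) / 2) g
      have e3 := bil_add_right ω A (fun v => (z v : ℝ) / 2) (fun v => g v - (z' v : ℝ) / 2)
        (fun v => (z' v : ℝ) / 2)
      have e4 : bil ω A f g = bil ω A (fun v => f v - (z v : ℝ) / 2 + (z v : ℝ) / 2) g :=
        bil_congr ω A (fun v _ => by ring) (fun v _ => rfl)
      have e5 : bil ω A (fun v => (z v : ℝ) / 2) g = bil ω A (fun v => (z v : ℝ) / 2)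
          (fun v => g v - (z' v : ℝ) / 2 + (z' v : ℝ) / 2) :=
        bil_congr ω A (fun v _ => rfl) (fun v _ => by ring)
      rw [e4, e2, e5, e3, add_assoc]
    have b1 : |bil ω A (fun v => f v - (z v : ℝ) / 2) g| ≤ μ * (A.card / 4) := by
      refine (hop _ _).trans ?_
      rw [mul_assoc]
      apply mul_le_mul_of_nonneg_left _ hμ
      rw [← Real.sqrt_mul (Finset.sum_nonneg fun _ _ => sq_nonneg _)]
      apply Real.sqrt_le_iff.2 ⟨by positivity, ?_⟩
      rw [hg]
      have := sum_err A f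
      nlinarith
    have b2 : |bil ω A (fun v => (z v : ℝ) / 2) (fun v => g v - (z' v : ℝ) / 2)|
        ≤ μ * (5 / 16 * A.card) := by
      refine (hop _ _).trans ?_
      rw [mul_assoc]
      apply mul_le_mul_of_nonneg_left _ hμ
      rw [← Real.sqrt_mul (Finset.sum_nonneg fun _ _ => sq_nonneg _)]
      apply Real.sqrt_le_iff.2 ⟨by positivity, ?_⟩
      have h1 := sum_err A g
      have h2 := sum_rd A f hf.le
      calc _ ≤ (25 / 16 * (A.card : ℝ)) * (A.card / 16) :=
            mul_le_mul h2 h1 (Finset.sum_nonneg fun _ _ => sq_nonneg _) (by positivity)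
        _ = _ := by ring
    have b3 : |bil ω A (fun v => (z v : ℝ) / 2) (fun v => (z' v : ℝ) / 2)| ≤ T / 4 := by
      have e : bil ω A (fun v => (z v : ℝ) / 2) (fun v => (z' v : ℝ) / 2)
          = 1 / 2 * (1 / 2) * bil ω A (fun v => (z v : ℝ)) (fun v => (z' v : ℝ)) := by
        rw [← bil_smul]
        exact bil_congr ω A (fun v _ => by ring) (fun v _ => by ring)
      rw [e, abs_mul]
      have := hnet z (rd_mem_net A f hf.le) z' (rd_mem_net A g hg.le)
      norm_num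
      linarith
    rw [e1]
    refine (abs_add_three _ _ _).trans ?_
    linarith
  intro f g
  change |bil ω A f g| ≤ _
  set F := √(∑ v ∈ A, f v ^ 2) with hF
  set G := √(∑ v ∈ A, g v ^ 2) with hG
  have hF0 : 0 ≤ F := Real.sqrt_nonneg _
  have hG0 : 0 ≤ G := Real.sqrt_nonneg _
  rcases hF0.eq_or_lt with h | hFp
  · have := hop f g
    change |bil ω A f g| ≤ _ at this
    rw [← hF, ← h] at this
    rw [← h]; simpa using this
  rcases hG0.eq_or_lt with h | hGp
  · have := hop f g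
    change |bil ω A f g| ≤ _ at this
    rw [← hG, ← h] at this
    rw [← h]; simpa using this
  have hs : ∀ (f : Fin n → ℝ) (F : ℝ), F = √(∑ v ∈ A, f v ^ 2) → 0 < F →
      ∑ v ∈ A, (√(A.card : ℝ) / F * f v) ^ 2 = A.card := by
    intro f F hF hFp
    have h1 : ∑ v ∈ A, (√(A.card : ℝ) / F * f v) ^ 2
        = (√(A.card : ℝ)) ^ 2 / F ^ 2 * ∑ v ∈ A, f v ^ 2 := by
      rw [Finset.mul_sum]
      refine Finset.sum_congr rfl fun v _ => ?_
      rw [mul_pow, div_pow]
    have h2 : F ^ 2 = ∑ v ∈ A, f v ^ 2 := by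
      rw [hF]; exact Real.sq_sqrt (Finset.sum_nonneg fun _ _ => sq_nonneg _)
    rw [h1, Real.sq_sqrt ha.le, ← h2]
    field_simp
  have h1 := key _ _ (hs f F hF hFp) (hs g G hG hGp)
  rw [bil_smul, abs_mul] at h1
  have h2 : |√(A.card : ℝ) / F * (√(A.card : ℝ) / G)| = A.card / (F * G) := by
    rw [abs_of_nonneg (by positivity), div_mul_div_comm, Real.mul_self_sqrt ha.le]
  rw [h2] at h1
  have h3 : 0 < F * G := mul_pos hFp hGp
  have h4 : |bil ω A f g| = A.card / (F * G) * |bil ω A f g| * (F * G / A.card) :=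
    cancel_aux ha h3 _
  rw [h4]
  calc _ ≤ (T / 4 + 9 / 16 * μ * A.card) * (F * G / A.card) :=
        mul_le_mul_of_nonneg_right h1 (div_nonneg h3.le ha.le)
    _ = _ := by
      rw [mul_assoc _ F G]
      exact cancel_aux2 ha _ _ _

/-- A bound on the net gives an operator norm bound. -/
theorem OpB_of_net (ω : Om n) (A : Finset (Fin n)) (hA : 0 < A.card) (T : ℝ)
    (hnet : ∀ z ∈ net A, ∀ z' ∈ net A,
      |bil ω A (fun v => (z v : ℝ)) (fun v => (z' v : ℝ))| ≤ T) :
    OpB ω A (4 * T / (7 * A.card)) := by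
  set S : Set ℝ := {μ | 0 ≤ μ ∧ OpB ω A μ} with hS
  have hne : S.Nonempty := ⟨A.card, Nat.cast_nonneg _, OpB_trivial ω A⟩
  have hbd : BddBelow S := ⟨0, fun μ h => h.1⟩
  have hinf : OpB ω A (sInf S) := by
    intro f g
    set F := √(∑ v ∈ A, f v ^ 2) with hF
    set G := √(∑ v ∈ A, g v ^ 2) with hG
    have hF0 : 0 ≤ F := Real.sqrt_nonneg _
    have hG0 : 0 ≤ G := Real.sqrt_nonneg _
    rcases (mul_nonneg hF0 hG0).eq_or_lt with h | h
    · have := OpB_trivial ω A f g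
      rw [mul_assoc, ← hF, ← hG, ← h, mul_zero] at this
      rw [mul_assoc, ← h, mul_zero]; exact this
    · rw [mul_assoc, ← div_le_iff₀ h]
      apply le_csInf hne
      rintro μ ⟨_, hμ⟩
      rw [div_le_iff₀ h, ← mul_assoc]
      exact hμ f g
  have hinf0 : 0 ≤ sInf S := le_csInf hne fun μ h => h.1
  have h1 := improve ω A hA T (sInf S) hinf0 hnet hinf
  have ha : (0 : ℝ) < A.card := by exact_mod_cast hA
  have hT : 0 ≤ T := by
    have h0 : (fun _ => (0 : ℤ)) ∈ net A := by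
      have := rd_mem_net A (fun _ => 0) (by simp)
      have e : rd A (fun _ => 0) = fun _ => (0 : ℤ) := by
        ext v; unfold rd; simp
      rwa [e] at this
    exact (abs_nonneg _).trans (hnet _ h0 _ h0)
  have h2 : sInf S ≤ T / (4 * A.card) + 9 / 16 * sInf S :=
    csInf_le hbd ⟨by positivity, h1⟩
  have h3 : sInf S ≤ 4 * T / (7 * A.card) := by
    have : 7 / 16 * sInf S ≤ T / (4 * A.card) := by linarith
    have e : 4 * T / (7 * A.card) = 16 / 7 * (T / (4 * A.card)) := by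
      field_simp; ring
    rw [e]; linarith
  intro f g
  exact (hinf f g).trans (by gcongr)

/-! ### The union bound -/

/-- the bound in the definition of `Good` -/
noncomputable def bt (n a : ℕ) (C : ℝ) : ℝ :=
  C * (n : ℝ) ^ (1 / 16 : ℝ) * (a : ℝ) ^ (7 / 16 : ℝ)

theorem Pr_not_OpB (A : Finset (Fin n)) (hA : 0 < A.card) (b : ℝ) (hb : 0 ≤ b) :
    Pr (fun ω : Om n => ¬ OpB ω A b) ≤
      2 * 384 ^ (2 * A.card) * Real.exp (-(b ^ 2 / 64)) := by
  have ha : (0 : ℝ) < A.card := by exact_mod_cast hA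
  set T : ℝ := 7 * A.card * b / 4 with hT
  have hT0 : 0 ≤ T := by positivity
  have hbT : 4 * T / (7 * A.card) = b := by rw [hT]; field_simp
  have hsq : ∀ z ∈ net A, ∑ v ∈ A, (z v : ℝ) ^ 2 ≤ 7 * A.card := by
    intro z hz
    unfold net at hz
    rw [Finset.mem_filter] at hz
    exact_mod_cast hz.2
  calc Pr (fun ω : Om n => ¬ OpB ω A b)
      ≤ Pr (fun ω : Om n => ∃ p ∈ net A ×ˢ net A,
          T ≤ |bil ω A (fun v => (p.1 v : ℝ)) (fun v => (p.2 v : ℝ))|) := by
        apply Pr_mono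
        intro ω hω
        by_contra hcon
        push Not at hcon
        apply hω
        have := OpB_of_net ω A hA T (fun z hz z' hz' =>
          (hcon (z, z') (Finset.mem_product.2 ⟨hz, hz'⟩)).le)
        rwa [hbT] at this
    _ ≤ ∑ p ∈ net A ×ˢ net A, Pr (fun ω : Om n =>
          T ≤ |bil ω A (fun v => (p.1 v : ℝ)) (fun v => (p.2 v : ℝ))|) := Pr_exists _ _
    _ ≤ ∑ p ∈ net A ×ˢ net A, 2 * Real.exp (-(b ^ 2 / 64)) := by
        apply Finset.sum_le_sum
        intro p hp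
        rw [Finset.mem_product] at hp
        refine (Pr_bil A _ _ (A.card : ℝ) T ha (hsq _ hp.1) (hsq _ hp.2) hT0).trans ?_
        apply le_of_eq
        congr 3
        rw [hT]
        field_simp
        ring
    _ = ((net A).card * (net A).card) * (2 * Real.exp (-(b ^ 2 / 64))) := by
        rw [Finset.sum_const, Finset.card_product, nsmul_eq_mul]; push_cast; ring
    _ ≤ (384 ^ A.card * 384 ^ A.card) * (2 * Real.exp (-(b ^ 2 / 64))) := by
        have := card_net A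
        gcongr
    _ = _ := by rw [two_mul (A.card), pow_add]; ring

theorem choose_le (n a : ℕ) (ha : 0 < a) (han : a ≤ n) :
    (n.choose a : ℝ) ≤ Real.exp (8 * ((n : ℝ) ^ (1 / 8 : ℝ) * (a : ℝ) ^ (7 / 8 : ℝ))) := by
  have ha' : (0 : ℝ) < a := by exact_mod_cast ha
  have hn' : (0 : ℝ) < n := by exact_mod_cast lt_of_lt_of_le ha han
  have h1 : (n.choose a : ℝ) ≤ (n : ℝ) ^ a / a.factorial := Nat.choose_le_pow_div a n
  have h2 : (a : ℝ) ^ a / a.factorial ≤ Real.exp a := Real.pow_div_factorial_le_exp a ha'.le a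
  have h3 : (n : ℝ) ^ a / a.factorial = ((n : ℝ) / a) ^ a * ((a : ℝ) ^ a / a.factorial) := by
    rw [div_pow]; field_simp
  set x : ℝ := (n : ℝ) / a with hx
  have hx0 : 0 < x := by positivity
  have h4 : x ^ a = Real.exp (a * Real.log x) := by
    rw [mul_comm, Real.exp_mul, Real.exp_log hx0, Real.rpow_natCast]
  have h5 : Real.log x ≤ 8 * x ^ (1 / 8 : ℝ) - 8 := by
    have h6 : Real.log x = 8 * Real.log (x ^ (1 / 8 : ℝ)) := by
      rw [Real.log_rpow hx0]; ring
    have h7 := Real.log_le_sub_one_of_pos (Real.rpow_pos_of_pos hx0 (1 / 8 : ℝ))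
    linarith
  have h8 : (a : ℝ) * x ^ (1 / 8 : ℝ) = (n : ℝ) ^ (1 / 8 : ℝ) * (a : ℝ) ^ (7 / 8 : ℝ) := by
    rw [hx, Real.div_rpow hn'.le ha'.le]
    have : (a : ℝ) = (a : ℝ) ^ (7 / 8 : ℝ) * (a : ℝ) ^ (1 / 8 : ℝ) := by
      rw [← Real.rpow_add ha']; norm_num
    calc (a : ℝ) * ((n : ℝ) ^ (1 / 8 : ℝ) / (a : ℝ) ^ (1 / 8 : ℝ))
        = ((a : ℝ) ^ (7 / 8 : ℝ) * (a : ℝ) ^ (1 / 8 : ℝ))
          * ((n : ℝ) ^ (1 / 8 : ℝ) / (a : ℝ) ^ (1 / 8 : ℝ)) := by rw [← this]
      _ = _ := by field_simp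
  rw [← h8]
  calc (n.choose a : ℝ) ≤ x ^ a * Real.exp a := by
        rw [h3] at h1
        exact h1.trans (by gcongr)
    _ = Real.exp (a * Real.log x + a) := by rw [h4, ← Real.exp_add]
    _ ≤ _ := by
        apply Real.exp_le_exp.2
        have : (a : ℝ) * Real.log x ≤ a * (8 * x ^ (1 / 8 : ℝ) - 8) := by gcongr
        nlinarith

theorem le_mix (n a : ℕ) (ha : 0 < a) (han : a ≤ n) :
    (a : ℝ) ≤ (n : ℝ) ^ (1 / 8 : ℝ) * (a : ℝ) ^ (7 / 8 : ℝ) := by
  have ha' : (0 : ℝ) < a := by exact_mod_cast ha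
  have h1 : (a : ℝ) = (a : ℝ) ^ (1 / 8 : ℝ) * (a : ℝ) ^ (7 / 8 : ℝ) := by
    rw [← Real.rpow_add ha']; norm_num
  have h2 : (a : ℝ) ^ (1 / 8 : ℝ) ≤ (n : ℝ) ^ (1 / 8 : ℝ) := by
    gcongr
  calc (a : ℝ) = (a : ℝ) ^ (1 / 8 : ℝ) * (a : ℝ) ^ (7 / 8 : ℝ) := h1
    _ ≤ _ := by gcongr

theorem bt_sq (n a : ℕ) (C : ℝ) :
    bt n a C ^ 2 = C ^ 2 * ((n : ℝ) ^ (1 / 8 : ℝ) * (a : ℝ) ^ (7 / 8 : ℝ)) := by
  unfold bt
  rw [mul_pow, mul_pow, ← Real.rpow_natCast ((n : ℝ) ^ (1 / 16 : ℝ)),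
    ← Real.rpow_natCast ((a : ℝ) ^ (7 / 16 : ℝ)), ← Real.rpow_mul (Nat.cast_nonneg _),
    ← Real.rpow_mul (Nat.cast_nonneg _)]
  norm_num
  ring

theorem pow384 (a : ℕ) : (384 : ℝ) ^ (2 * a) ≤ Real.exp (12 * a) := by
  have h1 : (384 : ℝ) ≤ Real.exp 6 := by
    have h2 : (2.7 : ℝ) ≤ Real.exp 1 := by
      have := Real.exp_one_gt_d9
      linarith
    have h3 : Real.exp 6 = Real.exp 1 ^ 6 := by
      rw [← Real.exp_nat_mul]; norm_num
    rw [h3]
    calc (384 : ℝ) ≤ 2.7 ^ 6 := by norm_num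
      _ ≤ _ := by gcongr
  calc (384 : ℝ) ^ (2 * a) ≤ Real.exp 6 ^ (2 * a) := by gcongr
    _ = _ := by rw [← Real.exp_nat_mul]; congr 1; push_cast; ring

theorem size_bound (n a : ℕ) (ha : 0 < a) (han : a ≤ n) :
    (n.choose a : ℝ) * (2 * 384 ^ (2 * a) * Real.exp (-(bt n a 40 ^ 2 / 64)))
      ≤ 2 * Real.exp (-(5 * a)) := by
  set y : ℝ := (n : ℝ) ^ (1 / 8 : ℝ) * (a : ℝ) ^ (7 / 8 : ℝ) with hy
  have h1 := choose_le n a ha han
  have h2 : (a : ℝ) ≤ y := le_mix n a ha han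
  have h3 := pow384 a
  rw [bt_sq, ← hy]
  rw [← hy] at h1
  calc _ ≤ Real.exp (8 * y) * (2 * Real.exp (12 * a) * Real.exp (-(40 ^ 2 * y / 64))) := by
        gcongr
    _ = 2 * Real.exp (8 * y + 12 * a - 40 ^ 2 * y / 64) := by
        rw [show 8 * y + 12 * a - 40 ^ 2 * y / 64 = 8 * y + (12 * a + (-(40 ^ 2 * y / 64))) by ring,
          Real.exp_add, Real.exp_add]
        ring
    _ ≤ _ := by
        gcongr
        linarith

theorem bad_le (n : ℕ) (hn : 0 < n) :
    Pr (fun ω : Om n => ¬ Good 40 ω) ≤ (n + 1) * (2 * Real.exp (-(5 * (n : ℝ) ^ (2 / 5 : ℝ)))) := by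
  classical
  have hn' : (0 : ℝ) < n := by exact_mod_cast hn
  have hpos : 0 < (n : ℝ) ^ (2 / 5 : ℝ) := Real.rpow_pos_of_pos hn' _
  set I : Finset (Finset (Fin n)) := (Finset.univ : Finset (Fin n)).powerset.filter
    (fun A => (n : ℝ) ^ (2 / 5 : ℝ) ≤ A.card) with hI
  set φ : ℕ → ℝ := fun a => if (n : ℝ) ^ (2 / 5 : ℝ) ≤ a then
    2 * 384 ^ (2 * a) * Real.exp (-(bt n a 40 ^ 2 / 64)) else 0 with hφ
  calc Pr (fun ω : Om n => ¬ Good 40 ω)
      ≤ Pr (fun ω : Om n => ∃ A ∈ I, ¬ OpB ω A (bt n A.card 40)) := by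
        apply Pr_mono
        intro ω hω
        unfold Good at hω
        push Not at hω
        obtain ⟨A, hA, hω⟩ := hω
        exact ⟨A, Finset.mem_filter.2 ⟨Finset.mem_powerset.2 (Finset.subset_univ _), hA⟩, hω⟩
    _ ≤ ∑ A ∈ I, Pr (fun ω : Om n => ¬ OpB ω A (bt n A.card 40)) := Pr_exists _ _
    _ ≤ ∑ A ∈ I, 2 * 384 ^ (2 * A.card) * Real.exp (-(bt n A.card 40 ^ 2 / 64)) := by
        apply Finset.sum_le_sum
        intro A hA
        have h1 := (Finset.mem_filter.1 hA).2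
        have h2 : 0 < A.card := by
          have : (0 : ℝ) < A.card := lt_of_lt_of_le hpos h1
          exact_mod_cast this
        exact Pr_not_OpB A h2 _ (by unfold bt; positivity)
    _ = ∑ A ∈ (Finset.univ : Finset (Fin n)).powerset, φ A.card := by
        rw [hI, Finset.sum_filter]
    _ = ∑ a ∈ Finset.range (n + 1), (n.choose a : ℝ) * φ a := by
        rw [Finset.sum_powerset_apply_card, Finset.card_univ, Fintype.card_fin]
        simp only [nsmul_eq_mul]
    _ ≤ ∑ a ∈ Finset.range (n + 1), 2 * Real.exp (-(5 * (n : ℝ) ^ (2 / 5 : ℝ))) := by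
        apply Finset.sum_le_sum
        intro a ha
        rw [Finset.mem_range] at ha
        rw [hφ]
        simp only
        split_ifs with h
        · have h2 : 0 < a := by
            have : (0 : ℝ) < a := lt_of_lt_of_le hpos h
            exact_mod_cast this
          refine (size_bound n a h2 (by omega)).trans ?_
          gcongr
        · rw [mul_zero]; positivity
    _ = _ := by
        rw [Finset.sum_const, Finset.card_range, nsmul_eq_mul]; push_cast; ring

theorem eventually_small :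
    ∀ᶠ n : ℕ in atTop, ((n : ℝ) + 1) * (2 * Real.exp (-(5 * (n : ℝ) ^ (2 / 5 : ℝ))))
      ≤ 1 / (n : ℝ) ^ 20 := by
  -- `u = n^{2/5}`; `u^53 exp(-u) → 0`
  have h1 := Real.tendsto_pow_mul_exp_neg_atTop_nhds_zero 53
  have h2 : Tendsto (fun n : ℕ => (n : ℝ) ^ (2 / 5 : ℝ)) atTop atTop :=
    (tendsto_rpow_atTop (by norm_num)).comp tendsto_natCast_atTop_atTop
  have h3 := h1.comp h2
  have h4 : ∀ᶠ n : ℕ in atTop, ((n : ℝ) ^ (2 / 5 : ℝ)) ^ 53 *
      Real.exp (-(n : ℝ) ^ (2 / 5 : ℝ)) < 1 / 4 :=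
    h3.eventually (gt_mem_nhds (by norm_num))
  filter_upwards [h4, eventually_ge_atTop 1] with n h4 hn
  have hn1 : (1 : ℝ) ≤ n := by exact_mod_cast hn
  have hn0 : (0 : ℝ) < n := by linarith
  set u : ℝ := (n : ℝ) ^ (2 / 5 : ℝ) with hu
  have hu0 : 0 < u := Real.rpow_pos_of_pos hn0 _
  have h5 : (n : ℝ) ^ 21 ≤ u ^ 53 := by
    rw [hu, ← Real.rpow_natCast ((n : ℝ) ^ (2 / 5 : ℝ)), ← Real.rpow_mul hn0.le,
      ← Real.rpow_natCast]
    apply Real.rpow_le_rpow_of_exponent_le hn1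
    norm_num
  have h6 : Real.exp (-(5 * u)) ≤ Real.exp (-u) := Real.exp_le_exp.2 (by linarith)
  rw [le_div_iff₀ (by positivity)]
  calc ((n : ℝ) + 1) * (2 * Real.exp (-(5 * u))) * (n : ℝ) ^ 20
      ≤ (2 * (n : ℝ)) * (2 * Real.exp (-u)) * (n : ℝ) ^ 20 := by
        gcongr
        linarith
    _ = 4 * ((n : ℝ) ^ 21 * Real.exp (-u)) := by ring
    _ ≤ 4 * (u ^ 53 * Real.exp (-u)) := by gcongr
    _ ≤ 1 := by linarith

end Op

/-- With overwhelming probability the sign matrix satisfies the operator norm bound uniformly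
over all principal submatrices of size at least `n^{2/5}`. -/
theorem good_prob : ∃ C : ℝ, 1 ≤ C ∧
    ∀ᶠ n : ℕ in atTop, Pr (fun ω : Om n => ¬ Good C ω) ≤ 1 / (n : ℝ) ^ 20 := by
  refine ⟨40, by norm_num, ?_⟩
  filter_upwards [Op.eventually_small, eventually_gt_atTop 0] with n h1 hn
  exact (Op.bad_le n hn).trans h1

end Pool.Agent.H40.Peel
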