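import Pool.Agent.H40.Peel.Sums

/-!
The two summation lemmas of phase B.
-/

namespace Pool.Agent.H40.Peel

open Finset

/-- Accumulated second moment. -/
lemma absA0 {n T : ℕ} (hT : T < n) {a q b : ℕ → ℝ}
    (ha : ∀ t, 0 ≤ a t) (hq : ∀ t, 0 ≤ q t) (hb : ∀ t, 0 ≤ b t)
    (hstep : ∀ t < T, a (t + 1) + q t ≤ a t * (1 + 1 / (2 * ((n - t : ℕ) : ℝ))) + b t) :
    ∀ t ≤ T, √((n - t : ℕ) : ℝ) * a t ≤ √(n : ℝ) * a 0 +
      ∑ j ∈ range t, √((n - j : ℕ) : ℝ) * b j := by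
  intro t
  induction t with
  | zero => intro _; simp
  | succ t ih =>
    intro ht
    have ih := ih (by omega)
    have hs := hstep t (by omega)
    rw [Finset.sum_range_succ]
    have h1 : (1:ℝ) ≤ ((n - t : ℕ) : ℝ) := by
      have : 1 ≤ n - t := by omega
      exact_mod_cast this
    have h3 : ((n - (t + 1) : ℕ) : ℝ) = ((n - t : ℕ) : ℝ) - 1 := by
      have : n - t = (n - (t + 1)) + 1 := by omega
      rw [this]; push_cast; ring
    have hg := growth_step h1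
    rw [h3]
    obtain ⟨m, hm⟩ : ∃ m, m = ((n - t : ℕ) : ℝ) := ⟨_, rfl⟩
    rw [← hm] at h1 hg hs ih ⊢
    have hle : √(m - 1) ≤ √m := Real.sqrt_le_sqrt (by linarith)
    have h0 : 0 ≤ √(m - 1) := Real.sqrt_nonneg _
    have hqt := hq t
    have hat := ha t
    have hbt := hb t
    calc √(m - 1) * a (t + 1) ≤ √(m - 1) * (a t * (1 + 1 / (2 * m)) + b t) :=
          mul_le_mul_of_nonneg_left (by linarith) h0
      _ = (√(m - 1) * (1 + 1 / (2 * m))) * a t + √(m - 1) * b t := by ring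
      _ ≤ √m * a t + √m * b t :=
          add_le_add (mul_le_mul_of_nonneg_right hg hat) (mul_le_mul_of_nonneg_right hle hbt)
      _ ≤ _ := by linarith

lemma m_anti {n s t : ℕ} (h : s ≤ t) : ((n - t : ℕ) : ℝ) ≤ ((n - s : ℕ) : ℝ) := by
  have : n - t ≤ n - s := by omega
  exact_mod_cast this

/-- Second moment bound. -/
lemma absA {n T : ℕ} (hT : T < n) {a q r : ℕ → ℝ} {K C err : ℝ} (hK : 1 ≤ K) (hC : 1 ≤ C)
    (herr : 0 ≤ err) (herr2 : (n : ℝ) * √(n : ℝ) * err ≤ 1)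
    (ha : ∀ t, 0 ≤ a t) (hq : ∀ t, 0 ≤ q t) (hr : ∀ t, 0 ≤ r t)
    (hstep : ∀ t < T, a (t + 1) + q t ≤ a t * (1 + 1 / (2 * ((n - t : ℕ) : ℝ))) +
      (K * (√(n : ℝ) ^ 3 / √((n - t : ℕ) : ℝ) ^ 5 * (√(n : ℝ) + r t)) + err))
    (hR : ∀ s ≤ T, ∑ t ∈ Ico s T, r t ≤ 8 * C * √(n : ℝ) * ((n - s : ℕ) : ℝ))
    (ha0 : a 0 ≤ 2 * √(n : ℝ)) :
    ∀ t ≤ T, √((n - t : ℕ) : ℝ) ^ 3 * a t ≤ 29 * C * K * √(n : ℝ) ^ 4 := by
  intro T' hT'
  have hn : (1:ℝ) ≤ n := by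
    have : 1 ≤ n := by omega
    exact_mod_cast this
  have hK0 : 0 ≤ K := by linarith
  have hC0 : 0 ≤ C := by linarith
  have hb : ∀ t, 0 ≤ (K * (√(n : ℝ) ^ 3 / √((n - t : ℕ) : ℝ) ^ 5 * (√(n : ℝ) + r t)) + err) := by
    intro t
    have := hr t
    positivity
  have h1 := absA0 hT ha hq hb hstep T' hT'
  have hM1 : (1:ℝ) ≤ ((n - T' : ℕ) : ℝ) := by
    have : 1 ≤ n - T' := by omega
    exact_mod_cast this
  obtain ⟨M, hM⟩ : ∃ M, M = √((n - T' : ℕ) : ℝ) := ⟨_, rfl⟩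
  have hM1' : 1 ≤ M := by rw [hM]; exact Real.one_le_sqrt.2 hM1
  have hMsq : M ^ 2 = ((n - T' : ℕ) : ℝ) := by rw [hM]; exact Real.sq_sqrt (by linarith)
  obtain ⟨N, hN⟩ : ∃ N, N = √(n : ℝ) := ⟨_, rfl⟩
  have hN1 : 1 ≤ N := by rw [hN]; exact Real.one_le_sqrt.2 hn
  have hNsq : N ^ 2 = n := by rw [hN]; exact Real.sq_sqrt (by linarith)
  have hMN : M ≤ N := by
    rw [hM, hN]
    apply Real.sqrt_le_sqrt
    exact_mod_cast Nat.sub_le n T'
  -- bound of each term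
  have hterm : ∀ j ∈ range T', √((n - j : ℕ) : ℝ) *
      (K * (√(n : ℝ) ^ 3 / √((n - j : ℕ) : ℝ) ^ 5 * (√(n : ℝ) + r j)) + err) ≤
      K * N ^ 3 / M * N * (1 / (((n - j : ℕ) : ℝ) * √((n - j : ℕ) : ℝ))) +
      K * N ^ 3 / M * (1 / (((n - j : ℕ) : ℝ) * √((n - j : ℕ) : ℝ)) * r j) + N * err := by
    intro j hj
    rw [Finset.mem_range] at hj
    have hmj : ((n - T' : ℕ) : ℝ) ≤ ((n - j : ℕ) : ℝ) := m_anti hj.le
    have hmn : ((n - j : ℕ) : ℝ) ≤ n := by exact_mod_cast Nat.sub_le n j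
    obtain ⟨μ, hμ⟩ : ∃ μ, μ = √((n - j : ℕ) : ℝ) := ⟨_, rfl⟩
    have hμsq : μ ^ 2 = ((n - j : ℕ) : ℝ) := by rw [hμ]; exact Real.sq_sqrt (by linarith)
    have hMμ : M ≤ μ := by rw [hM, hμ]; exact Real.sqrt_le_sqrt hmj
    have hμN : μ ≤ N := by rw [hμ, hN]; exact Real.sqrt_le_sqrt hmn
    rw [← hμ, ← hN, ← hμsq]
    have hμ0 : 0 < μ := by linarith
    have hrj := hr j
    have e1 : μ * (K * (N ^ 3 / μ ^ 5 * (N + r j)) + err) =
        K * N ^ 3 * (1 / (μ ^ 2 * μ)) * (1 / μ) * (N + r j) + μ * err := by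
      field_simp
    have e2 : K * N ^ 3 / M * N * (1 / (μ ^ 2 * μ)) + K * N ^ 3 / M * (1 / (μ ^ 2 * μ) * r j) +
        N * err = K * N ^ 3 * (1 / (μ ^ 2 * μ)) * (1 / M) * (N + r j) + N * err := by
      ring
    rw [e1, e2]
    have i1 : 1 / μ ≤ 1 / M := one_div_le_one_div_of_le (by linarith) hMμ
    have i2 : μ * err ≤ N * err := mul_le_mul_of_nonneg_right hμN herr
    have i3 : 0 ≤ K * N ^ 3 * (1 / (μ ^ 2 * μ)) := by positivity
    have i4 : 0 ≤ N + r j := by linarith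
    exact add_le_add (mul_le_mul_of_nonneg_right (mul_le_mul_of_nonneg_left i1 i3) i4) i2
  have h2 := Finset.sum_le_sum hterm
  rw [Finset.sum_add_distrib, Finset.sum_add_distrib, ← Finset.mul_sum, ← Finset.mul_sum,
    Finset.sum_const, Finset.card_range, nsmul_eq_mul] at h2
  have h3 := sum_inv32 n T' (by omega)
  have hR' : ∀ s ≤ T', ∑ t ∈ Ico s T', r t ≤ 8 * C * √(n : ℝ) * (((n - T' : ℕ) : ℝ) +
      ((T' - s : ℕ) : ℝ)) := by
    intro s hs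
    have e : ((n - T' : ℕ) : ℝ) + ((T' - s : ℕ) : ℝ) = ((n - s : ℕ) : ℝ) := by
      rw [← Nat.cast_add]
      congr 1
      omega
    rw [e]
    refine le_trans ?_ (hR s (by omega))
    exact Finset.sum_le_sum_of_subset_of_nonneg (Finset.Ico_subset_Ico_right hT')
      fun t _ _ => hr t
  have h4 := abel T' (fun t => 1 / (((n - t : ℕ) : ℝ) * √((n - t : ℕ) : ℝ))) r
    ((n - T' : ℕ) : ℝ) (8 * C * √(n : ℝ)) (by
      intro s hs
      have h1 : (1:ℝ) ≤ ((n - (s + 1) : ℕ) : ℝ) := by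
        have : 1 ≤ n - (s + 1) := by omega
        exact_mod_cast this
      have h2 : ((n - (s + 1) : ℕ) : ℝ) ≤ ((n - s : ℕ) : ℝ) := m_anti (Nat.le_succ s)
      apply one_div_le_one_div_of_le
      · have := Real.sqrt_pos.2 (by linarith : (0:ℝ) < ((n - (s + 1) : ℕ) : ℝ))
        positivity
      · exact mul_le_mul h2 (Real.sqrt_le_sqrt h2) (Real.sqrt_nonneg _) (by linarith))
    (fun s _ => by positivity) hR' 0 (Nat.zero_le _)
  rw [← Finset.range_eq_Ico] at h4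
  rw [← hM] at h3 h4
  obtain ⟨X, hX⟩ : ∃ X, X = ∑ t ∈ range T', 1 / (((n - t : ℕ) : ℝ) * √((n - t : ℕ) : ℝ)) :=
    ⟨_, rfl⟩
  obtain ⟨Y, hY⟩ : ∃ Y, Y = ∑ t ∈ range T',
    1 / (((n - t : ℕ) : ℝ) * √((n - t : ℕ) : ℝ)) * r t := ⟨_, rfl⟩
  rw [← hX] at h2 h3 h4
  rw [← hY] at h2 h4
  rw [← hN, ← hMsq] at h4
  have e5 : (1 / (M ^ 2 * M)) * M ^ 2 = 1 / M := by field_simp
  rw [e5] at h4
  rw [← hM, ← hN] at h1
  rw [← hN] at ha0 herr2 h2
  have hTn : (T' : ℝ) ≤ n := by exact_mod_cast (by omega : T' ≤ n)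
  have h5 : (T' : ℝ) * (N * err) ≤ 1 := by
    refine le_trans ?_ herr2
    calc (T' : ℝ) * (N * err) ≤ n * (N * err) :=
          mul_le_mul_of_nonneg_right hTn (by positivity)
      _ = _ := by ring
  have h6 : M * a T' ≤ 2 * N ^ 2 + K * N ^ 3 / M * (N * X + Y) + 1 := by
    have : N * a 0 ≤ N * (2 * N) := mul_le_mul_of_nonneg_left ha0 (by linarith)
    calc M * a T' ≤ _ := h1
      _ ≤ N * (2 * N) + (K * N ^ 3 / M * N * X + K * N ^ 3 / M * Y + T' * (N * err)) :=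
          add_le_add this h2
      _ ≤ _ := by linarith
  have h7 : N * X + Y ≤ 26 * C * N / M := by
    have i1 : X ≤ 2 / M := h3
    have i2 : N * X ≤ N * (2 / M) := mul_le_mul_of_nonneg_left i1 (by linarith)
    have i3 : Y ≤ 8 * C * N * (2 / M + 1 / M) := by
      refine h4.trans ?_
      apply mul_le_mul_of_nonneg_left _ (by positivity)
      linarith
    have i4 : N * (2 / M) ≤ C * (N * (2 / M)) := le_mul_of_one_le_left (by positivity) hC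
    calc N * X + Y ≤ C * (N * (2 / M)) + 8 * C * N * (2 / M + 1 / M) := by linarith
      _ = _ := by ring
  have h8 : K * N ^ 3 / M * (N * X + Y) ≤ K * N ^ 3 / M * (26 * C * N / M) :=
    mul_le_mul_of_nonneg_left h7 (by positivity)
  have h9 : M ^ 2 * (M * a T') ≤ M ^ 2 * (2 * N ^ 2 + K * N ^ 3 / M * (26 * C * N / M) + 1) :=
    mul_le_mul_of_nonneg_left (by linarith) (by positivity)
  have e10 : M ^ 2 * (2 * N ^ 2 + K * N ^ 3 / M * (26 * C * N / M) + 1) =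
      2 * M ^ 2 * N ^ 2 + 26 * C * K * N ^ 4 + M ^ 2 := by
    field_simp
  rw [e10] at h9
  rw [← hM, ← hN]
  have h11 : M ^ 2 ≤ N ^ 2 := pow_le_pow_left₀ (by linarith) hMN 2
  have h12 : M ^ 2 * N ^ 2 ≤ N ^ 2 * N ^ 2 := mul_le_mul_of_nonneg_right h11 (by positivity)
  have h13 : M ^ 2 ≤ N ^ 4 := by
    calc M ^ 2 ≤ N ^ 2 := h11
      _ ≤ N ^ 4 := pow_le_pow_right₀ hN1 (by norm_num)
  have h14 : N ^ 4 ≤ C * K * N ^ 4 := by
    have : 1 ≤ C * K := one_le_mul_of_one_le_of_one_le hC hK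
    exact le_mul_of_one_le_left (by positivity) this
  calc M ^ 3 * a T' = M ^ 2 * (M * a T') := by ring
    _ ≤ 2 * M ^ 2 * N ^ 2 + 26 * C * K * N ^ 4 + M ^ 2 := h9
    _ ≤ 2 * N ^ 4 + 26 * C * K * N ^ 4 + N ^ 4 := by nlinarith
    _ ≤ 29 * C * K * N ^ 4 := by nlinarith

/-- Weighted sum of the contributions of the killed vertices. -/
lemma absB {n T s : ℕ} (hT : T < n) (hsT : s ≤ T) {a q r : ℕ → ℝ} {K C err : ℝ} (hK : 1 ≤ K)
    (hC : 1 ≤ C) (herr : 0 ≤ err) (herr2 : (n : ℝ) * err ≤ 1)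
    (ha : ∀ t, 0 ≤ a t) (hr : ∀ t, 0 ≤ r t)
    (hstep : ∀ t < T, a (t + 1) + q t ≤ a t * (1 + 1 / (2 * ((n - t : ℕ) : ℝ))) +
      (K * (√(n : ℝ) ^ 3 / √((n - t : ℕ) : ℝ) ^ 5 * (√(n : ℝ) + r t)) + err))
    (hR : ∀ s ≤ T, ∑ t ∈ Ico s T, r t ≤ 8 * C * √(n : ℝ) * ((n - s : ℕ) : ℝ))
    (hA : ∀ t ≤ T, √((n - t : ℕ) : ℝ) ^ 3 * a t ≤ 29 * C * K * √(n : ℝ) ^ 4) :
    ∑ t ∈ Ico s T, (√((n - t : ℕ) : ℝ) / √(n : ℝ)) ^ 4 * q t ≤
      85 * C * K * √((n - s : ℕ) : ℝ) := by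
  have hn : (1:ℝ) ≤ n := by
    have : 1 ≤ n := by omega
    exact_mod_cast this
  have hK0 : 0 ≤ K := by linarith
  have hC0 : 0 ≤ C := by linarith
  obtain ⟨N, hN⟩ : ∃ N, N = √(n : ℝ) := ⟨_, rfl⟩
  have hN1 : 1 ≤ N := by rw [hN]; exact Real.one_le_sqrt.2 hn
  have hNsq : N ^ 2 = n := by rw [hN]; exact Real.sq_sqrt (by linarith)
  -- telescoping
  have key : ∀ T' , s ≤ T' → T' ≤ T →
      ∑ t ∈ Ico s T', (√((n - t : ℕ) : ℝ) / N) ^ 4 * q t ≤
      (√((n - s : ℕ) : ℝ) / N) ^ 4 * a s - (√((n - T' : ℕ) : ℝ) / N) ^ 4 * a T' +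
      ∑ t ∈ Ico s T', ((29 * C * K / 2 + K) * (1 / √((n - t : ℕ) : ℝ)) +
        K / N * (1 / √((n - t : ℕ) : ℝ) * r t) + err) := by
    intro T' hsT'
    induction T', hsT' using Nat.le_induction with
    | base => intro _; simp
    | succ t hst ih =>
      intro htT
      have ih := ih (by omega)
      rw [Finset.sum_Ico_succ_top hst, Finset.sum_Ico_succ_top hst]
      have hs := hstep t (by omega)
      have hAt := hA t (by omega)
      have hat := ha t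
      have hat1 := ha (t + 1)
      have hrt := hr t
      have h1 : (1:ℝ) ≤ ((n - t : ℕ) : ℝ) := by
        have : 1 ≤ n - t := by omega
        exact_mod_cast this
      have hmn : ((n - t : ℕ) : ℝ) ≤ n := by exact_mod_cast Nat.sub_le n t
      have hm1 : ((n - (t + 1) : ℕ) : ℝ) ≤ ((n - t : ℕ) : ℝ) := m_anti (Nat.le_succ t)
      obtain ⟨ν, hν⟩ : ∃ ν, ν = √((n - (t + 1) : ℕ) : ℝ) := ⟨_, rfl⟩
      obtain ⟨μ, hμ⟩ : ∃ μ, μ = √((n - t : ℕ) : ℝ) := ⟨_, rfl⟩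
      have hμsq : ((n - t : ℕ) : ℝ) = μ ^ 2 := by rw [hμ]; exact (Real.sq_sqrt (by linarith)).symm
      have hνμ : ν ≤ μ := by rw [hν, hμ]; exact Real.sqrt_le_sqrt hm1
      have hν0 : 0 ≤ ν := by rw [hν]; exact Real.sqrt_nonneg _
      have hμN : μ ≤ N := by rw [hμ, hN]; exact Real.sqrt_le_sqrt hmn
      have hμ1 : 1 ≤ μ := by rw [hμ]; exact Real.one_le_sqrt.2 h1
      rw [← hμ, ← hN, hμsq] at hs
      rw [← hμ, ← hN] at hAt
      rw [← hν, ← hμ]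
      rw [← hμ] at ih
      have hμ0 : 0 < μ := by linarith
      have hN0 : 0 < N := by linarith
      have i1 : (ν / N) ^ 4 * a (t + 1) ≤ (μ / N) ^ 4 * a (t + 1) := by
        apply mul_le_mul_of_nonneg_right _ hat1
        apply pow_le_pow_left₀ (by positivity)
        exact div_le_div_of_nonneg_right hνμ hN0.le
      have i2 : (μ / N) ^ 4 * (a (t + 1) + q t) ≤ (μ / N) ^ 4 * (a t * (1 + 1 / (2 * μ ^ 2)) +
          (K * (N ^ 3 / μ ^ 5 * (N + r t)) + err)) :=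
        mul_le_mul_of_nonneg_left hs (by positivity)
      have i3 : (μ / N) ^ 4 * (a t * (1 + 1 / (2 * μ ^ 2)) +
          (K * (N ^ 3 / μ ^ 5 * (N + r t)) + err)) =
          (μ / N) ^ 4 * a t + (μ ^ 3 * a t) / (2 * μ * N ^ 4) +
          K / N * (1 / μ * (N + r t)) + (μ / N) ^ 4 * err := by
        field_simp
        ring
      have i4 : (μ ^ 3 * a t) / (2 * μ * N ^ 4) ≤ (29 * C * K / 2) * (1 / μ) := by
        calc (μ ^ 3 * a t) / (2 * μ * N ^ 4) ≤ (29 * C * K * N ^ 4) / (2 * μ * N ^ 4) :=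
              div_le_div_of_nonneg_right hAt (by positivity)
          _ = _ := by field_simp
      have i5 : (μ / N) ^ 4 * err ≤ err := by
        have : (μ / N) ^ 4 ≤ 1 := by
          apply pow_le_one₀ (by positivity)
          rw [div_le_one hN0]; exact hμN
        exact mul_le_of_le_one_left herr this
      have i6 : K / N * (1 / μ * (N + r t)) = K * (1 / μ) + K / N * (1 / μ * r t) := by
        field_simp
      linarith
  have h1 := key T hsT le_rfl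
  rw [Finset.sum_add_distrib, Finset.sum_add_distrib, ← Finset.mul_sum, ← Finset.mul_sum,
    Finset.sum_const, Nat.card_Ico, nsmul_eq_mul] at h1
  have h2 := sum_inv12 n s T hsT hT.le
  have hR' : ∀ s' ≤ T, ∑ t ∈ Ico s' T, r t ≤ 8 * C * √(n : ℝ) * (((n - T : ℕ) : ℝ) +
      ((T - s' : ℕ) : ℝ)) := by
    intro s' hs
    have e : ((n - T : ℕ) : ℝ) + ((T - s' : ℕ) : ℝ) = ((n - s' : ℕ) : ℝ) := by
      rw [← Nat.cast_add]
      congr 1
      omega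
    rw [e]
    exact hR s' hs
  have h3 := abel T (fun t => 1 / √((n - t : ℕ) : ℝ)) r
    ((n - T : ℕ) : ℝ) (8 * C * √(n : ℝ)) (by
      intro j hj
      have h1 : (1:ℝ) ≤ ((n - (j + 1) : ℕ) : ℝ) := by
        have : 1 ≤ n - (j + 1) := by omega
        exact_mod_cast this
      have h2 : ((n - (j + 1) : ℕ) : ℝ) ≤ ((n - j : ℕ) : ℝ) := m_anti (Nat.le_succ j)
      apply one_div_le_one_div_of_le
      · exact Real.sqrt_pos.2 (by linarith)
      · exact Real.sqrt_le_sqrt h2)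
    (fun s _ => by positivity) hR' s hsT
  have hAs := hA s hsT
  have has := ha s
  have hms1 : (1:ℝ) ≤ ((n - T : ℕ) : ℝ) := by
    have : 1 ≤ n - T := by omega
    exact_mod_cast this
  have hmsT : ((n - T : ℕ) : ℝ) ≤ ((n - s : ℕ) : ℝ) := m_anti hsT
  obtain ⟨μ, hμ⟩ : ∃ μ, μ = √((n - s : ℕ) : ℝ) := ⟨_, rfl⟩
  obtain ⟨M, hM⟩ : ∃ M, M = √((n - T : ℕ) : ℝ) := ⟨_, rfl⟩
  have hMsq : ((n - T : ℕ) : ℝ) = M ^ 2 := by rw [hM]; exact (Real.sq_sqrt (by linarith)).symm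
  have hMμ : M ≤ μ := by rw [hM, hμ]; exact Real.sqrt_le_sqrt hmsT
  have hM1 : 1 ≤ M := by rw [hM]; exact Real.one_le_sqrt.2 hms1
  have hμN : μ ≤ N := by
    rw [hμ, hN]; apply Real.sqrt_le_sqrt; exact_mod_cast Nat.sub_le n s
  rw [← hμ, ← hM] at h2
  rw [hMsq] at h3
  rw [hMsq, Real.sqrt_sq (by linarith)] at h1
  rw [← hμ] at h1
  rw [Real.sqrt_sq (by linarith), ← hN] at h3
  rw [← hμ, ← hN] at hAs
  rw [← hμ, ← hN]
  obtain ⟨X, hX⟩ : ∃ X, X = ∑ t ∈ Ico s T, 1 / √((n - t : ℕ) : ℝ) := ⟨_, rfl⟩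
  obtain ⟨Y, hY⟩ : ∃ Y, Y = ∑ t ∈ Ico s T, 1 / √((n - t : ℕ) : ℝ) * r t := ⟨_, rfl⟩
  rw [← hX] at h1 h2 h3
  rw [← hY] at h1 h3
  have hμ0 : 0 < μ := by linarith
  have hN0 : 0 < N := by linarith
  have hM0 : 0 < M := by linarith
  have e5 : 1 / M * M ^ 2 = M := by field_simp
  rw [e5] at h3
  have j1 : (μ / N) ^ 4 * a s ≤ 29 * C * K * μ := by
    calc (μ / N) ^ 4 * a s = μ * (μ ^ 3 * a s) / N ^ 4 := by field_simp
      _ ≤ μ * (29 * C * K * N ^ 4) / N ^ 4 :=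
          div_le_div_of_nonneg_right (mul_le_mul_of_nonneg_left hAs hμ0.le) (by positivity)
      _ = _ := by field_simp
  have j2 : 0 ≤ (M / N) ^ 4 * a T := by have := ha T; positivity
  have j3 : X ≤ 2 * μ := by linarith
  have j4 : (29 * C * K / 2 + K) * X ≤ (29 * C * K / 2 + K) * (2 * μ) :=
    mul_le_mul_of_nonneg_left j3 (by positivity)
  have j5 : Y ≤ 8 * C * N * (3 * μ) := by
    refine h3.trans ?_
    exact mul_le_mul_of_nonneg_left (by linarith) (by positivity)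
  have j6 : K / N * Y ≤ 24 * C * K * μ := by
    calc K / N * Y ≤ K / N * (8 * C * N * (3 * μ)) := mul_le_mul_of_nonneg_left j5 (by positivity)
      _ = _ := by field_simp; norm_num
  have j7 : ((T - s : ℕ) : ℝ) * err ≤ 1 := by
    refine le_trans ?_ herr2
    apply mul_le_mul_of_nonneg_right _ herr
    exact_mod_cast (by omega : T - s ≤ n)
  have j8 : 1 ≤ C * K * μ := by
    have h1 : 1 ≤ C * K := one_le_mul_of_one_le_of_one_le hC hK
    exact one_le_mul_of_one_le_of_one_le h1 (by linarith)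
  have j9 : K * μ ≤ C * K * μ := by
    have : K * μ ≤ C * (K * μ) := le_mul_of_one_le_left (by positivity) hC
    linarith
  have j10 : (29 * C * K / 2 + K) * (2 * μ) = 29 * C * K * μ + 2 * (K * μ) := by ring
  have e11 : ∑ t ∈ Ico s T, (√((n - t : ℕ) : ℝ) / N) ^ 4 * q t ≤
      29 * C * K * μ + (29 * C * K * μ + 2 * (C * K * μ)) + 24 * C * K * μ + C * K * μ := by
    linarith
  calc _ ≤ _ := e11
    _ = 84 * C * K * μ + C * K * μ - C * K * μ + C * K * μ := by ring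
    _ = _ := by ring

end Pool.Agent.H40.Peel
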