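import Pool.Agent.H40.Peel.He2
import Pool.Agent.H40.Peel.SumsB
import Pool.Agent.H40.Peel.LDefs
import Pool.Agent.H40.Peel.OpProof
import Pool.Agent.H40.Peel.Endgame

/-!
Phase B: the planted vertices survive from `n / Θ` down to `n^{5/8}` remaining vertices.
-/

namespace Pool.Agent.H40.Peel

open Finset Filter

variable {n : ℕ} {S : Finset (Fin n)} {R : TieRule n}

/-! ### Initial second moment -/

lemma E_e0_e0 {v z z' : Fin n} (hv : v ≠ z) (hz : z ≠ z') :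
    E (fun ω : Om n => e0 ω v z * e0 ω v z') = 0 := by
  have h1 := E_flp s(v, z) (fun ω : Om n => e0 ω v z * e0 ω v z')
  have h2 : ∀ ω : Om n, e0 (flp s(v, z) ω) v z * e0 (flp s(v, z) ω) v z' =
      - (e0 ω v z * e0 ω v z') := by
    intro ω
    rw [e0_flp_same ω hv, e0_flp_ne]
    · ring
    · intro h
      rw [Sym2.eq_iff] at h
      rcases h with ⟨_, h⟩ | ⟨h, _⟩
      · exact hz h.symm
      · exact hv h
  rw [E_congr h2, E_neg] at h1
  linarith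

lemma E_sq_sum {v : Fin n} {A : Finset (Fin n)} (hv : v ∉ A) :
    E (fun ω : Om n => (∑ z ∈ A, e0 ω v z) ^ 2) = A.card := by
  have h1 : ∀ ω : Om n, (∑ z ∈ A, e0 ω v z) ^ 2 = ∑ z ∈ A, ∑ z' ∈ A, e0 ω v z * e0 ω v z' := by
    intro ω
    rw [pow_two, Finset.sum_mul_sum]
  rw [E_congr h1, E_sum]
  have h2 : ∀ z ∈ A, E (fun ω : Om n => ∑ z' ∈ A, e0 ω v z * e0 ω v z') = 1 := by
    intro z hz
    rw [E_sum, Finset.sum_eq_single z]
    · have hne : v ≠ z := fun h => hv (h ▸ hz)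
      refine (E_congr fun ω => ?_).trans (E_const (n := n) 1)
      rw [← pow_two, e0_sq ω hne]
    · intro z' _ hne
      exact E_e0_e0 (fun h => hv (h ▸ hz)) (Ne.symm hne)
    · intro h; exact absurd hz h
  rw [Finset.sum_congr rfl h2]
  simp

lemma Ns_zero (ω : Om n) : Ns S R 0 ω = univ \ S := rfl

lemma Ss_zero (ω : Om n) : Ss S R 0 ω = S := by
  unfold Ss
  rw [As_zero, Finset.univ_inter]

lemma rr_zero (ω : Om n) : rr S R 0 ω = n - S.card := by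
  unfold rr
  rw [Ns_zero, Finset.card_sdiff_of_subset (Finset.subset_univ S), Finset.card_univ,
    Fintype.card_fin, Nat.cast_sub]
  exact (Finset.card_le_univ S).trans_eq (Fintype.card_fin n)

lemma E_Psi_zero (h : (S.card : ℝ) < n) :
    E (Psi S R 0) = S.card * n / (n - S.card) := by
  have h0 : (0:ℝ) < n - S.card := by linarith
  have h1 : ∀ ω : Om n, Psi S R 0 ω =
      ∑ v ∈ S, (n / (n - S.card : ℝ) ^ 2) * (∑ z ∈ univ \ S, e0 ω v z) ^ 2 := by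
    intro ω
    unfold Psi
    rw [Ss_zero]
    refine Finset.sum_congr rfl fun v hv => ?_
    have hvS : v ∈ Ss S R 0 ω := by rw [Ss_zero]; exact hv
    unfold Mv
    rw [xv_eq_of_mem hvS, Ns_zero, rr_zero]
    simp only [bb, sub_zero]
    rw [div_pow, mul_pow, Real.sq_sqrt (Nat.cast_nonneg _)]
    ring
  rw [E_congr h1, E_sum]
  have h2 : ∀ v ∈ S, E (fun ω : Om n =>
      (n / (n - S.card : ℝ) ^ 2) * (∑ z ∈ univ \ S, e0 ω v z) ^ 2) =
      n / (n - S.card : ℝ) := by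
    intro v hv
    rw [E_mul_left, E_sq_sum (by simp [hv])]
    have h3 : (((univ \ S : Finset (Fin n)).card : ℕ) : ℝ) = n - S.card := by
      rw [Finset.card_sdiff_of_subset (Finset.subset_univ S), Finset.card_univ,
        Fintype.card_fin, Nat.cast_sub]
      exact (Finset.card_le_univ S).trans_eq (Fintype.card_fin n)
    rw [h3]
    field_simp
  rw [Finset.sum_congr rfl h2, Finset.sum_const, nsmul_eq_mul]
  ring

/-! ### Deterministic consequences of the good event -/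

lemma abs_rho_le (t : ℕ) (ω : Om n) : |rho S R t ω| ≤ n := by
  unfold rho
  refine (Finset.abs_sum_le_sum_abs _ _).trans ?_
  refine (Finset.sum_le_sum fun v _ => abs_e0_le ω v _).trans ?_
  rw [Finset.sum_const, nsmul_eq_mul, mul_one]
  exact_mod_cast (Finset.card_le_univ _).trans_eq (Fintype.card_fin n)

lemma arho_le (t : ℕ) (ω : Om n) : arho S R t ω ≤ n := by
  unfold arho
  split_ifs
  · exact Nat.cast_nonneg n
  · exact abs_rho_le t ω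

lemma beta_comp {N M : ℝ} (hN : 0 ≤ N) (hM : 0 ≤ M) (h : M ≤ N) :
    N ^ (1 / 16 : ℝ) * M ^ (7 / 16 : ℝ) ≤ √(√N * √M) := by
  rcases hM.eq_or_lt with h0 | h0
  · rw [← h0, Real.zero_rpow (by norm_num)]; simp
  have hN0 : 0 < N := by linarith
  rw [Real.sqrt_mul (Real.sqrt_nonneg _)]
  have e1 : √(√N) = N ^ (1 / 4 : ℝ) := by
    rw [Real.sqrt_eq_rpow, Real.sqrt_eq_rpow, ← Real.rpow_mul hN]; norm_num
  have e2 : √(√M) = M ^ (1 / 4 : ℝ) := by
    rw [Real.sqrt_eq_rpow, Real.sqrt_eq_rpow, ← Real.rpow_mul hM]; norm_num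
  rw [e1, e2]
  have e3 : N ^ (1 / 4 : ℝ) = N ^ (1 / 16 : ℝ) * N ^ (3 / 16 : ℝ) := by
    rw [← Real.rpow_add hN0]; norm_num
  have e4 : M ^ (7 / 16 : ℝ) = M ^ (3 / 16 : ℝ) * M ^ (1 / 4 : ℝ) := by
    rw [← Real.rpow_add h0]; norm_num
  rw [e3, e4]
  have h3 : M ^ (3 / 16 : ℝ) ≤ N ^ (3 / 16 : ℝ) := Real.rpow_le_rpow hM h (by norm_num)
  have h5 : 0 ≤ N ^ (1 / 16 : ℝ) := Real.rpow_nonneg hN _
  have h6 : 0 ≤ M ^ (1 / 4 : ℝ) := Real.rpow_nonneg hM _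
  calc N ^ (1 / 16 : ℝ) * (M ^ (3 / 16 : ℝ) * M ^ (1 / 4 : ℝ)) =
        (N ^ (1 / 16 : ℝ) * M ^ (1 / 4 : ℝ)) * M ^ (3 / 16 : ℝ) := by ring
    _ ≤ (N ^ (1 / 16 : ℝ) * M ^ (1 / 4 : ℝ)) * N ^ (3 / 16 : ℝ) :=
        mul_le_mul_of_nonneg_left h3 (mul_nonneg h5 h6)
    _ = _ := by ring

lemma OpB.weaken {ω : Om n} {A : Finset (Fin n)} {β β' : ℝ} (h : OpB ω A β) (hb : β ≤ β') :
    OpB ω A β' := by
  intro f g
  refine (h f g).trans ?_
  have := Real.sqrt_nonneg (∑ v ∈ A, f v ^ 2)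
  have := Real.sqrt_nonneg (∑ z ∈ A, g z ^ 2)
  apply mul_le_mul_of_nonneg_right _ (Real.sqrt_nonneg _)
  exact mul_le_mul_of_nonneg_right hb (Real.sqrt_nonneg _)

/-- The operator norm bound along the process. -/
noncomputable def bet (C : ℝ) (n t : ℕ) : ℝ := C * √(√(n : ℝ) * √((n - t : ℕ) : ℝ))

lemma bet_nonneg {C : ℝ} (hC : 1 ≤ C) (t : ℕ) : 0 ≤ bet C n t := by unfold bet; positivity

lemma bet_le {C : ℝ} (hC : 1 ≤ C) (t : ℕ) : bet C n t ≤ C * √(n : ℝ) := by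
  unfold bet
  apply mul_le_mul_of_nonneg_left _ (by linarith)
  apply Real.sqrt_le_sqrt
  have : √((n - t : ℕ) : ℝ) ≤ √(n : ℝ) := Real.sqrt_le_sqrt (by exact_mod_cast Nat.sub_le n t)
  calc √(n : ℝ) * √((n - t : ℕ) : ℝ) ≤ √(n : ℝ) * √(n : ℝ) :=
        mul_le_mul_of_nonneg_left this (Real.sqrt_nonneg _)
    _ = n := Real.mul_self_sqrt (Nat.cast_nonneg _)

lemma Good.op {C : ℝ} (hC : 1 ≤ C) {ω : Om n} (hg : Good C ω) {t : ℕ} (ht : t ≤ n)
    (hm : (n : ℝ) ^ (2 / 5 : ℝ) ≤ ((n - t : ℕ) : ℝ)) : OpB ω (As S R t ω) (bet C n t) := by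
  have hc : ((As S R t ω).card : ℝ) = ((n - t : ℕ) : ℝ) := by rw [card_As S R ht ω]
  have h1 := hg (As S R t ω) (by rw [hc]; exact hm)
  apply h1.weaken
  rw [hc]
  unfold bet
  rw [mul_assoc]
  apply mul_le_mul_of_nonneg_left _ (by linarith)
  exact beta_comp (Nat.cast_nonneg _) (Nat.cast_nonneg _) (by exact_mod_cast Nat.sub_le n t)

/-- Sum of the `arho` in expectation. -/
lemma E_arho_sum {C : ℝ} (hC : 1 ≤ C) {T : ℕ} (hT : T < n)
    (hk : 2 * ((S.card : ℝ) + 1) ≤ ((n - T : ℕ) : ℝ)) (hkn : (S.card : ℝ) ≤ √(n : ℝ))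
    (hm : (n : ℝ) ^ (2 / 5 : ℝ) ≤ ((n - T : ℕ) : ℝ))
    (hG : (n : ℝ) ^ 2 * Pr (fun ω : Om n => ¬ Good C ω) ≤ 1) :
    ∀ s ≤ T, ∑ t ∈ Ico s T, E (arho S R t) ≤ 8 * C * √(n : ℝ) * ((n - s : ℕ) : ℝ) := by
  intro s hs
  rw [← E_sum]
  have hn : (1:ℝ) ≤ n := by exact_mod_cast (by omega : 1 ≤ n)
  have hsn : 1 ≤ √(n : ℝ) := Real.one_le_sqrt.2 hn
  have hms : ((n - T : ℕ) : ℝ) ≤ ((n - s : ℕ) : ℝ) := m_anti hs
  have hms1 : (1:ℝ) ≤ ((n - s : ℕ) : ℝ) := by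
    have hk0 : (0:ℝ) ≤ S.card := Nat.cast_nonneg _
    linarith
  have h1 : ∀ ω : Om n, Good C ω → (∑ t ∈ Ico s T, arho S R t ω) ≤
      7 * C * √(n : ℝ) * ((n - s : ℕ) : ℝ) := by
    intro ω hg
    have h2 := rho_sum (S := S) (R := R) hs hT.le (bet_nonneg hC s)
      (hg.op hC (by omega) (hm.trans hms)) (by linarith)
    refine h2.trans ?_
    have h3 := bet_le (n := n) hC s
    have h4 : √(n : ℝ) ≤ C * √(n : ℝ) := le_mul_of_one_le_left (by positivity) hC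
    have h5 : 5 * bet C n s + 2 * S.card ≤ 7 * C * √(n : ℝ) := by linarith
    calc ((n - s : ℕ) : ℝ) * (5 * bet C n s + 2 * S.card) ≤
          ((n - s : ℕ) : ℝ) * (7 * C * √(n : ℝ)) :=
          mul_le_mul_of_nonneg_left h5 (by linarith)
      _ = _ := by ring
  have h2 := E_le_good (f := fun ω => ∑ t ∈ Ico s T, arho S R t ω)
    (g := fun _ => 7 * C * √(n : ℝ) * ((n - s : ℕ) : ℝ)) (s := fun ω => Good C ω)
    (B := (n : ℝ) ^ 2) h1 (fun ω => by positivity) (fun ω => by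
      refine (Finset.sum_le_sum fun t _ => arho_le t ω).trans ?_
      rw [Finset.sum_const, nsmul_eq_mul, Nat.card_Ico, pow_two]
      apply mul_le_mul_of_nonneg_right _ (by linarith)
      exact_mod_cast (by omega : T - s ≤ n))
  rw [E_const] at h2
  have h3 : 1 ≤ C * √(n : ℝ) * ((n - s : ℕ) : ℝ) :=
    one_le_mul_of_one_le_of_one_le (one_le_mul_of_one_le_of_one_le hC hsn) hms1
  linarith

/-! ### The killed planted vertices are far below -/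

lemma kill_num {θ κ C s : ℝ} (hκ : 0 < κ) (hC : 1 ≤ C) (hs : 4 / κ ≤ s) (hs0 : 0 < s)
    (hθ : (16 * C / κ) ^ 4 ≤ θ ^ 2) (hθ0 : 0 < θ) :
    4 * C * (θ * √θ) - κ * θ ^ 2 + θ ^ 2 / s ≤ - (κ * θ ^ 2 / 2) := by
  have h1 : 16 * C / κ ≤ √θ := by
    apply Real.le_sqrt_of_sq_le
    have h2 : ((16 * C / κ) ^ 2) ^ 2 ≤ θ ^ 2 := by rw [← pow_mul]; exact hθ
    exact le_of_sq_le_sq h2 hθ0.le |> fun h => h
  have h2 : 16 * C ≤ κ * √θ := by
    rw [div_le_iff₀ hκ] at h1; linarith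
  have h3 : √θ * √θ = θ := Real.mul_self_sqrt hθ0.le
  have h4 : 4 * C * (θ * √θ) ≤ κ * θ ^ 2 / 4 := by
    have : 16 * C * (θ * √θ) ≤ κ * √θ * (θ * √θ) :=
      mul_le_mul_of_nonneg_right h2 (by positivity)
    have e : κ * √θ * (θ * √θ) = κ * θ ^ 2 := by
      calc κ * √θ * (θ * √θ) = κ * θ * (√θ * √θ) := by ring
        _ = _ := by rw [h3]; ring
    linarith
  have h5 : θ ^ 2 / s ≤ κ * θ ^ 2 / 4 := by
    rw [div_le_iff₀ hs0]
    rw [div_le_iff₀ hκ] at hs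
    nlinarith [sq_nonneg θ]
  linarith

lemma kill_lb {C κ : ℝ} (hC : 1 ≤ C) (hκ : 0 < κ) {t : ℕ} (ht : t < n)
    (hk : 2 * ((S.card : ℝ) + 1) ≤ ((n - t : ℕ) : ℝ)) {ω : Om n}
    (hop : OpB ω (As S R t ω) (bet C n t)) (hn : 4 / κ ≤ √(n : ℝ))
    (hθ : (16 * C / κ) ^ 4 * ((n - t : ℕ) : ℝ) ≤ n)
    (hu : uu S R t ω ∈ S) (hkt : κ * √(n : ℝ) ≤ ((Ss S R t ω).card : ℝ)) :
    κ ^ 2 / 4 ≤ (√((n - t : ℕ) : ℝ) / √(n : ℝ)) ^ 4 * Kil S R t ω := by
  have hk0 : (0:ℝ) ≤ S.card := Nat.cast_nonneg _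
  obtain ⟨N, hN⟩ : ∃ N, N = √(n : ℝ) := ⟨_, rfl⟩
  obtain ⟨μ, hμ⟩ : ∃ μ, μ = √((n - t : ℕ) : ℝ) := ⟨_, rfl⟩
  have hm1 : (1:ℝ) ≤ ((n - t : ℕ) : ℝ) := by linarith
  have hn1 : (1:ℝ) ≤ n := by
    have : ((n - t : ℕ) : ℝ) ≤ n := by exact_mod_cast Nat.sub_le n t
    linarith
  have hN1 : 1 ≤ N := by rw [hN]; exact Real.one_le_sqrt.2 hn1
  have hμ1 : 1 ≤ μ := by rw [hμ]; exact Real.one_le_sqrt.2 hm1
  have hNsq : N ^ 2 = n := by rw [hN]; exact Real.sq_sqrt (by linarith)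
  have hμsq : μ ^ 2 = ((n - t : ℕ) : ℝ) := by rw [hμ]; exact Real.sq_sqrt (by linarith)
  have hrlo := rr_half (S := S) (R := R) ht.le hk ω
  have hrhi := rr_le (S := S) (R := R) ht.le ω
  have hr0 : 0 < rr S R t ω := by linarith
  have hcard : ((As S R t ω).card : ℝ) = ((n - t : ℕ) : ℝ) := by rw [card_As S R ht.le ω]
  have hb := bet_nonneg (n := n) hC t
  have hx := (abs_le.1 (xbar_le hb hop hr0 (by rw [hcard]; linarith))).2
  have hyu := yu_le_xbar hr0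
  have hbb := bb_nonneg (S := S) (R := R) ht.le ω (by linarith)
  have hbet : bet C n t = C * √(N * μ) := by unfold bet; rw [hN, hμ]
  rw [← hN] at hkt hn
  rw [← hμsq] at hrlo hrhi
  rw [← hμsq, ← hNsq] at hθ
  -- the bound for `Mv`
  have hMv : Mv S R t ω (uu S R t ω) ≤ - (κ * (N / μ) ^ 2 / 2) := by
    rw [Mv_uu_S hu]
    unfold Bt
    rw [← hN]
    have h1 : N * yv S R t ω (uu S R t ω) / rr S R t ω ≤ 4 * C * ((N / μ) * √(N / μ)) := by
      have h2 : N * yv S R t ω (uu S R t ω) ≤ N * (2 * (C * √(N * μ))) := by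
        apply mul_le_mul_of_nonneg_left _ (by linarith)
        rw [← hbet]; linarith
      rw [div_le_iff₀ hr0]
      refine h2.trans ?_
      have e1 : √(N * μ) = μ * √(N / μ) := by
        have : N * μ = μ ^ 2 * (N / μ) := by field_simp
        rw [this, Real.sqrt_mul (by positivity), Real.sqrt_sq (by linarith)]
      rw [e1]
      have h3 : μ ^ 2 ≤ 2 * rr S R t ω := by linarith
      have h4 : 0 ≤ N * C * √(N / μ) := by positivity
      have h5 : μ ^ 2 * (N * C * √(N / μ)) ≤ 2 * rr S R t ω * (N * C * √(N / μ)) :=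
        mul_le_mul_of_nonneg_right h3 h4
      calc N * (2 * (C * (μ * √(N / μ)))) = 2 * (μ ^ 2 * (N * C * √(N / μ))) / μ := by
            field_simp
        _ ≤ 2 * (2 * rr S R t ω * (N * C * √(N / μ))) / μ := by
            apply div_le_div_of_nonneg_right _ (by linarith)
            linarith
        _ = _ := by field_simp; norm_num
    have h2 : κ * (N / μ) ^ 2 - (N / μ) ^ 2 / N ≤
        N * (((Ss S R t ω).card : ℝ) - 1) / rr S R t ω := by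
      have h3 : N * (κ * N - 1) ≤ N * (((Ss S R t ω).card : ℝ) - 1) :=
        mul_le_mul_of_nonneg_left (by linarith) (by linarith)
      have h4 : 0 ≤ N * (κ * N - 1) := by
        have : 4 ≤ κ * N := by rw [div_le_iff₀ hκ] at hn; linarith
        exact mul_nonneg (by linarith) (by linarith)
      calc κ * (N / μ) ^ 2 - (N / μ) ^ 2 / N = N * (κ * N - 1) / μ ^ 2 := by field_simp
        _ ≤ N * (κ * N - 1) / rr S R t ω := div_le_div_of_nonneg_left h4 hr0 hrhi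
        _ ≤ _ := div_le_div_of_nonneg_right h3 hr0.le
    have h5 := kill_num (θ := N / μ) (κ := κ) (C := C) (s := N) hκ hC hn (by linarith)
      (by rw [div_pow N μ 2, le_div_iff₀ (by positivity)]; exact hθ) (by positivity)
    linarith
  have hsq : (κ * (N / μ) ^ 2 / 2) ^ 2 ≤ Mv S R t ω (uu S R t ω) ^ 2 := by
    have h0 : 0 ≤ κ * (N / μ) ^ 2 / 2 := by positivity
    nlinarith
  unfold Kil
  rw [if_pos hu, ← hN, ← hμ]
  calc κ ^ 2 / 4 = (μ / N) ^ 4 * (κ * (N / μ) ^ 2 / 2) ^ 2 := by field_simp; norm_num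
    _ ≤ _ := mul_le_mul_of_nonneg_left hsq (by positivity)

/-- Counting the planted vertices killed while there are many. -/
lemma count_kill {s : ℕ} {ω : Om n} {b : ℝ} : ∀ T, s ≤ T → T ≤ n →
    ((Ss S R s ω).card : ℝ) - max ((Ss S R T ω).card : ℝ) b ≤
    ∑ t ∈ Ico s T, if uu S R t ω ∈ S ∧ b ≤ ((Ss S R t ω).card : ℝ) then (1:ℝ) else 0 := by
  intro T hT
  induction T, hT using Nat.le_induction with
  | base => intro _; simp
  | succ T hT ih =>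
    intro hTn
    have ih := ih (by omega)
    rw [Finset.sum_Ico_succ_top hT]
    by_cases hu : uu S R T ω ∈ S
    · have huA := uu_mem' S R (by omega : T < n) ω
      have huS : uu S R T ω ∈ Ss S R T ω := (mem_Ss S R).2 ⟨huA, hu⟩
      have hc : ((Ss S R (T + 1) ω).card : ℝ) = (Ss S R T ω).card - 1 := by
        rw [Ss_succ_of_mem S R hu, Finset.card_erase_of_mem huS]
        have : 1 ≤ (Ss S R T ω).card := Finset.card_pos.2 ⟨_, huS⟩
        push_cast [Nat.cast_sub this]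
        ring
      rw [hc]
      by_cases hb : b ≤ ((Ss S R T ω).card : ℝ)
      · rw [if_pos ⟨hu, hb⟩]
        rw [max_eq_left hb] at ih
        have : ((Ss S R T ω).card : ℝ) - 1 ≤ max (((Ss S R T ω).card : ℝ) - 1) b :=
          le_max_left _ _
        linarith
      · rw [if_neg (fun h => hb h.2)]
        push Not at hb
        rw [max_eq_right hb.le] at ih
        rw [max_eq_right (by linarith)]
        linarith
    · rw [Ss_succ_of_notMem S R hu, if_neg (fun h => hu h.1)]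
      linarith

/-- The one step inequality in the form used by the summation lemmas. -/
lemma psi_step' {C : ℝ} (hC : 1 ≤ C) {t : ℕ} (ht : t < n)
    (hk : 2 * ((S.card : ℝ) + 1) ≤ ((n - t : ℕ) : ℝ)) (hkn : (S.card : ℝ) ≤ √(n : ℝ))
    (hm : (n : ℝ) ^ (2 / 5 : ℝ) ≤ ((n - t : ℕ) : ℝ)) {δ : ℝ}
    (hG : Pr (fun ω : Om n => ¬ Good C ω) ≤ δ) :
    E (Psi S R (t + 1)) + E (Kil S R t) ≤ E (Psi S R t) * (1 + 1 / (2 * ((n - t : ℕ) : ℝ))) +
      (1600196 * C ^ 4 * (√(n : ℝ) ^ 3 / √((n - t : ℕ) : ℝ) ^ 5 * (√(n : ℝ) + E (arho S R t))) +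
      552 * (n : ℝ) ^ 4 * δ) := by
  have hk0 : (0:ℝ) ≤ S.card := Nat.cast_nonneg _
  have hm1 : (1:ℝ) ≤ ((n - t : ℕ) : ℝ) := by linarith
  have hmn : ((n - t : ℕ) : ℝ) ≤ n := by exact_mod_cast Nat.sub_le n t
  have hn1 : (1:ℝ) ≤ n := by linarith
  obtain ⟨N, hN⟩ : ∃ N, N = √(n : ℝ) := ⟨_, rfl⟩
  obtain ⟨μ, hμ⟩ : ∃ μ, μ = √((n - t : ℕ) : ℝ) := ⟨_, rfl⟩
  have hN1 : 1 ≤ N := by rw [hN]; exact Real.one_le_sqrt.2 hn1
  have hμ1 : 1 ≤ μ := by rw [hμ]; exact Real.one_le_sqrt.2 hm1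
  have hNsq : N ^ 2 = n := by rw [hN]; exact Real.sq_sqrt (by linarith)
  have hμsq : μ ^ 2 = ((n - t : ℕ) : ℝ) := by rw [hμ]; exact Real.sq_sqrt (by linarith)
  have hμN : μ ≤ N := by rw [hμ, hN]; exact Real.sqrt_le_sqrt hmn
  have h := psi_step (S := S) (R := R) ht hk hkn (β := bet C n t) (C := C) (L := N / μ)
    (bet_nonneg hC t) hC (by rw [le_div_iff₀ (by linarith)]; linarith)
    (by rw [← hN]; exact div_le_self (by linarith) hμ1)
    (by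
      unfold bet
      rw [← hN, ← hμ, ← hμsq, mul_pow, Real.sq_sqrt (by positivity)]
      field_simp)
  have hP : Pr (fun ω => ¬ OpB ω (As S R t ω) (bet C n t)) ≤ δ := by
    refine (Pr_mono fun ω hω hg => hω ?_).trans hG
    exact hg.op hC ht.le hm
  have h2 : 552 * (n : ℝ) ^ 4 * Pr (fun ω => ¬ OpB ω (As S R t ω) (bet C n t)) ≤
      552 * (n : ℝ) ^ 4 * δ := mul_le_mul_of_nonneg_left hP (by positivity)
  have e1 : (n : ℝ) * (N / μ) / ((n - t : ℕ) : ℝ) ^ 2 = N ^ 3 / μ ^ 5 := by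
    rw [← hμsq, ← hNsq]
    field_simp
  rw [e1, ← hN] at h
  rw [← hN, ← hμ]
  linarith

lemma pb_main {C κ : ℝ} (hC : 1 ≤ C) (hκ : 0 < κ) {s T : ℕ} (hsT : s ≤ T) (hT : T < n)
    (hk : 2 * ((S.card : ℝ) + 1) ≤ ((n - T : ℕ) : ℝ)) (hkn : (S.card : ℝ) ≤ √(n : ℝ))
    (hm : (n : ℝ) ^ (2 / 5 : ℝ) ≤ ((n - T : ℕ) : ℝ))
    (hG : Pr (fun ω : Om n => ¬ Good C ω) ≤ 1 / (n : ℝ) ^ 20)
    (hn552 : (552 : ℝ) ≤ n)
    (hn4 : 4 / κ ≤ √(n : ℝ))
    (hθ : (16 * C / κ) ^ 4 * ((n - s : ℕ) : ℝ) ≤ n) :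
    Pr (fun ω => Good C ω ∧ 2 * κ * √(n : ℝ) ≤ ((Ss S R s ω).card : ℝ) ∧
      ((Ss S R T ω).card : ℝ) < κ * √(n : ℝ)) ≤
      85 * C * (1600196 * C ^ 4) * √((n - s : ℕ) : ℝ) / (κ ^ 2 / 4 * (κ * √(n : ℝ))) := by
  have hk0 : (0:ℝ) ≤ S.card := Nat.cast_nonneg _
  have hn1 : (1:ℝ) ≤ n := by linarith
  have hn0 : (0:ℝ) < n := by linarith
  have hsn : 1 ≤ √(n : ℝ) := Real.one_le_sqrt.2 hn1
  have hsn2 : √(n : ℝ) ≤ n := by
    rw [Real.sqrt_le_left (by linarith)]; nlinarith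
  have hC4 : 1 ≤ 1600196 * C ^ 4 := by
    have : 1 ≤ C ^ 4 := one_le_pow₀ hC
    linarith
  -- error terms
  have herr : (n : ℝ) * n * (552 * (n : ℝ) ^ 4 * (1 / (n : ℝ) ^ 20)) ≤ 1 := by
    have e : (n : ℝ) * n * (552 * (n : ℝ) ^ 4 * (1 / (n : ℝ) ^ 20)) = 552 / (n : ℝ) ^ 14 := by
      field_simp
    rw [e, div_le_one (by positivity)]
    calc (552:ℝ) ≤ n := hn552
      _ ≤ (n : ℝ) ^ 14 := le_self_pow₀ hn1 (by norm_num)
  have herr0 : 0 ≤ 552 * (n : ℝ) ^ 4 * (1 / (n : ℝ) ^ 20) := by positivity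
  have herr1 : (n : ℝ) * √(n : ℝ) * (552 * (n : ℝ) ^ 4 * (1 / (n : ℝ) ^ 20)) ≤ 1 := by
    refine le_trans ?_ herr
    apply mul_le_mul_of_nonneg_right _ herr0
    exact mul_le_mul_of_nonneg_left hsn2 hn0.le
  have herr2 : (n : ℝ) * (552 * (n : ℝ) ^ 4 * (1 / (n : ℝ) ^ 20)) ≤ 1 := by
    refine le_trans ?_ herr
    apply mul_le_mul_of_nonneg_right _ herr0
    nlinarith
  have hGn : (n : ℝ) ^ 2 * Pr (fun ω : Om n => ¬ Good C ω) ≤ 1 := by
    calc (n : ℝ) ^ 2 * Pr (fun ω : Om n => ¬ Good C ω) ≤ (n : ℝ) ^ 2 * (1 / (n : ℝ) ^ 20) :=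
          mul_le_mul_of_nonneg_left hG (by positivity)
      _ = 1 / (n : ℝ) ^ 18 := by field_simp
      _ ≤ 1 := by
          rw [div_le_one (by positivity)]
          exact one_le_pow₀ hn1
  have ha : ∀ t, 0 ≤ E (Psi S R t) := fun t => E_nonneg fun ω => Psi_nonneg t ω
  have hq : ∀ t, 0 ≤ E (Kil S R t) := fun t => E_nonneg fun ω => Kil_nonneg t ω
  have hr : ∀ t, 0 ≤ E (arho S R t) := fun t => E_nonneg fun ω => arho_nonneg t ω
  have hstep : ∀ t < T, E (Psi S R (t + 1)) + E (Kil S R t) ≤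
      E (Psi S R t) * (1 + 1 / (2 * ((n - t : ℕ) : ℝ))) +
      (1600196 * C ^ 4 * (√(n : ℝ) ^ 3 / √((n - t : ℕ) : ℝ) ^ 5 * (√(n : ℝ) + E (arho S R t))) +
      552 * (n : ℝ) ^ 4 * (1 / (n : ℝ) ^ 20)) := by
    intro t ht
    have hmt : ((n - T : ℕ) : ℝ) ≤ ((n - t : ℕ) : ℝ) := m_anti ht.le
    exact psi_step' hC (by omega) (hk.trans hmt) hkn (hm.trans hmt) hG
  have hR := E_arho_sum (S := S) (R := R) hC hT hk hkn hm hGn
  have hcn : (S.card : ℝ) < n := by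
    have : ((n - T : ℕ) : ℝ) ≤ n := by exact_mod_cast Nat.sub_le n T
    linarith
  have ha0 : E (Psi S R 0) ≤ 2 * √(n : ℝ) := by
    rw [E_Psi_zero hcn, div_le_iff₀ (by linarith)]
    have h2 : 2 * (S.card : ℝ) ≤ n := by
      have : ((n - T : ℕ) : ℝ) ≤ n := by exact_mod_cast Nat.sub_le n T
      linarith
    have h3 : (S.card : ℝ) * n ≤ √(n : ℝ) * n := mul_le_mul_of_nonneg_right hkn hn0.le
    have h4 : √(n : ℝ) * n ≤ √(n : ℝ) * (2 * (n - S.card)) :=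
      mul_le_mul_of_nonneg_left (by linarith) (Real.sqrt_nonneg _)
    linarith
  have hA := absA hT hC4 hC herr0 herr1 ha hq hr hstep hR ha0
  have hB := absB hT hsT hC4 hC herr0 herr2 ha hr hstep hR hA
  have hEX : E (fun ω => ∑ t ∈ Ico s T, (√((n - t : ℕ) : ℝ) / √(n : ℝ)) ^ 4 * Kil S R t ω) ≤
      85 * C * (1600196 * C ^ 4) * √((n - s : ℕ) : ℝ) := by
    rw [E_sum]
    refine le_of_eq_of_le ?_ hB
    exact Finset.sum_congr rfl fun t _ => E_mul_left _ _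
  have hc0 : 0 < κ ^ 2 / 4 * (κ * √(n : ℝ)) := by positivity
  have hMk := Pr_le_div (n := n)
    (f := fun ω => ∑ t ∈ Ico s T, (√((n - t : ℕ) : ℝ) / √(n : ℝ)) ^ 4 * Kil S R t ω)
    (s := fun ω => Good C ω ∧ 2 * κ * √(n : ℝ) ≤ ((Ss S R s ω).card : ℝ) ∧
      ((Ss S R T ω).card : ℝ) < κ * √(n : ℝ)) hc0
    (fun ω => Finset.sum_nonneg fun t _ => mul_nonneg (by positivity) (Kil_nonneg t ω)) (by
      rintro ω ⟨hg, h1, h2⟩
      have h3 := count_kill (S := S) (R := R) (s := s) (ω := ω) (b := κ * √(n : ℝ)) T hsT hT.le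
      rw [max_eq_right h2.le] at h3
      have h4 : κ * √(n : ℝ) ≤ ∑ t ∈ Ico s T,
          if uu S R t ω ∈ S ∧ κ * √(n : ℝ) ≤ ((Ss S R t ω).card : ℝ) then (1:ℝ) else 0 := by
        linarith
      calc κ ^ 2 / 4 * (κ * √(n : ℝ)) ≤ κ ^ 2 / 4 * ∑ t ∈ Ico s T,
          (if uu S R t ω ∈ S ∧ κ * √(n : ℝ) ≤ ((Ss S R t ω).card : ℝ) then (1:ℝ) else 0) :=
            mul_le_mul_of_nonneg_left h4 (by positivity)
        _ = ∑ t ∈ Ico s T, κ ^ 2 / 4 *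
          (if uu S R t ω ∈ S ∧ κ * √(n : ℝ) ≤ ((Ss S R t ω).card : ℝ) then (1:ℝ) else 0) := by
            rw [Finset.mul_sum]
        _ ≤ _ := by
            apply Finset.sum_le_sum
            intro t ht
            rw [Finset.mem_Ico] at ht
            have hmt : ((n - T : ℕ) : ℝ) ≤ ((n - t : ℕ) : ℝ) := m_anti ht.2.le
            have hmt' : ((n - t : ℕ) : ℝ) ≤ ((n - s : ℕ) : ℝ) := m_anti ht.1
            split_ifs with hc
            · rw [mul_one]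
              apply kill_lb hC hκ (by omega) (hk.trans hmt)
                (hg.op hC (by omega) (hm.trans hmt)) hn4 _ hc.1 hc.2
              refine le_trans ?_ hθ
              exact mul_le_mul_of_nonneg_left hmt' (by positivity)
            · rw [mul_zero]
              exact mul_nonneg (by positivity) (Kil_nonneg t ω))
  refine hMk.trans ?_
  exact div_le_div_of_nonneg_right hEX hc0.le

lemma final_num {K q e κ s : ℝ} (hK : 0 < K) (h : q ≤ e * κ ^ 3 / (8 * K) * s) :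
    K * q ≤ e / 2 * (κ ^ 2 / 4 * (κ * s)) := by
  calc K * q ≤ K * (e * κ ^ 3 / (8 * K) * s) := mul_le_mul_of_nonneg_left h hK.le
    _ = e / 2 * (κ ^ 2 / 4 * (κ * s)) := by field_simp; ring

theorem pb : PBStmt := by
  intro κ₀ hκ₀ ε hε
  obtain ⟨C, hC, hGood⟩ := good_prob
  obtain ⟨κ, hκdef⟩ : ∃ κ, κ = κ₀ / 2 := ⟨_, rfl⟩
  have hκ : 0 < κ := by rw [hκdef]; positivity
  obtain ⟨K, hK⟩ : ∃ K, K = 85 * C * (1600196 * C ^ 4) := ⟨_, rfl⟩
  have hK0 : 0 < K := by rw [hK]; positivity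
  obtain ⟨δ, hδ⟩ : ∃ δ, δ = (ε * κ ^ 3 / (8 * K)) ^ 2 := ⟨_, rfl⟩
  have hδ0 : 0 < δ := by rw [hδ]; positivity
  obtain ⟨Θ, hΘ⟩ : ∃ Θ, Θ = 1 + 2 / δ + 2 * (16 * C / κ) ^ 4 := ⟨_, rfl⟩
  have hb1 : 0 < 2 / δ := by positivity
  have hb2 : 0 < 2 * (16 * C / κ) ^ 4 := by positivity
  have hΘ1 : 1 ≤ Θ := by linarith
  refine ⟨Θ, hΘ1, ?_⟩
  have hEnd := endgame C κ hC hκ
  have hcast : Tendsto (fun n : ℕ => (n : ℝ)) atTop atTop := tendsto_natCast_atTop_atTop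
  -- eventual facts
  have ev1 : ∀ᶠ n : ℕ in atTop, (n : ℝ) ^ (2 / 5 : ℝ) + 1 ≤ (n : ℝ) ^ (5 / 8 : ℝ) := by
    have h1 : ∀ᶠ x : ℝ in atTop, x ^ (2 / 5 : ℝ) + 1 ≤ x ^ (5 / 8 : ℝ) := by
      have h2 : ∀ᶠ x : ℝ in atTop, 2 ≤ x ^ (9 / 40 : ℝ) :=
        (tendsto_rpow_atTop (by norm_num)).eventually_ge_atTop 2
      filter_upwards [h2, eventually_ge_atTop 1] with x hx hx1
      have e : x ^ (5 / 8 : ℝ) = x ^ (2 / 5 : ℝ) * x ^ (9 / 40 : ℝ) := by
        rw [← Real.rpow_add (by linarith)]; norm_num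
      have h3 : 1 ≤ x ^ (2 / 5 : ℝ) := Real.one_le_rpow hx1 (by norm_num)
      rw [e]
      nlinarith
    exact hcast.eventually h1
  have ev2 : ∀ᶠ n : ℕ in atTop, 2 * (√(n : ℝ) + 1) + 1 ≤ (n : ℝ) ^ (5 / 8 : ℝ) := by
    have h1 : ∀ᶠ x : ℝ in atTop, 2 * (√x + 1) + 1 ≤ x ^ (5 / 8 : ℝ) := by
      have h2 : ∀ᶠ x : ℝ in atTop, 5 ≤ x ^ (1 / 8 : ℝ) :=
        (tendsto_rpow_atTop (by norm_num)).eventually_ge_atTop 5
      filter_upwards [h2, eventually_ge_atTop 1] with x hx hx1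
      have e : x ^ (5 / 8 : ℝ) = √x * x ^ (1 / 8 : ℝ) := by
        rw [Real.sqrt_eq_rpow, ← Real.rpow_add (by linarith)]; norm_num
      have h3 : 1 ≤ √x := Real.one_le_sqrt.2 hx1
      rw [e]
      nlinarith
    exact hcast.eventually h1
  have ev3 : ∀ᶠ n : ℕ in atTop, (n : ℝ) ^ (5 / 8 : ℝ) ≤ n / Θ := by
    have h1 : ∀ᶠ x : ℝ in atTop, x ^ (5 / 8 : ℝ) ≤ x / Θ := by
      have h2 : ∀ᶠ x : ℝ in atTop, Θ ≤ x ^ (3 / 8 : ℝ) :=
        (tendsto_rpow_atTop (by norm_num)).eventually_ge_atTop Θ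
      filter_upwards [h2, eventually_ge_atTop 1] with x hx hx1
      rw [le_div_iff₀ (by linarith)]
      calc x ^ (5 / 8 : ℝ) * Θ ≤ x ^ (5 / 8 : ℝ) * x ^ (3 / 8 : ℝ) :=
            mul_le_mul_of_nonneg_left hx (Real.rpow_nonneg (by linarith) _)
        _ = x := by
            rw [← Real.rpow_add (by linarith)]; norm_num
    exact hcast.eventually h1
  have ev4 : ∀ᶠ n : ℕ in atTop, 4 / κ ≤ √(n : ℝ) := by
    have h1 : Tendsto (fun x : ℝ => √x) atTop atTop := Real.tendsto_sqrt_atTop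
    exact hcast.eventually (h1.eventually_ge_atTop (4 / κ))
  filter_upwards [hGood, hEnd, ev1, ev2, ev3, ev4, hcast.eventually_ge_atTop 552,
    hcast.eventually_ge_atTop Θ, hcast.eventually_ge_atTop (2 / ε)] with
    n hG hE h1 h2 h3 h4 h5 h6 h7 S R hS
  have hn0 : (0:ℝ) < n := by linarith
  have hn1 : (1:ℝ) ≤ n := by linarith
  have hkn : (S.card : ℝ) ≤ √(n : ℝ) := by
    rw [hS]
    exact Real.nat_sqrt_le_real_sqrt
  set P := ⌊(n : ℝ) ^ (5 / 8 : ℝ)⌋₊ with hP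
  set Q := ⌈(n : ℝ) / Θ⌉₊ with hQ
  have hPle : (P : ℝ) ≤ (n : ℝ) ^ (5 / 8 : ℝ) := Nat.floor_le (Real.rpow_nonneg hn0.le _)
  have hPge : (n : ℝ) ^ (5 / 8 : ℝ) - 1 < P := Nat.sub_one_lt_floor _
  have hQge : (n : ℝ) / Θ ≤ Q := Nat.le_ceil _
  have hQle : (Q : ℝ) < n / Θ + 1 := Nat.ceil_lt_add_one (by positivity)
  have hPQ : P ≤ Q := by
    have : (P : ℝ) ≤ Q := by linarith
    exact_mod_cast this
  have hQn : Q ≤ n := by
    rw [hQ, Nat.ceil_le]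
    exact div_le_self hn0.le hΘ1
  have hsn1 : 1 ≤ √(n : ℝ) := Real.one_le_sqrt.2 hn1
  have hP1 : 1 ≤ P := by
    have : (0:ℝ) < P := by linarith
    exact_mod_cast this
  have eT : n - (n - P) = P := by omega
  have eS : n - (n - Q) = Q := by omega
  have hQ2 : (Q : ℝ) ≤ 2 * n / Θ := by
    have : 1 ≤ (n : ℝ) / Θ := by rw [le_div_iff₀ (by linarith)]; linarith
    have e : 2 * n / Θ = n / Θ + n / Θ := by ring
    rw [e]; linarith
  have hθ : (16 * C / κ) ^ 4 * ((n - (n - Q) : ℕ) : ℝ) ≤ n := by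
    rw [eS]
    calc (16 * C / κ) ^ 4 * (Q : ℝ) ≤ (16 * C / κ) ^ 4 * (2 * n / Θ) :=
          mul_le_mul_of_nonneg_left hQ2 (by positivity)
      _ = (2 * (16 * C / κ) ^ 4) * n / Θ := by ring
      _ ≤ Θ * n / Θ := by
          apply div_le_div_of_nonneg_right _ (by linarith)
          exact mul_le_mul_of_nonneg_right (by linarith) hn0.le
      _ = n := by field_simp
  have hmain := pb_main (S := S) (R := R) (s := n - Q) (T := n - P) hC hκ (by omega) (by omega)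
    (by rw [eT]; linarith) hkn (by rw [eT]; linarith) hG h5 h4 hθ
  rw [eS, ← hK] at hmain
  have hincl : Pr (fun ω => κ₀ * √(n : ℝ) ≤ ((Ss S R (n - Q) ω).card : ℝ) ∧
      ¬ ∃ v ∈ S, v ∈ terminal (Hg S ω) R) ≤
      Pr (fun ω => ¬ Good C ω ∨ (Good C ω ∧ 2 * κ * √(n : ℝ) ≤ ((Ss S R (n - Q) ω).card : ℝ) ∧
      ((Ss S R (n - P) ω).card : ℝ) < κ * √(n : ℝ))) := by
    apply Pr_mono
    rintro ω ⟨a1, a2⟩
    by_cases hg : Good C ω
    · right
      refine ⟨hg, by rw [hκdef]; linarith, ?_⟩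
      by_contra hcon
      push Not at hcon
      refine a2 (hE S R ω hS.le hg ⟨n - P, by omega, ?_, hcon⟩)
      have b1 : ((Ns S R (n - P) ω).card : ℝ) ≤ ((As S R (n - P) ω).card : ℝ) := by
        exact_mod_cast Finset.card_le_card (Ns_sub_As _ ω)
      rw [card_As S R (by omega) ω, eT] at b1
      linarith
    · left; exact hg
  refine hincl.trans ((Pr_or_le _ _).trans ?_)
  have hc1 : Pr (fun ω : Om n => ¬ Good C ω) ≤ ε / 2 := by
    refine hG.trans ?_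
    have c1 : 1 / (n : ℝ) ^ 20 ≤ 1 / n :=
      one_div_le_one_div_of_le hn0 (le_self_pow₀ hn1 (by norm_num))
    have c2 : 1 / (n : ℝ) ≤ ε / 2 := by
      rw [div_le_iff₀ hn0]
      rw [div_le_iff₀ hε] at h7
      linarith
    linarith
  have hc2 : K * √(Q : ℝ) / (κ ^ 2 / 4 * (κ * √(n : ℝ))) ≤ ε / 2 := by
    have d1 : √(Q : ℝ) ≤ ε * κ ^ 3 / (8 * K) * √(n : ℝ) := by
      have d2 : (Q : ℝ) ≤ δ * n := by
        refine hQ2.trans ?_
        rw [div_le_iff₀ (by linarith)]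
        have : 2 ≤ δ * Θ := by
          have c1 : δ * (2 / δ) = 2 := mul_div_cancel₀ 2 hδ0.ne'
          have c2 : δ * (2 / δ) ≤ δ * Θ := mul_le_mul_of_nonneg_left (by linarith) hδ0.le
          rwa [c1] at c2
        calc 2 * (n : ℝ) ≤ δ * Θ * n := mul_le_mul_of_nonneg_right this hn0.le
          _ = δ * n * Θ := by ring
      calc √(Q : ℝ) ≤ √(δ * n) := Real.sqrt_le_sqrt d2
        _ = ε * κ ^ 3 / (8 * K) * √(n : ℝ) := by
            rw [Real.sqrt_mul hδ0.le, hδ, Real.sqrt_sq (by positivity)]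
    have d3 : 0 < κ ^ 2 / 4 * (κ * √(n : ℝ)) := by positivity
    rw [div_le_iff₀ d3]
    exact final_num hK0 d1
  linarith

end Pool.Agent.H40.Peel
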