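import Pool.Agent.H40.Peel.Cert
import Pool.Agent.H40.Peel.Init
import Pool.Agent.H40.Peel.LLN
import Pool.Agent.H40.Peel.PA1
import Pool.Agent.H40.Peel.PA2
import Pool.Agent.H40.Peel.PhaseB
import Pool.Agent.H40.Peel.Final

/-!
Assembly: the minimum-degree peeling algorithm succeeds with high probability on the planted
clique model with `k = ⌊√n⌋`, for every tie-breaking rule.
-/

namespace Pool.Agent.H40.Peel

open Filter

theorem pa : PAStmt := by
  obtain ⟨α, β, κ, t0, F, b, h1, h2, h3, h4, h5, h6, h7, h8, h9, h10, h11⟩ := cert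
  have hc : CertData α β κ t0 F b := ⟨h1, h2, h3, h4, h5, h6, h7, h8, h9, h10, h11⟩
  exact pa2 lln init hc (pa1 lln init hc)

/-- The peeling algorithm succeeds with probability tending to one when `k = ⌊√n⌋`, uniformly
in the tie-breaking rule. -/
theorem main : ∀ ε : ℝ, 0 < ε → ∀ᶠ n : ℕ in atTop, ∀ R : TieRule n,
    1 - ε ≤ succProb n (Nat.sqrt n) R := final pa pb

end Pool.Agent.H40.Peel
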