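import Pool.Agent.H40.Peel.LDefs
import Pool.Agent.H40.Peel.NiceFun
import Pool.Agent.H40.Peel.CertGauss

/-!
Module PA1, part A: calculus of `WHP`, Gaussian facts, stages.
-/

namespace Pool.Agent.H40.Peel

namespace PA1M

open Finset Filter MeasureTheory Topology NiceF

/-! ### Calculus of `WHP` -/

section whp

variable {P Q : ∀ n : ℕ, Finset (Fin n) → TieRule n → Om n → Prop}

theorem whp_mono (hP : WHP P)
    (h : ∀ᶠ n : ℕ in atTop, ∀ S R ω, S.card = Nat.sqrt n → P n S R ω → Q n S R ω) : WHP Q := by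
  intro η hη
  filter_upwards [hP η hη, h] with n h1 h2 S R hS
  exact (Pr_mono fun ω hω hP' => hω (h2 S R ω hS hP')).trans (h1 S R hS)

theorem whp_and (hP : WHP P) (hQ : WHP Q) : WHP fun n S R ω => P n S R ω ∧ Q n S R ω := by
  intro η hη
  filter_upwards [hP (η / 2) (by positivity), hQ (η / 2) (by positivity)] with n h1 h2 S R hS
  have a1 := h1 S R hS
  have a2 := h2 S R hS
  have a3 : Pr (fun ω => ¬ (P n S R ω ∧ Q n S R ω)) ≤
      Pr (fun ω => ¬ P n S R ω ∨ ¬ Q n S R ω) := Pr_mono fun ω hω => by tauto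
  exact a3.trans ((Pr_or_le _ _).trans (by linarith))

theorem Pr_false_eq {n : ℕ} {s : Om n → Prop} (h : ∀ ω, ¬ s ω) : Pr s = 0 := by
  classical
  unfold Pr
  refine (E_congr fun ω => ?_).trans (E_const (n := n) 0)
  simp [h ω]

theorem whp_of (h : ∀ᶠ n : ℕ in atTop, ∀ S R ω, S.card = Nat.sqrt n → P n S R ω) : WHP P := by
  intro η hη
  filter_upwards [h] with n h1 S R hS
  rw [Pr_false_eq fun ω hω => hω (h1 S R ω hS)]
  exact hη.le

theorem whp_finset {ι : Type*} (s : Finset ι)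
    (P : ι → ∀ n : ℕ, Finset (Fin n) → TieRule n → Om n → Prop) (h : ∀ i ∈ s, WHP (P i)) :
    WHP fun n S R ω => ∀ i ∈ s, P i n S R ω := by
  classical
  induction s using Finset.induction_on with
  | empty => exact whp_of (Eventually.of_forall fun n S R ω _ => by simp)
  | insert a s ha ih =>
    have h1 := whp_and (h a (Finset.mem_insert_self a s))
      (ih fun i hi => h i (Finset.mem_insert_of_mem hi))
    refine whp_mono h1 (Eventually.of_forall fun n S R ω _ hh i hi => ?_)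
    rcases Finset.mem_insert.1 hi with rfl | hi
    · exact hh.1
    · exact hh.2 i hi

end whp

/-! ### Gaussian facts -/

theorem Ph_cont : Continuous Ph := continuous_iff_continuousAt.2 fun x => (Ph_deriv x).continuousAt

theorem Ph_mono : Monotone Ph := by
  apply monotone_of_deriv_nonneg
  · exact fun x => (Ph_deriv x).differentiableAt
  · intro x
    rw [(Ph_deriv x).deriv]
    exact (ph_pos x).le

theorem Ph_add_Qh (x : ℝ) : Ph x + Qh x = 1 := by
  unfold Ph Qh
  rw [← ph_total]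
  exact intervalIntegral.integral_Iic_add_Ioi ph_integrable.integrableOn ph_integrable.integrableOn

theorem ph_neg (x : ℝ) : ph (-x) = ph x := by simp [ph]

theorem Qh_neg (x : ℝ) : Qh (-x) = Ph x := by
  unfold Qh Ph
  rw [← integral_comp_neg_Iic (c := x) (f := ph)]
  exact setIntegral_congr_fun measurableSet_Iic fun y _ => ph_neg y

theorem Ph_neg (x : ℝ) : Ph (-x) = Qh x := by
  have := Qh_neg (-x)
  rw [neg_neg] at this
  exact this.symm

theorem Qh_nonneg (x : ℝ) : 0 ≤ Qh x := Cert.Qh_nonneg x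

theorem Qh_le_one (x : ℝ) : Qh x ≤ 1 := by
  have := Ph_add_Qh x
  have := Ph_nonneg x
  linarith

theorem Qh_anti : Antitone Qh := Cert.Qh_strictAnti.antitone

theorem Qh_cont : Continuous Qh := by
  have : Qh = fun x => 1 - Ph x := funext fun x => by linarith [Ph_add_Qh x]
  rw [this]
  exact continuous_const.sub Ph_cont

theorem Qh_lip (x y : ℝ) : |Qh x - Qh y| ≤ |x - y| := by
  have h := mv Ph ph y x 1 (fun z _ => Ph_deriv z) (fun z _ => by
    rw [abs_of_pos (ph_pos z)]; exact ph_le_one z)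
  have h1 : Qh x - Qh y = - (Ph x - Ph y) := by linarith [Ph_add_Qh x, Ph_add_Qh y]
  rw [h1, abs_neg]
  linarith

theorem exists_Qh_le (ε : ℝ) (hε : 0 < ε) : ∃ C : ℝ, 0 < C ∧ Qh C ≤ ε := by
  have h := (Cert.tendsto_Qh.eventually_le_const hε).and (eventually_gt_atTop (0 : ℝ))
  obtain ⟨C, h1, h2⟩ := h.exists
  exact ⟨C, h2, h1⟩

theorem Qh_le_pow (w : ℝ) (hw : 0 < w) : Qh w ≤ 8 / w ^ 5 := by
  have h1 := Cert.mul_Qh_le w
  have h2 := pow_four_ph w
  rw [le_div_iff₀ (by positivity)]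
  nlinarith [pow_pos hw 4]

theorem integrable_bdd_mul_ph {f : ℝ → ℝ} (hf : Continuous f) {B : ℝ} (hB : ∀ y, |f y| ≤ B) :
    Integrable fun z => f z * ph z := by
  apply ph_integrable.bdd_mul hf.aestronglyMeasurable (c := B)
  exact Eventually.of_forall fun y => by rw [Real.norm_eq_abs]; exact hB y

theorem integrable_abs_mul_ph : Integrable fun z => |z| * ph z := by
  refine Cert.integrable_mul_ph.abs.congr (Eventually.of_forall fun z => ?_)
  simp only [abs_mul, abs_of_pos (ph_pos z)]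

/-! ### Stages -/

/-- the stage when the real time is about `s` -/
noncomputable def tau (n : ℕ) (s : ℝ) : ℕ := n - ⌈(n : ℝ) / s⌉₊

theorem tau_le_n (n : ℕ) (s : ℝ) : tau n s ≤ n := Nat.sub_le _ _

theorem rr_add {n : ℕ} (S : Finset (Fin n)) (R : TieRule n) {t : ℕ} (ht : t ≤ n) (ω : Om n) :
    rr S R t ω + (Ss S R t ω).card = (n : ℝ) - t := by
  have h1 := card_Ns_add S R t ω
  rw [card_As S R ht ω] at h1
  unfold rr
  have : ((Ns S R t ω).card : ℝ) + (Ss S R t ω).card = ((n - t : ℕ) : ℝ) := by exact_mod_cast h1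
  rw [this, Nat.cast_sub ht]

theorem card_Ss_sqrt {n : ℕ} {S : Finset (Fin n)} (R : TieRule n) (hS : S.card = Nat.sqrt n)
    (t : ℕ) (ω : Om n) : ((Ss S R t ω).card : ℝ) ≤ √(n : ℝ) := by
  have h1 := card_Ss_le S R t ω
  rw [hS] at h1
  calc ((Ss S R t ω).card : ℝ) ≤ (Nat.sqrt n : ℝ) := by exact_mod_cast h1
    _ ≤ √(n : ℝ) := Real.nat_sqrt_le_real_sqrt

theorem ceil_le_n {n : ℕ} {s : ℝ} (hs : 1 ≤ s) : ⌈(n : ℝ) / s⌉₊ ≤ n := by
  apply Nat.ceil_le.2
  exact div_le_self (Nat.cast_nonneg n) hs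

theorem rr_tau {n : ℕ} {S : Finset (Fin n)} (R : TieRule n) (hS : S.card = Nat.sqrt n)
    {s : ℝ} (hs : 1 ≤ s) (ω : Om n) :
    (n : ℝ) / s - √(n : ℝ) ≤ rr S R (tau n s) ω ∧ rr S R (tau n s) ω ≤ (n : ℝ) / s + 1 := by
  have h1 := rr_add S R (tau_le_n n s) ω
  have h2 := card_Ss_sqrt R hS (tau n s) ω
  have h3 : ((tau n s : ℕ) : ℝ) = n - ⌈(n : ℝ) / s⌉₊ := by
    unfold tau
    rw [Nat.cast_sub (ceil_le_n hs)]
  have h4 := Nat.le_ceil ((n : ℝ) / s)
  have h5 : (⌈(n : ℝ) / s⌉₊ : ℝ) < (n : ℝ) / s + 1 := Nat.ceil_lt_add_one (by positivity)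
  have h6 : (0:ℝ) ≤ (Ss S R (tau n s) ω).card := Nat.cast_nonneg _
  constructor <;> linarith

theorem theta_tau (s ρ : ℝ) (hs : 1 ≤ s) (hρ : 0 < ρ) :
    ∀ᶠ n : ℕ in atTop, ∀ (S : Finset (Fin n)) (R : TieRule n) (ω : Om n),
      S.card = Nat.sqrt n → |(n : ℝ) / rr S R (tau n s) ω - s| ≤ ρ := by
  have ht : Tendsto (fun n : ℕ => √(n : ℝ)) atTop atTop :=
    Real.tendsto_sqrt_atTop.comp tendsto_natCast_atTop_atTop
  have hs0 : 0 < s := by linarith
  filter_upwards [ht.eventually_ge_atTop (4 * s * (s + 1) / ρ + 4 * s + 2)] with n hn S R ω hS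
  obtain ⟨h1, h2⟩ := rr_tau R hS hs ω
  set r := rr S R (tau n s) ω
  set q := √(n : ℝ) with hq
  have hq2 : (n : ℝ) = q * q := (Real.mul_self_sqrt (Nat.cast_nonneg n)).symm
  have hpos : 0 ≤ 4 * s * (s + 1) / ρ := by positivity
  have hq1 : 4 * s * (s + 1) ≤ q * ρ := by
    have : 4 * s * (s + 1) / ρ ≤ q := by linarith
    rwa [div_le_iff₀ hρ] at this
  have hq3 : 4 * s + 2 ≤ q := by linarith
  have e1 : (n : ℝ) / s * s = q * q := by rw [hq2]; field_simp
  have hr1 : q * q - s * q ≤ r * s := by nlinarith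
  have hr2 : r * s ≤ q * q + s := by nlinarith
  have hr3 : 2 * (r * s) ≥ q * q := by nlinarith
  have hr : 0 < r := by
    by_contra hcon
    have hcon := not_lt.1 hcon
    have : r * s ≤ 0 := mul_nonpos_of_nonpos_of_nonneg hcon hs0.le
    nlinarith
  have e2 : (n : ℝ) / r - s = (q * q - r * s) / r := by rw [hq2]; field_simp
  rw [e2, abs_div, abs_of_pos hr, div_le_iff₀ hr, abs_le]
  have k1 : s * (s * q) ≤ ρ * (r * s) := by nlinarith
  have k2 : s * s ≤ ρ * (r * s) := by nlinarith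
  constructor
  · nlinarith
  · nlinarith

theorem tau_le_stage (s s' : ℝ) (hs : 1 ≤ s) (h : s < s' ∨ s = 1) (hs' : 1 ≤ s') :
    ∀ᶠ n : ℕ in atTop, ∀ (S : Finset (Fin n)) (R : TieRule n) (ω : Om n),
      S.card = Nat.sqrt n → ∀ t ≤ n, s' ≤ (n : ℝ) / rr S R t ω → tau n s ≤ t := by
  rcases h with h | rfl
  · have ht : Tendsto (fun n : ℕ => √(n : ℝ)) atTop atTop :=
      Real.tendsto_sqrt_atTop.comp tendsto_natCast_atTop_atTop
    have hs0 : 0 < s := by linarith
    have hs0' : 0 < s' := by linarith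
    filter_upwards [ht.eventually_ge_atTop (s * s' / (s' - s))] with n hn S R ω hS t htn hθ
    have h1 := rr_add S R htn ω
    have h2 := card_Ss_sqrt R hS t ω
    set q := √(n : ℝ) with hq
    have hq2 : (n : ℝ) = q * q := (Real.mul_self_sqrt (Nat.cast_nonneg n)).symm
    have hq0 : 0 ≤ q := Real.sqrt_nonneg _
    have hr0 : 0 ≤ rr S R t ω := Nat.cast_nonneg _
    have hr : 0 < rr S R t ω := by
      rcases hr0.eq_or_lt with h0 | h0
      · rw [← h0, div_zero] at hθ; linarith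
      · exact h0
    rw [le_div_iff₀ hr] at hθ
    rw [div_le_iff₀ (by linarith)] at hn
    have h3 : (n : ℝ) - t ≤ (n : ℝ) / s := by
      rw [le_div_iff₀ hs0]
      have : rr S R t ω ≤ (n : ℝ) / s' := by rw [le_div_iff₀ hs0']; linarith
      have h4 : ((n : ℝ) - t) * s ≤ ((n : ℝ) / s' + q) * s := by
        apply mul_le_mul_of_nonneg_right _ hs0.le
        linarith
      refine h4.trans ?_
      have h5 : ((n : ℝ) / s' + q) * s = ((n:ℝ) + q * s') * s / s' := by field_simp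
      rw [h5, div_le_iff₀ hs0', hq2]
      nlinarith
    have h6 := (h3.trans (Nat.le_ceil _))
    have h7 : n - ⌈(n : ℝ) / s⌉₊ ≤ t := by
      have : (n : ℝ) ≤ (t + ⌈(n : ℝ) / s⌉₊ : ℕ) := by push_cast; linarith
      have : n ≤ t + ⌈(n : ℝ) / s⌉₊ := by exact_mod_cast this
      omega
    exact h7
  · refine Eventually.of_forall fun n S R ω _ t _ _ => ?_
    unfold tau
    simp

end PA1M

end Pool.Agent.H40.Peel
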