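import Pool.Agent.H40.Peel.PA1A

/-!
Module PA1, part B: the mesh lemma, upper bounds `UB` and their propagation.
-/

namespace Pool.Agent.H40.Peel

namespace PA1M

open Finset Filter MeasureTheory Topology NiceF

/-! ### The mesh lemma -/

theorem step_bound (z : ℕ → ℝ) (hz : Monotone z) (w : ℝ) (m : ℕ) :
    Ph (min w (z m)) ≤ Ph (z 0) + ∑ j ∈ range m, (Ph (z (j + 1)) - Ph (z j)) *
      (if z j ≤ w then 1 else 0) := by
  induction m with
  | zero => simpa using Ph_mono (min_le_right w (z 0))
  | succ m ih =>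
    rw [Finset.sum_range_succ]
    by_cases h : z m ≤ w
    · rw [if_pos h, mul_one]
      rw [min_eq_right h] at ih
      have : Ph (min w (z (m + 1))) ≤ Ph (z (m + 1)) := Ph_mono (min_le_right _ _)
      linarith
    · rw [if_neg h, mul_zero, add_zero]
      have h1 := (not_le.1 h).le
      rw [min_eq_left h1] at ih
      rw [min_eq_left (h1.trans (hz (Nat.le_succ m)))]
      exact ih

theorem step_bound' (z : ℕ → ℝ) (hz : Monotone z) (w : ℝ) (m : ℕ) :
    Ph w ≤ Ph (z 0) + (∑ j ∈ range m, (Ph (z (j + 1)) - Ph (z j)) *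
      (if z j ≤ w then 1 else 0)) + Qh (z m) := by
  have h := step_bound z hz w m
  have h1 := Ph_add_Qh (z m)
  have h2 := Ph_le_one w
  rcases le_total w (z m) with h3 | h3
  · rw [min_eq_left h3] at h
    linarith [Qh_nonneg (z m)]
  · rw [min_eq_right h3] at h
    linarith

theorem Ph_sub (a b : ℝ) : Ph b - Ph a = ∫ z in a..b, ph z := by
  rw [intervalIntegral.integral_eq_sub_of_hasDerivAt (fun x _ => Ph_deriv x)
    (ph_cont.intervalIntegrable a b)]

theorem cmul_cont (c : ℝ) : Continuous fun x => c * ph x := continuous_const.mul ph_cont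

/-- Riemann-Stieltjes sum against the normal law. -/
theorem riemann (f : ℝ → ℝ) (hf : Continuous f) (B L σ a : ℝ) (hB : ∀ y, |f y| ≤ B)
    (hL : ∀ x y, |f x - f y| ≤ L * |x - y|) (hσ : 0 ≤ σ) (z : ℕ → ℝ) (hz : Monotone z)
    (w : ℝ) (hw : ∀ j, z (j + 1) - z j ≤ w) (m : ℕ) :
    ∑ j ∈ range m, (Ph (z (j + 1)) - Ph (z j)) * f (a + σ * z j) ≤
      (∫ x, f (a + σ * x) * ph x) + L * σ * w + B * (Ph (z 0) + Qh (z m)) := by
  have hB0 : 0 ≤ B := (abs_nonneg _).trans (hB 0)
  have hL0 : 0 ≤ L := by
    have := (abs_nonneg _).trans (hL 1 0)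
    simpa using this
  have hw0 : 0 ≤ w := (sub_nonneg.2 (hz (Nat.le_succ 0))).trans (hw 0)
  have hc : Continuous fun x => f (a + σ * x) := hf.comp (by fun_prop)
  have hgc : Continuous fun x => f (a + σ * x) * ph x := hc.mul ph_cont
  have hi : Integrable fun x => f (a + σ * x) * ph x :=
    integrable_bdd_mul_ph hc fun y => hB _
  -- each interval
  have h1 : ∀ j, (Ph (z (j + 1)) - Ph (z j)) * f (a + σ * z j) ≤
      (∫ x in (z j)..(z (j + 1)), f (a + σ * x) * ph x) +
        L * σ * w * (Ph (z (j + 1)) - Ph (z j)) := by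
    intro j
    have hzj := hz (Nat.le_succ j)
    rw [Ph_sub, mul_comm, ← intervalIntegral.integral_const_mul,
      ← intervalIntegral.integral_const_mul, ← intervalIntegral.integral_add]
    · apply intervalIntegral.integral_mono_on hzj
      · exact (cmul_cont _).intervalIntegrable _ _
      · exact (hgc.add (cmul_cont _)).intervalIntegrable _ _
      · intro x hx
        have h2 := hL (a + σ * z j) (a + σ * x)
        have h3 : |a + σ * z j - (a + σ * x)| ≤ σ * w := by
          have e : a + σ * z j - (a + σ * x) = σ * (z j - x) := by ring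
          rw [e, abs_mul, abs_of_nonneg hσ]
          apply mul_le_mul_of_nonneg_left _ hσ
          rw [abs_le]
          have := hw j
          constructor <;> linarith [hx.1, hx.2]
        have h4 : f (a + σ * z j) ≤ f (a + σ * x) + L * σ * w := by
          have h5 := (abs_le.1 h2).2
          have h6 : L * |a + σ * z j - (a + σ * x)| ≤ L * (σ * w) :=
            mul_le_mul_of_nonneg_left h3 hL0
          linarith
        have h7 := mul_le_mul_of_nonneg_right h4 (ph_pos x).le
        linarith
    · exact hgc.intervalIntegrable _ _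
    · exact (cmul_cont _).intervalIntegrable _ _
  have h2 : ∑ j ∈ range m, (∫ x in (z j)..(z (j + 1)), f (a + σ * x) * ph x) =
      ∫ x in (z 0)..(z m), f (a + σ * x) * ph x :=
    intervalIntegral.sum_integral_adjacent_intervals fun j _ => hgc.intervalIntegrable _ _
  have h3 : ∑ j ∈ range m, (Ph (z (j + 1)) - Ph (z j)) = Ph (z m) - Ph (z 0) :=
    Finset.sum_range_sub (fun j => Ph (z j)) m
  have h4 : ∑ j ∈ range m, (Ph (z (j + 1)) - Ph (z j)) * f (a + σ * z j) ≤
      (∫ x in (z 0)..(z m), f (a + σ * x) * ph x) + L * σ * w * (Ph (z m) - Ph (z 0)) := by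
    rw [← h2, ← h3, Finset.mul_sum, ← Finset.sum_add_distrib]
    exact Finset.sum_le_sum fun j _ => h1 j
  have h5 : L * σ * w * (Ph (z m) - Ph (z 0)) ≤ L * σ * w := by
    have : Ph (z m) - Ph (z 0) ≤ 1 := by linarith [Ph_le_one (z m), Ph_nonneg (z 0)]
    have : 0 ≤ L * σ * w := by positivity
    nlinarith
  -- the tails
  have hz0 : z 0 ≤ z m := hz (Nat.zero_le m)
  have hi2 : Integrable fun x => (f (a + σ * x) + B) * ph x := by
    refine (hi.add (ph_integrable.const_mul B)).congr (Eventually.of_forall fun x => ?_)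
    simp only [Pi.add_apply]
    ring
  have h6 : ∫ x in (z 0)..(z m), (f (a + σ * x) + B) * ph x ≤
      ∫ x, (f (a + σ * x) + B) * ph x := by
    rw [intervalIntegral.integral_of_le hz0]
    apply setIntegral_le_integral hi2
    refine Eventually.of_forall fun x => ?_
    have := (abs_le.1 (hB (a + σ * x))).1
    exact mul_nonneg (by linarith) (ph_pos x).le
  have h7 : ∫ x, (f (a + σ * x) + B) * ph x = (∫ x, f (a + σ * x) * ph x) + B := by
    have e : (fun x => (f (a + σ * x) + B) * ph x) =
        fun x => f (a + σ * x) * ph x + B * ph x := by ext x; ring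
    rw [e, integral_add hi (ph_integrable.const_mul B), integral_const_mul, ph_total, mul_one]
  have h8 : ∫ x in (z 0)..(z m), (f (a + σ * x) + B) * ph x =
      (∫ x in (z 0)..(z m), f (a + σ * x) * ph x) + B * (Ph (z m) - Ph (z 0)) := by
    have e : (fun x => (f (a + σ * x) + B) * ph x) =
        fun x => f (a + σ * x) * ph x + B * ph x := by ext x; ring
    rw [e, intervalIntegral.integral_add (hgc.intervalIntegrable _ _)
      ((cmul_cont _).intervalIntegrable _ _), intervalIntegral.integral_const_mul, Ph_sub]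
  have h9 := Ph_add_Qh (z m)
  have h10 : B * (Ph (z m) - Ph (z 0)) = B - B * (Ph (z 0) + Qh (z m)) := by
    have : Ph (z m) = 1 - Qh (z m) := by linarith
    rw [this]; ring
  linarith

/-- Upper bound for the sum of a smoothed step function from bounds at finitely many levels. -/
theorem mesh (f : ℝ → ℝ) (B L σ a δ : ℝ) (hB : ∀ y, |f y| ≤ B)
    (hL : ∀ x y, |f x - f y| ≤ L * |x - y|) (hσ : 0 < σ) (hδ : 0 < δ) :
    ∃ Y : Finset ℝ, ∀ (n : ℕ) (N : Finset (Fin n)) (M : Fin n → ℝ),
      (∀ y ∈ Y, ((N.filter fun v => y ≤ M v).card : ℝ) ≤ (f y + δ) * n) →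
      ∑ v ∈ N, Ph ((M v - a) / σ) ≤ ((∫ x, f (a + σ * x) * ph x) + 4 * δ) * n := by
  have hB0 : 0 ≤ B := (abs_nonneg _).trans (hB 0)
  have hL0 : 0 ≤ L := by
    have := (abs_nonneg _).trans (hL 1 0)
    simpa using this
  have hf : Continuous f := by
    have : LipschitzWith (Real.toNNReal L) f := by
      apply LipschitzWith.of_dist_le_mul
      intro x y
      rw [Real.dist_eq, Real.dist_eq, Real.coe_toNNReal L hL0]
      exact hL x y
    exact this.continuous
  obtain ⟨Z, hZ0, hZ⟩ := exists_Qh_le (δ / (2 * (B + 1))) (by positivity)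
  obtain ⟨m, hm⟩ := exists_nat_gt (max 1 (2 * Z * (L * σ) / δ))
  have hm1 : (1:ℝ) < m := (le_max_left _ _).trans_lt hm
  have hm2 : 2 * Z * (L * σ) / δ < m := (le_max_right _ _).trans_lt hm
  have hm0 : (0:ℝ) < m := by linarith
  set w : ℝ := 2 * Z / m with hw
  have hw0 : 0 < w := by positivity
  set z : ℕ → ℝ := fun j => -Z + j * w with hz
  have hzm : Monotone z := by
    intro i j hij
    simp only [hz]
    have : (i:ℝ) ≤ j := by exact_mod_cast hij
    nlinarith
  have hzw : ∀ j, z (j + 1) - z j ≤ w := by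
    intro j
    simp only [hz]
    push_cast
    linarith
  have hz0 : z 0 = -Z := by simp [hz]
  have hzM : z m = Z := by
    simp only [hz, hw]
    field_simp
    ring
  have hLw : L * σ * w ≤ δ := by
    rw [div_lt_iff₀ hδ] at hm2
    rw [hw, mul_div_assoc', div_le_iff₀ hm0]
    nlinarith
  have hQ : Ph (z 0) + Qh (z m) ≤ δ / (B + 1) := by
    rw [hz0, hzM, Ph_neg]
    have : δ / (B + 1) = δ / (2 * (B + 1)) + δ / (2 * (B + 1)) := by field_simp; ring
    linarith
  have hQ1 : Ph (z 0) + Qh (z m) ≤ δ := by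
    refine hQ.trans (div_le_self hδ.le (by linarith))
  have hQB : B * (Ph (z 0) + Qh (z m)) ≤ δ := by
    have h1 : B * (Ph (z 0) + Qh (z m)) ≤ B * (δ / (B + 1)) := mul_le_mul_of_nonneg_left hQ hB0
    refine h1.trans ?_
    rw [mul_div_assoc', div_le_iff₀ (by linarith)]
    nlinarith
  have hR := riemann f hf B L σ a hB hL hσ.le z hzm w hzw m
  refine ⟨(range m).image fun j => a + σ * z j, fun n N M hN => ?_⟩
  have h1 : ∀ v, Ph ((M v - a) / σ) ≤ Ph (z 0) + (∑ j ∈ range m, (Ph (z (j + 1)) - Ph (z j)) *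
      (if a + σ * z j ≤ M v then 1 else 0)) + Qh (z m) := by
    intro v
    refine (step_bound' z hzm ((M v - a) / σ) m).trans (le_of_eq ?_)
    congr 2
    refine Finset.sum_congr rfl fun j _ => ?_
    congr 1
    have : z j ≤ (M v - a) / σ ↔ a + σ * z j ≤ M v := by
      rw [le_div_iff₀ hσ]
      constructor <;> intro h <;> linarith
    simp only [this]
  have hcard : (N.card : ℝ) ≤ n := by
    have := Finset.card_le_univ N
    rw [Fintype.card_fin] at this
    exact_mod_cast this
  have hn0 : (0:ℝ) ≤ n := Nat.cast_nonneg n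
  calc ∑ v ∈ N, Ph ((M v - a) / σ)
      ≤ ∑ v ∈ N, (Ph (z 0) + (∑ j ∈ range m, (Ph (z (j + 1)) - Ph (z j)) *
        (if a + σ * z j ≤ M v then 1 else 0)) + Qh (z m)) := Finset.sum_le_sum fun v _ => h1 v
    _ = N.card * (Ph (z 0) + Qh (z m)) + ∑ j ∈ range m, (Ph (z (j + 1)) - Ph (z j)) *
        ((N.filter fun v => a + σ * z j ≤ M v).card : ℝ) := by
        rw [Finset.sum_add_distrib, Finset.sum_add_distrib, Finset.sum_comm]
        simp only [Finset.sum_const, nsmul_eq_mul]
        have : ∀ j, ∑ v ∈ N, (Ph (z (j + 1)) - Ph (z j)) *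
            (if a + σ * z j ≤ M v then (1:ℝ) else 0) = (Ph (z (j + 1)) - Ph (z j)) *
            ((N.filter fun v => a + σ * z j ≤ M v).card : ℝ) := by
          intro j
          rw [← Finset.mul_sum, Finset.sum_boole]
        rw [Finset.sum_congr rfl fun j _ => this j]
        ring
    _ ≤ n * (Ph (z 0) + Qh (z m)) + ∑ j ∈ range m, (Ph (z (j + 1)) - Ph (z j)) *
        ((f (a + σ * z j) + δ) * n) := by
        apply add_le_add
        · apply mul_le_mul_of_nonneg_right hcard
          linarith [Ph_nonneg (z 0), Qh_nonneg (z m)]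
        · apply Finset.sum_le_sum
          intro j hj
          apply mul_le_mul_of_nonneg_left
          · exact hN _ (Finset.mem_image_of_mem _ hj)
          · linarith [Ph_mono (hzm (Nat.le_succ j))]
    _ = (Ph (z 0) + Qh (z m) + (∑ j ∈ range m, (Ph (z (j + 1)) - Ph (z j)) *
        f (a + σ * z j)) + δ * (Ph (z m) - Ph (z 0))) * n := by
        have h3 : ∑ j ∈ range m, (Ph (z (j + 1)) - Ph (z j)) = Ph (z m) - Ph (z 0) :=
          Finset.sum_range_sub (fun j => Ph (z j)) m
        rw [← h3, Finset.mul_sum]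
        have : ∀ j, (Ph (z (j + 1)) - Ph (z j)) * ((f (a + σ * z j) + δ) * n) =
            ((Ph (z (j + 1)) - Ph (z j)) * f (a + σ * z j) + δ * (Ph (z (j + 1)) - Ph (z j))) * n :=
          fun j => by ring
        rw [Finset.sum_congr rfl fun j _ => this j, ← Finset.sum_mul, Finset.sum_add_distrib]
        ring
    _ ≤ ((∫ x, f (a + σ * x) * ph x) + 4 * δ) * n := by
        apply mul_le_mul_of_nonneg_right _ hn0
        have : δ * (Ph (z m) - Ph (z 0)) ≤ δ := by
          have : Ph (z m) - Ph (z 0) ≤ 1 := by linarith [Ph_le_one (z m), Ph_nonneg (z 0)]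
          nlinarith
        linarith

end PA1M

end Pool.Agent.H40.Peel
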