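import Pool.Agent.H40.Peel.PA1B

/-!
Module PA1, part C: upper bounds `UB` and their propagation.
-/

namespace Pool.Agent.H40.Peel

namespace PA1M

open Finset Filter MeasureTheory Topology NiceF

/-- Number of nonplanted vertices alive at stage `t` with rescaled degree at least `x`. -/
noncomputable def cnt {n : ℕ} (S : Finset (Fin n)) (R : TieRule n) (t : ℕ) (ω : Om n) (x : ℝ) : ℝ :=
  (((Ns S R t ω).filter fun v => x ≤ Mv S R t ω v).card : ℝ)

/-- The functional of the shifted normal distribution functions. -/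
noncomputable def nuU {n : ℕ} (S : Finset (Fin n)) (R : TieRule n) (a T : ℝ) (t : ℕ) (ω : Om n) :
    ℝ :=
  ∑ v ∈ Ns S R t ω, Ph ((Mv S R t ω v - a) / √(T - n / rr S R t ω))

/-- Upper bound in probability, for all stages with real time near `s`. -/
def UB (s x c : ℝ) : Prop :=
  ∀ η : ℝ, 0 < η → ∃ ρ : ℝ, 0 < ρ ∧ WHP fun n S R ω => ∀ t ≤ n,
    |(n : ℝ) / rr S R t ω - s| ≤ ρ → cnt S R t ω x ≤ (c + η) * n

section basic

variable {n : ℕ} {S : Finset (Fin n)} {R : TieRule n}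

theorem cnt_nonneg (t : ℕ) (ω : Om n) (x : ℝ) : 0 ≤ cnt S R t ω x := Nat.cast_nonneg _

theorem cnt_le_rr (t : ℕ) (ω : Om n) (x : ℝ) : cnt S R t ω x ≤ rr S R t ω := by
  unfold cnt rr
  exact_mod_cast Finset.card_filter_le _ _

theorem rr_nonneg (t : ℕ) (ω : Om n) : 0 ≤ rr S R t ω := Nat.cast_nonneg _

theorem rr_le_n (t : ℕ) (ω : Om n) : rr S R t ω ≤ n := by
  unfold rr
  have := Finset.card_le_univ (Ns S R t ω)
  rw [Fintype.card_fin] at this
  exact_mod_cast this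

theorem cnt_anti (t : ℕ) (ω : Om n) {x y : ℝ} (h : x ≤ y) : cnt S R t ω y ≤ cnt S R t ω x := by
  unfold cnt
  exact_mod_cast Finset.card_le_card (Finset.monotone_filter_right _ fun v _ hv => h.trans hv)

theorem cnt_eq_sum (t : ℕ) (ω : Om n) (x : ℝ) :
    cnt S R t ω x = ∑ v ∈ Ns S R t ω, (if x ≤ Mv S R t ω v then (1:ℝ) else 0) := by
  unfold cnt
  rw [Finset.sum_boole]

/-- Counting from the functional. -/
theorem cnt_le_nuU (t : ℕ) (ω : Om n) (x ρ C s : ℝ) (hρ : 0 < ρ) (hC : 0 ≤ C)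
    (hθ : |(n : ℝ) / rr S R t ω - s| ≤ ρ) :
    cnt S R t ω x ≤ nuU S R (x - C * √(3 * ρ)) (s + 2 * ρ) t ω + Qh C * n := by
  have hQ := Qh_nonneg C
  have h0 : ∀ v ∈ Ns S R t ω, (if x ≤ Mv S R t ω v then (1:ℝ) else 0) ≤
      Ph ((Mv S R t ω v - (x - C * √(3 * ρ))) / √(s + 2 * ρ - n / rr S R t ω)) + Qh C := by
    intro v _
    split_ifs with h
    · have h1 := abs_le.1 hθ
      set d := s + 2 * ρ - n / rr S R t ω with hd
      have hd0 : 0 < d := by rw [hd]; linarith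
      have hd1 : d ≤ 3 * ρ := by rw [hd]; linarith
      have hs0 : 0 < √d := Real.sqrt_pos.2 hd0
      have h2 : C ≤ (Mv S R t ω v - (x - C * √(3 * ρ))) / √d := by
        rw [le_div_iff₀ hs0]
        have h3 : C * √d ≤ C * √(3 * ρ) := mul_le_mul_of_nonneg_left (Real.sqrt_le_sqrt hd1) hC
        linarith
      have h3 := Ph_mono h2
      have h4 := Ph_add_Qh C
      linarith
    · linarith [Ph_nonneg ((Mv S R t ω v - (x - C * √(3 * ρ))) / √(s + 2 * ρ - n / rr S R t ω))]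
  rw [cnt_eq_sum]
  refine (Finset.sum_le_sum h0).trans ?_
  rw [Finset.sum_add_distrib, Finset.sum_const, nsmul_eq_mul]
  unfold nuU
  have h1 : ((Ns S R t ω).card : ℝ) ≤ n := rr_le_n t ω
  have h2 := mul_le_mul_of_nonneg_right h1 hQ
  linarith

end basic

/-! ### Consequences of LLN and INIT -/

theorem lln_U (hL : LLNStmt) {a T Θ : ℝ} (h1 : 1 < Θ) (hT : Θ < T) {η : ℝ} (hη : 0 < η) :
    WHP fun n S R ω => ∀ s t, s ≤ t → t ≤ n → (n : ℝ) ≤ Θ * rr S R t ω →
      nuU S R a T t ω ≤ nuU S R a T s ω + η * n := by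
  obtain ⟨C, hC⟩ := nice_Ph a T Θ (by linarith) hT
  refine whp_mono (hL false _ Θ C h1 hC η hη) ?_
  filter_upwards [eventually_gt_atTop 0] with n hn S R ω _ h s t hst htn hΘ
  have h2 := h s t hst htn hΘ
  have hn0 : (0:ℝ) < n := by exact_mod_cast hn
  have e1 : ∀ t, Qf false S R (fun s y => - Ph ((y - a) / √(T - s))) t ω =
      - nuU S R a T t ω / n := by
    intro t
    unfold Qf Pc qc nuU
    simp [Finset.sum_neg_distrib]
  have e2 : Rem false S R (fun s y => - Ph ((y - a) / √(T - s))) s t ω ≤ 0 := by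
    unfold Rem
    apply div_nonpos_of_nonpos_of_nonneg
    · apply Finset.sum_nonpos
      intro j _
      split_ifs
      · exact neg_nonpos.2 (Ph_nonneg _)
      · exact le_rfl
    · unfold qc
      simp
  rw [e1, e1] at h2
  have h3 : nuU S R a T t ω / n ≤ nuU S R a T s ω / n + η := by
    have := h2
    rw [neg_div, neg_div] at this
    linarith
  rw [div_le_iff₀ hn0, add_mul, div_mul_cancel₀ _ hn0.ne'] at h3
  exact h3

theorem init_U (hI : INITStmt) {a T : ℝ} (hT : 1 < T) {η : ℝ} (hη : 0 < η) :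
    WHP fun n S R ω => nuU S R a T 0 ω ≤ (Ph (-a / √T) + η) * n := by
  obtain ⟨C, hC⟩ := nice_Ph a T ((1 + T) / 2) (by linarith) (by linarith)
  refine whp_mono (hI false _ ((1 + T) / 2) C (by linarith) hC η hη) ?_
  filter_upwards [eventually_gt_atTop 0] with n hn S R ω _ h
  have hn0 : (0:ℝ) < n := by exact_mod_cast hn
  have e1 : Qf false S R (fun s y => - Ph ((y - a) / √(T - s))) 0 ω =
      - nuU S R a T 0 ω / n := by
    unfold Qf Pc qc nuU
    simp [Finset.sum_neg_distrib]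
  rw [e1] at h
  simp only [zero_sub, sub_zero] at h
  have h3 : nuU S R a T 0 ω / n ≤ Ph (-a / √T) + η := by
    have e2 : - nuU S R a T 0 ω / (n : ℝ) = - (nuU S R a T 0 ω / n) := neg_div _ _
    rw [e2] at h
    linarith
  rw [div_le_iff₀ hn0] at h3
  exact h3

/-! ### Rules for `UB` -/

theorem UB.mono {s x y c d : ℝ} (h : UB s x c) (hxy : x ≤ y) (hcd : c ≤ d) : UB s y d := by
  intro η hη
  obtain ⟨ρ, hρ, hw⟩ := h η hη
  refine ⟨ρ, hρ, whp_mono hw (Eventually.of_forall fun n S R ω _ hh t ht hθ => ?_)⟩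
  refine (cnt_anti t ω hxy).trans ((hh t ht hθ).trans ?_)
  apply mul_le_mul_of_nonneg_right _ (Nat.cast_nonneg n)
  linarith

theorem UB.lim {s x c : ℝ} (h : ∀ ε > 0, UB s x (c + ε)) : UB s x c := by
  intro η hη
  obtain ⟨ρ, hρ, hw⟩ := h (η / 2) (by positivity) (η / 2) (by positivity)
  refine ⟨ρ, hρ, whp_mono hw (Eventually.of_forall fun n S R ω _ hh t ht hθ => ?_)⟩
  refine (hh t ht hθ).trans (le_of_eq ?_)
  ring

theorem UB_one_div {s : ℝ} (hs : 1 ≤ s) (x : ℝ) : UB s x (1 / s) := by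
  intro η hη
  have hs0 : 0 < s := by linarith
  have hc : ContinuousAt (fun r : ℝ => 1 / (s - r)) 0 := by
    apply ContinuousAt.div continuousAt_const (by fun_prop)
    simpa using hs0.ne'
  have h1 : ∀ᶠ r : ℝ in 𝓝 0, 1 / (s - r) < 1 / s + η := by
    have : 1 / (s - 0) < 1 / s + η := by rw [sub_zero]; linarith
    exact hc.eventually_lt_const this
  obtain ⟨ε, hε, h2⟩ := Metric.eventually_nhds_iff.1 h1
  refine ⟨min (ε / 2) (1 / 2), by positivity, whp_of (Eventually.of_forall ?_)⟩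
  intro n S R ω _ t _ hθ
  set ρ := min (ε / 2) (1 / 2) with hρ
  have hρ0 : 0 < ρ := by rw [hρ]; positivity
  have hρ1 : ρ ≤ 1 / 2 := min_le_right _ _
  have hρ2 : ρ ≤ ε / 2 := min_le_left _ _
  have h3 : 1 / (s - ρ) < 1 / s + η := by
    apply h2
    rw [Real.dist_eq, sub_zero, abs_of_pos hρ0]
    linarith
  refine (cnt_le_rr t ω x).trans ?_
  have hr0 : 0 ≤ rr S R t ω := rr_nonneg t ω
  have h4 := (abs_le.1 hθ).1
  have hr : 0 < rr S R t ω := by
    rcases hr0.eq_or_lt with h0 | h0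
    · rw [← h0, div_zero] at h4; linarith
    · exact h0
  have h5 : s - ρ ≤ (n : ℝ) / rr S R t ω := by linarith
  rw [le_div_iff₀ hr] at h5
  have h6 : rr S R t ω ≤ (1 / (s - ρ)) * n := by
    rw [div_mul_eq_mul_div, le_div_iff₀ (by linarith)]
    linarith
  refine h6.trans (mul_le_mul_of_nonneg_right h3.le (Nat.cast_nonneg n))

theorem tendsto_aux (x s C : ℝ) (hs : 1 ≤ s) :
    Tendsto (fun ρ : ℝ => Ph (-(x - C * √(3 * ρ)) / √(s + 2 * ρ))) (𝓝 0) (𝓝 (Qh (x / √s))) := by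
  have hs0 : 0 < √s := Real.sqrt_pos.2 (by linarith)
  have hc : ContinuousAt (fun ρ : ℝ => Ph (-(x - C * √(3 * ρ)) / √(s + 2 * ρ))) 0 := by
    apply Ph_cont.continuousAt.comp
    apply ContinuousAt.div (by fun_prop) (by fun_prop)
    simpa using hs0.ne'
  have h := hc.tendsto
  simp only [mul_zero, Real.sqrt_zero, sub_zero, add_zero] at h
  rw [neg_div, Ph_neg] at h
  exact h

theorem exists_small {P : ℝ → Prop} (h : ∀ᶠ ρ : ℝ in 𝓝 0, P ρ) {M : ℝ} (hM : 0 < M) :
    ∃ ρ : ℝ, 0 < ρ ∧ ρ < M ∧ P ρ := by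
  obtain ⟨ε, hε, h2⟩ := Metric.eventually_nhds_iff.1 h
  refine ⟨min (ε / 2) (M / 2), by positivity, ?_, h2 ?_⟩
  · exact (min_le_right _ _).trans_lt (by linarith)
  · rw [Real.dist_eq, sub_zero, abs_of_pos (by positivity)]
    exact (min_le_left _ _).trans_lt (by linarith)

theorem UB_Qh (hL : LLNStmt) (hI : INITStmt) {s : ℝ} (hs : 1 ≤ s) (x : ℝ) :
    UB s x (Qh (x / √s)) := by
  intro η hη
  obtain ⟨C, hC0, hC⟩ := exists_Qh_le (η / 4) (by positivity)
  have ht := (tendsto_aux x s C hs).eventually_lt_const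
    (show Qh (x / √s) < Qh (x / √s) + η / 4 by linarith)
  obtain ⟨ρ, hρ, hρ1, h1⟩ := exists_small ht one_pos
  refine ⟨ρ, hρ, ?_⟩
  have w1 := lln_U hL (a := x - C * √(3 * ρ)) (T := s + 2 * ρ) (Θ := s + ρ) (by linarith)
    (by linarith) (show 0 < η / 4 by positivity)
  have w2 := init_U hI (a := x - C * √(3 * ρ)) (T := s + 2 * ρ) (by linarith)
    (show 0 < η / 4 by positivity)
  refine whp_mono (whp_and w1 w2) (Eventually.of_forall fun n S R ω _ hh t ht hθ => ?_)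
  obtain ⟨hh1, hh2⟩ := hh
  have h2 := cnt_le_nuU t ω x ρ C s hρ hC0.le hθ
  have h3 : (n : ℝ) ≤ (s + ρ) * rr S R t ω := by
    have h4 := abs_le.1 hθ
    have hr0 : 0 ≤ rr S R t ω := rr_nonneg t ω
    rcases hr0.eq_or_lt with h0 | h0
    · exfalso
      rw [← h0, div_zero] at h4; linarith [h4.1]
    · have h5 : (n : ℝ) / rr S R t ω ≤ s + ρ := by linarith [h4.2]
      rwa [div_le_iff₀ h0] at h5
  have h4 := hh1 0 t (Nat.zero_le t) ht h3
  have hn : (0:ℝ) ≤ n := Nat.cast_nonneg n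
  have h5 := mul_le_mul_of_nonneg_right h1.le hn
  have h6 := mul_le_mul_of_nonneg_right hC hn
  nlinarith

end PA1M

end Pool.Agent.H40.Peel
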