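import Pool.Agent.H40.Peel.PA1C

/-!
Module PA1, part D: propagation of upper bounds.
-/

namespace Pool.Agent.H40.Peel

namespace PA1M

open Finset Filter MeasureTheory Topology NiceF

theorem UB.at_tau {s y c : ℝ} (hs : 1 ≤ s) (h : UB s y c) {δ : ℝ} (hδ : 0 < δ) :
    WHP fun n S R ω => cnt S R (tau n s) ω y ≤ (c + δ) * n := by
  obtain ⟨ρ, hρ, hw⟩ := h δ hδ
  refine whp_mono hw ?_
  filter_upwards [theta_tau s ρ hs hρ] with n hn S R ω hS hh
  exact hh (tau n s) (tau_le_n n s) (hn S R ω hS)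

theorem nice_time (a : ℝ) {T Θ : ℝ} (hΘ : 0 ≤ Θ) (hT : Θ < T) : ∃ C : ℝ, 0 ≤ C ∧
    ∀ s s' y, 0 ≤ s → s ≤ Θ → 0 ≤ s' → s' ≤ Θ → |s' - s| ≤ 1 →
      |Ph ((y - a) / √(T - s')) - Ph ((y - a) / √(T - s))| ≤ C * |s' - s| := by
  obtain ⟨C, H1, H2, Ht, hA, hB⟩ := nice_Ph a T Θ hΘ hT
  have hC : 0 ≤ C := (abs_nonneg _).trans (hA 0 0 le_rfl hΘ).1
  refine ⟨2 * C, by positivity, fun s s' y h1 h2 h3 h4 h5 => ?_⟩
  have hb := hB s s' y 0 h1 h2 h3 h4 h5 (by simp)
  have ht := (hA s y h1 h2).2.2.2.1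
  simp only [add_zero, mul_zero, sub_zero, abs_zero, ne_eq, OfNat.ofNat_ne_zero,
    not_false_eq_true, zero_pow, zero_add] at hb
  set d := |s' - s| with hd
  have hd0 : 0 ≤ d := abs_nonneg _
  have h6 : |Ht s y * (s' - s)| ≤ C * d := by
    rw [abs_mul]
    exact mul_le_mul_of_nonneg_right ht hd0
  have h7 : C * (s' - s) ^ 2 ≤ C * d := by
    apply mul_le_mul_of_nonneg_left _ hC
    rw [← sq_abs, ← hd]
    nlinarith
  have h8 := hb.trans h7
  rw [abs_le] at h6 h8 ⊢
  constructor <;> linarith [h6.1, h6.2, h8.1, h8.2]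

theorem lip_int {f : ℝ → ℝ} {B L : ℝ} (hB : ∀ y, |f y| ≤ B)
    (hL : ∀ x y, |f x - f y| ≤ L * |x - y|) (a a' σ σ' : ℝ) :
    (∫ z, f (a' + σ' * z) * ph z) ≤ (∫ z, f (a + σ * z) * ph z) +
      L * (|a' - a| + |σ' - σ| * ∫ z, |z| * ph z) := by
  have hL0 : 0 ≤ L := by
    have := (abs_nonneg _).trans (hL 1 0)
    simpa using this
  have hf : Continuous f := by
    have : LipschitzWith (Real.toNNReal L) f := by
      apply LipschitzWith.of_dist_le_mul
      intro x y
      rw [Real.dist_eq, Real.dist_eq, Real.coe_toNNReal L hL0]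
      exact hL x y
    exact this.continuous
  have i1 : Integrable fun z => f (a + σ * z) * ph z :=
    integrable_bdd_mul_ph (hf.comp (by fun_prop)) fun y => hB _
  have i2 : Integrable fun z => f (a' + σ' * z) * ph z :=
    integrable_bdd_mul_ph (hf.comp (by fun_prop)) fun y => hB _
  have i3 : Integrable fun z => L * |a' - a| * ph z := ph_integrable.const_mul _
  have i4 : Integrable fun z => L * |σ' - σ| * (|z| * ph z) := integrable_abs_mul_ph.const_mul _
  have h1 : ∀ z, f (a' + σ' * z) * ph z ≤ f (a + σ * z) * ph z +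
      (L * |a' - a| * ph z + L * |σ' - σ| * (|z| * ph z)) := by
    intro z
    have h2 := hL (a' + σ' * z) (a + σ * z)
    have h3 : |a' + σ' * z - (a + σ * z)| ≤ |a' - a| + |σ' - σ| * |z| := by
      have e : a' + σ' * z - (a + σ * z) = (a' - a) + (σ' - σ) * z := by ring
      rw [e, ← abs_mul]
      exact abs_add_le _ _
    have h4 := mul_le_mul_of_nonneg_left h3 hL0
    have h5 := (abs_le.1 (h2.trans h4)).2
    have h6 : f (a' + σ' * z) ≤ f (a + σ * z) + L * (|a' - a| + |σ' - σ| * |z|) := by linarith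
    have h7 := mul_le_mul_of_nonneg_right h6 (ph_pos z).le
    linarith
  calc (∫ z, f (a' + σ' * z) * ph z) ≤ ∫ z, (f (a + σ * z) * ph z +
      (L * |a' - a| * ph z + L * |σ' - σ| * (|z| * ph z))) :=
        integral_mono i2 (i1.add (i3.add i4)) h1
    _ = _ := by
      have e1 : ∫ z, (f (a + σ * z) * ph z +
          (L * |a' - a| * ph z + L * |σ' - σ| * (|z| * ph z))) =
          (∫ z, f (a + σ * z) * ph z) + ∫ z, (L * |a' - a| * ph z +
            L * |σ' - σ| * (|z| * ph z)) := integral_add i1 (i3.add i4)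
      rw [e1, integral_add i3 i4, integral_const_mul, integral_const_mul, ph_total]
      ring

/-- Propagation of upper bounds. -/
theorem UB_prop (hLLN : LLNStmt) {s t B L : ℝ} {f : ℝ → ℝ} (hs : 1 ≤ s) (hst : s < t)
    (hB : ∀ y, |f y| ≤ B) (hL : ∀ x y, |f x - f y| ≤ L * |x - y|) (h : ∀ y, UB s y (f y))
    (x : ℝ) : UB t x (∫ z, f (x + √(t - s) * z) * ph z) := by
  intro η hη
  set G0 := ∫ z, f (x + √(t - s) * z) * ph z with hG0
  obtain ⟨C, hC0, hC⟩ := exists_Qh_le (η / 8) (by positivity)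
  -- choice of `ρ`
  have hcont : Tendsto (fun ρ : ℝ => L * (|(x - C * √(3 * ρ)) - x| +
      |√(t + 2 * ρ - s) - √(t - s)| * ∫ z, |z| * ph z)) (𝓝 0) (𝓝 0) := by
    have hc : ContinuousAt (fun ρ : ℝ => L * (|(x - C * √(3 * ρ)) - x| +
      |√(t + 2 * ρ - s) - √(t - s)| * ∫ z, |z| * ph z)) 0 := by fun_prop
    have := hc.tendsto
    simpa using this
  obtain ⟨ρ, hρ, hρ1, hρG⟩ := exists_small (hcont.eventually_lt_const
    (show (0:ℝ) < η / 8 by positivity)) (show 0 < min 1 ((t - s) / 4) by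
      have : 0 < t - s := by linarith
      positivity)
  have hρ2 : ρ < (t - s) / 4 := hρ1.trans_le (min_le_right _ _)
  set a := x - C * √(3 * ρ) with ha
  set T := t + 2 * ρ with hT
  set σ := √(T - s) with hσ
  have hσ0 : 0 < σ := Real.sqrt_pos.2 (by rw [hT]; linarith)
  have hG1 : (∫ z, f (a + σ * z) * ph z) ≤ G0 + η / 8 := by
    have := lip_int hB hL x a (√(t - s)) σ
    linarith
  -- the mesh
  obtain ⟨Y, hY⟩ := mesh f B L σ a (η / 32) hB hL hσ0 (by positivity)
  have wY : WHP fun n S R ω => ∀ y ∈ Y, cnt S R (tau n s) ω y ≤ (f y + η / 32) * n :=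
    whp_finset Y (fun y n S R ω => cnt S R (tau n s) ω y ≤ (f y + η / 32) * n)
      fun y _ => (h y).at_tau hs (by positivity)
  -- time regularity
  obtain ⟨K, hK0, hK⟩ := nice_time a (T := T) (Θ := t + ρ) (by linarith) (by rw [hT]; linarith)
  set r := min (min 1 (t - s)) (η / (8 * (K + 1))) with hr
  have hr0 : 0 < r := by
    have : 0 < t - s := by linarith
    rw [hr]; positivity
  have hr1 : r ≤ 1 := (min_le_left _ _).trans (min_le_left _ _)
  have hr2 : r ≤ t - s := (min_le_left _ _).trans (min_le_right _ _)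
  have hr3 : K * r ≤ η / 8 := by
    have h1 : r ≤ η / (8 * (K + 1)) := min_le_right _ _
    rw [le_div_iff₀ (by positivity)] at h1
    nlinarith
  have wL := lln_U hLLN (a := a) (T := T) (Θ := t + ρ) (by linarith) (by rw [hT]; linarith)
    (show 0 < η / 8 by positivity)
  refine ⟨ρ, hρ, whp_mono (whp_and wY wL) ?_⟩
  filter_upwards [theta_tau s r hs hr0,
    tau_le_stage s ((s + t) / 2) hs (Or.inl (by linarith)) (by linarith)] with
    n hn1 hn2 S R ω hS hh t' ht' hθ
  obtain ⟨hhY, hhL⟩ := hh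
  have hn : (0:ℝ) ≤ n := Nat.cast_nonneg n
  have hθ' := abs_le.1 hθ
  -- the stage
  have hτ : tau n s ≤ t' := hn2 S R ω hS t' ht' (by linarith)
  have hrr : (n : ℝ) ≤ (t + ρ) * rr S R t' ω := by
    have hr0 : 0 ≤ rr S R t' ω := rr_nonneg t' ω
    rcases hr0.eq_or_lt with h0 | h0
    · exfalso
      rw [← h0, div_zero] at hθ'; linarith [hθ'.1]
    · have h5 : (n : ℝ) / rr S R t' ω ≤ t + ρ := by linarith [hθ'.2]
      rwa [div_le_iff₀ h0] at h5
  have h1 := cnt_le_nuU t' ω x ρ C t hρ hC0.le hθ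
  have h2 := hhL (tau n s) t' hτ ht' hrr
  have h3 := hY n (Ns S R (tau n s) ω) (Mv S R (tau n s) ω) hhY
  have h4 : nuU S R a T (tau n s) ω ≤
      (∑ v ∈ Ns S R (tau n s) ω, Ph ((Mv S R (tau n s) ω v - a) / σ)) + η / 8 * n := by
    have h5 : ∀ v ∈ Ns S R (tau n s) ω,
        Ph ((Mv S R (tau n s) ω v - a) / √(T - n / rr S R (tau n s) ω)) ≤
        Ph ((Mv S R (tau n s) ω v - a) / σ) + η / 8 := by
      intro v _
      have h6 := hn1 S R ω hS
      have h7 := abs_le.1 h6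
      have h8 := hK s (n / rr S R (tau n s) ω) (Mv S R (tau n s) ω v) (by linarith) (by linarith)
        (div_nonneg hn (rr_nonneg _ _)) (by linarith) (h6.trans hr1)
      have h9 := (abs_le.1 h8).2
      have h10 : K * |(n : ℝ) / rr S R (tau n s) ω - s| ≤ K * r :=
        mul_le_mul_of_nonneg_left h6 hK0
      linarith
    unfold nuU
    refine (Finset.sum_le_sum h5).trans ?_
    rw [Finset.sum_add_distrib, Finset.sum_const, nsmul_eq_mul]
    have h11 : ((Ns S R (tau n s) ω).card : ℝ) ≤ n := rr_le_n _ ω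
    have h12 := mul_le_mul_of_nonneg_right h11 (show 0 ≤ η / 8 by positivity)
    linarith
  have h5 := mul_le_mul_of_nonneg_right hG1 hn
  have h6 := mul_le_mul_of_nonneg_right hC hn
  have h7 : 0 ≤ η * n := by positivity
  linarith

end PA1M

end Pool.Agent.H40.Peel
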