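import Pool.Agent.H40.Peel.Basic

/-!
The peeling process: elementary facts, and functions of the history.
-/

namespace Pool.Agent.H40.Peel

open Finset

variable {n : ℕ}

section Gen

variable (H : SimpleGraph (Fin n)) (R : TieRule n)

lemma stt_zero : stt H R 0 = ([], univ) := rfl

lemma stt_succ_fst (t : ℕ) :
    (stt H R (t + 1)).1 = ((stt H R t).2, degs H (stt H R t).2) :: (stt H R t).1 := rfl

lemma stt_succ_snd (t : ℕ) :
    (stt H R (t + 1)).2 = (stt H R t).2.erase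
      (R.pick (stt H R (t + 1)).1 (minVerts H (stt H R t).2)) := rfl

lemma minVerts_nonempty {A : Finset (Fin n)} (hA : A.Nonempty) : (minVerts H A).Nonempty := by
  obtain ⟨v, hv, h⟩ := Finset.exists_min_image A (degIn H A) hA
  exact ⟨v, Finset.mem_filter.2 ⟨hv, h⟩⟩

lemma minVerts_eq (A : Finset (Fin n)) :
    minVerts H A = A.filter fun v => ∀ w ∈ A, degs H A v ≤ degs H A w := by
  unfold minVerts
  apply Finset.filter_congr
  intro v hv
  constructor
  · intro h w hw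
    simpa [degs, hv, hw] using h w hw
  · intro h w hw
    simpa [degs, hv, hw] using h w hw

end Gen

variable (S : Finset (Fin n)) (R : TieRule n)

lemma As_zero (ω : Om n) : As S R 0 ω = univ := rfl

lemma As_succ (t : ℕ) (ω : Om n) : As S R (t + 1) ω = (As S R t ω).erase (uu S R t ω) := rfl

lemma hs_zero (ω : Om n) : hs S R 0 ω = [(As S R 0 ω, degs (Hg S ω) (As S R 0 ω))] := rfl

lemma hs_succ (t : ℕ) (ω : Om n) :
    hs S R (t + 1) ω = (As S R (t + 1) ω, degs (Hg S ω) (As S R (t + 1) ω)) :: hs S R t ω := rfl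

lemma hs_head (t : ℕ) (ω : Om n) :
    (hs S R t ω).head? = some (As S R t ω, degs (Hg S ω) (As S R t ω)) := by
  cases t <;> rfl

lemma uu_mem {t : ℕ} {ω : Om n} (h : (As S R t ω).Nonempty) : uu S R t ω ∈ As S R t ω := by
  have := R.pick_mem (hs S R t ω) _ (minVerts_nonempty (Hg S ω) h)
  exact (Finset.mem_filter.1 this).1

lemma uu_min {t : ℕ} {ω : Om n} {v : Fin n} (hv : v ∈ As S R t ω) :
    degIn (Hg S ω) (As S R t ω) (uu S R t ω) ≤ degIn (Hg S ω) (As S R t ω) v := by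
  have := R.pick_mem (hs S R t ω) _ (minVerts_nonempty (Hg S ω) ⟨v, hv⟩)
  exact (Finset.mem_filter.1 this).2 v hv

lemma card_As {t : ℕ} (ht : t ≤ n) (ω : Om n) : (As S R t ω).card = n - t := by
  induction t with
  | zero => simp [As_zero]
  | succ t ih =>
    have ih := ih (by omega)
    have hne : (As S R t ω).Nonempty := by
      rw [← Finset.card_pos, ih]; omega
    rw [As_succ, Finset.card_erase_of_mem (uu_mem S R hne), ih]
    omega

lemma As_nonempty {t : ℕ} (ht : t < n) (ω : Om n) : (As S R t ω).Nonempty := by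
  rw [← Finset.card_pos, card_As S R ht.le]
  omega

lemma uu_mem' {t : ℕ} (ht : t < n) (ω : Om n) : uu S R t ω ∈ As S R t ω :=
  uu_mem S R (As_nonempty S R ht ω)

lemma As_subset_succ (t : ℕ) (ω : Om n) : As S R (t + 1) ω ⊆ As S R t ω :=
  Finset.erase_subset _ _

lemma As_anti {s t : ℕ} (h : s ≤ t) (ω : Om n) : As S R t ω ⊆ As S R s ω := by
  induction t, h using Nat.le_induction with
  | base => exact subset_rfl
  | succ t _ ih => exact (As_subset_succ S R t ω).trans ih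

lemma Ns_anti {s t : ℕ} (h : s ≤ t) (ω : Om n) : Ns S R t ω ⊆ Ns S R s ω :=
  Finset.sdiff_subset_sdiff (As_anti S R h ω) subset_rfl

lemma Ss_anti {s t : ℕ} (h : s ≤ t) (ω : Om n) : Ss S R t ω ⊆ Ss S R s ω :=
  Finset.inter_subset_inter (As_anti S R h ω) subset_rfl

lemma mem_Ns {t : ℕ} {ω : Om n} {v : Fin n} :
    v ∈ Ns S R t ω ↔ v ∈ As S R t ω ∧ v ∉ S := by simp [Ns]

lemma mem_Ss {t : ℕ} {ω : Om n} {v : Fin n} :
    v ∈ Ss S R t ω ↔ v ∈ As S R t ω ∧ v ∈ S := by simp [Ss]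

lemma card_Ns_add (t : ℕ) (ω : Om n) :
    (Ns S R t ω).card + (Ss S R t ω).card = (As S R t ω).card := by
  unfold Ns Ss
  rw [Finset.card_sdiff_add_card_inter]

lemma card_Ss_le (t : ℕ) (ω : Om n) : (Ss S R t ω).card ≤ S.card :=
  Finset.card_le_card Finset.inter_subset_right

lemma Ns_succ_of_notMem {t : ℕ} {ω : Om n} (h : uu S R t ω ∉ S) :
    Ns S R (t + 1) ω = (Ns S R t ω).erase (uu S R t ω) := by
  ext v
  simp only [mem_Ns, As_succ, Finset.mem_erase]
  tauto

lemma Ss_succ_of_notMem {t : ℕ} {ω : Om n} (h : uu S R t ω ∉ S) :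
    Ss S R (t + 1) ω = Ss S R t ω := by
  ext v
  simp only [mem_Ss, As_succ, Finset.mem_erase]
  constructor
  · tauto
  · rintro ⟨h1, h2⟩
    exact ⟨⟨fun h3 => h (h3 ▸ h2), h1⟩, h2⟩

lemma Ns_succ_of_mem {t : ℕ} {ω : Om n} (h : uu S R t ω ∈ S) :
    Ns S R (t + 1) ω = Ns S R t ω := by
  ext v
  simp only [mem_Ns, As_succ, Finset.mem_erase]
  constructor
  · tauto
  · rintro ⟨h1, h2⟩
    exact ⟨⟨fun h3 => h2 (h3 ▸ h), h1⟩, h2⟩

lemma Ss_succ_of_mem {t : ℕ} {ω : Om n} (h : uu S R t ω ∈ S) :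
    Ss S R (t + 1) ω = (Ss S R t ω).erase (uu S R t ω) := by
  ext v
  simp only [mem_Ss, As_succ, Finset.mem_erase]
  tauto

/-! ### Functions of the history -/

variable {S R}

lemma HM.const {β : Type*} {t : ℕ} (c : β) : HM S R t fun _ : Om n => c := fun _ _ _ => rfl

lemma HM.comp {β γ : Type*} {t : ℕ} {F : Om n → β} (f : β → γ) (hF : HM S R t F) :
    HM S R t fun ω => f (F ω) := fun ω ω' h => congrArg f (hF ω ω' h)

lemma HM.comp₂ {β γ δ : Type*} {t : ℕ} {F : Om n → β} {G : Om n → γ} (f : β → γ → δ)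
    (hF : HM S R t F) (hG : HM S R t G) : HM S R t fun ω => f (F ω) (G ω) :=
  fun ω ω' h => by simp only [hF ω ω' h, hG ω ω' h]

lemma HM.of_eq {β : Type*} {t : ℕ} {F G : Om n → β} (hF : HM S R t F) (h : ∀ ω, G ω = F ω) :
    HM S R t G := fun ω ω' h' => by rw [h, h, hF ω ω' h']

lemma HM.succ {β : Type*} {t : ℕ} {F : Om n → β} (hF : HM S R t F) : HM S R (t + 1) F := by
  intro ω ω' h
  rw [hs_succ, hs_succ] at h
  exact hF ω ω' (List.cons.inj h).2

lemma HM.mono {β : Type*} {s t : ℕ} {F : Om n → β} (hF : HM S R s F) (h : s ≤ t) :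
    HM S R t F := by
  induction t, h using Nat.le_induction with
  | base => exact hF
  | succ t _ ih => exact ih.succ

lemma HM_hs (t : ℕ) : HM S R t (hs S R t) := fun _ _ h => h

lemma HM_As_degs (t : ℕ) :
    HM S R t fun ω => (As S R t ω, degs (Hg S ω) (As S R t ω)) := by
  intro ω ω' h
  have h1 := hs_head S R t ω
  have h2 := hs_head S R t ω'
  rw [h] at h1
  exact Option.some.inj (h1.symm.trans h2)

lemma HM_As (t : ℕ) : HM S R t (As S R t) := (HM_As_degs t).comp Prod.fst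

lemma HM_degs (t : ℕ) : HM S R t fun ω => degs (Hg S ω) (As S R t ω) :=
  (HM_As_degs t).comp Prod.snd

lemma HM_uu (t : ℕ) : HM S R t (uu S R t) := by
  intro ω ω' h
  unfold uu
  rw [h, minVerts_eq, minVerts_eq]
  have h1 := HM_As t ω ω' h
  have h2 := HM_degs t ω ω' h
  simp only at h2
  rw [h2, h1]

lemma HM_Ns (t : ℕ) : HM S R t (Ns S R t) := (HM_As t).comp fun A => A \ S

lemma HM_Ss (t : ℕ) : HM S R t (Ss S R t) := (HM_As t).comp fun A => A ∩ S

/-- Sum of the signs seen by `v` in the current set (meaningful for `v` in it). -/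
noncomputable def yv (S : Finset (Fin n)) (R : TieRule n) (t : ℕ) (ω : Om n) (v : Fin n) : ℝ :=
  2 * (degs (Hg S ω) (As S R t ω) v : ℝ) - ((As S R t ω).card - 1)

/-- Sum of the signs without the planted contribution. -/
noncomputable def xv (S : Finset (Fin n)) (R : TieRule n) (t : ℕ) (ω : Om n) (v : Fin n) : ℝ :=
  yv S R t ω v - if v ∈ S then ((Ss S R t ω).card - 1 : ℝ) else 0

lemma HM_yv (t : ℕ) : HM S R t (yv S R t) := by
  intro ω ω' h
  funext v
  unfold yv
  have h1 := HM_As t ω ω' h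
  have h2 := HM_degs t ω ω' h
  simp only at h2
  rw [h1] at h2 ⊢
  rw [h2]

lemma HM_xv (t : ℕ) : HM S R t (xv S R t) := by
  intro ω ω' h
  funext v
  unfold xv
  rw [HM_yv t ω ω' h, HM_Ss t ω ω' h]

lemma yv_eq {t : ℕ} {ω : Om n} {v : Fin n} (hv : v ∈ As S R t ω) :
    yv S R t ω v = ∑ z ∈ As S R t ω, ep S ω v z := by
  have := two_degIn S ω hv
  unfold yv degs
  rw [if_pos hv, this]
  ring

lemma yu_le {t : ℕ} {ω : Om n} {v : Fin n} (hv : v ∈ As S R t ω) :
    yv S R t ω (uu S R t ω) ≤ yv S R t ω v := by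
  have h := uu_min S R hv
  have hu := uu_mem S R ⟨v, hv⟩
  unfold yv degs
  rw [if_pos hv, if_pos hu]
  have : (degIn (Hg S ω) (As S R t ω) (uu S R t ω) : ℝ) ≤ degIn (Hg S ω) (As S R t ω) v := by
    exact_mod_cast h
  linarith

lemma xv_eq_of_notMem {t : ℕ} {ω : Om n} {v : Fin n} (hv : v ∈ Ns S R t ω) :
    xv S R t ω v = ∑ z ∈ As S R t ω, e0 ω v z := by
  obtain ⟨h1, h2⟩ := (mem_Ns S R).1 hv
  unfold xv
  rw [yv_eq h1, if_neg h2, sub_zero]
  exact Finset.sum_congr rfl fun z _ => ep_eq_e0 S ω (Or.inl h2)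

lemma sum_As {t : ℕ} {ω : Om n} (f : Fin n → ℝ) :
    ∑ z ∈ As S R t ω, f z = ∑ z ∈ Ns S R t ω, f z + ∑ z ∈ Ss S R t ω, f z := by
  have h : As S R t ω = Ns S R t ω ∪ Ss S R t ω := by
    unfold Ns Ss
    rw [Finset.sdiff_union_inter]
  have hd : Disjoint (Ns S R t ω) (Ss S R t ω) := Finset.disjoint_sdiff_inter _ _
  conv_lhs => rw [h]
  exact Finset.sum_union hd

lemma xv_eq_of_mem {t : ℕ} {ω : Om n} {v : Fin n} (hv : v ∈ Ss S R t ω) :
    xv S R t ω v = ∑ z ∈ Ns S R t ω, e0 ω v z := by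
  obtain ⟨h1, h2⟩ := (mem_Ss S R).1 hv
  unfold xv
  rw [yv_eq h1, if_pos h2, sum_As]
  have h3 : ∑ z ∈ Ss S R t ω, ep S ω v z = (Ss S R t ω).card - 1 := by
    rw [← Finset.add_sum_erase _ _ hv, ep_self, zero_add]
    rw [Finset.sum_congr rfl (g := fun _ => (1:ℝ)) fun z hz => ?_]
    · rw [Finset.sum_const, nsmul_eq_mul, mul_one, Finset.card_erase_of_mem hv]
      have : 1 ≤ (Ss S R t ω).card := Finset.card_pos.2 ⟨v, hv⟩
      push_cast [Nat.cast_sub this]
      ring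
    · exact ep_planted S ω h2 ((mem_Ss S R).1 (Finset.mem_of_mem_erase hz)).2
        (Finset.ne_of_mem_erase hz).symm
  rw [h3, add_sub_cancel_right]
  exact Finset.sum_congr rfl fun z hz => ep_eq_e0 S ω (Or.inr ((mem_Ns S R).1 hz).2)

end Pool.Agent.H40.Peel
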