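import Mathlib

/-!
Elementary sums.
-/

namespace Pool.Agent.H40.Peel

open Finset

/-- Abel summation for increasing weights. -/
lemma abel (T : ℕ) (f R : ℕ → ℝ) (M κ : ℝ) (hf : ∀ s < T, f s ≤ f (s + 1))
    (hf0 : ∀ s ≤ T, 0 ≤ f s)
    (hR : ∀ s ≤ T, ∑ t ∈ Ico s T, R t ≤ κ * (M + ((T - s : ℕ) : ℝ))) :
    ∀ s ≤ T, ∑ t ∈ Ico s T, f t * R t ≤ κ * (∑ t ∈ Ico s T, f t + f T * M) := by
  have key : ∀ j ≤ T, ∑ t ∈ Ico (T - j) T, f t * R t -
      κ * (∑ t ∈ Ico (T - j) T, f t + f T * M) ≤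
      f (T - j) * (∑ t ∈ Ico (T - j) T, R t - κ * (M + (j : ℝ))) := by
    intro j
    induction j with
    | zero => intro _; simp; ring_nf; exact le_rfl
    | succ j ih =>
      intro hj
      have ih := ih (by omega)
      have e1 : T - j = (T - (j + 1)) + 1 := by omega
      have hlt : T - (j + 1) < T := by omega
      rw [Finset.sum_eq_sum_Ico_succ_bot hlt, Finset.sum_eq_sum_Ico_succ_bot hlt,
        Finset.sum_eq_sum_Ico_succ_bot hlt (fun t => R t), ← e1]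
      have hD := hR (T - j) (by omega)
      have e2 : ((T - (T - j) : ℕ) : ℝ) = j := by
        have : T - (T - j) = j := by omega
        rw [this]
      rw [e2] at hD
      have hmono : f (T - (j + 1)) ≤ f (T - j) := by
        have := hf _ hlt
        rwa [← e1] at this
      push_cast
      nlinarith
  intro s hs
  have h1 := key (T - s) (by omega)
  have e1 : T - (T - s) = s := by omega
  rw [e1] at h1
  have h2 := hR s hs
  have h3 := hf0 s hs
  nlinarith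

lemma inv_sqrt_step {m : ℝ} (hm : 1 < m) :
    1 / (m * √m) ≤ 2 * (1 / √(m - 1) - 1 / √m) := by
  have h0 : 0 < m := by linarith
  have h1 : 0 < m - 1 := by linarith
  obtain ⟨a, ha⟩ : ∃ a, a = √m := ⟨_, rfl⟩
  obtain ⟨b, hb⟩ : ∃ b, b = √(m - 1) := ⟨_, rfl⟩
  rw [← ha, ← hb]
  have ha0 : 0 < a := ha ▸ Real.sqrt_pos.2 h0
  have hb0 : 0 < b := hb ▸ Real.sqrt_pos.2 h1
  have ha2 : a ^ 2 = m := by rw [ha]; exact Real.sq_sqrt h0.le
  have hb2 : b ^ 2 = m - 1 := by rw [hb]; exact Real.sq_sqrt h1.le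
  have hba : b ≤ a := by
    rw [ha, hb]; exact Real.sqrt_le_sqrt (by linarith)
  rw [← ha2]
  have e : 2 * (1 / b - 1 / a) = 2 * (a - b) / (a * b) := by field_simp
  rw [e, div_le_div_iff₀ (by positivity) (by positivity)]
  have h2 : (a - b) * (a + b) = 1 := by nlinarith
  have h3 : 1 ≤ (a - b) * (2 * a) := by
    have : 0 ≤ a - b := by linarith
    nlinarith
  have h4 : a * b ≤ a * a := mul_le_mul_of_nonneg_left hba ha0.le
  calc 1 * (a * b) ≤ ((a - b) * (2 * a)) * (a * a) :=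
        mul_le_mul h3 h4 (by positivity) (by nlinarith)
    _ = _ := by ring

lemma sqrt_step {m : ℝ} (hm : 1 ≤ m) : 1 / √m ≤ 2 * (√m - √(m - 1)) := by
  have h0 : 0 < m := by linarith
  obtain ⟨a, ha⟩ : ∃ a, a = √m := ⟨_, rfl⟩
  obtain ⟨b, hb⟩ : ∃ b, b = √(m - 1) := ⟨_, rfl⟩
  rw [← ha, ← hb]
  have ha0 : 0 < a := ha ▸ Real.sqrt_pos.2 h0
  have hb0 : 0 ≤ b := hb ▸ Real.sqrt_nonneg _
  have ha2 : a ^ 2 = m := by rw [ha]; exact Real.sq_sqrt h0.le
  have hb2 : b ^ 2 = m - 1 := by rw [hb]; exact Real.sq_sqrt (by linarith)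
  have hba : b ≤ a := by
    rw [ha, hb]; exact Real.sqrt_le_sqrt (by linarith)
  rw [div_le_iff₀ ha0]
  nlinarith

/-- `∑ m^{-3/2}`. -/
lemma sum_inv32 (n : ℕ) : ∀ T < n, ∑ t ∈ range T, 1 / (((n - t : ℕ) : ℝ) * √((n - t : ℕ) : ℝ)) ≤
    2 / √((n - T : ℕ) : ℝ) := by
  intro T
  induction T with
  | zero => intro _; simp; positivity
  | succ T ih =>
    intro hT
    have ih := ih (by omega)
    rw [Finset.sum_range_succ]
    have h1 : (1:ℝ) < ((n - T : ℕ) : ℝ) := by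
      have : 1 < n - T := by omega
      exact_mod_cast this
    have h2 := inv_sqrt_step h1
    have h3 : ((n - (T + 1) : ℕ) : ℝ) = ((n - T : ℕ) : ℝ) - 1 := by
      have : n - T = (n - (T + 1)) + 1 := by omega
      rw [this]; push_cast; ring
    rw [h3]
    have e1 : 2 / √(((n - T : ℕ) : ℝ) - 1) = 2 * (1 / √(((n - T : ℕ) : ℝ) - 1)) := by ring
    have e2 : 2 / √((n - T : ℕ) : ℝ) = 2 * (1 / √((n - T : ℕ) : ℝ)) := by ring
    rw [e1]
    rw [e2] at ih
    linarith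

/-- `∑ m^{-1/2}`. -/
lemma sum_inv12 (n t0 : ℕ) : ∀ T, t0 ≤ T → T ≤ n →
    ∑ t ∈ Ico t0 T, 1 / √((n - t : ℕ) : ℝ) ≤
      2 * (√((n - t0 : ℕ) : ℝ) - √((n - T : ℕ) : ℝ)) := by
  intro T hT
  induction T, hT using Nat.le_induction with
  | base => intro _; simp
  | succ T hT ih =>
    intro hTn
    have ih := ih (by omega)
    rw [Finset.sum_Ico_succ_top hT]
    have h1 : (1:ℝ) ≤ ((n - T : ℕ) : ℝ) := by
      have : 1 ≤ n - T := by omega
      exact_mod_cast this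
    have h2 := sqrt_step h1
    have h3 : ((n - (T + 1) : ℕ) : ℝ) = ((n - T : ℕ) : ℝ) - 1 := by
      have : n - T = (n - (T + 1)) + 1 := by omega
      rw [this]; push_cast; ring
    rw [h3]
    linarith

/-- The growth factor is absorbed by `√m`. -/
lemma growth_step {m : ℝ} (hm : 1 ≤ m) : √(m - 1) * (1 + 1 / (2 * m)) ≤ √m := by
  have h0 : 0 < m := by linarith
  apply Real.le_sqrt_of_sq_le
  rw [mul_pow, Real.sq_sqrt (by linarith)]
  have e : (m - 1) * (1 + 1 / (2 * m)) ^ 2 = m - 3 / (4 * m) - 1 / (4 * m ^ 2) := by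
    field_simp
    ring
  rw [e]
  have : 0 ≤ 3 / (4 * m) := by positivity
  have : 0 ≤ 1 / (4 * m ^ 2) := by positivity
  linarith

end Pool.Agent.H40.Peel
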