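import Pool.Agent.H40.Peel.Core

/-!
Summed form of the switching identity.
-/

namespace Pool.Agent.H40.Peel

open Finset

variable {n : ℕ} {S : Finset (Fin n)} {R : TieRule n}

/-- The configurations to which the switching identity applies. -/
def Okc (S : Finset (Fin n)) (R : TieRule n) (t : ℕ) (ω : Om n) (v v' z : Fin n) : Prop :=
  Dist4 v v' (uu S R t ω) z ∧ v ∈ As S R t ω ∧ v' ∈ As S R t ω ∧ z ∈ As S R t ω ∧ v' ∉ S ∧
    (v ∉ S ∨ (uu S R t ω ∉ S ∧ z ∉ S))

theorem sw_sum {t : ℕ} (ht : t < n) (c : Om n → Fin n → Fin n → Fin n → ℝ) (hc : HM S R t c)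
    (hok : ∀ ω v v' z, c ω v v' z ≠ 0 → Okc S R t ω v v' z)
    (G : Fin n → Fin n → Fin n → Fin n → Om n → ℝ)
    (hG : ∀ v v' u z, Dist4 v v' u z → (∃ ω, c ω v v' z ≠ 0) →
      ∀ ω, G v v' u z (fl4 v v' u z ω) = G v v' u z ω) :
    E (fun ω => ∑ v, ∑ v', ∑ z,
      c ω v v' z * G v v' (uu S R t ω) z ω * gsw ω v v' (uu S R t ω) z) = 0 := by
  classical
  rw [E_sum]
  apply Finset.sum_eq_zero
  intro v _
  rw [E_sum]
  apply Finset.sum_eq_zero
  intro v' _
  rw [E_sum]
  apply Finset.sum_eq_zero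
  intro z _
  have h1 : ∀ ω, c ω v v' z * G v v' (uu S R t ω) z ω * gsw ω v v' (uu S R t ω) z =
      ∑ u : Fin n, if uu S R t ω = u then c ω v v' z * G v v' u z ω * gsw ω v v' u z else 0 := by
    intro ω
    rw [Finset.sum_ite_eq]
    simp
  rw [E_congr h1, E_sum]
  apply Finset.sum_eq_zero
  intro u _
  by_cases hd : Dist4 v v' u z ∧ v' ∉ S ∧ (v ∉ S ∨ (u ∉ S ∧ z ∉ S)) ∧ ∃ ω, c ω v v' z ≠ 0
  · obtain ⟨hd, hv', hv, hex⟩ := hd
    have hF : HM S R t fun ω => if uu S R t ω = u then c ω v v' z else 0 :=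
      (HM_uu t).comp₂ (fun a b => if a = u then b else 0)
        (hc.comp fun f => f v v' z)
    have := switching hd (t := t) hv' hv hF (hG v v' u z hd hex)
    refine (E_congr fun ω => ?_).trans this
    by_cases hu : uu S R t ω = u
    · simp only [hu, if_true]
      by_cases h0 : c ω v v' z = 0
      · simp [h0]
      · obtain ⟨-, a, b, d, -, -⟩ := hok ω v v' z h0
        have huA : u ∈ As S R t ω := hu ▸ uu_mem' S R ht ω
        rw [if_pos ⟨a, b, huA, d⟩]
    · simp [hu]
  · refine (E_congr fun ω => ?_).trans (E_const (n := n) 0)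
    by_cases hu : uu S R t ω = u
    · subst hu
      by_cases h0 : c ω v v' z = 0
      · simp [h0]
      · obtain ⟨a, -, -, -, e, f⟩ := hok ω v v' z h0
        exact absurd ⟨a, e, f, ω, h0⟩ hd
    · simp [hu]

/-- The coefficient array: weight `w` on `v`, all admissible `v'`, `z`. -/
noncomputable def cof (S : Finset (Fin n)) (R : TieRule n) (t : ℕ) (ω : Om n) (w : Fin n → ℝ)
    (v v' z : Fin n) : ℝ :=
  if v ∈ As S R t ω ∧ v' ∈ (Ns S R t ω).erase (uu S R t ω) ∧ z ∈ Ns S R t ω ∧ v ≠ v' ∧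
    z ≠ v ∧ z ≠ v' ∧ z ≠ uu S R t ω then w v else 0

/-- The switching sum, without the degenerate terms. -/
noncomputable def Lc (S : Finset (Fin n)) (R : TieRule n) (t : ℕ) (ω : Om n) (w : Fin n → ℝ) :
    ℝ := ∑ v, ∑ v', ∑ z, cof S R t ω w v v' z * gsw ω v v' (uu S R t ω) z

/-- Support condition on weights. -/
def Sup (S : Finset (Fin n)) (R : TieRule n) (t : ℕ) (w : Om n → Fin n → ℝ) : Prop :=
  ∀ ω v, w ω v ≠ 0 → v ∈ As S R t ω ∧ v ≠ uu S R t ω ∧ (uu S R t ω ∈ S → v ∉ S)

lemma HM_cof {t : ℕ} {w : Om n → Fin n → ℝ} (hw : HM S R t w) :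
    HM S R t fun ω => cof S R t ω (w ω) := by
  intro ω ω' h
  funext v v' z
  unfold cof
  simp only [HM_As t ω ω' h, HM_Ns t ω ω' h, HM_uu t ω ω' h, hw ω ω' h]

lemma cof_ok {t : ℕ} {w : Om n → Fin n → ℝ} (hs : Sup S R t w) {ω : Om n} {v v' z : Fin n}
    (h : cof S R t ω (w ω) v v' z ≠ 0) : Okc S R t ω v v' z := by
  unfold cof at h
  split_ifs at h with hc
  · obtain ⟨h1, h2, h3, h4, h5, h6, h7⟩ := hc
    obtain ⟨g1, g2, g3⟩ := hs ω v h
    have k2 := Finset.mem_erase.1 h2
    have k3 := (mem_Ns S R).1 k2.2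
    have k4 := (mem_Ns S R).1 h3
    refine ⟨⟨h4, g2, h5.symm, k2.1, h6.symm, h7.symm⟩, h1, k3.1, k4.1, k3.2, ?_⟩
    by_cases hu : uu S R t ω ∈ S
    · exact Or.inl (g3 hu)
    · exact Or.inr ⟨hu, k4.2⟩
  · exact absurd rfl h

/-- First order switching: `E[F * Lc] = 0`. -/
theorem E_Lc {t : ℕ} (ht : t < n) {F : Om n → ℝ} {w : Om n → Fin n → ℝ} (hF : HM S R t F)
    (hw : HM S R t w) (hs : Sup S R t w) :
    E (fun ω => F ω * Lc S R t ω (w ω)) = 0 := by
  have h1 := sw_sum ht (fun ω v v' z => F ω * cof S R t ω (w ω) v v' z)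
    (hF.comp₂ (fun a b v v' z => a * b v v' z) (HM_cof hw))
    (fun ω v v' z h => cof_ok hs (right_ne_zero_of_mul h)) (fun _ _ _ _ _ => 1)
    (fun _ _ _ _ _ _ _ => rfl)
  rw [← h1]
  apply E_congr
  intro ω
  unfold Lc
  simp only [Finset.mul_sum]
  refine Finset.sum_congr rfl fun v _ => Finset.sum_congr rfl fun v' _ =>
    Finset.sum_congr rfl fun z _ => by ring

/-- Second order switching. -/
theorem E_Lc_mul {t : ℕ} (ht : t < n) {F : Om n → ℝ} {w d : Om n → Fin n → ℝ}
    (hF : HM S R t F) (hw : HM S R t w) (hs : Sup S R t w) (hd : HM S R t d) :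
    |E (fun ω => F ω * Lc S R t ω (w ω) * ∑ x, d ω x * e0 ω x (uu S R t ω))| ≤
      E fun ω => |F ω| * ∑ v, ∑ v', ∑ z,
        |cof S R t ω (w ω) v v' z| * (8 * (|d ω v| + |d ω v'|)) := by
  classical
  -- the part with `x ∉ {v, v'}` vanishes
  have h1 : ∀ x : Fin n, E (fun ω => ∑ v, ∑ v', ∑ z,
      (if x ≠ v ∧ x ≠ v' ∧ x ≠ uu S R t ω then F ω * d ω x * cof S R t ω (w ω) v v' z else 0) *
        e0 ω x (uu S R t ω) * gsw ω v v' (uu S R t ω) z) = 0 := by
    intro x
    have := sw_sum ht (fun ω v v' z =>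
      if x ≠ v ∧ x ≠ v' ∧ x ≠ uu S R t ω then F ω * d ω x * cof S R t ω (w ω) v v' z else 0)
      (by
        intro ω ω' h
        funext v v' z
        have a1 : uu S R t ω = uu S R t ω' := HM_uu t ω ω' h
        have a2 : cof S R t ω (w ω) = cof S R t ω' (w ω') := HM_cof hw ω ω' h
        beta_reduce
        rw [a1, a2, hF ω ω' h, hd ω ω' h])
      (fun ω v v' z h => by
        split_ifs at h with hc
        · exact cof_ok hs (right_ne_zero_of_mul h)
        · exact absurd rfl h)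
      (fun _ _ u _ ω => e0 ω x u)
      (fun v v' u z hd' hex ω => by
        obtain ⟨ω', h'⟩ := hex
        split_ifs at h' with hc
        · by_cases hxu : x = u
          · subst hxu; rw [e0_self, e0_self]
          · rw [e0_fl4 hd' ω hxu, if_neg]
            simp only [Sym2.eq_iff]
            obtain ⟨a1, a2, a3, a4, a5, a6⟩ := hd'
            tauto
        · exact absurd rfl h')
    exact this
  have h2 : E (fun ω => ∑ x, ∑ v, ∑ v', ∑ z,
      (if x ≠ v ∧ x ≠ v' ∧ x ≠ uu S R t ω then F ω * d ω x * cof S R t ω (w ω) v v' z else 0) *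
        e0 ω x (uu S R t ω) * gsw ω v v' (uu S R t ω) z) = 0 := by
    rw [E_sum]
    exact Finset.sum_eq_zero fun x _ => h1 x
  have h3 : E (fun ω => F ω * Lc S R t ω (w ω) * ∑ x, d ω x * e0 ω x (uu S R t ω)) =
      E (fun ω => F ω * Lc S R t ω (w ω) * (∑ x, d ω x * e0 ω x (uu S R t ω)) -
        ∑ x, ∑ v, ∑ v', ∑ z,
      (if x ≠ v ∧ x ≠ v' ∧ x ≠ uu S R t ω then F ω * d ω x * cof S R t ω (w ω) v v' z else 0) *
        e0 ω x (uu S R t ω) * gsw ω v v' (uu S R t ω) z) := by
    rw [E_sub, h2, sub_zero]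
  rw [h3]
  refine (abs_E_le _).trans (E_mono fun ω => ?_)
  set u := uu S R t ω with hu
  have h4 : F ω * Lc S R t ω (w ω) * (∑ x, d ω x * e0 ω x u) -
        ∑ x, ∑ v, ∑ v', ∑ z,
      (if x ≠ v ∧ x ≠ v' ∧ x ≠ u then F ω * d ω x * cof S R t ω (w ω) v v' z else 0) *
        e0 ω x u * gsw ω v v' u z =
      F ω * ∑ v, ∑ v', ∑ z, cof S R t ω (w ω) v v' z *
        (gsw ω v v' u z * ((if v = v' then 0 else d ω v * e0 ω v u) + d ω v' * e0 ω v' u)) := by
    have a1 : F ω * Lc S R t ω (w ω) * (∑ x, d ω x * e0 ω x u) =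
        ∑ x, ∑ v, ∑ v', ∑ z, F ω * cof S R t ω (w ω) v v' z * gsw ω v v' u z *
          (d ω x * e0 ω x u) := by
      unfold Lc
      rw [Finset.mul_sum]
      apply Finset.sum_congr rfl
      intro x _
      rw [← hu]
      simp only [Finset.mul_sum, Finset.sum_mul]
      refine Finset.sum_congr rfl fun v _ => Finset.sum_congr rfl fun v' _ =>
        Finset.sum_congr rfl fun z _ => by ring
    rw [a1, ← Finset.sum_sub_distrib]
    have a2 : ∀ x, (∑ v, ∑ v', ∑ z, F ω * cof S R t ω (w ω) v v' z * gsw ω v v' u z *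
          (d ω x * e0 ω x u)) - ∑ v, ∑ v', ∑ z,
      (if x ≠ v ∧ x ≠ v' ∧ x ≠ u then F ω * d ω x * cof S R t ω (w ω) v v' z else 0) *
        e0 ω x u * gsw ω v v' u z =
        ∑ v, ∑ v', ∑ z, F ω * cof S R t ω (w ω) v v' z * gsw ω v v' u z *
          (if x = v ∨ x = v' then d ω x * e0 ω x u else 0) := by
      intro x
      simp only [← Finset.sum_sub_distrib]
      refine Finset.sum_congr rfl fun v _ => Finset.sum_congr rfl fun v' _ =>
        Finset.sum_congr rfl fun z _ => ?_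
      by_cases hxu : x = u
      · subst hxu
        simp [e0_self]
      · by_cases hv : x = v
        · simp [hv]
        · by_cases hv' : x = v'
          · simp [hv']
          · simp only [hxu, hv, hv', ne_eq, not_false_eq_true, and_self, if_true, or_self,
              if_false, mul_zero]
            ring
    rw [Finset.sum_congr rfl fun x _ => a2 x]
    rw [Finset.sum_comm, Finset.mul_sum]
    apply Finset.sum_congr rfl
    intro v _
    rw [Finset.sum_comm, Finset.mul_sum]
    apply Finset.sum_congr rfl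
    intro v' _
    rw [Finset.sum_comm, Finset.mul_sum]
    apply Finset.sum_congr rfl
    intro z _
    rw [← Finset.mul_sum]
    have a3 : ∑ x, (if x = v ∨ x = v' then d ω x * e0 ω x u else 0) =
        (if v = v' then 0 else d ω v * e0 ω v u) + d ω v' * e0 ω v' u := by
      have : ∀ x, (if x = v ∨ x = v' then d ω x * e0 ω x u else 0) =
          (if x = v then (if v = v' then 0 else d ω v * e0 ω v u) else 0) +
            (if x = v' then d ω v' * e0 ω v' u else 0) := by
        intro x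
        by_cases b1 : x = v
        · subst b1
          by_cases b2 : x = v'
          · simp [b2]
          · simp [b2]
        · by_cases b2 : x = v'
          · simp [b2]
            intro h; exact absurd (b2.trans h) b1
          · simp [b1, b2]
      rw [Finset.sum_congr rfl fun x _ => this x, Finset.sum_add_distrib, Finset.sum_ite_eq',
        Finset.sum_ite_eq']
      simp
    rw [a3]
    ring
  rw [h4, abs_mul]
  apply mul_le_mul_of_nonneg_left _ (abs_nonneg _)
  refine (Finset.abs_sum_le_sum_abs _ _).trans (Finset.sum_le_sum fun v _ => ?_)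
  refine (Finset.abs_sum_le_sum_abs _ _).trans (Finset.sum_le_sum fun v' _ => ?_)
  refine (Finset.abs_sum_le_sum_abs _ _).trans (Finset.sum_le_sum fun z _ => ?_)
  rw [abs_mul]
  apply mul_le_mul_of_nonneg_left _ (abs_nonneg _)
  rw [abs_mul]
  have b1 : |(if v = v' then 0 else d ω v * e0 ω v u) + d ω v' * e0 ω v' u| ≤
      |d ω v| + |d ω v'| := by
    refine (abs_add_le _ _).trans (add_le_add ?_ ?_)
    · split_ifs
      · simp
      · rw [abs_mul]
        have := abs_e0_le ω v u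
        nlinarith [abs_nonneg (d ω v)]
    · rw [abs_mul]
      have := abs_e0_le ω v' u
      nlinarith [abs_nonneg (d ω v')]
  exact mul_le_mul (abs_gsw_le _ _ _ _ _) b1 (abs_nonneg _) (by norm_num)

end Pool.Agent.H40.Peel
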