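import Pool.Agent.H40.Peel.Proc

/-!
The switching identity.
-/

namespace Pool.Agent.H40.Peel

open Finset

variable {n : ℕ}

/-- The switching function. -/
noncomputable def gsw (ω : Om n) (v v' u z : Fin n) : ℝ :=
  (e0 ω v u - e0 ω v' u) * (1 - e0 ω v z * e0 ω v' z) -
    (e0 ω v z - e0 ω v' z) * (1 - e0 ω v u * e0 ω v' u)

/-- Flip the four pairs `vu, v'u, vz, v'z`. -/
def fl4 (v v' u z : Fin n) (ω : Om n) : Om n :=
  flp s(v, u) (flp s(v', u) (flp s(v, z) (flp s(v', z) ω)))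

lemma fl4_apply (v v' u z : Fin n) (ω : Om n) (e : Sym2 (Fin n))
    (h1 : s(v, u) ≠ s(v', u)) (h2 : s(v, u) ≠ s(v, z)) (h3 : s(v, u) ≠ s(v', z))
    (h4 : s(v', u) ≠ s(v, z)) (h5 : s(v', u) ≠ s(v', z)) (h6 : s(v, z) ≠ s(v', z)) :
    fl4 v v' u z ω e =
      if e = s(v, u) ∨ e = s(v', u) ∨ e = s(v, z) ∨ e = s(v', z) then !ω e else ω e := by
  unfold fl4
  by_cases c1 : e = s(v, u)
  · subst c1
    rw [flp_same, flp_ne h1, flp_ne h2, flp_ne h3]; simp
  rw [flp_ne c1]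
  by_cases c2 : e = s(v', u)
  · subst c2
    rw [flp_same, flp_ne h4, flp_ne h5]; simp
  rw [flp_ne c2]
  by_cases c3 : e = s(v, z)
  · subst c3
    rw [flp_same, flp_ne h6]; simp
  rw [flp_ne c3]
  by_cases c4 : e = s(v', z)
  · subst c4
    rw [flp_same]; simp
  rw [flp_ne c4]
  simp [c1, c2, c3, c4]

/-- The pairwise distinctness of four vertices. -/
def Dist4 (v v' u z : Fin n) : Prop :=
  v ≠ v' ∧ v ≠ u ∧ v ≠ z ∧ v' ≠ u ∧ v' ≠ z ∧ u ≠ z

lemma fl4_apply' {v v' u z : Fin n} (h : Dist4 v v' u z) (ω : Om n) (e : Sym2 (Fin n)) :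
    fl4 v v' u z ω e =
      if e = s(v, u) ∨ e = s(v', u) ∨ e = s(v, z) ∨ e = s(v', z) then !ω e else ω e := by
  obtain ⟨h1, h2, h3, h4, h5, h6⟩ := h
  apply fl4_apply <;> simp only [ne_eq, Sym2.eq_iff] <;> tauto

lemma fl4_fl4 {v v' u z : Fin n} (h : Dist4 v v' u z) (ω : Om n) :
    fl4 v v' u z (fl4 v v' u z ω) = ω := by
  funext e
  rw [fl4_apply' h, fl4_apply' h]
  split_ifs <;> simp

lemma E_fl4 (v v' u z : Fin n) (f : Om n → ℝ) :
    E (fun ω => f (fl4 v v' u z ω)) = E f := by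
  unfold fl4
  rw [E_flp s(v', z) (fun ω => f (flp s(v, u) (flp s(v', u) (flp s(v, z) ω)))),
    E_flp s(v, z) (fun ω => f (flp s(v, u) (flp s(v', u) ω))),
    E_flp s(v', u) (fun ω => f (flp s(v, u) ω)), E_flp s(v, u) f]

lemma e0_fl4 {v v' u z : Fin n} (h : Dist4 v v' u z) (ω : Om n) {x y : Fin n} (hxy : x ≠ y) :
    e0 (fl4 v v' u z ω) x y =
      if s(x, y) = s(v, u) ∨ s(x, y) = s(v', u) ∨ s(x, y) = s(v, z) ∨ s(x, y) = s(v', z)
      then - e0 ω x y else e0 ω x y := by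
  rw [e0_of_ne _ hxy, e0_of_ne _ hxy, fl4_apply' h]
  split_ifs
  · rw [sg_not]
  · rfl

lemma gsw_fl4 {v v' u z : Fin n} (h : Dist4 v v' u z) (ω : Om n) :
    gsw (fl4 v v' u z ω) v v' u z = - gsw ω v v' u z := by
  obtain ⟨h1, h2, h3, h4, h5, h6⟩ := id h
  unfold gsw
  rw [e0_fl4 h ω h2, e0_fl4 h ω h4, e0_fl4 h ω h3, e0_fl4 h ω h5]
  simp only [true_or, or_true, if_true]
  ring

lemma e0_cases (ω : Om n) {v z : Fin n} (h : v ≠ z) : e0 ω v z = 1 ∨ e0 ω v z = -1 := by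
  rw [e0_of_ne ω h]
  exact sg_cases _

lemma gsw_ne_zero {v v' u z : Fin n} (h : Dist4 v v' u z) {ω : Om n}
    (hg : gsw ω v v' u z ≠ 0) :
    e0 ω v u + e0 ω v z = 0 ∧ e0 ω v' u + e0 ω v' z = 0 ∧ e0 ω v u + e0 ω v' u = 0 ∧
      e0 ω v z + e0 ω v' z = 0 := by
  obtain ⟨h1, h2, h3, h4, h5, h6⟩ := id h
  unfold gsw at hg
  rcases e0_cases ω h2 with a | a <;> rcases e0_cases ω h4 with b | b <;>
    rcases e0_cases ω h3 with c | c <;> rcases e0_cases ω h5 with d | d <;>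
    rw [a, b, c, d] at hg ⊢ <;> first | (exfalso; norm_num at hg; done) | norm_num

lemma abs_gsw_le (ω : Om n) (v v' u z : Fin n) : |gsw ω v v' u z| ≤ 8 := by
  unfold gsw
  have a := abs_e0_le ω v u
  have b := abs_e0_le ω v' u
  have c := abs_e0_le ω v z
  have d := abs_e0_le ω v' z
  have h1 : |e0 ω v u - e0 ω v' u| ≤ 2 := (abs_sub _ _).trans (by linarith)
  have h2 : |e0 ω v z - e0 ω v' z| ≤ 2 := (abs_sub _ _).trans (by linarith)
  have h3 : |1 - e0 ω v z * e0 ω v' z| ≤ 2 := by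
    refine (abs_sub _ _).trans ?_
    rw [abs_one, abs_mul]
    nlinarith [abs_nonneg (e0 ω v z), abs_nonneg (e0 ω v' z)]
  have h4 : |1 - e0 ω v u * e0 ω v' u| ≤ 2 := by
    refine (abs_sub _ _).trans ?_
    rw [abs_one, abs_mul]
    nlinarith [abs_nonneg (e0 ω v u), abs_nonneg (e0 ω v' u)]
  refine (abs_sub _ _).trans ?_
  rw [abs_mul, abs_mul]
  nlinarith [abs_nonneg (e0 ω v u - e0 ω v' u), abs_nonneg (e0 ω v z - e0 ω v' z),
    abs_nonneg (1 - e0 ω v z * e0 ω v' z), abs_nonneg (1 - e0 ω v u * e0 ω v' u)]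

lemma sum_eq_of_two {A : Finset (Fin n)} {f g : Fin n → ℝ} {a b : Fin n} (ha : a ∈ A)
    (hb : b ∈ A) (hab : a ≠ b) (h : ∀ y ∈ A, y ≠ a → y ≠ b → f y = g y)
    (h2 : f a + f b = g a + g b) : ∑ y ∈ A, f y = ∑ y ∈ A, g y := by
  have hb' : b ∈ A.erase a := Finset.mem_erase.2 ⟨hab.symm, hb⟩
  rw [← Finset.add_sum_erase A f ha, ← Finset.add_sum_erase A g ha,
    ← Finset.add_sum_erase _ f hb', ← Finset.add_sum_erase _ g hb',
    Finset.sum_congr rfl (g := g) fun y hy => ?_]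
  · linarith
  · have h1 := Finset.mem_erase.1 hy
    have h3 := Finset.mem_erase.1 h1.2
    exact h y h3.2 h3.1 h1.1

lemma ep_fl4_of {S : Finset (Fin n)} {v v' u z : Fin n} (h : Dist4 v v' u z) (ω : Om n)
    {x y : Fin n}
    (hxy : ¬ (s(x, y) = s(v, u) ∨ s(x, y) = s(v', u) ∨ s(x, y) = s(v, z) ∨
      s(x, y) = s(v', z))) :
    ep S (fl4 v v' u z ω) x y = ep S ω x y := by
  unfold ep
  split_ifs
  · rfl
  · rfl
  · rw [fl4_apply' h, if_neg hxy]

lemma degs_fl4 {S : Finset (Fin n)} {v v' u z : Fin n} (h : Dist4 v v' u z) {ω : Om n}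
    (hv' : v' ∉ S) (hv : v ∉ S ∨ (u ∉ S ∧ z ∉ S))
    (hg : gsw ω v v' u z ≠ 0) {A : Finset (Fin n)} (hvA : v ∈ A) (hvA' : v' ∈ A) (huA : u ∈ A)
    (hzA : z ∈ A) : degs (Hg S (fl4 v v' u z ω)) A = degs (Hg S ω) A := by
  obtain ⟨g1, g2, g3, g4⟩ := gsw_ne_zero h hg
  obtain ⟨h1, h2, h3, h4, h5, h6⟩ := id h
  have evu : ep S ω v u = e0 ω v u := ep_eq_e0 S ω (by tauto)
  have evz : ep S ω v z = e0 ω v z := ep_eq_e0 S ω (by tauto)
  have evu' : ep S ω v' u = e0 ω v' u := ep_eq_e0 S ω (Or.inl hv')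
  have evz' : ep S ω v' z = e0 ω v' z := ep_eq_e0 S ω (Or.inl hv')
  have fvu : ep S (fl4 v v' u z ω) v u = - e0 ω v u := by
    rw [ep_eq_e0 S _ (by tauto), e0_fl4 h ω h2]; simp
  have fvz : ep S (fl4 v v' u z ω) v z = - e0 ω v z := by
    rw [ep_eq_e0 S _ (by tauto), e0_fl4 h ω h3]; simp
  have fvu' : ep S (fl4 v v' u z ω) v' u = - e0 ω v' u := by
    rw [ep_eq_e0 S _ (Or.inl hv'), e0_fl4 h ω h4]; simp
  have fvz' : ep S (fl4 v v' u z ω) v' z = - e0 ω v' z := by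
    rw [ep_eq_e0 S _ (Or.inl hv'), e0_fl4 h ω h5]; simp
  have key : ∀ x ∈ A, ∑ y ∈ A, ep S (fl4 v v' u z ω) x y = ∑ y ∈ A, ep S ω x y := by
    intro x _
    by_cases x1 : x = v
    · subst x1
      apply sum_eq_of_two huA hzA h6
      · intro y _ hyu hyz
        apply ep_fl4_of h
        simp only [Sym2.eq_iff]
        tauto
      · rw [fvu, fvz, evu, evz]; linarith
    by_cases x2 : x = v'
    · subst x2
      apply sum_eq_of_two huA hzA h6
      · intro y _ hyu hyz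
        apply ep_fl4_of h
        simp only [Sym2.eq_iff]
        tauto
      · rw [fvu', fvz', evu', evz']; linarith
    by_cases x3 : x = u
    · subst x3
      apply sum_eq_of_two hvA hvA' h1
      · intro y _ hyu hyz
        apply ep_fl4_of h
        simp only [Sym2.eq_iff]
        tauto
      · rw [ep_symm S _ x v, ep_symm S _ x v', ep_symm S ω x v, ep_symm S ω x v', fvu, fvu', evu,
          evu']
        linarith
    by_cases x4 : x = z
    · subst x4
      apply sum_eq_of_two hvA hvA' h1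
      · intro y _ hyu hyz
        apply ep_fl4_of h
        simp only [Sym2.eq_iff]
        tauto
      · rw [ep_symm S _ x v, ep_symm S _ x v', ep_symm S ω x v, ep_symm S ω x v', fvz, fvz', evz,
          evz']
        linarith
    · apply Finset.sum_congr rfl
      intro y _
      apply ep_fl4_of h
      simp only [Sym2.eq_iff]
      tauto
  funext x
  unfold degs
  by_cases hx : x ∈ A
  · rw [if_pos hx, if_pos hx]
    have a := two_degIn S (fl4 v v' u z ω) hx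
    have b := two_degIn S ω hx
    rw [key x hx] at a
    have : (degIn (Hg S (fl4 v v' u z ω)) A x : ℝ) = degIn (Hg S ω) A x := by linarith
    exact_mod_cast this
  · rw [if_neg hx, if_neg hx]

variable {S : Finset (Fin n)} {R : TieRule n}

lemma hs_fl4 {v v' u z : Fin n} (h : Dist4 v v' u z) {ω : Om n} {t : ℕ}
    (hv' : v' ∉ S) (hv : v ∉ S ∨ (u ∉ S ∧ z ∉ S))
    (hg : gsw ω v v' u z ≠ 0) (hvA : v ∈ As S R t ω) (hvA' : v' ∈ As S R t ω)
    (huA : u ∈ As S R t ω) (hzA : z ∈ As S R t ω) :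
    hs S R t (fl4 v v' u z ω) = hs S R t ω := by
  have key : ∀ s ≤ t, stt (Hg S (fl4 v v' u z ω)) R s = stt (Hg S ω) R s := by
    intro s
    induction s with
    | zero => intro _; rfl
    | succ s ih =>
      intro hs
      have ih := ih (by omega)
      have hsub := As_anti S R (show s ≤ t by omega) ω
      have hd := degs_fl4 h hv' hv hg (hsub hvA) (hsub hvA') (hsub huA) (hsub hzA)
      unfold As at hd
      have e1 : (stt (Hg S (fl4 v v' u z ω)) R (s + 1)).1 = (stt (Hg S ω) R (s + 1)).1 := by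
        rw [stt_succ_fst, stt_succ_fst, ih, hd]
      have e2 : (stt (Hg S (fl4 v v' u z ω)) R (s + 1)).2 = (stt (Hg S ω) R (s + 1)).2 := by
        rw [stt_succ_snd, stt_succ_snd, e1, ih, minVerts_eq, minVerts_eq, hd]
      exact Prod.ext e1 e2
  have hd := degs_fl4 h hv' hv hg hvA hvA' huA hzA
  unfold As at hd
  unfold hs
  rw [stt_succ_fst, stt_succ_fst, key t le_rfl, hd]

/-- The switching identity: `F` is a function of the history, `G` is invariant under the flip. -/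
theorem switching {v v' u z : Fin n} (h : Dist4 v v' u z) {t : ℕ}
    (hv' : v' ∉ S) (hv : v ∉ S ∨ (u ∉ S ∧ z ∉ S)) {F G : Om n → ℝ} (hF : HM S R t F)
    (hG : ∀ ω, G (fl4 v v' u z ω) = G ω) :
    E (fun ω => if v ∈ As S R t ω ∧ v' ∈ As S R t ω ∧ u ∈ As S R t ω ∧ z ∈ As S R t ω then
      F ω * G ω * gsw ω v v' u z else 0) = 0 := by
  set f : Om n → ℝ := fun ω =>
    if v ∈ As S R t ω ∧ v' ∈ As S R t ω ∧ u ∈ As S R t ω ∧ z ∈ As S R t ω then
      F ω * G ω * gsw ω v v' u z else 0 with hf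
  have h1 : ∀ ω, f ω ≠ 0 → f (fl4 v v' u z ω) = - f ω := by
    intro ω hω
    have hc : v ∈ As S R t ω ∧ v' ∈ As S R t ω ∧ u ∈ As S R t ω ∧ z ∈ As S R t ω := by
      by_contra hc
      exact hω (by simp only [hf]; rw [if_neg hc])
    have hg : gsw ω v v' u z ≠ 0 := by
      intro hg
      exact hω (by simp only [hf]; rw [if_pos hc, hg, mul_zero])
    have hh := hs_fl4 h hv' hv hg hc.1 hc.2.1 hc.2.2.1 hc.2.2.2
    have hA : As S R t (fl4 v v' u z ω) = As S R t ω := HM_As t _ _ hh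
    simp only [hf]
    rw [hA, if_pos hc, if_pos hc, gsw_fl4 h, hG, hF _ _ hh]
    ring
  have h2 : ∀ ω, f (fl4 v v' u z ω) = - f ω := by
    intro ω
    by_cases hω : f ω = 0
    · rw [hω, neg_zero]
      by_contra hne
      have := h1 _ hne
      rw [fl4_fl4 h, hω] at this
      exact hne (by linarith)
    · exact h1 ω hω
  have h3 := E_fl4 v v' u z f
  have h4 : E (fun ω => f (fl4 v v' u z ω)) = - E f := by
    rw [← E_neg]
    exact E_congr h2
  linarith

end Pool.Agent.H40.Peel
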